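import Pool.Agent.MP_a43263_nt.N2.SpecB

/-! Packed rows. -/

section PkN2Bas

/-! Ordered bases of a subspace over a finite field. -/

set_option autoImplicit false

noncomputable section

namespace Pool.Agent.MP_a43263_nt.N2

open Polynomial Finset Filter Matrix JC Pool.Agent.MP_a43263_nt.UV K2

namespace BasA

theorem prod_ge {q : ℝ} (hq : 3 ≤ q) (k : ℕ) :
    q ^ (k * k) * (q ^ (k + 1) + 3) ≤ (q + 3) * (∏ i ∈ Finset.range k, (q ^ k - q ^ i)) * q ^ k := by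
  induction k with
  | zero => simp
  | succ k ih =>
    have e : ∏ i ∈ Finset.range (k + 1), (q ^ (k + 1) - q ^ i) =
        (∏ i ∈ Finset.range k, (q ^ k - q ^ i)) * q ^ k * (q ^ (k + 1) - 1) := by
      rw [Finset.prod_range_succ', pow_zero]
      congr 1
      have : ∀ i ∈ Finset.range k, q ^ (k + 1) - q ^ (i + 1) = (q ^ k - q ^ i) * q :=
        fun i _ => by ring
      rw [Finset.prod_congr rfl this, Finset.prod_mul_distrib, Finset.prod_const,
        Finset.card_range]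
    have q0 : 0 < q := by linarith
    have a1 : 1 ≤ q ^ k := one_le_pow₀ (by linarith)
    have hQ : 3 ≤ q ^ (k + 1) := by rw [pow_succ]; nlinarith
    have e2 : q ^ ((k + 1) * (k + 1)) = q ^ (k * k) * (q ^ k * q ^ (k + 1)) := by ring
    have e3 : q ^ (k + 1 + 1) = q * q ^ (k + 1) := by ring
    have e4 : q ^ (k + 1) = q * q ^ k := by ring
    have b : q ^ k * (q * q ^ (k + 1) + 3) ≤ (q ^ (k + 1) + 3) * (q ^ (k + 1) - 1) := by
      rw [e4] at hQ ⊢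
      nlinarith
    rw [e, e2, e3]
    calc _ = q ^ (k * k) * (q ^ k * (q * q ^ (k + 1) + 3)) * q ^ (k + 1) := by ring
      _ ≤ q ^ (k * k) * ((q ^ (k + 1) + 3) * (q ^ (k + 1) - 1)) * q ^ (k + 1) := by gcongr
      _ = q ^ (k * k) * (q ^ (k + 1) + 3) * ((q ^ (k + 1) - 1) * q ^ (k + 1)) := by ring
      _ ≤ (q + 3) * (∏ i ∈ Finset.range k, (q ^ k - q ^ i)) * q ^ k *
          ((q ^ (k + 1) - 1) * q ^ (k + 1)) :=
        mul_le_mul_of_nonneg_right ih (mul_nonneg (by linarith) (by linarith))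
      _ = _ := by ring

theorem prod_ge' {q : ℝ} (hq : 3 ≤ q) (k : ℕ) :
    q ^ (k * k) ≤ (1 + 3 / q) * ∏ i ∈ Finset.range k, (q ^ k - q ^ i) := by
  have q0 : 0 < q := by linarith
  have h := prod_ge hq k
  have p : 0 < q ^ (k + 1) := by positivity
  have p2 : 0 < q ^ (k * k) := by positivity
  refine le_of_mul_le_mul_right ?_ p
  have e : (1 + 3 / q) * (∏ i ∈ Finset.range k, (q ^ k - q ^ i)) * q ^ (k + 1) =
      (q + 3) * (∏ i ∈ Finset.range k, (q ^ k - q ^ i)) * q ^ k := by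
    field_simp
    ring
  rw [e]
  nlinarith

end BasA

theorem bas_n : BASStmt := by
  intro F _ _ hF k V _ _ W hW
  have hq : (3 : ℝ) ≤ Fintype.card F := by exact_mod_cast hF
  have hfin : Finite W := Nat.finite_of_card_ne_zero (by rw [hW]; positivity)
  have hk : Module.finrank F W = k := by
    have := Module.natCard_eq_pow_finrank (K := F) (V := W)
    rw [hW, Nat.card_eq_fintype_card] at this
    exact (Nat.pow_right_injective (by omega) this).symm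
  let : Fintype W := Fintype.ofFinite W
  have hc := card_linearIndependent (K := F) (V := W) (k := k) hk.ge
  rw [hk] at hc
  have key : Nat.card {s : Fin k → W // LinearIndependent F s} =
      Nat.card {x : Fin k → V // LinearIndependent F x ∧ Submodule.span F (Set.range x) = W} := by
    refine Nat.card_congr ⟨fun s => ⟨fun i => (s.1 i : V), s.2.map' W.subtype W.ker_subtype, ?_⟩,
      fun x => ⟨fun i => ⟨x.1 i, x.2.2.le (Submodule.subset_span ⟨i, rfl⟩)⟩,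
        LinearIndependent.of_comp W.subtype x.2.1⟩, fun s => rfl, fun x => rfl⟩
    have h1 : Submodule.span F (Set.range s.1) = ⊤ :=
      s.2.span_eq_top_of_card_eq_finrank' (by simp [hk])
    have h2 := congrArg (Submodule.map W.subtype) h1
    rw [Submodule.map_span, Submodule.map_subtype_top, ← Set.range_comp] at h2
    exact h2
  rw [← key, hc, Fin.prod_univ_eq_prod_range
    (fun i => Fintype.card F ^ k - Fintype.card F ^ i) k, Nat.cast_prod]
  refine (BasA.prod_ge' hq k).trans (le_of_eq ?_)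
  congr 1
  refine Finset.prod_congr rfl fun i hi => ?_
  rw [Nat.cast_sub (Nat.pow_le_pow_right (by omega) (Finset.mem_range.1 hi).le)]
  push_cast
  rfl

end Pool.Agent.MP_a43263_nt.N2

end

end PkN2Bas

section PkN2Count

/-! THEOREM N2, row COUNT: the count of non-isomorphic triples, with a rate. -/

set_option autoImplicit false

noncomputable section

namespace Pool.Agent.MP_a43263_nt.N2

open Polynomial Finset Filter Matrix JC Pool.Agent.MP_a43263_nt.UV K2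

namespace CountA

variable {g : ℕ}

/-- the change of both bases -/
def act (γ β : Mat g ℤ) (x : Trp g) : Trp g := (γᵀ * x.1 * γ, βᵀ * x.2.1 * β, βᵀ * x.2.2 * γ)

theorem act_act (γ β γ' β' : Mat g ℤ) (x : Trp g) :
    act γ' β' (act γ β x) = act (γ * γ') (β * β') x := by
  simp only [act, Matrix.transpose_mul, Matrix.mul_assoc]

theorem act_one (x : Trp g) : act 1 1 x = x := by
  simp only [act, Matrix.transpose_one, Matrix.one_mul, Matrix.mul_one]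

theorem rel {S : Finset (Trp g)} (hS : Nis S) {x y : Trp g} (hx : x ∈ S) (hy : y ∈ S)
    {γ β γ₂ β₂ : Mat g ℤ} (h1 : γ.det = 1) (h2 : β.det = 1) (h3 : γ₂.det = 1) (h4 : β₂.det = 1)
    (h : act γ₂ β₂ y = act γ β x) : x = y := by
  have u3 : γ₂ * γ₂⁻¹ = 1 := Matrix.mul_nonsing_inv _ (by rw [h3]; exact isUnit_one)
  have u4 : β₂ * β₂⁻¹ = 1 := Matrix.mul_nonsing_inv _ (by rw [h4]; exact isUnit_one)
  have d3 : (γ₂⁻¹).det = 1 := by
    have := congrArg Matrix.det u3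
    rwa [Matrix.det_mul, h3, one_mul, Matrix.det_one] at this
  have d4 : (β₂⁻¹).det = 1 := by
    have := congrArg Matrix.det u4
    rwa [Matrix.det_mul, h4, one_mul, Matrix.det_one] at this
  have e : y = act (γ * γ₂⁻¹) (β * β₂⁻¹) x := by
    rw [← act_act, ← h, act_act, u3, u4, act_one]
  exact hS x hx y hy _ _ (by rw [Matrix.det_mul, h1, d3, one_mul])
    (by rw [Matrix.det_mul, h2, d4, one_mul]) e

/-- representatives with a property -/
theorem reps {S : Finset (Trp g)} (hS : Nis S) (P : Trp g → Prop)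
    (h : ∀ x ∈ S, ∃ γ β : Mat g ℤ, γ.det = 1 ∧ β.det = 1 ∧ P (act γ β x)) :
    ∃ S' : Finset (Trp g), S'.card = S.card ∧ Nis S' ∧ ∀ x ∈ S', P x := by
  classical
  choose! γ β hγ hβ hP using h
  refine ⟨S.image fun x => act (γ x) (β x) x, Finset.card_image_of_injOn fun x hx y hy e => ?_,
    fun x' hx' y' hy' γ₃ β₃ h3 h4 e => ?_, fun x' hx' => ?_⟩
  · exact rel hS hx hy (hγ x hx) (hβ x hx) (hγ y hy) (hβ y hy) e.symm
  · obtain ⟨x, hx, rfl⟩ := Finset.mem_image.1 hx'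
    obtain ⟨y, hy, rfl⟩ := Finset.mem_image.1 hy'
    have e' : act (γ y) (β y) y = act (γ x * γ₃) (β x * β₃) x := by rw [← act_act]; exact e
    rw [rel hS hx hy (by rw [Matrix.det_mul, hγ x hx, h3, one_mul])
      (by rw [Matrix.det_mul, hβ x hx, h4, one_mul]) (hγ y hy) (hβ y hy) e']
  · obtain ⟨x, hx, rfl⟩ := Finset.mem_image.1 hx'
    exact hP x hx

/-- the scales -/
theorem scales {N₀ : ℕ} {ρ : ℝ} (h1 : 1 ≤ N₀) (h : (N₀ : ℝ) ≤ ρ) : ∃ l s k : ℕ, N₀ ≤ 2 ^ l ∧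
    4 * s + l ≤ k ∧ ρ ≤ 2 ^ k ∧ (2 : ℝ) ^ k ≤ 2 * ρ ∧
    1 / (2 : ℝ) ^ s ≤ 2 * ((N₀ : ℝ) / ρ) ^ (1 / 4 : ℝ) := by
  have hN : (1 : ℝ) ≤ N₀ := by exact_mod_cast h1
  have hρ1 : 1 ≤ ρ := hN.trans h
  obtain ⟨j, hj1, hj2⟩ := exists_nat_pow_near hρ1 (y := (2 : ℝ)) (by norm_num)
  obtain ⟨i, hi1, hi2⟩ := exists_nat_pow_near hN (y := (2 : ℝ)) (by norm_num)
  have hij : i < j + 1 :=
    (pow_lt_pow_iff_right₀ (by norm_num : (1 : ℝ) < 2)).1 ((hi1.trans h).trans_lt hj2)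
  refine ⟨i + 1, (j - i) / 4, j + 1, by exact_mod_cast hi2.le, by omega, hj2.le,
    by rw [pow_succ]; linarith, ?_⟩
  have hq : 0 ≤ (N₀ : ℝ) / ρ := by positivity
  have ht : (((N₀ : ℝ) / ρ) ^ (1 / 4 : ℝ)) ^ 4 = N₀ / ρ := by
    rw [← Real.rpow_natCast, ← Real.rpow_mul hq]; norm_num
  refine (pow_le_pow_iff_left₀ (n := 4) (by positivity) (by positivity) (by norm_num)).1 ?_
  rw [mul_pow, ht, div_pow, one_pow, ← mul_div_assoc,
    div_le_div_iff₀ (by positivity) (by positivity), one_mul]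
  have e : (2 : ℝ) ^ (j + 1) ≤ 2 ^ 4 * 2 ^ i * (2 ^ ((j - i) / 4)) ^ 4 := by
    rw [← pow_mul, ← pow_add, ← pow_add]
    exact pow_le_pow_right₀ (by norm_num) (by omega)
  calc ρ ≤ _ := hj2.le
    _ ≤ _ := e
    _ ≤ _ := by gcongr

end CountA

theorem count_n : CHGStmt → K2.REDStmt → COREStmt → COUNTStmt := by
  classical
  intro hC hR hK g hg
  obtain ⟨κ, hκ⟩ := hR g
  obtain ⟨K, hK, hcore⟩ := hK g κ hg
  obtain ⟨n, hn⟩ : ∃ n, n = (2 * g + 1) ^ 2 := ⟨_, rfl⟩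
  rw [← hn] at hcore ⊢
  refine ⟨K * 2 ^ n * (2 * 2 ^ (g * κ)), by positivity,
    fun L μ N₀ M ρ hL hμ hDen hN hM hρ S hNis hS => ?_⟩
  obtain ⟨m₂, hm1, hm2⟩ : ∃ m₂ : ℕ, M / 2 ^ (g * κ) < 4 ^ (m₂ + 1) ∧
      (m₂ ≠ 0 → 4 ^ m₂ ≤ M / 2 ^ (g * κ)) := by
    by_cases h1 : 1 ≤ M / 2 ^ (g * κ)
    · obtain ⟨n, h2, h3⟩ := exists_nat_pow_near h1 (y := (4 : ℝ)) (by norm_num)
      exact ⟨n, h3, fun _ => h2⟩
    · exact ⟨0, by linarith [not_le.1 h1], fun h => absurd rfl h⟩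
  obtain ⟨l, s, k, hl, hk, hk1, hk2, hs⟩ := CountA.scales hN hρ
  have hρ0 : 0 ≤ ρ := le_trans (Nat.cast_nonneg _) hρ
  obtain ⟨S', hc, hNis', hS'⟩ := CountA.reps hNis (fun x =>
      (∃ f m, UC.Irr f ∧ m ≠ 0 ∧ Tri f m x.1 x.2.1 x.2.2) ∧ L x.1 x.2.1 x.2.2 ∧
      ∃ e e' : Fin (2 * g + 1) → ℤ, UC.Ex e ∧ UC.Ex e' ∧ UC.Box κ e x.1 ∧ UC.Box κ e' x.2.1 ∧
      Box2 ((κ : ℤ) + k) e e' x.2.2 ∧ ¬Zb x.2.1 (Tt x.2.1 x.1 x.2.2ᵀ) ∧
      (Zb x.1 (Tt x.1 x.2.1 x.2.2) → m₂ ≠ 0 → (2 * m₂ : ℤ) ≤ dp k e)) fun x hx => by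
    obtain ⟨hLx, f, m, H, H', hZ, h0, hT, hMaj, hDst, hDst'⟩ := hS x hx
    obtain ⟨γ, β, e, e', hγ, hβ, hE, hE', b0, b1, b2, hcu, hnz⟩ :=
      hκ M ρ k x.1 x.2.1 x.2.2 H H' hT.det hT.det' hMaj hDst hDst' hρ0 hk1
    refine ⟨γ, β, hγ, hβ, ⟨f, m, hZ.irr, h0,
      hC.2.1 _ f m x.1 x.2.1 x.2.2 γ β hT.det hT.det' hγ hβ hT⟩,
      hL x.1 x.2.1 x.2.2 γ β hT.det hT.det' hγ hβ hLx, e, e', hE, hE', b0, b1, b2, hnz,
      fun hd h1 => ?_⟩
    have h2 := hm2 h1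
    rw [le_div_iff₀ (by positivity)] at h2
    have h3 : (4 : ℝ) ^ m₂ * 2 ^ (g * κ) = 2 ^ ((2 * m₂ + g * κ : ℕ) : ℤ) := by
      rw [zpow_natCast, pow_add, pow_mul 2 2 m₂]; norm_num
    have h4 := h2.trans (hcu hd)
    rw [h3, zpow_le_zpow_iff_right₀ (by norm_num)] at h4
    push_cast at h4 ⊢
    linarith
  have hmain := hcore L μ N₀ l hL hμ hDen hl s m₂ k hk S' hNis' hS'
  rw [hc] at hmain
  have hpow : ((2 : ℝ) ^ k) ^ n ≤ 2 ^ n * ρ ^ n := by
    rw [← mul_pow]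
    gcongr
  have hg1 : (1 : ℝ) ≤ 2 ^ (g * κ) := one_le_pow₀ (by norm_num)
  have t1 : μ ≤ 2 * 2 ^ (g * κ) * μ := le_mul_of_one_le_left hμ (by linarith)
  have t2 : 1 / (2 : ℝ) ^ s ≤ 2 * 2 ^ (g * κ) * ((N₀ : ℝ) / ρ) ^ (1 / 4 : ℝ) :=
    hs.trans (mul_le_mul_of_nonneg_right (by linarith) (by positivity))
  have t3 : 1 / (2 : ℝ) ^ m₂ ≤ 2 * 2 ^ (g * κ) * (1 / √M) := by
    rw [← mul_div_assoc, mul_one, div_le_div_iff₀ (by positivity) (Real.sqrt_pos.2 hM), one_mul]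
    refine Real.sqrt_le_iff.2 ⟨by positivity, ?_⟩
    rw [div_lt_iff₀ (by positivity)] at hm1
    have h4 : (4 : ℝ) ^ (m₂ + 1) = (2 * 2 ^ m₂) ^ 2 := by
      rw [← pow_succ', ← pow_mul, mul_comm, pow_mul]; norm_num
    calc M ≤ 4 ^ (m₂ + 1) * 2 ^ (g * κ) := hm1.le
      _ ≤ 4 ^ (m₂ + 1) * (2 ^ (g * κ)) ^ 2 := by
          gcongr
          exact le_self_pow₀ hg1 (by norm_num)
      _ = _ := by rw [h4]; ring
  calc (S.card : ℝ) ≤ _ := hmain
    _ ≤ K * (2 ^ n * ρ ^ n) * (2 * 2 ^ (g * κ) * μ +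
          2 * 2 ^ (g * κ) * ((N₀ : ℝ) / ρ) ^ (1 / 4 : ℝ) + 2 * 2 ^ (g * κ) * (1 / √M)) := by
        gcongr
    _ = _ := by ring

end Pool.Agent.MP_a43263_nt.N2

end

end PkN2Count

section PkN2Dtw

/-! THEOREM N2, row Dtw: the density at an unramified prime. -/

set_option autoImplicit false

namespace Pool.Agent.MP_a43263_nt.N2

open Finset Matrix JC Pool.Agent.MP_a43263_nt.UV K2

namespace DtwA

variable {F : Type} [Field F]

/-- independent isotropic tuples -/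
abbrev Iso (k : ℕ) {ι : Type} [Fintype ι] (S : Matrix ι ι F) : Type :=
  {x : Fin k → ι → F // LinearIndependent F x ∧ ∀ i j, x i ⬝ᵥ S *ᵥ x j = 0}

theorem ch2 (g : ℕ) : 2 * g.choose 2 + g = g * g := by
  induction g with
  | zero => rfl
  | succ g ih =>
    rw [Nat.choose_succ_succ' g 1, Nat.choose_one_right]
    show 2 * (g + g.choose 2) + (g + 1) = _
    nlinarith

theorem expo (g : ℕ) : g.choose 2 + (g + 1) * (g + 1) + (2 * g + 1) * (g + 1) +
    (g + 1 + 1).choose 2 = (g + 1) * (2 * g + 1 + (2 * g + 1)) + 1 := by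
  have a := ch2 g
  have b := ch2 (g + 1 + 1)
  nlinarith

theorem three [Fintype F] (h2 : (2 : F) ≠ 0) : 3 ≤ Fintype.card F :=
  Fintype.two_lt_card_iff.2 ⟨0, 1, 2, zero_ne_one, h2.symm, fun h => one_ne_zero (α := F) (by
    linear_combination -h)⟩

theorem conj {ι κ : Type} [Fintype ι] [Fintype κ] (S : Matrix ι ι F) (Γ : Matrix ι κ F)
    (x y : κ → F) : (Γ *ᵥ x) ⬝ᵥ S *ᵥ (Γ *ᵥ y) = x ⬝ᵥ (Γᵀ * S * Γ) *ᵥ y := by
  rw [← mulVec_mulVec, ← mulVec_mulVec, dotProduct_mulVec x, vecMul_transpose]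

/-- change of basis -/
theorem chg [Fintype F] {n k : ℕ} (S Γ : Matrix (Fin n) (Fin n) F) (h : IsUnit Γ.det) :
    Nat.card (Iso k (Γᵀ * S * Γ)) ≤ Nat.card (Iso k S) := by
  have hi : Function.Injective Γ.mulVec :=
    mulVec_injective_iff_isUnit.2 ((isUnit_iff_isUnit_det Γ).2 h)
  refine Nat.card_le_card_of_injective (fun x => ⟨fun i => Γ *ᵥ x.1 i,
    x.2.1.map' Γ.mulVecLin (LinearMap.ker_eq_bot.2 hi), fun i j => by rw [conj, x.2.2]⟩) ?_
  intro x y e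
  exact Subtype.ext (funext fun i => hi (congrFun (congrArg Subtype.val e) i))

theorem card_comap [Fintype F] {m : ℕ} (Λ : Submodule F (Fin m → F)) :
    Nat.card (Λ.comap (LinearMap.funLeft F F (Fin.succ : Fin m → Fin (m + 1)))) =
      Fintype.card F * Nat.card Λ := by
  rw [← Nat.card_eq_fintype_card, ← Nat.card_prod]
  refine Nat.card_congr ⟨fun x => (x.1 0, ⟨Fin.tail x.1, x.2⟩),
    fun p => ⟨Fin.cons p.1 p.2.1, p.2.2⟩, fun x => Subtype.ext (Fin.cons_self_tail x.1),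
    fun p => rfl⟩

/-- many isotropic tuples -/
theorem low [Fintype F] (lag : LAGCStmt) (bas : BASStmt) (h2 : (2 : F) ≠ 0) {g : ℕ} (hg : 1 ≤ g)
    {S : Mat g F} (h : Hz g S) :
    2 * (Fintype.card F : ℝ) ^ g.choose 2 * (Fintype.card F : ℝ) ^ ((g + 1) * (g + 1)) ≤
      (1 + 3 / Fintype.card F) * (Nat.card (Iso (g + 1) S) : ℝ) := by
  classical
  obtain ⟨Γ, e, h1, he, hs, hD⟩ := h
  obtain ⟨L, hL, hΛ⟩ := lag F h2 g e hg (fun i => (he i).ne_zero) hs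
  obtain ⟨τ, hτ⟩ : ∃ τ : (Fin (2 * g + 1) → F) →ₗ[F] (Fin (2 * g) → F),
    τ = LinearMap.funLeft F F Fin.succ := ⟨_, rfl⟩
  have sj : Function.Surjective τ := hτ ▸ LinearMap.funLeft_surjective_of_injective F F _
    (Fin.succ_injective _)
  have c1 : Nat.card (Σ Λ : L, {x : Fin (g + 1) → Fin (2 * g + 1) → F // LinearIndependent F x ∧
      Submodule.span F (Set.range x) = Λ.1.comap τ}) ≤ Nat.card (Iso (g + 1) (Γᵀ * S * Γ)) := by
    refine Nat.card_le_card_of_injective (fun t => ⟨t.2.1, t.2.2.1, fun i j => ?_⟩) ?_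
    · have m : ∀ i, τ (t.2.1 i) ∈ t.1.1 := fun i =>
        Submodule.mem_comap.1 (t.2.2.2.le (Submodule.subset_span ⟨i, rfl⟩))
      refine Eq.trans ?_ ((hΛ _ t.1.2).2 _ (m i) _ (m j))
      rw [hD, dotProduct, Fin.sum_univ_succ]
      simp only [mulVec_diagonal, Fin.cons_zero, Fin.cons_succ, hτ, LinearMap.funLeft_apply,
        zero_mul, mul_zero, zero_add]
      exact sum_congr rfl fun _ _ => by ring
    · rintro ⟨⟨Λ, a⟩, x, b⟩ ⟨⟨Λ', a'⟩, x', b'⟩ e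
      obtain rfl : x = x' := congrArg Subtype.val e
      obtain rfl : Λ = Λ' := Submodule.comap_injective_of_surjective sj (b.2.symm.trans b'.2)
      rfl
  have c2 := (Nat.cast_le (α := ℝ)).2 (c1.trans (chg S Γ h1))
  rw [Nat.card_sigma, Nat.cast_sum] at c2
  have c3 : 2 * (Fintype.card F : ℝ) ^ g.choose 2 ≤ L.card := by exact_mod_cast hL
  refine le_trans ?_ (mul_le_mul_of_nonneg_left c2 (by positivity))
  rw [mul_sum]
  refine le_trans ?_ (card_nsmul_le_sum _ _ ((Fintype.card F : ℝ) ^ ((g + 1) * (g + 1)))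
    fun Λ _ => bas F (three h2) (g + 1) _ _ ?_)
  · rw [nsmul_eq_mul, card_univ, Fintype.card_coe]
    gcongr
  · rw [hτ, card_comap, (hΛ _ Λ.2).1, pow_succ']

theorem dual {n k : ℕ} (x : Fin k → Fin n → F) : ∃ Y : Matrix (Fin k) (Fin n) F,
    LinearIndependent F x → ∀ j, Y *ᵥ x j = Pi.single j 1 := by
  by_cases h : LinearIndependent F x
  · obtain ⟨L, hL⟩ := (Fintype.linearCombination F x).exists_leftInverse_of_injective
      (LinearMap.ker_eq_bot.2 (h.fintypeLinearCombination_injective))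
    refine ⟨LinearMap.toMatrix' L, fun _ j => ?_⟩
    have := LinearMap.congr_fun hL (Pi.single j 1)
    rw [LinearMap.comp_apply, Fintype.linearCombination_apply_single, one_smul] at this
    rw [LinearMap.toMatrix'_mulVec, this, LinearMap.id_apply]
  · exact ⟨0, fun h' => absurd h' h⟩

/-- the double count -/
theorem up [Fintype F] {n k : ℕ} (A B : Matrix (Fin n) (Fin n) F)
    (P : Matrix (Fin n) (Fin n) F → Prop) :
    Nat.card (Σ N : {N // P N}, Iso k (A + N.1ᵀ * B * N.1)) * Fintype.card F ^ (n * k) ≤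
      Nat.card (Iso k (fromBlocks A 0 0 B)) * Fintype.card F ^ (n * n) := by
  classical
  choose Y hY using dual (F := F) (n := n) (k := k)
  have cm : ∀ m : ℕ, Fintype.card F ^ (n * m) = Nat.card (Matrix (Fin n) (Fin m) F) := fun m => by
    rw [Nat.card_eq_fintype_card]
    show _ = Fintype.card (Fin n → Fin m → F)
    simp only [Fintype.card_fun, Fintype.card_fin]
    rw [← pow_mul, mul_comm]
  rw [cm, cm, ← Nat.card_prod, ← Nat.card_prod]
  refine Nat.card_le_card_of_injective (fun t =>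
    (⟨fun i => Sum.elim (t.1.2.1 i) (t.1.1.1 *ᵥ t.1.2.1 i), ?_, fun i j => ?_⟩,
      t.1.1.1 + t.2 * Y t.1.2.1)) ?_
  · exact LinearIndependent.of_comp (LinearMap.funLeft F F Sum.inl) t.1.2.2.1
  · refine Eq.trans ?_ (t.1.2.2.2 i j)
    rw [add_mulVec, dotProduct_add, ← conj, fromBlocks_mulVec, sumElim_dotProduct_sumElim]
    simp
  · rintro ⟨⟨⟨N, a⟩, x, b⟩, U⟩ ⟨⟨⟨N', a'⟩, x', b'⟩, U'⟩ e
    have e1 := congrArg Subtype.val (congrArg Prod.fst e)
    have e2 : N + U * Y x = N' + U' * Y x' := congrArg Prod.snd e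
    obtain rfl : x = x' := funext fun i => funext fun s => congrFun (congrFun e1 i) (Sum.inl s)
    have e3 : ∀ i, N *ᵥ x i = N' *ᵥ x i := fun i =>
      funext fun s => congrFun (congrFun e1 i) (Sum.inr s)
    obtain rfl : U = U' := by
      ext s j
      have := congrFun (congrArg (fun M => M *ᵥ x j) e2) s
      simpa [add_mulVec, ← mulVec_mulVec, hY x b.1 j, e3] using this
    obtain rfl : N = N' := add_right_cancel e2
    rfl

end DtwA

open DtwA in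
theorem dtw_n : LAGCStmt → TUPStmt → BASStmt → DTWStmt := by
  classical
  intro lag tup bas g hg
  obtain ⟨C, C0, hC⟩ := tup (g + 1)
  refine ⟨3 + 4 * C, by positivity, fun F _ _ h2 A A' c w sA sA' dA dA' w0 hc => ?_⟩
  have eS : ∀ N : Mat g F, c • A + A * Tt A A' N = w ^ 2 • A + Nᵀ * (-A'⁻¹) * N := fun N => by
    rw [Tt, ← hc, mul_sub, mul_one, ← mul_assoc, ← mul_assoc, ← mul_assoc,
      mul_nonsing_inv A (isUnit_iff_ne_zero.2 dA), one_mul, add_smul, one_smul, mul_neg, neg_mul]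
    abel
  simp only [eS]
  have t := hC F h2 (Fin (2 * g + 1) ⊕ Fin (2 * g + 1)) (fromBlocks (w ^ 2 • A) 0 0 (-A'⁻¹))
    (IsSymm.fromBlocks (sA.smul _) transpose_zero sA'.inv.neg) (by
      rw [det_fromBlocks_zero₂₁, det_smul, det_neg]
      refine mul_ne_zero (mul_ne_zero (by positivity) dA) (mul_ne_zero (by simp) ?_)
      exact (isUnit_nonsing_inv_det A' (isUnit_iff_ne_zero.2 dA')).ne_zero)
    (by simp only [Fintype.card_sum, Fintype.card_fin]; omega)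
  simp only [Fintype.card_sum, Fintype.card_fin] at t
  have u := (Nat.cast_le (α := ℝ)).2 (up (k := g + 1) (w ^ 2 • A) (-A'⁻¹)
    fun N => Hz g (w ^ 2 • A + Nᵀ * (-A'⁻¹) * N))
  rw [Nat.card_sigma] at u
  push_cast at u
  have l := card_nsmul_le_sum univ _ _ fun
    (N : {N : Mat g F // Hz g (w ^ 2 • A + Nᵀ * (-A'⁻¹) * N)}) _ => low lag bas h2 hg N.2
  rw [← mul_sum, nsmul_eq_mul, card_univ, ← Nat.card_eq_fintype_card] at l
  have q1 : (1 : ℝ) ≤ Fintype.card F := by exact_mod_cast Fintype.card_pos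
  generalize (Fintype.card F : ℝ) = q at *
  generalize (Nat.card {N : Mat g F // Hz g (w ^ 2 • A + Nᵀ * (-A'⁻¹) * N)} : ℝ) = H at *
  generalize (∑ N : {N : Mat g F // Hz g (w ^ 2 • A + Nᵀ * (-A'⁻¹) * N)},
    (Nat.card (Iso (g + 1) (w ^ 2 • A + N.1ᵀ * (-A'⁻¹) * N.1)) : ℝ)) = T at *
  generalize (Nat.card (Iso (g + 1) (fromBlocks (w ^ 2 • A) 0 0 (-A'⁻¹))) : ℝ) = U at *
  have q0 : 0 < q := by linarith
  have z : (1 + 3 / q) * (1 + C / q) ≤ 1 + (3 + 4 * C) / q := by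
    have a1 : 3 / q ≤ 3 := div_le_self (by norm_num) q1
    have a2 : 0 ≤ C / q := by positivity
    have a3 : (3 + 4 * C) / q = 3 / q + 4 * (C / q) := by ring
    nlinarith
  refine le_of_mul_le_mul_right ?_ (pow_pos q0 ((g + 1) * (2 * g + 1 + (2 * g + 1))))
  calc _ = H * 2 * q ^ ((g + 1) * (2 * g + 1 + (2 * g + 1)) + 1) := by ring
    _ = H * (2 * q ^ g.choose 2 * q ^ ((g + 1) * (g + 1))) * q ^ ((2 * g + 1) * (g + 1)) *
        q ^ (g + 1 + 1).choose 2 := by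
      rw [← expo, pow_add, pow_add, pow_add]; ring
    _ ≤ (1 + 3 / q) * T * q ^ ((2 * g + 1) * (g + 1)) * q ^ (g + 1 + 1).choose 2 := by gcongr
    _ = (1 + 3 / q) * (T * q ^ ((2 * g + 1) * (g + 1))) * q ^ (g + 1 + 1).choose 2 := by ring
    _ ≤ (1 + 3 / q) * (U * q ^ ((2 * g + 1) * (2 * g + 1))) * q ^ (g + 1 + 1).choose 2 := by gcongr
    _ = (1 + 3 / q) * (U * q ^ (g + 1 + 1).choose 2) * q ^ ((2 * g + 1) * (2 * g + 1)) := by ring
    _ ≤ (1 + 3 / q) * (q ^ ((g + 1) * (2 * g + 1 + (2 * g + 1))) * (1 + C / q)) *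
        q ^ ((2 * g + 1) * (2 * g + 1)) := by gcongr
    _ = (1 + 3 / q) * (1 + C / q) * (q ^ ((g + 1) * (2 * g + 1 + (2 * g + 1))) *
        q ^ ((2 * g + 1) * (2 * g + 1))) := by ring
    _ ≤ (1 + (3 + 4 * C) / q) * (q ^ ((g + 1) * (2 * g + 1 + (2 * g + 1))) *
        q ^ ((2 * g + 1) * (2 * g + 1))) := by gcongr
    _ = _ := by rw [sq (2 * g + 1)]; ring

end Pool.Agent.MP_a43263_nt.N2

end PkN2Dtw

section PkN2Fam

/-! THEOREM N2, row FAM: many pairwise non-isomorphic triples. -/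

set_option autoImplicit false

noncomputable section

namespace Pool.Agent.MP_a43263_nt.N2

open Polynomial Finset Filter Matrix JC Pool.Agent.MP_a43263_nt.UV K2

namespace FamA

/-- A product of finite families, as functions on all indices. -/
theorem fam {β : ℕ → Type} [∀ p, Inhabited (β p)] (s : Finset ℕ) (P : ∀ p, β p → Prop) (c : ℕ → ℕ)
    (h : ∀ p ∈ s, ∃ L : Finset (β p), c p ≤ L.card ∧ ∀ x ∈ L, P p x) :
    ∃ J : Finset (∀ p, β p), ∏ p ∈ s, c p ≤ J.card ∧ (∀ x ∈ J, ∀ p ∈ s, P p (x p)) ∧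
      ∀ x ∈ J, ∀ y ∈ J, (∀ p ∈ s, x p = y p) → x = y := by
  classical
  choose! L h1 h2 using h
  let e : (∀ p ∈ s, β p) → ∀ p, β p := fun j p => if k : p ∈ s then j p k else default
  have he : ∀ j p k, e j p = j p k := fun j p k => dif_pos k
  have hi : ∀ j j', (∀ p ∈ s, e j p = e j' p) → j = j' := fun j j' q =>
    funext₂ fun p k => by rw [← he j p k, q p k, he]
  refine ⟨(s.pi L).image e, ?_, fun x hx p k => ?_, fun x hx y hy q => ?_⟩
  · rw [card_image_of_injective _ fun j j' q => hi j j' fun p _ => congrFun q p, card_pi]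
    exact prod_le_prod' h1
  · obtain ⟨j, hj, rfl⟩ := mem_image.1 hx
    rw [he j p k]
    exact h2 p k _ (mem_pi.1 hj p k)
  · obtain ⟨j, -, rfl⟩ := mem_image.1 hx
    obtain ⟨j', -, rfl⟩ := mem_image.1 hy
    rw [hi j j' q]

end FamA

theorem fam_n : LGOStmt → OVLStmt → TRPStmt → LOPStmt → LTPStmt → NISStmt → FAMStmt := by
  classical
  intro lgo ovl trp lop ltp nis g Q m₀ m₁ a f m A A' M T hS hF hd hP
  have sf : Squarefree m₁ := hS.sf.squarefree_of_dvd hd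
  have mem : ∀ p : ℕ, p.Prime → p ∣ m₁ → p ∈ m₁.primeFactors := fun p a b =>
    Nat.mem_primeFactors.2 ⟨a, b, sf.ne_zero⟩
  have odd : ∀ p : ℕ, p ∣ m₁ → p ≠ 2 := fun p b e => hS.odd (e ▸ b.trans hd)
  have l1 := fun p a b => lgo g p A hF.zq.pos a (odd p b) hP.sa (hP.hy p a b).1
  have l2 := fun p a b => lgo g p A' hF.zq.pos a (odd p b) hP.sa' (hP.hy p a b).2.1
  obtain ⟨J, j1, j2, j3⟩ := FamA.fam m₁.primeFactors (fun p Λ => Lg (g := g) p A Λ)
    (fun p => 2 * p ^ g.choose 2) fun p k =>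
      (l1 p (Nat.prime_of_mem_primeFactors k) (Nat.dvd_of_mem_primeFactors k)).2
  obtain ⟨J', k1, k2, k3⟩ := FamA.fam m₁.primeFactors (fun p Λ => Lg (g := g) p A' Λ)
    (fun p => 2 * p ^ g.choose 2) fun p k =>
      (l2 p (Nat.prime_of_mem_primeFactors k) (Nat.dvd_of_mem_primeFactors k)).2
  have ex : ∀ z ∈ J ×ˢ J', ∃ (t : Trp g) (R R' : Mat g ℤ), Ov m₁ A z.1 R t.1 ∧
      Ov m₁ A' z.2 R' t.2.1 ∧ Tp g f m m₁ A' M T R R' t.1 t.2.1 t.2.2 := fun z hz => by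
    obtain ⟨z1, z2⟩ := mem_product.1 hz
    obtain ⟨R, B, o⟩ := ovl g m₁ A z.1 sf hP.dA fun p a b => j2 _ z1 p (mem p a b)
    obtain ⟨R', B', o'⟩ := ovl g m₁ A' z.2 sf hP.dA' fun p a b => k2 _ z2 p (mem p a b)
    obtain ⟨N, hN⟩ := trp g Q m₀ m₁ a f m A A' M T R R' B B' z.1 z.2 hF.zq hF.ev sf hP o o'
    exact ⟨(B, B', N), R, R', o, o', hN⟩
  choose! t R R' o o' ht using ex
  have key : ∀ z ∈ J ×ˢ J', ∀ w ∈ J ×ˢ J', ∀ γ β : Mat g ℤ, γ.det = 1 → β.det = 1 →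
      t w = (γᵀ * (t z).1 * γ, βᵀ * (t z).2.1 * β, βᵀ * (t z).2.2 * γ) → z = w := by
    intro z hz w hw γ β h1 h2 e
    have q := nis g Q m₀ m₁ a f m A A' M T _ _ _ _ _ _ _ _ _ _ γ β z.1 z.2 w.1 w.2 hF.zq hF.ev sf
      hP (o z hz) (o' z hz) (ht z hz) (o w hw) (o' w hw) (ht w hw) h1 h2 (congrArg (·.1) e)
      (congrArg (·.2.1) e) (congrArg (·.2.2) e)
    have q' := fun p k => q p (Nat.prime_of_mem_primeFactors k) (Nat.dvd_of_mem_primeFactors k)
    exact Prod.ext (j3 _ (mem_product.1 hz).1 _ (mem_product.1 hw).1 fun p k => (q' p k).1)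
      (k3 _ (mem_product.1 hz).2 _ (mem_product.1 hw).2 fun p k => (q' p k).2)
  refine ⟨(J ×ˢ J').image t, ?_, fun x hx y hy γ β h1 h2 e => ?_, fun x hx => ?_⟩
  · rw [card_image_of_injOn fun z hz w hw e => key z hz w hw 1 1 det_one det_one (by simp [← e]),
      card_product, mu1, prod_pow, sq]
    exact Nat.mul_le_mul j1 k1
  · obtain ⟨z, hz, rfl⟩ := mem_image.1 hx
    obtain ⟨w, hw, rfl⟩ := mem_image.1 hy
    rw [key z hz w hw γ β h1 h2 e]
  · obtain ⟨z, hz, rfl⟩ := mem_image.1 hx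
    have u := ltp g Q m₀ m₁ a f m A A' M T _ _ _ _ _ z.1 z.2 hS hF hd hP (o z hz) (o' z hz) (ht z hz)
    exact ⟨(ht z hz).tri, ⟨u.1, fun p b c => lop g Q m₀ m₁ a f m A A' M T _ _ _ _ _ z.1 z.2 p hS hF
      hd hP (o z hz) (o' z hz) (ht z hz) b c (l1 p b c).1 (l2 p b c).1, u.2⟩, (ht z hz).nd⟩

end Pool.Agent.MP_a43263_nt.N2

end

end PkN2Fam

section PkN2Fh

/-! THEOREM N2, the scaled polynomial. -/

set_option autoImplicit false

noncomputable section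

namespace Pool.Agent.MP_a43263_nt.N2

open Polynomial Finset Filter Matrix JC Pool.Agent.MP_a43263_nt.UV K2

namespace FhA

theorem ev (K : Type) [CommRing K] (c : ℤ) (f : ℤ[X]) (y : K) :
    (zK (fh c f) K).eval (1 - (c : K) ^ 2 + (c : K) ^ 2 * y) =
      ((c : K) ^ 2) ^ f.natDegree * (zK f K).eval y := by
  have h := scaleRoots_eval₂_mul (p := f) (Int.castRingHom K) y (c ^ 2)
  simp only [eq_intCast, Int.cast_pow] at h
  rw [eval_map, eval_map, fh, eval₂_comp, ← h]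
  congr 1
  rw [eval₂_sub, eval₂_X, eval₂_C, eq_intCast]
  push_cast
  ring

theorem ev' (K : Type) [Field K] {c : ℤ} (hc : (c : K) ≠ 0) (f : ℤ[X]) (x : K) :
    (zK (fh c f) K).eval x =
      ((c : K) ^ 2) ^ f.natDegree * (zK f K).eval ((x - (1 - (c : K) ^ 2)) / (c : K) ^ 2) := by
  rw [← ev]
  congr 1
  field_simp
  ring

theorem inj {f f' : ℤ[X]} (h : ∀ x : ℚ, (zK f ℚ).eval x = (zK f' ℚ).eval x) : f = f' :=
  map_injective (Int.castRingHom ℚ) (RingHom.injective_int _) (Polynomial.funext h)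

end FhA

open FhA in
theorem fh_n : FHStmt := by
  intro g c f hc hf
  have hq : (c : ℚ) ≠ 0 := by exact_mod_cast hc
  have hq2 : (c : ℚ) ^ 2 ≠ 0 := pow_ne_zero _ hq
  refine ⟨⟨hf.pos, ?_, ?_, ?_⟩, fun T hT => inj fun x => ?_, fun ρ hρ h θ hθ => ?_,
    fun f' hf' h => inj fun y => ?_⟩
  · exact ((monic_scaleRoots_iff _).2 hf.monic).comp_X_sub_C _
  · rw [fh, natDegree_comp, natDegree_scaleRoots, natDegree_X_sub_C, mul_one, hf.deg]
  · let _ : Invertible ((c : ℚ) ^ 2)⁻¹ := invertibleOfNonzero (inv_ne_zero hq2)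
    have e : zK (fh c f) ℚ = C (((c : ℚ) ^ 2) ^ f.natDegree) *
        algEquivCMulXAddC ((c : ℚ) ^ 2)⁻¹ (-(1 - (c : ℚ) ^ 2) / (c : ℚ) ^ 2) (zK f ℚ) := by
      refine Polynomial.funext fun x => ?_
      rw [ev' ℚ hq, eval_mul, eval_C, algEquivCMulXAddC_apply, ← comp_eq_aeval, eval_comp]
      congr 2
      simp only [eval_add, eval_mul, eval_C, eval_X]
      field_simp
      ring
    rw [e, irreducible_isUnit_mul (isUnit_C.2 (IsUnit.mk0 _ (pow_ne_zero _ hq2)))]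
    exact (MulEquiv.irreducible_iff _).2 hf.irr
  · rw [ev' ℚ hq, hf.deg, ← hT, zK, zK, ← charpoly_map, ← charpoly_map, eval_charpoly,
      eval_charpoly]
    have e := det_smul (scalar (Fin (2 * g + 1)) ((x - (1 - (c : ℚ) ^ 2)) / (c : ℚ) ^ 2) -
      T.map (Int.castRingHom ℚ)) ((c : ℚ) ^ 2)
    rw [Fintype.card_fin] at e
    rw [← e]
    congr 1
    ext i j
    simp only [map_apply, Matrix.sub_apply, Matrix.add_apply, Matrix.smul_apply, smul_eq_mul,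
      scalar_apply, diagonal_apply, one_apply, eq_intCast]
    split_ifs
    · push_cast
      field_simp
      ring
    · push_cast
      ring
  · have hC : (c : ℂ) ≠ 0 := by exact_mod_cast hc
    rw [ev' ℂ hC, mul_eq_zero] at hθ
    obtain ⟨-, h2⟩ := h _ (hθ.resolve_left (pow_ne_zero _ (pow_ne_zero _ hC)))
    have e : 1 - (θ - (1 - (c : ℂ) ^ 2)) / (c : ℂ) ^ 2 = (1 - θ) / (c : ℂ) ^ 2 := by
      field_simp
      ring
    have h1 : (1 : ℝ) ≤ |(c : ℝ)| := by exact_mod_cast Int.one_le_abs hc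
    rw [e, norm_div, norm_pow, Complex.norm_intCast, div_le_iff₀ (by positivity)] at h2
    have h3 : ‖θ‖ ≤ 1 + ‖1 - θ‖ := by
      have := norm_sub_le (1 : ℂ) (1 - θ)
      rwa [sub_sub_cancel, norm_one] at this
    have h4 : 1 ≤ ρ ^ 2 * |(c : ℝ)| ^ 2 :=
      one_le_mul_of_one_le_of_one_le (one_le_pow₀ hρ) (one_le_pow₀ h1)
    constructor <;> nlinarith
  · have h1 := FhA.ev ℚ c f y
    rw [h, FhA.ev, hf.deg, hf'.deg] at h1
    exact (mul_left_cancel₀ (pow_ne_zero _ hq2) h1).symm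

end Pool.Agent.MP_a43263_nt.N2

end

end PkN2Fh

section PkN2Flg

/-! THEOREM N2: the number of matrices adapted to a pair of flags. -/

set_option autoImplicit false

noncomputable section

namespace Pool.Agent.MP_a43263_nt.N2

open Polynomial Finset Filter Matrix JC Pool.Agent.MP_a43263_nt.UV K2

namespace FlgA

theorem grow {F V : Type} [Field F] [AddCommGroup V] [Module F V] [Module.Finite F V]
    (U : Submodule F V) (m : ℕ) (x : ℕ → V) (h : LinearIndependent F fun i : Fin m => x i)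
    (hU : ∀ i < m, x i ∈ U) (k : ℕ) (hk : m + k ≤ Module.finrank F U) :
    ∃ y : ℕ → V, (LinearIndependent F fun i : Fin (m + k) => y i) ∧ (∀ i < m, y i = x i) ∧
      ∀ i < m + k, y i ∈ U := by
  induction k with
  | zero => exact ⟨x, h, fun _ _ => rfl, hU⟩
  | succ k ih =>
    obtain ⟨y, h1, h2, h3⟩ := ih (by omega)
    obtain ⟨v, hv, hv'⟩ : ∃ v ∈ U,
        v ∉ Submodule.span F (Set.range fun i : Fin (m + k) => y i) := by
      by_contra hc
      push Not at hc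
      have a1 := Submodule.finrank_mono (show U ≤ _ from hc)
      have a2 := finrank_range_le_card (R := F) fun i : Fin (m + k) => y i
      rw [Set.finrank, Fintype.card_fin] at a2
      omega
    refine ⟨Function.update y (m + k) v, ?_, fun i hi => ?_, fun i hi => ?_⟩
    · have e : (fun i : Fin (m + k + 1) => Function.update y (m + k) v i) =
          Fin.snoc (fun i : Fin (m + k) => y i) v := by
        funext i
        induction i using Fin.lastCases with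
        | last => simp
        | cast j => simp [Function.update_of_ne j.2.ne]
      exact e ▸ linearIndependent_finSnoc.2 ⟨h1, hv'⟩
    · rw [Function.update_of_ne (by omega), h2 i hi]
    · by_cases e : i = m + k
      · rw [e, Function.update_self]; exact hv
      · rw [Function.update_of_ne e]; exact h3 i (by omega)

theorem cast_dot {g : ℕ} (p : ℕ) (A : Mat g ℤ) (x y : Vz g) :
    ((x ⬝ᵥ A *ᵥ y : ℤ) : ZMod p) = rd p x ⬝ᵥ mK A (ZMod p) *ᵥ rd p y := by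
  simp [dotProduct, mulVec, rd]

theorem rd_surj {g : ℕ} (p : ℕ) (v : Fin (2 * g + 1) → ZMod p) : ∃ x : Vz g, rd p x = v :=
  ⟨fun i => (v i).cast, funext fun i => ZMod.intCast_zmod_cast (v i)⟩

/-- a frame adapted to the flag -/
theorem frame {g p : ℕ} (hp : p.Prime) (A : Mat g ℤ) (M : Sub g p) (hM : Is1 p A M) :
    ∃ P : Mat g ℤ, IsUnit (mK P (ZMod (p ^ 2))) ∧ ∀ j : Fin (2 * g + 1),
      (j.1 < g → rd p (Pᵀ j) ∈ M) ∧ (j.1 ≤ g → Pp p A M (Pᵀ j)) := by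
  have : Fact p.Prime := ⟨hp⟩
  have h1 : Module.finrank (ZMod p) M = g := by
    have := hM.1
    rw [Module.natCard_eq_pow_finrank (K := ZMod p), Nat.card_zmod] at this
    exact Nat.pow_right_injective hp.two_le this
  let Φ := (Matrix.toBilin' (mK A (ZMod p))).compl₂ M.subtype
  have h2 : ∀ v, v ∈ LinearMap.ker Φ ↔ ∀ y ∈ M, v ⬝ᵥ mK A (ZMod p) *ᵥ y = 0 := fun v => by
    rw [LinearMap.mem_ker, LinearMap.ext_iff]
    simp [Φ, Matrix.toBilin'_apply']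
  have h3 : g + 1 ≤ Module.finrank (ZMod p) (LinearMap.ker Φ) := by
    have a1 := Φ.finrank_range_add_finrank_ker
    have a2 := Submodule.finrank_le (LinearMap.range Φ)
    have a3 : Module.finrank (ZMod p) (M →ₗ[ZMod p] ZMod p) = g :=
      (Subspace.dual_finrank_eq (K := ZMod p) (V := M)).trans h1
    rw [Module.finrank_fintype_fun_eq_card, Fintype.card_fin] at a1
    omega
  have h4 : M ≤ LinearMap.ker Φ := fun v hv => (h2 v).2 fun y hy => by
    obtain ⟨x, rfl⟩ := rd_surj p v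
    obtain ⟨z, rfl⟩ := rd_surj p y
    rw [← cast_dot, ZMod.intCast_zmod_eq_zero_iff_dvd]
    exact hM.2 x z hv hy
  obtain ⟨y1, a1, -, a2⟩ := grow M 0 (fun _ => 0) linearIndependent_empty_type
    (fun _ h => absurd h (Nat.not_lt_zero _)) g (by omega)
  obtain ⟨y2, b1, b2, b3⟩ := grow (LinearMap.ker Φ) (0 + g) y1 a1 (fun i hi => h4 (a2 i hi)) 1
    (by omega)
  obtain ⟨y3, c1, c2, -⟩ := grow ⊤ (0 + g + 1) y2 b1 (fun _ _ => trivial) g
    (by rw [finrank_top, Module.finrank_fintype_fun_eq_card, Fintype.card_fin]; omega)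
  rw [show 0 + g + 1 + g = 2 * g + 1 by omega] at c1
  choose x hx using fun i => rd_surj p (y3 i)
  refine ⟨Matrix.of fun i j => x j i, ?_, fun j => ⟨fun hj => ?_, fun hj y hy => ?_⟩⟩
  · have d1 : IsUnit (mK (g := g) (Matrix.of fun i j => x j i) (ZMod p)) :=
      Matrix.linearIndependent_cols_iff_isUnit.1 (by
        have e : (mK (g := g) (Matrix.of fun i j => x j i) (ZMod p)).col =
            fun i : Fin (2 * g + 1) => y3 i := funext fun j => hx j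
        rw [e]
        exact c1)
    rw [Matrix.isUnit_iff_isUnit_det, mK_det, ZMod.coe_int_isUnit_iff_isCoprime] at d1 ⊢
    push_cast
    exact d1.pow_left
  · show rd p (x j) ∈ M
    rw [hx, c2 j (by omega), b2 j (by omega)]
    exact a2 j (by omega)
  · show (p : ℤ) ∣ x j ⬝ᵥ A *ᵥ y
    rw [← ZMod.intCast_zmod_eq_zero_iff_dvd, cast_dot, hx, c2 j (by omega)]
    exact (h2 _).1 (b3 j (by omega)) _ hy

theorem cast_zero {p : ℕ} {u : ℤ} (h : (p : ℤ) ^ 2 ∣ u) : (u : ZMod (p ^ 2)) = 0 :=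
  (ZMod.intCast_zmod_eq_zero_iff_dvd u (p ^ 2)).2 (by exact_mod_cast h)

theorem mult {p : ℕ} (hp : p.Prime) : ∃ e : Finset (ZMod (p ^ 2)), e.card ≤ p ∧
    ∀ u : ℤ, (p : ℤ) ∣ u → (u : ZMod (p ^ 2)) ∈ e := by
  have : NeZero p := ⟨hp.ne_zero⟩
  refine ⟨univ.image fun t : ZMod p => (((p : ℤ) * (t.cast : ℤ) : ℤ) : ZMod (p ^ 2)),
    card_image_le.trans (by simp), ?_⟩
  rintro _ ⟨s, rfl⟩
  refine mem_image.2 ⟨(s : ZMod p), mem_univ _, ?_⟩
  rw [← sub_eq_zero, ← Int.cast_sub, ← mul_sub]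
  refine cast_zero ?_
  rw [sq]
  refine mul_dvd_mul_left _ ((ZMod.intCast_zmod_eq_zero_iff_dvd _ p).1 ?_)
  rw [Int.cast_sub, ZMod.intCast_zmod_cast, sub_self]

theorem two {p : ℕ} (hp : p.Prime) (c : ℤ) : ∃ e : Finset (ZMod (p ^ 2)), e.card ≤ 2 ∧
    ∀ u : ℤ, (p : ℤ) ∣ u → (p : ℤ) ^ 3 ∣ u ^ 2 - (p : ℤ) ^ 2 * c → (u : ZMod (p ^ 2)) ∈ e := by
  have p0 : (p : ℤ) ^ 2 ≠ 0 := pow_ne_zero _ (by exact_mod_cast hp.ne_zero)
  have key : ∀ s : ℤ, (p : ℤ) ^ 3 ∣ (p * s) ^ 2 - (p : ℤ) ^ 2 * c → (p : ℤ) ∣ s ^ 2 - c :=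
    fun s h => (mul_dvd_mul_iff_left p0).1 (by rwa [← pow_succ, mul_sub, ← mul_pow])
  by_cases h : ∃ s : ℤ, (p : ℤ) ∣ s ^ 2 - c
  · obtain ⟨s, hs⟩ := h
    refine ⟨{((p * s : ℤ) : ZMod (p ^ 2)), ((-(p * s) : ℤ) : ZMod (p ^ 2))}, card_le_two, ?_⟩
    rintro _ ⟨t, rfl⟩ ht
    have h1 : (p : ℤ) ∣ (t - s) * (t + s) := by
      have := (key t ht).sub hs
      rwa [show t ^ 2 - c - (s ^ 2 - c) = (t - s) * (t + s) by ring] at this
    rw [mem_insert, mem_singleton, ← sub_eq_zero, ← Int.cast_sub, ← sub_eq_zero (b := Int.cast _),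
      ← Int.cast_sub, sub_neg_eq_add, ← mul_sub, ← mul_add]
    exact ((Nat.prime_iff_prime_int.1 hp).dvd_or_dvd h1).imp
      (fun a => cast_zero (by rw [sq]; exact mul_dvd_mul_left _ a))
      fun a => cast_zero (by rw [sq]; exact mul_dvd_mul_left _ a)
  · refine ⟨∅, Nat.zero_le _, ?_⟩
    rintro _ ⟨t, rfl⟩ ht
    exact absurd ⟨t, key t ht⟩ h

theorem entry {p : ℕ} (hp : p.Prime) (g i j : ℕ) (c : ℤ) : ∃ e : Finset (ZMod (p ^ 2)),
    e.card ≤ (if i = g ∧ j = g then 2 else 1) *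
      (p ^ (if g < i then 1 else 0) * p ^ (if g < j then 1 else 0)) ∧
    ∀ u : ℤ, (j ≤ g → (p : ℤ) ∣ u) → (i ≤ g → (p : ℤ) ∣ u) → (j < g → i ≤ g → (p : ℤ) ^ 2 ∣ u) →
      (j ≤ g → i < g → (p : ℤ) ^ 2 ∣ u) →
      (j ≤ g → i ≤ g → (p : ℤ) ^ 3 ∣ u ^ 2 - (p : ℤ) ^ 2 * c) → (u : ZMod (p ^ 2)) ∈ e := by
  have : NeZero (p ^ 2) := ⟨pow_ne_zero _ hp.ne_zero⟩
  obtain ⟨e1, a1, a2⟩ := mult hp
  obtain ⟨e2, b1, b2⟩ := two hp c
  by_cases hi : g < i <;> by_cases hj : g < j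
  · refine ⟨univ, ?_, fun _ _ _ _ _ _ => mem_univ _⟩
    rw [if_pos hi, if_pos hj, if_neg (by omega), card_univ, ZMod.card, one_mul, pow_one, sq]
  · refine ⟨e1, ?_, fun u h _ _ _ _ => a2 u (h (by omega))⟩
    rwa [if_pos hi, if_neg hj, if_neg (by omega), one_mul, pow_one, pow_zero, mul_one]
  · refine ⟨e1, ?_, fun u _ h _ _ _ => a2 u (h (by omega))⟩
    rwa [if_neg hi, if_pos hj, if_neg (by omega), one_mul, pow_one, pow_zero, one_mul]
  · rw [if_neg hi, if_neg hj, pow_zero, mul_one, mul_one]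
    by_cases h : i = g ∧ j = g
    · exact ⟨e2, by rwa [if_pos h], fun u h1 _ _ _ h2 =>
        b2 u (h1 h.2.le) (h2 h.2.le h.1.le)⟩
    · refine ⟨{0}, by rw [if_neg h, card_singleton], fun u _ _ h1 h2 _ =>
        mem_singleton.2 (cast_zero ?_)⟩
      by_cases a : j < g
      · exact h1 a (by omega)
      · exact h2 (by omega) (by omega)

theorem count (g p : ℕ) : ∏ i : Fin (2 * g + 1), ∏ j : Fin (2 * g + 1),
    (if i.1 = g ∧ j.1 = g then 2 else 1) *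
      (p ^ (if g < i.1 then 1 else 0) * p ^ (if g < j.1 then 1 else 0)) =
    2 * p ^ (4 * g ^ 2 + 2 * g) := by
  have h1 : ∑ i : Fin (2 * g + 1), (if g < i.1 then 1 else 0) = g := by
    rw [Fin.sum_univ_eq_sum_range (fun i => if g < i then 1 else 0), ← card_filter,
      show (range (2 * g + 1)).filter (fun i => g < i) = Ioo g (2 * g + 1) by
        ext i; simp [and_comm], Nat.card_Ioo]
    omega
  have h2 : ∏ i : Fin (2 * g + 1), ∏ j : Fin (2 * g + 1),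
      (if i.1 = g ∧ j.1 = g then 2 else 1) = 2 := by
    rw [prod_eq_single ⟨g, by omega⟩, prod_eq_single ⟨g, by omega⟩, if_pos ⟨rfl, rfl⟩]
    · exact fun j _ hj => if_neg fun c => hj (Fin.ext c.2)
    · exact fun h => absurd (mem_univ _) h
    · exact fun i _ hi => prod_eq_one fun j _ => if_neg fun c => hi (Fin.ext c.1)
    · exact fun h => absurd (mem_univ _) h
  simp only [prod_mul_distrib, h2, prod_pow_eq_pow_sum, ← pow_add]
  simp only [sum_add_distrib, h1, sum_const, card_univ, Fintype.card_fin, smul_eq_mul, ← mul_sum]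
  congr 2
  ring

end FlgA

theorem flg_n : FLGStmt := by
  intro g p c A A' M M' hp _ _ _ _ _ hM hM'
  have : NeZero (p ^ 2) := ⟨pow_ne_zero _ hp.ne_zero⟩
  obtain ⟨P, u1, h1⟩ := FlgA.frame hp A M hM
  obtain ⟨P', u2, h2⟩ := FlgA.frame hp A' M' hM'
  choose e he he' using fun i j : Fin (2 * g + 1) => FlgA.entry hp g i j
    (c * ((Pᵀ j ⬝ᵥ A *ᵥ Pᵀ j) * (P'ᵀ i ⬝ᵥ A' *ᵥ P'ᵀ i)))
  let φ : Mat g (ZMod (p ^ 2)) → Mat g (ZMod (p ^ 2)) := fun N =>
    (mK P' (ZMod (p ^ 2)))ᵀ * N * mK P (ZMod (p ^ 2))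
  have hφ : Function.Injective φ := fun N N' h =>
    ((Matrix.isUnit_transpose _).2 u2).mul_left_cancel (u1.mul_right_cancel h)
  let E : Finset (Mat g (ZMod (p ^ 2))) := Fintype.piFinset fun i => Fintype.piFinset (e i)
  refine ⟨univ.filter fun N => φ N ∈ E, ?_, fun N hN => mem_filter.2 ⟨mem_univ _, ?_⟩⟩
  · refine (card_le_card_of_injOn φ (fun N hN => (mem_filter.1 (mem_coe.1 hN)).2)
      hφ.injOn).trans ?_
    rw [← FlgA.count g p]
    refine (Fintype.card_piFinset _).trans_le (prod_le_prod' fun i _ => ?_)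
    rw [Fintype.card_piFinset]
    exact prod_le_prod' fun j _ => he i j
  · refine Fintype.mem_piFinset.2 fun i => Fintype.mem_piFinset.2 fun j => ?_
    have e1 : φ (mK N (ZMod (p ^ 2))) i j = ((P'ᵀ i ⬝ᵥ N *ᵥ Pᵀ j : ℤ) : ZMod (p ^ 2)) := by
      simp only [φ]
      rw [← mK_transpose, ← mK_mul, ← mK_mul, mK_apply, Matrix.mul_assoc]
      rfl
    obtain ⟨b1, b2, b3, b4, b5⟩ := hN (Pᵀ j) (P'ᵀ i)
    rw [e1]
    refine he' i j _ (fun a => b1 ((h1 j).2 a)) (fun a => b2 ((h2 i).2 a))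
      (fun a b => b3 ((h1 j).1 a) ((h2 i).2 b)) (fun a b => b4 ((h1 j).2 a) ((h2 i).1 b))
      fun a b => ?_
    rw [← mul_assoc]
    exact b5 ((h1 j).2 a) ((h2 i).2 b)

end Pool.Agent.MP_a43263_nt.N2

end

end PkN2Flg

section PkN2Fm

/-! THEOREM N2: the first moment, sum over the types. -/

set_option autoImplicit false

noncomputable section

namespace Pool.Agent.MP_a43263_nt.N2

open Polynomial Finset Filter JC Pool.Agent.MP_a43263_nt.UV K2

namespace FmA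

/-- the local factors -/
def pp (C : ℝ) (m₀ : ℕ) : ℝ := ∏ p ∈ m₀.primeFactors, (1 + C / p) / (2 * p)

/-- the factor at `Q` -/
def dd (g : ℕ) (Q : Finset ℕ) : ℝ := (9 / 10) ^ Q.card / (∏ q ∈ Q, (q : ℝ)) ^ (2 * g + 1)

theorem pp_nonneg {C : ℝ} (hC : 0 < C) (m₀ : ℕ) : 0 ≤ pp C m₀ :=
  prod_nonneg fun p _ => by positivity

theorem dd_nonneg (g : ℕ) (Q : Finset ℕ) : 0 ≤ dd g Q :=
  div_nonneg (by positivity) (pow_nonneg (prod_nonneg fun q _ => q.cast_nonneg) _)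

theorem cast_eq {m : ℕ} (h : Squarefree m) : (m : ℝ) = ∏ p ∈ m.primeFactors, (p : ℝ) := by
  rw [← Nat.cast_prod, Nat.prod_primeFactors_of_squarefree h]

theorem pp_le {C : ℝ} (hC : 0 < C) {m₀ : ℕ} (h : Squarefree m₀)
    (hs : ∑ p ∈ m₀.primeFactors, 1 / (p : ℝ) ≤ 1) :
    (m₀.divisors.card + 1 : ℝ) * pp C m₀ ≤ 2 * Real.exp C / m₀ := by
  have h1 : m₀.divisors.card ≤ 2 ^ m₀.primeFactors.card := by
    rw [Nat.card_divisors h.ne_zero]
    exact prod_le_pow_card _ _ _ fun p _ => Nat.succ_le_succ (h.natFactorization_le_one p)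
  have h2 : (m₀.divisors.card + 1 : ℝ) ≤ 2 * 2 ^ m₀.primeFactors.card := by
    have := Nat.one_le_two_pow (n := m₀.primeFactors.card)
    exact_mod_cast (by omega : m₀.divisors.card + 1 ≤ 2 * 2 ^ m₀.primeFactors.card)
  have h3 : (2 : ℝ) ^ m₀.primeFactors.card * pp C m₀ =
      (∏ p ∈ m₀.primeFactors, (1 + C / p)) / m₀ := by
    rw [pp, ← prod_const, ← prod_mul_distrib, cast_eq h, ← prod_div_distrib]
    refine prod_congr rfl fun p hp => ?_
    have : (p : ℝ) ≠ 0 := Nat.cast_ne_zero.2 (Nat.prime_of_mem_primeFactors hp).ne_zero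
    field_simp
  have h4 : ∏ p ∈ m₀.primeFactors, (1 + C / p) ≤ Real.exp C := by
    refine (Real.prod_one_add_le_exp_sum _ fun p => by positivity).trans (Real.exp_le_exp.2 ?_)
    calc ∑ p ∈ m₀.primeFactors, C / (p : ℝ) = C * ∑ p ∈ m₀.primeFactors, 1 / (p : ℝ) := by
          rw [mul_sum]
          exact sum_congr rfl fun p _ => by ring
      _ ≤ C := mul_le_of_le_one_right hC.le hs
  calc _ ≤ 2 * 2 ^ m₀.primeFactors.card * pp C m₀ :=
        mul_le_mul_of_nonneg_right h2 (pp_nonneg hC m₀)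
    _ = 2 * (∏ p ∈ m₀.primeFactors, (1 + C / p)) / m₀ := by rw [mul_assoc, h3, mul_div_assoc]
    _ ≤ _ := by gcongr

theorem ch (g : ℕ) : 2 * g.choose 2 + g = g ^ 2 := by
  induction g with
  | zero => rfl
  | succ g ih =>
    rw [Nat.choose_succ_succ' g 1, Nat.choose_one_right]
    nlinarith

theorem den_eq (g : ℕ) (C : ℝ) (Q : Finset ℕ) {m₀ m₁ : ℕ} (h : Squarefree m₀) (hd : m₁ ∣ m₀) :
    den g C Q m₀ m₁ * (m₁ : ℝ) ^ ((2 * g + 1) ^ 2) = dd g Q * pp C m₀ * mu1 g m₁ := by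
  have e : (∏ p ∈ m₁.primeFactors, 2 * (p : ℝ) ^ (5 * g ^ 2 + 3 * g) * (1 + C / p) /
      (p : ℝ) ^ (2 * (2 * g + 1) ^ 2)) * (m₁ : ℝ) ^ ((2 * g + 1) ^ 2) =
      (∏ p ∈ m₁.primeFactors, (1 + C / p) / (2 * p)) * mu1 g m₁ := by
    rw [cast_eq (h.squarefree_of_dvd hd), ← prod_pow, mu1, Nat.cast_prod, ← prod_mul_distrib,
      ← prod_mul_distrib]
    refine prod_congr rfl fun p hp => ?_
    have p0 : (p : ℝ) ≠ 0 := Nat.cast_ne_zero.2 (Nat.prime_of_mem_primeFactors hp).ne_zero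
    have e1 : (p : ℝ) ^ (5 * g ^ 2 + 3 * g) =
        (p : ℝ) ^ ((2 * g + 1) ^ 2) * ((p : ℝ) ^ g.choose 2) ^ 2 / p := by
      rw [eq_div_iff p0, ← pow_succ, ← pow_mul, ← pow_add]
      congr 1
      have := ch g
      nlinarith
    rw [e1, two_mul ((2 * g + 1) ^ 2), pow_add]
    push_cast
    field_simp
  rw [den, pp, ← prod_sdiff (Nat.primeFactors_mono hd h.ne_zero), dd]
  linear_combination ((9 / 10) ^ Q.card / (∏ q ∈ Q, (q : ℝ)) ^ (2 * g + 1) *
    ∏ p ∈ m₀.primeFactors \ m₁.primeFactors, (1 + C / p) / (2 * p)) * e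

theorem mu_pos (g m₁ : ℕ) : 0 < mu1 g m₁ :=
  prod_pos fun p hp => by
    have := (Nat.prime_of_mem_primeFactors hp).pos
    positivity

theorem key {P t ρ η : ℝ} (hη : 0 < η) (h0 : 0 ≤ ρ) (h1 : t ^ 2 ≤ ρ) (h2 : (P / η) ^ 2 ≤ ρ) :
    t * P ≤ η * ρ := by
  refine le_of_sq_le_sq ?_ (by positivity)
  rw [div_pow, div_le_iff₀ (by positivity)] at h2
  calc (t * P) ^ 2 = t ^ 2 * P ^ 2 := mul_pow _ _ _
    _ ≤ ρ * (ρ * η ^ 2) := mul_le_mul h1 h2 (sq_nonneg _) h0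
    _ = _ := by ring

theorem err {P m ρ δ : ℝ} {n : ℕ} (hP : 0 ≤ P) (hm : 1 ≤ m) (hρ : 0 < ρ) (hδ : 0 < δ)
    (h : m ^ (4 * (n + 3)) * P ≤ δ ^ 4 * ρ) :
    (P * m ^ 2 / ρ) ^ (1 / 4 : ℝ) * m ^ n ≤ δ / m ^ 2 := by
  have m0 : 0 < m := by linarith
  have h1 : P * m ^ 2 / ρ ≤ (δ / m ^ (n + 2)) ^ 4 := by
    rw [div_pow, div_le_div_iff₀ hρ (by positivity), ← pow_mul]
    refine le_trans ?_ h
    rw [mul_assoc, ← pow_add, mul_comm]
    exact mul_le_mul_of_nonneg_right (pow_le_pow_right₀ hm (by omega)) hP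
  have h2 := Real.rpow_le_rpow (by positivity) h1 (by norm_num : (0 : ℝ) ≤ 1 / 4)
  have h3 := Real.pow_rpow_inv_natCast (x := δ / m ^ (n + 2)) (n := 4) (by positivity) (by norm_num)
  rw [one_div] at h2 ⊢
  rw [Nat.cast_ofNat] at h3
  rw [h3] at h2
  calc _ ≤ δ / m ^ (n + 2) * m ^ n := mul_le_mul_of_nonneg_right h2 (by positivity)
    _ = _ := by rw [pow_add]; field_simp

end FmA

open FmA

theorem fm_n : PREStmt → FMAStmt → FMStmt := by
  classical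
  intro pre fma g hg
  obtain ⟨q₀, c, C, hc, hC, H⟩ := fma g hg
  have hd := den_eq g C
  generalize (2 * g + 1) ^ 2 = n at H hd ⊢
  refine ⟨q₀, 4 * (n + 3) * 2, 2 * Real.exp C * c * 2 ^ n, by positivity,
    fun Q f₀ mb ε hQ hε => ?_⟩
  obtain ⟨δ, hδ, eδ⟩ : ∃ δ : ℝ, 0 < δ ∧ ε = 4 * δ * c * 2 ^ n :=
    ⟨ε / (4 * c * 2 ^ n), by positivity, by field_simp⟩
  replace H := H Q f₀ mb
  simp only [Nat.cast_mul, Nat.cast_pow] at H
  generalize (∏ q ∈ Q, q : ℕ) = P at H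
  filter_upwards [eventually_ge_atTop (((P : ℝ) / 1) ^ 2),
    eventually_ge_atTop (((P : ℝ) / δ ^ 4) ^ 2)] with ρ r1 r2 m₀ a sm hE hs S hS
  have m1 : (1 : ℝ) ≤ m₀ := Nat.one_le_cast.2 (Nat.pos_of_ne_zero sm.sf.ne_zero)
  have m0 : (0 : ℝ) < m₀ := by linarith
  have r0 : 0 < ρ := lt_of_lt_of_le (by positivity) hE
  rw [pow_mul] at hE
  have k1 : (P : ℝ) * (m₀ : ℝ) ^ 2 ≤ ρ := by
    refine le_trans ?_ ((key one_pos r0.le hE r1).trans_eq (one_mul ρ))
    rw [mul_comm]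
    exact mul_le_mul_of_nonneg_right (pow_le_pow_right₀ m1 (by omega)) P.cast_nonneg
  have k2 := err P.cast_nonneg m1 r0 hδ (key (by positivity) r0.le hE r2)
  replace H := fun T : Finset (ℤ[X] × ℤ) => fun hT : T ⊆ S => H m₀ a ρ hQ sm k1 T fun x hx =>
    ⟨(hS x (hT hx)).1, (hS x (hT hx)).2.1, (hS x (hT hx)).2.2.1⟩
  have e0 : 0 ≤ ((P : ℝ) * (m₀ : ℝ) ^ 2 / ρ) ^ (1 / 4 : ℝ) := by positivity
  generalize ((P : ℝ) * (m₀ : ℝ) ^ 2 / ρ) ^ (1 / 4 : ℝ) = e at H k2 e0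
  have d0 := dd_nonneg g Q
  have p0 := pp_nonneg hC m₀
  obtain ⟨B, hB⟩ : ∃ B, B = c * (dd g Q * pp C m₀ + 2 * (δ / (m₀ : ℝ) ^ 2)) * (2 * ρ) ^ n :=
    ⟨_, rfl⟩
  let S₀ := S.filter fun x =>
    ∃ p : ℕ, p.Prime ∧ p ≠ 2 ∧ p ∉ Q ∧ ¬p ∣ m₀ ∧ √ρ ≤ p ∧ Nx p x.1
  let S₁ := fun m₁ => S.filter fun x => ∃ A A' M T : Mat g ℤ, Pre g Q x.1 m₀ m₁ a A A' M T
  have b0 : (S₀.card : ℝ) ≤ B := by
    refine ((H S₀ (filter_subset _ _)).2 fun x hx =>
      ⟨(hS x (mem_filter.1 hx).1).2.2.2.1, (mem_filter.1 hx).2⟩).trans ?_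
    have h1 := hd Q sm.sf (one_dvd m₀)
    simp only [mu1, Nat.primeFactors_one, prod_empty, Nat.cast_one, one_pow, mul_one] at h1
    have h2 : e ≤ δ / (m₀ : ℝ) ^ 2 :=
      (le_mul_of_one_le_right e0 (one_le_pow₀ m1)).trans k2
    rw [h1, hB]
    gcongr
    linarith
  have b1 : ∀ m₁ ∈ m₀.divisors, ((S₁ m₁).card : ℝ) ≤ B := by
    intro m₁ hm
    have h0 := Nat.dvd_of_mem_divisors hm
    have h1 := (H (S₁ m₁) (filter_subset _ _)).1 m₁ h0 fun x hx => (mem_filter.1 hx).2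
    have u1 : (1 : ℝ) ≤ mu1 g m₁ := Nat.one_le_cast.2 (mu_pos g m₁)
    refine le_of_mul_le_mul_right (h1.trans ?_) (by linarith : (0 : ℝ) < mu1 g m₁)
    have h2 : e * (m₁ : ℝ) ^ n ≤ δ / (m₀ : ℝ) ^ 2 * mu1 g m₁ := by
      refine le_trans ?_ (k2.trans (le_mul_of_one_le_right (by positivity) u1))
      have : (m₁ : ℝ) ≤ m₀ := Nat.cast_le.2 (Nat.divisor_le hm)
      gcongr
    calc _ = c * (den g C Q m₀ m₁ * (m₁ : ℝ) ^ n + 2 * (e * (m₁ : ℝ) ^ n)) * (2 * ρ) ^ n := by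
          simp only [mul_pow]
          ring
      _ ≤ c * (dd g Q * pp C m₀ * mu1 g m₁ + 2 * (δ / (m₀ : ℝ) ^ 2 * mu1 g m₁)) * (2 * ρ) ^ n := by
          rw [hd Q sm.sf h0]
          gcongr
      _ = _ := by rw [hB]; ring
  have cov : S ⊆ m₀.divisors.biUnion S₁ ∪ S₀ := by
    intro x hx
    obtain ⟨f1, -, -, -, h | h⟩ := hS x hx
    · obtain ⟨m₁, h1, h2⟩ := pre g Q m₀ a x.1 x.2 sm f1 h
      exact mem_union_left _ (mem_biUnion.2
        ⟨m₁, Nat.mem_divisors.2 ⟨h1, sm.sf.ne_zero⟩, mem_filter.2 ⟨hx, h2⟩⟩)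
    · exact mem_union_right _ (mem_filter.2 ⟨hx, h⟩)
  have c1 : S.card ≤ ∑ m₁ ∈ m₀.divisors, (S₁ m₁).card + S₀.card :=
    (card_le_card cov).trans ((card_union_le _ _).trans (Nat.add_le_add_right card_biUnion_le _))
  have c2 : (S.card : ℝ) ≤ (m₀.divisors.card + 1) * B := by
    have := sum_le_card_nsmul _ _ _ b1
    rw [nsmul_eq_mul] at this
    have c3 : (S.card : ℝ) ≤ ∑ m₁ ∈ m₀.divisors, ((S₁ m₁).card : ℝ) + S₀.card := by
      exact_mod_cast c1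
    linarith
  have t1 := pp_le hC sm.sf hs
  have t2 : (m₀.divisors.card + 1 : ℝ) ≤ 2 * m₀ := by
    have : (m₀.divisors.card : ℝ) ≤ m₀ := Nat.cast_le.2 (Nat.card_divisors_le_self m₀)
    linarith
  calc _ ≤ _ := c2
    _ = c * (dd g Q * ((m₀.divisors.card + 1) * pp C m₀) +
          (m₀.divisors.card + 1) * (2 * (δ / (m₀ : ℝ) ^ 2))) * (2 * ρ) ^ n := by rw [hB]; ring
    _ ≤ c * (dd g Q * (2 * Real.exp C / m₀) + 2 * m₀ * (2 * (δ / (m₀ : ℝ) ^ 2))) * (2 * ρ) ^ n := by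
        gcongr
    _ = _ := by
        rw [mul_div_assoc (2 * Real.exp C * c * 2 ^ n), ← dd, eδ, mul_pow]
        field_simp
        ring

end Pool.Agent.MP_a43263_nt.N2

end

end PkN2Fm

section PkN2Glu

/-! THEOREM N2: gluing of local lattices with local frames. -/

set_option autoImplicit false

noncomputable section

namespace Pool.Agent.MP_a43263_nt.N2

open Polynomial Finset Filter Matrix JC Pool.Agent.MP_a43263_nt.UV K2

namespace GluA

open UV.Glu (L mem_of_loc)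

section
variable {K : Type} [Field K] {O : Subring K} {n : ℕ}

theorem L_add {p : ℕ} (hp : p.Prime) {a b : K} (ha : L O p a) (hb : L O p b) : L O p (a + b) := by
  obtain ⟨m, h1, h2⟩ := ha
  obtain ⟨k, h3, h4⟩ := hb
  refine ⟨m * k, fun h => ((Nat.prime_iff_prime_int.1 hp).dvd_or_dvd h).elim h1 h3, ?_⟩
  rw [show ((m * k : ℤ) : K) * (a + b) = k * (m * a) + m * (k * b) by push_cast; ring]
  exact add_mem (mul_mem (intCast_mem O k) h2) (mul_mem (intCast_mem O m) h4)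

/-- the lattice with the local generators `x` -/
def lam (O : Subring K) (x : ℕ → K) : Submodule ℤ K where
  carrier := {z | ∀ p : ℕ, p.Prime → L O p (z / x p)}
  add_mem' ha hb p hp := by
    rw [add_div]
    exact L_add hp (ha p hp) (hb p hp)
  zero_mem' p hp := by
    rw [zero_div]
    exact L.of_mem hp (zero_mem O)
  smul_mem' c z hz p hp := by
    rw [zsmul_eq_mul, mul_div_assoc]
    exact (L.of_mem hp (intCast_mem O c)).mul hp (hz p hp)

theorem lam_mul {x : ℕ → K} {a z : K} (ha : a ∈ O) (hz : z ∈ lam O x) : a * z ∈ lam O x :=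
  fun p hp => by
    rw [mul_div_assoc]
    exact (L.of_mem hp ha).mul hp (hz p hp)

theorem com (h1 : ∀ w : K, ∃ D : ℤ, D ≠ 0 ∧ (D : K) * w ∈ O) {x : ℕ → K} {P : Finset ℕ}
    (h : ∀ p : ℕ, p.Prime → p ∉ P → x p = x 0) (u : K → K) :
    ∃ E : ℤ, E ≠ 0 ∧ ∀ l : ℕ, l.Prime → (E : K) * u (x l) ∈ O := by
  choose D D0 D1 using h1
  refine ⟨∏ l ∈ insert 0 P, D (u (x l)), prod_ne_zero_iff.2 fun l _ => D0 _, fun l hl => ?_⟩
  obtain ⟨l', a, b⟩ : ∃ l' ∈ insert 0 P, x l = x l' := by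
    by_cases c : l ∈ P
    · exact ⟨l, mem_insert_of_mem c, rfl⟩
    · exact ⟨0, mem_insert_self _ _, h l hl c⟩
  rw [b, ← prod_erase_mul _ _ a, Int.cast_mul, mul_assoc]
  exact mul_mem (intCast_mem O _) (D1 _)

theorem key {x : ℕ → K} {p : ℕ} (hp : p.Prime) (x0 : x p ≠ 0) {E : ℤ} (E0 : E ≠ 0)
    (E1 : ∀ l : ℕ, l.Prime → (E : K) * (x p / x l) ∈ O) :
    ∃ m : ℤ, ¬(p : ℤ) ∣ m ∧ (m : K) * x p ∈ lam O x := by
  obtain ⟨k, m, m1, rfl⟩ := WfDvdMonoid.max_power_factor E0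
    (Nat.prime_iff_prime_int.1 hp).irreducible
  refine ⟨m, m1, fun l hl => ?_⟩
  by_cases c : l = p
  · rw [c, mul_div_cancel_right₀ _ x0]
    exact L.of_mem hp (intCast_mem O m)
  · refine ⟨p ^ k, fun e => c ?_, ?_⟩
    · exact (Nat.prime_dvd_prime_iff_eq hl hp).1
        (Int.natCast_dvd_natCast.1 ((Nat.prime_iff_prime_int.1 hl).dvd_of_dvd_pow e))
    · have := E1 l hl
      rwa [Int.cast_mul, mul_assoc, ← mul_div_assoc] at this

theorem basis [Algebra ℚ K] (hn : Module.finrank ℚ K = n) (Λ : Submodule ℤ K) (v : Fin n → K)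
    {E : ℤ} (hE : E ≠ 0) (h1 : ∀ z ∈ Λ, ∃ c : Fin n → ℤ, (E : K) * z = ∑ i, (c i : K) * v i)
    (h2 : ∀ w : K, ∃ D : ℤ, D ≠ 0 ∧ (D : K) * w ∈ Λ) :
    ∃ β : Fin n → K, (∀ i, β i ∈ Λ) ∧ (∀ z ∈ Λ, ∃ c : Fin n → ℤ, z = ∑ i, (c i : K) * β i) ∧
      LinearIndependent ℚ β := by
  have hc : CharZero K := algebraRat.charZero K
  have hL : Λ.IsLattice ℚ := by
    constructor
    · refine (Submodule.fg_span (Set.finite_range fun i => (E : K)⁻¹ * v i)).of_le fun z hz => ?_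
      obtain ⟨c, hc⟩ := h1 z hz
      have e : (E : K) ≠ 0 := Int.cast_ne_zero.2 hE
      rw [← inv_mul_cancel_left₀ e z, hc, mul_sum]
      refine Submodule.sum_mem _ fun i _ => ?_
      rw [mul_left_comm, ← zsmul_eq_mul]
      exact Submodule.smul_mem _ _ (Submodule.subset_span ⟨i, rfl⟩)
    · refine eq_top_iff.2 fun w _ => ?_
      obtain ⟨D, D0, D1⟩ := h2 w
      refine (Submodule.smul_mem_iff _ (Int.cast_ne_zero.2 D0 : (D : ℚ) ≠ 0)).1
        (Submodule.subset_span ?_)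
      rwa [Int.cast_smul_eq_zsmul, zsmul_eq_mul]
  have hr : Module.finrank ℤ Λ = n := by
    rw [← hn, Module.finrank, Module.finrank, Submodule.IsLattice.rank' ℚ Λ]
  let e := Module.finBasisOfFinrankEq ℤ Λ hr
  refine ⟨fun i => (e i).1, fun i => (e i).2, fun z hz => ⟨e.repr ⟨z, hz⟩, ?_⟩, ?_⟩
  · have h3 := congrArg Subtype.val (e.sum_repr ⟨z, hz⟩)
    simp only [Submodule.coe_sum, Submodule.coe_smul, zsmul_eq_mul] at h3
    exact h3.symm
  · have h3 := (e.extendOfIsLattice ℚ).linearIndependent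
    rwa [show ⇑(e.extendOfIsLattice ℚ) = fun i => (e i).1 from
      funext (e.extendOfIsLattice_apply ℚ)] at h3

/-- the columns of `Γ` are the coordinates of `w` in `v` -/
def Co (v w : Fin n → K) (Γ : Matrix (Fin n) (Fin n) ℤ) : Prop :=
  ∀ j, w j = ∑ i, (Γ i j : K) * v i

variable {u v w : Fin n → K} {Γ Δ : Matrix (Fin n) (Fin n) ℤ}

theorem Co.trans (h : Co v w Γ) (k : Co w u Δ) : Co v u (Γ * Δ) := fun j => by
  simp only [k j, h _, mul_sum, mul_apply, Int.cast_sum, Int.cast_mul, sum_mul]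
  rw [sum_comm]
  exact sum_congr rfl fun i _ => sum_congr rfl fun l _ => by ring

theorem Co.mul (h : Co v w Γ) (c : K) : Co (fun i => c * v i) (fun i => c * w i) Γ := fun j => by
  simp only [h j, mul_sum, mul_left_comm]

theorem Co.diag (v : Fin n → K) (d : Fin n → ℤ) :
    Co v (fun i => (d i : K) * v i) (diagonal d) := fun j => by
  simp [diagonal_apply, apply_ite (Int.cast : ℤ → K)]

theorem Co.uniq [Algebra ℚ K] (hv : LinearIndependent ℚ v) (h : Co v w Γ) (k : Co v w Δ) :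
    Γ = Δ := by
  ext i j
  have e : ∑ i, ((Γ i j - Δ i j : ℤ) : ℚ) • v i = 0 := by
    simp only [Int.cast_smul_eq_zsmul, zsmul_eq_mul]
    simp only [Int.cast_sub, sub_mul, sum_sub_distrib, ← h j, ← k j, sub_self]
  exact sub_eq_zero.1 (Int.cast_eq_zero.1 (Fintype.linearIndependent_iff.1 hv _ e i))

theorem Co.gram (h : Co v w Γ) (τ : K →+ ℚ) (δ : K) (hA : ∀ i j, (Δ i j : ℚ) = τ (δ * v i * v j))
    (i j : Fin n) : (((Γᵀ * Δ * Γ) i j : ℤ) : ℚ) = τ (δ * w i * w j) := by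
  have e : ∀ (m : ℤ) (z : K), τ ((m : K) * z) = (m : ℚ) * τ z := fun m z => by
    rw [← zsmul_eq_mul, map_zsmul, zsmul_eq_mul]
  simp only [h i, h j, mul_apply, transpose_apply, Int.cast_sum, Int.cast_mul, hA, mul_sum, sum_mul,
    map_sum]
  refine sum_congr rfl fun l _ => sum_congr rfl fun k _ => ?_
  rw [show δ * ((Γ k i : K) * v k) * ((Γ l j : K) * v l) = Γ k i * (Γ l j * (δ * v k * v l)) by ring,
    e, e]
  ring

end

end GluA

open GluA UV.Glu in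
theorem glu_n : GLUStmt := by
  intro g f δ x R P hf h
  have : Fact (Irreducible (zK f ℚ)) := ⟨hf.irr⟩
  let π := AdjoinRoot.mk (zK f ℚ)
  let ψ := π.comp (mapRingHom (Int.castRingHom ℚ))
  let O := ψ.range
  let θ := π X
  have hO : ∀ t : ℤ[X], π (zK t ℚ) ∈ O := fun t => ⟨t, rfl⟩
  have hθ : ∀ k : ℕ, θ ^ k ∈ O := fun k => ⟨X ^ k, by simp [ψ, θ]⟩
  have hI : ∀ z, In f z ↔ π z ∈ O := fun z =>
    exists_congr fun t => AdjoinRoot.mk_eq_mk.symm.trans eq_comm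
  have hC : ∀ m : ℤ, π (C (m : ℚ)) = m := fun m => by rw [map_intCast, map_intCast]
  have hπ : ∀ a b, zK f ℚ ∣ a - b ↔ π a = π b := fun a b => AdjoinRoot.mk_eq_mk.symm
  have hf0 : ψ f = 0 := AdjoinRoot.mk_self
  have hw : ∀ s : ℤ[X], ψ s = ∑ i : Fin (2 * g + 1), (((s %ₘ f).coeff i.1 : ℤ) : _) * θ ^ i.1 := by
    intro s
    have e := congrArg ψ (po_ve hf.monic hf.deg s)
    rw [modByMonic_eq_sub_mul_div, map_sub, map_mul, hf0, zero_mul, sub_zero] at e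
    rw [← e, po, map_sum]
    refine sum_congr rfl fun i _ => ?_
    simp [ψ, θ, ve]
  have h1 : ∀ w : AdjoinRoot (zK f ℚ), ∃ D : ℤ, D ≠ 0 ∧ (D : AdjoinRoot (zK f ℚ)) * w ∈ O := by
    intro w
    obtain ⟨z, rfl⟩ := AdjoinRoot.mk_surjective w
    obtain ⟨D, t, a, b⟩ := UV.Glu.den z
    exact ⟨D, a, by rw [← hC, ← map_mul, ← b]; exact hO t⟩
  have hR : ∀ p : ℕ, p.Prime → π δ * π (x p) ^ 2 = ψ (R p) := fun p hp => by
    rw [← map_pow, ← map_mul]
    exact (hπ _ _).1 (h p hp).1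
  have x0 : ∀ p : ℕ, p.Prime → π (x p) ≠ 0 := fun p hp e => by
    obtain ⟨A, B, -, -, hAB⟩ := exists_mul_add_mul_eq_C_resultant f (R p) le_rfl le_rfl
      (Or.inl (by rw [hf.deg]; omega))
    have e2 := congrArg ψ hAB
    rw [map_add, map_mul, map_mul, hf0, ← hR p hp, e, eq_intCast, map_intCast] at e2
    exact (h p hp).2.1 (by simpa [Nm] using e2.symm)
  have hP : ∀ p : ℕ, p.Prime → p ∉ P → π (x p) = π (x 0) := fun p hp c => by rw [(h p hp).2.2 c]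
  have hM : ∀ y, Mem f x y ↔ π y ∈ lam O fun p => π (x p) := fun y =>
    forall_congr' fun p => forall_congr' fun hp => exists_congr fun t => by
      rw [exists_and_left]
      refine and_congr_right fun _ => exists_congr fun s => ?_
      rw [hπ, map_mul, map_mul, hC, ← mul_div_assoc, eq_comm, eq_div_iff (x0 p hp), mul_comm]
      rfl
  obtain ⟨E, E0, E1⟩ := com h1 hP id
  obtain ⟨β, b1, b2, b3⟩ := basis (n := 2 * g + 1)
    ((AdjoinRoot.powerBasis' (hf.mo ℚ)).finrank.trans (hf.dg ℚ)) (lam O fun p => π (x p))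
    (fun i => θ ^ i.1) E0 (fun z hz => by
      obtain ⟨s, hs⟩ : (E : AdjoinRoot (zK f ℚ)) * z ∈ O := mem_of_loc fun p hp => by
        rw [← mul_div_cancel₀ z (x0 p hp), ← mul_assoc]
        exact (L.of_mem hp (E1 p hp)).mul hp (hz p hp)
      exact ⟨_, hs.symm.trans (hw s)⟩) fun w => by
      obtain ⟨D, D0, D1⟩ := com h1 hP fun a => w / a
      exact ⟨D, D0, fun p hp => L.of_mem hp (by rw [mul_div_assoc]; exact D1 p hp)⟩
  choose b hb using fun i => AdjoinRoot.mk_surjective (β i)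
  have hb' : ∀ i, π (b i) = β i := hb
  have hs : ∀ (y : ℚ[X]) (c : Fin (2 * g + 1) → ℤ), π y = ∑ i, (c i : _) * β i →
      zK f ℚ ∣ y - ∑ i, C (c i : ℚ) * b i := fun y c e => by
    rw [hπ, e, map_sum]
    simp only [map_mul, hC, hb']
  choose A hA using fun i j : Fin (2 * g + 1) => ((hI (δ * b i * b j)).2 (mem_of_loc fun p hp => by
    have := x0 p hp
    rw [map_mul, map_mul, hb', hb', show π δ * β i * β j =
      π δ * π (x p) ^ 2 * (β i / π (x p) * (β j / π (x p))) by field_simp, hR p hp]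
    exact (L.of_mem hp (hO (R p))).mul hp ((b1 i p hp).mul hp (b1 j p hp)))).ta hf.monic g
  choose T hT using fun j => b2 _ (lam_mul (hθ 1) (b1 j))
  simp only [pow_one] at hT
  refine ⟨b, of A, (of T)ᵀ, ⟨fun i => (hM _).2 (hb' i ▸ b1 i), fun y hy => ?_, fun z hz => ?_⟩,
    ⟨fun i j => (hA i j).symm, fun j => hs _ _ (by rw [map_mul, hb']; exact hT j)⟩, fun p hp => ?_⟩
  · obtain ⟨c, hc⟩ := b2 _ ((hM y).1 hy)
    exact ⟨c, hs y c hc⟩
  · refine funext (Fintype.linearIndependent_iff.1 b3 z ?_)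
    rw [← AdjoinRoot.mk_eq_zero.2 hz, map_sum]
    refine sum_congr rfl fun i _ => ?_
    rw [map_mul, hb, Algebra.smul_def]
    rfl
  obtain ⟨D, D0, D1⟩ := com h1 hP fun a => π (x p) / a
  obtain ⟨t, t0, t1⟩ := key (x := fun p => π (x p)) hp (x0 p hp) D0 D1
  choose Γ hΓ using fun j : Fin (2 * g + 1) => b2 _ (lam_mul (hθ j.1) t1)
  choose r r0 s hr using fun i => b1 i p hp
  have c1 : Co β (fun j => (t * π (x p)) * θ ^ j.1) (of Γ)ᵀ := fun j => (mul_comm _ _).trans (hΓ j)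
  have c2 : Co β (fun j => θ * β j) (of T)ᵀ := hT
  have c3 : Co (fun i : Fin (2 * g + 1) => θ ^ i.1) (fun j => θ * θ ^ j.1) (Cx g f) := fun j => by
    refine Eq.trans ?_ (hw (X ^ (j.1 + 1)))
    simp [ψ, θ, pow_succ']
  have c4 : Co (fun i : Fin (2 * g + 1) => θ ^ i.1) (fun j => ψ (s j))
      (of fun i j => (s j %ₘ f).coeff i.1) := fun j => hw (s j)
  have hq := Nat.prime_iff_prime_int.1 hp
  refine ⟨(of Γ)ᵀ, t, fun c => ?_, t0, ?_, ?_⟩
  · have c5 := c1.trans (c4.mul (t * π (x p)))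
    have e : (fun j => (t * π (x p)) * ψ (s j)) = fun j => ((t * r j : ℤ) : _) * β j := by
      funext j
      have := x0 p hp
      rw [hr j]
      push_cast
      field_simp
    rw [e] at c5
    have e2 := congrArg Matrix.det (Co.uniq b3 c5 (Co.diag β _))
    rw [det_mul, det_diagonal] at e2
    obtain ⟨i, -, hi⟩ := (hq.dvd_finsetProd_iff _).1 (e2 ▸ c.mul_right _)
    exact (hq.dvd_or_dvd hi).elim t0 (r0 i)
  · let τ : AdjoinRoot (zK f ℚ) →+ ℚ :=
      ((lcoeff ℚ (2 * g)).comp (AdjoinRoot.modByMonicHom (hf.mo ℚ))).toAddMonoidHom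
    have hτ : ∀ y, τ (π y) = ta g (zK f ℚ) y := fun y => rfl
    ext i j
    refine Int.cast_injective (α := ℚ) ((c1.gram τ (π δ) (fun i j => ?_) i j).trans ?_)
    · rw [← hb', ← hb', ← map_mul, ← map_mul, hτ]
      exact (hA i j).symm
    · rw [show π δ * ((t * π (x p)) * θ ^ i.1) * ((t * π (x p)) * θ ^ j.1) =
        t ^ 2 * (π δ * π (x p) ^ 2) * θ ^ (i.1 + j.1) by ring, hR p hp]
      refine Eq.trans ?_ ((hτ _).trans (ta_map hf.monic (Int.castRingHom ℚ)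
        (C (t ^ 2) * R p * X ^ (i.1 + j.1))))
      congr 1
      simp [ψ, θ]
  · refine Co.uniq b3 (c2.trans (c1.mul θ)) ?_
    have c5 := c1.trans (c3.mul (t * π (x p)))
    simpa only [mul_left_comm] using c5

end Pool.Agent.MP_a43263_nt.N2

end

end PkN2Glu
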