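import Pool.Agent.MP_a43263_nt.N2.SpecB

/-! Packed rows. -/

section PkN2Hen

/-! THEOREM N2, row HEN: the factorisation at a simple root. -/

set_option autoImplicit false

noncomputable section

namespace Pool.Agent.MP_a43263_nt.N2

open Polynomial Pool.Agent.MP_a43263_nt.UV Pool.Agent.MP_a43263_nt.UV.Cmp

namespace HenA

variable {p : ℕ} [Fact p.Prime]

theorem rq_ev (r : ℤ_[p][X]) {α : ℤ_[p]} {b : ZMod p} (h : PadicInt.toZMod α = b) :
    (rq p r).eval b = PadicInt.toZMod (r.eval α) := by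
  rw [← h, eval_map, eval₂_at_apply]

theorem zK_ev (f : ℤ[X]) (a : ℤ) (R : Type) [CommRing R] :
    (zK f R).eval (a : R) = ((f.eval a : ℤ) : R) :=
  (eval_map _ _).trans (eval₂_at_apply (Int.castRingHom R) a)

end HenA

open HenA in
theorem hen_n : HENStmt := by
  intro p _ g f a Z ⟨⟨c, hc⟩, h2⟩
  have hp : (p : ℤ_[p]) ≠ 0 := Nat.cast_ne_zero.2 (Fact.out : p.Prime).ne_zero
  have p0 : PadicInt.toZMod (p : ℤ_[p]) = 0 := by simp
  have h3 : (((derivative f).eval a : ℤ) : ZMod p) ≠ 0 :=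
    fun e => h2 ((ZMod.intCast_zmod_eq_zero_iff_dvd _ p).1 e)
  have a1 : ‖(zK f ℤ_[p]).eval (a : ℤ_[p])‖ < 1 := by
    rw [← zero_iff, zK_ev, hc]
    simp
  have a2 : ‖(zK f ℤ_[p]).derivative.eval (a : ℤ_[p])‖ = 1 := by
    rw [← PadicInt.isUnit_iff, Cmp.unit_iff, derivative_map, zK_ev, map_intCast]
    exact h3
  obtain ⟨α, b1, b2, -⟩ := hensels_lemma (F := zK f ℤ_[p]) (a := (a : ℤ_[p]))
    (by rw [coe_aeval_eq_eval, a2, one_pow]; exact a1)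
  rw [coe_aeval_eq_eval] at b1 b2
  rw [a2] at b2
  obtain ⟨b, hb⟩ := (PadicInt.norm_lt_one_iff_dvd _).1 b2
  have r0 : PadicInt.toZMod α = (a : ZMod p) := by
    rw [eq_add_of_sub_eq hb, map_add, map_mul, p0, zero_mul, zero_add, map_intCast]
  obtain ⟨h, hh⟩ := (dvd_iff_isRoot (p := zK f ℤ_[p]) (a := α)).2 b1
  obtain ⟨k, hk⟩ := X_sub_C_dvd_sub_C_eval (p := h) (a := (a : ℤ_[p]))
  set D := zK (f /ₘ (X - C a)) ℤ_[p] with hD
  have s0 : f = C (p * c : ℤ) + (X - C a) * (f /ₘ (X - C a)) := by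
    rw [← hc, ← modByMonic_X_sub_C_eq_C_eval, modByMonic_add_div]
  have s1 : (X - C (a : ℤ_[p]) - C (p : ℤ_[p]) * C b) * h =
      C (p : ℤ_[p]) * C (c : ℤ_[p]) + (X - C (a : ℤ_[p])) * D := by
    rw [← C_mul, ← hb, C_sub, show X - C (a : ℤ_[p]) - (C α - C (a : ℤ_[p])) = X - C α by ring,
      ← hh]
    conv_lhs => rw [s0]
    simp [hD]
  have s2 : (c : ℤ_[p]) = -(b * h.eval (a : ℤ_[p])) := by
    have := congrArg (eval (a : ℤ_[p])) s1
    simp only [eval_mul, eval_sub, eval_add, eval_X, eval_C, sub_self, zero_mul, add_zero] at this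
    exact mul_left_cancel₀ hp (by linear_combination -this)
  have s3 : D = h - C (p : ℤ_[p]) * C b * k := by
    refine mul_left_cancel₀ (X_sub_C_ne_zero (a : ℤ_[p])) ?_
    rw [s2, C_neg, C_mul] at s1
    linear_combination -s1 - C (p : ℤ_[p]) * C b * hk
  have s4 : zK (pw p f a) ℤ_[p] = D ^ 3 + C (p : ℤ_[p]) * (X - C (a : ℤ_[p])) := by
    simp [pw, hD]
  refine ⟨α, h, X - C (a : ℤ_[p]) - C (p : ℤ_[p]) ^ 2 * (C b * k) ^ 3, hh,
    (monic_X_sub_C α).of_mul_monic_left (hh ▸ Z.monic.map _), r0, fun e => h3 ?_, ?_, ?_, ?_⟩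
  · rw [← zK_ev, ← rq_zK, rq_ev _ r0, zK, ← derivative_map, ← zK, hh, ← e, rq_ev _ r0]
    simp
  · rw [s4, s3]
    exact ⟨h ^ 2 - 3 * h * (C (p : ℤ_[p]) * C b * k) + 3 * (C (p : ℤ_[p]) * C b * k) ^ 2, by ring⟩
  · simp [rq, Polynomial.map_sub, Polynomial.map_mul, Polynomial.map_pow]
  · rw [s4, s3, rq_ev _ r0]
    simp only [eval_mul, eval_sub, eval_add, eval_pow, eval_C, map_add, map_mul, map_sub, map_pow,
      p0, zero_mul, sub_zero, add_zero]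

end Pool.Agent.MP_a43263_nt.N2

end

end PkN2Hen

section PkN2Hyp

/-! THEOREM N2, row HYP: diagonal forms of hyperbolic discriminant over finite fields. -/

set_option autoImplicit false

noncomputable section

namespace Pool.Agent.MP_a43263_nt.N2

open Polynomial Finset Matrix

namespace HypA

variable {F : Type} [Field F]

/-- the diagonal form `e` represents the diagonal form `e'` -/
def Rep {n : ℕ} (e e' : Fin n → F) : Prop :=
  ∃ ψ : (Fin n → F) → (Fin n → F), IsLinearMap F ψ ∧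
    ∀ x y, ∑ i, e i * ψ x i * ψ y i = ∑ i, e' i * x i * y i

theorem Rep.trans {n : ℕ} {e e' e'' : Fin n → F} (h : Rep e e') (k : Rep e' e'') : Rep e e'' := by
  obtain ⟨ψ, a, b⟩ := h
  obtain ⟨θ, c, d⟩ := k
  exact ⟨fun x => ψ (θ x), ⟨fun x y => by rw [c.map_add, a.map_add],
    fun t x => by rw [c.map_smul, a.map_smul]⟩, fun x y => (b _ _).trans (d x y)⟩

theorem Rep.cons {n : ℕ} {e e' : Fin n → F} (h : Rep e e') (a : F) :
    Rep (Fin.cons a e : Fin (n + 1) → F) (Fin.cons a e') := by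
  obtain ⟨ψ, l, b⟩ := h
  refine ⟨fun x => Fin.cons (x 0) (ψ fun i => x i.succ), ⟨fun x y => ?_, fun t x => ?_⟩,
    fun x y => ?_⟩
  · funext i
    refine Fin.cases ?_ (fun j => ?_) i
    · simp
    · exact congrFun (l.map_add (fun i => x i.succ) fun i => y i.succ) j
  · funext i
    refine Fin.cases ?_ (fun j => ?_) i
    · simp
    · exact congrFun (l.map_smul t fun i => x i.succ) j
  · simp only [Fin.sum_univ_succ, Fin.cons_zero, Fin.cons_succ]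
    rw [b]

theorem two {n : ℕ} (r : Fin n → F) {a b c u w : F} (h : a * u ^ 2 + b * w ^ 2 = c) :
    Rep (Fin.cons a (Fin.cons b r : Fin (n + 1) → F) : Fin (n + 2) → F)
      (Fin.cons c (Fin.cons (a * b * c) r : Fin (n + 1) → F)) := by
  refine ⟨fun x => Fin.cons (u * x 0 - b * w * x (Fin.succ 0))
    (Fin.cons (w * x 0 + a * u * x (Fin.succ 0)) (fun i => x i.succ.succ) : Fin (n + 1) → F),
    ⟨fun x y => ?_, fun t x => ?_⟩, fun x y => ?_⟩
  · funext i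
    refine Fin.cases ?_ (fun j => Fin.cases ?_ (fun k => ?_) j) i
    · simp only [Fin.cons_zero, Pi.add_apply]; ring
    · simp only [Fin.cons_zero, Fin.cons_succ, Pi.add_apply]; ring
    · simp only [Fin.cons_succ, Pi.add_apply]
  · funext i
    refine Fin.cases ?_ (fun j => Fin.cases ?_ (fun k => ?_) j) i
    · simp only [Fin.cons_zero, Pi.smul_apply, smul_eq_mul]; ring
    · simp only [Fin.cons_zero, Fin.cons_succ, Pi.smul_apply, smul_eq_mul]; ring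
    · simp only [Fin.cons_succ, Pi.smul_apply]
  · simp only [Fin.sum_univ_succ, Fin.cons_zero, Fin.cons_succ]
    rw [← h]
    ring

theorem one {e e' : Fin 1 → F} (h0 : e 0 ≠ 0) (h : IsSquare (e 0 * e' 0)) : Rep e e' := by
  obtain ⟨s, hs⟩ := h
  refine ⟨fun x => (s / e 0) • x, ⟨fun x y => smul_add _ _ _, fun t x => smul_comm _ _ _⟩,
    fun x y => ?_⟩
  simp only [Fin.sum_univ_succ, Finset.univ_eq_empty, Finset.sum_empty, add_zero, Pi.smul_apply,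
    smul_eq_mul]
  have : e' 0 = s * s / e 0 := by rw [← hs]; field_simp
  rw [this]
  field_simp

theorem binary [Fintype F] (h2 : (2 : F) ≠ 0) {a b : F} (ha : a ≠ 0) (hb : b ≠ 0) (c : F) :
    ∃ u w, a * u ^ 2 + b * w ^ 2 = c := by
  have hc : ringChar F ≠ 2 := fun h => h2 (by
    have := (ringChar.spec F 2).2 (by rw [h])
    exact_mod_cast this)
  obtain ⟨u, w, h⟩ := FiniteField.exists_root_sum_quadratic
    (f := C a * X ^ 2 + C 0 * X + C 0) (g := C b * X ^ 2 + C 0 * X + C (-c))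
    (degree_quadratic ha) (degree_quadratic hb) (FiniteField.odd_card_of_char_ne_two hc)
  refine ⟨u, w, ?_⟩
  simp only [eval_add, eval_mul, eval_C, eval_pow, eval_X] at h
  linear_combination h

theorem rep [Fintype F] (h2 : (2 : F) ≠ 0) : ∀ (n : ℕ) (e e' : Fin n → F), (∀ i, e i ≠ 0) →
    (∀ i, e' i ≠ 0) → IsSquare ((∏ i, e i) * ∏ i, e' i) → Rep e e'
  | 0, e, e', _, _, _ => ⟨id, ⟨fun _ _ => rfl, fun _ _ => rfl⟩, fun _ _ => by simp⟩
  | 1, e, e', h, _, k => one (h 0) (by simpa using k)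
  | n + 2, e, e', h, h', k => by
    obtain ⟨u, w, huw⟩ := binary h2 (h 0) (h (Fin.succ 0)) (e' 0)
    have e1 : e = Fin.cons (e 0)
        (Fin.cons (e (Fin.succ 0)) (fun i => e i.succ.succ) : Fin (n + 1) → F) := by
      funext i
      exact Fin.cases rfl (fun j => Fin.cases rfl (fun _ => rfl) j) i
    have e2 : e' = Fin.cons (e' 0) fun i => e' i.succ := by
      funext i
      exact Fin.cases rfl (fun _ => rfl) i
    have ih := rep h2 (n + 1)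
      (Fin.cons (e 0 * e (Fin.succ 0) * e' 0) fun i => e i.succ.succ) (fun i => e' i.succ)
      (fun i => Fin.cases (mul_ne_zero (mul_ne_zero (h _) (h _)) (h' _)) (fun j => h _) i)
      (fun i => h' _) (by
        rw [Fin.prod_univ_succ, Fin.prod_univ_succ, Fin.prod_univ_succ e'] at k
        rw [Fin.prod_univ_succ]
        simp only [Fin.cons_zero, Fin.cons_succ]
        have q : e 0 * e (Fin.succ 0) * e' 0 * (∏ i : Fin n, e i.succ.succ) *
            ∏ i : Fin (n + 1), e' i.succ = e 0 * (e (Fin.succ 0) * ∏ i : Fin n, e i.succ.succ) *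
            (e' 0 * ∏ i : Fin (n + 1), e' i.succ) := by ring
        rw [q]
        exact k)
    rw [e1, e2]
    exact (two _ huw).trans (ih.cons _)

/-- the splitting of the index set -/
def sg (g : ℕ) : Fin g ⊕ Fin g ≃ Fin (2 * g) := finSumFinEquiv.trans (finCongr (two_mul g).symm)

end HypA

open HypA in
theorem hyp_n : HYPStmt := by
  intro F _ _ h2 g e he hs
  obtain ⟨h, hh⟩ : ∃ h : Fin (2 * g) → F,
      ∀ s, h (sg g s) = Sum.elim (fun _ => (1 : F)) (fun _ => -1) s :=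
    ⟨fun i => Sum.elim (fun _ => (1 : F)) (fun _ => -1) ((sg g).symm i), fun s => by simp⟩
  have h0 : ∀ i, h i ≠ 0 := fun i => by
    obtain ⟨s, rfl⟩ := (sg g).surjective i
    rw [hh]
    cases s <;> simp
  have hp : ∏ i, h i = (-1) ^ g := by
    rw [← (sg g).prod_comp h]
    simp [hh]
  obtain ⟨ψ, l, hψ⟩ := rep h2 (2 * g) e h he h0 (by rw [hp, mul_comm]; exact hs)
  obtain ⟨θ, hθ⟩ : ∃ θ : (Fin g → F) × (Fin g → F) → Fin (2 * g) → F, ∀ x s,
      θ x (sg g s) = Sum.elim (fun j => x.1 j + x.2 j / 2) (fun j => x.1 j - x.2 j / 2) s :=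
    ⟨fun x i => Sum.elim (fun j => x.1 j + x.2 j / 2) (fun j => x.1 j - x.2 j / 2)
      ((sg g).symm i), fun x s => by simp⟩
  have lθ : IsLinearMap F θ := ⟨fun x y => by
      funext i
      obtain ⟨s, rfl⟩ := (sg g).surjective i
      rw [Pi.add_apply, hθ, hθ, hθ]
      cases s <;> simp only [Sum.elim_inl, Sum.elim_inr, Prod.fst_add, Prod.snd_add,
        Pi.add_apply] <;> ring, fun t x => by
      funext i
      obtain ⟨s, rfl⟩ := (sg g).surjective i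
      rw [Pi.smul_apply, hθ, hθ]
      cases s <;> simp only [Sum.elim_inl, Sum.elim_inr, Prod.smul_fst, Prod.smul_snd,
        Pi.smul_apply, smul_eq_mul] <;> ring⟩
  have key : ∀ x y, ∑ i, e i * ψ (θ x) i * ψ (θ y) i = x.1 ⬝ᵥ y.2 + x.2 ⬝ᵥ y.1 := fun x y => by
    rw [hψ, ← (sg g).sum_comp, Fintype.sum_sum_type, dotProduct, dotProduct, ← sum_add_distrib,
      ← sum_add_distrib]
    refine sum_congr rfl fun j _ => ?_
    simp only [hh, hθ, Sum.elim_inl, Sum.elim_inr]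
    field_simp
    ring
  obtain ⟨L, hL⟩ : ∃ L : ((Fin g → F) × (Fin g → F)) →ₗ[F] (Fin (2 * g) → F),
      ∀ x, L x = ψ (θ x) := ⟨(l.mk' ψ).comp (lθ.mk' θ), fun _ => rfl⟩
  have inj : Function.Injective L := by
    rw [← LinearMap.ker_eq_bot, LinearMap.ker_eq_bot']
    intro x hx
    have z : ∀ y : (Fin g → F) × (Fin g → F), x.1 ⬝ᵥ y.2 + x.2 ⬝ᵥ y.1 = 0 := fun y => by
      rw [← key, ← hL x, hx]
      simp
    refine Prod.ext (funext fun j => ?_) (funext fun j => ?_)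
    · simpa using z (0, Pi.single j 1)
    · simpa using z (Pi.single j 1, 0)
  refine ⟨L.linearEquivOfInjective inj (by simp [two_mul]), fun x y => ?_⟩
  rw [LinearMap.linearEquivOfInjective_apply, LinearMap.linearEquivOfInjective_apply, hL, hL]
  exact key x y

end Pool.Agent.MP_a43263_nt.N2

end

end PkN2Hyp

section PkN2Inv

/-! THEOREM N2: the local conditions are invariant under changes of basis. -/

set_option autoImplicit false

noncomputable section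

namespace Pool.Agent.MP_a43263_nt.N2

open Polynomial Finset Filter Matrix JC Pool.Agent.MP_a43263_nt.UV K2

namespace InvA

open UC.Chg

section
variable {n g : ℕ} {R : Type} [CommRing R]

theorem one (A A' N γ γ' β : Matrix (Fin n) (Fin n) R) (h : γ * γ' = 1) (hβ : IsUnit β.det) :
    Tt (γᵀ * A * γ) (βᵀ * A' * β) (βᵀ * N * γ) = γ' * Tt A A' N * γ := by
  have u : IsUnit γ.det := isUnit_det_of_right_inverse h
  have e1 : ∀ M : Matrix (Fin n) (Fin n) R, γᵀ⁻¹ * (γᵀ * M) = M :=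
    fun M => nonsing_inv_mul_cancel_left _ M (isUnit_det_transpose _ u)
  have e2 : ∀ M : Matrix (Fin n) (Fin n) R, βᵀ⁻¹ * (βᵀ * M) = M :=
    fun M => nonsing_inv_mul_cancel_left _ M (isUnit_det_transpose _ hβ)
  have e3 : ∀ M : Matrix (Fin n) (Fin n) R, β * (β⁻¹ * M) = M :=
    fun M => mul_nonsing_inv_cancel_left _ M hβ
  simp only [Tt, Matrix.mul_inv_rev, transpose_mul, transpose_transpose, Matrix.mul_assoc, e1, e2,
    e3, inv_eq_right_inv h, Matrix.mul_sub, Matrix.sub_mul, Matrix.one_mul, mul_eq_one_comm.1 h]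

theorem form2 (B β γ : Matrix (Fin n) (Fin n) R) (y z : Fin n → R) :
    y ⬝ᵥ (βᵀ * B * γ) *ᵥ z = (β *ᵥ y) ⬝ᵥ B *ᵥ (γ *ᵥ z) := by
  rw [← mulVec_mulVec, ← mulVec_mulVec, dotProduct_mulVec y, vecMul_transpose]

theorem inv1 {γ : Matrix (Fin n) (Fin n) R} (h : γ.det = 1) : γ * γ⁻¹ = 1 :=
  mul_nonsing_inv _ (h ▸ isUnit_one)

theorem st {f : R[X]} {A T γ γ' : Mat g R} (h : γ * γ' = 1) (s : St f A (A * T)) :
    St f (γᵀ * A * γ) (γᵀ * A * γ * (γ' * T * γ)) := by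
  obtain ⟨T, c0, c, x, s, s0, x1, x2⟩ := s
  refine ⟨γ' * T * γ, by rw [mul1 h, mul1 h, c0], (chp h).trans c, γ' *ᵥ x, s, s0, ?_, ?_⟩
  · rw [mulVec_mulVec, Matrix.mul_assoc, h, Matrix.mul_one, ← mulVec_mulVec, x1, mulVec_zero]
  · rw [form, mulVec_mulVec, h, one_mulVec, x2]

theorem hz {S γ : Mat g R} (h : γ.det = 1) (s : Hz g S) : Hz g (γᵀ * S * γ) := by
  obtain ⟨Γ, e, a, b, c, d⟩ := s
  refine ⟨γ⁻¹ * Γ, e, ?_, b, c, ?_⟩
  · rw [det_mul]
    exact (isUnit_det_of_left_inverse (inv1 h)).mul a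
  · have e1 : γ * (γ⁻¹ * Γ) = Γ := by rw [← Matrix.mul_assoc, inv1 h, Matrix.one_mul]
    rw [← d, Matrix.mul_assoc, Matrix.mul_assoc _ γ, e1, Matrix.mul_assoc γᵀ, ← Matrix.mul_assoc,
      ← transpose_mul, e1, Matrix.mul_assoc]

theorem det1 {γ : Mat g ℤ} (h : γ.det = 1) : (mK γ R).det = 1 := by rw [mK_det, h, Int.cast_one]

theorem mk3 (β N γ : Mat g ℤ) : mK (βᵀ * N * γ) R = (mK β R)ᵀ * mK N R * mK γ R := by
  rw [mK_mul, mK_mul, mK_transpose]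

end

variable {g p : ℕ} {A γ : Mat g ℤ} {M : Sub g p}

/-- the preimage of a subspace -/
def cm (γ : Mat g ℤ) (M : Sub g p) : Sub g p := M.comap (mK γ (ZMod p)).mulVecLin

theorem mem_cm {x : Vz g} : rd p x ∈ cm γ M ↔ rd p (γ *ᵥ x) ∈ M := by
  have : rd p (γ *ᵥ x) = mK γ (ZMod p) *ᵥ rd p x :=
    funext fun i => (Int.castRingHom (ZMod p)).map_mulVec γ x i
  rw [this]
  rfl

theorem is1 (h : γ.det = 1) (s : Is1 p A M) : Is1 p (γᵀ * A * γ) (cm γ M) := by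
  refine ⟨Eq.trans ?_ s.1, fun x y hx hy => ?_⟩
  · have h1 := inv1 (det1 (R := ZMod p) h)
    exact Nat.card_congr (Equiv.subtypeEquiv ⟨fun x => mK γ (ZMod p) *ᵥ x,
      fun x => (mK γ (ZMod p))⁻¹ *ᵥ x,
      fun x => by simp only [mulVec_mulVec, mul_eq_one_comm.1 h1, one_mulVec],
      fun x => by simp only [mulVec_mulVec, h1, one_mulVec]⟩ fun _ => Iff.rfl)
  · rw [form]
    exact s.2 _ _ (mem_cm.1 hx) (mem_cm.1 hy)

theorem pp (h : γ.det = 1) {x : Vz g} (s : Pp p (γᵀ * A * γ) (cm γ M) x) : Pp p A M (γ *ᵥ x) :=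
  fun y hy => by
    have e : γ *ᵥ (γ⁻¹ *ᵥ y) = y := by rw [mulVec_mulVec, inv1 h, one_mulVec]
    have := s (γ⁻¹ *ᵥ y) (mem_cm.2 (e.symm ▸ hy))
    rwa [form, e] at this

end InvA

open InvA UC.Chg in
theorem inv_n : CHGStmt → INVStmt := fun _ g Q f₀ mb m₀ m₁ a A A' N γ β _ _ h k L => by
  refine ⟨fun q hq => ?_, fun p hp hm => ?_, fun p hp h0 h1 => ?_⟩
  · obtain ⟨c, c1, s, d⟩ := L.1 q hq
    have h' := det1 (R := ZMod q) h
    have k' := det1 (R := ZMod q) k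
    have e : c • mK (βᵀ * N * γ) (ZMod q) =
        (mK β (ZMod q))ᵀ * (c • mK N (ZMod q)) * mK γ (ZMod q) := by
      rw [mk3, Matrix.mul_smul, Matrix.smul_mul]
    refine ⟨c, c1, ?_, ?_⟩
    · rw [e, mk3, mk3, one _ _ _ _ _ _ (inv1 h') (k' ▸ isUnit_one)]
      exact st (inv1 h') s
    · rw [e, det_mul, det_mul, det_transpose, h', k', one_mul, mul_one, d]
  · obtain ⟨M, M', s, s', t⟩ := L.2.1 p hp hm
    refine ⟨cm γ M, cm β M', is1 h s, is1 k s', fun x x' => ?_⟩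
    obtain ⟨t1, t2, t3, t4, t5⟩ := t (γ *ᵥ x) (β *ᵥ x')
    rw [form2, form, form]
    exact ⟨fun u => t1 (pp h u), fun u => t2 (pp k u), fun u v => t3 (mem_cm.1 u) (pp k v),
      fun u v => t4 (pp h u) (mem_cm.1 v), fun u v => t5 (pp h u) (pp k v)⟩
  · have s := hz (det1 (R := ZMod p) h) (L.2.2 p hp h0 h1)
    rw [← mk3] at s
    rwa [L2, one _ _ _ _ _ _ (inv1 h) (k ▸ isUnit_one), mul1 (inv1 h), ← Matrix.smul_mul,
      ← Matrix.mul_smul, ← Matrix.add_mul, ← Matrix.mul_add]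

end Pool.Agent.MP_a43263_nt.N2

end

end PkN2Inv

section PkN2Isc

/-! THEOREM N2, row Isc: the number of maximal isotropic subspaces. -/

set_option autoImplicit false

noncomputable section

namespace Pool.Agent.MP_a43263_nt.N2

open Polynomial Finset Filter Matrix JC Pool.Agent.MP_a43263_nt.UV K2

namespace IscA

theorem count {X Y : Type} [Finite X] [Finite Y] (f : X → Y) (P : Y → Prop) (L Q : X → Prop)
    (hQ : ∀ x, P (f x) → Q x) {a b : ℝ} (hb : 0 ≤ b)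
    (h : ∀ M, P M → a ≤ b * (Nat.card {x // L x ∧ f x = M} : ℝ)) :
    (Nat.card {M // P M} : ℝ) * a ≤ b * (Nat.card {x // L x ∧ Q x} : ℝ) := by
  have := Fintype.ofFinite {M // P M}
  have h1 : Nat.card (Σ M : {M // P M}, {x // L x ∧ f x = M.1}) ≤ Nat.card {x // L x ∧ Q x} := by
    refine Nat.card_le_card_of_injective
      (fun z => ⟨z.2.1, z.2.2.1, hQ _ (z.2.2.2.symm ▸ z.1.2)⟩) ?_
    rintro ⟨⟨M, hM⟩, x, hx, e1⟩ ⟨⟨M', hM'⟩, x', hx', e2⟩ e
    obtain rfl : x = x' := congrArg Subtype.val e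
    obtain rfl : M = M' := e1.symm.trans e2
    rfl
  rw [Nat.card_sigma] at h1
  calc (Nat.card {M // P M} : ℝ) * a = ∑ _M : {M // P M}, a := by
        rw [sum_const, card_univ, nsmul_eq_mul, Nat.card_eq_fintype_card]
    _ ≤ ∑ M : {M // P M}, b * (Nat.card {x // L x ∧ f x = M.1} : ℝ) := sum_le_sum fun M _ => h _ M.2
    _ ≤ _ := by
        rw [← mul_sum]
        exact mul_le_mul_of_nonneg_left (by exact_mod_cast h1) hb

theorem iso {g p : ℕ} {A : Mat g ℤ} {M : Sub g p} (h : Is1 p A M) {u v : Fin (2 * g + 1) → ZMod p}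
    (hu : u ∈ M) (hv : v ∈ M) : u ⬝ᵥ A.map (Int.castRingHom (ZMod p)) *ᵥ v = 0 := by
  have e : ∀ w : Fin (2 * g + 1) → ZMod p, rd p (fun i => (w i).cast) = w := fun w =>
    funext fun i => ZMod.intCast_zmod_cast _
  have h1 := (ZMod.intCast_zmod_eq_zero_iff_dvd _ p).2
    (h.2 _ _ ((e u).symm ▸ hu) ((e v).symm ▸ hv))
  simpa [dotProduct, mulVec] using h1

end IscA

theorem isc_n : TUPStmt → BASStmt → ISCStmt := by
  intro tup bas g
  obtain ⟨C, hC, tup⟩ := tup g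
  refine ⟨3 + C + 3 * C, by positivity, fun p A hp h2 hs hd => ?_⟩
  have := Fact.mk hp
  have p3 : 3 ≤ p := by have := hp.two_le; omega
  have two : (2 : ZMod p) ≠ 0 := fun e => by
    have := Nat.le_of_dvd two_pos ((ZMod.natCast_eq_zero_iff 2 p).1 (by exact_mod_cast e))
    omega
  have t := tup (ZMod p) two (Fin (2 * g + 1)) (A.map (Int.castRingHom (ZMod p))) (hs.map _)
    (by rw [← RingHom.mapMatrix_apply, ← RingHom.map_det]; exact (hd.map _).ne_zero) (by simp)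
  have p0 : (0 : ℝ) < p := by exact_mod_cast hp.pos
  have p1 : (1 : ℝ) ≤ p := by exact_mod_cast hp.pos
  have c := IscA.count (fun x : Fin g → Fin (2 * g + 1) → ZMod p =>
      Submodule.span (ZMod p) (Set.range x)) (Is1 p A) (fun x => LinearIndependent (ZMod p) x)
    (fun x => ∀ i j, x i ⬝ᵥ A.map (Int.castRingHom (ZMod p)) *ᵥ x j = 0)
    (fun x h i j => IscA.iso h (Submodule.subset_span ⟨i, rfl⟩) (Submodule.subset_span ⟨j, rfl⟩))
    (a := (p : ℝ) ^ (g * g)) (b := 1 + 3 / p) (by positivity) fun M h => by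
      have := bas (ZMod p) (by rwa [ZMod.card]) g _ M (by rw [ZMod.card]; exact h.1)
      rwa [ZMod.card] at this
  rw [ZMod.card, Fintype.card_fin] at t
  have e : g * (2 * g + 1) = g * g + (g + 1).choose 2 + (g + 1).choose 2 := by
    have h1 := Nat.choose_two_right (g + 1)
    have h2 : 2 ∣ (g + 1) * (g + 1 - 1) := (Nat.even_mul_pred_self (g + 1)).two_dvd
    have h3 := Nat.div_mul_cancel h2
    rw [← h1, Nat.add_sub_cancel] at h3
    linarith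
  rw [e, pow_add, pow_add] at t
  have a0 : 0 < (p : ℝ) ^ (g * g) * (p : ℝ) ^ (g + 1).choose 2 := by positivity
  have i1 : 3 * C / p / p ≤ 3 * C / p := div_le_self (by positivity) p1
  refine le_trans (le_of_mul_le_mul_right (a := (p : ℝ) ^ (g * g) * (p : ℝ) ^ (g + 1).choose 2)
    (c := (p : ℝ) ^ (g + 1).choose 2 * ((1 + 3 / p) * (1 + C / p))) ?_ a0) ?_
  · rw [← mul_assoc]
    refine (mul_le_mul_of_nonneg_right c (by positivity)).trans ?_
    rw [mul_assoc]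
    exact (mul_le_mul_of_nonneg_left t (by positivity)).trans_eq (by ring)
  · refine mul_le_mul_of_nonneg_left ?_ (by positivity)
    have : (1 + 3 / (p : ℝ)) * (1 + C / p) = 1 + (3 + C) / p + 3 * C / p / p := by ring
    rw [this, add_div (3 + C)]
    linarith

end Pool.Agent.MP_a43263_nt.N2

end

end PkN2Isc

section PkN2Kill

/-! THEOREM N2: the Selmer group of the companion with a smooth part. -/

set_option autoImplicit false

noncomputable section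

namespace Pool.Agent.MP_a43263_nt.N2

open Polynomial Finset Filter Matrix JC Pool.Agent.MP_a43263_nt.UV K2
open UV.Kill (fK_mul dvd_iff)

namespace KillA

theorem sqf {m r : ℕ} {S : Finset ℕ} (hm : Squarefree m) (hS : ∀ q ∈ S, q.Prime ∧ ¬q ∣ m)
    (rp : r.Prime) (rS : r ∉ S) (rm : ¬r ∣ m) {p : ℕ} (hp : p.Prime) :
    ¬(p : ℤ) ^ 2 ∣ ((m * ∏ q ∈ S, q : ℕ) : ℤ) * (r : ℤ) := fun c => by
  have h1 : Squarefree (∏ q ∈ S, q) := Finset.squarefree_prod_of_pairwise_isCoprime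
    (fun a ha b hb e => Nat.coprime_iff_isRelPrime.1
      ((Nat.coprime_primes (hS a ha).1 (hS b hb).1).2 e)) fun q hq => (hS q hq).1.squarefree
  have h2 : Squarefree (m * (∏ q ∈ S, q) * r) := by
    refine Nat.squarefree_mul_iff.2 ⟨Nat.Coprime.mul_left
      ((Nat.Prime.coprime_iff_not_dvd rp).2 rm).symm (Nat.Coprime.prod_left fun q hq =>
        (Nat.coprime_primes (hS q hq).1 rp).2 fun e => rS (e ▸ hq)),
      Nat.squarefree_mul_iff.2 ⟨Nat.Coprime.prod_right fun q hq =>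
        ((Nat.Prime.coprime_iff_not_dvd (hS q hq).1).2 (hS q hq).2).symm, hm, h1⟩, rp.squarefree⟩
  refine Nat.squarefree_iff_prime_squarefree.1 h2 p hp ?_
  rw [← sq]
  exact_mod_cast c

end KillA

theorem kill_n : WTStmt → EV1Stmt → EV2Stmt → RAM2Stmt → TWOStmt → REALStmt → NGMStmt →
    RAMGStmt → RECStmt → KILLStmt := by
  classical
  intro wt ev1 ev2 ram2 two real ngm ramg rec' g f Q m₀ a hf hQ hx inc sm hrt hs
  have hWG := wg gram
  have p2 : ∀ p : ℕ, p ∣ m₀ → p ≠ 2 := fun p h e => sm.odd (e ▸ h)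
  let V : ℚ[X] → Prop := fun δ => IsSquare (Nm (zK f ℚ) δ) ∧ Wc 1 (zK f ℝ) (fK δ ℝ) ∧
    Wc 1 (zK f ℚ_[2]) (fK δ ℚ_[2]) ∧
    (∀ (p : ℕ) [Fact p.Prime], p ∉ Q → ¬p ∣ m₀ → Ev p f (fK δ ℚ_[p])) ∧
    ∀ (p : ℕ) [Fact p.Prime], p ∣ m₀ → ∃ t, NG p f a (fK δ ℚ_[p]) 0 t
  obtain ⟨S, hS, H⟩ := lag Q {x | ∃ δ, V δ ∧
      ∀ (q : ℕ) [Fact q.Prime], q ∈ Q → NF q f (fK δ ℚ_[q]) (x.1 q) (x.2 q)}
    (by
      rintro x ⟨δ, ⟨a1, a2, a3, a4, a6⟩, a5⟩ x' ⟨δ', ⟨b1, b2, b3, b4, b6⟩, b5⟩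
      refine ⟨δ * δ', ⟨?_, ?_, ?_, fun p _ hp hm => ?_, fun p h hm => ?_⟩, fun q _ hq => ?_⟩
      · rw [(gram.1 ℚ _ (hf.mo ℚ)).1]
        exact a1.mul b1
      · rw [fK_mul]
        exact (hWG ℝ g 1 _ (hf.sq ℝ) one_ne_zero).2.1 _ _ a2 b2
      · rw [fK_mul]
        exact (hWG ℚ_[2] g 1 _ (hf.sq _) one_ne_zero).2.1 _ _ a3 b3
      · rw [fK_mul]
        exact (nfm p g f hf).2.1 _ _ (a4 p hp hm) (b4 p hp hm)
      · rw [fK_mul]
        obtain ⟨t, ht⟩ := a6 p hm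
        obtain ⟨t', ht'⟩ := b6 p hm
        have := (ngm p g f a (p2 p hm) hf (hrt p h.out hm)).2.2.2.1 _ _ _ _ _ _ ht ht'
        rw [add_zero] at this
        exact ⟨_, this⟩
      · rw [fK_mul]
        refine (nfm q g f hf).2.2.2 ?_ (hQ q hq).2.2 _ _ _ _ _ _ (a5 q hq) (b5 q hq)
        have := (hQ q hq).2.1
        omega)
    (by
      rintro x ⟨δ, ⟨a1, a2, a3, a4, a6⟩, a5⟩
      exact rec' g f Q m₀ a δ x.1 x.2 hf (fun q hq => ⟨(hQ q hq).1,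
        by have := (hQ q hq).2.1; omega, (hQ q hq).2.2⟩) sm hrt a1 a2 a3 a4 a6 a5)
  refine ⟨S, hS, fun F κ u v G r cp uv v8 rp r2 rQ rm hG hel sr δ₀ hE => ?_⟩
  have : Fact r.Prime := ⟨rp⟩
  have d2 : ∀ p : ℕ, p.Prime → ¬(p : ℤ) ^ 2 ∣ G := fun p hp => hG ▸ KillA.sqf sm.sf
    (fun q hq => ⟨(hQ q (hS hq)).1, sm.cop q (hS hq)⟩) rp (fun c => rQ (hS c)) rm hp
  rw [Nat.cast_mul, Nat.cast_prod] at hG
  have pS : ∀ q ∈ S, q.Prime := fun q hq => (hQ q (hS hq)).1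
  have uo : Odd u := Int.not_even_iff_odd.1 fun c => by
    have := Int.isUnit_iff.1
      (uv.isUnit_of_dvd' (even_iff_two_dvd.1 c) ((show (2 : ℤ) ∣ 8 by decide).trans v8))
    omega
  have d1 : ∀ p : ℕ, p.Prime → p ∉ S → p ≠ r → ¬p ∣ m₀ → ¬(p : ℤ) ∣ G := fun p hp a b m c => by
    have hp' := Nat.prime_iff_prime_int.1 hp
    rcases hp'.dvd_or_dvd (hG ▸ c) with c | c
    · exact (hp'.dvd_or_dvd c).elim (fun c => m (Int.natCast_dvd_natCast.1 c))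
        fun c => a (dvd_iff pS hp c)
    · exact b ((Nat.prime_dvd_prime_iff_eq hp rp).1 (Int.natCast_dvd_natCast.1 c))
  have core : ∀ δ : ℚ[X], Wt (zK f ℝ) (zK F ℝ) (zK κ ℝ) (fK δ ℝ) →
      (∀ (p : ℕ) [Fact p.Prime], Wt (zK f ℚ_[p]) (zK F ℚ_[p]) (zK κ ℚ_[p]) (fK δ ℚ_[p])) →
      Ev r f (fK δ ℚ_[r]) → ∃ j : ℕ, j ≤ 1 ∧ Sqm (zK f ℚ) (δ * (1 - X) ^ j) := by
    intro δ hr hp er
    have nsq := fun (K : Type) [Field K] [CharZero K] => (wt g f F κ u v G hf cp K).1 (fK δ K)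
    have nmap : ∀ (K : Type) [Field K] [CharZero K],
        Nm (zK f K) (fK δ K) = (Nm (zK f ℚ) δ : ℚ) := fun K _ _ => by
      rw [← fK_zK]
      exact (gram.1 ℚ _ (hf.mo ℚ)).2.2.2.2.2 K (Rat.castHom K) δ
    have nq : IsSquare (Nm (zK f ℚ) δ) :=
      pad.2.2 _ (nmap ℝ ▸ (nsq ℝ hr).2) fun p _ => nmap ℚ_[p] ▸ (nsq _ (hp p)).2
    have hev : ∀ (p : ℕ) [Fact p.Prime], p ∉ S → ¬p ∣ m₀ → Ev p f (fK δ ℚ_[p]) :=
      fun p h c m => by
      by_cases e : p = r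
      · subst e
        exact er
      · exact ev1 p g f F κ u v G _ hf cp (hx p h.out) (d1 p h.out c e m) (hp p)
    have hV : V δ := ⟨nq, real g f _ hf inc (nsq ℝ hr).1 (nsq ℝ hr).2,
      two g f F κ u v G _ hf cp v8 uo (hp 2), fun p _ c => hev p fun e => c (hS e),
      fun p h m => ramg p g f F κ a u v G _ (p2 p m) hf (hrt p h.out m) cp uv (hx p h.out)
        (hG ▸ ((Int.natCast_dvd_natCast.2 m).mul_right _).mul_right _) (d2 p h.out)
        ((Int.natCast_dvd_natCast.2 m).trans hel) (hp p)⟩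
    have hn : ∀ q : ℕ, ∃ s y : ZMod 2, (q ∈ S → s = 0) ∧ (q ∉ S → y = 0) ∧
        ∀ [Fact q.Prime], q ∈ Q → NF q f (fK δ ℚ_[q]) s y := by
      intro q
      by_cases c : q ∈ Q
      swap
      · exact ⟨0, 0, fun _ => rfl, fun _ => rfl, fun e => absurd e c⟩
      have : Fact q.Prime := ⟨(hQ q c).1⟩
      by_cases c' : q ∈ S
      · obtain ⟨s, y, h⟩ := nfe gram hens cmp q g f _ hf (hQ q c).2.2 (nsq _ (hp q)).1
          (nsq _ (hp q)).2
        exact ⟨s, y, fun _ => ram2 q g f F κ u v G _ s y (by have := (hQ q c).2.1; omega) hf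
          (hQ q c).2.2 cp uv (hG ▸ ((dvd_prod_of_mem _ c').mul_left _).mul_right _)
          (d2 q (hQ q c).1) (hp q) h,
          fun e => absurd c' e, fun _ => h⟩
      · obtain ⟨s, h⟩ := ((nfm q g f hf).2.2.1 _).1 (hev q c' (sm.cop q c))
        exact ⟨s, 0, fun e => absurd e c', fun _ => rfl, fun _ => h⟩
    choose s y h1 h2 h3 using hn
    have z := H (s, y) ⟨δ, hV, fun q _ hq => h3 q hq⟩ h1 fun q _ => h2 q
    have nf : ∀ (q : ℕ) [Fact q.Prime], q ∈ Q → NF q f (fK δ ℚ_[q]) 0 0 := fun q _ hq => by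
      have := h3 q hq
      rwa [show s q = 0 from (z q hq).1, show y q = 0 from (z q hq).2] at this
    refine (hs δ (isCoprime_of_map (Rat.castHom ℝ) (by rw [zK_map]; exact (nsq ℝ hr).1)) nq
      (fun p _ m => ?_) hV.2.2.2.2 nf).elim (fun k => ⟨0, zero_le_one, by rwa [pow_zero, mul_one]⟩)
      fun k => ⟨1, le_rfl, by rwa [pow_one]⟩
    by_cases c : p ∈ Q
    · exact ((nfm p g f hf).2.2.1 _).2 ⟨0, nf p c⟩
    · exact hV.2.2.2.1 p c m
  have w0 : ∀ (K : Type) [Field K] [CharZero K], Wc 1 (fK (zK F ℚ) K) (fK δ₀ K) →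
      Wt (zK f K) (zK F K) (zK κ K) (fK (δ₀.comp (zK κ ℚ)) K) := fun K _ _ h =>
    ⟨fK δ₀ K, fK_zK F K ▸ h, by rw [fK, map_comp, zK_map, sub_self]; exact dvd_zero _⟩
  have w1 : ∀ (K : Type) [Field K] [CharZero K], Wc 1 (fK (zK F ℚ) K) (fK δ₀ K) →
      Wt (zK f K) (zK F K) (zK κ K) (fK (δ₀.comp (zK κ ℚ) * zK (be u v G) ℚ) K) :=
    fun K _ _ h => by
      obtain ⟨-, k2, -, k4, -⟩ := wt g f F κ u v G hf cp K
      rw [fK_mul, fK_zK]
      exact k2 _ _ (w0 K h) k4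
  rcases ev2 r g f F κ u v G _ hf cp uv (hx r rp) (hG ▸ dvd_mul_left _ _) (d2 r rp) sr
    (w0 _ (hE.2 r)) with e | e
  · obtain ⟨j, a, b⟩ := core _ (w0 ℝ hE.1) (fun p _ => w0 _ (hE.2 p)) e
    exact ⟨0, j, zero_le_one, a, by rwa [pow_zero, mul_one]⟩
  · obtain ⟨j, a, b⟩ := core _ (w1 ℝ hE.1) (fun p _ => w1 _ (hE.2 p))
      (by rwa [fK_mul, fK_zK])
    exact ⟨1, j, le_rfl, a, by rwa [pow_one]⟩

end Pool.Agent.MP_a43263_nt.N2

end

end PkN2Kill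

section PkN2Lagc

/-! Row Lagc: a hyperbolic space has many Lagrangian subspaces. -/

set_option autoImplicit false

noncomputable section

namespace Pool.Agent.MP_a43263_nt.N2

open Finset Matrix

namespace LagcA

variable {F : Type} [Field F] {g : ℕ}

abbrev Pr (g : ℕ) : Type := {z : Fin g × Fin g // z.1 < z.2}

theorem card_Pr (g : ℕ) : Fintype.card (Pr g) = g.choose 2 := by
  have := card_product_filter_lt (s := (univ : Finset (Fin g)))
  rw [univ_product_univ, card_univ, Fintype.card_fin] at this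
  rw [Fintype.card_subtype, this]

def up (c : Pr g → F) : Matrix (Fin g) (Fin g) F :=
  Matrix.of fun i j => if h : i < j then c ⟨(i, j), h⟩ else 0

def sk (c : Pr g → F) : Matrix (Fin g) (Fin g) F := up c - (up c)ᵀ

theorem sk_tr (c : Pr g → F) : (sk c)ᵀ = -sk c := by simp [sk]

theorem sk_inj : Function.Injective (sk : (Pr g → F) → _) := fun c c' h => funext fun z => by
  have := congrFun (congrFun h z.1.1) z.1.2
  simpa [sk, up, z.2, z.2.not_gt] using this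

def gr (c : Pr g → F) : Submodule F ((Fin g → F) × (Fin g → F)) := (mulVecLin (sk c)).graph

theorem mem_gr {c : Pr g → F} {w : (Fin g → F) × (Fin g → F)} : w ∈ gr c ↔ w.2 = sk c *ᵥ w.1 :=
  LinearMap.mem_graph_iff _ _

theorem gr_inj : Function.Injective (gr : (Pr g → F) → _) := fun c _ h =>
  sk_inj (Matrix.ext_iff_mulVec.2 fun v =>
    mem_gr.1 (h ▸ (mem_gr.2 rfl : (v, sk c *ᵥ v) ∈ gr c)))

theorem gr_card [Fintype F] (c : Pr g → F) : Nat.card (gr c) = Fintype.card F ^ g := by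
  have e : gr c ≃ (Fin g → F) :=
    ⟨fun w => w.1.1, fun v => ⟨(v, sk c *ᵥ v), mem_gr.2 rfl⟩,
      fun w => Subtype.ext (Prod.ext rfl (mem_gr.1 w.2).symm), fun _ => rfl⟩
  rw [Nat.card_congr e]
  simp

theorem gr_iso {c : Pr g → F} {x y : (Fin g → F) × (Fin g → F)} (hx : x ∈ gr c) (hy : y ∈ gr c) :
    x.1 ⬝ᵥ y.2 + x.2 ⬝ᵥ y.1 = 0 := by
  rw [mem_gr.1 hx, mem_gr.1 hy, dotProduct_mulVec, ← mulVec_transpose, sk_tr, neg_mulVec,
    neg_dotProduct, neg_add_cancel]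

def sw (o : Fin g) : ((Fin g → F) × (Fin g → F)) →ₗ[F] ((Fin g → F) × (Fin g → F)) where
  toFun w := (fun i => if i = o then w.2 i else w.1 i, fun i => if i = o then w.1 i else w.2 i)
  map_add' v w := by ext i <;> by_cases h : i = o <;> simp [h]
  map_smul' a w := by ext i <;> by_cases h : i = o <;> simp [h]

theorem sw_inv (o : Fin g) : Function.Involutive (sw (F := F) o) := fun w => by
  ext i <;> by_cases h : i = o <;> simp [sw, h]

theorem sw_iso (o : Fin g) (x y : (Fin g → F) × (Fin g → F)) :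
    (sw o x).1 ⬝ᵥ (sw o y).2 + (sw o x).2 ⬝ᵥ (sw o y).1 = x.1 ⬝ᵥ y.2 + x.2 ⬝ᵥ y.1 := by
  simp only [dotProduct, ← sum_add_distrib]
  refine sum_congr rfl fun i _ => ?_
  by_cases h : i = o <;> simp [sw, h, add_comm]

theorem sw_ne (o : Fin g) (c c' : Pr g → F) : (gr c).map (sw o) ≠ gr c' := fun h => by
  have h1 : sw o (Pi.single o 1, sk c *ᵥ Pi.single o 1) ∈ gr c' :=
    h ▸ Submodule.mem_map_of_mem (mem_gr.2 rfl)
  have h2 : (sw o (Pi.single o 1, sk c *ᵥ Pi.single o (1 : F))).1 = 0 := by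
    ext i
    by_cases h : i = o <;> simp [sw, h, sk]
  have h3 := congrFun (mem_gr.1 h1) o
  rw [h2, mulVec_zero] at h3
  simp [sw] at h3

def fam (o : Fin g) (z : Bool × (Pr g → F)) : Submodule F ((Fin g → F) × (Fin g → F)) :=
  if z.1 then (gr z.2).map (sw o) else gr z.2

theorem fam_inj (o : Fin g) : Function.Injective (fam (F := F) o) := by
  rintro ⟨_ | _, c⟩ ⟨_ | _, c'⟩ h <;> simp only [fam, if_true, Bool.false_eq_true, if_false] at h
  · rw [gr_inj h]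
  · exact (sw_ne o _ _ h.symm).elim
  · exact (sw_ne o _ _ h).elim
  · rw [gr_inj (Submodule.map_injective_of_injective (sw_inv o).injective h)]

theorem fam_card [Fintype F] (o : Fin g) (z : Bool × (Pr g → F)) :
    Nat.card (fam o z) = Fintype.card F ^ g := by
  unfold fam
  split_ifs
  · rw [← Nat.card_congr (Submodule.equivMapOfInjective _ (sw_inv o).injective _).toEquiv,
      gr_card]
  · exact gr_card _

theorem fam_iso (o : Fin g) (z : Bool × (Pr g → F)) {x y : (Fin g → F) × (Fin g → F)}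
    (hx : x ∈ fam o z) (hy : y ∈ fam o z) : x.1 ⬝ᵥ y.2 + x.2 ⬝ᵥ y.1 = 0 := by
  unfold fam at hx hy
  split_ifs at hx hy
  · obtain ⟨x, hx, rfl⟩ := hx
    obtain ⟨y, hy, rfl⟩ := hy
    rw [sw_iso, gr_iso hx hy]
  · exact gr_iso hx hy

end LagcA

open LagcA in
theorem lagc_n : HYPStmt → LAGCStmt := by
  classical
  intro hyp F _ _ h2 g e hg he hs
  obtain ⟨φ, hφ⟩ := hyp F h2 g e he hs
  have hi : Function.Injective (φ.toLinearMap) := φ.injective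
  refine ⟨univ.image (Submodule.map φ.toLinearMap ∘ fam ⟨0, hg⟩), le_of_eq ?_, fun Λ hΛ => ?_⟩
  · rw [card_image_of_injective _ ((Submodule.map_injective_of_injective hi).comp
      (fam_inj ⟨0, hg⟩)), card_univ, Fintype.card_prod, Fintype.card_bool, Fintype.card_fun,
      card_Pr]
  · obtain ⟨z, -, rfl⟩ := mem_image.1 hΛ
    refine ⟨(Nat.card_congr (Submodule.equivMapOfInjective _ hi _).toEquiv).symm.trans
      (fam_card _ z), ?_⟩
    rintro _ ⟨x, hx, rfl⟩ _ ⟨y, hy, rfl⟩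
    exact (hφ x y).trans (fam_iso _ z hx hy)

end Pool.Agent.MP_a43263_nt.N2

end

end PkN2Lagc

section PkN2Lgo

/-! THEOREM N2, row Lgo: Lagrangians of the kernel from Lagrangians of a hyperbolic space. -/

set_option autoImplicit false

noncomputable section

namespace Pool.Agent.MP_a43263_nt.N2

open Polynomial Finset Filter Matrix JC Pool.Agent.MP_a43263_nt.UV K2

namespace LgoA

variable {m : ℕ}

theorem dvd_mulVec {n : Type} [Fintype n] (c : ℤ) (M : Matrix n n ℤ) (v : n → ℤ)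
    (h : ∀ i, c ∣ v i) (i : n) : c ∣ (M *ᵥ v) i := by
  unfold Matrix.mulVec dotProduct
  exact Finset.dvd_sum fun j _ => Dvd.dvd.mul_left (h j) _

theorem dvd_mulVec' {n : Type} [Fintype n] (c : ℤ) (M : Matrix n n ℤ) (v : n → ℤ)
    (h : ∀ i j, c ∣ M i j) (i : n) : c ∣ (M *ᵥ v) i := by
  unfold Matrix.mulVec dotProduct
  exact Finset.dvd_sum fun j _ => Dvd.dvd.mul_right (h i j) _

theorem dvd_dot {n : Type} [Fintype n] (c : ℤ) (u v : n → ℤ) (h : ∀ i, c ∣ v i) :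
    c ∣ u ⬝ᵥ v := by
  unfold dotProduct
  exact Finset.dvd_sum fun j _ => Dvd.dvd.mul_left (h j) _

theorem cancel {n : Type} [Fintype n] [DecidableEq n] {p : ℤ} (hp : Prime p) (M : Matrix n n ℤ)
    (hM : ¬p ∣ M.det) (v : n → ℤ) (h : ∀ i, p ∣ (M *ᵥ v) i) (i : n) : p ∣ v i := by
  have h1 := dvd_mulVec p M.adjugate _ h i
  rw [Matrix.mulVec_mulVec, Matrix.adjugate_mul, Matrix.smul_mulVec, Matrix.one_mulVec] at h1
  exact (hp.dvd_or_dvd h1).resolve_left hM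

theorem adj_vec {n : Type} [Fintype n] [DecidableEq n] (M : Matrix n n ℤ) (v : n → ℤ) :
    M *ᵥ (M.adjugate *ᵥ v) = M.det • v := by
  rw [Matrix.mulVec_mulVec, Matrix.mul_adjugate, Matrix.smul_mulVec, Matrix.one_mulVec]

theorem vec_eq {n : Type} [Fintype n] [DecidableEq n] (c : ℤ) (Γ A : Matrix n n ℤ) (d : n → ℤ)
    (h : ∀ i j, c ∣ (Γᵀ * A * Γ - diagonal d) i j) (z : n → ℤ) (i : n) :
    c ∣ (Γᵀ *ᵥ (A *ᵥ (Γ *ᵥ z))) i - d i * z i := by
  have h1 := dvd_mulVec' c _ z h i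
  rw [Matrix.sub_mulVec, Pi.sub_apply, Matrix.mulVec_diagonal] at h1
  rwa [Matrix.mulVec_mulVec, Matrix.mulVec_mulVec]

theorem form_eq {n : Type} [Fintype n] [DecidableEq n] (c : ℤ) (Γ A : Matrix n n ℤ) (d : n → ℤ)
    (h : ∀ i j, c ∣ (Γᵀ * A * Γ - diagonal d) i j) (z z' : n → ℤ) :
    c ∣ (Γ *ᵥ z) ⬝ᵥ A *ᵥ (Γ *ᵥ z') - ∑ i, d i * z i * z' i := by
  have h1 := dvd_dot c z (fun i => (Γᵀ *ᵥ (A *ᵥ (Γ *ᵥ z'))) i - d i * z' i)
    (vec_eq c Γ A d h z')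
  have h2 : (Γ *ᵥ z) ⬝ᵥ A *ᵥ (Γ *ᵥ z') = z ⬝ᵥ Γᵀ *ᵥ (A *ᵥ (Γ *ᵥ z')) := by
    rw [Matrix.dotProduct_mulVec z, Matrix.vecMul_transpose]
  rw [h2]
  convert h1 using 1
  unfold dotProduct
  rw [← Finset.sum_sub_distrib]
  exact Finset.sum_congr rfl fun i _ => by ring

theorem sum_cons (p w : ℤ) (e : Fin m → ℤ) (z z' : Fin (m + 1) → ℤ) :
    ∑ i, (Fin.cons w fun i => p * e i : Fin (m + 1) → ℤ) i * z i * z' i =
      w * z 0 * z' 0 + p * ∑ i, e i * z i.succ * z' i.succ := by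
  rw [Fin.sum_univ_succ, Finset.mul_sum]
  simp only [Fin.cons_zero, Fin.cons_succ]
  congr 1
  exact Finset.sum_congr rfl fun i _ => by ring

theorem lk_ker {p : ℤ} (hp : Prime p) (Γ A : Matrix (Fin (m + 1)) (Fin (m + 1)) ℤ) (w : ℤ)
    (e : Fin m → ℤ) (hΓ : ¬p ∣ Γ.det) (hw : ¬p ∣ w) (he : ∀ i, ¬p ∣ e i)
    (h : ∀ i j, p ^ 2 ∣
      (Γᵀ * A * Γ - diagonal (Fin.cons w fun i => p * e i : Fin (m + 1) → ℤ)) i j)
    (y : Fin (m + 1) → ℤ) (hy : ∀ i, p ^ 2 ∣ (A *ᵥ y) i) (i : Fin (m + 1)) : p ∣ y i := by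
  set z := Γ.adjugate *ᵥ y with hz
  have h1 : Γ *ᵥ z = Γ.det • y := adj_vec Γ y
  have h2 : ∀ k, p ^ 2 ∣ (Γᵀ *ᵥ (A *ᵥ (Γ *ᵥ z))) k := by
    refine dvd_mulVec _ _ _ fun k => ?_
    rw [h1, Matrix.mulVec_smul, Pi.smul_apply, smul_eq_mul]
    exact Dvd.dvd.mul_left (hy k) _
  have h3 : ∀ k, p ^ 2 ∣ (Fin.cons w fun i => p * e i : Fin (m + 1) → ℤ) k * z k := fun k =>
    (dvd_iff_dvd_of_dvd_sub (vec_eq _ Γ A _ h z k)).1 (h2 k)
  have h4 : ∀ k, p ∣ z k := by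
    intro k
    refine Fin.cases ?_ (fun k => ?_) k
    · have h5 := h3 0
      rw [Fin.cons_zero] at h5
      exact (hp.dvd_or_dvd ((dvd_pow_self p two_ne_zero).trans h5)).resolve_left hw
    · have h5 := h3 k.succ
      rw [Fin.cons_succ, pow_two, mul_assoc] at h5
      exact (hp.dvd_or_dvd ((mul_dvd_mul_iff_left hp.ne_zero).1 h5)).resolve_left (he k)
  have h6 := dvd_mulVec p Γ z h4 i
  rw [h1, Pi.smul_apply, smul_eq_mul] at h6
  exact (hp.dvd_or_dvd h6).resolve_left hΓ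

theorem form_mod {p : ℤ} (Γ A : Matrix (Fin (m + 1)) (Fin (m + 1)) ℤ) (w : ℤ) (e : Fin m → ℤ)
    (h : ∀ i j, p ^ 2 ∣
      (Γᵀ * A * Γ - diagonal (Fin.cons w fun i => p * e i : Fin (m + 1) → ℤ)) i j)
    (x y : Fin (m + 1) → ℤ) : ∃ k, Γ.det ^ 2 * (x ⬝ᵥ A *ᵥ y) =
      w * (Γ.adjugate *ᵥ x) 0 * (Γ.adjugate *ᵥ y) 0 + p * k := by
  obtain ⟨k, hk⟩ := form_eq _ Γ A _ h (Γ.adjugate *ᵥ x) (Γ.adjugate *ᵥ y)
  rw [sum_cons, adj_vec, adj_vec, Matrix.mulVec_smul, smul_dotProduct, dotProduct_smul,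
    smul_eq_mul, smul_eq_mul] at hk
  refine ⟨∑ i, e i * (Γ.adjugate *ᵥ x) i.succ * (Γ.adjugate *ᵥ y) i.succ + p * k, ?_⟩
  linear_combination hk

theorem lk_rk {p : ℤ} (hp : Prime p) (Γ A : Matrix (Fin (m + 1)) (Fin (m + 1)) ℤ) (w : ℤ)
    (e : Fin m → ℤ) (hΓ : ¬p ∣ Γ.det)
    (h : ∀ i j, p ^ 2 ∣
      (Γᵀ * A * Γ - diagonal (Fin.cons w fun i => p * e i : Fin (m + 1) → ℤ)) i j)
    (x y : Fin (m + 1) → ℤ) :
    p ∣ (x ⬝ᵥ A *ᵥ y) ^ 2 - (x ⬝ᵥ A *ᵥ x) * (y ⬝ᵥ A *ᵥ y) := by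
  obtain ⟨k1, h1⟩ := form_mod Γ A w e h x y
  obtain ⟨k2, h2⟩ := form_mod Γ A w e h x x
  obtain ⟨k3, h3⟩ := form_mod Γ A w e h y y
  set a := (Γ.adjugate *ᵥ x) 0
  set b := (Γ.adjugate *ᵥ y) 0
  have h4 : p ∣ Γ.det ^ 4 * ((x ⬝ᵥ A *ᵥ y) ^ 2 - (x ⬝ᵥ A *ᵥ x) * (y ⬝ᵥ A *ᵥ y)) := by
    refine ⟨2 * w * a * b * k1 + p * k1 ^ 2 - w * a * a * k3 - w * b * b * k2 - p * k2 * k3, ?_⟩
    have e1 : Γ.det ^ 4 * ((x ⬝ᵥ A *ᵥ y) ^ 2 - (x ⬝ᵥ A *ᵥ x) * (y ⬝ᵥ A *ᵥ y)) =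
        (Γ.det ^ 2 * (x ⬝ᵥ A *ᵥ y)) ^ 2 -
          (Γ.det ^ 2 * (x ⬝ᵥ A *ᵥ x)) * (Γ.det ^ 2 * (y ⬝ᵥ A *ᵥ y)) := by ring
    rw [e1, h1, h2, h3]
    ring
  exact (hp.dvd_or_dvd h4).resolve_left fun h5 => hΓ (hp.dvd_of_dvd_pow h5)

/-- extension by zero -/
def ext0 (F : Type) [CommRing F] (m : ℕ) : (Fin m → F) →ₗ[F] (Fin (m + 1) → F) where
  toFun u := Fin.cons 0 u
  map_add' u v := by
    funext i
    refine Fin.cases ?_ (fun k => ?_) i <;> simp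
  map_smul' c u := by
    funext i
    refine Fin.cases ?_ (fun k => ?_) i <;> simp

/-- the embedding of the hyperbolic space -/
def emb (p : ℕ) (Γ : Matrix (Fin (m + 1)) (Fin (m + 1)) ℤ) :
    (Fin m → ZMod p) →ₗ[ZMod p] (Fin (m + 1) → ZMod p) :=
  (Γ.map (Int.castRingHom (ZMod p))).mulVecLin ∘ₗ ext0 (ZMod p) m

theorem emb_cast (p : ℕ) (Γ : Matrix (Fin (m + 1)) (Fin (m + 1)) ℤ) (z : Fin m → ℤ)
    (i : Fin (m + 1)) :
    emb p Γ (fun k => (z k : ZMod p)) i =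
      (((Γ *ᵥ (Fin.cons 0 z : Fin (m + 1) → ℤ)) i : ℤ) : ZMod p) := by
  have h1 := RingHom.map_mulVec (Int.castRingHom (ZMod p)) Γ
    (Fin.cons 0 z : Fin (m + 1) → ℤ) i
  have h2 : (Int.castRingHom (ZMod p)) ∘ (Fin.cons 0 z : Fin (m + 1) → ℤ) =
      ext0 (ZMod p) m (fun k => (z k : ZMod p)) := by
    funext j
    refine Fin.cases ?_ (fun k => ?_) j <;> simp [ext0]
  rw [h2] at h1
  exact h1.symm

theorem lift_vec (p : ℕ) (u : Fin m → ZMod p) : ∃ z : Fin m → ℤ, (fun k => (z k : ZMod p)) = u := by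
  choose z hz using fun k => ZMod.intCast_surjective (u k)
  exact ⟨z, funext hz⟩

theorem emb_inj {p : ℕ} (hp : p.Prime) (Γ : Matrix (Fin (m + 1)) (Fin (m + 1)) ℤ)
    (hΓ : ¬(p : ℤ) ∣ Γ.det) : Function.Injective (emb p Γ) := by
  rw [injective_iff_map_eq_zero]
  intro u hu
  obtain ⟨z, rfl⟩ := lift_vec p u
  funext k
  have h1 := cancel (Nat.prime_iff_prime_int.1 hp) Γ hΓ (Fin.cons 0 z : Fin (m + 1) → ℤ)
    (fun i => by
      rw [← ZMod.intCast_zmod_eq_zero_iff_dvd, ← emb_cast, hu]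
      rfl) k.succ
  rw [Fin.cons_succ] at h1
  exact (ZMod.intCast_zmod_eq_zero_iff_dvd _ _).2 h1

theorem decomp (p : ℕ) (Γ : Matrix (Fin (m + 1)) (Fin (m + 1)) ℤ)
    (L : Submodule (ZMod p) (Fin m → ZMod p)) (x : Fin (m + 1) → ℤ)
    (hx : (fun i => (x i : ZMod p)) ∈ L.map (emb p Γ)) :
    ∃ (z : Fin m → ℤ) (y : Fin (m + 1) → ℤ), (fun k => (z k : ZMod p)) ∈ L ∧
      x = Γ *ᵥ (Fin.cons 0 z : Fin (m + 1) → ℤ) + (p : ℤ) • y := by
  obtain ⟨u, hu, hux⟩ := hx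
  obtain ⟨z, rfl⟩ := lift_vec p u
  have h1 : ∀ i, (p : ℤ) ∣ x i - (Γ *ᵥ (Fin.cons 0 z : Fin (m + 1) → ℤ)) i := by
    intro i
    rw [← ZMod.intCast_zmod_eq_zero_iff_dvd, Int.cast_sub, ← emb_cast, hux, sub_self]
  choose y hy using h1
  refine ⟨z, y, hu, funext fun i => ?_⟩
  rw [Pi.add_apply, Pi.smul_apply, smul_eq_mul, ← hy i]
  ring

theorem ker0 {p : ℤ} (hp : Prime p) (Γ A : Matrix (Fin (m + 1)) (Fin (m + 1)) ℤ) (w : ℤ)
    (e : Fin m → ℤ) (hΓ : ¬p ∣ Γ.det)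
    (h : ∀ i j, p ^ 2 ∣
      (Γᵀ * A * Γ - diagonal (Fin.cons w fun i => p * e i : Fin (m + 1) → ℤ)) i j)
    (z : Fin m → ℤ) (i : Fin (m + 1)) :
    p ∣ (A *ᵥ (Γ *ᵥ (Fin.cons 0 z : Fin (m + 1) → ℤ))) i := by
  refine cancel hp Γᵀ (by rwa [Matrix.det_transpose]) _ (fun k => ?_) i
  have h1 := (dvd_pow_self p two_ne_zero).trans
    (vec_eq _ Γ A _ h (Fin.cons 0 z : Fin (m + 1) → ℤ) k)
  refine (dvd_iff_dvd_of_dvd_sub h1).2 ?_
  refine Fin.cases ?_ (fun k => ?_) k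
  · simp
  · rw [Fin.cons_succ, mul_assoc]
    exact Dvd.intro _ rfl

theorem iso0 {p : ℤ} (hp : Prime p) (Γ A : Matrix (Fin (m + 1)) (Fin (m + 1)) ℤ) (w : ℤ)
    (e : Fin m → ℤ) (hΓ : ¬p ∣ Γ.det) (hA : A.IsSymm)
    (h : ∀ i j, p ^ 2 ∣
      (Γᵀ * A * Γ - diagonal (Fin.cons w fun i => p * e i : Fin (m + 1) → ℤ)) i j)
    (z z' : Fin m → ℤ) (y y' : Fin (m + 1) → ℤ) (hz : p ∣ ∑ i, e i * z i * z' i) :
    p ^ 2 ∣ (Γ *ᵥ (Fin.cons 0 z : Fin (m + 1) → ℤ) + p • y) ⬝ᵥ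
      A *ᵥ (Γ *ᵥ (Fin.cons 0 z' : Fin (m + 1) → ℤ) + p • y') := by
  set v := Γ *ᵥ (Fin.cons 0 z : Fin (m + 1) → ℤ) with hv
  set v' := Γ *ᵥ (Fin.cons 0 z' : Fin (m + 1) → ℤ) with hv'
  obtain ⟨k1, h1⟩ := form_eq _ Γ A _ h (Fin.cons 0 z : Fin (m + 1) → ℤ)
    (Fin.cons 0 z' : Fin (m + 1) → ℤ)
  rw [sum_cons] at h1
  simp only [Fin.cons_zero, Fin.cons_succ] at h1
  obtain ⟨k2, h2⟩ := hz
  obtain ⟨k3, h3⟩ := dvd_dot p y _ (ker0 hp Γ A w e hΓ h z')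
  obtain ⟨k4, h4⟩ := dvd_dot p y' _ (ker0 hp Γ A w e hΓ h z)
  have h5 : v ⬝ᵥ A *ᵥ y' = y' ⬝ᵥ A *ᵥ v := by
    rw [Matrix.dotProduct_mulVec, ← Matrix.mulVec_transpose, hA.eq, dotProduct_comm]
  rw [Matrix.mulVec_add, Matrix.mulVec_smul, add_dotProduct, dotProduct_add, dotProduct_add,
    smul_dotProduct, smul_dotProduct, dotProduct_smul, dotProduct_smul]
  simp only [smul_eq_mul]
  refine ⟨k1 + k2 + k3 + k4 + y ⬝ᵥ A *ᵥ y', ?_⟩
  rw [← hv, ← hv'] at h1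
  rw [← hv'] at h3
  rw [← hv] at h4
  rw [h5, h3, h4]
  linear_combination h1 + p * h2

end LgoA

open LgoA in
theorem lgo_n : LAGCStmt → LGOStmt := by
  intro hL g p A hg hp h2 hA hy
  obtain ⟨Γ, w, e, hΓ, hw, he, hsq, h⟩ := hy
  have hp' : Prime (p : ℤ) := Nat.prime_iff_prime_int.1 hp
  refine ⟨⟨lk_ker hp' Γ A w e hΓ hw he h, lk_rk hp' Γ A w e hΓ h⟩, ?_⟩
  have : Fact p.Prime := ⟨hp⟩
  have h2' : (2 : ZMod p) ≠ 0 := by
    intro h0
    have h1 : ((2 : ℕ) : ZMod p) = 0 := by exact_mod_cast h0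
    rw [ZMod.natCast_eq_zero_iff] at h1
    exact h2 ((Nat.prime_dvd_prime_iff_eq hp Nat.prime_two).1 h1)
  obtain ⟨𝓛, hc, hΛ⟩ := hL (ZMod p) h2' g (fun i => (e i : ZMod p)) hg
    (fun i h0 => he i ((ZMod.intCast_zmod_eq_zero_iff_dvd _ _).1 h0))
    (by simpa using hsq)
  rw [ZMod.card] at hc hΛ
  have hinj := emb_inj hp Γ hΓ
  refine ⟨𝓛.map ⟨fun L => L.map (LgoA.emb p Γ), Submodule.map_injective_of_injective hinj⟩, ?_, ?_⟩
  · rwa [Finset.card_map]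
  · intro Λ hm
    obtain ⟨L, hLm, rfl⟩ := Finset.mem_map.1 hm
    obtain ⟨hcard, hiso⟩ := hΛ L hLm
    refine ⟨?_, fun x hx i => ?_, fun x x' hx hx' => ?_⟩
    · rw [← hcard]
      exact (Nat.card_congr (Submodule.equivMapOfInjective _ hinj L).toEquiv).symm
    · obtain ⟨z, y, _, rfl⟩ := decomp p Γ L x hx
      rw [Matrix.mulVec_add, Matrix.mulVec_smul, Pi.add_apply, Pi.smul_apply, smul_eq_mul]
      exact dvd_add (ker0 hp' Γ A w e hΓ h z i) (Dvd.intro _ rfl)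
    · obtain ⟨z, y, hz, rfl⟩ := decomp p Γ L x hx
      obtain ⟨z', y', hz', rfl⟩ := decomp p Γ L x' hx'
      refine iso0 hp' Γ A w e hΓ hA h z z' y y' ?_
      rw [← ZMod.intCast_zmod_eq_zero_iff_dvd]
      push_cast
      exact hiso _ hz _ hz'

end Pool.Agent.MP_a43263_nt.N2

end

end PkN2Lgo

section PkN2Loca

/-! THEOREM N2: rational local generators for one class. -/

set_option autoImplicit false

noncomputable section

namespace Pool.Agent.MP_a43263_nt.N2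

open Polynomial Finset Matrix JC Pool.Agent.MP_a43263_nt.UV K2

namespace LocaA

theorem ev_cast (R : Type) [CommRing R] (r : ℤ[X]) (a : ℤ) :
    (zK r R).eval (a : R) = ((r.eval a : ℤ) : R) := by
  simp

/-- approximation with a twist -/
theorem tw (p : ℕ) [Fact p.Prime] (f w : ℤ[X]) (δ : ℚ[X]) (x : ℚ_[p][X]) (r : ℤ_[p][X])
    (hf : f.Monic) (hw : IsCoprime (zK w ℚ_[p]) (zK f ℚ_[p]))
    (h : zK f ℚ_[p] ∣ fK δ ℚ_[p] * x ^ 2 - iq p r * zK w ℚ_[p])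
    (hr : IsCoprime (rq p r) (zK f (ZMod p))) :
    ∃ (x' : ℚ[X]) (r' : ℤ[X]), zK f ℚ ∣ δ * x' ^ 2 - zK (r' * w) ℚ ∧ Nm f (r' * w) ≠ 0 ∧
      IsCoprime (zK r' (ZMod p)) (zK f (ZMod p)) ∧
      ∀ c : ℤ, (p : ℤ) ∣ f.eval c → IsSquare ((rq p r).eval (c : ZMod p)) →
        IsSquare (((r'.eval c : ℤ)) : ZMod p) := by
  have hw' := hw
  obtain ⟨u, v, huv⟩ := hw'
  have h1 : zK f ℚ_[p] ∣ fK (δ * zK w ℚ) ℚ_[p] * (x * u) ^ 2 - iq p r := by
    rw [show fK (δ * zK w ℚ) ℚ_[p] = fK δ ℚ_[p] * fK (zK w ℚ) ℚ_[p] from Polynomial.map_mul _,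
      fK_zK]
    obtain ⟨k, hk⟩ := h
    refine ⟨k * zK w ℚ_[p] * u ^ 2 - iq p r * v * (1 + u * zK w ℚ_[p]), ?_⟩
    linear_combination (zK w ℚ_[p] * u ^ 2) * hk + iq p r * (1 + u * zK w ℚ_[p]) * huv
  obtain ⟨x', r', m, m0, h2, k, hk⟩ := apx p f (δ * zK w ℚ) (x * u) r hf h1
  rw [sub_eq_iff_eq_add'] at hk
  have hc : IsCoprime (zK r' (ZMod p)) (zK f (ZMod p)) := by
    rw [hk]
    exact ((isCoprime_mul_unit_left_left (isUnit_C.2 (pow_ne_zero 2 m0).isUnit) _ _).2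
      hr).add_mul_left_left _
  refine ⟨zK w ℚ * x', r', (h2.mul_left (zK w ℚ)).trans (dvd_of_eq ?_), ?_, hc, fun c h3 h4 => ?_⟩
  · simp only [zK, Polynomial.map_mul]
    ring
  · rw [(gram.1 ℤ f hf).1]
    refine mul_ne_zero (fun e => ?_) fun e => ?_
    · have := ((gram.1 _ _ (hf.map (Int.castRingHom (ZMod p)))).2.2.2.1 _).2 hc
      rw [(gram.1 ℤ f hf).2.2.2.2.2, e, map_zero] at this
      exact not_isUnit_zero this
    · have := ((gram.1 _ _ (hf.map (Int.castRingHom ℚ_[p]))).2.2.2.1 _).2 hw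
      rw [(gram.1 ℤ f hf).2.2.2.2.2, e, map_zero] at this
      exact not_isUnit_zero this
  · have := congrArg (eval (c : ZMod p)) hk
    rw [eval_add, eval_mul, eval_mul, eval_C, ev_cast, ev_cast,
      (ZMod.intCast_zmod_eq_zero_iff_dvd _ _).2 h3, zero_mul, add_zero] at this
    rw [this]
    exact (IsSquare.sq m).mul h4

end LocaA

theorem loca_n : NGMStmt → LOCAStmt := by
  intro ngm g Q m₀ m₁ a f m δ hS hF h1 hE hG hN
  have hf := hF.zq
  have m0 : m₀ ≠ 0 := hS.sf.ne_zero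
  have key : ∀ p : ℕ, ∃ (x : ℚ[X]) (r : ℤ[X]), p.Prime →
      zK f ℚ ∣ δ * x ^ 2 - zK (r * pw p f a ^ (if p ∣ m₁ then 1 else 0)) ℚ ∧
      Nm f (r * pw p f a ^ (if p ∣ m₁ then 1 else 0)) ≠ 0 ∧
      IsCoprime (zK r (ZMod p)) (zK f (ZMod p)) ∧
      (p ∣ m₀ → IsSquare (((r.eval a : ℤ)) : ZMod p)) ∧
      (p ∈ Q → IsSquare (((r.eval 0 : ℤ)) : ZMod p)) := fun p => by
    by_cases hp : p.Prime
    swap
    · exact ⟨0, 0, fun h => absurd h hp⟩
    have := Fact.mk hp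
    by_cases c : p ∣ m₀
    · have p2 : p ≠ 2 := fun e => hS.odd (e ▸ c)
      have hR := hF.rt p hp c
      obtain ⟨x, r, a1, a2, a3⟩ := hG p c
      have ev : (if p ∣ m₁ then (1 : ZMod 2) else 0).val = if p ∣ m₁ then 1 else 0 := by
        split_ifs <;> rfl
      rw [ev, zK, zK, ← Polynomial.map_pow] at a1
      obtain ⟨x', r', b1, b2, b3, b4⟩ := LocaA.tw p f _ δ x r hf.monic (by
        rw [zK, Polynomial.map_pow]
        exact (ngm p g f a p2 hf hR).1.pow_left) a1 a2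
      exact ⟨x', r', fun _ => ⟨b1, b2, b3, fun _ => b4 a hR.1 (a3.2 rfl),
        fun e => absurd c (hS.cop p e)⟩⟩
    · rw [if_neg fun e => c (e.trans h1), pow_zero]
      obtain ⟨x, r, a1, a2, a3⟩ : ∃ (x : ℚ_[p][X]) (r : ℤ_[p][X]),
          zK f ℚ_[p] ∣ fK δ ℚ_[p] * x ^ 2 - iq p r ∧ IsCoprime (rq p r) (zK f (ZMod p)) ∧
            (p ∈ Q → IsSquare ((rq p r).eval 0)) := by
        by_cases h : p ∈ Q
        · obtain ⟨x, r, a, b, c⟩ := hN p h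
          exact ⟨x, r, by simpa using a, b, fun _ => c.2 rfl⟩
        · obtain ⟨x, r, a, b⟩ := hE p c
          exact ⟨x, r, a, b, fun e => absurd e h⟩
      obtain ⟨x', r', b1, b2, b3, b4⟩ := LocaA.tw p f 1 δ x r hf.monic (by
        rw [zK, Polynomial.map_one]
        exact isCoprime_one_left) (by simpa using a1) a2
      refine ⟨x', r', fun _ => ⟨b1, b2, b3, fun e => absurd e c, fun e => b4 0 ?_ ?_⟩⟩
      · obtain ⟨h', e', -⟩ := (hF.ty p e).2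
        rw [← ZMod.intCast_zmod_eq_zero_iff_dvd, ← LocaA.ev_cast, e']
        simp
      · simpa using a3 e
  choose x r h using key
  have h2 := h 2 Nat.prime_two
  rw [if_neg fun e => hS.odd (e.trans h1), pow_zero, mul_one] at h2
  have nm : ∀ (p : ℕ) [Fact p.Prime], ((Nm f (r 2) : ℤ) : ZMod p) ≠ 0 →
      IsCoprime (zK (r 2) (ZMod p)) (zK f (ZMod p)) := fun p _ => by
    rw [← (gram.1 _ _ (hf.mo (ZMod p))).2.2.2.1, (gram.1 _ _ hf.monic).2.2.2.2.2,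
      isUnit_iff_ne_zero, eq_intCast]
    exact id
  obtain ⟨P, hP⟩ : ∃ P, P = Q ∪ m₀.primeFactors ∪ (Nm f (r 2)).natAbs.primeFactors := ⟨_, rfl⟩
  have P0 : 0 ∉ P := by
    rw [hP, mem_union, mem_union, not_or, not_or]
    exact ⟨⟨fun e => Nat.not_prime_zero (hF.ty 0 e).1, fun e =>
      Nat.not_prime_zero (Nat.prime_of_mem_primeFactors e)⟩, fun e =>
      Nat.not_prime_zero (Nat.prime_of_mem_primeFactors e)⟩
  have nd : ∀ p : ℕ, p.Prime → p ∉ P → ¬p ∣ m₀ := fun p hp c e => c (hP ▸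
    mem_union_left _ (mem_union_right _ (Nat.mem_primeFactors.2 ⟨hp, e, m0⟩)))
  refine ⟨fun p => if p ∈ P then x p else x 2, fun p => if p ∈ P then r p else r 2, P,
    fun p hp => ?_, fun p hp => ?_⟩
  · by_cases c : p ∈ P
    · simp only [Rp, if_pos c]
      exact ⟨(h p hp).1, (h p hp).2.1, fun e => absurd c e⟩
    · simp only [Rp, if_neg c, if_neg P0, if_neg fun e => nd p hp c (Dvd.dvd.trans e h1), pow_zero,
        mul_one]
      exact ⟨h2.1, h2.2.1, fun _ => trivial⟩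
  · by_cases c : p ∈ P
    · simp only [if_pos c]
      exact (h p hp).2.2
    · have := Fact.mk hp
      simp only [if_neg c]
      refine ⟨nm p fun e => c ?_, fun e => absurd e (nd p hp c), fun e => absurd ?_ c⟩
      · rw [hP]
        exact mem_union_right _ (Nat.mem_primeFactors.2 ⟨hp, Int.natCast_dvd.1
          ((ZMod.intCast_zmod_eq_zero_iff_dvd _ _).1 e), Int.natAbs_ne_zero.2 h2.2.1⟩)
      · rw [hP]
        exact mem_union_left _ (mem_union_left _ e)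

end Pool.Agent.MP_a43263_nt.N2

end

end PkN2Loca

section PkN2Locg

/-! THEOREM N2, row LOCG: the Hasse symbol of a class ramified at a simple root. -/

set_option autoImplicit false

noncomputable section

namespace Pool.Agent.MP_a43263_nt.N2

open Polynomial Finset Filter Matrix JC Pool.Agent.MP_a43263_nt.UV K2

namespace LocgA

theorem Hs_const {A : Type} (σ : ℤ) : ∀ (n : ℕ) (t : Fin n → A),
    Hs (fun _ _ => σ) t = σ ^ n.choose 2
  | 0, t => by simp [Hs]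
  | n + 1, t => by
    have h := Hs_const σ n (Fin.tail t)
    rw [← Fin.cons_self_tail t, Locq.Hs_cons, h, prod_const, card_univ, Fintype.card_fin,
      Nat.choose_succ_succ' n 1, Nat.choose_one_right, pow_add]

theorem pow_choose {σ : ℤ} (h : σ * σ = 1) : ∀ g : ℕ, σ ^ (2 * g).choose 2 = σ ^ g
  | 0 => by simp
  | g + 1 => by
    have e : (2 * (g + 1)).choose 2 = 2 * (2 * g) + 1 + (2 * g).choose 2 := by
      rw [show 2 * (g + 1) = 2 * g + 1 + 1 by ring, Nat.choose_succ_succ' _ 1,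
        Nat.choose_succ_succ' _ 1, Nat.choose_one_right, Nat.choose_one_right]
      ring
    rw [e, pow_add, pow_choose h g, pow_succ, pow_mul, sq, h, one_pow, pow_succ]
    ring

end LocgA

open Locq in
theorem locg_n : NGMStmt → SHZStmt → LOCGStmt := by
  rintro - shz p _ g f a δ s e u hp hf ht hs he hsq ⟨x, r, h1, h2, h3⟩
  obtain ⟨w, e1, P, -, hw, w2, w1, -, w3, -⟩ := shz p g f a r hp hf ht h2
  have p0 : (p : ℚ_[p]) ≠ 0 := Nat.cast_ne_zero.2 (Fact.out : p.Prime).ne_zero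
  have w0 := coe_ne hw
  have e0 : ∀ i, (e1 i : ℚ_[p]) ≠ 0 := fun i => coe_ne (w2 i)
  have h1' : zK f ℚ_[p] ∣ δ * x ^ 2 - iq p (r * zK (pw p f a) ℤ_[p]) := by
    rw [iq, Polynomial.map_mul, zK_map]
    simpa [ZMod.val_one] using h1
  set E : Fin (2 * g + 1) → ℚ_[p] := Fin.cons (w : ℚ_[p]) fun i => p * (e1 i : ℚ_[p]) with hE
  have E0 : ∀ i, E i ≠ 0 := fun i => Fin.cases w0 (fun i => mul_ne_zero p0 (e0 i)) i
  have w4 : (P.map PadicInt.Coe.ringHom)ᵀ *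
      Gm g (zK f ℚ_[p]) (iq p (r * zK (pw p f a) ℤ_[p])) *
      P.map PadicInt.Coe.ringHom = diagonal E := by
    rw [Gm_iq hf, ← transpose_map, ← Matrix.map_mul, ← Matrix.map_mul, w3,
      diagonal_map (map_zero _)]
    congr 1
    funext i
    refine Fin.cases rfl (fun i => ?_) i
    rw [Fin.cons_succ, map_mul, map_natCast]
    rfl
  have w5 := congrArg det w4
  rw [det_mul, det_mul, det_transpose, det_diagonal] at w5
  have w6 : ∏ i, E i ≠ 0 := prod_ne_zero_iff.2 fun i _ => E0 i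
  rw [← w5] at w6
  have h5 := move UV.gram hf h1' (right_ne_zero_of_mul (left_ne_zero_of_mul w6))
    ⟨_, IsUnit.mk0 _ (right_ne_zero_of_mul w6), w4⟩
  rw [← (UV.hinv _ s hs.1).1 _ _ _ _ h5 he E0]
  obtain ⟨pu, pp⟩ := (UV.pad.1 p hp).2 s hs
  have S := hs.1
  have m0 : (-1 : ℚ_[p]) ≠ 0 := neg_ne_zero.2 one_ne_zero
  have mr : ∀ x y y' : ℚ_[p], x ≠ 0 → y ≠ 0 → y' ≠ 0 → s x (y * y') = s x y * s x y' :=
    fun x y y' a b c => by rw [S.comm, S.mul _ _ _ b c a, S.comm y, S.comm y']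
  have sq1 : ∀ x y : ℚ_[p], x ≠ 0 → y ≠ 0 → s x y * s x y = 1 := fun x y a b => by
    rcases S.pm x y a b with c | c <;> simp [c]
  have spp : s p p = s p (-1) := by
    have c : s p (-1 * p) = 1 :=
      S.con _ _ p0 (mul_ne_zero m0 p0) ⟨1, 1, 0, by simp, by ring⟩
    rw [mr _ _ _ p0 m0 p0] at c
    linear_combination s p (-1) * c - s p p * sq1 _ _ p0 m0
  have s1 : s p 1 = 1 := by simpa using (pp 1 isUnit_one).2 (by simp)
  have spr : ∀ T : Finset (Fin (2 * g)), s p (∏ i ∈ T, (e1 i : ℚ_[p])) = ∏ i ∈ T, s p (e1 i) := by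
    intro T
    induction T using Finset.induction_on with
    | empty => simpa using s1
    | insert i T hi ih =>
      rw [prod_insert hi, prod_insert hi, mr _ _ _ p0 (e0 i) (prod_ne_zero_iff.2 fun i _ => e0 i),
        ih]
  have spw : ∀ k : ℕ, s p ((-1) ^ k) = s p (-1) ^ k := by
    intro k
    induction k with
    | zero => simpa using s1
    | succ k ih => rw [pow_succ, pow_succ, mr _ _ _ p0 (pow_ne_zero _ m0) m0, ih]
  have pr0 : ∏ i, (e1 i : ℚ_[p]) ≠ 0 := prod_ne_zero_iff.2 fun i _ => e0 i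
  have t1 : ∏ i, s w (p * (e1 i : ℚ_[p])) = 1 := by
    rw [prod_congr rfl fun i _ => show s w (p * (e1 i : ℚ_[p])) = s w p by
      rw [mr _ _ _ w0 p0 (e0 i), pu _ _ hw (w2 i), mul_one], prod_const, card_univ,
      Fintype.card_fin, pow_mul, sq, sq1 _ _ w0 p0, one_pow]
  have t2 : Hs s (fun i => p * (e1 i : ℚ_[p])) =
      s p (-1) ^ g * Hs (· * ·) fun i => s p (e1 i) := by
    rw [← LocgA.pow_choose (sq1 _ _ p0 m0), ← LocgA.Hs_const _ _ e1, Hs, Hs, Hs,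
      ← prod_mul_distrib]
    refine prod_congr rfl fun i _ => ?_
    rw [← prod_mul_distrib]
    refine prod_congr rfl fun k _ => ?_
    rw [S.mul _ _ _ p0 (e0 i) (mul_ne_zero p0 (e0 k)), mr _ _ _ p0 p0 (e0 k),
      mr _ _ _ (e0 i) p0 (e0 k), spp, pu _ _ (w2 i) (w2 k), S.comm (e1 i)]
    ring
  have t3 := Hs_mul _ fun i => s p (e1 i)
  rw [← spr, pow_mul, sq, sq1 _ _ p0 pr0, one_pow] at t3
  obtain ⟨c, -, hc⟩ := h5.det
  obtain ⟨n, hn⟩ := hsq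
  rw [(UV.gram.2 _ g _ (hf.sq ℚ_[p])).1, hn, hE, Fin.prod_univ_succ] at hc
  simp only [Fin.cons_zero, Fin.cons_succ, prod_mul_distrib, prod_const, card_univ,
    Fintype.card_fin] at hc
  have t4 : (w : ℚ_[p]) * ∏ i, (e1 i : ℚ_[p]) =
      (-1) ^ g * (c * n / p ^ g * (c * n / p ^ g)) := by
    rw [pow_mul', sq] at hc
    field_simp
    linear_combination hc
  have t5 : s p w * s p (∏ i, (e1 i : ℚ_[p])) = s p (-1) ^ g := by
    have z0 : c * n / p ^ g ≠ 0 :=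
      left_ne_zero_of_mul (right_ne_zero_of_mul (t4 ▸ mul_ne_zero w0 pr0))
    rw [← mr _ _ _ p0 w0 pr0, t4, mr _ _ _ p0 (pow_ne_zero _ m0) (mul_ne_zero z0 z0),
      mr _ _ _ p0 z0 z0, sq1 _ _ p0 z0, spw, mul_one]
  have t6 : Hs s E = s p w := by
    rw [hE, Hs_cons, t1, one_mul, t2, ← t5]
    linear_combination s p w * t3
  rw [t6, pp w hw, w1, h3]

end Pool.Agent.MP_a43263_nt.N2

end

end PkN2Locg

section PkN2Lop

/-! THEOREM N2, row LOP: the condition at the ramified primes holds. -/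

set_option autoImplicit false

noncomputable section

namespace Pool.Agent.MP_a43263_nt.N2

open Polynomial Finset Filter Matrix JC Pool.Agent.MP_a43263_nt.UV K2

namespace LopA

variable {g : ℕ}

theorem ex_smul {c : ℤ} {v : Vz g} (h : ∀ i, c ∣ v i) : ∃ y : Vz g, v = c • y := by
  choose y hy using h
  exact ⟨y, funext hy⟩

theorem rd_mul (p : ℕ) (R : Mat g ℤ) (x : Vz g) : rd p (R *ᵥ x) = mK R (ZMod p) *ᵥ rd p x := by
  ext i; simp [rd, mulVec, dotProduct]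

theorem rd_surj (p : ℕ) (v : Fin (2 * g + 1) → ZMod p) : ∃ x : Vz g, rd p x = v := by
  choose x hx using fun i => ZMod.intCast_surjective (v i)
  exact ⟨x, funext hx⟩

theorem tdot (R : Mat g ℤ) (x v : Vz g) : x ⬝ᵥ Rᵀ *ᵥ v = (R *ᵥ x) ⬝ᵥ v := by
  rw [dotProduct_mulVec, vecMul_transpose]

theorem cancel {c : ℤ} (hc : c ≠ 0) {X Y : Mat g ℤ} (h : c • X = c • Y) : X = Y :=
  smul_right_injective _ hc h

/-- one overlattice -/
theorem one (hF : OVFStmt) {m₁ p : ℕ} {k : ℤ} {A R B : Mat g ℤ} {Λ : ∀ p : ℕ, Sub g p}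
    (hs : Squarefree m₁) (hA : A.IsSymm) (hO : Ov m₁ A Λ R B) (hp : p.Prime) (hd : p ∣ m₁)
    (hk : (m₁ : ℤ) = p * k) (hc : IsCoprime (p : ℤ) k) (hL : Lk p A) :
    ∃ (Z : Mat g ℤ) (M : Sub g p), A * R = (m₁ : ℤ) • Z ∧ Is1 p B M ∧
      (∀ x, Pp p B M x → ∃ y, R *ᵥ x = (p : ℤ) • y) ∧
      ∀ x, rd p x ∈ M → ∃ y, Z *ᵥ x = (p : ℤ) • y := by
  have : Fact p.Prime := ⟨hp⟩
  obtain ⟨-, -, ⟨R₁, h1⟩, h2, h3⟩ := hF g m₁ A R B Λ hs hA hO
  have m0 : (m₁ : ℤ) ≠ 0 := by exact_mod_cast hs.ne_zero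
  have p0 : (p : ℤ) ≠ 0 := by exact_mod_cast hp.ne_zero
  choose z hz using h2
  obtain ⟨Z, hZ⟩ : ∃ Z : Mat g ℤ, A * R = (m₁ : ℤ) • Z := ⟨Matrix.of z, by ext i j; exact hz i j⟩
  have e1 : Rᵀ * Z = (m₁ : ℤ) • B := cancel m0 (by
    rw [← Matrix.mul_smul, ← hZ, ← Matrix.mul_assoc, hO.eq, smul_smul, sq])
  have e2 : R₁ᵀ * Rᵀ = (m₁ : ℤ) • 1 := by
    rw [← transpose_mul, h1, transpose_smul, transpose_one]
  have e3 : Z = R₁ᵀ * B := cancel m0 (by
    rw [← Matrix.mul_smul, ← e1, ← Matrix.mul_assoc, e2, Matrix.smul_mul, Matrix.one_mul])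
  have e4 : B * B⁻¹ = 1 := mul_nonsing_inv B hO.un
  have key : ∀ x, rd p x ∈ LinearMap.range (mK (B⁻¹ * Rᵀ) (ZMod p)).mulVecLin →
      ∃ y, Z *ᵥ x = (p : ℤ) • y := by
    rintro x ⟨v, hv⟩
    obtain ⟨u, rfl⟩ := rd_surj p v
    refine ex_smul fun i => (ZMod.intCast_zmod_eq_zero_iff_dvd _ _).1 ?_
    have e : rd p (Z *ᵥ x) = rd p ((m₁ : ℤ) • u) := by
      rw [rd_mul, ← hv, mulVecLin_apply, ← rd_mul, ← rd_mul, mulVec_mulVec, e3, Matrix.mul_assoc,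
        ← Matrix.mul_assoc B, e4, Matrix.one_mul, e2, smul_mulVec, one_mulVec]
    have := congrFun e i
    simp only [rd, hk, Pi.smul_apply, smul_eq_mul] at this
    rw [this]; simp
  refine ⟨Z, LinearMap.range (mK (B⁻¹ * Rᵀ) (ZMod p)).mulVecLin, hZ, ⟨?_, fun x y hx hy => ?_⟩,
    fun x hx => ex_smul fun i => ?_, key⟩
  · have r1 : LinearMap.range (mK R (ZMod p)).mulVecLin = Λ p := by
      ext x
      rw [h3 p hp hd x]
      refine ⟨?_, ?_⟩
      · rintro ⟨v, rfl⟩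
        obtain ⟨u, rfl⟩ := rd_surj p v
        exact ⟨u, rd_mul p R u⟩
      · rintro ⟨u, rfl⟩
        exact ⟨_, (rd_mul p R u).symm⟩
    have u1 : IsUnit (mK B⁻¹ (ZMod p)).det := by
      have := (isUnit_nonsing_inv_det B hO.un).map (Int.castRingHom (ZMod p))
      rwa [RingHom.map_det] at this
    have r2 : (mK (B⁻¹ * Rᵀ) (ZMod p)).rank = (mK R (ZMod p)).rank := by
      rw [mK, Matrix.map_mul, rank_mul_eq_right_of_isUnit_det _ _ u1, transpose_map,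
        rank_transpose]
    rw [← (hO.lg p hp hd).card, ← r1]
    exact Nat.card_congr (LinearEquiv.ofFinrankEq _ _ r2).toEquiv
  · obtain ⟨x', hx'⟩ := key x hx
    obtain ⟨y', hy'⟩ := key y hy
    obtain ⟨u, hu⟩ := ex_smul (hL.ker (R *ᵥ x) fun i => by
      rw [mulVec_mulVec, hZ, smul_mulVec, hx', hk]
      exact ⟨k * x' i, by simp only [Pi.smul_apply, smul_eq_mul]; ring⟩)
    have e : (m₁ : ℤ) * (x ⬝ᵥ B *ᵥ y) = p * (p * (u ⬝ᵥ y')) := by
      rw [← smul_eq_mul, ← dotProduct_smul, ← smul_mulVec, ← e1, ← mulVec_mulVec, tdot, hu, hy',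
        smul_dotProduct, dotProduct_smul, smul_eq_mul, smul_eq_mul]
    rw [hk, mul_assoc] at e
    exact hc.dvd_of_dvd_mul_left ⟨_, mul_left_cancel₀ p0 e⟩
  · have := hx ((B⁻¹ * Rᵀ) *ᵥ Pi.single i 1) ⟨_, (rd_mul p _ _).symm⟩
    rwa [mulVec_mulVec, ← Matrix.mul_assoc, e4, Matrix.one_mul, tdot, dotProduct_single,
      mul_one] at this

theorem quad {m₁ p k : ℤ} {A R B : Mat g ℤ} (p0 : p ≠ 0) (hk : m₁ = p * k)
    (h : Rᵀ * A * R = (m₁ ^ 2) • B) {x y : Vz g} (e : R *ᵥ x = p • y) :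
    k ^ 2 * (x ⬝ᵥ B *ᵥ x) = y ⬝ᵥ A *ᵥ y := by
  have e1 : m₁ ^ 2 * (x ⬝ᵥ B *ᵥ x) = p * (p * (y ⬝ᵥ A *ᵥ y)) := by
    rw [← smul_eq_mul, ← dotProduct_smul, ← smul_mulVec, ← h, ← mulVec_mulVec, ← mulVec_mulVec,
      tdot, e, mulVec_smul, smul_dotProduct, dotProduct_smul, smul_eq_mul, smul_eq_mul]
  refine mul_left_cancel₀ p0 (mul_left_cancel₀ p0 ?_)
  rw [← e1, hk]; ring

end LopA

open LopA in
theorem lop_n : OVFStmt → LOPStmt := by
  intro hF g Q m₀ m₁ a f m A A' M T R R' B B' N Λ Λ' p hS hf hm hP hO hO' hT hp hd hL hL'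
  have hs : Squarefree m₁ := hS.sf.squarefree_of_dvd hm
  have m0 : (m₁ : ℤ) ≠ 0 := by exact_mod_cast hs.ne_zero
  have p0 : (p : ℤ) ≠ 0 := by exact_mod_cast hp.ne_zero
  have pp : Prime (p : ℤ) := Nat.prime_iff_prime_int.1 hp
  obtain ⟨k, hk0⟩ : ∃ k : ℤ, k = ((m₁ / p : ℕ) : ℤ) := ⟨_, rfl⟩
  have hk : (m₁ : ℤ) = p * k := by rw [hk0]; exact_mod_cast (Nat.mul_div_cancel' hd).symm
  have hc : IsCoprime (p : ℤ) k := pp.irreducible.coprime_iff_not_dvd.2 fun ⟨j, hj⟩ =>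
    hp.not_isUnit (hs p (by
      have : ((p * p : ℕ) : ℤ) ∣ m₁ := ⟨j, by rw [hk, hj]; push_cast; ring⟩
      exact_mod_cast this))
  rw [← hk0]
  obtain ⟨Z, M₀, hZ, i1, a1, b1⟩ := one hF hs hP.sa hO hp hd hk hc hL
  obtain ⟨Z', M₀', hZ', i2, a2, b2⟩ := one hF hs hP.sa' hO' hp hd hk hc hL'
  obtain ⟨ε, hε, hN⟩ := hT.eq
  have hM : IsCoprime (p : ℤ) M.det := pp.irreducible.coprime_iff_not_dvd.2 fun hdv => by
    have e := congrArg Matrix.det hP.rel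
    have e1 : (1 - T).det = m ^ 2 := by
      rw [← hf.ev, ← hP.ch, eval_charpoly, map_one]
    rw [det_mul, det_mul, det_mul, det_transpose, e1] at e
    have e2 := congrArg Int.natAbs e
    rw [Int.natAbs_mul, Int.natAbs_mul, Int.natAbs_mul, hP.dA, hP.dA', Int.natAbs_pow,
      mul_right_comm, mul_comm] at e2
    have e3 := mul_left_cancel₀ (pow_ne_zero _ hs.ne_zero) e2
    have h1 : p ∣ m.natAbs := hp.dvd_of_dvd_pow
      (e3 ▸ (Int.natCast_dvd.1 hdv).mul_right _)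
    exact pp.not_isUnit (hf.cm.isUnit_of_dvd' (Int.natCast_dvd.2 h1)
      (by exact_mod_cast hd.trans hm))
  have n1 : N = ε • (Z'ᵀ * M * R) := cancel m0 (by
    have : R'ᵀ * A' = (m₁ : ℤ) • Z'ᵀ := by
      rw [← transpose_smul, ← hZ', transpose_mul, hP.sa'.eq]
    rw [hN, this, Matrix.smul_mul, Matrix.smul_mul, smul_comm])
  have t1 : A * (1 - T) = (1 - T)ᵀ * A := by
    have := hP.st.eq
    rw [transpose_mul, hP.sa.eq] at this
    rw [Matrix.mul_sub, transpose_sub, Matrix.sub_mul, this, transpose_one, Matrix.mul_one,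
      Matrix.one_mul]
  have n2 : M.det • N = ε • (R'ᵀ * (adjugate Mᵀ * (1 - T)ᵀ) * Z) := cancel m0 (by
    have e : M.det • (A' * M) = adjugate Mᵀ * (1 - T)ᵀ * A := by
      rw [Matrix.mul_assoc, ← t1, ← hP.rel, Matrix.mul_assoc Mᵀ, ← Matrix.mul_assoc (adjugate _),
        adjugate_mul, det_transpose, Matrix.smul_mul, Matrix.one_mul]
    rw [smul_comm, hN, smul_comm, smul_comm (m₁ : ℤ), ← Matrix.mul_smul _ (m₁ : ℤ), ← hZ,
      Matrix.mul_assoc R'ᵀ A', ← Matrix.smul_mul, ← Matrix.mul_smul R'ᵀ, e]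
    simp only [Matrix.mul_assoc])
  have v1 : ∀ x x' : Vz g, x' ⬝ᵥ N *ᵥ x = ε * ((Z' *ᵥ x') ⬝ᵥ M *ᵥ R *ᵥ x) := fun x x' => by
    rw [n1, smul_mulVec, dotProduct_smul, ← mulVec_mulVec, ← mulVec_mulVec, tdot, smul_eq_mul]
  have v2 : ∀ x x' : Vz g, M.det * (x' ⬝ᵥ N *ᵥ x) =
      ε * ((R' *ᵥ x') ⬝ᵥ (adjugate Mᵀ * (1 - T)ᵀ) *ᵥ Z *ᵥ x) := fun x x' => by
    rw [← smul_eq_mul, ← dotProduct_smul, ← smul_mulVec, n2, smul_mulVec, dotProduct_smul,
      ← mulVec_mulVec, ← mulVec_mulVec, tdot, smul_eq_mul]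
  refine ⟨M₀, M₀', i1, i2, fun x x' => ⟨fun h => ?_, fun h => ?_, fun h h' => ?_, fun h h' => ?_,
    fun h h' => ?_⟩⟩
  · obtain ⟨y, hy⟩ := a1 x h
    rw [v1, hy, mulVec_smul, dotProduct_smul, smul_eq_mul]
    exact (dvd_mul_right _ _).mul_left _
  · obtain ⟨y, hy⟩ := a2 x' h
    refine hM.dvd_of_dvd_mul_left ?_
    rw [v2, hy, smul_dotProduct, smul_eq_mul]
    exact (dvd_mul_right _ _).mul_left _
  · obtain ⟨y, hy⟩ := b1 x h
    obtain ⟨y', hy'⟩ := a2 x' h'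
    refine (hM.pow_left (m := 2)).dvd_of_dvd_mul_left ?_
    rw [v2, hy, hy', mulVec_smul, smul_dotProduct, dotProduct_smul, smul_smul, smul_eq_mul, sq]
    exact (dvd_mul_right _ _).mul_left _
  · obtain ⟨y, hy⟩ := a1 x h
    obtain ⟨y', hy'⟩ := b2 x' h'
    rw [v1, hy, hy', mulVec_smul, smul_dotProduct, dotProduct_smul, smul_smul, smul_eq_mul, sq]
    exact (dvd_mul_right _ _).mul_left _
  · obtain ⟨y, hy⟩ := a1 x h
    obtain ⟨y', hy'⟩ := a2 x' h'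
    have q1 := quad p0 hk hO.eq hy
    have q2 := quad p0 hk hO'.eq hy'
    have q3 : k * (x' ⬝ᵥ N *ᵥ x) = ε * (p * (y' ⬝ᵥ A' *ᵥ M *ᵥ y)) := by
      refine mul_left_cancel₀ p0 ?_
      rw [← mul_assoc, ← hk, ← smul_eq_mul, ← dotProduct_smul, ← smul_mulVec, hN, smul_mulVec,
        dotProduct_smul, ← mulVec_mulVec, ← mulVec_mulVec, ← mulVec_mulVec, tdot, hy, hy',
        mulVec_smul, mulVec_smul, smul_dotProduct, dotProduct_smul]
      simp only [smul_eq_mul]; ring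
    obtain ⟨c1, q4⟩ := hL'.rk y' (M *ᵥ y)
    obtain ⟨c2, q5⟩ : (p : ℤ) ∣ y ⬝ᵥ (A * T - a • A) *ᵥ y :=
      Finset.dvd_sum fun i _ => Dvd.dvd.mul_left (b := ∑ j, (A * T - a • A) i j * y j)
        (Finset.dvd_sum fun j _ => ((hP.hy p hp hd).2.2 i j).mul_right _) _
    have q6 : (M *ᵥ y) ⬝ᵥ A' *ᵥ M *ᵥ y = y ⬝ᵥ A *ᵥ y - y ⬝ᵥ (A * T) *ᵥ y := by
      rw [← tdot, mulVec_mulVec, mulVec_mulVec, hP.rel, Matrix.mul_sub, Matrix.mul_one, sub_mulVec,
        dotProduct_sub]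
    rw [sub_mulVec, dotProduct_sub, smul_mulVec, dotProduct_smul, smul_eq_mul] at q5
    rw [q6] at q4
    refine (hc.pow (m := 3) (n := 2)).dvd_of_dvd_mul_left ⟨c1 - (y' ⬝ᵥ A' *ᵥ y') * c2, ?_⟩
    have q7 : (k * (x' ⬝ᵥ N *ᵥ x)) ^ 2 = p ^ 2 * (y' ⬝ᵥ A' *ᵥ M *ᵥ y) ^ 2 := by
      rw [q3, mul_pow, sq ε, hε]; ring
    rw [← q2] at q4 ⊢
    rw [← q1] at q4 q5
    linear_combination q7 + (p : ℤ) ^ 2 * q4 - (p : ℤ) ^ 2 * (k ^ 2 * (x' ⬝ᵥ B' *ᵥ x')) * q5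

end Pool.Agent.MP_a43263_nt.N2

end

end PkN2Lop
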