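import Mathlib
import Pool.Agent.MP_a43263_nt.K2.SpecC
import Pool.Agent.MP_a43263_nt.N2.SpecC

/-! Packed rows. -/

section PkK2Apl

/-! Primes in almost all short progressions, from characters in almost all short intervals. -/

set_option autoImplicit false

noncomputable section

namespace Pool.Agent.MP_a43263_nt.K2

open Finset Filter

namespace AplA

open ArithmeticFunction

/-- the error term of a character -/
def er (q h : ℕ) (χ : DirichletCharacter ℂ q) (y : ℕ) : ℂ :=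
  ∑ n ∈ Ico y (y + h), ((vonMangoldt n : ℂ) * χ n - (ind (χ = 1) : ℝ))

/-- the weight of the proper prime powers -/
def pp (n : ℕ) : ℝ := if ¬n.Prime then vonMangoldt n else 0

theorem pp_nonneg (n : ℕ) : 0 ≤ pp n := by
  unfold pp
  split_ifs
  · exact le_rfl
  · exact vonMangoldt_nonneg

theorem lam_eq (n : ℕ) : lam n = vonMangoldt n - pp n := by
  unfold lam pp
  by_cases h : n.Prime
  · simp [h, vonMangoldt_apply_prime h]
  · simp [h]

/-- a progression inside an interval -/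
theorem sum_prog (f : ℕ → ℂ) {q : ℕ} (hq : 1 ≤ q) (y K : ℕ) :
    ∑ n ∈ Ico y (y + K * q), (if (y : ZMod q) = (n : ZMod q) then f n else 0) =
      ∑ i ∈ range K, f (y + i * q) := by
  rw [← sum_filter]
  symm
  refine sum_bij (fun i _ => y + i * q) ?_ ?_ ?_ fun _ _ => rfl
  · intro i hi
    have h1 : i * q < K * q := Nat.mul_lt_mul_of_pos_right (mem_range.1 hi) hq
    refine mem_filter.2 ⟨mem_Ico.2 ⟨by omega, by omega⟩, ?_⟩
    simp
  · intro i _ j _ h
    exact Nat.eq_of_mul_eq_mul_right hq (Nat.add_left_cancel h)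
  · intro n hn
    obtain ⟨h1, h2⟩ := mem_filter.1 hn
    obtain ⟨h3, h4⟩ := mem_Ico.1 h1
    obtain ⟨i, hi⟩ := (Nat.modEq_iff_dvd' h3).1 ((ZMod.natCast_eq_natCast_iff _ _ _).1 h2)
    have h5 : i * q < K * q := by
      rw [mul_comm i q, ← hi]
      omega
    refine ⟨i, mem_range.2 (Nat.lt_of_mul_lt_mul_right h5), ?_⟩
    rw [mul_comm i q, ← hi]
    omega

/-- orthogonality -/
theorem orth {q : ℕ} [NeZero q] {y : ℕ} (hy : y.Coprime q) (K : ℕ) :
    ∑ χ : DirichletCharacter ℂ q, χ (y : ZMod q)⁻¹ * er q (K * q) χ y =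
      (q.totient : ℂ) * ∑ i ∈ range K, (vonMangoldt (y + i * q) : ℂ) - (K * q : ℕ) := by
  have hq : 1 ≤ q := Nat.pos_of_ne_zero (NeZero.ne q)
  have hu : IsUnit (y : ZMod q) := (ZMod.isUnit_iff_coprime y q).2 hy
  have hu' : IsUnit (y : ZMod q)⁻¹ :=
    IsUnit.of_mul_eq_one (y : ZMod q) (ZMod.inv_mul_of_unit _ hu)
  have h1 : ∑ χ : DirichletCharacter ℂ q, χ (y : ZMod q)⁻¹ *
      ∑ n ∈ Ico y (y + K * q), (vonMangoldt n : ℂ) * χ n =
      (q.totient : ℂ) * ∑ i ∈ range K, (vonMangoldt (y + i * q) : ℂ) := by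
    rw [← sum_prog (fun n => (vonMangoldt n : ℂ)) hq y K, mul_sum]
    simp only [mul_sum]
    rw [sum_comm]
    refine sum_congr rfl fun n _ => ?_
    have h := DirichletCharacter.sum_char_inv_mul_char_eq ℂ hu (n : ZMod q)
    calc ∑ χ : DirichletCharacter ℂ q, χ (y : ZMod q)⁻¹ * ((vonMangoldt n : ℂ) * χ n)
        = (vonMangoldt n : ℂ) * ∑ χ : DirichletCharacter ℂ q, χ (y : ZMod q)⁻¹ * χ n := by
          rw [mul_sum]
          exact sum_congr rfl fun _ _ => by ring
      _ = _ := by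
          rw [h]
          split_ifs <;> ring
  have h2 : ∑ χ : DirichletCharacter ℂ q, χ (y : ZMod q)⁻¹ *
      (((K * q : ℕ) : ℂ) * ((ind (χ = 1) : ℝ) : ℂ)) = (K * q : ℕ) := by
    rw [sum_eq_single (1 : DirichletCharacter ℂ q)]
    · rw [MulChar.one_apply hu', ind_pos rfl]
      simp
    · intro χ _ h
      rw [ind_neg h]
      simp
    · intro h
      exact absurd (mem_univ _) h
  rw [← h1, ← h2, ← sum_sub_distrib]
  refine sum_congr rfl fun χ _ => ?_
  rw [er, sum_sub_distrib, sum_const, Nat.card_Ico, Nat.add_sub_cancel_left, nsmul_eq_mul, mul_sub]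

/-- one coprime starting point -/
theorem point {q : ℕ} [NeZero q] {y : ℕ} (hy : y.Coprime q) (K : ℕ) :
    |∑ i ∈ range K, vonMangoldt (y + i * q) - K * ph q| ≤
      (∑ χ : DirichletCharacter ℂ q, ‖er q (K * q) χ y‖) / q.totient := by
  have hq : 0 < q := Nat.pos_of_ne_zero (NeZero.ne q)
  have ht : (0 : ℝ) < q.totient := by exact_mod_cast Nat.totient_pos.2 hq
  rw [le_div_iff₀ ht]
  have h1 : |∑ i ∈ range K, vonMangoldt (y + i * q) - K * ph q| * q.totient =
      ‖((q.totient * ∑ i ∈ range K, vonMangoldt (y + i * q) - (K * q : ℕ) : ℝ) : ℂ)‖ := by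
    rw [Complex.norm_real, Real.norm_eq_abs]
    nth_rewrite 1 [← abs_of_pos ht]
    rw [← abs_mul]
    congr 1
    unfold ph
    push_cast
    field_simp
  rw [h1]
  have h2 : ((q.totient * ∑ i ∈ range K, vonMangoldt (y + i * q) - (K * q : ℕ) : ℝ) : ℂ) =
      ∑ χ : DirichletCharacter ℂ q, χ (y : ZMod q)⁻¹ * er q (K * q) χ y := by
    rw [orth hy K]
    push_cast
    rfl
  rw [h2]
  refine (norm_sum_le _ _).trans (sum_le_sum fun χ _ => ?_)
  rw [norm_mul]
  exact mul_le_of_le_one_left (norm_nonneg _) (DirichletCharacter.norm_le_one χ _)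

/-- one starting point -/
theorem point' {q : ℕ} [NeZero q] {y K : ℕ} (h : K * q < y) :
    |∑ i ∈ range K, lam (y + i * q) - K * (ph q * ind (y.Coprime q))| ≤
      (∑ χ : DirichletCharacter ℂ q, ‖er q (K * q) χ y‖) / q.totient +
        ∑ i ∈ range K, pp (y + i * q) := by
  have h0 : 0 ≤ ∑ i ∈ range K, pp (y + i * q) := sum_nonneg fun _ _ => pp_nonneg _
  by_cases hy : y.Coprime q
  · have h1 := point hy K
    simp only [lam_eq]
    rw [ind_pos hy, mul_one, sum_sub_distrib, abs_le]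
    rw [abs_le] at h1
    constructor <;> linarith [h1.1, h1.2]
  · have h1 : ∑ i ∈ range K, lam (y + i * q) = 0 := by
      refine sum_eq_zero fun i hi => if_neg fun hp => hy ?_
      have hq : 0 < q := Nat.pos_of_ne_zero (NeZero.ne q)
      have h2 : q ≤ K * q := Nat.le_mul_of_pos_left q (by have := mem_range.1 hi; omega)
      have h3 : (y + i * q).Coprime q :=
        (Nat.Prime.coprime_iff_not_dvd hp).2 fun hd => by
          have := Nat.le_of_dvd hq hd
          omega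
      exact (Nat.coprime_add_mul_right_left y q i).1 h3
    rw [h1, ind_neg hy]
    simp only [mul_zero, sub_zero, abs_zero]
    positivity

/-- the proper prime powers -/
theorem pp_sum {X m : ℕ} (hX : 1 ≤ X) (hm : m ≤ X) :
    ∑ y ∈ Ioc X (2 * X), pp (y + m) ≤ 2 * √(3 * X : ℝ) * Real.log (3 * X) := by
  have h1 : (1 : ℝ) ≤ 3 * X := by
    have : (1 : ℝ) ≤ X := by exact_mod_cast hX
    linarith
  refine le_trans ?_ (Chebyshev.psi_sub_theta_le h1)
  have h2 : ⌊(3 * X : ℝ)⌋₊ = 3 * X := by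
    rw [← Nat.floor_natCast (R := ℝ) (3 * X)]
    push_cast
    rfl
  rw [Chebyshev.psi_sub_theta_eq_sum_not_prime, h2, sum_filter]
  calc ∑ y ∈ Ioc X (2 * X), pp (y + m) = ∑ n ∈ (Ioc X (2 * X)).image (· + m), pp n := by
        rw [sum_image fun _ _ _ _ h => Nat.add_right_cancel h]
    _ ≤ ∑ n ∈ Ioc 0 (3 * X), pp n := by
        refine sum_le_sum_of_subset_of_nonneg (fun n hn => ?_) fun _ _ _ => pp_nonneg _
        obtain ⟨y, hy, rfl⟩ := mem_image.1 hn
        have := mem_Ioc.1 hy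
        exact mem_Ioc.2 ⟨by omega, by omega⟩
    _ = _ := rfl

/-- from the mean square to the mean -/
theorem cs {X : ℕ} {f : ℕ → ℝ} {a : ℝ} (ha : 0 ≤ a)
    (h : ∑ y ∈ Ioc X (2 * X), f y ^ 2 ≤ a ^ 2 * X) : ∑ y ∈ Ioc X (2 * X), f y ≤ a * X := by
  have h1 := sq_sum_le_card_mul_sum_sq (s := Ioc X (2 * X)) (f := f)
  rw [Nat.card_Ioc, show 2 * X - X = X by omega] at h1
  refine le_trans (le_abs_self _) (abs_le_of_sq_le_sq ?_ (by positivity))
  calc _ ≤ _ := h1
    _ ≤ (X : ℝ) * (a ^ 2 * X) := mul_le_mul_of_nonneg_left h (Nat.cast_nonneg X)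
    _ = _ := by ring

end AplA

open AplA in
theorem apl_k : SIVStmt → APLStmt := by
  intro siv A B
  filter_upwards [siv (2 * (A + B + 1)) B, ev_le_log 2, ev_log_le 192 (2 * (A + 1)),
    eventually_ge_atTop 1] with X hS hL hX hX1 q K hq hqB hK hKq
  have : NeZero q := ⟨by omega⟩
  set L := Real.log X with hLdef
  have hL0 : 0 < L := by linarith
  have hX0 : (0 : ℝ) < X := by exact_mod_cast hX1
  have ht : (0 : ℝ) < q.totient := by exact_mod_cast Nat.totient_pos.2 hq
  have hK0 : (0 : ℝ) ≤ K := Nat.cast_nonneg K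
  have hh : (X : ℝ) ^ (1 / 4 : ℝ) ≤ (K * q : ℕ) :=
    hK.trans (by exact_mod_cast Nat.le_mul_of_pos_right K hq)
  have h1 : ∀ χ : DirichletCharacter ℂ q, ∑ y ∈ Ioc X (2 * X), ‖er q (K * q) χ y‖ ≤
      ((K * q : ℕ) : ℝ) / L ^ (A + B + 1) * X := fun χ => by
    refine cs (by positivity) ((hS q (K * q) χ hq hqB hh hKq).trans_eq ?_)
    rw [div_pow, ← pow_mul, mul_comm (A + B + 1) 2]
    ring
  have h2 : ∑ y ∈ Ioc X (2 * X), (∑ χ : DirichletCharacter ℂ q, ‖er q (K * q) χ y‖) / q.totient ≤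
      (K : ℝ) * X / L ^ A / 2 := by
    rw [← sum_div, sum_comm, div_le_iff₀ ht]
    refine (sum_le_sum fun χ _ => h1 χ).trans ?_
    rw [sum_const, card_univ, ← Nat.card_eq_fintype_card,
      DirichletCharacter.card_eq_totient_of_hasEnoughRootsOfUnity ℂ q, nsmul_eq_mul, mul_comm]
    refine mul_le_mul_of_nonneg_right ?_ ht.le
    push_cast
    rw [div_mul_eq_mul_div, div_div, div_le_div_iff₀ (by positivity) (by positivity)]
    calc (K : ℝ) * q * X * (L ^ A * 2) = (K * X * L ^ A) * (q * 2) := by ring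
      _ ≤ (K * X * L ^ A) * (L ^ B * L) :=
        mul_le_mul_of_nonneg_left (mul_le_mul hqB hL zero_le_two (by positivity)) (by positivity)
      _ = _ := by ring
  have h3 : 2 * √(3 * X : ℝ) * Real.log (3 * X) ≤ X / L ^ A / 2 := by
    have e1 : Real.log (3 * X) ≤ 2 * L := by
      rw [Real.log_mul (by norm_num) hX0.ne']
      have := Real.log_le_sub_one_of_pos (show (0 : ℝ) < 3 by norm_num)
      linarith
    have e2 : 8 * √(3 * X : ℝ) * L ^ (A + 1) ≤ X := by
      refine le_trans (le_abs_self _) (abs_le_of_sq_le_sq ?_ hX0.le)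
      rw [mul_pow, mul_pow, Real.sq_sqrt (by positivity), ← pow_mul, mul_comm (A + 1) 2]
      calc (8 : ℝ) ^ 2 * (3 * X) * L ^ (2 * (A + 1)) = X * (192 * L ^ (2 * (A + 1))) := by ring
        _ ≤ X * X := mul_le_mul_of_nonneg_left hX hX0.le
        _ = _ := by ring
    rw [div_div, le_div_iff₀ (by positivity)]
    calc 2 * √(3 * X : ℝ) * Real.log (3 * X) * (L ^ A * 2)
        ≤ 2 * √(3 * X : ℝ) * (2 * L) * (L ^ A * 2) := by gcongr
      _ = 8 * √(3 * X : ℝ) * L ^ (A + 1) := by ring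
      _ ≤ X := e2
  have h4 : ∑ y ∈ Ioc X (2 * X), ∑ i ∈ range K, pp (y + i * q) ≤ (K : ℝ) * X / L ^ A / 2 := by
    rw [sum_comm]
    calc ∑ i ∈ range K, ∑ y ∈ Ioc X (2 * X), pp (y + i * q)
        ≤ ∑ _i ∈ range K, (X : ℝ) / L ^ A / 2 := by
          refine sum_le_sum fun i hi => (pp_sum hX1 ?_).trans h3
          exact (Nat.mul_le_mul_right q (mem_range.1 hi).le).trans hKq
      _ = _ := by
          rw [sum_const, card_range, nsmul_eq_mul]
          ring
  calc _ ≤ ∑ y ∈ Ioc X (2 * X), ((∑ χ : DirichletCharacter ℂ q, ‖er q (K * q) χ y‖) / q.totient +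
        ∑ i ∈ range K, pp (y + i * q)) :=
        sum_le_sum fun y hy => point' (hKq.trans_lt (mem_Ioc.1 hy).1)
    _ ≤ _ := by
        rw [sum_add_distrib]
        linarith

end Pool.Agent.MP_a43263_nt.K2

end

end PkK2Apl

section PkK2Gal

/-! Sums over short intervals and a short arc. -/

set_option autoImplicit false

noncomputable section

namespace Pool.Agent.MP_a43263_nt.K2

open Finset Filter

namespace GalA

open Complex intervalIntegral
open scoped ComplexConjugate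

/-- the additive character -/
def E (k : ℤ) (t : ℝ) : ℂ := exp (2 * Real.pi * (k * t : ℝ) * I)

@[fun_prop]
theorem E_cont (k : ℤ) : Continuous (E k) := by unfold E; fun_prop

theorem E_add (k l : ℤ) (t : ℝ) : E (k + l) t = E k t * E l t := by
  rw [E, E, E, ← exp_add]; push_cast; ring_nf

theorem E_conj (k : ℤ) (t : ℝ) : conj (E k t) = E (-k) t := by
  rw [E, E, ← exp_conj]; simp [map_ofNat]

theorem E_norm (k : ℤ) (t : ℝ) : ‖E k t‖ = 1 := by
  rw [E, ← norm_exp_ofReal_mul_I (2 * Real.pi * (k * t))]; push_cast; rfl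

theorem orth (k : ℤ) : ∫ t in (-(1 / 2) : ℝ)..(1 / 2), E k t = if k = 0 then 1 else 0 := by
  split_ifs with h
  · simp [E, h]
    norm_num
  · have h1 : (2 * Real.pi * k * I : ℂ) ≠ 0 := by simp [h]
    have h2 : ∀ t : ℝ, E k t = exp (2 * Real.pi * k * I * t) := fun t => by
      rw [E]; push_cast; ring_nf
    simp only [h2]
    rw [integral_exp_mul_complex h1, div_eq_zero_iff, sub_eq_zero]
    refine Or.inl (exp_eq_exp_iff_exists_int.2 ⟨k, ?_⟩)
    push_cast; ring

theorem pars {ι : Type} (T : Finset ι) (f : ι → ℤ) (hf : Set.InjOn f T) (a : ι → ℂ) :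
    ∫ t in (-(1 / 2) : ℝ)..(1 / 2), ‖∑ i ∈ T, a i * E (f i) t‖ ^ 2 = ∑ i ∈ T, ‖a i‖ ^ 2 := by
  classical
  refine ofReal_injective ?_
  rw [← integral_ofReal]
  have h1 : ∀ t : ℝ, ((‖∑ i ∈ T, a i * E (f i) t‖ ^ 2 : ℝ) : ℂ) =
      ∑ i ∈ T, ∑ j ∈ T, a i * conj (a j) * E (f i - f j) t := fun t => by
    rw [ofReal_pow, ← mul_conj', map_sum, sum_mul_sum]
    refine sum_congr rfl fun i _ => sum_congr rfl fun j _ => ?_
    rw [map_mul, E_conj, sub_eq_add_neg, E_add]; ring
  simp only [h1]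
  rw [integral_finsetSum fun i _ => (by fun_prop : Continuous _).intervalIntegrable _ _, ofReal_sum]
  refine sum_congr rfl fun i hi => ?_
  rw [integral_finsetSum fun i _ => (by fun_prop : Continuous _).intervalIntegrable _ _,
    sum_eq_single i (fun j hj e => ?_) fun h => absurd hi h]
  · rw [integral_const_mul, orth, if_pos (sub_self _), mul_one, mul_conj', ofReal_pow]
  · rw [integral_const_mul, orth, if_neg fun h => e (hf hi hj (sub_eq_zero.1 h)).symm, mul_zero]

/-- the kernel -/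
def D (h : ℕ) (t : ℝ) : ℂ := ∑ j ∈ range h, E (-j) t

theorem D_le (h : ℕ) (t : ℝ) : ‖D h t‖ ≤ h :=
  (norm_sum_le _ _).trans (by simp [E_norm])

theorem D_mul (h : ℕ) (t : ℝ) : D h t * (E (-1) t - 1) = E (-h) t - 1 := by
  induction h with
  | zero => simp [D, E]
  | succ h ih =>
    rw [D, sum_range_succ, ← D, add_mul, ih, Nat.cast_succ, neg_add, E_add]; ring

theorem D_far (h : ℕ) {t Θ : ℝ} (h0 : 0 < Θ) (h1 : Θ ≤ |t|) (h2 : |t| ≤ 1 / 2) :
    ‖D h t‖ ≤ 1 / Θ := by
  have hp := Real.pi_pos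
  have h3 : ‖E (-1) t - 1‖ = ‖2 * Real.sin (-(2 * Real.pi * t) / 2)‖ := by
    rw [← norm_exp_I_mul_ofReal_sub_one, E]; push_cast; ring_nf
  have h4 : |-(2 * Real.pi * t) / 2| = Real.pi * |t| := by
    rw [show -(2 * Real.pi * t) / 2 = -(Real.pi * t) by ring, abs_neg, abs_mul, abs_of_pos hp]
  have h5 := Real.mul_abs_le_abs_sin (x := -(2 * Real.pi * t) / 2) (by rw [h4]; nlinarith)
  rw [h4, show 2 / Real.pi * (Real.pi * |t|) = 2 * |t| by field_simp] at h5
  rw [Real.norm_eq_abs, abs_mul, abs_two] at h3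
  have h6 : ‖D h t‖ * ‖E (-1) t - 1‖ ≤ 2 := by
    rw [← norm_mul, D_mul]
    exact (norm_sub_le _ _).trans (by rw [E_norm, norm_one]; norm_num)
  rw [le_div_iff₀ h0]
  nlinarith [norm_nonneg (D h t), mul_le_mul_of_nonneg_left (by linarith : 2 * Θ ≤ ‖E (-1) t - 1‖)
    (norm_nonneg (D h t))]

theorem regroup (c : ℕ → ℂ) (S : Finset ℕ) (h M : ℕ) (hM : ∀ n ∈ S, n ≤ M) (t : ℝ) :
    ∑ y ∈ Icc (-h : ℤ) M, (∑ n ∈ S.filter (fun n : ℕ => y ≤ n ∧ n < y + h), c n) * E y t =
      (∑ n ∈ S, c n * E n t) * D h t := by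
  simp only [sum_filter, sum_mul, ite_mul, zero_mul]
  rw [sum_comm]
  refine sum_congr rfl fun n hn => ?_
  have := hM n hn
  rw [← sum_filter, D, mul_sum]
  refine (sum_nbij' (fun j : ℕ => (n : ℤ) - j) (fun y => (n - y).toNat) ?_ ?_ ?_ ?_ ?_).symm
  · intro j hj
    simp only [mem_range, mem_filter, mem_Icc] at hj ⊢
    omega
  · intro y hy
    simp only [mem_range, mem_filter, mem_Icc] at hy ⊢
    omega
  · intro j _
    omega
  · intro y hy
    simp only [mem_filter, mem_Icc] at hy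
    omega
  · intro j _
    rw [sub_eq_add_neg, E_add, mul_assoc]

end GalA

open GalA intervalIntegral in
theorem gal_k : GALStmt := by
  intro c S Y h Θ h0 h1
  obtain ⟨M, hM⟩ := (S ∪ Y).exists_le
  let F : ℝ → ℝ := fun t => ‖∑ n ∈ S, c n * E n t‖ ^ 2
  let G : ℝ → ℝ := fun t => ‖(∑ n ∈ S, c n * E n t) * D h t‖ ^ 2
  have cF : Continuous F := by fun_prop
  have cG : Continuous G := by unfold G D; fun_prop
  have iF : ∀ (k a b : ℝ), IntervalIntegrable (fun t => k * F t) MeasureTheory.volume a b :=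
    fun k a b => (cF.const_mul k).intervalIntegrable a b
  have iG := cG.intervalIntegrable (μ := MeasureTheory.volume)
  have F0 : ∀ t, 0 ≤ F t := fun t => sq_nonneg _
  have hG : ∀ t k, ‖D h t‖ ≤ k → G t ≤ k ^ 2 * F t := fun t k e => by
    simp only [G, F, norm_mul, mul_pow]
    rw [mul_comm]
    exact mul_le_mul_of_nonneg_right (pow_le_pow_left₀ (norm_nonneg _) e 2) (sq_nonneg _)
  have a1 : ∑ y ∈ Y, ‖∑ n ∈ S.filter (fun n => y ≤ n ∧ n < y + h), c n‖ ^ 2 ≤
      ∫ t in (-(1 / 2) : ℝ)..(1 / 2), G t := by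
    simp only [G, ← regroup c S h M fun n hn => hM n (mem_union_left _ hn)]
    refine le_trans ?_ (pars (Icc (-h : ℤ) M) id (Set.injOn_id _) _).ge
    refine le_trans (le_of_eq ?_) (sum_le_sum_of_subset_of_nonneg
      (s := Y.image fun y : ℕ => (y : ℤ)) (fun y hy => ?_) fun _ _ _ => sq_nonneg _)
    · rw [sum_image fun _ _ _ _ e => Nat.cast_injective e]
      refine sum_congr rfl fun y _ => ?_
      congr 3
      exact filter_congr fun n _ => by omega
    · obtain ⟨z, hz, rfl⟩ := mem_image.1 hy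
      have := hM z (mem_union_right _ hz)
      rw [mem_Icc]; omega
  have a2 : ∫ t in (-(1 / 2) : ℝ)..(1 / 2), F t = ∑ n ∈ S, ‖c n‖ ^ 2 :=
    pars S (fun n => (n : ℤ)) (fun _ _ _ _ e => Nat.cast_injective e) c
  have b1 : ∫ t in (-(1 / 2) : ℝ)..(-Θ), G t ≤ ∫ t in (-(1 / 2) : ℝ)..(-Θ), (1 / Θ) ^ 2 * F t :=
    integral_mono_on (by linarith) (iG _ _) (iF _ _ _) fun t ht => hG t _
      (D_far h h0 (by rw [abs_of_nonpos (by linarith [ht.2])]; linarith [ht.2])
        (abs_le.2 ⟨ht.1, by linarith [ht.2]⟩))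
  have b2 : ∫ t in (-Θ)..Θ, G t ≤ ∫ t in (-Θ)..Θ, (h : ℝ) ^ 2 * F t :=
    integral_mono_on (by linarith) (iG _ _) (iF _ _ _) fun t _ => hG t _ (D_le h t)
  have b3 : ∫ t in Θ..(1 / 2), G t ≤ ∫ t in Θ..(1 / 2), (1 / Θ) ^ 2 * F t :=
    integral_mono_on h1 (iG _ _) (iF _ _ _) fun t ht => hG t _
      (D_far h h0 (ht.1.trans (le_abs_self t)) (abs_le.2 ⟨by linarith [ht.1], ht.2⟩))
  have b4 : 0 ≤ ∫ t in (-Θ)..Θ, (1 / Θ) ^ 2 * F t :=
    integral_nonneg (by linarith) fun t _ => mul_nonneg (sq_nonneg _) (F0 t)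
  have b5 : ∫ t in (-(1 / 2) : ℝ)..(1 / 2), (1 / Θ) ^ 2 * F t = (∑ n ∈ S, ‖c n‖ ^ 2) / Θ ^ 2 := by
    rw [integral_const_mul, a2]; ring
  rw [← integral_add_adjacent_intervals (iG _ Θ) (iG _ _),
    ← integral_add_adjacent_intervals (iG _ (-Θ)) (iG _ _)] at a1
  rw [← integral_add_adjacent_intervals (iF _ _ Θ) (iF _ _ _),
    ← integral_add_adjacent_intervals (iF _ _ (-Θ)) (iF _ _ _)] at b5
  rw [integral_const_mul] at b2
  have e : ∫ θ in (-Θ)..Θ, ‖∑ n ∈ S, c n * Complex.exp (2 * Real.pi * (n * θ : ℝ) * Complex.I)‖ ^ 2 =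
      ∫ t in (-Θ)..Θ, F t := by simp only [F, E, Int.cast_natCast]
  rw [e]
  linarith

end Pool.Agent.MP_a43263_nt.K2

end

end PkK2Gal

section PkK2Geo

/-! THEOREM R2: algebra of the values. -/

set_option autoImplicit false

noncomputable section

namespace Pool.Agent.MP_a43263_nt.K2

open Finset Filter

namespace GeoA

theorem sum_xp (g : ℕ) : ∑ i : Fin (2 * g + 1), xp g i.1 = (2 * g + 1) ^ 2 := by
  have h : ∀ n : ℕ, ∑ i ∈ range n, 2 * (i + 1) = n * (n + 1) := fun n => by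
    induction n with
    | zero => rfl
    | succ n ih => rw [sum_range_succ, ih]; ring
  rw [Fin.sum_univ_eq_sum_range (xp g) (2 * g + 1), sum_range_succ,
    sum_congr rfl fun i hi => show xp g i = 2 * (i + 1) from if_neg (mem_range.1 hi).ne, h,
    show xp g (2 * g) = 2 * g + 1 from if_pos rfl]
  ring

theorem card_bx (g k : ℕ) :
    ((bx g k).card : ℝ) = ∏ i : Fin (2 * g + 1), (2 * (k : ℝ) ^ xp g i.1 + 1) := by
  rw [bx, Fintype.card_piFinset, Nat.cast_prod]
  refine prod_congr rfl fun i _ => ?_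
  rw [Int.card_Icc, show ce g k i.1 + (k : ℤ) ^ xp g i.1 + 1 - (ce g k i.1 - (k : ℤ) ^ xp g i.1) =
    ((2 * k ^ xp g i.1 + 1 : ℕ) : ℤ) by push_cast; ring, Int.toNat_natCast]
  push_cast
  rfl

theorem vol_eq (g k : ℕ) : vol g k = ∏ i : Fin (2 * g + 1), (k : ℝ) ^ xp g i.1 := by
  rw [prod_pow_eq_pow_sum, sum_xp, vol]

variable {g : ℕ}

theorem shift (hg : 1 ≤ g) (w : Vec g) (t u u' v : ℤ) :
    Gv (w + sh g t u' v) u v = Gv w u v + t * (u ^ 2 * v ^ (4 * g) * (u ^ 2 - u' ^ 2)) := by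
  have h : ∀ i, sv (w + sh g t u' v) i = sv w i + sh g t u' v i := fun i => by
    by_cases e : i.1 = 2 * g
    · have : sh g t u' v i = 0 := by rw [sh, if_neg (by omega), if_neg (by omega)]
      simp only [sv, if_pos e, Pi.add_apply, this, add_zero]
    · simp only [sv, if_neg e, Pi.add_apply]
  obtain ⟨n, rfl⟩ : ∃ n, g = n + 1 := ⟨g - 1, by omega⟩
  simp only [Gv, h, add_mul, sum_add_distrib, add_assoc, add_right_inj]
  rw [Fintype.sum_eq_add (⟨2 * n, by omega⟩ : Fin (2 * (n + 1) + 1)) ⟨2 * n + 1, by omega⟩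
    (by simp) fun i hi => by
      have a : i.1 ≠ 2 * n := fun e => hi.1 (Fin.ext e)
      have b : i.1 ≠ 2 * n + 1 := fun e => hi.2 (Fin.ext e)
      rw [sh, if_neg (by omega), if_neg (by omega), zero_mul, zero_mul]]
  simp only [sh]
  rw [if_pos (by omega), if_neg (by omega), if_pos (by omega),
    show 2 * (n + 1) - 2 * n = 2 by omega, show 2 * (n + 1) - (2 * n + 1) = 1 by omega]
  ring

theorem gv_mod {M : ℕ} {w w' : Vec g} {u u' : ℤ} (v : ℤ) (h : ∀ i, w i ≡ w' i [ZMOD M])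
    (k : u ≡ u' [ZMOD M]) : Gv w u v ≡ Gv w' u' v [ZMOD M] := by
  have h' := fun i => (ZMod.intCast_eq_intCast_iff _ _ _).2 (h i)
  have k' := (ZMod.intCast_eq_intCast_iff _ _ _).2 k
  refine (ZMod.intCast_eq_intCast_iff _ _ _).1 ?_
  simp only [Gv, sv]
  push_cast
  simp only [h', k']

theorem homog (w : Vec g) (a v : ℤ) : Gv w (a * v) v = v ^ (4 * g + 2) * Gv w a 1 := by
  simp only [Gv, mul_add, mul_sum]
  congr 1
  · rw [show -(a * v) ^ 2 = v ^ 2 * -a ^ 2 by ring, mul_pow]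
    ring
  · refine sum_congr rfl fun i _ => ?_
    have e : 4 * g + 2 = 2 * (2 * g - i.1) + 2 * (i.1 + 1) := by have := i.2; omega
    rw [e, show -(a * v) ^ 2 = v ^ 2 * -a ^ 2 by ring, mul_pow]
    ring

theorem quot {N d : ℕ} {x y c : ℤ} (hN : 0 < N) (hd : d ∣ N) (e : c * y ≡ x [ZMOD (N ^ 2 : ℕ)])
    (hc : IsCoprime c (N : ℤ)) (h : (d : ℤ) ∣ y ∧ IsCoprime (y / d) (N : ℤ)) :
    (d : ℤ) ∣ x ∧ IsCoprime (x / d) (N : ℤ) := by
  obtain ⟨⟨y, rfl⟩, h⟩ := h
  obtain ⟨s, rfl⟩ := hd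
  have d0 : (d : ℤ) ≠ 0 := by
    rintro f
    simp [show d = 0 by exact_mod_cast f] at hN
  obtain ⟨m, hm⟩ := e.dvd
  obtain rfl : x = d * (c * y + (d * s : ℕ) * (s * m)) := by
    push_cast at hm ⊢
    linear_combination hm
  rw [Int.mul_ediv_cancel_left _ d0] at h ⊢
  exact ⟨dvd_mul_right _ _, (hc.mul_left h).add_mul_left_left _⟩

end GeoA

open GeoA in
theorem geo_k : GEOStmt := by
  intro g hg
  refine ⟨fun k hk => ?_, shift hg, fun N d a w e hN hd he => ?_,
    fun N d a u v w hN hd hv hu h => ?_, fun w u v h => ?_⟩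
  · have h1 : ∀ i : Fin (2 * g + 1), (1 : ℝ) ≤ (k : ℝ) ^ xp g i.1 := fun i =>
      one_le_pow₀ (by exact_mod_cast hk)
    rw [card_bx, vol_eq]
    refine ⟨prod_le_prod (fun i _ => by positivity) fun i _ => by linarith [h1 i],
      (prod_le_prod (g := fun i => 3 * (k : ℝ) ^ xp g i.1) (fun i _ => by positivity)
        fun i _ => by linarith [h1 i]).trans_eq ?_⟩
    rw [prod_mul_distrib, prod_const, card_univ, Fintype.card_fin]
  · have key : Gv w a 1 ≡ Gv (w + e) a 1 [ZMOD (N ^ 2 : ℕ)] := gv_mod 1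
      (fun i => (Int.modEq_iff_dvd.2 (by simpa using he i))) rfl
    exact ⟨quot hN hd (by rw [one_mul]; exact key.symm) isCoprime_one_left,
      quot hN hd (by rw [one_mul]; exact key) isCoprime_one_left⟩
  · refine quot hN hd ?_ (Nat.isCoprime_iff_coprime.2 hv).pow_left h (c := (v : ℤ) ^ (4 * g + 2))
    rw [← homog]
    exact gv_mod _ (fun _ => rfl) (by exact_mod_cast Int.natCast_modEq_iff.2 hu.symm)
  · obtain ⟨z, hz⟩ : v ∣ ∑ i, sv w i * (-u ^ 2) ^ (2 * g - i.1) * (v ^ 2) ^ (i.1 + 1) :=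
      dvd_sum fun i _ => ((dvd_pow_self v two_ne_zero).trans
        (dvd_pow_self _ (Nat.succ_ne_zero _))).mul_left _
    rw [Gv, hz]
    exact h.pow_left.neg_left.pow_left.add_mul_left_left _

end Pool.Agent.MP_a43263_nt.K2

end

end PkK2Geo

section PkN2Tup0

/-! Independent isotropic tuples over a finite field. -/

set_option autoImplicit false

namespace Pool.Agent.MP_a43263_nt.N2.TupA

open Finset Module

variable {F V : Type} [Field F] [Fintype F] [AddCommGroup V] [Module F V] [Fintype V]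

/-- sets with few points on the lines of one direction -/
theorem line (U : Submodule F V) (e : V) (he : e ∈ U) (Z : Finset V) (hZ : ∀ v ∈ Z, v ∈ U) (r : ℕ)
    (h : ∀ v : V, ∃ T : Finset F, T.card ≤ r ∧ ∀ t : F, v + t • e ∈ Z → t ∈ T) :
    Z.card * Fintype.card F ≤ r * Fintype.card F ^ finrank F U := by
  classical
  choose T hT hT' using h
  have h1 : (Z ×ˢ (univ : Finset F)).card ≤
      ((univ.filter (· ∈ U)).sigma fun v => T v).card := by
    refine card_le_card_of_injOn (fun x => ⟨x.1 - x.2 • e, x.2⟩) (fun x hx => ?_) ?_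
    · have hx' := (mem_product.1 (mem_coe.1 hx)).1
      simp only [coe_sigma, Set.mem_sigma_iff, mem_coe, mem_filter, mem_univ, true_and]
      exact ⟨U.sub_mem (hZ _ hx') (U.smul_mem _ he), hT' _ _ (by simpa using hx')⟩
    · rintro ⟨v, t⟩ - ⟨v', t'⟩ - k
      obtain ⟨k1, k2⟩ := Sigma.mk.inj_iff.1 k
      obtain rfl := eq_of_heq k2
      exact Prod.ext (sub_left_injective k1) rfl
  rw [card_product, card_univ, card_sigma] at h1
  refine h1.trans ((sum_le_card_nsmul _ _ r fun v _ => hT v).trans ?_)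
  rw [smul_eq_mul, mul_comm, ← Fintype.card_subtype, Module.card_eq_pow_finrank (K := F)]

variable {B : LinearMap.BilinForm F V}

theorem step (h2 : (2 : F) ≠ 0) (hs : ∀ x y, B x y = B y x) (hB : B.Nondegenerate)
    (W : Submodule F V) (i : ℕ) (hi : finrank F W = i) (hN : 2 * i + 3 ≤ finrank F V)
    (Z : Finset V) (hZ : ∀ v ∈ Z, v ∉ W ∧ v ∈ B.orthogonal W ∧ B v v = 0) :
    Z.card * Fintype.card F ^ (i + 2) ≤ (Fintype.card F + 2) * Fintype.card F ^ finrank F V := by
  classical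
  rcases Z.eq_empty_or_nonempty with rfl | ⟨e, he⟩
  · simp
  obtain ⟨e1, e2, e3⟩ := hZ e he
  set W₁ := W ⊔ Submodule.span F {e} with hW₁
  have e0 : e ≠ 0 := fun k => e1 (k ▸ W.zero_mem)
  have d1 : finrank F W₁ = i + 1 := by
    have := Submodule.finrank_sup_add_finrank_inf_eq W (Submodule.span F {e})
    rw [((Submodule.disjoint_span_singleton' e0).2 e1).eq_bot, finrank_bot,
      finrank_span_singleton e0, hi] at this
    exact this
  have d2 := LinearMap.BilinForm.finrank_orthogonal hB W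
  have d3 := LinearMap.BilinForm.finrank_orthogonal hB W₁
  have d4 := LinearMap.BilinForm.finrank_orthogonal hB (B.orthogonal W₁)
  obtain ⟨f, f1, f2⟩ : ∃ f ∈ B.orthogonal W₁, B f f ≠ 0 := by
    by_contra k
    push Not at k
    have : B.orthogonal W₁ ≤ B.orthogonal (B.orthogonal W₁) := fun x hx => by
      rw [LinearMap.BilinForm.mem_orthogonal_iff]
      intro y hy
      have k1 := k _ (Submodule.add_mem _ hx hy)
      simp only [map_add, LinearMap.add_apply, k x hx, k y hy, hs x y] at k1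
      exact (mul_eq_zero.1 (by linear_combination k1 : 2 * B y x = 0)).resolve_left h2
    have := Submodule.finrank_mono this
    omega
  have a1 := line (B.orthogonal W) e e2 (Z.filter fun v => B e v ≠ 0)
    (fun v hv => (hZ v (mem_filter.1 hv).1).2.1) 1 fun v =>
    ⟨{-B v v / (2 * B e v)}, by simp, fun t ht => by
      obtain ⟨k1, k2⟩ := mem_filter.1 ht
      have k3 := (hZ _ k1).2.2
      simp only [map_add, map_smul, LinearMap.add_apply, LinearMap.smul_apply, smul_eq_mul, e3,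
        hs v e, mul_zero, add_zero] at k2 k3
      rw [mem_singleton, eq_div_iff (mul_ne_zero h2 k2)]
      linear_combination k3⟩
  have a2 := line (B.orthogonal W₁) f f1 (Z.filter fun v => ¬B e v ≠ 0) (fun v hv => by
      obtain ⟨k1, k2⟩ := mem_filter.1 hv
      rw [LinearMap.BilinForm.mem_orthogonal_iff]
      intro y hy
      obtain ⟨a, ha, b, hb, rfl⟩ := Submodule.mem_sup.1 hy
      obtain ⟨c, rfl⟩ := Submodule.mem_span_singleton.1 hb
      have k3 : B a v = 0 := (hZ v k1).2.1 a ha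
      show B (a + c • e) v = 0
      simp [k3, not_not.1 k2]) 2 fun v => by
    have p0 : (Polynomial.C (B f f) * Polynomial.X ^ 2 + Polynomial.C (2 * B f v) * Polynomial.X +
      Polynomial.C (B v v)) ≠ 0 := fun k => f2 (by simpa using congrArg (·.coeff 2) k)
    refine ⟨(Polynomial.C (B f f) * Polynomial.X ^ 2 + Polynomial.C (2 * B f v) * Polynomial.X +
      Polynomial.C (B v v)).roots.toFinset, (Multiset.toFinset_card_le _).trans
      ((Polynomial.card_roots' _).trans Polynomial.natDegree_quadratic_le), fun t ht => ?_⟩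
    have k3 := (hZ _ (mem_filter.1 ht).1).2.2
    simp only [map_add, map_smul, LinearMap.add_apply, LinearMap.smul_apply, smul_eq_mul,
      hs v f] at k3
    rw [Multiset.mem_toFinset, Polynomial.mem_roots p0]
    simp only [Polynomial.IsRoot.def, Polynomial.eval_add, Polynomial.eval_mul, Polynomial.eval_C,
      Polynomial.eval_pow, Polynomial.eval_X]
    linear_combination k3
  obtain ⟨d, hd⟩ : ∃ d, finrank F V = d + 1 + i := ⟨finrank F V - (i + 1), by omega⟩
  rw [d2, hi, hd, Nat.add_sub_cancel] at a1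
  rw [d3, d1, hd, show d + 1 + i - (i + 1) = d by omega] at a2
  rw [← card_filter_add_card_filter_not (s := Z) fun v => B e v ≠ 0, hd]
  set q := Fintype.card F
  calc _ = ((Z.filter fun v => B e v ≠ 0).card * q + (Z.filter fun v => ¬B e v ≠ 0).card * q) * q ^ (i + 1) := by ring
    _ ≤ (1 * q ^ (d + 1) + 2 * q ^ d) * q ^ (i + 1) := by gcongr
    _ = _ := by ring

open Classical in
/-- independent isotropic tuples -/
theorem tuples (h2 : (2 : F) ≠ 0) (hs : ∀ x y, B x y = B y x) (hB : B.Nondegenerate) :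
    ∀ k : ℕ, 2 * k + 1 ≤ finrank F V → ∀ S : Finset (Fin k → V),
    (∀ x ∈ S, LinearIndependent F x ∧ ∀ i j, B (x i) (x j) = 0) →
    S.card * Fintype.card F ^ (k + ∑ i ∈ range (k + 1), i) ≤
      (Fintype.card F + 2) ^ k * Fintype.card F ^ (k * finrank F V) := by
  intro k
  induction k with
  | zero => exact fun _ S _ => by simpa using card_le_one.2 fun a _ b _ => Subsingleton.elim a b
  | succ k ih =>
    intro hk S hS
    have h1 := ih (by omega) (S.image Fin.tail) fun x hx => by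
      obtain ⟨y, hy, rfl⟩ := mem_image.1 hx
      exact ⟨(linearIndependent_finSucc.1 (hS y hy).1).1, fun i j => (hS y hy).2 _ _⟩
    have h3 : ∀ x ∈ S.image Fin.tail, (S.filter fun y => Fin.tail y = x).card * Fintype.card F ^ (k + 2) ≤
        (Fintype.card F + 2) * Fintype.card F ^ finrank F V := fun x hx => by
      obtain ⟨y₀, hy₀, e⟩ := mem_image.1 hx
      have l0 : LinearIndependent F x := e ▸ (linearIndependent_finSucc.1 (hS y₀ hy₀).1).1
      rw [← card_image_of_injOn (f := fun y : Fin (k + 1) → V => y 0) fun y hy z hz h => by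
        rw [← Fin.cons_self_tail y, ← Fin.cons_self_tail z, (mem_filter.1 hy).2,
          (mem_filter.1 hz).2, show y 0 = z 0 from h]]
      refine step h2 hs hB (Submodule.span F (Set.range x)) k
        (by rw [finrank_span_eq_card l0, Fintype.card_fin]) (by omega) _ fun v hv => ?_
      obtain ⟨y, hy, rfl⟩ := mem_image.1 hv
      obtain ⟨y1, rfl⟩ := mem_filter.1 hy
      refine ⟨(linearIndependent_finSucc.1 (hS y y1).1).2, fun a ha => ?_, (hS y y1).2 _ _⟩
      obtain ⟨c, rfl⟩ := (Submodule.mem_span_range_iff_exists_fun F).1 ha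
      show B (∑ i, c i • Fin.tail y i) (y 0) = 0
      simp [Fin.tail, (hS y y1).2]
    rw [card_eq_sum_card_image Fin.tail S, sum_range_succ]
    set q := Fintype.card F
    calc _ = (∑ x ∈ S.image Fin.tail, (S.filter fun y => Fin.tail y = x).card * q ^ (k + 2)) *
          q ^ (k + ∑ i ∈ range (k + 1), i) := by rw [← sum_mul]; ring
      _ ≤ ((S.image Fin.tail).card * ((q + 2) * q ^ finrank F V)) *
          q ^ (k + ∑ i ∈ range (k + 1), i) :=
        Nat.mul_le_mul_right _ (sum_le_card_nsmul _ _ _ h3)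
      _ = (S.image Fin.tail).card * q ^ (k + ∑ i ∈ range (k + 1), i) *
          ((q + 2) * q ^ finrank F V) := by ring
      _ ≤ (q + 2) ^ k * q ^ (k * finrank F V) * ((q + 2) * q ^ finrank F V) :=
        Nat.mul_le_mul_right _ h1
      _ = _ := by ring

end Pool.Agent.MP_a43263_nt.N2.TupA

end PkN2Tup0

section PkN2AllC

/-! THEOREM N2: many prime values in almost every admissible class (Chebyshev). -/

set_option autoImplicit false

noncomputable section

namespace Pool.Agent.MP_a43263_nt.N2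

open Finset Filter K2

namespace AllCA

/-- the variance -/
theorem var {ι : Type} (S : Finset ι) (n : ℕ) (c : ι → ℝ) (f : ℕ → ι → ℝ) (e : ℕ → ℕ → ℝ)
    (p E M B R δ : ℝ) (hp : 0 ≤ p) (hE : 0 ≤ E) (hM : 0 ≤ M) (hR : 0 ≤ R) (hc : ∀ w, 0 ≤ c w)
    (hf : ∀ j w, 0 ≤ f j w)
    (h0 : ∀ j ∈ range n, p * (∑ w ∈ S, c w - E) ≤ ∑ w ∈ S, c w * f j w)
    (h1 : ∀ j ∈ range n, ∑ w ∈ S, c w * f j w ≤ B)
    (h2 : ∀ j ∈ range n, ∀ w ∈ S, f j w ≤ M)
    (h3 : ∀ j ∈ range n, ∀ j' ∈ range n, j ≠ j' →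
      ∑ w ∈ S, c w * (f j w * f j' w) ≤ p ^ 2 * (∑ w ∈ S, c w + E + R * e j j'))
    (h4 : ∀ j ∈ range n, ∑ j' ∈ (range n).erase j, e j j' ≤ n * δ) :
    ∑ w ∈ S, c w * (∑ j ∈ range n, f j w - n * p) ^ 2 ≤
      n * (M * B) + (n * p) ^ 2 * (3 * E + R * δ) := by
  set C := ∑ w ∈ S, c w with hC
  have hC0 : 0 ≤ C := sum_nonneg fun w _ => hc w
  have e1 : ∑ w ∈ S, c w * (∑ j ∈ range n, f j w - n * p) ^ 2 =
      ∑ j ∈ range n, ∑ j' ∈ range n, ∑ w ∈ S, c w * (f j w * f j' w) -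
        2 * (n * p) * ∑ j ∈ range n, ∑ w ∈ S, c w * f j w + (n * p) ^ 2 * C := by
    have e2 : ∑ j ∈ range n, ∑ j' ∈ range n, ∑ w ∈ S, c w * (f j w * f j' w) =
        ∑ w ∈ S, c w * (∑ j ∈ range n, f j w) ^ 2 := by
      rw [sum_congr rfl fun j _ => sum_comm, sum_comm]
      refine sum_congr rfl fun w _ => ?_
      rw [sq, sum_mul_sum, mul_sum]
      exact sum_congr rfl fun j _ => (mul_sum _ _ _).symm
    have e3 : ∑ j ∈ range n, ∑ w ∈ S, c w * f j w = ∑ w ∈ S, c w * ∑ j ∈ range n, f j w := by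
      simp only [mul_sum]
      exact sum_comm
    rw [e2, e3, hC, mul_sum, mul_sum, ← sum_sub_distrib, ← sum_add_distrib]
    exact sum_congr rfl fun w _ => by ring
  have b1 : ∀ j ∈ range n, ∑ j' ∈ range n, ∑ w ∈ S, c w * (f j w * f j' w) ≤
      M * B + (n * (p ^ 2 * (C + E)) + p ^ 2 * R * (n * δ)) := by
    intro j hj
    rw [← add_sum_erase _ _ hj]
    refine add_le_add ?_ ?_
    · calc _ ≤ ∑ w ∈ S, M * (c w * f j w) := sum_le_sum fun w hw => by
            have := mul_le_mul_of_nonneg_left (h2 j hj w hw) (mul_nonneg (hc w) (hf j w))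
            linarith
        _ = M * ∑ w ∈ S, c w * f j w := (mul_sum _ _ _).symm
        _ ≤ _ := mul_le_mul_of_nonneg_left (h1 j hj) hM
    · calc _ ≤ ∑ j' ∈ (range n).erase j, (p ^ 2 * (C + E) + p ^ 2 * R * e j j') :=
            sum_le_sum fun j' hj' => (h3 j hj j' (mem_of_mem_erase hj')
              (ne_of_mem_erase hj').symm).trans (le_of_eq (by ring))
        _ ≤ _ := by
            rw [sum_add_distrib, sum_const, nsmul_eq_mul, ← mul_sum]
            refine add_le_add (mul_le_mul_of_nonneg_right ?_ (by positivity))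
              (mul_le_mul_of_nonneg_left (h4 j hj) (by positivity))
            exact_mod_cast (card_erase_le).trans (card_range n).le
  have b2 := sum_le_card_nsmul _ _ _ b1
  have b3 := card_nsmul_le_sum (range n) (fun j => ∑ w ∈ S, c w * f j w) _ h0
  rw [card_range, nsmul_eq_mul] at b2 b3
  have b4 := mul_le_mul_of_nonneg_left b3 (by positivity : 0 ≤ 2 * ((n : ℝ) * p))
  rw [e1]
  linarith

theorem sum_inj {s t : Finset ℕ} {φ : ℕ → ℕ} {F : ℕ → ℝ} (hF : ∀ y, 0 ≤ F y)
    (h1 : ∀ x ∈ s, φ x ∈ t) (h2 : ∀ x ∈ s, ∀ y ∈ s, φ x = φ y → x = y) :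
    ∑ x ∈ s, F (φ x) ≤ ∑ y ∈ t, F y := by
  rw [← sum_image (fun x hx y hy => h2 x hx y hy)]
  exact sum_le_sum_of_subset_of_nonneg (image_subset_iff.2 h1) fun y _ _ => hF y

theorem sum_abs {n j : ℕ} (hj : j ∈ range n) {F : ℕ → ℝ} (hF : ∀ y, 0 ≤ F y) :
    ∑ j' ∈ (range n).erase j, F ((j : ℤ) - j').natAbs ≤ 2 * ∑ t ∈ Ioc 0 n, F t := by
  rw [← sum_filter_add_sum_filter_not _ (fun j' => j' < j), two_mul]
  have hj := mem_range.1 hj
  refine add_le_add (sum_inj hF (fun x hx => ?_) fun x hx y hy e => ?_)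
    (sum_inj hF (fun x hx => ?_) fun x hx y hy e => ?_)
  all_goals simp only [mem_filter, mem_erase, mem_range, mem_Ioc] at *
  all_goals omega

theorem few {n : ℕ} {x : ℕ → ℕ} {M : ℝ} (h : ∀ j ∈ range n, lam (x j) ≤ M) :
    ∑ j ∈ range n, lam (x j) ≤ ((range n).filter fun j => (x j).Prime).card * M := by
  rw [← sum_filter_of_ne (p := fun j => (x j).Prime) fun j _ hne => by
    by_contra k
    exact hne (if_neg k), ← nsmul_eq_mul]
  exact sum_le_card_nsmul _ _ _ fun j hj => h j (mem_of_mem_filter j hj)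

end AllCA

theorem all_n : PHAStmt → PHBStmt → M1Stmt → M2Stmt → ALLStmt := by
  intro pha phb m1 m2 g v hg hv η hη
  obtain ⟨C1, hC1, m1⟩ := m1 g v hg hv
  obtain ⟨C2, hC2, m2⟩ := m2 g v hg hv
  filter_upwards [eventually_ge_atTop v, eventually_ge_atTop 200,
    tendsto_natCast_atTop_atTop.eventually_ge_atTop ((112 * (C1 + C2) / η) ^ 2)]
    with z hz1 hz2 hz3 d a wb hd hdv ha hA
  filter_upwards [m1 z d a wb hz1 hz2 hd hdv ha hA (η / 48) (by positivity),
    m2 z d a wb hz1 hz2 hd hdv ha hA (η / 48) (by positivity), ev_le_log 1,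
    ev_le_log (32 * ((4 * g + 3) * C1) / η)] with k h1 h2 h3 h4 U m hU hm hmk hmz
  obtain ⟨-, h1⟩ := h1 U m hU hm hmk hmz
  have h2 := h2 U m hU hm hmk hmz
  have hN : 0 < primorial z := primorial_pos z
  have hp : 1 ≤ ph (primorial z) := (pha.1 _ hN).1
  have hex : ∀ y, 0 ≤ ex (primorial z) z y := fun y => sum_nonneg fun _ _ => by positivity
  have hb := (phb (primorial z) z hN (Nat.prime_two.dvd_primorial_iff.2 (by omega))
    (by omega)).2 (nl k)
  have hn := le_nl h3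
  have hV : 0 ≤ rf g k (primorial z) m U := by unfold rf vol; positivity
  have hs : 0 < √(z : ℝ) := Real.sqrt_pos.2 (by exact_mod_cast (by omega : 0 < z))
  have hz : (C1 + C2) / √(z : ℝ) ≤ η / 112 := by
    have := Real.le_sqrt_of_sq_le hz3
    rw [div_le_iff₀ hη] at this
    rw [div_le_iff₀ hs]
    linarith
  have a1 : 0 ≤ C1 / √(z : ℝ) := by positivity
  have a2 : 0 ≤ C2 / √(z : ℝ) := by positivity
  rw [add_div] at hz
  set N := primorial z
  set V := rf g k N m U
  set p := ph N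
  have k1 := AllCA.var (Us N a m U ×ˢ bx g k) (nl k) (fun x => ind (Cm v N m wb x.1 x.2))
    (fun j x => lam (co (m * d) x.2 (pu N m x.1 j) v))
    (fun j j' => ex N z ((j : ℤ) - j').natAbs) p (η / 48 * V + η / 112 * V)
    ((4 * g + 3) * Real.log k) (C1 * p * V) (C2 * V) (2 * (2 / √(z : ℝ))) (by linarith) (by positivity) (by positivity)
    (by positivity) (fun _ => ind_nonneg _) (fun _ _ => lam_nonneg _)
    (fun j hj => by
      rw [sum_product, sum_product]
      refine le_trans (mul_le_mul_of_nonneg_left (sub_le_sub_left ?_ _) (by linarith)) (h1 j hj).2.1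
      rw [← add_mul]
      exact mul_le_mul_of_nonneg_right (by linarith) hV)
    (fun j hj => by rw [sum_product]; exact (h1 j hj).2.2)
    (fun j hj x hx => (h1 j hj).1 _ (mem_product.1 hx).1 _ (mem_product.1 hx).2)
    (fun j hj j' hj' ne => by
      rw [sum_product, sum_product]
      refine (h2 j hj j' hj' ne).trans (mul_le_mul_of_nonneg_left ?_ (sq_nonneg _))
      have := mul_le_mul_of_nonneg_right (show C2 / √(z : ℝ) ≤ η / 112 by linarith) hV
      change _ ≤ ∑ u ∈ Us N a m U, cnt g k (Cm v N m wb u) + _ + _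
      linarith)
    (fun j hj => (AllCA.sum_abs hj hex).trans (by linarith))
  rw [sum_product] at k1
  set L := Real.log k
  have hL : 0 < L := by linarith
  have hn0 : (0 : ℝ) < nl k := lt_of_lt_of_le (by positivity) hn
  have k2 := sum_le_sum fun u (hu : u ∈ Us N a m U) => cnt_mul_le (g := g) (k := k)
    (P := fun w => Cm v N m wb u w ∧ Few v N d m k u w) (a := (nl k * p) ^ 2 / 4)
    (F := fun w => ind (Cm v N m wb u w) *
      (∑ j ∈ range (nl k), lam (co (m * d) w (pu N m u j) v) - nl k * p) ^ 2)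
    (fun w _ => mul_nonneg (ind_nonneg _) (sq_nonneg _)) (by
      rintro w hw ⟨b1, b2⟩
      have b3 := AllCA.few fun j hj => (h1 j hj).1 u hu w hw
      rw [Few, lt_div_iff₀ (by positivity)] at b2
      have b4 : (nl k : ℝ) ≤ nl k * p := le_mul_of_one_le_right hn0.le hp
      rw [ind_pos b1, one_mul]
      have b5 : nl k * p / 2 ≤ nl k * p - ∑ j ∈ range (nl k), lam (co (m * d) w (pu N m u j) v) := by
        linarith
      have := pow_le_pow_left₀ (by positivity) b5 2
      linarith)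
  have k3 := k2.trans k1
  rw [← sum_mul] at k3
  set n : ℝ := (nl k : ℝ)
  rw [div_le_iff₀ hη] at h4
  have k4 : (4 * g + 3) * L * (C1 * V) ≤ n * p * (η / 16 * V) := by
    calc _ = 32 * ((4 * g + 3) * C1) * (L * V / 32) := by ring
      _ ≤ L * η * (L * V / 32) := by gcongr
      _ = L ^ 2 / 2 * 1 * (η / 16 * V) := by ring
      _ ≤ _ := by gcongr
  have k5 := mul_le_mul_of_nonneg_left k4 (by positivity : 0 ≤ n * p)
  have k6 : 3 * (η / 48 * V + η / 112 * V) + C2 * V * (2 * (2 / √(z : ℝ))) ≤ η / 8 * V := by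
    have := mul_le_mul_of_nonneg_right (show C2 / √(z : ℝ) ≤ η / 112 by linarith) hV
    have e : C2 * V * (2 * (2 / √(z : ℝ))) = 4 * (C2 / √(z : ℝ) * V) := by ring
    linarith
  have k7 := mul_le_mul_of_nonneg_left k6 (sq_nonneg (n * p))
  have k8 : 0 ≤ (n * p) ^ 2 * (η * V) := by positivity
  refine le_of_mul_le_mul_right (a := (n * p) ^ 2 / 4) ?_ (by positivity)
  linarith

end Pool.Agent.MP_a43263_nt.N2

end

end PkN2AllC

section PkN2Cbx

/-! THEOREM N2, row Cbx: boxes with congruence conditions. -/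

set_option autoImplicit false

noncomputable section

namespace Pool.Agent.MP_a43263_nt.N2

open Finset Filter K2

namespace CbxA

/-- one class in an interval -/
def cl (lo r : ℤ) (L M : ℕ) : Finset ℤ := (Icc lo (lo + L)).filter fun x => (M : ℤ) ∣ x - r

theorem card_cl (lo r : ℤ) (L : ℕ) {M : ℕ} (hM : 0 < M) :
    ((cl lo r L M).card : ℝ) ≤ (L : ℝ) / M + 1 ∧ (L : ℝ) / M - 1 ≤ (cl lo r L M).card := by
  have hM' : (0 : ℤ) < M := by exact_mod_cast hM
  have hq : (0 : ℚ) < M := by exact_mod_cast hM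
  have hr : (0 : ℝ) < M := by exact_mod_cast hM
  have e : cl lo r L M = (Ico lo (lo + L + 1)).filter fun x => x ≡ r [ZMOD M] := by
    ext x
    simp only [cl, mem_filter, mem_Icc, mem_Ico, Int.lt_add_one_iff, Int.modEq_iff_dvd]
    rw [dvd_sub_comm]
  have h := Int.Ico_filter_modEq_card lo (lo + L + 1) hM' r
  rw [← e] at h
  push_cast at h
  set a := ⌈((lo : ℚ) + L + 1 - r) / M⌉ with ha
  set b := ⌈((lo : ℚ) - r) / M⌉ with hb
  have a1 : (lo : ℚ) + L + 1 - r ≤ a * M := (div_le_iff₀ hq).1 (Int.le_ceil _)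
  have a2 : (a - 1 : ℚ) * M < (lo : ℚ) + L + 1 - r :=
    (lt_div_iff₀ hq).1 (by linarith [Int.ceil_lt_add_one (((lo : ℚ) + L + 1 - r) / M)])
  have b1 : (lo : ℚ) - r ≤ b * M := (div_le_iff₀ hq).1 (Int.le_ceil _)
  have b2 : (b - 1 : ℚ) * M < (lo : ℚ) - r :=
    (lt_div_iff₀ hq).1 (by linarith [Int.ceil_lt_add_one (((lo : ℚ) - r) / M)])
  have c1 : (a - b - 1) * M < (L : ℤ) + 1 := by
    have : ((a : ℚ) - b - 1) * M < L + 1 := by linarith
    exact_mod_cast this
  have c2 : (L : ℤ) + 1 < (a - b + 1) * M := by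
    have : (L : ℚ) + 1 < ((a : ℚ) - b + 1) * M := by linarith
    exact_mod_cast this
  have c3 : 0 ≤ a - b := by
    by_contra hc
    nlinarith [Int.natCast_nonneg L]
  rw [max_eq_left c3] at h
  rw [← h] at c1 c2
  have d1 : (((cl lo r L M).card : ℤ) - 1) * M ≤ L := by omega
  have d2 : (L : ℤ) ≤ (((cl lo r L M).card : ℤ) + 1) * M := by omega
  constructor
  · rw [← sub_le_iff_le_add, le_div_iff₀ hr]
    exact_mod_cast d1
  · rw [sub_le_iff_le_add, div_le_iff₀ hr]
    exact_mod_cast d2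

theorem crt (lo r c e : ℤ) (L : ℕ) {M m : ℕ} (h1 : IsCoprime (m : ℤ) c)
    (h2 : IsCoprime (m : ℤ) M) :
    ∃ ρ, (cl lo r L M).filter (fun t => (m : ℤ) ∣ t * c + e) = cl lo ρ L (M * m) := by
  obtain ⟨a, b, hab⟩ := h1.mul_right h2
  refine ⟨r - M * b * (r * c + e), ?_⟩
  have h3 : (m : ℤ) ∣ (r - M * b * (r * c + e)) * c + e :=
    ⟨a * (r * c + e), by linear_combination (-(r * c + e)) * hab⟩
  have h4 : (M : ℤ) ∣ M * b * (r * c + e) := ⟨b * (r * c + e), by ring⟩
  ext t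
  simp only [cl, mem_filter, and_assoc, Nat.cast_mul]
  refine and_congr_right fun _ => ⟨fun ⟨h5, h6⟩ => h2.symm.mul_dvd ?_ ?_, fun h5 => ⟨?_, ?_⟩⟩
  · convert dvd_add h5 h4 using 1
    ring
  · refine h1.dvd_of_dvd_mul_right ?_
    convert dvd_sub h6 h3 using 1
    ring
  · rw [show t - r = t - (r - M * b * (r * c + e)) - M * b * (r * c + e) by ring]
    exact dvd_sub ((dvd_mul_right _ _).trans h5) h4
  · rw [show t * c + e = (t - (r - M * b * (r * c + e))) * c +
      ((r - M * b * (r * c + e)) * c + e) by ring]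
    exact dvd_add (((dvd_mul_left _ _).trans h5).mul_right c) h3

theorem fib {ι : Type} [Fintype ι] [DecidableEq ι] (j : ι) (A : ι → Finset ℤ)
    (P : (ι → ℤ) → Prop) [DecidablePred P] :
    ((Fintype.piFinset A).filter P).card = ∑ w ∈ Fintype.piFinset (Function.update A j {0}),
      ((A j).filter fun t => P (Function.update w j t)).card := by
  rw [card_eq_sum_card_fiberwise (f := fun w => Function.update w j 0)
    (t := Fintype.piFinset (Function.update A j {0})) fun w hw => ?_]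
  · refine sum_congr rfl fun w hw => ?_
    have hw' := Fintype.mem_piFinset.1 hw
    refine card_nbij' (fun x => x j) (fun t => Function.update w j t) (fun x hx => ?_)
      (fun t ht => ?_) (fun x hx => ?_) fun t _ => by simp
    · simp only [coe_filter, mem_filter, Set.mem_ofPred_eq, Fintype.mem_piFinset] at hx ⊢
      obtain ⟨⟨h1, h2⟩, rfl⟩ := hx
      exact ⟨h1 j, by simpa using h2⟩
    · simp only [coe_filter, mem_filter, Set.mem_ofPred_eq, Fintype.mem_piFinset] at ht ⊢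
      refine ⟨⟨fun i => ?_, ht.2⟩, ?_⟩
      · by_cases hi : i = j
        · subst hi; simpa using ht.1
        · simpa [hi] using hw' i
      · have : w j = 0 := by simpa using hw' j
        rw [Function.update_idem, ← this, Function.update_eq_self]
    · simp only [coe_filter, Set.mem_ofPred_eq] at hx
      obtain ⟨-, rfl⟩ := hx
      simp
  · simp only [coe_filter, mem_coe, Set.mem_ofPred_eq, Fintype.mem_piFinset] at hw ⊢
    intro i
    by_cases hi : i = j
    · subst hi; simp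
    · simpa [hi] using hw.1 i

theorem lin {g : ℕ} (j : Fin (2 * g + 1)) (hj : j.1 + 1 = 2 * g) (w : Vec g) (u v : ℤ) :
    ∃ e, ∀ t, Gv (Function.update w j t) u v =
      t * ((-u ^ 2) ^ (2 * g - j.1) * (v ^ 2) ^ (j.1 + 1)) + e := by
  refine ⟨(-u ^ 2) ^ (2 * g + 1) +
    ∑ i ∈ univ.erase j, sv w i * (-u ^ 2) ^ (2 * g - i.1) * (v ^ 2) ^ (i.1 + 1), fun t => ?_⟩
  have h1 : sv (Function.update w j t) j = t := by
    rw [sv, if_neg (by omega), Function.update_self]
  have h2 : ∀ i ∈ univ.erase j, sv (Function.update w j t) i * (-u ^ 2) ^ (2 * g - i.1) *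
      (v ^ 2) ^ (i.1 + 1) = sv w i * (-u ^ 2) ^ (2 * g - i.1) * (v ^ 2) ^ (i.1 + 1) :=
    fun i hi => by simp only [sv, Function.update_of_ne (ne_of_mem_erase hi)]
  rw [Gv, ← add_sum_erase _ _ (mem_univ j), h1, sum_congr rfl h2]
  ring

end CbxA

open CbxA in
theorem cbx_n : CBXStmt := by
  intro g lo r L M m u v hg hM hm huv hmM S hS
  let j : Fin (2 * g + 1) := ⟨2 * g - 1, by omega⟩
  have hj : j.1 + 1 = 2 * g := by simp only [j]; omega
  have hne : ∀ i ∈ univ.erase j, ¬ i.1 + 1 = 2 * g := fun i hi h =>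
    ne_of_mem_erase hi (Fin.ext (by omega))
  let A : Fin (2 * g + 1) → Finset ℤ := fun i => cl (lo i) (r i) (L i) (M i)
  have e : S = (Fintype.piFinset A).filter fun w => (m : ℤ) ∣ Gv w u v := by
    ext w
    simp only [hS, mem_filter, Fintype.mem_piFinset, A, cl, mem_Icc, forall_and, and_assoc]
  have hu : IsCoprime (m : ℤ) u := Nat.isCoprime_iff_coprime.2 huv.coprime_mul_right_right
  have hv : IsCoprime (m : ℤ) v := Nat.isCoprime_iff_coprime.2 huv.coprime_mul_left_right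
  have hf : ∀ w : Vec g, ∃ ρ, (A j).filter (fun t => (m : ℤ) ∣ Gv (Function.update w j t) u v) =
      cl (lo j) ρ (L j) (M j * m) := fun w => by
    obtain ⟨e, he⟩ := lin j hj w u v
    simp only [he]
    exact crt _ _ _ _ _ (hu.pow_right.neg_right.pow_right.mul_right hv.pow_right.pow_right)
      (Nat.isCoprime_iff_coprime.2 (hmM j hj))
  have hc : ((Fintype.piFinset (Function.update A j {0})).card : ℝ) =
      ∏ i ∈ univ.erase j, ((A i).card : ℝ) := by
    rw [Fintype.card_piFinset, ← mul_prod_erase _ _ (mem_univ j), Function.update_self,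
      card_singleton, one_mul, Nat.cast_prod]
    exact prod_congr rfl fun i hi => by rw [Function.update_of_ne (ne_of_mem_erase hi)]
  have hp := Nat.mul_pos (hM j) hm
  rw [e, fib j, Nat.cast_sum]
  constructor
  · refine (sum_le_card_nsmul _ _ ((L j : ℝ) / (M j * m : ℕ) + 1) fun w _ => ?_).trans ?_
    · obtain ⟨ρ, hρ⟩ := hf w
      rw [hρ]
      exact (card_cl _ _ _ hp).1
    · rw [nsmul_eq_mul, hc, ← mul_prod_erase _ _ (mem_univ j), if_pos hj, mul_comm, Nat.cast_mul]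
      refine mul_le_mul_of_nonneg_left (prod_le_prod (fun _ _ => Nat.cast_nonneg _) fun i hi => ?_)
        (by positivity)
      rw [if_neg (hne i hi)]
      simpa using (card_cl (lo i) (r i) (L i) (hM i)).1
  · intro hL
    refine le_trans ?_ (card_nsmul_le_sum _ _ ((L j : ℝ) / (M j * m : ℕ) - 1) fun w _ => ?_)
    · rw [nsmul_eq_mul, hc, ← mul_prod_erase _ _ (mem_univ j), if_pos hj, mul_comm, Nat.cast_mul]
      refine mul_le_mul_of_nonneg_right (prod_le_prod (fun i hi => ?_) fun i hi => ?_) ?_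
      · have h1 := hL i
        rw [if_neg (hne i hi), mul_one] at h1
        have h2 : (0 : ℝ) < M i := by exact_mod_cast hM i
        rw [if_neg (hne i hi), sub_nonneg]
        simp only [Nat.cast_one, mul_one]
        rw [one_le_div h2]
        exact_mod_cast h1
      · rw [if_neg (hne i hi)]
        simpa using (card_cl (lo i) (r i) (L i) (hM i)).2
      · have h1 := hL j
        rw [if_pos hj] at h1
        rw [sub_nonneg, one_le_div (by exact_mod_cast hp)]
        exact_mod_cast h1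
    · obtain ⟨ρ, hρ⟩ := hf w
      rw [hρ]
      exact (card_cl _ _ _ hp).2

end Pool.Agent.MP_a43263_nt.N2

end

end PkN2Cbx

section PkN2Pha

/-! THEOREM N2, row PHA: the size of `q / φ(q)`. -/

set_option autoImplicit false

noncomputable section

namespace Pool.Agent.MP_a43263_nt.N2

open Finset Filter K2

namespace PhaA

/-- the local factor -/
def lf (p : ℕ) : ℝ := (p : ℝ) / (p - 1)

theorem one_le {p : ℕ} (hp : 2 ≤ p) : 1 ≤ lf p := by
  have : (2 : ℝ) ≤ p := by exact_mod_cast hp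
  rw [lf, le_div_iff₀ (by linarith)]
  linarith

theorem one_le_prod {S : Finset ℕ} (h : ∀ p ∈ S, p.Prime) : 1 ≤ ∏ p ∈ S, lf p :=
  prod_induction _ (fun x => 1 ≤ x) (fun _ _ => one_le_mul_of_one_le_of_one_le) le_rfl
    fun p hp => one_le (h p hp).two_le

theorem ph_eq {q : ℕ} (hq : 0 < q) : ph q = ∏ p ∈ q.primeFactors, lf p := by
  have h : (q.totient : ℝ) = q * ∏ p ∈ q.primeFactors, (1 - (p : ℝ)⁻¹) := by
    have := congrArg (fun x : ℚ => (x : ℝ)) (Nat.totient_eq_mul_prod_factors q)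
    simpa using this
  have hq' : (q : ℝ) ≠ 0 := by positivity
  rw [ph, h, div_mul_cancel_left₀ hq', ← prod_inv_distrib]
  refine prod_congr rfl fun p hp => ?_
  have : (2 : ℝ) ≤ p := by exact_mod_cast (Nat.prime_of_mem_primeFactors hp).two_le
  have h1 : (p : ℝ) - 1 ≠ 0 := by linarith
  rw [lf]
  field_simp

theorem prod_le (S : Finset ℕ) (h : ∀ p ∈ S, 2 ≤ p) : ∏ p ∈ S, lf p ≤ S.card + 1 := by
  induction S using Finset.induction_on_max with
  | empty => simp
  | insert a S ha ih =>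
    have h1 : a ∉ S := fun k => lt_irrefl _ (ha a k)
    have h2 := h a (mem_insert_self _ _)
    have h3 : S.card ≤ a - 2 := by
      rw [← Nat.card_Ico]
      exact card_le_card fun p hp => mem_Ico.2 ⟨h p (mem_insert_of_mem hp), ha p hp⟩
    have h4 : (S.card : ℝ) + 2 ≤ a := by exact_mod_cast (by omega : S.card + 2 ≤ a)
    have h5 : (0 : ℝ) ≤ S.card := Nat.cast_nonneg _
    rw [prod_insert h1, card_insert_of_notMem h1]
    refine (mul_le_mul_of_nonneg_left (ih fun p hp => h p (mem_insert_of_mem hp))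
      (zero_le_one.trans (one_le h2))).trans ?_
    rw [lf, div_mul_eq_mul_div, div_le_iff₀ (by linarith)]
    push_cast
    nlinarith

theorem ph_le {q : ℕ} (hq : 0 < q) : ph q ≤ 2 + 2 * Real.log q := by
  have h1 : 2 ^ q.primeFactors.card ≤ q :=
    (pow_card_le_prod _ _ _ fun p hp => (Nat.prime_of_mem_primeFactors hp).two_le).trans
      (Nat.le_of_dvd hq (Nat.prod_primeFactors_dvd q))
  have h2 : (2 : ℝ) ^ q.primeFactors.card ≤ q := by exact_mod_cast h1
  have h3 := Real.log_le_log (by positivity) h2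
  rw [Real.log_pow] at h3
  have h4 := Real.log_two_gt_d9
  have h5 : (0 : ℝ) ≤ q.primeFactors.card := Nat.cast_nonneg _
  have h6 := prod_le q.primeFactors fun p hp => (Nat.prime_of_mem_primeFactors hp).two_le
  rw [ph_eq hq]
  nlinarith

/-- the factors of the large primes -/
def F (z x : ℕ) : ℝ := ∏ p ∈ x.primeFactors.filter (fun p => z < p), lf p

theorem one_le_F (z x : ℕ) : 1 ≤ F z x :=
  one_le_prod fun _ hp => Nat.prime_of_mem_primeFactors (mem_filter.1 hp).1

theorem F_mul (z : ℕ) {a b : ℕ} (ha : 0 < a) (hb : 0 < b) : F z (a * b) ≤ F z a * F z b := by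
  rw [F, F, F, Nat.primeFactors_mul ha.ne' hb.ne', filter_union, ← prod_union_inter]
  refine le_mul_of_one_le_right (prod_nonneg fun p hp => zero_le_one.trans (one_le ?_))
    (one_le_prod fun p hp => Nat.prime_of_mem_primeFactors (mem_filter.1 (mem_inter.1 hp).1).1)
  rcases mem_union.1 hp with h | h <;>
    exact (Nat.prime_of_mem_primeFactors (mem_filter.1 h).1).two_le

theorem ph_split {z q : ℕ} (hq : 0 < q) (h : primorial z ∣ q) :
    ph q = ph (primorial z) * F z q := by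
  rw [ph_eq hq, ph_eq (primorial_pos z), F, mul_comm,
    ← prod_filter_mul_prod_filter_not q.primeFactors (fun p => z < p)]
  congr 2
  ext p
  simp only [mem_filter, Nat.mem_primeFactors, not_lt]
  exact ⟨fun k => ⟨k.1.1, k.1.1.dvd_primorial_iff.2 k.2, (primorial_pos z).ne'⟩,
    fun k => ⟨⟨k.1, k.2.1.trans h, hq.ne'⟩, k.1.dvd_primorial_iff.1 k.2.1⟩⟩

theorem F_le {z D t x y : ℕ} (hD : 0 < D) (ht : 0 < t) (hx : 0 < x) (hy : 0 < y)
    (h : ∀ p : ℕ, p.Prime → p ∣ D → p ≤ z) :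
    F z (D * t * (x ^ 2 * y)) ≤ F z t * (F z x * F z y) := by
  have h1 : F z D = 1 := by
    rw [F, filter_eq_empty_iff.2 fun p hp => not_lt.2
      (h p (Nat.prime_of_mem_primeFactors hp) (Nat.dvd_of_mem_primeFactors hp)), prod_empty]
  have h2 : F z (x ^ 2) = F z x := by rw [F, Nat.primeFactors_pow _ two_ne_zero, F]
  have h3 := F_mul z hD ht
  have h4 := F_mul z (pow_pos hx 2) hy
  rw [h1, one_mul] at h3
  rw [h2] at h4
  exact (F_mul z (by positivity) (by positivity)).trans (mul_le_mul h3 h4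
    (zero_le_one.trans (one_le_F _ _)) (zero_le_one.trans (one_le_F _ _)))

theorem lf_six {p : ℕ} (hp : 200 < p) : lf p ^ 6 ≤ 1 + 1 / √(p : ℝ) := by
  have h0 : (201 : ℝ) ≤ p := by exact_mod_cast hp
  have h1 : lf p = 1 + 1 / ((p : ℝ) - 1) := by
    have : (p : ℝ) - 1 ≠ 0 := by linarith
    rw [lf]
    field_simp
    ring
  have h2 : 14 ≤ √(p : ℝ) := Real.le_sqrt_of_sq_le (by linarith)
  have h3 := Real.mul_self_sqrt (show (0 : ℝ) ≤ p by linarith)
  have h4 : 7 * (1 / ((p : ℝ) - 1)) ≤ 1 / √(p : ℝ) := by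
    rw [mul_one_div, div_le_div_iff₀ (by linarith) (by linarith)]
    nlinarith
  have h5 : 1 / ((p : ℝ) - 1) ≤ 1 / 200 := one_div_le_one_div_of_le (by norm_num) (by linarith)
  have h6 : 0 ≤ 1 / ((p : ℝ) - 1) := div_nonneg zero_le_one (by linarith)
  rw [h1]
  generalize 1 / ((p : ℝ) - 1) = u at h4 h5 h6
  have h7 : (1 + u) ^ 2 ≤ 1 + 2.01 * u := by nlinarith
  have h8 : (1 + u) ^ 3 ≤ 1 + 3.1 * u := by nlinarith
  have h9 : ((1 + u) ^ 3) ^ 2 ≤ (1 + 3.1 * u) ^ 2 := pow_le_pow_left₀ (by positivity) h8 2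
  nlinarith

theorem ex_nonneg (N z x : ℕ) : 0 ≤ ex N z x := sum_nonneg fun _ _ => by positivity

theorem mem {z x : ℕ} {T : Finset ℕ} (h : T ⊆ x.primeFactors.filter fun p => z < p)
    (hT : T.Nonempty) :
    ∏ p ∈ T, p ∈ x.divisors.filter fun e => z < e ∧ e.Coprime (primorial z) := by
  obtain ⟨q, hq⟩ := hT
  have h1 : ∀ p ∈ T, p.Prime := fun p hp => Nat.prime_of_mem_primeFactors (mem_filter.1 (h hp)).1
  refine mem_filter.2 ⟨Nat.mem_divisors.2 ⟨(prod_dvd_prod_of_subset _ _ _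
    (h.trans (filter_subset _ _))).trans (Nat.prod_primeFactors_dvd x),
    (Nat.mem_primeFactors.1 (mem_filter.1 (h hq)).1).2.2⟩, (mem_filter.1 (h hq)).2.trans_le
      (Nat.le_of_dvd (prod_pos fun p hp => (h1 p hp).pos) (dvd_prod_of_mem _ hq)),
    Nat.Coprime.prod_left fun p hp => (Nat.Prime.coprime_iff_not_dvd (h1 p hp)).2 fun k =>
      absurd ((h1 p hp).dvd_primorial_iff.1 k) (mem_filter.1 (h hp)).2.not_ge⟩

theorem F_six {z : ℕ} (hz : 200 ≤ z) (x : ℕ) : F z x ^ 6 ≤ 1 + ex (primorial z) z x := by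
  have h1 : ∀ T ∈ (x.primeFactors.filter fun p => z < p).powerset.erase ∅, ∀ p ∈ T, p.Prime :=
    fun T hT p hp =>
      Nat.prime_of_mem_primeFactors (mem_filter.1 (mem_powerset.1 (mem_erase.1 hT).2 hp)).1
  rw [F, ← prod_pow]
  refine (prod_le_prod (g := fun p : ℕ => 1 + 1 / √(p : ℝ)) (fun p _ => by positivity)
    fun p hp => lf_six (hz.trans_lt (mem_filter.1 hp).2)).trans ?_
  rw [prod_one_add, ← add_sum_erase _ _ (empty_mem_powerset _), prod_empty]
  refine add_le_add_right (le_trans (le_of_eq ?_) (sum_le_sum_of_subset_of_nonneg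
    (s := ((x.primeFactors.filter fun p => z < p).powerset.erase ∅).image fun T => ∏ p ∈ T, p)
    (fun e he => ?_) fun _ _ _ => by positivity)) 1
  · rw [sum_image fun T hT T' hT' e => by
      rw [← Nat.primeFactors_prod (h1 T hT), ← Nat.primeFactors_prod (h1 T' hT')]
      exact congrArg _ e]
    refine sum_congr rfl fun T _ => ?_
    rw [Nat.cast_prod, Real.sqrt_prod _ fun p _ => Nat.cast_nonneg p, prod_div_distrib,
      prod_const_one]
  · obtain ⟨T, hT, rfl⟩ := mem_image.1 he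
    exact mem (mem_powerset.1 (mem_erase.1 hT).2) (nonempty_iff_ne_empty.2 (mem_erase.1 hT).1)

theorem six {a b c d S : ℝ} (h0 : 0 ≤ S) (ha : a ^ 6 ≤ S) (hb : b ^ 6 ≤ S) (hc : c ^ 6 ≤ S)
    (hd : d ^ 6 ≤ S) : a * (c * b) * (a * (d * b)) ≤ S := by
  refine le_of_pow_le_pow_left₀ (n := 6) (by norm_num) h0 ?_
  calc _ = a ^ 6 * a ^ 6 * (b ^ 6 * b ^ 6) * (c ^ 6 * d ^ 6) := by ring
    _ ≤ S * S * (S * S) * (S * S) := by gcongr
    _ = S ^ 6 := by ring

end PhaA

open PhaA in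
theorem pha_n : PHAStmt := by
  refine ⟨fun q hq => ⟨?_, ph_le hq⟩, fun z D t x x' y hz hD ht hx hx' hy h1 h2 => ?_⟩
  · rw [ph_eq hq]
    exact one_le_prod fun _ hp => Nat.prime_of_mem_primeFactors hp
  have h0 : 0 ≤ ph (primorial z) := by unfold ph; positivity
  have h3 : ∀ a b, primorial z ∣ D * a * b := fun a b => (h1.mul_right a).mul_right b
  rw [ph_split (by positivity) (h3 t (x ^ 2 * y)), ph_split (by positivity) (h3 t (x' ^ 2 * y))]
  refine ⟨le_mul_of_one_le_right h0 (one_le_F _ _), ?_, fun x => ?_⟩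
  · rw [mul_mul_mul_comm, ← sq]
    refine mul_le_mul_of_nonneg_left ((mul_le_mul (F_le hD ht hx hy h2) (F_le hD ht hx' hy h2)
      (zero_le_one.trans (one_le_F _ _)) (zero_le_one.trans
        ((one_le_F _ _).trans (F_le hD ht hx hy h2)))).trans ?_) (sq_nonneg _)
    have e1 := ex_nonneg (primorial z) z x
    have e2 := ex_nonneg (primorial z) z x'
    have e3 := ex_nonneg (primorial z) z y
    have e4 := ex_nonneg (primorial z) z t
    exact six (by linarith) (by linarith [F_six hz t]) (by linarith [F_six hz y])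
      (by linarith [F_six hz x]) (by linarith [F_six hz x'])
  · refine (sum_le_sum (g := fun p : ℕ => 1 / √(p : ℝ)) fun p hp => ?_).trans
      (sum_le_sum_of_subset_of_nonneg (fun p hp => ?_) fun _ _ _ => by positivity)
    · have : (1 : ℝ) ≤ p := by
        exact_mod_cast (Nat.prime_of_mem_primeFactors (mem_filter.1 hp).1).one_le
      refine one_div_le_one_div_of_le (Real.sqrt_pos.2 (by linarith)) ?_
      rw [Real.sqrt_le_iff]
      exact ⟨by linarith, by nlinarith⟩
    · simpa using mem (singleton_subset_iff.2 hp) (singleton_nonempty p)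

end Pool.Agent.MP_a43263_nt.N2

end

end PkN2Pha

section PkN2Phb

/-! The mean of the excess of the singular series. -/

set_option autoImplicit false

noncomputable section

namespace Pool.Agent.MP_a43263_nt.N2

open Finset

namespace PhbA

theorem step1 (n : ℕ) (hn : 1 ≤ n) :
    1 / √((n + 1 : ℕ) : ℝ) * (1 / ((n + 1 : ℕ) : ℝ)) ≤ 2 / √(n : ℝ) - 2 / √((n + 1 : ℕ) : ℝ) := by
  have hn0 : (0 : ℝ) < n := by exact_mod_cast hn
  have ha : 0 < √(n : ℝ) := Real.sqrt_pos.2 hn0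
  have hb : 0 < √((n + 1 : ℕ) : ℝ) := Real.sqrt_pos.2 (by positivity)
  have ea : √(n : ℝ) ^ 2 = n := Real.sq_sqrt hn0.le
  have eb : √((n + 1 : ℕ) : ℝ) ^ 2 = ((n + 1 : ℕ) : ℝ) := Real.sq_sqrt (by positivity)
  have hab : √(n : ℝ) ≤ √((n + 1 : ℕ) : ℝ) := Real.sqrt_le_sqrt (by push_cast; linarith)
  have e1 : √((n + 1 : ℕ) : ℝ) ^ 2 = √(n : ℝ) ^ 2 + 1 := by rw [ea, eb]; push_cast; ring
  nth_rewrite 2 [← eb]
  generalize √((n + 1 : ℕ) : ℝ) = b at *
  generalize √(n : ℝ) = a at *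
  have h1 : (b - a) * (a + b) = 1 := by nlinarith
  have h2 : 2 / a - 2 / b = 2 * (b - a) / (a * b) := by field_simp
  have h3 : 1 / b * (1 / b ^ 2) = 1 / b ^ 3 := by field_simp
  rw [h2, h3, div_le_div_iff₀ (by positivity) (by positivity)]
  have h4 : 1 ≤ (b - a) * (2 * b) := by nlinarith
  have h5 : a * b ≤ b ^ 2 := by nlinarith
  have h6 : 0 < b ^ 2 := by positivity
  calc 1 * (a * b) ≤ 1 * b ^ 2 := by linarith
    _ ≤ (b - a) * (2 * b) * b ^ 2 := by nlinarith
    _ = 2 * (b - a) * b ^ 3 := by ring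

theorem sum1 (z : ℕ) (hz : 1 ≤ z) (n : ℕ) (hn : z ≤ n) :
    ∑ e ∈ Ioc z n, 1 / √(e : ℝ) * (1 / (e : ℝ)) ≤ 2 / √(z : ℝ) - 2 / √(n : ℝ) := by
  induction n, hn using Nat.le_induction with
  | base => simp
  | succ n hn ih =>
    rw [sum_Ioc_succ_top hn]
    have := step1 n (hz.trans hn)
    linarith

theorem sum1' (z : ℕ) (hz : 1 ≤ z) (n : ℕ) :
    ∑ e ∈ Ioc z n, 1 / √(e : ℝ) * (1 / (e : ℝ)) ≤ 2 / √(z : ℝ) := by
  rcases le_total z n with h | h
  · have := sum1 z hz n h
    have h2 : 0 ≤ 2 / √(n : ℝ) := by positivity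
    linarith
  · rw [Ioc_eq_empty (by omega), sum_empty]
    positivity

theorem step2 (n : ℕ) : 1 / √((n + 1 : ℕ) : ℝ) ≤ 2 * √((n + 1 : ℕ) : ℝ) - 2 * √(n : ℝ) := by
  have hn0 : (0 : ℝ) ≤ n := by positivity
  have ha : 0 ≤ √(n : ℝ) := Real.sqrt_nonneg _
  have hb : 0 < √((n + 1 : ℕ) : ℝ) := Real.sqrt_pos.2 (by positivity)
  have ea : √(n : ℝ) ^ 2 = n := Real.sq_sqrt hn0
  have eb : √((n + 1 : ℕ) : ℝ) ^ 2 = ((n + 1 : ℕ) : ℝ) := Real.sq_sqrt (by positivity)
  have e1 : √((n + 1 : ℕ) : ℝ) ^ 2 = √(n : ℝ) ^ 2 + 1 := by rw [ea, eb]; push_cast; ring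
  generalize √((n + 1 : ℕ) : ℝ) = b at *
  generalize √(n : ℝ) = a at *
  rw [div_le_iff₀ hb]
  nlinarith [sq_nonneg (b - a)]

theorem sum2 (n : ℕ) : ∑ e ∈ Ioc 0 n, 1 / √(e : ℝ) ≤ 2 * √(n : ℝ) := by
  induction n with
  | zero => simp
  | succ n ih =>
    rw [sum_Ioc_succ_top (Nat.zero_le n)]
    have := step2 n
    linarith

theorem swap (N z n : ℕ) (T : Finset ℕ) (f : ℕ → ℕ) (hf : ∀ u ∈ T, 0 < f u ∧ f u ≤ n) :
    ∑ u ∈ T, ex N z (f u) = ∑ e ∈ (Ioc z n).filter (fun e => e.Coprime N),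
      1 / √(e : ℝ) * ((T.filter fun u => e ∣ f u).card : ℝ) := by
  have h1 : ∀ u ∈ T, ex N z (f u) = ∑ e ∈ (Ioc z n).filter (fun e => e.Coprime N),
      if e ∣ f u then 1 / √(e : ℝ) else 0 := by
    intro u hu
    rw [← sum_filter, ex]
    refine sum_congr ?_ fun _ _ => rfl
    ext e
    simp only [mem_filter, Nat.mem_divisors, mem_Ioc]
    constructor
    · rintro ⟨⟨h, _⟩, h2, h3⟩
      exact ⟨⟨⟨h2, (Nat.le_of_dvd (hf u hu).1 h).trans (hf u hu).2⟩, h3⟩, h⟩
    · rintro ⟨⟨⟨h2, _⟩, h3⟩, h⟩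
      exact ⟨⟨h, (hf u hu).1.ne'⟩, h2, h3⟩
  rw [sum_congr rfl h1, sum_comm]
  refine sum_congr rfl fun e _ => ?_
  rw [← sum_filter, sum_const, nsmul_eq_mul, mul_comm]

theorem card_class (U M : ℕ) (S : Finset ℕ) (hS : S ⊆ Ioc U (2 * U))
    (h : ∀ u ∈ S, ∀ u' ∈ S, u ≡ u' [MOD M]) : (S.card : ℝ) ≤ (U : ℝ) / M + 1 := by
  have h1 : S.card ≤ (range (U / M + 1)).card := by
    refine card_le_card_of_injOn (fun u => (u - U) / M) (fun u hu => ?_) fun u hu u' hu' e => ?_
    · have := mem_Ioc.1 (hS hu)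
      simp only [coe_range, Set.mem_Iio]
      exact Nat.lt_succ_of_le (Nat.div_le_div_right (by omega))
    · have a1 := mem_Ioc.1 (hS hu)
      have a2 := mem_Ioc.1 (hS hu')
      have e1 : (u - U) ≡ (u' - U) [MOD M] :=
        Nat.ModEq.sub a1.1.le a2.1.le (h u hu u' hu') (Nat.ModEq.refl U)
      have e2 : u - U = u' - U := by
        rw [← Nat.div_add_mod (u - U) M, ← Nat.div_add_mod (u' - U) M]
        have e' : (u - U) / M = (u' - U) / M := e
        rw [e', e1]
      omega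
  rw [card_range] at h1
  have h2 : ((U / M : ℕ) : ℝ) ≤ (U : ℝ) / M := Nat.cast_div_le
  have h3 : (S.card : ℝ) ≤ ((U / M + 1 : ℕ) : ℝ) := by exact_mod_cast h1
  push_cast at h3
  linarith

theorem cong (N e a s b u u' : ℕ) (h2 : 2 ∣ N) (he : e.Coprime N) (hb : b = 1 ∨ b = 2)
    (hu : u ≡ a [MOD N ^ 2]) (hu' : u' ≡ a [MOD N ^ 2]) (d : e ∣ b * u + s)
    (d' : e ∣ b * u' + s) : u ≡ u' [MOD N ^ 2 * e] := by
  have hc : (N ^ 2).Coprime e := (Nat.Coprime.pow_right 2 he).symm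
  have hbe : Nat.gcd e b = 1 := by
    rcases hb with rfl | rfl
    · simp
    · exact Nat.Coprime.coprime_dvd_right h2 he
  have e1 : b * u + s ≡ b * u' + s [MOD e] :=
    ((Nat.modEq_zero_iff_dvd).2 d).trans ((Nat.modEq_zero_iff_dvd).2 d').symm
  have e2 : b * u ≡ b * u' [MOD e] := Nat.ModEq.add_right_cancel' s e1
  have e3 : u ≡ u' [MOD e] := Nat.ModEq.cancel_left_of_coprime hbe e2
  exact (Nat.modEq_and_modEq_iff_modEq_mul hc).1 ⟨hu.trans hu'.symm, e3⟩

end PhbA

open PhbA in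
theorem phb_n : PHBStmt := by
  intro N z hN h2 hz
  have hN0 : (0 : ℝ) < N := by exact_mod_cast hN
  refine ⟨fun U a s b hU hs hb => ?_, fun L => ?_⟩
  · have hU0 : (0 : ℝ) < U := by exact_mod_cast hU
    rw [swap N z (6 * U) _ (fun u => b * u + s) (fun u hu => by
      have := mem_Ioc.1 (mem_filter.1 hu).1
      rcases hb with rfl | rfl <;> constructor <;> omega)]
    have k1 : ∀ e ∈ (Ioc z (6 * U)).filter (fun e => e.Coprime N),
        1 / √(e : ℝ) * (((((Ioc U (2 * U)).filter (fun u => u ≡ a [MOD N ^ 2])).filter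
          fun u => e ∣ b * u + s).card : ℕ) : ℝ) ≤
        1 / √(e : ℝ) * (1 / (e : ℝ)) * (U / (N : ℝ) ^ 2) + 1 / √(e : ℝ) := by
      intro e he
      have he1 := mem_Ioc.1 (mem_filter.1 he).1
      have he0 : (0 : ℝ) < e := by exact_mod_cast (show 0 < e by omega)
      have c := card_class U (N ^ 2 * e)
        (((Ioc U (2 * U)).filter (fun u => u ≡ a [MOD N ^ 2])).filter fun u => e ∣ b * u + s)
        ((filter_subset _ _).trans (filter_subset _ _)) (fun u hu u' hu' =>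
          cong N e a s b u u' h2 (mem_filter.1 he).2 hb (mem_filter.1 (mem_filter.1 hu).1).2
            (mem_filter.1 (mem_filter.1 hu').1).2 (mem_filter.1 hu).2 (mem_filter.1 hu').2)
      have p : 0 ≤ 1 / √(e : ℝ) := by positivity
      refine (mul_le_mul_of_nonneg_left c p).trans (le_of_eq ?_)
      push_cast
      field_simp
    refine (sum_le_sum k1).trans ?_
    rw [sum_add_distrib, ← sum_mul]
    have k2 : ∑ e ∈ (Ioc z (6 * U)).filter (fun e => e.Coprime N), 1 / √(e : ℝ) * (1 / (e : ℝ)) ≤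
        2 / √(z : ℝ) :=
      (sum_le_sum_of_subset_of_nonneg (filter_subset _ _) fun _ _ _ => by positivity).trans
        (sum1' z hz _)
    have k3 : ∑ e ∈ (Ioc z (6 * U)).filter (fun e => e.Coprime N), 1 / √(e : ℝ) ≤
        2 * √((6 * U : ℕ) : ℝ) :=
      (sum_le_sum_of_subset_of_nonneg ((filter_subset _ _).trans
        (Ioc_subset_Ioc_left (Nat.zero_le z))) fun _ _ _ => by positivity).trans (sum2 _)
    have k4 : √((6 * U : ℕ) : ℝ) ≤ 5 / 2 * √(U : ℝ) := by
      rw [Real.sqrt_le_left (by positivity), mul_pow, Real.sq_sqrt hU0.le]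
      push_cast
      linarith
    have k5 := mul_le_mul_of_nonneg_right k2 (show 0 ≤ U / (N : ℝ) ^ 2 by positivity)
    linarith
  · rw [swap N z L _ (fun t => t) (fun t ht => mem_Ioc.1 ht)]
    have k1 : ∀ e ∈ (Ioc z L).filter (fun e => e.Coprime N),
        1 / √(e : ℝ) * ((((Ioc 0 L).filter fun t => e ∣ t).card : ℕ) : ℝ) ≤
        1 / √(e : ℝ) * (1 / (e : ℝ)) * L := by
      intro e _
      rw [Nat.Ioc_filter_dvd_card_eq_div, mul_assoc]
      refine mul_le_mul_of_nonneg_left ?_ (by positivity)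
      rw [one_div, inv_mul_eq_div]
      exact Nat.cast_div_le
    refine (sum_le_sum k1).trans ?_
    rw [← sum_mul]
    refine mul_le_mul_of_nonneg_right ?_ (by positivity)
    exact (sum_le_sum_of_subset_of_nonneg (filter_subset _ _) fun _ _ _ => by positivity).trans
      (sum1' z hz _)

end Pool.Agent.MP_a43263_nt.N2

end

end PkN2Phb

section PkN2Shf

/-! THEOREM N2: the shift lemma with a divisibility condition. -/

set_option autoImplicit false

noncomputable section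

namespace Pool.Agent.MP_a43263_nt.N2

open Finset Filter K2

namespace ShfA

theorem abs_le_card {α : Type} (T T' : Finset α) (f : α → ℝ) {B : ℝ} (hB : 0 ≤ B)
    (h1 : ∀ x ∈ T, |f x| ≤ B) (h2 : ∀ x ∈ T, f x ≠ 0 → x ∈ T') :
    |∑ x ∈ T, f x| ≤ B * T'.card := by
  classical
  rw [← sum_filter_ne_zero]
  refine (abs_sum_le_sum_abs _ _).trans ((sum_le_card_nsmul _ _ B fun x hx =>
    h1 x (mem_filter.1 hx).1).trans ?_)
  rw [nsmul_eq_mul, mul_comm]
  exact mul_le_mul_of_nonneg_left (Nat.cast_le.2 (card_le_card fun x hx =>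
    h2 x (mem_filter.1 hx).1 (mem_filter.1 hx).2)) hB

theorem wl {α : Type} [AddCommGroup α] [DecidableEq α] {K : Finset α} (τ : α) {G : α → ℝ} {B : ℝ}
    (P : α → Prop) [DecidablePred P] (hB : 0 ≤ B) (h1 : ∀ x ∈ K, |G x| ≤ B)
    (h2 : ∀ x ∈ K, |G (x + τ)| ≤ B) (hP : ∀ x, G x ≠ 0 → P x) :
    |∑ x ∈ K, G (x + τ) - ∑ x ∈ K, G x| ≤
      B * (K.filter fun x => x + τ ∉ K ∧ P (x + τ)).card +
        B * (K.filter fun x => x + -τ ∉ K ∧ P (x + 0)).card := by
  have e1 := sum_filter_add_sum_filter_not K (fun x => x + τ ∈ K) fun x => G (x + τ)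
  have e2 := sum_filter_add_sum_filter_not K (fun x => x + -τ ∈ K) G
  have e3 : ∑ x ∈ K.filter (fun x => x + τ ∈ K), G (x + τ) =
      ∑ x ∈ K.filter (fun x => x + -τ ∈ K), G x :=
    sum_bij' (fun x _ => x + τ) (fun x _ => x + -τ)
      (fun x hx => mem_filter.2 ⟨(mem_filter.1 hx).2, by simpa using (mem_filter.1 hx).1⟩)
      (fun x hx => mem_filter.2 ⟨(mem_filter.1 hx).2, by simpa using (mem_filter.1 hx).1⟩)
      (fun x _ => by simp) (fun x _ => by simp) fun _ _ => rfl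
  have b1 := abs_le_card (K.filter fun x => x + τ ∉ K) (K.filter fun x => x + τ ∉ K ∧ P (x + τ))
    (fun x => G (x + τ)) hB (fun x hx => h2 x (mem_filter.1 hx).1) fun x hx h =>
      mem_filter.2 ⟨(mem_filter.1 hx).1, (mem_filter.1 hx).2, hP _ h⟩
  have b2 := abs_le_card (K.filter fun x => x + -τ ∉ K) (K.filter fun x => x + -τ ∉ K ∧ P (x + 0))
    G hB (fun x hx => h1 x (mem_filter.1 hx).1) fun x hx h =>
      mem_filter.2 ⟨(mem_filter.1 hx).1, (mem_filter.1 hx).2, by rw [add_zero]; exact hP _ h⟩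
  have e6 : ∑ x ∈ K, G (x + τ) - ∑ x ∈ K, G x =
      ∑ x ∈ K.filter (fun x => x + τ ∉ K), G (x + τ) -
        ∑ x ∈ K.filter (fun x => x + -τ ∉ K), G x := by linarith
  rw [e6]
  exact (abs_sub _ _).trans (add_le_add b1 b2)

theorem sum_xp (g : ℕ) : ∑ i : Fin (2 * g + 1), xp g i.1 = (2 * g + 1) ^ 2 := by
  have h : ∀ n : ℕ, ∑ i ∈ range n, 2 * (i + 1) = n * (n + 1) := fun n => by
    induction n with
    | zero => rfl
    | succ n ih => rw [sum_range_succ, ih]; ring
  rw [Fin.sum_univ_eq_sum_range (xp g), sum_range_succ,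
    sum_congr (g := fun i => 2 * (i + 1)) rfl fun i hi => by
      rw [xp, if_neg (mem_range.1 hi).ne], h, xp,
    if_pos rfl]
  ring

theorem two_le_xp {g : ℕ} (hg : 1 ≤ g) (i : ℕ) : 2 ≤ xp g i := by
  unfold xp
  split_ifs <;> omega

/-- the points of a box with the divisibility -/
def bs {g : ℕ} (lo : Vec g) (L : Fin (2 * g + 1) → ℕ) (m u v : ℕ) : Finset (Vec g) :=
  (Fintype.piFinset fun i => Icc (lo i) (lo i + L i)).filter fun w => (m : ℤ) ∣ Gv w u v

theorem fac {L a x y m : ℝ} (hL : L ≤ 2 * (a * x)) (hm : m ≤ a * x) (hy : 0 < y) (hy' : y ≤ m) :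
    L / y + 1 ≤ 3 * x * a * (1 / y) := by
  rw [div_add_one hy.ne', mul_one_div]
  exact div_le_div_of_nonneg_right (by linarith) hy.le

theorem box (cbx : CBXStmt) {g k m u v : ℕ} {δ : ℝ} (hg : 1 ≤ g) (hk : 1 ≤ k) (hm : 0 < m)
    (hc : m.Coprime (u * v)) (h1 : (m : ℝ) ≤ δ * (k : ℝ) ^ 2) (hδ : δ ≤ 1) (lo : Vec g)
    (L : Fin (2 * g + 1) → ℕ) (j : Fin (2 * g + 1))
    (hL : ∀ i, (L i : ℝ) ≤ 2 * ((if i = j then δ else 1) * (k : ℝ) ^ xp g i.1)) :
    ((bs lo L m u v).card : ℝ) ≤ 3 ^ (2 * g + 1) * δ * vol g k / m := by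
  have hm' : (1 : ℝ) ≤ m := by exact_mod_cast hm
  have hk' : (1 : ℝ) ≤ k := by exact_mod_cast hk
  have h0 : 0 ≤ δ := by
    by_contra hc
    have : δ * (k : ℝ) ^ 2 ≤ 0 := mul_nonpos_of_nonpos_of_nonneg (not_le.1 hc).le (by positivity)
    linarith
  have h2 : ∀ i : Fin (2 * g + 1), (m : ℝ) ≤ (if i = j then δ else 1) * (k : ℝ) ^ xp g i.1 :=
    fun i => h1.trans (mul_le_mul (by split_ifs; exacts [le_rfl, hδ])
      (pow_le_pow_right₀ hk' (two_le_xp hg _)) (by positivity) (by split_ifs; exacts [h0, zero_le_one]))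
  refine (cbx g lo 0 L (fun _ => 1) m u v hg (fun _ => one_pos) hm hc
    (fun _ _ => Nat.coprime_one_right _) (bs lo L m u v) fun w => by
      simp [bs, Fintype.mem_piFinset]).1.trans ?_
  refine (prod_le_prod (g := fun i : Fin (2 * g + 1) => 3 * (k : ℝ) ^ xp g i.1 *
    (if i = j then δ else 1) * (if i = ⟨2 * g - 1, by omega⟩ then 1 / (m : ℝ) else 1))
    (fun i _ => by positivity) fun i _ => ?_).trans (le_of_eq ?_)
  · by_cases e : i.1 + 1 = 2 * g
    · have e' : i = ⟨2 * g - 1, by omega⟩ := Fin.ext (by simp only; omega)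
      rw [if_pos e, if_pos e', Nat.cast_one, one_mul]
      exact fac (hL i) (h2 i) (by linarith) le_rfl
    · have e' : ¬i = ⟨2 * g - 1, by omega⟩ := fun c => e (by rw [c]; simp only; omega)
      rw [if_neg e, if_neg e']
      simpa using fac (hL i) (h2 i) one_pos hm'
  · rw [prod_mul_distrib, prod_mul_distrib, prod_mul_distrib, prod_const, card_univ,
      Fintype.card_fin, prod_pow_eq_pow_sum, sum_xp, prod_ite_eq', prod_ite_eq',
      if_pos (mem_univ _), if_pos (mem_univ _), vol]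
    ring

theorem strip (cbx : CBXStmt) {g k m u v : ℕ} {δ : ℝ} (hg : 1 ≤ g) (hk : 1 ≤ k) (hm : 0 < m)
    (hc : m.Coprime (u * v)) (h1 : (m : ℝ) ≤ δ * (k : ℝ) ^ 2) (hδ : δ ≤ 1) (τ ρ : Vec g)
    (h : ∀ i, |(τ i : ℝ)| ≤ δ * (k : ℝ) ^ xp g i.1) :
    (((bx g k).filter fun x => x + τ ∉ bx g k ∧ (m : ℤ) ∣ Gv (x + ρ) u v).card : ℝ) ≤
      2 * (2 * g + 1) * (3 ^ (2 * g + 1) * δ * vol g k / m) := by
  let L : Fin (2 * g + 1) → Fin (2 * g + 1) → ℕ := fun j i =>
    if i = j then (τ i).natAbs else 2 * k ^ xp g i.1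
  let lo : Fin (2 * g + 1) × Bool → Vec g := fun z i =>
    (if i = z.1 ∧ z.2 = true then ce g k i.1 + (k : ℤ) ^ xp g i.1 - (τ i).natAbs
      else ce g k i.1 - (k : ℤ) ^ xp g i.1) + ρ i
  have hL : ∀ j i, (L j i : ℝ) ≤ 2 * ((if i = j then δ else 1) * (k : ℝ) ^ xp g i.1) :=
    fun j i => by
      simp only [L]
      split_ifs
      · have a := h i
        have b := abs_nonneg (τ i : ℝ)
        rw [Nat.cast_natAbs, Int.cast_abs]
        linarith
      · push_cast
        rw [one_mul]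
  have sub : ((bx g k).filter fun x => x + τ ∉ bx g k ∧ (m : ℤ) ∣ Gv (x + ρ) u v).card ≤
      (univ.biUnion fun z : Fin (2 * g + 1) × Bool => bs (lo z) (L z.1) m u v).card := by
    refine card_le_card_of_injOn (fun x => x + ρ) (fun c hc => ?_) (add_left_injective ρ).injOn
    obtain ⟨a1, a2, a3⟩ := mem_filter.1 (mem_coe.1 hc)
    rw [mem_bx] at a1 a2
    obtain ⟨j, hj⟩ := not_forall.1 a2
    rw [Pi.add_apply] at hj
    refine mem_coe.2 (mem_biUnion.2 ⟨(j, decide (0 ≤ τ j)), mem_univ _, mem_filter.2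
      ⟨Fintype.mem_piFinset.2 fun i => mem_Icc.2 ?_, a3⟩⟩)
    have a4 := a1 i
    simp only [lo, L, Pi.add_apply, decide_eq_true_eq]
    by_cases e : i = j
    · subst e
      simp only [true_and, if_true]
      split_ifs <;> omega
    · simp only [e, false_and, if_false]
      push_cast
      omega
  refine (Nat.cast_le.2 (sub.trans card_biUnion_le)).trans ?_
  rw [Nat.cast_sum]
  refine (sum_le_card_nsmul _ _ _ fun z _ => box cbx hg hk hm hc h1 hδ (lo z) (L z.1) z.1
    (hL z.1)).trans (le_of_eq ?_)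
  rw [card_univ, Fintype.card_prod, Fintype.card_fin, Fintype.card_bool, nsmul_eq_mul]
  push_cast
  ring

end ShfA

open ShfA in
theorem shf_n : CBXStmt → SHStmt := by
  intro cbx g hg
  refine ⟨4 * (2 * g + 1) * 3 ^ (2 * g + 1), by positivity,
    fun k K m u v σ F B δ hk hm hc hB h1 hδ hσ hF hP => ?_⟩
  rw [sum_comm, ← nsmul_eq_mul, ← nsmul_eq_mul, ← card_range K, ← sum_const, card_range,
    ← sum_sub_distrib]
  refine (abs_sum_le_sum_abs _ _).trans ((sum_le_card_nsmul _ _ _ fun i hi => ?_).trans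
    (by rw [card_range]))
  have hi := mem_range.1 hi
  have h0 : ∀ w ∈ bx g k, |F w| ≤ B := fun w hw => by simpa using hF w hw 0 (by omega)
  refine (wl ((i : ℤ) • σ) (fun w => (m : ℤ) ∣ Gv w u v) hB h0 (fun w hw => hF w hw i hi)
    hP).trans ?_
  have ht : ∀ j, |((((i : ℤ) • σ) j : ℤ) : ℝ)| ≤ δ * (k : ℝ) ^ xp g j.1 := fun j => le_trans (by
    rw [Pi.smul_apply, smul_eq_mul, Int.cast_mul, abs_mul, Int.cast_natCast, Nat.abs_cast]
    exact mul_le_mul_of_nonneg_right (Nat.cast_le.2 hi.le) (abs_nonneg _)) (hσ j)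
  have s1 := mul_le_mul_of_nonneg_left
    (strip cbx hg hk hm hc h1 hδ ((i : ℤ) • σ) ((i : ℤ) • σ) ht) hB
  have s2 := mul_le_mul_of_nonneg_left
    (strip cbx hg hk hm hc h1 hδ (-((i : ℤ) • σ)) 0 fun j => by
      rw [Pi.neg_apply, Int.cast_neg, abs_neg]; exact ht j) hB
  refine (add_le_add s1 s2).trans (le_of_eq ?_)
  ring

end Pool.Agent.MP_a43263_nt.N2

end

end PkN2Shf
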