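import Pool.Agent.MP_a43263_nt.K2.Spec

/-! Packed rows. -/

section PkK2Adm

/-! Row ADM: zero blocks forced by the dyadic boxes. -/

set_option autoImplicit false

noncomputable section

namespace Pool.Agent.MP_a43263_nt.K2

open Polynomial Finset Filter Matrix JC Pool.Agent.MP_a43263_nt.UV

namespace AdmA

variable {n : ℕ}

/-- zero on the rows up to `n - 1 - a` and the columns below `a` -/
def Zs (a : ℕ) (M : UC.Mz n) : Prop := ∀ j i : Fin n, a ≤ (Fin.rev j).1 → i.1 < a → M j i = 0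

/-- keeps the span of the first `a` basis vectors -/
def Ps (a : ℕ) (T : UC.Mz n) : Prop := ∀ i' i : Fin n, ¬ i'.1 < a → i.1 < a → T i' i = 0

theorem blk {A T : UC.Mz n} (hA : A.det ≠ 0) {a : ℕ} (h1 : Zs a A) (h2 : Zs a (A * T)) :
    Ps a T := by
  have hdet : (A.map (Int.castRingHom ℚ)).det ≠ 0 := by
    have h := RingHom.map_det (Int.castRingHom ℚ) A
    rw [RingHom.mapMatrix_apply] at h
    rw [← h]
    simpa using hA
  have hb := UC.IrrX.block (A.map (Int.castRingHom ℚ)) (T.map (Int.castRingHom ℚ)) hdet a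
    (fun j i hj hi => by simp [h1 j i hj hi])
    (fun j i hj hi => by
      rw [← Matrix.map_mul]
      simp only [Matrix.map_apply, h2 j i hj hi, map_zero])
  intro i' i h h'
  simpa using hb i' i h h'

theorem mul_zero_entry {a : ℕ} {B M : UC.Mz n} (hM : Ps a M) {j i : Fin n} (hi : i.1 < a)
    (hB : ∀ l : Fin n, l.1 < a → B j l = 0) : (B * M) j i = 0 := by
  rw [Matrix.mul_apply]
  refine Finset.sum_eq_zero fun l _ => ?_
  by_cases hl : l.1 < a
  · rw [hB l hl, zero_mul]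
  · rw [hM l i hl hi, mul_zero]

theorem no_block {N : UC.Mz n} (hN : N.det ≠ 0) (p : Fin n)
    (h : ∀ j i : Fin n, j ≤ p → i ≤ Fin.rev p → N j i = 0) : False := by
  have hp := p.2
  have hr : (Fin.rev p).1 = n - (p.1 + 1) := Fin.val_rev p
  by_cases h0 : (Fin.rev p).1 = 0
  · refine hN (Matrix.det_eq_zero_of_column_eq_zero (Fin.rev p) fun j => h j _ ?_ le_rfl)
    have := j.2
    exact Fin.le_def.2 (by omega)
  · have hle : ∀ j : Fin n, (Fin.rev p).1 ≤ (Fin.rev j).1 → j ≤ p := fun j hj => by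
      have := j.2
      have h2 : (Fin.rev j).1 = n - (j.1 + 1) := Fin.val_rev j
      exact Fin.le_def.2 (by omega)
    have hb : Ps (Fin.rev p).1 (Matrix.of fun i' _ : Fin n => if i' = Fin.rev p then 1 else 0) :=
      blk hN (fun j i hj hi => h j i (hle j hj) (Fin.le_def.2 hi.le)) fun j i hj _ => by
        simpa [Matrix.mul_apply] using h j _ (hle j hj) le_rfl
    have := hb (Fin.rev p) ⟨0, by omega⟩ (lt_irrefl _) (Nat.pos_of_ne_zero h0)
    simp at this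

theorem zero2 {b : ℤ} {e e' : Fin n → ℤ} {N : UC.Mz n} (h : Box2 b e e' N) {p q : Fin n}
    (hn : b + e' p + e q < 0) : N p q = 0 := by
  have h1 : |(N p q : ℝ)| < 1 := (h p q).trans_lt (zpow_lt_one_of_neg₀ one_lt_two hn)
  have h2 : |N p q| < 1 := by exact_mod_cast h1
  exact Int.abs_lt_one_iff.1 h2

theorem box_tr {b : ℤ} {e e' : Fin n → ℤ} {N : UC.Mz n} (h : Box2 b e e' N) :
    Box2 b e' e Nᵀ := fun p q => by
  have := h q p
  rwa [add_right_comm] at this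

theorem half {b : ℤ} {e e' : Fin n → ℤ} {N : UC.Mz n} (hN : N.det ≠ 0) (hE : UC.Ex e)
    (hE' : UC.Ex e') (h : Box2 b e e' N) (p : Fin n) : e p - e' p ≤ b := by
  by_contra hc
  refine no_block hN p fun j i hj hi => zero2 h ?_
  have h1 := hE'.1 hj
  have h2 := hE.1 hi
  rw [hE.2] at h2
  omega

theorem neg_le {e : Fin n → ℤ} (hE : UC.Ex e) {q j : Fin n} (hj : q.1 ≤ (Fin.rev j).1) :
    e j ≤ -e q := by
  have h2 : e q ≤ e (Fin.rev j) := hE.1 (show q ≤ Fin.rev j from hj)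
  rw [hE.2] at h2
  omega

theorem inv_ps {A' N : UC.Mz n} (hA : IsUnit A'.det) {a : ℕ} (h1 : Zs a A') (h2 : Zs a N) :
    Ps a (A'⁻¹ * N) :=
  blk hA.ne_zero h1 (by rwa [← Matrix.mul_assoc, Matrix.mul_nonsing_inv _ hA, Matrix.one_mul])

theorem deep {g κ k : ℕ} {A A' N T : Mat g ℤ} {e e' : Fin (2 * g + 1) → ℤ} (hA : IsUnit A'.det)
    (hN : N.det ≠ 0) (hT : A * T = A - Nᵀ * A'⁻¹ * N) (hE : UC.Ex e) (hE' : UC.Ex e')
    (b : UC.Box κ e A) (b' : UC.Box κ e' A') (b2 : Box2 k e e' N) (hD : Dp (k + κ) e) :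
    Zb A T := by
  have hD' : ∀ i : Fin (2 * g + 1), i.1 < g → (k : ℤ) + κ + e i < 0 := fun i hi => by
    have := hD ⟨i.1, hi⟩
    push_cast at this
    exact this
  have hm : ∀ j : Fin (2 * g + 1), j.1 ≤ g → e' j ≤ 0 := fun j hj => by
    have h1 : e' j ≤ e' (Fin.rev j) := hE'.1 (Fin.le_def.2 (by rw [Fin.val_rev]; omega))
    rw [hE'.2] at h1
    omega
  have hr : ∀ j : Fin (2 * g + 1), g ≤ (Fin.rev j).1 → j.1 ≤ g := fun j hj => by
    rw [Fin.val_rev] at hj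
    have := j.2
    omega
  have c1 := half (by rwa [Matrix.det_transpose]) hE' hE (box_tr b2)
  have zN : ∀ j i : Fin (2 * g + 1), j.1 ≤ g → i.1 < g → N j i = 0 := fun j i hj hi =>
    zero2 b2 (by have := hD' i hi; have := hm j hj; omega)
  have hM : Ps g (A'⁻¹ * N) := inv_ps hA
    (fun j i hj hi => UC.IrrX.zero_of_box b'
      (by have := hD' i hi; have := hm j (hr j hj); have := c1 i; omega))
    fun j i hj hi => zN j i (hr j hj) hi
  intro i j
  have hA0 : A (UC.lo i) (UC.lo j) = 0 := UC.IrrX.zero_of_box b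
    (by have := hD' (UC.lo i) i.2; have := hD' (UC.lo j) j.2; omega)
  refine ⟨hA0, ?_⟩
  rw [hT, Matrix.sub_apply, hA0, Matrix.mul_assoc,
    mul_zero_entry hM (show (UC.lo j).1 < g from j.2) fun l hl => zN l _ hl.le i.2, sub_zero]

end AdmA

open AdmA

theorem adm_k : CHGStmt → ADMStmt := by
  intro chg g κ k f m A A' N e e' _ t hI hm hE hE' b b' b2 hZ
  obtain ⟨t', -, hT⟩ := chg.2.2.1 _ f m A A' N t
  obtain ⟨-, -, hT'⟩ := chg.2.2.1 _ f m A' A Nᵀ t'
  have hN : N.det ≠ 0 := t.dt ▸ hm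
  have hN' : Nᵀ.det ≠ 0 := by rwa [Matrix.det_transpose]
  have c1 := half hN hE hE' b2
  have c1' := half hN' hE' hE (box_tr b2)
  refine ⟨⟨hE, hE', fun p => ?_, fun p q hq => ?_,
    fun hD => hZ (deep t.det hN' hT' hE' hE b' b (box_tr b2) hD)⟩,
    deep t.det' hN hT hE hE' b b' b2⟩
  · have := c1 p
    have := c1' p
    push_cast
    exact abs_le.2 ⟨by omega, by omega⟩
  · by_contra hc
    rw [not_or, not_le, not_le] at hc
    obtain ⟨h1, h2⟩ := hc
    push_cast at h1 h2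
    have hp : ∀ i : Fin (2 * g + 1), i.1 < q.1 → i ≤ p := fun i hi => Fin.le_def.2 (by omega)
    have zA : Zs q.1 A := fun j i hj hi => UC.IrrX.zero_of_box b (by
      have := neg_le hE hj; have := hE.1 (hp i hi); have := c1 p; omega)
    have zA' : Zs q.1 A' := fun j i hj hi => UC.IrrX.zero_of_box b' (by
      have := neg_le hE' hj; have := hE'.1 (hp i hi); have := c1' p; omega)
    have zN : Zs q.1 N := fun j i hj hi => zero2 b2 (by
      have := neg_le hE' hj; have := hE.1 (hp i hi); omega)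
    have zN' : Zs q.1 Nᵀ := fun j i hj hi => zero2 (box_tr b2) (by
      have := neg_le hE hj; have := hE'.1 (hp i hi); omega)
    have hM := inv_ps t.det' zA' zN
    have hP : Ps q.1 (Tt A A' N) := blk t.det.ne_zero zA fun j i hj hi => by
      rw [hT, Matrix.sub_apply, zA j i hj hi, Matrix.mul_assoc,
        mul_zero_entry hM hi fun l hl => zN' j l hj hl, sub_zero]
    refine UC.IrrX.not_irr ((Tt A A' N).map (Int.castRingHom ℚ)) (fun i => i.1 < q.1)
      (fun i' i h h' => by simp [hP i' i h h']) p q (by omega) (lt_irrefl _) ?_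
    rw [Matrix.charpoly_map, t.ch]
    exact hI

end Pool.Agent.MP_a43263_nt.K2

end

end PkK2Adm

section PkK2Base

/-! THEOREM R2: a member of the family with prescribed types at the auxiliary primes. -/

set_option autoImplicit false

noncomputable section

namespace Pool.Agent.MP_a43263_nt.K2

open Polynomial Finset Filter Matrix JC Pool.Agent.MP_a43263_nt.UV

namespace BaseA

variable {g : ℕ}

/-- every target with a square value at one is a reduction -/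
theorem tgt (l : ℕ) [Fact l.Prime] {t : (ZMod l)[X]} (h1 : t.Monic) (h2 : t.natDegree = 2 * g + 1)
    {m : ZMod l} (hm : t.eval 1 = m * m) :
    ∃ w : Vec g, zK (f1 w) (ZMod l) = t ∧ (w (Fin.last _) : ZMod l) = m := by
  have s1 : (t.comp (X + C 1)).Monic := h1.comp_X_add_C 1
  have s2 : (t.comp (X + C 1)).natDegree = 2 * g + 1 := by
    rw [natDegree_comp, natDegree_X_add_C, mul_one, h2]
  have s3 := Beta.pc_surj s1 s2
  obtain ⟨w, hw⟩ := Irr.lift (n := 2 * g + 1) (r := l) fun i =>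
    if i.1 = 2 * g then m else (t.comp (X + C 1)).coeff (2 * g + 1 - 1 - i.1)
  refine ⟨w, ?_, (congrFun hw _).trans (if_pos rfl)⟩
  have e : zK (pc (sv w)) (ZMod l) = t.comp (X + C 1) := by
    rw [Irr.zK_pc, ← s3]
    congr 1
    funext i
    have := congrFun hw i
    by_cases c : i.1 = 2 * g
    · rw [if_pos c] at this
      rw [sv, if_pos c, Int.cast_pow, this, c, show 2 * g + 1 - 1 - 2 * g = 0 by omega,
        coeff_zero_eq_eval_zero, eval_comp, sq, ← hm]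
      simp
    · rw [if_neg c] at this
      rw [sv, if_neg c, this]
  rw [zK] at e
  rw [zK, f1, map_comp, e, comp_assoc]
  simp

theorem crt {M q : ℕ} (hc : M.Coprime q) (w w' : Vec g) : ∃ z : Vec g,
    (∀ r, r ∣ M → ∀ i, (z i : ZMod r) = w i) ∧ ∀ i, (z i : ZMod q) = w' i := by
  obtain ⟨a, b, hab⟩ := Nat.isCoprime_iff_coprime.2 hc
  refine ⟨fun i => w i * (b * q) + w' i * (a * M), fun r hr i => ?_, fun i => ?_⟩
  · have e1 : (M : ZMod r) = 0 := (ZMod.natCast_eq_zero_iff M r).2 hr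
    have e2 := congrArg (Int.cast : ℤ → ZMod r) hab
    push_cast at e2 ⊢
    rw [e1, mul_zero, zero_add] at e2
    rw [e1, e2, mul_zero, mul_zero, mul_one, add_zero]
  · have e2 := congrArg (Int.cast : ℤ → ZMod q) hab
    push_cast at e2 ⊢
    rw [ZMod.natCast_self, mul_zero, add_zero] at e2
    rw [ZMod.natCast_self, e2, mul_zero, mul_zero, mul_one, zero_add]

theorem tz (irk : IRRStmt) (hg : 1 ≤ g) (p : ℕ) [Fact p.Prime] (c : ZMod p) (h2 : p ≠ 2) :
    ∃ w : Vec g, Tz p c (f1 w) := by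
  obtain ⟨h, k1, k2, k3, k4⟩ := (irk g hg).1 p c h2
  obtain ⟨w, e, -⟩ := tgt (g := g) p ((monic_X_sub_C 1).mul k1) (by
    rw [(monic_X_sub_C 1).natDegree_mul k1, natDegree_X_sub_C, k2, add_comm]) (m := 0) (by simp)
  exact ⟨w, h, by rw [e, C_1], k3, k4⟩

end BaseA

open BaseA in
theorem base_k : TRNStmt → IRRStmt → BASEStmt := by
  intro trn irk g q₀ N hg
  have cg : ∀ (q : ℕ) {w w' : Vec g}, (∀ i, (w i : ZMod q) = w' i) →
      zK (f1 w) (ZMod q) = zK (f1 w') (ZMod q) := fun q w w' h =>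
    (trn g w hg).2.2.2.2.2.2.1 q w' h
  induction N with
  | zero =>
    have : Fact (Nat.Prime 5) := ⟨by norm_num⟩
    obtain ⟨h, h1, h2, h3⟩ := (UV.irr 2 (2 * g + 1) (by omega)).1
    have sq2 : ∀ x : ZMod 2, x = x * x := by decide
    obtain ⟨w2, e2, -⟩ := tgt 2 h1 h2 (sq2 _)
    obtain ⟨w3, e3⟩ := tz irk hg 3 1 (by norm_num)
    obtain ⟨w5, e5⟩ := tz irk hg 5 0 (by norm_num)
    obtain ⟨y, y2, y3⟩ := crt (M := 2) (q := 3) (by norm_num) w2 w3
    obtain ⟨z, z6, z5⟩ := crt (M := 6) (q := 5) (by norm_num) y w5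
    refine ⟨∅, z, rfl, ?_, ?_, ?_, by simp⟩
    · rwa [cg 2 (z6 2 (by norm_num)), cg 2 (y2 2 dvd_rfl), e2]
    · rwa [Tz, cg 3 (z6 3 (by norm_num)), cg 3 y3]
    · rwa [Tz, cg 5 z5]
  | succ N ih =>
    obtain ⟨Q, w, h1, h2, h3, h5, hQ'⟩ := ih
    obtain ⟨q₁, hq₁⟩ := (irk g hg).2
    obtain ⟨q, hq, hlt, hm⟩ := Nat.exists_prime_gt_modEq_one (k := 8) (q₀ + q₁ + Q.sup id + 5)
      (by norm_num)
    have := Fact.mk hq
    have hQ : ∀ r ∈ Q, r < q := fun r hr => by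
      have : r ≤ Q.sup id := le_sup (f := id) hr
      omega
    obtain ⟨h, k1, k2, k3, k4, m, k5⟩ := hq₁ q (by omega)
    have m0 : m ≠ 0 := fun e => by
      have := degree_eq_one_of_irreducible_of_root k3 (x := 1) (by rw [IsRoot, k5, e, mul_zero])
      have := natDegree_eq_of_degree_eq_some (n := 1) this
      omega
    obtain ⟨w', e, e'⟩ := tgt (g := g) q (monic_X.mul k1) (by
      rw [monic_X.natDegree_mul k1, natDegree_X, k2, add_comm]) (m := m) (by simpa using k5)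
    have hc : (2 * 3 * 5 * ∏ r ∈ Q, r).Coprime q :=
      Nat.Coprime.mul_left (Nat.Coprime.mul_left (Nat.Coprime.mul_left
        ((Nat.coprime_primes Nat.prime_two hq).2 (by omega))
        ((Nat.coprime_primes Nat.prime_three hq).2 (by omega)))
        ((Nat.coprime_primes Nat.prime_five hq).2 (by omega)))
        (Nat.Coprime.prod_left fun r hr => (Nat.coprime_primes (hQ' r hr).1 hq).2 (hQ r hr).ne)
    obtain ⟨z, z1, z2⟩ := crt hc w w'
    refine ⟨insert q Q, z, ?_, ?_, ?_, ?_, fun r hr => ?_⟩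
    · rw [card_insert_of_notMem fun m => (hQ q m).false, h1]
    · rwa [cg 2 (z1 2 (Dvd.dvd.mul_right (by norm_num) _))]
    · rwa [Tz, cg 3 (z1 3 (Dvd.dvd.mul_right (by norm_num) _))]
    · rwa [Tz, cg 5 (z1 5 (Dvd.dvd.mul_right (by norm_num) _))]
    · rcases mem_insert.1 hr with rfl | hr
      · refine ⟨hq, hm, by omega, ⟨h, by rw [cg r z2, e], k3, k4⟩, fun c => m0 ?_⟩
        rw [← e', ← z2]
        exact (ZMod.intCast_zmod_eq_zero_iff_dvd _ _).2 c
      · obtain ⟨l1, l2, l3, l4, l5⟩ := hQ' r hr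
        have z3 := z1 r ((dvd_prod_of_mem _ hr).mul_left _)
        refine ⟨l1, l2, l3, by rwa [Ty, cg r z3], fun c => l5 ?_⟩
        rw [← ZMod.intCast_zmod_eq_zero_iff_dvd, ← z3]
        exact (ZMod.intCast_zmod_eq_zero_iff_dvd _ _).2 c

end Pool.Agent.MP_a43263_nt.K2

end

end PkK2Base

section PkK2Beta

/-! THEOREM R2: the density of the polynomials that are not maximal. -/

set_option autoImplicit false

noncomputable section

namespace Pool.Agent.MP_a43263_nt.K2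

open Polynomial Finset Filter Matrix JC Pool.Agent.MP_a43263_nt.UV

namespace BetaA

theorem pc_init {m : ℕ} (c : Fin (m + 1) → ℤ) :
    pc c = X * pc (Fin.init c) + C (c (Fin.last m)) := by
  rw [pc, pc, Fin.sum_univ_castSucc, mul_add, mul_sum, ← pow_succ', add_assoc]
  congr 2
  · refine sum_congr rfl fun i _ => ?_
    have := i.2
    rw [Fin.val_castSucc, show m + 1 - 1 - i.1 = m - 1 - i.1 + 1 by omega, Fin.init]
    ring
  · simp

/-- a simple root at zero can be removed -/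
theorem nx_div {p : ℕ} (hp : p.Prime) {h : ℤ[X]} {m : ℤ} (hm : (p : ℤ) ∣ m)
    (h0 : ¬(p : ℤ) ∣ h.eval 0) (hx : Nx p (X * h + C (m ^ 2))) : Nx p h := by
  obtain ⟨φ, a, b, c, h1, h2, h3⟩ := hx
  obtain ⟨m, rfl⟩ := hm
  have h4 : ¬(p : ℤ) ∣ φ.eval 0 := fun ⟨t, ht⟩ => h0 (by
    have := congrArg (fun f => (derivative f).eval 0) h3
    simp only [derivative_add, derivative_mul, derivative_X, derivative_C, derivative_pow, eval_add,
      eval_mul, eval_X, eval_C, eval_pow, eval_one, eval_zero, ht] at this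
    exact ⟨2 * t * eval 0 (derivative φ) * eval 0 a + p * t ^ 2 * eval 0 (derivative a) +
      eval 0 (derivative φ) * eval 0 b + p * t * eval 0 (derivative b) + p * eval 0 (derivative c),
      by linear_combination this⟩)
  obtain ⟨r, s, e⟩ : IsCoprime (φ.eval 0) (p : ℤ) :=
    ((Nat.prime_iff_prime_int.1 hp).irreducible.coprime_iff_not_dvd.2 h4).symm
  have e1 : C r * C (φ.eval 0) + C s * C (p : ℤ) = 1 := by rw [← C_mul, ← C_mul, ← C_add, e, C_1]
  have e2 := X_mul_divX_add φ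
  rw [coeff_zero_eq_eval_zero] at e2
  obtain ⟨Y, hY⟩ : ∃ Y, X * Y + (C r * φ + C s * C (p : ℤ)) = 1 :=
    ⟨-C r * φ.divX, by linear_combination e1 - C r * e2⟩
  obtain ⟨Z, hZ⟩ : ∃ Z, X * Z + (C r * φ + C s * C (p : ℤ)) ^ 2 = 1 :=
    ⟨X * Y ^ 2 + 2 * Y * (C r * φ + C s * C (p : ℤ)), by
      linear_combination (X * Y + (C r * φ + C s * C (p : ℤ)) + 1) * hY⟩
  rw [C_pow, C_mul] at h3
  exact ⟨φ, a * Z + h * C r ^ 2, b * Z + 2 * h * C r * C s, (c - C m ^ 2) * Z + h * C s ^ 2, h1, h2,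
    by linear_combination Z * h3 - h * hZ⟩

/-- the multiples of `p` -/
def Mp (p : ℕ) : Set (ZMod (p ^ 2)) := {y | ∃ m : ℤ, (p : ℤ) ∣ m ∧ (m : ZMod (p ^ 2)) = y}

theorem mp_le {p : ℕ} (hp : 0 < p) : (Mp p).ncard ≤ p := by
  have : Mp p ⊆ (fun t : Fin p => (p : ZMod (p ^ 2)) * t.1) '' Set.univ := by
    rintro _ ⟨_, ⟨m, rfl⟩, rfl⟩
    obtain ⟨t, w, e⟩ := Beta.lift hp (m : ZMod (p ^ 2))
    have hpp : (p : ZMod (p ^ 2)) ^ 2 = 0 := by rw [← Nat.cast_pow, ZMod.natCast_self]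
    refine ⟨t, trivial, ?_⟩
    push_cast
    linear_combination -(p : ZMod (p ^ 2)) * e - w * hpp
  refine (Set.ncard_le_ncard this (Set.toFinite _)).trans ((Set.ncard_image_le).trans ?_)
  simp

theorem dd_le {p m : ℕ} (hp : 0 < p) (i : Fin (m + 1)) :
    {y : Fin (m + 1) → ZMod (p ^ 2) | y i ∈ Mp p}.ncard ≤ p * (p ^ 2) ^ m := by
  have : NeZero (p ^ 2) := ⟨by positivity⟩
  refine (Set.ncard_le_ncard_of_injOn (t := Mp p ×ˢ Set.univ)
    (Fin.insertNthEquiv (fun _ => ZMod (p ^ 2)) i).symm ?_ (Equiv.injective _).injOn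
    (Set.toFinite _)).trans ?_
  · exact fun y hy => ⟨hy, trivial⟩
  rw [Set.ncard_prod, Set.ncard_univ, Nat.card_eq_fintype_card, Fintype.card_fun, ZMod.card,
    Fintype.card_fin]
  exact Nat.mul_le_mul_right _ (mp_le hp)

theorem sq_eq {p : ℕ} (hp : p.Prime) (h2 : p ≠ 2) {m m' : ℤ} (hm : ¬(p : ℤ) ∣ m)
    (h : (m : ZMod (p ^ 2)) ^ 2 = (m' : ZMod (p ^ 2)) ^ 2) :
    (m : ZMod (p ^ 2)) = m' ∨ (m : ZMod (p ^ 2)) = -m' := by
  have hq := Nat.prime_iff_prime_int.1 hp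
  have e : ((p : ℤ) ^ 2) ∣ (m - m') * (m + m') := by
    have := (ZMod.intCast_zmod_eq_zero_iff_dvd ((m - m') * (m + m')) (p ^ 2)).1 (by
      push_cast; linear_combination h)
    exact_mod_cast this
  have z : ∀ x : ℤ, (p : ℤ) ^ 2 ∣ x → (x : ZMod (p ^ 2)) = 0 := fun x hx =>
    (ZMod.intCast_zmod_eq_zero_iff_dvd x (p ^ 2)).2 (by exact_mod_cast hx)
  by_cases a : (p : ℤ) ∣ m + m'
  · have b : ¬(p : ℤ) ∣ m - m' := fun b => by
      have := a.add b
      rw [show m + m' + (m - m') = 2 * m by ring] at this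
      exact (hq.dvd_or_dvd this).elim (fun c => h2 ((Nat.prime_dvd_prime_iff_eq hp Nat.prime_two).1
        (by exact_mod_cast c))) hm
    have := z _ (hq.pow_dvd_of_dvd_mul_left 2 b e)
    push_cast at this
    exact .inr (by linear_combination this)
  · have := z _ (hq.pow_dvd_of_dvd_mul_right 2 a e)
    push_cast at this
    exact .inl (by linear_combination this)

/-- the set of the old count -/
def Bo (n p : ℕ) : Set (Fin n → ZMod (p ^ 2)) :=
  {x | ∃ c : Fin n → ℤ, (fun i => (c i : ZMod (p ^ 2))) = x ∧ Nx p (pc c)}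

variable {g p : ℕ}

theorem sv_last {R : Type} [CommRing R] (w : Fin (2 * g + 1) → R) :
    sv w (Fin.last _) = w (Fin.last _) ^ 2 := if_pos rfl

theorem sv_init {R : Type} [CommRing R] (w : Fin (2 * g + 1) → R) :
    Fin.init (sv w) = Fin.init w := funext fun i => if_neg i.2.ne

theorem unit_le (hp : p.Prime) (h2 : p ≠ 2) :
    {x : Fin (2 * g + 1) → ZMod (p ^ 2) | ∃ w : Vec g, (fun i => (w i : ZMod (p ^ 2))) = x ∧
      Nx p (pc (sv w)) ∧ ¬(p : ℤ) ∣ w (Fin.last _)}.ncard ≤ (Bo (2 * g + 1) p).ncard * 2 := by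
  have : NeZero (p ^ 2) := ⟨pow_ne_zero _ hp.ne_zero⟩
  refine (Set.ncard_le_ncard_of_injOn (t := Bo (2 * g + 1) p ×ˢ (Set.univ : Set Bool))
    (fun x => (sv x, decide ((x (Fin.last _)).val < (-x (Fin.last _)).val))) ?_ ?_
    (Set.toFinite _)).trans (by simp [Set.ncard_prod])
  · rintro _ ⟨w, rfl, h, -⟩
    refine ⟨⟨sv w, funext fun i => ?_, h⟩, trivial⟩
    simp only [sv]
    split_ifs <;> simp
  · rintro _ ⟨w, rfl, -, h⟩ _ ⟨w', rfl, -, -⟩ e
    obtain ⟨e1, e2⟩ := Prod.ext_iff.1 e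
    have e3 := congrArg Fin.init e1
    have e4 := congrFun e1 (Fin.last _)
    simp only [sv_init, sv_last] at e3 e4
    rw [← Fin.snoc_init_self (fun i => (w i : ZMod (p ^ 2))),
      ← Fin.snoc_init_self (fun i => (w' i : ZMod (p ^ 2))), e3]
    congr 1
    refine (sq_eq hp h2 h e4).elim id fun e5 => ?_
    simp only [e5, neg_neg, decide_eq_decide] at e2
    rw [e5]
    exact ZMod.val_injective _ (by omega)

theorem rest_le (hp : p.Prime) (i : Fin (2 * g)) (hi : i.1 + 1 = 2 * g) :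
    {x : Fin (2 * g + 1) → ZMod (p ^ 2) | ∃ w : Vec g, (fun i => (w i : ZMod (p ^ 2))) = x ∧
      Nx p (pc (sv w)) ∧ (p : ℤ) ∣ w (Fin.last _)}.ncard ≤
      ({y : Fin (2 * g) → ZMod (p ^ 2) | y i ∈ Mp p}.ncard + (Bo (2 * g) p).ncard) * p := by
  have : NeZero (p ^ 2) := ⟨pow_ne_zero _ hp.ne_zero⟩
  refine (Set.ncard_le_ncard_of_injOn (t := ({y | y i ∈ Mp p} ∪ Bo (2 * g) p) ×ˢ Mp p)
    (fun x => (Fin.init x, x (Fin.last _))) ?_ (fun x _ y _ e => ?_) (Set.toFinite _)).trans ?_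
  · rintro _ ⟨w, rfl, h, h'⟩
    refine ⟨?_, _, h', rfl⟩
    by_cases a : (p : ℤ) ∣ Fin.init w i
    · exact .inl ⟨_, a, rfl⟩
    · rw [pc_init, sv_init, sv_last] at h
      refine .inr ⟨Fin.init w, rfl, nx_div hp h' ?_ h⟩
      rwa [← coeff_zero_eq_eval_zero, ← show 2 * g - 1 - i.1 = 0 by omega, Beta.pc_coeff]
  · obtain ⟨e1, e2⟩ := Prod.ext_iff.1 e
    rw [← Fin.snoc_init_self x, ← Fin.snoc_init_self y]
    exact congrArg₂ _ e1 e2
  · rw [Set.ncard_prod]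
    exact Nat.mul_le_mul (Set.ncard_union_le _ _) (mp_le hp.pos)

end BetaA

open BetaA in
theorem beta_k : TRNStmt → BETAStmt := by
  intro trn g p hg hp h2
  have : NeZero (p ^ 2) := ⟨pow_ne_zero _ hp.ne_zero⟩
  obtain ⟨g, rfl⟩ := Nat.exists_eq_add_one_of_ne_zero (Nat.one_le_iff_ne_zero.1 hg)
  have b1 : ((Bo (2 * (g + 1) + 1) p).ncard : ℝ) ≤ _ := beta root _ p hp
  have b2 : ((Bo (2 * (g + 1)) p).ncard : ℝ) ≤ _ := beta root _ p hp
  have b3 := dd_le (m := 2 * g + 1) hp.pos (Fin.last _)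
  have b4 := (Set.ncard_union_le _ _).trans (Nat.add_le_add (unit_le (g := g + 1) hp h2)
    ((rest_le (g := g + 1) hp (Fin.last (2 * g + 1)) rfl).trans
      (Nat.mul_le_mul_right _ (Nat.add_le_add_right b3 _))))
  refine le_trans (Nat.cast_le.2 ((Set.ncard_le_ncard ?_ (Set.toFinite _)).trans b4)) ?_
  · rintro _ ⟨w, rfl, h⟩
    rw [(trn _ w hg).2.2.2.2.1] at h
    by_cases a : (p : ℤ) ∣ w (Fin.last _)
    exacts [.inr ⟨w, rfl, h, a⟩, .inl ⟨w, rfl, h, a⟩]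
  have h1 : (1 : ℝ) < p := by exact_mod_cast hp.one_lt
  have h3 : (0 : ℝ) < (p : ℝ) ^ 2 - 1 := by nlinarith
  obtain ⟨A, hA⟩ : ∃ A : ℝ, A = (p : ℝ) ^ (2 * (2 * (g + 1))) := ⟨_, rfl⟩
  have a0 : 0 < A := by rw [hA]; positivity
  have e1 : (p : ℝ) ^ (2 * (2 * (g + 1) + 1)) = A * p ^ 2 := by rw [hA]; ring
  have e2 : (p : ℝ) * (p ^ 2) ^ (2 * g + 1) * p = A := by rw [hA]; ring
  rw [e1] at b1 ⊢
  rw [← hA] at b2
  push_cast
  rw [add_mul, e2]
  have c1 : A ≤ A * p ^ 2 / (p ^ 2 - 1) := by rw [le_div_iff₀ h3]; nlinarith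
  have c2 : A / (p ^ 2 - 1) * p ≤ A * p ^ 2 / (p ^ 2 - 1) := by
    rw [div_mul_eq_mul_div]
    gcongr
    nlinarith
  have c3 := mul_le_mul_of_nonneg_right b2 (zero_le_one.trans h1.le)
  rw [mul_div_assoc 4]
  linarith

end Pool.Agent.MP_a43263_nt.K2

end

end PkK2Beta

section PkK2Box

/-! THEOREM R2: triples in boxes. -/

set_option autoImplicit false

noncomputable section

namespace Pool.Agent.MP_a43263_nt.K2

open Polynomial Finset Filter Matrix JC Pool.Agent.MP_a43263_nt.UV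

namespace BoxA

variable {n : ℕ}

theorem sym (a : ℕ) (e : Fin n → ℤ) : ∃ W : Finset (UC.Mz n),
    (∀ A : UC.Mz n, A.IsSymm → UC.Box a e A → A ∈ W) ∧ (W.card : ℝ) ≤
      3 ^ (UC.up n).card * ((2 ^ (UC.up n).card) ^ a *
        (2 : ℝ) ^ (∑ x ∈ UC.up n, max (e x.1 + e x.2) 0)) := by
  obtain ⟨W, h1, h2⟩ := UC.box n a e
  refine ⟨W, h1, h2.trans (mul_le_mul_of_nonneg_left ?_ (by positivity))⟩
  rw [← pow_mul, ← zpow_natCast, ← zpow_add₀ two_ne_zero, mul_comm _ a]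
  exact zpow_le_zpow_right₀ one_le_two (UC.Abs.sum_shift a e)

theorem prd (t : Fin n → Fin n → ℤ) :
    ∏ p, ∏ q, 3 * (2 : ℝ) ^ t p q = 3 ^ (n * n) * (2 : ℝ) ^ (∑ p, ∑ q, t p q) := by
  simp only [prod_mul_distrib, prod_const, card_univ, Fintype.card_fin, UC.Chg.two_zpow, ← pow_mul]

theorem full (b : ℤ) (e e' : Fin n → ℤ) : ∃ W : Finset (UC.Mz n),
    (∀ N : UC.Mz n, Box2 b e e' N → N ∈ W) ∧
      (W.card : ℝ) ≤ 3 ^ (n * n) * (2 : ℝ) ^ (∑ p, ∑ q, max (b + e' p + e q) 0) := by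
  refine ⟨Fintype.piFinset fun p => Fintype.piFinset fun q =>
    Icc (-⌊(2 : ℝ) ^ (b + e' p + e q)⌋) ⌊(2 : ℝ) ^ (b + e' p + e q)⌋, fun N hN =>
      Fintype.mem_piFinset.2 fun p => Fintype.mem_piFinset.2 fun q => ?_, ?_⟩
  · refine mem_Icc.2 (abs_le.1 (Int.le_floor.2 ?_))
    rw [Int.cast_abs]
    exact hN _ _
  · refine ((congrArg Nat.cast (Fintype.card_piFinset _)).trans_le ?_).trans_eq (prd _)
    simp only [Fintype.card_piFinset, Nat.cast_prod]
    exact prod_le_prod (fun _ _ => prod_nonneg fun _ _ => Nat.cast_nonneg _) fun p _ =>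
      prod_le_prod (fun _ _ => Nat.cast_nonneg _) fun q _ => UC.Chg.card_le _

theorem nset (b : ℤ) (e e' : Fin n → ℤ) (L : UC.Mz n → UC.Mz n → UC.Mz n → Prop) (μ : ℝ) (N₀ : ℕ)
    (hμ : 0 ≤ μ) (h : μ = 1 ∨ Dens2 L μ N₀ ∧ ∀ p q, (N₀ : ℤ) ≤ b + e' p + e q) (A A' : UC.Mz n) :
    ∃ W : Finset (UC.Mz n), (∀ (f : ℤ[X]) (m : ℤ) (N : UC.Mz n), Tri f m A A' N → L A A' N →
      Box2 b e e' N → N ∈ W) ∧
      (W.card : ℝ) ≤ μ * (3 ^ (n * n) * (2 : ℝ) ^ (∑ p, ∑ q, max (b + e' p + e q) 0)) := by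
  rcases h with rfl | ⟨hD, hN⟩
  · obtain ⟨W, h1, h2⟩ := full b e e'
    exact ⟨W, fun _ _ N _ _ => h1 N, by rwa [one_mul]⟩
  by_cases h : A.IsSymm ∧ A'.IsSymm ∧ IsUnit A.det ∧ IsUnit A'.det
  · have h0 : ∀ p q, (0 : ℤ) ≤ b + e' p + e q := fun p q => (Int.natCast_nonneg N₀).trans (hN p q)
    have hY : ∀ p q, ((2 ^ (b + e' p + e q).toNat : ℕ) : ℝ) = (2 : ℝ) ^ (b + e' p + e q) :=
      fun p q => by
        push_cast
        rw [← zpow_natCast, Int.toNat_of_nonneg (h0 p q)]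
    obtain ⟨W, h1, h2⟩ := hD A A' h.1 h.2.1 h.2.2.1 h.2.2.2
      (fun p q => 2 ^ (b + e' p + e q).toNat) fun p q =>
        Nat.lt_two_pow_self.le.trans (Nat.pow_le_pow_right (by norm_num) (by have := hN p q; omega))
    refine ⟨W, fun _ _ N _ l k => h1 N l fun p q => ?_, h2.trans_eq ?_⟩
    · have := k p q
      rw [← hY] at this
      exact_mod_cast this
    · simp only [hY, prd, max_eq_left (h0 _ _)]
  · refine ⟨∅, fun _ _ _ t => (h ⟨t.sa, t.sa', t.det, t.det'⟩).elim, ?_⟩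
    simp only [card_empty, Nat.cast_zero]
    positivity

end BoxA

open BoxA in
theorem box_k : BOXStmt := by
  classical
  intro n
  refine ⟨3 ^ (n * n) * 3 ^ (UC.up n).card * 3 ^ (UC.up n).card *
    (2 ^ (UC.up n).card * 2 ^ (UC.up n).card), by positivity, fun a b e e' L μ N₀ hμ h => ?_⟩
  obtain ⟨W₁, h1, h1'⟩ := sym a e
  obtain ⟨W₂, h2, h2'⟩ := sym a e'
  choose WN h3 h3' using nset b e e' L μ N₀ hμ h
  refine ⟨(W₁ ×ˢ W₂).biUnion fun x => (WN x.1 x.2).image fun N => (x.1, x.2, N),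
    fun f m A A' N t l b1 b2 b3 => mem_biUnion.2 ⟨(A, A'), mem_product.2 ⟨h1 _ t.sa b1,
      h2 _ t.sa' b2⟩, mem_image.2 ⟨N, h3 A A' f m N t l b3, rfl⟩⟩, ?_⟩
  refine (Nat.cast_le.2 card_biUnion_le).trans ?_
  rw [Nat.cast_sum]
  refine (sum_le_sum fun x _ => (Nat.cast_le.2 card_image_le).trans (h3' x.1 x.2)).trans ?_
  rw [sum_const, card_product, nsmul_eq_mul, Nat.cast_mul, zpow_add₀ two_ne_zero,
    zpow_add₀ two_ne_zero]
  refine (mul_le_mul_of_nonneg_right (mul_le_mul h1' h2' (Nat.cast_nonneg _) (by positivity))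
    (by positivity)).trans ?_
  have k1 : (1 : ℝ) ≤ 3 ^ (n * n) * 3 ^ (UC.up n).card * 3 ^ (UC.up n).card :=
    one_le_mul_of_one_le_of_one_le (one_le_mul_of_one_le_of_one_le (one_le_pow₀ (by norm_num))
      (one_le_pow₀ (by norm_num))) (one_le_pow₀ (by norm_num))
  have k2 : (1 : ℝ) ≤ 2 ^ (UC.up n).card * 2 ^ (UC.up n).card :=
    one_le_mul_of_one_le_of_one_le (one_le_pow₀ one_le_two) (one_le_pow₀ one_le_two)
  have k3 := mul_le_mul (le_self_pow₀ k1 a.succ_ne_zero) (pow_le_pow_right₀ k2 a.le_succ)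
    (by positivity) (by positivity)
  rw [← mul_pow _ _ a.succ] at k3
  refine le_trans (le_of_eq ?_) (mul_le_mul_of_nonneg_right (mul_le_mul_of_nonneg_left k3 hμ)
    (by positivity))
  rw [mul_pow]
  generalize ((2 : ℝ) ^ (UC.up n).card) ^ a = u
  generalize (3 : ℝ) ^ (UC.up n).card = v
  generalize (3 : ℝ) ^ (n * n) = w
  ring

end Pool.Agent.MP_a43263_nt.K2

end

end PkK2Box

section PkK2Chg

/-! THEOREM R2: change of basis for triples. -/

set_option autoImplicit false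

noncomputable section

namespace Pool.Agent.MP_a43263_nt.K2

open Polynomial Finset Filter Matrix JC Pool.Agent.MP_a43263_nt.UV

namespace ChgA

variable {n : ℕ}

theorem one (A A' N γ γ' β : UC.Mz n) (h : γ * γ' = 1) (hβ : IsUnit β.det) :
    Tt (γᵀ * A * γ) (βᵀ * A' * β) (βᵀ * N * γ) = γ' * Tt A A' N * γ := by
  have u : IsUnit γ.det := isUnit_det_of_right_inverse h
  have e1 : ∀ M : UC.Mz n, γᵀ⁻¹ * (γᵀ * M) = M :=
    fun M => nonsing_inv_mul_cancel_left _ M (isUnit_det_transpose _ u)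
  have e2 : ∀ M : UC.Mz n, βᵀ⁻¹ * (βᵀ * M) = M :=
    fun M => nonsing_inv_mul_cancel_left _ M (isUnit_det_transpose _ hβ)
  have e3 : ∀ M : UC.Mz n, β * (β⁻¹ * M) = M := fun M => mul_nonsing_inv_cancel_left _ M hβ
  simp only [Tt, Matrix.mul_inv_rev, transpose_mul, transpose_transpose, Matrix.mul_assoc, e1, e2,
    e3, inv_eq_right_inv h, Matrix.mul_sub, Matrix.sub_mul, Matrix.one_mul, mul_eq_one_comm.1 h]

theorem swp (P Q : UC.Mz n) : (1 - P * Q).charpoly = (1 - Q * P).charpoly := by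
  have e : ∀ M : UC.Mz n, 1 - M = -M - scalar (Fin n) (-1) := fun M => by
    rw [map_neg, map_one]; abel
  rw [e, e, charpoly_sub_scalar, charpoly_sub_scalar, ← Matrix.neg_mul, charpoly_mul_comm,
    Matrix.mul_neg]

theorem inv1 {γ : UC.Mz n} (h : γ.det = 1) : γ * γ⁻¹ = 1 := mul_nonsing_inv _ (h ▸ isUnit_one)

theorem det3 {γ β : UC.Mz n} (h : γ.det = 1) (k : β.det = 1) (N : UC.Mz n) :
    (βᵀ * N * γ).det = N.det := by
  rw [det_mul, det_mul, det_transpose, h, k, one_mul, mul_one]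

end ChgA

open ChgA UC.Chg in
theorem chg_k : CHGStmt := by
  refine ⟨fun n A A' N γ γ' β _ _ h k => one A A' N γ γ' β h k,
    fun n f m A A' N γ β _ _ h k t => ⟨symm t.sa, symm t.sa', ?_, ?_, ?_, ?_⟩,
    fun n f m A A' N t => ?_, fun g Q f₀ m₀ A A' N γ β _ _ h k L q hq => ?_⟩
  · rw [det3 h h]; exact t.det
  · rw [det3 k k]; exact t.det'
  · rw [det3 h k]; exact t.dt
  · rw [one A A' N γ _ β (inv1 h) (k ▸ isUnit_one), chp (inv1 h)]; exact t.ch
  · have e : A * Tt A A' N = A - Nᵀ * A'⁻¹ * N := by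
      simp only [Tt, Matrix.mul_sub, Matrix.mul_one, Matrix.mul_assoc,
        mul_nonsing_inv_cancel_left _ _ t.det]
    refine ⟨⟨t.sa', t.sa, t.det', t.det, (det_transpose N).trans t.dt, ?_⟩, ⟨t.sa, t.det, ?_⟩, e⟩
    · rw [← t.ch, Tt, Tt, transpose_transpose, Matrix.mul_assoc (A'⁻¹ * N), swp,
        Matrix.mul_assoc (A⁻¹ * Nᵀ)]
    · rw [e]
      exact t.sa.sub (symm t.sa'.inv)
  · obtain ⟨⟨T, c0, c, x, s, s0, x1, x2⟩, d⟩ := L q hq
    refine ⟨?_, by rwa [det3 h k]⟩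
    have h' : mK γ (ZMod q) * mK γ⁻¹ (ZMod q) = 1 := by
      rw [← mK_mul, inv1 h]
      exact Matrix.map_one _ (map_zero _) (map_one _)
    rw [one A A' N γ _ β (inv1 h) (k ▸ isUnit_one), mul1 (inv1 h)]
    simp only [mK_mul _ γ, mK_mul γᵀ, mK_transpose]
    refine ⟨mK γ⁻¹ (ZMod q) * T * mK γ (ZMod q), by rw [mul1 h', c0], (chp h').trans c,
      mK γ⁻¹ (ZMod q) *ᵥ x, s, s0, ?_, ?_⟩
    · rw [mulVec_mulVec, Matrix.mul_assoc, h', Matrix.mul_one, ← mulVec_mulVec, x1, mulVec_zero]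
    · rw [form, mulVec_mulVec, h', one_mulVec, x2]

end Pool.Agent.MP_a43263_nt.K2

end

end PkK2Chg

section PkK2Core

/-! THEOREM R2: the count for reduced representatives. -/

set_option autoImplicit false

noncomputable section

namespace Pool.Agent.MP_a43263_nt.K2

open Polynomial Finset Filter Matrix JC Pool.Agent.MP_a43263_nt.UV

namespace CoreA

theorem ex0 {g : ℕ} {e : Fin (2 * g + 1) → ℤ} (h : UC.Ex e) : 0 ≤ -e 0 := by
  have h1 := h.2 0
  have h2 := h.1 (Fin.zero_le (Fin.rev 0))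
  omega

theorem shift {n : ℕ} (b : ℤ) (k c : ℕ) (hb : b ≤ k) (e e' : Fin n → ℤ) :
    ∑ p, ∑ q, max (b + c + e' p + e q) 0 ≤
      (c * n ^ 2 : ℕ) + ∑ p, ∑ q, max ((k : ℤ) + e' p + e q) 0 := by
  have : ((c * n ^ 2 : ℕ) : ℤ) = ∑ _p : Fin n, ∑ _q : Fin n, (c : ℤ) := by
    simp only [sum_const, card_univ, Fintype.card_fin, nsmul_eq_mul]
    push_cast
    ring
  rw [this, ← sum_add_distrib]
  refine sum_le_sum fun p _ => ?_
  rw [← sum_add_distrib]
  exact sum_le_sum fun q _ => by omega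

/-- from a bound on the number of triples to a bound on the number of polynomials -/
theorem fin_bound {n : ℕ} (b : ℤ) (k c : ℕ) (hb : b ≤ k) (e e' : Fin n → ℤ) (ν s w : ℝ)
    (hν : 0 ≤ ν)
    (h1 : s * (2 : ℝ) ^ (∑ x ∈ UC.sup n, (e x.2 - e x.1) + ∑ x ∈ UC.sup n, (e' x.2 - e' x.1)) ≤ w)
    (h2 : w ≤ ν * (2 : ℝ) ^ (∑ p, ∑ q, max (b + c + e' p + e q) 0 +
      ∑ x ∈ UC.up n, max (e x.1 + e x.2) 0 + ∑ x ∈ UC.up n, max (e' x.1 + e' x.2) 0)) :
    s ≤ ν * 2 ^ (c * n ^ 2) * (2 : ℝ) ^ Phi2 k e e' := by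
  have hp : (0 : ℝ) < (2 : ℝ) ^ (∑ x ∈ UC.sup n, (e x.2 - e x.1) +
    ∑ x ∈ UC.sup n, (e' x.2 - e' x.1)) := by positivity
  refine le_of_mul_le_mul_right (h1.trans (h2.trans ?_)) hp
  rw [mul_assoc, mul_assoc, ← zpow_natCast, ← zpow_add₀ (by norm_num), ← zpow_add₀ (by norm_num)]
  refine mul_le_mul_of_nonneg_left (zpow_le_zpow_right₀ (by norm_num) ?_) hν
  have := shift b k c hb e e'
  simp only [Phi2, wt]
  omega

/-- one class of types -/
theorem cls {τ : Type} (E : Finset τ) (w : τ → ℝ) (Φ G : τ → ℤ) (ν B : ℝ) (D : ℕ) (hν : 0 ≤ ν)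
    (h1 : ∀ x ∈ E, w x ≤ ν * (2 : ℝ) ^ Φ x) (h2 : ∀ x ∈ E, Φ x ≤ (D : ℤ) - G x)
    (h3 : ∑ x ∈ E, (2 : ℝ) ^ (-G x) ≤ B) : ∑ x ∈ E, w x ≤ ν * 2 ^ D * B := by
  refine le_trans ?_ (mul_le_mul_of_nonneg_left h3 (by positivity))
  rw [mul_sum]
  refine sum_le_sum fun x hx => (h1 x hx).trans ?_
  rw [mul_assoc, ← zpow_natCast, ← zpow_add₀ (by norm_num), ← sub_eq_add_neg]
  exact mul_le_mul_of_nonneg_left (zpow_le_zpow_right₀ (by norm_num) (h2 x hx)) hν

end CoreA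

open CoreA in
theorem core_k : ADMStmt → UNIStmt → BOXStmt → EXPStmt → SUMStmt → COREStmt := by
  intro hA hU hB hE hS g κ hg
  classical
  obtain ⟨c, hc⟩ := hU (2 * g + 1)
  obtain ⟨cB, hcB, hB⟩ := hB (2 * g + 1)
  obtain ⟨C1, hC1, hS⟩ := hS g hg
  set K0 : ℝ := cB ^ (κ + c + 1) * 2 ^ (c * (2 * g + 1) ^ 2) with hK0
  have hK0p : 0 < K0 := by positivity
  refine ⟨K0 * C1 * (2 ^ (κ + κ)) ^ (2 * g + 1) ^ 2, by positivity,
    fun L μ N₀ hL hμ hD s s₂ k hk S hSf => ?_⟩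
  set k' : ℕ := κ + k + κ with hk'
  have hrep : ∀ x : ℤ[X] × ℤ, ∃ y : (Fin (2 * g + 1) → ℤ) × (Fin (2 * g + 1) → ℤ), x ∈ S →
      Adm2 k' y.1 y.2 ∧ (Dp k' y.1 → s₂ ≠ 0 → (2 * s₂ : ℤ) ≤ dp k' y.1) ∧
      UC.Irr x.1 ∧ x.2 ≠ 0 ∧ ∃ A A' N : UC.Mz (2 * g + 1), Tri x.1 x.2 A A' N ∧ L A A' N ∧
        UC.Box κ y.1 A ∧ UC.Box κ y.2 A' ∧ Box2 ((κ : ℤ) + k) y.1 y.2 N := by
    intro x
    by_cases hx : x ∈ S
    · obtain ⟨h1, h2, e, e', A, A', N, x1, x2, hT, hl, b1, b2, b3, nz, hz⟩ := hSf x hx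
      obtain ⟨a1, a2⟩ := hA g κ (κ + k) x.1 x.2 A A' N e e' hg hT h1 h2 x1 x2 b1 b2
        (by rwa [Nat.cast_add]) nz
      refine ⟨(e, e'), fun _ => ⟨a1, fun d h0 => (hz (a2 d) h0).trans ?_, h1, h2, A, A', N, hT, hl,
        b1, b2, b3⟩⟩
      have h5 : 2 * k * UC.tri g ≤ 2 * k' * UC.tri g := Nat.mul_le_mul_right _ (by omega)
      simp only [dp]
      omega
    · exact ⟨0, fun h => absurd h hx⟩
  choose ef hef using hrep
  set E := S.image ef with hEdef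
  have hE1 : ∀ y ∈ E, Adm2 k' y.1 y.2 := by
    intro y hy
    obtain ⟨x, hx, rfl⟩ := mem_image.1 hy
    exact (hef x hx).1
  have hE2 : ∀ y ∈ E, Dp k' y.1 → (2 * s₂ : ℤ) ≤ dp k' y.1 := by
    intro y hy hd
    by_cases h0 : s₂ = 0
    · rw [h0]
      simpa using (hS k' E hE1).2.1 y hy
    obtain ⟨x, hx, rfl⟩ := mem_image.1 hy
    exact (hef x hx).2.1 hd h0
  set w : (Fin (2 * g + 1) → ℤ) × (Fin (2 * g + 1) → ℤ) → ℝ :=
    fun y => ((S.filter fun x => ef x = y).card : ℝ) with hw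
  have hfib : ∀ y ∈ E, ∀ ν : ℝ, 0 ≤ ν →
      (ν = 1 ∨ Dens2 L ν N₀ ∧ ∀ p q, (N₀ : ℤ) ≤ (κ : ℤ) + k + c + y.2 p + y.1 q) →
      w y ≤ ν * K0 * (2 : ℝ) ^ Phi2 k' y.1 y.2 := by
    intro y hy ν hν h
    obtain ⟨W, hW, hW'⟩ := hB (κ + c) ((κ : ℤ) + k + c) y.1 y.2 L ν N₀ hν h
    rw [Nat.cast_add] at hW
    have h1 := hc κ ((κ : ℤ) + k) y.1 y.2 L hL (hE1 y hy).ex.1 (hE1 y hy).ex'.1
      (S.filter fun x => ef x = y) W (fun x hx => by
        obtain ⟨hx', rfl⟩ := mem_filter.1 hx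
        exact (hef x hx').2.2) hW
    have := fin_bound ((κ : ℤ) + k) k' c (by rw [hk']; push_cast; omega) y.1 y.2 _ _ _
      (by positivity) h1 hW'
    rwa [mul_assoc ν] at this
  have htot : (S.card : ℝ) = ∑ y ∈ E, w y := by
    rw [card_eq_sum_card_image ef S]; push_cast; rfl
  have s1 := cls (E.filter fun y => Dp k' y.1) w (fun y => Phi2 k' y.1 y.2) (fun y => dp k' y.1)
    (1 * K0) _ (k' * (2 * g + 1) ^ 2) (by positivity)
    (fun y hy => hfib y (mem_filter.1 hy).1 1 zero_le_one (Or.inl rfl))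
    (fun y hy => (hE g k' _ _ hg (hE1 y (mem_filter.1 hy).1)).2 (mem_filter.1 hy).2)
    ((hS k' _ fun y hy => hE1 y (mem_filter.1 hy).1).2.2 s₂
      fun y hy => hE2 y (mem_filter.1 hy).1 (mem_filter.1 hy).2)
  have s2 := cls ((E.filter fun y => ¬Dp k' y.1).filter fun y => (2 * s : ℤ) ≤ gn k' y.1 y.2) w
    (fun y => Phi2 k' y.1 y.2) (fun y => gn k' y.1 y.2)
    (1 * K0) _ (k' * (2 * g + 1) ^ 2) (by positivity)
    (fun y hy => hfib y (mem_filter.1 (mem_filter.1 hy).1).1 1 zero_le_one (Or.inl rfl))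
    (fun y hy => (hE g k' _ _ hg (hE1 y (mem_filter.1 (mem_filter.1 hy).1).1)).1
      (mem_filter.1 (mem_filter.1 hy).1).2)
    ((hS k' _ fun y hy => hE1 y (mem_filter.1 (mem_filter.1 hy).1).1).1 s
      fun y hy => (mem_filter.1 hy).2)
  have s3 := cls ((E.filter fun y => ¬Dp k' y.1).filter fun y => ¬(2 * s : ℤ) ≤ gn k' y.1 y.2) w
    (fun y => Phi2 k' y.1 y.2) (fun y => gn k' y.1 y.2)
    (μ * K0) _ (k' * (2 * g + 1) ^ 2) (by positivity)
    (fun y hy => hfib y (mem_filter.1 (mem_filter.1 hy).1).1 μ hμ (Or.inr ⟨hD, fun p q => by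
      have a := hE1 y (mem_filter.1 (mem_filter.1 hy).1).1
      have h0 := (mem_filter.1 hy).2
      have h1 : y.2 0 ≤ y.2 p := a.ex'.1 (Fin.zero_le p)
      have h2 : y.1 0 ≤ y.1 q := a.ex.1 (Fin.zero_le q)
      simp only [gn] at h0
      omega⟩))
    (fun y hy => (hE g k' _ _ hg (hE1 y (mem_filter.1 (mem_filter.1 hy).1).1)).1
      (mem_filter.1 (mem_filter.1 hy).1).2)
    ((hS k' _ fun y hy => hE1 y (mem_filter.1 (mem_filter.1 hy).1).1).1 0 fun y hy => by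
      have := ex0 (hE1 y (mem_filter.1 (mem_filter.1 hy).1).1).ex
      simp only [gn]
      omega)
  have hPX : (2 : ℝ) ^ (k' * (2 * g + 1) ^ 2) =
      (2 ^ (κ + κ)) ^ (2 * g + 1) ^ 2 * ((2 : ℝ) ^ k) ^ (2 * g + 1) ^ 2 := by
    rw [pow_mul, ← mul_pow, ← pow_add, show κ + κ + k = k' by omega]
  rw [htot, ← sum_filter_add_sum_filter_not E (fun y => Dp k' y.1),
    ← sum_filter_add_sum_filter_not (E.filter fun y => ¬Dp k' y.1)
      (fun y => (2 * s : ℤ) ≤ gn k' y.1 y.2)]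
  refine (add_le_add s1 (add_le_add s2 s3)).trans (le_of_eq ?_)
  rw [hPX]
  generalize ((2 : ℝ) ^ (κ + κ)) ^ (2 * g + 1) ^ 2 = u
  generalize ((2 : ℝ) ^ k) ^ (2 * g + 1) ^ 2 = v
  ring

end Pool.Agent.MP_a43263_nt.K2

end

end PkK2Core

section PkK2Den

/-! Row DEN: density of the local condition among full matrices. -/

set_option autoImplicit false

noncomputable section

namespace Pool.Agent.MP_a43263_nt.K2

open Polynomial Finset Filter Matrix JC Pool.Agent.MP_a43263_nt.UV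

namespace DenA

theorem crt (n : ℕ) (Q : Finset ℕ) (hQ : ∀ q ∈ Q, q.Prime)
    (S : ∀ q : ℕ, Finset (Matrix (Fin n) (Fin n) (ZMod q))) (Y : Fin n → Fin n → ℕ)
    (hY : ∀ p q, ∏ r ∈ Q, r ≤ Y p q) : ∃ W : Finset (UC.Mz n),
      (∀ B : UC.Mz n, (∀ p q, |B p q| ≤ (Y p q : ℤ)) →
        (∀ q ∈ Q, B.map (Int.castRingHom (ZMod q)) ∈ S q) → B ∈ W) ∧
      (W.card : ℝ) ≤ (∏ q ∈ Q, ((S q).card : ℝ) / (q : ℝ) ^ (n * n)) *
        ∏ p, ∏ q, (3 * (Y p q : ℝ)) := by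
  classical
  set N := ∏ r ∈ Q, r with hN
  have N0 : 0 < N := prod_pos fun q hq => (hQ q hq).pos
  let W0 : Finset (UC.Mz n) := Fintype.piFinset fun p => Fintype.piFinset fun q =>
    Icc (-(Y p q : ℤ)) (Y p q)
  let W := W0.filter fun B : UC.Mz n => ∀ q ∈ Q, B.map (Int.castRingHom (ZMod q)) ∈ S q
  refine ⟨W, fun B h2 h3 => mem_filter.2 ⟨Fintype.mem_piFinset.2 fun p =>
    Fintype.mem_piFinset.2 fun q => mem_Icc.2 (abs_le.1 (h2 p q)), h3⟩, ?_⟩
  have key : W.card ≤ (∏ p, ∏ q, (2 * Y p q / N + 1)) * (Q.pi S).card := by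
    refine card_le_mul_card_image_of_maps_to
      (f := fun (B : UC.Mz n) q (_ : q ∈ Q) => B.map (Int.castRingHom (ZMod q)))
      (fun B hB => mem_pi.2 (mem_filter.1 hB).2) _ fun s _ => ?_
    rcases (W.filter fun B : UC.Mz n => (fun q (_ : q ∈ Q) =>
      B.map (Int.castRingHom (ZMod q))) = s).eq_empty_or_nonempty with h | ⟨B0, h0⟩
    · rw [h]
      exact Nat.zero_le _
    refine le_trans (card_le_card (t := Fintype.piFinset fun p => Fintype.piFinset fun q =>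
      (Icc (-(Y p q : ℤ)) (Y p q)).filter fun z => (N : ℤ) ∣ z - B0 p q) fun B hB => ?_) ?_
    · obtain ⟨hB1, hB2⟩ := mem_filter.1 hB
      refine Fintype.mem_piFinset.2 fun p => Fintype.mem_piFinset.2 fun r =>
        mem_filter.2 ⟨Fintype.mem_piFinset.1
          (Fintype.mem_piFinset.1 (mem_filter.1 hB1).1 p) r, ?_⟩
      rw [hN, Nat.cast_prod]
      refine Finset.prod_dvd_of_coprime (fun q hq q' hq' hne => Nat.isCoprime_iff_coprime.2
        ((Nat.coprime_primes (hQ q hq) (hQ q' hq')).2 hne)) fun q hq => ?_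
      have := congrFun (congrFun (congrFun (congrFun
        (((mem_filter.1 h0).2).trans hB2.symm) q) hq) p) r
      exact (ZMod.intCast_eq_intCast_iff_dvd_sub _ _ _).1 this
    · rw [Fintype.card_piFinset]
      refine prod_le_prod' fun p _ => ?_
      rw [Fintype.card_piFinset]
      exact prod_le_prod' fun r _ => UC.Den.card_class N _ N0 _
  have N0' : (0 : ℝ) < N := by exact_mod_cast N0
  rw [card_pi] at key
  have k2 : (W.card : ℝ) ≤ (∏ p, ∏ q, (3 * (Y p q : ℝ) / N)) * ∏ q ∈ Q, ((S q).card : ℝ) := by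
    refine le_trans (Nat.cast_le.2 key) ?_
    push_cast
    refine mul_le_mul_of_nonneg_right (prod_le_prod
      (fun _ _ => prod_nonneg fun _ _ => by positivity) fun p _ =>
      prod_le_prod (fun _ _ => by positivity) fun r _ => ?_)
      (prod_nonneg fun _ _ => Nat.cast_nonneg _)
    have h1 : ((2 * Y p r / N : ℕ) : ℝ) ≤ (2 * Y p r : ℕ) / N := Nat.cast_div_le
    have h2 : (1 : ℝ) ≤ Y p r / N := (one_le_div N0').2 (by exact_mod_cast hY p r)
    push_cast at h1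
    calc _ ≤ 2 * (Y p r : ℝ) / N + Y p r / N := add_le_add h1 h2
      _ = _ := by ring
  refine k2.trans (le_of_eq ?_)
  simp only [prod_div_distrib, prod_const, card_univ, Fintype.card_fin]
  rw [prod_pow, hN, Nat.cast_prod, ← pow_mul]
  ring

theorem map_inv {n : ℕ} {R : Type} [CommRing R] (φ : ℤ →+* R) {A : UC.Mz n} (hA : IsUnit A.det) :
    A⁻¹.map φ = (A.map φ)⁻¹ :=
  (Matrix.inv_eq_left_inv (by
    rw [← Matrix.map_mul, Matrix.nonsing_inv_mul _ hA,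
      Matrix.map_one _ (map_zero _) (map_one _)])).symm

theorem map_tt {n : ℕ} {R : Type} [CommRing R] (φ : ℤ →+* R) {A A' : UC.Mz n} (N : UC.Mz n)
    (hA : IsUnit A.det) (hA' : IsUnit A'.det) :
    (A * Tt A A' N).map φ = A.map φ * Tt (A.map φ) (A'.map φ) (N.map φ) := by
  rw [Matrix.map_mul, Tt, Tt, Matrix.map_sub _ (map_sub φ),
    Matrix.map_one _ (map_zero _) (map_one _), Matrix.map_mul, Matrix.map_mul, Matrix.map_mul,
    map_inv φ hA, map_inv φ hA', transpose_map]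

theorem det_mp {n : ℕ} {R : Type} [CommRing R] (φ : ℤ →+* R) (A : UC.Mz n) :
    (A.map φ).det = φ A.det := by
  rw [← RingHom.mapMatrix_apply, ← RingHom.map_det]

end DenA

open DenA

theorem den_k : FCStmt → DENStmt := by
  intro hF g hg
  obtain ⟨q0, hq0⟩ := hF g hg
  refine ⟨max q0 3, fun Q f₀ m₀ hQ A A' hA hA' hd hd' Y hY => ?_⟩
  have hS : ∀ q : ℕ, ∃ S : Finset (Mat g (ZMod q)), q ∈ Q →
      (∀ N : Mat g ℤ, Lc Q f₀ m₀ A A' N → N.map (Int.castRingHom (ZMod q)) ∈ S) ∧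
        10 * S.card ≤ 9 * q ^ (2 * g * (2 * g + 1)) := by
    intro q
    by_cases hq : q ∈ Q
    swap
    · exact ⟨∅, fun h => absurd h hq⟩
    obtain ⟨h1, h2, ⟨h, h3, h4, -⟩, h5⟩ := hQ q hq
    have := Fact.mk h1
    classical
    by_cases hdeg : h.natDegree = 2 * g
    swap
    · refine ⟨∅, fun _ => ⟨fun N t => absurd ?_ hdeg, by simp⟩⟩
      obtain ⟨T, -, hT, -⟩ := (t q hq).1
      have h6 := T.charpoly_natDegree_eq_dim
      rw [hT, h3, natDegree_X_mul h4.ne_zero, Fintype.card_fin] at h6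
      omega
    have h6 := hq0 (ZMod q) (by rw [ZMod.card]; exact (le_max_left _ _).trans h2)
      (fun e => by
        have := Nat.le_of_dvd two_pos ((ZMod.natCast_eq_zero_iff 2 q).1 (by exact_mod_cast e))
        have := (le_max_right _ _).trans h2
        omega)
      (A.map (Int.castRingHom (ZMod q))) (A'.map (Int.castRingHom (ZMod q))) (hA.map _) (hA'.map _)
      (by rw [det_mp]; exact (hd.map _).ne_zero) (by rw [det_mp]; exact (hd'.map _).ne_zero)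
      (m₀ : ZMod q) h (fun e => h5 ((ZMod.intCast_zmod_eq_zero_iff_dvd _ _).1 e)) h4 hdeg
    rw [Nat.card_eq_fintype_card, Fintype.card_subtype, ZMod.card] at h6
    refine ⟨_, fun _ => ⟨fun N t => mem_filter.2 ⟨mem_univ _, ?_, ?_⟩, h6⟩⟩
    · rw [det_mp]
      exact (t q hq).2
    · rw [← h3, ← map_tt _ N hd hd']
      exact (t q hq).1
  choose S hS using hS
  obtain ⟨W, w1, w2⟩ := crt _ Q (fun q hq => (hQ q hq).1) S Y hY
  refine ⟨W, fun N t1 t2 => w1 _ t2 fun q hq => (hS q hq).1 N t1, w2.trans ?_⟩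
  refine mul_le_mul_of_nonneg_right ?_ (by positivity)
  rw [← prod_pow, ← prod_const, ← prod_div_distrib]
  refine prod_le_prod (fun _ _ => by positivity) fun q hq => ?_
  have q0' : (0 : ℝ) < q := by exact_mod_cast (hQ q hq).1.pos
  have h1 : (10 : ℝ) * (S q).card ≤ 9 * (q : ℝ) ^ (2 * g * (2 * g + 1)) := by
    exact_mod_cast (hS q hq).2
  rw [show (2 * g + 1) * (2 * g + 1) = 2 * g * (2 * g + 1) + (2 * g + 1) by ring, pow_add,
    ← div_div, div_le_div_iff_of_pos_right (by positivity), div_le_iff₀ (by positivity)]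
  linarith

end Pool.Agent.MP_a43263_nt.K2

end

end PkK2Den

section PkK2Desc

/-! The descent: the rank is read off from the classes. -/

set_option autoImplicit false

noncomputable section

namespace Pool.Agent.MP_a43263_nt.K2

open Polynomial Finset Filter Matrix JC Pool.Agent.MP_a43263_nt.UV

namespace DescA

variable {K : Type} [Field K] {f F κ : K[X]}

theorem sqm_congr {x y : K[X]} (h : f ∣ x - y) (hx : Sqm f x) : Sqm f y := by
  obtain ⟨z, hz⟩ := hx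
  exact ⟨z, by simpa using hz.sub h⟩

theorem sqm_comp (hs : Is f F κ) (x : K[X]) : Sqm f (x.comp κ) ↔ Sqm F x := by
  constructor
  · rintro ⟨z, t, ht⟩
    obtain ⟨P, s, hP⟩ := hs.sur z
    refine ⟨P, (hs.ker _).1 ⟨t + s * (z + P.comp κ), ?_⟩⟩
    rw [sub_comp, pow_comp]
    linear_combination ht + (z + P.comp κ) * hP
  · rintro ⟨z, hz⟩
    refine ⟨z.comp κ, ?_⟩
    rw [← pow_comp, ← sub_comp]
    exact (hs.ker _).2 hz

theorem sqm_cancel {x a : K[X]} (ha : IsCoprime a F) (h : Sqm F (x * a ^ 2)) : Sqm F x := by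
  obtain ⟨b, c, hb⟩ := ha
  obtain ⟨z, t, ht⟩ := h
  exact ⟨z * b, b ^ 2 * t + x * c * (1 + b * a), by
    linear_combination b ^ 2 * ht - x * (1 + b * a) * hb⟩

theorem par {d e : K[X]} (hd : IsCoprime d F) (he : IsCoprime e F) (h1 : ¬Sqm F d)
    (h2 : ¬Sqm F e) (h3 : ¬Sqm F (d * e)) {a b : ℕ} (h : Sqm F (d ^ a * e ^ b)) :
    a % 2 = 0 ∧ b % 2 = 0 := by
  have k : Sqm F (d ^ (a % 2) * e ^ (b % 2)) := by
    refine sqm_cancel (a := d ^ (a / 2) * e ^ (b / 2)) (hd.pow_left.mul_left he.pow_left) ?_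
    rw [← Nat.mod_add_div a 2, ← Nat.mod_add_div b 2] at h
    rwa [show d ^ (a % 2) * e ^ (b % 2) * (d ^ (a / 2) * e ^ (b / 2)) ^ 2 =
      d ^ (a % 2 + 2 * (a / 2)) * e ^ (b % 2 + 2 * (b / 2)) by ring]
  rcases Nat.mod_two_eq_zero_or_one a with ha | ha <;>
    rcases Nat.mod_two_eq_zero_or_one b with hb | hb <;> rw [ha, hb] at k
  · exact ⟨ha, hb⟩
  · exact absurd (by simpa using k) h2
  · exact absurd (by simpa using k) h1
  · exact absurd (by simpa using k) h3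

theorem wc_pow [CharZero K] {g : ℕ} (hF : UV.Sq g F) {d : K[X]} (hd : Wc 1 F d) (n : ℕ) :
    Wc 1 F (d ^ n) := by
  obtain ⟨w1, w2, -⟩ := wg gram K g 1 F hF one_ne_zero
  induction n with
  | zero => rwa [pow_zero]
  | succ n ih => rw [pow_succ]; exact w2 _ _ ih hd

theorem els {g : ℕ} {F d : ℚ[X]} (hF : UV.Sq g F) (hd : Wc 1 F d) : Els F d := by
  obtain ⟨-, -, -, -, -, w⟩ := wg gram ℚ g 1 F hF one_ne_zero
  refine ⟨?_, fun p _ => ?_⟩
  · have := w ℝ (Rat.castHom ℝ) d hd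
    rwa [map_one] at this
  · have := w ℚ_[p] (Rat.castHom ℚ_[p]) d hd
    rwa [map_one] at this

end DescA

open DescA

theorem desc_k : WSQStmt → SHAStmt → IDXStmt → TORStmt → DESCStmt := by
  intro wsq sha idx tor g r F I hF hc hW hs hE
  have hq := hF.sq ℚ
  have ew : ∀ d, Els (zK F ℚ) d → Wc 1 (zK F ℚ) d := fun d hd => by
    obtain ⟨e, he, h⟩ := hE d hd
    exact wsq ℚ _ e d (hW e he) (isCoprime_of_map _ hd.1.1) (mul_comm d e ▸ h)
  have hi := idx g _ I hq hW hs fun d hd => hE d (els hq hd)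
  have ht := tor g _ hq hF.irr
  have fg : AddGroup.FG (JQ (zK F ℚ)) :=
    UM.mwU g F hF.pos hF.monic hF.deg hq.sep (by rw [hi, hc]; positivity)
  obtain ⟨n, h2, h3⟩ := Two.index_two fg
  have c1 : Nat.card {P : JQ (zK F ℚ) // 2 • P = 0} = 1 :=
    Nat.card_eq_one_iff_unique.2
      ⟨⟨fun x y => Subtype.ext ((ht _ x.2).trans (ht _ y.2).symm)⟩, ⟨0, by simp⟩⟩
  rw [hi, hc, c1, mul_one] at h3
  obtain rfl : r = n := Nat.pow_right_injective le_rfl h3
  exact ⟨Module.Finite.iff_addGroup_fg.2 fg, Module.finrank_eq_of_rank_eq h2, ht, sha g _ hq ew⟩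

theorem four_k : ISOStmt → WTStmt → DESCStmt → FOURStmt := by
  classical
  intro iso wt desc g f F κ u v G m hf hc hm n1 n2 n3 hE
  obtain ⟨hF, hs⟩ := iso g f F κ u v G hf hc
  replace hs := hs ℚ
  obtain ⟨-, -, -, ⟨d, hd, kd⟩, w⟩ := wt g f F κ u v G hf hc ℚ
  obtain ⟨e, he, ke⟩ := w m hm
  have hq := hF.sq ℚ
  have cg : ∀ (x : ℚ[X]) (i j : ℕ), zK f ℚ ∣ x.comp (zK κ ℚ) * zK (be u v G) ℚ ^ i * (1 - X) ^ j -
      (x * (d ^ i * e ^ j)).comp (zK κ ℚ) := fun x i j => by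
    rw [mul_comp, mul_comp, pow_comp, pow_comp, mul_assoc, ← mul_sub]
    refine Dvd.dvd.mul_left ?_ _
    rw [show ∀ a b a' b' : ℚ[X], a * b - a' * b' = (a - a') * b + a' * (b - b') from
      fun _ _ _ _ => by ring]
    exact dvd_add ((kd.trans (sub_dvd_pow_sub_pow _ _ i)).mul_right _)
      ((ke.trans (sub_dvd_pow_sub_pow _ _ j)).mul_left _)
  have bk : ∀ i j : ℕ, Sqm (zK F ℚ) (d ^ i * e ^ j) →
      Sqm (zK f ℚ) (zK (be u v G) ℚ ^ i * (1 - X) ^ j) := fun i j h => by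
    have := cg 1 i j
    rw [one_comp, one_mul, one_mul] at this
    exact sqm_congr (dvd_sub_comm.1 this) ((sqm_comp hs _).2 h)
  have m1 : ¬Sqm (zK F ℚ) d := fun h => n2 (by simpa using bk 1 0 (by simpa using h))
  have m2 : ¬Sqm (zK F ℚ) e := fun h => n1 (by simpa using bk 0 1 (by simpa using h))
  have m3 : ¬Sqm (zK F ℚ) (d * e) := fun h => n3 (by simpa using bk 1 1 (by simpa using h))
  let D : Fin 2 × Fin 2 → ℚ[X] := fun a => d ^ a.1.1 * e ^ a.2.1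
  have sep : ∀ a b, Sqm (zK F ℚ) (D a * D b) → a = b := fun a b h => by
    rw [show D a * D b = d ^ (a.1.1 + b.1.1) * e ^ (a.2.1 + b.2.1) by simp only [D]; ring] at h
    obtain ⟨p1, p2⟩ := par hd.1 he.1 m1 m2 m3 h
    exact Prod.ext (Fin.ext (by omega)) (Fin.ext (by omega))
  have inj : Function.Injective D := fun a b h =>
    sep a b ⟨D b, by rw [h, sq, sub_self]; exact dvd_zero _⟩
  refine desc g 2 F (univ.image D) hF (by rw [card_image_of_injective _ inj]; simp) ?_ ?_ ?_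
  · intro x hx
    obtain ⟨a, -, rfl⟩ := mem_image.1 hx
    exact (wg gram ℚ g 1 _ hq one_ne_zero).2.1 _ _ (wc_pow hq hd _) (wc_pow hq he _)
  · intro x hx y hy h
    obtain ⟨a, -, rfl⟩ := mem_image.1 hx
    obtain ⟨b, -, rfl⟩ := mem_image.1 hy
    rw [sep a b h]
  · intro x hx
    obtain ⟨i, j, hi, hj, h⟩ := hE x hx
    have k : Sqm (zK F ℚ) (x * (d ^ i * e ^ j)) := (sqm_comp hs _).1 (sqm_congr (cg x i j) h)
    exact ⟨D (⟨i, by omega⟩, ⟨j, by omega⟩), mem_image_of_mem D (mem_univ _), k⟩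

end Pool.Agent.MP_a43263_nt.K2

end

end PkK2Desc

section PkK2Lat

/-! THEOREM R2: the neighbouring self-dual lattice. -/

set_option autoImplicit false

noncomputable section

namespace Pool.Agent.MP_a43263_nt.K2

open Polynomial Finset Filter Matrix JC Pool.Agent.MP_a43263_nt.UV

namespace LatA

theorem split1 (f : ℤ[X]) : ∃ Q : ℤ[X], f = (X - C 1) * Q + C (f.eval 1) :=
  ⟨f /ₘ (X - C 1), by
    rw [add_comm, ← modByMonic_X_sub_C_eq_C_eval, modByMonic_add_div]⟩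

theorem decomp {f : ℤ[X]} {m : ℤ} (h1 : f.eval 1 = m ^ 2)
    (hc : IsCoprime m ((derivative f).eval 1)) : ∃ Q a b c : ℤ[X],
      f = C m * C m - (1 - X) * Q ∧ a * (1 - X) + b * C m + c * Q = 1 := by
  obtain ⟨Q, hQ⟩ := split1 f
  obtain ⟨R, hR⟩ := split1 Q
  obtain ⟨u, v, huv⟩ := hc
  have hd : (derivative f).eval 1 = Q.eval 1 := by
    conv_lhs => rw [hQ]
    simp
  refine ⟨Q, C v * R, C u, C v, ?_, ?_⟩
  · rw [h1] at hQ
    conv_lhs => rw [hQ]
    rw [C_pow, C_1]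
    ring
  · have e : C u * C m + C v * C (Q.eval 1) = (1 : ℤ[X]) := by
      rw [← C_mul, ← C_mul, ← C_add, ← hd, huv, C_1]
    rw [C_1] at hR
    linear_combination e + C v * hR

theorem m_ne {g : ℕ} {f : ℤ[X]} {m : ℤ} (hz : Zq g f) (h1 : f.eval 1 = m ^ 2) : m ≠ 0 := by
  rintro rfl
  have h0 : (zK f ℚ).IsRoot 1 := by
    simp [h1]
  have h2 := degree_eq_one_of_irreducible_of_root hz.irr h0
  have h3 : (zK f ℚ).natDegree = 1 := natDegree_eq_of_degree_eq_some h2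
  have h4 := hz.dg ℚ
  have h5 := hz.pos
  omega

end LatA

open LatA in
theorem lat_k : LATStmt := by
  intro g f m δ Λ hz h1 hc _ h
  have hm : (m : ℚ) ≠ 0 := by exact_mod_cast m_ne hz h1
  obtain ⟨Q, a, b, c, hf, hu⟩ := decomp h1 hc
  have hF : zK f ℚ = C (m : ℚ) * C (m : ℚ) - (1 - X) * zK Q ℚ := by
    conv_lhs => rw [hf]
    simp
  have hU : zK a ℚ * (1 - X) + zK b ℚ * C (m : ℚ) + zK c ℚ * zK Q ℚ = 1 := by
    simpa using congrArg (fun P : ℤ[X] => zK P ℚ) hu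
  have hi : C (m : ℚ)⁻¹ * C (m : ℚ) = 1 := by rw [← C_mul, inv_mul_cancel₀ hm, C_1]
  have he : zK (1 - X) ℚ = 1 - X := by
    rw [zK, Polynomial.map_sub, Polynomial.map_one, map_X]
  have hs : ∀ x ∈ Λ, (1 - X) * x ∈ Λ ∧ C (m : ℚ) * x ∈ Λ := fun x hx =>
    ⟨he ▸ h.zmul (1 - X) hx, h.cmul m hx⟩
  refine ⟨{x | (1 - X) * x ∈ Λ ∧ C (m : ℚ) * x ∈ Λ}, ⟨fun x => ⟨fun hx y hy => ?_, fun hx => ?_⟩,
    h.2.imp fun N hN => ⟨hN.1, hs _ hN.2⟩⟩, hs⟩
  · refine ((((In.zK a).mul (h.int hx.1 hy.1)).add ((In.zK b).mul (h.int hx.1 hy.2))).add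
      ((In.zK c).mul (h.int hx.2 hy.2))).congr ⟨-(zK c ℚ * δ * x * y), ?_⟩
    rw [hF]
    linear_combination -(δ * (1 - X) * x * y) * hU
  · refine ⟨(h.1 _).2 fun y hy => ?_, (h.1 _).2 fun y hy => ?_⟩
    · rw [← mul_assoc]
      exact hx y (hs y hy)
    · have e : C (m : ℚ)⁻¹ * zK Q ℚ * y ∈ {x | (1 - X) * x ∈ Λ ∧ C (m : ℚ) * x ∈ Λ} := by
        refine ⟨h.congr (h.cmul m hy) ⟨-(C (m : ℚ)⁻¹ * y), ?_⟩, ?_⟩
        · rw [hF]
          linear_combination (C (m : ℚ) * y) * hi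
        · rw [show C (m : ℚ) * (C (m : ℚ)⁻¹ * zK Q ℚ * y) = zK Q ℚ * y by
            linear_combination (zK Q ℚ * y) * hi]
          exact h.zmul Q hy
      refine (hx _ e).congr ⟨C (m : ℚ)⁻¹ * δ * x * y, ?_⟩
      rw [hF]
      linear_combination -(δ * C (m : ℚ) * x * y) * hi

end Pool.Agent.MP_a43263_nt.K2

end

end PkK2Lat

section PkK2Tri

/-! THEOREM R2, row TRI: the triple attached to two nested lattices. -/

set_option autoImplicit false

noncomputable section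

namespace Pool.Agent.MP_a43263_nt.K2

open Polynomial Finset Filter Matrix JC Pool.Agent.MP_a43263_nt.UV

namespace TriA

open Dst

variable {g : ℕ} {f : ℤ[X]} {δ : ℚ[X]} {Λ' : Set ℚ[X]} {b b' : Fin (2 * g + 1) → ℚ[X]}
  {A T A' T' M : Mat g ℤ}

theorem form (hf : Zq g f) (h : Mt g f δ b A T) (h' : Mt g f (δ * (1 - X)) b' A' T')
    (hM : ∀ j, zK f ℚ ∣ b j - cb b' fun i => (M i j : ℚ)) : Mᵀ * A' * M = A * (1 - T) := by
  ext i j
  refine Int.cast_injective (α := ℚ) ?_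
  have h1 : ((A * T) i j : ℚ) = ta g (zK f ℚ) (δ * b i * (X * b j)) := by
    rw [ta_congr (hf.mo ℚ) (Q := δ * b i * ∑ k, C (T k j : ℚ) * b k)
      (by rw [← mul_sub]; exact (h.mul j).mul_left _), Bas.ta_comb h.gram]
    simp [mul_apply, mulVec, dotProduct]
  have h2 := cb_ta h' (fun k => (M k i : ℚ)) fun k => (M k j : ℚ)
  have h3 : zK f ℚ ∣ δ * b i * b j - δ * b i * (X * b j) -
      δ * (1 - X) * (cb b' fun k => (M k i : ℚ)) * cb b' fun k => (M k j : ℚ) := by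
    refine (dvd_add ((hM i).mul_left (δ * (1 - X) * b j))
      ((hM j).mul_left (δ * (1 - X) * cb b' fun k => (M k i : ℚ)))).trans (dvd_of_eq ?_)
    ring
  rw [Matrix.mul_sub, Matrix.mul_one, Matrix.sub_apply, Int.cast_sub, h1, h.gram, ← ta_sub,
    ta_congr (hf.mo ℚ) h3, h2, Matrix.mul_assoc]
  simp [mul_apply, mulVec, dotProduct]

theorem comm (hb : Bs g f Λ' b') (h : Mt g f δ b A T) (h' : Mt g f (δ * (1 - X)) b' A' T')
    (hM : ∀ j, zK f ℚ ∣ b j - cb b' fun i => (M i j : ℚ)) : M * T = T' * M := by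
  ext k j
  refine Int.cast_injective (α := ℚ) ?_
  have h1 := Finset.dvd_sum (s := univ) fun i _ => (hM i).mul_left (C (T i j : ℚ))
  simp only [mul_sub, sum_sub_distrib, ← cb_sum] at h1
  have h2 := cb_inj hb (x := ∑ i, (T i j : ℚ) • fun l => (M l i : ℚ))
    (y := mK T' ℚ *ᵥ fun l => (M l j : ℚ)) (by
      refine (dvd_sub (dvd_add (cb_X h' fun l => (M l j : ℚ)) ((hM j).mul_left X))
        (dvd_add (h.mul j) h1)).trans (dvd_of_eq ?_)
      ring)
  have h3 := congrFun h2 k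
  simp only [Finset.sum_apply, Pi.smul_apply, smul_eq_mul, mulVec, dotProduct, mK_apply] at h3
  simpa [mul_apply, mul_comm] using h3

theorem ne_zero {m : ℤ} (hf : Zq g f) (e : f.eval 1 = m ^ 2) : m ≠ 0 := by
  rintro rfl
  have h1 : (zK f ℚ).IsRoot 1 := by
    rw [IsRoot, eval_one_map, e]
    simp
  have h2 := natDegree_eq_of_degree_eq_some (n := 1) (degree_eq_one_of_irreducible_of_root hf.irr h1)
  have h3 := hf.pos
  rw [hf.dg ℚ] at h2
  omega

theorem cancel {P Q : Mat g ℤ} (h : M.det ≠ 0) (e : P * M = Q * M) : P = Q := by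
  have := congrArg (· * M.adjugate) e
  simp only [Matrix.mul_assoc, mul_adjugate, Matrix.mul_smul, Matrix.mul_one] at this
  exact smul_right_injective _ h this

end TriA

open TriA in
theorem tri_k : TRIStmt := by
  intro g f m δ Λ' b b' A T A' T' hf e hb hm h r h' r'
  choose z hz using fun j => hb.span (b j) (hm j)
  obtain ⟨M, hM⟩ : ∃ M : Mat g ℤ, ∀ j, zK f ℚ ∣ b j - Dst.cb b' fun i => (M i j : ℚ) :=
    ⟨(of z)ᵀ, hz⟩
  have h1 := form hf h h' hM
  have h2 := comm hb h h' hM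
  have m0 := ne_zero hf e
  have h3 : (1 - T).det = m ^ 2 := by
    rw [← e, ← r.ch, eval_charpoly, map_one]
  have h4 := congrArg det h1
  rw [det_mul, det_mul, det_mul, det_transpose, h3] at h4
  have h5 : (A'.det * M.det) ^ 2 = m ^ 2 := by
    have := pow_pos (abs_pos.2 m0) 2
    rw [sq_abs] at this
    rcases Int.isUnit_iff.1 r.det with c | c <;> rcases Int.isUnit_iff.1 r'.det with c' | c' <;>
      rw [c, c'] at h4 <;> rw [c'] <;> nlinarith [sq_nonneg M.det]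
  have M0 : M.det ≠ 0 := fun c => m0 (by simpa [c] using h5.symm)
  obtain ⟨ε, e1, e2⟩ : ∃ ε : ℤ, ε * ε = 1 ∧ (ε • (A' * M)).det = m := by
    rcases sq_eq_sq_iff_eq_or_eq_neg.1 h5 with c | c
    · exact ⟨1, by simp, by rw [one_smul, det_mul, c]⟩
    · refine ⟨-1, by simp, ?_⟩
      rw [det_smul, det_mul, c, Fintype.card_fin, Odd.neg_one_pow ⟨g, rfl⟩, neg_mul_neg, one_mul]
  have i1 := nonsing_inv_mul A r.det
  have i2 := nonsing_inv_mul A' r'.det
  have i3 := mul_nonsing_inv A' r'.det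
  have t1 : Tt A A' (ε • (A' * M)) = T := by
    rw [Tt, transpose_smul, transpose_mul, r'.sa.eq]
    simp only [Matrix.mul_smul, Matrix.smul_mul, smul_smul, e1, one_smul]
    rw [Matrix.mul_assoc A⁻¹, Matrix.mul_assoc Mᵀ, i3, Matrix.mul_one, Matrix.mul_assoc,
      ← Matrix.mul_assoc Mᵀ, h1, ← Matrix.mul_assoc, i1, Matrix.one_mul, sub_sub_cancel]
  refine ⟨ε • (A' * M), ⟨r.sa, r'.sa, r.det, r'.det, e2, by rw [t1, r.ch]⟩, t1, cancel M0 ?_⟩
  rw [Tt, transpose_transpose, transpose_smul, transpose_mul, r'.sa.eq]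
  simp only [Matrix.mul_smul, Matrix.smul_mul, smul_smul, e1, one_smul]
  rw [← Matrix.mul_assoc A'⁻¹, i2, Matrix.one_mul, Matrix.sub_mul, Matrix.one_mul,
    Matrix.mul_assoc, h1, Matrix.mul_assoc, ← Matrix.mul_assoc A⁻¹, i1, Matrix.one_mul,
    Matrix.mul_sub, Matrix.mul_one, sub_sub_cancel, h2]

end Pool.Agent.MP_a43263_nt.K2

end

end PkK2Tri

section PkK2Wtg

/-! THEOREM R2: the group of the companion. -/

set_option autoImplicit false

noncomputable section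

namespace Pool.Agent.MP_a43263_nt.K2

open Polynomial Finset Filter Matrix JC Pool.Agent.MP_a43263_nt.UV

namespace WtgA

section
variable {K : Type} [Field K] {f F κ P δ δ' : K[X]}

theorem cop_congr (e : f ∣ δ - δ') (h : IsCoprime δ' f) : IsCoprime δ f := by
  obtain ⟨c, hc⟩ := e
  rw [show δ = δ' + f * c by linear_combination hc]
  exact h.add_mul_left_left c

theorem cop_of_inv {c : K} (hc : c ≠ 0) (e : f ∣ δ' * δ - C c) : IsCoprime δ f :=
  (cop_congr e ((isCoprime_mul_unit_left_left (isUnit_C.2 hc.isUnit) 1 f).2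
    isCoprime_one_left |> fun k => by simpa using k)).of_mul_left_right

theorem cop_comp (h : Is f F κ) (k : IsCoprime P F) : IsCoprime (P.comp κ) f := by
  obtain ⟨a, b, e⟩ := k
  refine cop_of_inv (δ' := a.comp κ) one_ne_zero ?_
  have : f ∣ (a * P - 1).comp κ := (h.ker _).2 ⟨-b, by linear_combination e⟩
  simpa using this

theorem cop_of_comp (h : Is f F κ) (k : IsCoprime (P.comp κ) f) : IsCoprime P F := by
  obtain ⟨a, b, e⟩ := k
  obtain ⟨a', c, hc⟩ := h.sur a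
  refine cop_of_inv (δ' := a') one_ne_zero ((h.ker _).1 ⟨-b - c * P.comp κ, ?_⟩)
  rw [sub_comp, mul_comp, C_comp, C_1]
  linear_combination e - P.comp κ * hc

theorem sqm_of_comp (h : Is f F κ) (e : f ∣ δ - P.comp κ) (k : Sqm f δ) : Sqm F P := by
  obtain ⟨z, a, ha⟩ := k
  obtain ⟨b, hb⟩ := e
  obtain ⟨z', c, hc⟩ := h.sur z
  refine ⟨z', (h.ker _).1 ⟨a - b + c * (z + z'.comp κ), ?_⟩⟩
  rw [sub_comp, pow_comp]
  linear_combination ha - hb + (z + z'.comp κ) * hc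

theorem mul_congr {a b a' b' : K[X]} (h : f ∣ a - a'.comp κ) (k : f ∣ b - b'.comp κ) :
    f ∣ a * b - (a' * b').comp κ := by
  rw [mul_comp, show a * b - a'.comp κ * b'.comp κ =
    (a - a'.comp κ) * b + a'.comp κ * (b - b'.comp κ) by ring]
  exact dvd_add (h.mul_right _) (k.mul_left _)

theorem cop_lin {x : K} (h : f.eval x ≠ 0) : IsCoprime (C x - X) f := by
  rw [← neg_sub]
  exact ((irreducible_X_sub_C x).coprime_iff_not_dvd.2 (mt dvd_iff_isRoot.1 h)).neg_left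

/-- the class of a point -/
theorem wt_pt {x y : K} (hy : y ≠ 0) (h : F.eval x = y ^ 2) : Wt f F κ (C x - κ) := by
  have c := cop_lin (h ▸ pow_ne_zero 2 hy)
  refine ⟨C x - X, ⟨c, X - C x, C y, C x - X, monic_X_sub_C x, dvd_iff_isRoot.2 ?_, ?_, ?_⟩, by simp⟩
  · simp [h]
  · simpa using c.neg_left
  · rw [natDegree_X_sub_C, show (C x - X) * (C ((-1 : K) ^ 1) * (X - C x)) - (C x - X) ^ 2 = 0 by
      simp only [pow_one, C_neg, C_1]; ring]
    exact dvd_zero _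

end

variable {g : ℕ} {f F κ : ℤ[X]} {u v G : ℤ}

theorem el_deg (u v : ℤ) : (el u v).natDegree ≤ 1 := by
  unfold el
  compute_degree

theorem coeff0 (hf : Zq g f) (h : Cp g f F κ u v G) : F.coeff 0 = G ^ (2 * g) := by
  have e := congrArg (fun P => coeff P (2 * g + 1)) h.mb
  have e1 : (el u v ^ (2 * g + 1)).coeff (2 * g + 1) = (v ^ 2) ^ (2 * g + 1) := by
    have := coeff_pow_of_natDegree_le (m := 2 * g + 1) (el_deg u v)
    rw [mul_one] at this
    rw [this, el, coeff_add, coeff_C_mul, coeff_C_succ, coeff_sub, coeff_X_one, ← C_1, coeff_C_succ]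
    simp
  have e2 : f.coeff (2 * g + 1) = 1 := hf.deg ▸ hf.monic.coeff_natDegree
  simp only [finset_sum_coeff, coeff_C_mul] at e
  rw [sum_range_succ', sum_eq_zero fun i hi => mul_eq_zero_of_right _
    (coeff_eq_zero_of_natDegree_lt (lt_of_le_of_lt (natDegree_pow_le_of_le _ (el_deg u v))
      (by omega))), Nat.sub_zero, e1, e2] at e
  refine mul_right_cancel₀ (pow_ne_zero (4 * g + 2) h.v0) ?_
  linear_combination e

theorem val1 (h : Cp g f F κ u v G) {m : ℤ} (hm : f.eval 1 = m ^ 2) (K : Type) [Field K]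
    [CharZero K] : (zK F K).eval ((G : K) / u ^ 2) =
      ((G : K) ^ g * v ^ (2 * g + 1) * m / u ^ (2 * g + 1)) ^ 2 := by
  have u0 : (u : K) ≠ 0 := Int.cast_ne_zero.2 h.u0
  have e := congrArg (fun P => ((eval 1 P : ℤ) : K)) h.mb
  simp only [eval_finset_sum, eval_mul, eval_C, eval_pow, hm, el, eval_add, eval_sub, eval_X,
    eval_one, sub_self, mul_zero, zero_add] at e
  push_cast at e
  have d : (zK F K).natDegree < 2 * g + 2 := by rw [h.mo.natDegree_map, h.dg]; omega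
  rw [eval_eq_sum_range' d, div_pow, eq_div_iff (by positivity), sum_mul]
  refine Eq.trans (sum_congr rfl fun i hi => ?_) (e.trans (by ring))
  obtain ⟨j, hj⟩ : ∃ j, 2 * g + 1 = i + j := Nat.exists_eq_add_of_le (by
    have := mem_range.1 hi; omega)
  rw [coeff_map, eq_intCast, hj, Nat.add_sub_cancel_left, div_pow, pow_right_comm _ (i + j),
    pow_add, mul_assoc, ← mul_assoc (_ / _), div_mul_cancel₀ _ (by positivity), mul_assoc]

theorem m_ne (hf : Zq g f) {m : ℤ} (hm : f.eval 1 = m ^ 2) : m ≠ 0 := by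
  rintro rfl
  have r : (zK f ℚ).IsRoot 1 := by
    rw [IsRoot, eval_one_map, hm]; simp
  have := degree_eq_one_of_irreducible_of_root hf.irr r
  have d := hf.dg ℚ
  have p := hf.pos
  rw [natDegree_eq_of_degree_eq_some (n := 1) this] at d
  omega

end WtgA

open WtgA in
theorem wtg_k : ISOStmt → WSQStmt → WTStmt := by
  intro iso wsq g f F κ u v G hf h K _ _
  obtain ⟨hF, hI⟩ := iso g f F κ u v G hf h
  have hI := hI K
  obtain ⟨-, w2, w3, -⟩ := wg gram K g 1 _ (hF.sq K) one_ne_zero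
  have p2 : ∀ δ δ', Wt (zK f K) (zK F K) (zK κ K) δ → Wt (zK f K) (zK F K) (zK κ K) δ' →
      Wt (zK f K) (zK F K) (zK κ K) (δ * δ') := fun δ δ' ⟨a, a1, a2⟩ ⟨b, b1, b2⟩ =>
    ⟨a * b, w2 _ _ a1 b1, mul_congr a2 b2⟩
  have p3 : ∀ δ δ', Wt (zK f K) (zK F K) (zK κ K) δ → IsCoprime δ' (zK f K) →
      Sqm (zK f K) (δ * δ') → Wt (zK f K) (zK F K) (zK κ K) δ' := fun δ δ' ⟨a, a1, a2⟩ c s => by
    obtain ⟨b, b2⟩ := hI.sur δ'
    exact ⟨b, wsq K _ _ _ a1 (cop_of_comp hI (cop_congr (dvd_sub_comm.1 b2) c))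
      (sqm_of_comp hI (mul_congr a2 b2) s), b2⟩
  have G0 : (G : K) ≠ 0 := Int.cast_ne_zero.2 h.G0
  have u0 : (u : K) ≠ 0 := Int.cast_ne_zero.2 h.u0
  have v0 : (v : K) ≠ 0 := Int.cast_ne_zero.2 h.v0
  obtain ⟨c, hc⟩ : zK f K ∣ zK κ K * (C (v : K) ^ 2 * (X - 1) + C (u : K) ^ 2) - C (G : K) := by
    simpa [el] using Polynomial.map_dvd (Int.castRingHom K) h.ka
  have eb : zK (be u v G) K = -C (G : K) * (C (v : K) ^ 2 * (X - 1) + C (u : K) ^ 2) := by
    simp [be, el]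
  have p4 : Wt (zK f K) (zK F K) (zK κ K) (zK (be u v G) K) := by
    refine p3 _ _ (wt_pt (x := 0) (pow_ne_zero g G0) ?_)
      (cop_of_inv (δ' := -zK κ K) (pow_ne_zero 2 G0) ⟨C (G : K) * c, ?_⟩) ⟨C (G : K), C (G : K) * c, ?_⟩
    · rw [← coeff_zero_eq_eval_zero, coeff_map, coeff0 hf h, eq_intCast]
      push_cast
      ring
    · rw [eb, C_pow]
      linear_combination C (G : K) * hc
    · rw [eb, C_0]
      linear_combination C (G : K) * hc
  refine ⟨fun δ ⟨a, a1, a2⟩ => ⟨cop_congr a2 (cop_comp hI a1.1), ?_⟩, p2, p3, p4, fun m hm => ?_⟩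
  · rw [(gram.1 K _ (hf.mo K)).2.1 _ _ a2, hI.nm]
    exact w3 _ a1
  · have m0 : (m : K) ≠ 0 := Int.cast_ne_zero.2 (m_ne hf hm)
    have i : C (u : K) * C (u : K)⁻¹ = 1 := by rw [← C_mul, mul_inv_cancel₀ u0, C_1]
    refine p3 _ _ (p2 _ _ (wt_pt (by positivity) (val1 h hm K)) p4) ?_
      ⟨C (G : K) * C (v : K) * C (u : K)⁻¹ * (1 - X), C (G : K) * (1 - X) * c, ?_⟩
    · refine cop_lin (x := 1) ?_
      rw [eval_one_map, hm]
      simpa using m0
    · rw [eb, div_eq_mul_inv, ← inv_pow, C_mul, C_pow]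
      linear_combination C (G : K) * (1 - X) * hc -
        C (G : K) ^ 2 * (1 - X) * (C (u : K) * C (u : K)⁻¹ + 1) * i

end Pool.Agent.MP_a43263_nt.K2

end

end PkK2Wtg

section PkK2Bad

/-! THEOREM R2: a bad polynomial gives a triple. -/

set_option autoImplicit false

noncomputable section

namespace Pool.Agent.MP_a43263_nt.K2

open Polynomial Finset Filter Matrix JC Pool.Agent.MP_a43263_nt.UV

namespace BadA

theorem nm_lin {K : Type} [Field K] (f : K[X]) : Nm f (1 - X) = f.eval 1 := by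
  have e : (1 - X : K[X]) = C (-1) * (X - C 1) := by simp
  have d : (1 - X : K[X]).natDegree = 1 := by
    rw [e, natDegree_C_mul (by simp), natDegree_X_sub_C]
  rw [Nm, d, e, resultant_C_mul_right, resultant_X_sub_C_right _ _ _ le_rfl, ← mul_assoc,
    ← mul_pow]
  simp

end BadA

open BadA in
theorem bad_k : LATStmt → TRIStmt → MAJStmt → BADStmt := by
  intro lat2 tri maj g f m Q M ρ hf hm hc hn hQ hρ hθ hM h
  obtain ⟨δ, Λ, h1, h2, h3, h4, h5, h6⟩ : ∃ δ Λ, IsCoprime δ (zK f ℚ) ∧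
      IsSquare (Nm (zK f ℚ) δ) ∧ SD f δ Λ ∧ (∀ q ∈ Q, Loc q f δ Λ) ∧
      (¬Sqm (zK f ℚ) δ ∨ δ = 1 ∧ ∃ p : ℕ, p.Prime ∧ M ≤ p ∧ Low g p Λ) ∧
      ¬Sqm (zK f ℚ) (δ * (1 - X)) := by
    rcases h with h | ⟨p, p1, p2, p3, p4, p5⟩
    · simp only [Str2, not_forall, not_or] at h
      obtain ⟨δ, a1, a2, a3, a4, a5, a6⟩ := h
      obtain ⟨Λ, b1, b2⟩ := lat gram apx (glu gram) g f Q δ hf hQ a3 a4
      exact ⟨δ, Λ, a1, a2, b1, b2, .inl a5, a6⟩
    · obtain ⟨Λ, b1, b2, b3⟩ := nbr g p f hf p1 p2 p5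
      refine ⟨1, Λ, isCoprime_one_left, ?_, b1, fun q hq => ⟨_, b2, C ((p : ℤ) ^ 2), p,
        by simp [zK], fun c => p3 ?_, by simp⟩, .inr ⟨rfl, p, p1, p4, b3⟩, by rwa [one_mul]⟩
      · rw [← C_1, (gram.1 ℚ _ (hf.mo ℚ)).2.2.1, one_pow]
        exact IsSquare.one
      · rwa [← (Nat.prime_dvd_prime_iff_eq (hQ q hq).1 p1).1 ((ZMod.natCast_eq_zero_iff p q).1 c)]
  have m0 := WtgA.m_ne hf hm
  have e1 : (zK f ℚ).eval 1 = (m : ℚ) ^ 2 := by rw [eval_one_map, hm]; simp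
  have k1 : IsCoprime (δ * (1 - X)) (zK f ℚ) :=
    h1.mul_left (WtgA.cop_lin (x := 1) (by rw [e1]; simpa using m0))
  have k2 : IsSquare (Nm (zK f ℚ) (δ * (1 - X))) := by
    rw [(gram.1 ℚ _ (hf.mo ℚ)).1, nm_lin, e1]
    exact h2.mul (IsSquare.sq _)
  obtain ⟨Λ', k3, hs⟩ := lat2 g f m δ Λ hf hm hc h1 h3
  obtain ⟨b, hb⟩ := bs1 g f δ Λ hf h1 h3
  obtain ⟨A, T, hT, hR⟩ := bs2 g f δ Λ b hf h1 h3 hb
  obtain ⟨b', hb'⟩ := bs1 g f _ Λ' hf k1 k3
  obtain ⟨A', T', hT', hR'⟩ := bs2 g f _ Λ' b' hf k1 k3 hb'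
  obtain ⟨N, hN, rfl, rfl⟩ := tri g f m δ Λ' b b' A T A' T' hf hm hb' (fun i => hs (hb.mem i))
    hT hR hT' hR'
  obtain ⟨H, H', hH⟩ := maj g f m A A' N ρ hf m0 hN hθ
  have r : 1 ≤ ρ ^ 2 := one_le_pow₀ hρ
  exact ⟨A, A', N, H, H', hN, fun q hq => ⟨strq g q f δ Λ b A _ hf (hQ q hq).1 (hQ q hq).2 h3 hb hT
    hR (h4 q hq), by rw [hN.dt]⟩, hH,
    dst (uniq gram) gs g f δ Λ b A _ H M _ hf h1 h2 h3 hb hT r hH.h hM h5, fun M' a =>
    dst (uniq gram) gs g f _ Λ' b' A' _ H' M' _ hf k1 k2 k3 hb' hT' r hH.h' a (.inl h6)⟩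

end Pool.Agent.MP_a43263_nt.K2

end

end PkK2Bad
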