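import Pool.Agent.MP_a43263_nt.K2.Spec

/-! Packed rows. -/

section PkK2Ev1

/-! THEOREM R2: primes that do not divide the resultant. -/

set_option autoImplicit false

noncomputable section

namespace Pool.Agent.MP_a43263_nt.K2

open Polynomial Finset Filter Matrix JC Pool.Agent.MP_a43263_nt.UV

namespace Ev1A

/-- the parity of the exponent from the norm -/
theorem par {p : ℕ} [Fact p.Prime] {g : ℕ} {f : ℤ[X]} (hz : Zq g f) {δ x : ℚ_[p][X]}
    {r : ℤ_[p][X]} {j : ℤ} (hn : IsSquare (Nm (zK f ℚ_[p]) δ))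
    (h : zK f ℚ_[p] ∣ δ * x ^ 2 - C ((p : ℚ_[p]) ^ j) * iq p r)
    (hc : IsCoprime (rq p r) (zK f (ZMod p))) : Ev p f δ := by
  obtain ⟨A, hA⟩ := hn
  obtain ⟨n1, n2, n3, -, -, -⟩ := gram.1 ℚ_[p] _ (hz.mo ℚ_[p])
  obtain ⟨-, -, -, -, -, n6⟩ := gram.1 ℤ_[p] _ (hz.mo ℤ_[p])
  have hu : IsUnit (Nm (zK f ℤ_[p]) r) := Ev.unit_of (by
    rw [← n6, zK_map]
    exact (((gram.1 (ZMod p) _ (hz.mo _)).2.2.2.1 _).2 hc).ne_zero)
  have hp : (p : ℚ_[p]) ≠ 0 := Nat.cast_ne_zero.2 (Fact.out : p.Prime).ne_zero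
  have h2 := n2 _ _ h
  have h3 := n6 _ PadicInt.Coe.ringHom r
  rw [zK_map] at h3
  rw [sq, n1, n1, n1, n3, hA, h3, hz.dg, ← zpow_natCast, ← _root_.zpow_mul] at h2
  have h4 : (A * Nm (zK f ℚ_[p]) x) ^ 2 =
      (p : ℚ_[p]) ^ (j * (2 * g + 1 : ℕ)) * (Nm (zK f ℤ_[p]) r : ℤ_[p]) := by
    rw [sq, mul_mul_mul_comm, h2]
    rfl
  have u0 : ((Nm (zK f ℤ_[p]) r : ℤ_[p]) : ℚ_[p]) ≠ 0 := PadicInt.coe_ne_zero.2 hu.ne_zero
  obtain ⟨-, h5⟩ := Ev.even_of (A := A * Nm (zK f ℚ_[p]) x)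
    (fun c => mul_ne_zero (zpow_ne_zero _ hp) u0 (by rw [← h4, c, sq, mul_zero])) hu
    (j := j * (2 * g + 1 : ℕ)) (D := (Nm (zK f ℤ_[p]) r : ℤ_[p])) (by rw [h4]; ring)
  obtain ⟨i, rfl⟩ : Even j := (Int.even_mul.1 h5).resolve_right (by
    rw [Int.even_coe_nat, Nat.not_even_iff_odd]
    exact odd_two_mul_add_one g)
  have e2 : C ((p : ℚ_[p]) ^ (-i)) ^ 2 * C ((p : ℚ_[p]) ^ (i + i)) = 1 := by
    rw [sq, ← C_mul, ← C_mul, ← zpow_add₀ hp, ← zpow_add₀ hp]
    simp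
  obtain ⟨y, hy⟩ := h
  refine ⟨C ((p : ℚ_[p]) ^ (-i)) * x, r, ⟨C ((p : ℚ_[p]) ^ (-i)) ^ 2 * y, ?_⟩, hc⟩
  linear_combination C ((p : ℚ_[p]) ^ (-i)) ^ 2 * hy + iq p r * e2

end Ev1A

theorem ev1_k : WTStmt → MOBStmt → EVHStmt → EV1Stmt := by
  intro wt mob evh p _ g f F κ u v G δ hz hc hn hG hw
  have h1 : IsCoprime (zK (el u v) (ZMod p)) (zK f (ZMod p)) := by
    have a := (gram.1 ℤ f hz.monic).2.2.2.2.2 (ZMod p) (Int.castRingHom _) (-el u v)
    rw [hc.nm, Polynomial.map_neg] at a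
    refine (IsCoprime.neg_left_iff _ _).1 (((gram.1 (ZMod p) _ (hz.mo _)).2.2.2.1 _).1 ?_)
    rw [a]
    exact Ne.isUnit fun c => hG ((ZMod.intCast_zmod_eq_zero_iff_dvd _ p).1 c)
  obtain ⟨j, x, r, a, b⟩ := evh p f 1 (zK f ℤ_[p]) (zK (el u v) ℤ_[p]) δ hn (one_mul _).symm
    (hz.mo _) (by rwa [rq, rq, zK_map, zK_map])
    (by rw [iq, zK_map]; exact mob g f F κ u v G hz hc _ δ hw)
  simp only [zK_map] at a b
  exact Ev1A.par hz ((wt g f F κ u v G hz hc ℚ_[p]).1 δ hw).2 a b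

end Pool.Agent.MP_a43263_nt.K2

end

end PkK2Ev1

section PkK2Ev2

/-! THEOREM R2: primes that divide the resultant once. -/

set_option autoImplicit false

noncomputable section

namespace Pool.Agent.MP_a43263_nt.K2

open Polynomial Finset Filter Matrix JC Pool.Agent.MP_a43263_nt.UV
open UV.Cmp (unit_iff zero_iff iq_eval)

namespace Ev2A

section
variable {R : Type} [CommRing R]

theorem crt {a : R} {h : R[X]} (ha : IsUnit (h.eval a)) (A : R) (Z : R[X]) :
    ∃ W : R[X], W.eval a = A ∧ h ∣ W - Z := by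
  obtain ⟨s, hs⟩ := ha.exists_right_inv
  refine ⟨Z + h * C ((A - Z.eval a) * s), ?_, by rw [add_sub_cancel_left]; exact dvd_mul_right _ _⟩
  simp only [eval_add, eval_mul, eval_C]
  linear_combination (A - Z.eval a) * hs

theorem two [IsDomain R] {a : R} {h D : R[X]} (ha : h.eval a ≠ 0) (h1 : D.eval a = 0)
    (h3 : h ∣ D) : (X - C a) * h ∣ D := by
  obtain ⟨E, rfl⟩ := h3
  rw [eval_mul, mul_eq_zero] at h1
  obtain ⟨E, rfl⟩ := dvd_iff_isRoot.2 (h1.resolve_left ha)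
  exact ⟨E, by ring⟩

theorem el_eq (u v : ℤ) : zK (el u v) R = C ((v : R) ^ 2) * (X - 1) + C ((u : R) ^ 2) := by
  simp [el, zK]

end

theorem cop {K : Type} [Field K] {t : K} {P : K[X]} : IsCoprime (X - C t) P ↔ P.eval t ≠ 0 := by
  rw [(irreducible_X_sub_C t).coprime_iff_not_dvd, dvd_iff_isRoot, IsRoot]

variable {p : ℕ} [Fact p.Prime]

theorem rq_eval (r : ℤ_[p][X]) (a : ℤ_[p]) :
    (rq p r).eval (PadicInt.toZMod a) = PadicInt.toZMod (r.eval a) := by
  rw [eval_map, eval₂_at_apply]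

/-- a simple root lifts -/
theorem lift {F : ℤ_[p][X]} {t : ZMod p} {G₀ : (ZMod p)[X]} (e : rq p F = (X - C t) * G₀)
    (hG : G₀.eval t ≠ 0) :
    ∃ a G, F = (X - C a) * G ∧ PadicInt.toZMod a = t ∧ rq p G = G₀ := by
  obtain ⟨a₀, rfl⟩ := ZMod.ringHom_surjective (PadicInt.toZMod (p := p)) t
  have a1 : ‖F.eval a₀‖ < 1 := by
    rw [← zero_iff, ← rq_eval, e]
    simp
  have a2 : ‖F.derivative.eval a₀‖ = 1 := by
    rw [← PadicInt.isUnit_iff, unit_iff, ← rq_eval, rq, ← derivative_map, ← rq, e]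
    simpa using hG
  obtain ⟨a, b1, b2, -⟩ := hensels_lemma (F := F) (a := a₀)
    (by rw [coe_aeval_eq_eval, a2, one_pow]; exact a1)
  rw [coe_aeval_eq_eval] at b1 b2
  rw [a2, ← zero_iff, map_sub, sub_eq_zero] at b2
  obtain ⟨G, hG⟩ := (dvd_iff_isRoot (p := F) (a := a)).2 b1
  refine ⟨a, G, hG, b2, ?_⟩
  rw [hG, rq, Polynomial.map_mul, Polynomial.map_sub, map_X, map_C, b2] at e
  exact mul_left_cancel₀ (X_sub_C_ne_zero _) e

/-- the norm decides the valuation at the remaining root -/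
theorem key {f : ℤ[X]} {a : ℤ_[p]} {h r : ℤ_[p][X]} {δ x : ℚ_[p][X]}
    (e : zK f ℤ_[p] = (X - C a) * h) (mh : h.Monic) (ua : IsUnit (h.eval a))
    (co : IsCoprime δ (zK f ℚ_[p])) (sq : IsSquare (Nm (zK f ℚ_[p]) δ))
    (dv : iq p h ∣ δ * x ^ 2 - iq p r) (cr : IsCoprime (rq p r) (rq p h)) : Ev p f δ := by
  have G := UV.gram.1
  obtain ⟨s, hs⟩ := sq
  have hm : (iq p h).Monic := mh.map _
  have qa : (iq p h).eval (a : ℚ_[p]) ≠ 0 := iq_eval h a ▸ (ua.map PadicInt.Coe.ringHom).ne_zero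
  have em : zK f ℚ_[p] = (X - C (a : ℚ_[p])) * iq p h := by
    rw [← iq_zK, e, iq, Polynomial.map_mul, Polynomial.map_sub, map_X, map_C]
    rfl
  rw [em] at co hs
  have d0 : δ.eval (a : ℚ_[p]) ≠ 0 := cop.1 co.of_mul_right_left.symm
  rw [(G _ _ (monic_X_sub_C _)).2.2.2.2.1 _ hm, Nm, natDegree_X_sub_C,
    resultant_X_sub_C_left _ _ _ le_rfl] at hs
  obtain ⟨k1, k2, -, -, -, -⟩ := G _ _ hm
  have k6 := (G _ _ mh).2.2.2.2.2
  have uw : IsUnit (Nm h r) := by
    rwa [unit_iff, ← k6, ← isUnit_iff_ne_zero, (G _ _ (mh.map _)).2.2.2.1]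
  have n := k2 _ _ dv
  rw [pow_two, k1, k1, k6] at n
  have w0 : PadicInt.Coe.ringHom (Nm h r) ≠ 0 := (uw.map _).ne_zero
  have n0 : s * Nm (iq p h) x ≠ 0 := fun c => mul_ne_zero d0 w0 (by
    rw [← n]
    linear_combination (Nm (iq p h) x * Nm (iq p h) x) * hs + (s * Nm (iq p h) x) * c)
  obtain ⟨W, w1, w2⟩ := crt ua (Nm h r) r
  obtain ⟨y, x1, x2⟩ := crt qa.isUnit (PadicInt.Coe.ringHom (Nm h r) / (s * Nm (iq p h) x)) x
  have a2 := Polynomial.map_dvd (PadicInt.Coe.ringHom (p := p)) w2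
  have a3 := Polynomial.map_dvd (PadicInt.toZMod (p := p)) w2
  rw [Polynomial.map_sub] at a2 a3
  refine ⟨y, W, ?_, ?_⟩
  · rw [em]
    refine two qa ?_ ?_
    · rw [eval_sub, eval_mul, eval_pow, iq_eval, w1, x1, div_pow, sub_eq_zero, ← mul_div_assoc,
        div_eq_iff (pow_ne_zero 2 n0)]
      change _ = PadicInt.Coe.ringHom (Nm h r) * _
      generalize PadicInt.Coe.ringHom (Nm h r) = w at n
      linear_combination w * (Nm (iq p h) x * Nm (iq p h) x) * hs - w * δ.eval (a : ℚ_[p]) * n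
    · obtain ⟨A, hA⟩ := dv
      obtain ⟨B, hB⟩ := x2
      obtain ⟨D, hD⟩ := a2
      exact ⟨δ * (y + x) * B + A - D, by linear_combination δ * (y + x) * hB + hA - hD⟩
  · rw [← rq_zK, e, rq, rq, Polynomial.map_mul, Polynomial.map_sub, map_X, map_C]
    refine IsCoprime.mul_right (cop.2 ?_).symm ?_
    · rw [rq_eval, w1]
      exact unit_iff.1 uw
    · obtain ⟨D, hD⟩ := a3
      rw [sub_eq_iff_eq_add'.1 hD]
      exact cr.add_mul_left_left D

end Ev2A

open Ev2A in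
theorem ev2_k : WTStmt → MOBStmt → EVHStmt → EV2Stmt := by
  intro wt mob evh p _ g f F κ u v G δ Z cp uv nx d1 d2 sr W
  have hp : (p : ℚ_[p]) ≠ 0 := Nat.cast_ne_zero.2 (Fact.out : p.Prime).ne_zero
  have nc : ¬IsCoprime (zK (el u v) (ZMod p)) (zK f (ZMod p)) := fun c => by
    have := ((UV.gram.1 _ _ (Z.mo (ZMod p))).2.2.2.1 _).2 c.neg_left
    rw [← Polynomial.map_neg, (UV.gram.1 _ _ Z.monic).2.2.2.2.2, cp.nm, eq_intCast,
      (ZMod.intCast_zmod_eq_zero_iff_dvd _ p).2 d1] at this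
    exact not_isUnit_zero this
  have v0 : (v : ZMod p) ≠ 0 := fun c => nc (by
    have := uv.map (Int.castRingHom (ZMod p))
    rw [eq_intCast, eq_intCast, c, isCoprime_zero_right] at this
    rw [el_eq, c, zero_pow two_ne_zero, C_0, zero_mul, zero_add, ← mul_one (C _)]
    exact (isCoprime_mul_unit_left_left (isUnit_C.2 (this.pow 2)) _ _).2 isCoprime_one_left)
  obtain ⟨t, ht⟩ : ∃ t : ZMod p, zK (el u v) (ZMod p) = C ((v : ZMod p) ^ 2) * (X - C t) :=
    ⟨1 - (u : ZMod p) ^ 2 / (v : ZMod p) ^ 2, by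
      rw [el_eq, C_sub, C_1, ← sub_add, mul_add, ← C_mul, mul_div_cancel₀ _ (pow_ne_zero 2 v0)]⟩
  have cl : ∀ P : (ZMod p)[X], IsCoprime (zK (el u v) (ZMod p)) P ↔ P.eval t ≠ 0 := fun P => by
    rw [ht, isCoprime_mul_unit_left_left (isUnit_C.2 (pow_ne_zero 2 v0).isUnit), cop]
  rw [cl, not_not] at nc
  have s1 := sr t (by simp [ht]) nc
  obtain ⟨h0, e0⟩ := dvd_iff_isRoot.2 nc
  have nr : h0.eval t ≠ 0 := by
    rw [e0] at s1
    simpa using s1
  obtain ⟨a, h, e, rfl, rfl⟩ := lift (F := zK f ℤ_[p]) ((rq_zK f).trans e0) nr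
  have mh : h.Monic := (monic_X_sub_C a).of_mul_monic_left (e ▸ Z.mo ℤ_[p])
  have ua : IsUnit (h.eval a) := by rwa [unit_iff, ← rq_eval]
  have lc : IsCoprime (rq p (zK (el u v) ℤ_[p])) (rq p h) := by rwa [rq_zK, cl]
  obtain ⟨w1, w2, -, w4, -⟩ := wt g f F κ u v G Z cp ℚ_[p]
  obtain ⟨j, x, r, dv, cr⟩ := evh p f _ h _ δ nx e mh lc
    (by rw [iq_zK]; exact mob g f F κ u v G Z cp _ δ W)
  have k : ∀ n : ℤ, C ((p : ℚ_[p]) ^ (-n)) ^ 2 * C ((p : ℚ_[p]) ^ (2 * n)) = 1 := fun n => by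
    rw [← C_pow, ← C_mul, ← _root_.zpow_natCast, ← _root_.zpow_mul, ← zpow_add₀ hp,
      show -n * ((2 : ℕ) : ℤ) + 2 * n = 0 by push_cast; ring, zpow_zero, C_1]
  obtain ⟨A, hA⟩ := dv
  rcases Int.even_or_odd' j with ⟨n, rfl | rfl⟩
  · refine Or.inl (key (x := C ((p : ℚ_[p]) ^ (-n)) * x) e mh ua (w1 δ W).1 (w1 δ W).2
      ⟨C ((p : ℚ_[p]) ^ (-n)) ^ 2 * A, ?_⟩ cr)
    linear_combination C ((p : ℚ_[p]) ^ (-n)) ^ 2 * hA + iq p r * k n
  · obtain ⟨G', rfl⟩ := d1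
    have g0 : (G' : ZMod p) ≠ 0 := fun c => d2 (by
      rw [pow_two]
      exact mul_dvd_mul_left _ ((ZMod.intCast_zmod_eq_zero_iff_dvd _ p).1 c))
    have W' := w1 _ (w2 _ _ W w4)
    refine Or.inr (key (x := C ((p : ℚ_[p]) ^ (-(n + 1))) * x)
      (r := zK (-C G') ℤ_[p] * zK (el u v) ℤ_[p] * r) e mh ua W'.1 W'.2
      ⟨C ((p : ℚ_[p]) ^ (-(n + 1))) ^ 2 * zK (be u v (p * G')) ℚ_[p] * A, ?_⟩ ?_)
    · have b : zK (be u v (p * G')) ℚ_[p] =
          C (p : ℚ_[p]) * (zK (-C G') ℚ_[p] * zK (el u v) ℚ_[p]) := by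
        simp [be, zK, mul_assoc]
      have q : C ((p : ℚ_[p]) ^ (2 * (n + 1))) = C ((p : ℚ_[p]) ^ (2 * n + 1)) * C (p : ℚ_[p]) := by
        rw [← C_mul, ← zpow_add_one₀ hp, show 2 * n + 1 + 1 = 2 * (n + 1) by ring]
      have k' := k (n + 1)
      rw [q] at k'
      rw [iq, Polynomial.map_mul, Polynomial.map_mul, zK_map, zK_map, b]
      generalize zK (-C G') ℚ_[p] * zK (el u v) ℚ_[p] = m
      linear_combination C ((p : ℚ_[p]) ^ (-(n + 1))) ^ 2 * C (p : ℚ_[p]) * m * hA +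
        m * iq p r * k'
    · rw [rq, Polynomial.map_mul, Polynomial.map_mul, zK_map]
      refine IsCoprime.mul_left (IsCoprime.mul_left ?_ lc) cr
      rw [zK, Polynomial.map_neg, map_C, eq_intCast, ← mul_one (C _)]
      exact ((isCoprime_mul_unit_left_left (isUnit_C.2 g0.isUnit) _ _).2 isCoprime_one_left).neg_left

end Pool.Agent.MP_a43263_nt.K2

end

end PkK2Ev2

section PkK2Ram2

/-! THEOREM R2: the ramified line at a prime of `Q`. -/

set_option autoImplicit false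

noncomputable section

namespace Pool.Agent.MP_a43263_nt.K2

open Polynomial Finset Filter Matrix JC Pool.Agent.MP_a43263_nt.UV
open UV.Cmp (unit_iff iq_eval)

namespace Ram2A

open Ev2A

variable {p : ℕ} [Fact p.Prime] {g : ℕ} {f : ℤ[X]} {u v G : ℤ}

/-- the common root of `f` and of the linear form -/
theorem root (Z : Zq g f) (nm : Nm f (-el u v) = G) (uv : IsCoprime u v) (d1 : (p : ℤ) ∣ G) :
    (v : ZMod p) ≠ 0 ∧ ∃ t : ZMod p, zK (el u v) (ZMod p) = C ((v : ZMod p) ^ 2) * (X - C t) ∧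
      (zK f (ZMod p)).eval t = 0 := by
  have nc : ¬IsCoprime (zK (el u v) (ZMod p)) (zK f (ZMod p)) := fun c => by
    have := ((UV.gram.1 _ _ (Z.mo (ZMod p))).2.2.2.1 _).2 c.neg_left
    rw [← Polynomial.map_neg, (UV.gram.1 _ _ Z.monic).2.2.2.2.2, nm, eq_intCast,
      (ZMod.intCast_zmod_eq_zero_iff_dvd _ p).2 d1] at this
    exact not_isUnit_zero this
  have v0 : (v : ZMod p) ≠ 0 := fun c => nc (by
    have := uv.map (Int.castRingHom (ZMod p))
    rw [eq_intCast, eq_intCast, c, isCoprime_zero_right] at this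
    rw [el_eq, c, zero_pow two_ne_zero, C_0, zero_mul, zero_add, ← mul_one (C _)]
    exact (isCoprime_mul_unit_left_left (isUnit_C.2 (this.pow 2)) _ _).2 isCoprime_one_left)
  obtain ⟨t, ht⟩ : ∃ t : ZMod p, zK (el u v) (ZMod p) = C ((v : ZMod p) ^ 2) * (X - C t) :=
    ⟨1 - (u : ZMod p) ^ 2 / (v : ZMod p) ^ 2, by
      rw [el_eq, C_sub, C_1, ← sub_add, mul_add, ← C_mul, mul_div_cancel₀ _ (pow_ne_zero 2 v0)]⟩
  rw [ht, isCoprime_mul_unit_left_left (isUnit_C.2 (pow_ne_zero 2 v0).isUnit), cop, not_not] at nc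
  exact ⟨v0, t, ht, nc⟩

/-- the invariants of the marked class -/
theorem nf_be (Z : Zq g f) (ht : Ty p f) (nm : Nm f (-el u v) = G) (uv : IsCoprime u v)
    (d1 : (p : ℤ) ∣ G) (d2 : ¬(p : ℤ) ^ 2 ∣ G) : NF p f (zK (be u v G) ℚ_[p]) 0 1 := by
  obtain ⟨v0, t, e0, r0⟩ := root Z nm uv d1
  obtain ⟨a, h, ha⟩ := hens p g f Z ht
  have dh : (rq p h).natDegree = 2 * g := by rw [ha.monic.natDegree_map, Cmp.deg Z ha]
  obtain rfl : t = 0 := by
    rw [Cmp.red ha, eval_mul, eval_X, mul_eq_zero] at r0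
    refine r0.resolve_right fun c => ?_
    have : (rq p h).natDegree = 1 :=
      natDegree_eq_of_degree_eq_some (degree_eq_one_of_irreducible_of_root ha.irr c)
    omega
  have n1 : (G : ℤ_[p]) =
      -(zK (el u v) ℤ_[p]).eval a * Nm h (-zK (el u v) ℤ_[p]) := by
    have := (UV.gram.1 _ _ Z.monic).2.2.2.2.2 ℤ_[p] (Int.castRingHom _) (-el u v)
    rw [nm, eq_intCast, Polynomial.map_neg] at this
    rw [← this, ← zK, ha.eq, (UV.gram.1 _ _ (monic_X_sub_C _)).2.2.2.2.1 _ ha.monic, Nm,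
      natDegree_X_sub_C, resultant_X_sub_C_left _ _ _ le_rfl, eval_neg]
  have n2 : PadicInt.toZMod (Nm h (-zK (el u v) ℤ_[p])) =
      ((-(v : ZMod p) ^ 2) ^ g) ^ 2 * (rq p h).eval 0 := by
    obtain ⟨k1, -, k3, -⟩ := UV.gram.1 _ _ (ha.monic.map (PadicInt.toZMod (p := p)))
    rw [← (UV.gram.1 _ _ ha.monic).2.2.2.2.2, Polynomial.map_neg, zK_map, e0, ← neg_mul, ← C_neg,
      k1, k3, dh, Nm, natDegree_X_sub_C, resultant_X_sub_C_right _ _ _ le_rfl, dh, ← pow_mul,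
      mul_comm g, pow_mul (-1 : ZMod p), neg_one_sq, one_pow, one_mul]
  have s0 : (-(v : ZMod p) ^ 2) ^ g ≠ 0 := pow_ne_zero _ (neg_ne_zero.2 (pow_ne_zero _ v0))
  have c0 : (zK (el u v) ℤ_[p]).eval a ≠ 0 := fun c => d2 (by
    rw [c, neg_zero, zero_mul, Int.cast_eq_zero] at n1
    simp [n1])
  obtain ⟨G', rfl⟩ := d1
  have g0 : (G' : ZMod p) ≠ 0 := fun c => d2 (by
    rw [pow_two]
    exact mul_dvd_mul_left _ ((ZMod.intCast_zmod_eq_zero_iff_dvd _ p).1 c))
  have := cmp p g f a h (zK (be u v (p * G')) ℚ_[p]) (Nm h (-zK (el u v) ℤ_[p]))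
    ((zK (el u v) ℤ_[p]).eval a : ℤ_[p]) 1 (zK (-C G') ℤ_[p] * zK (el u v) ℤ_[p]) 0 Z ha
    (by rw [unit_iff, n2]; exact mul_ne_zero (pow_ne_zero _ s0) ha.ne)
    (PadicInt.coe_ne_zero.2 c0) (by
      rw [← iq_zK, iq_eval, ← PadicInt.coe_pow, ← PadicInt.coe_mul, be, zK, Polynomial.map_mul,
        Polynomial.map_neg, map_C, eq_intCast, n1, eval_mul, eval_neg, eval_C]
      congr 1
      simp only [zK]
      ring)
    (by rw [n2, mul_comm, Cmp.isSquare_mul s0]; exact iff_of_true ha.sq rfl)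
    ⟨0, by
      rw [iq, Polynomial.map_mul, zK_map, zK_map]
      simp [be, zK, mul_assoc]⟩
    (fun hh => ha.ne (by
      rw [rq, rq, Polynomial.map_mul, zK_map, zK_map, e0, zK, Polynomial.map_neg, map_C,
        eq_intCast, ← C_neg, (isUnit_C.2 (neg_ne_zero.2 g0).isUnit).dvd_mul_left,
        (isUnit_C.2 (pow_ne_zero 2 v0).isUnit).dvd_mul_left, C_0, sub_zero] at hh
      rw [← coeff_zero_eq_eval_zero, ← X_dvd_iff]
      exact ha.irr.dvd_symm irreducible_X hh))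
  rwa [Int.cast_one] at this

end Ram2A

open Ram2A in
theorem ram2_k : WTStmt → QSTStmt → RAM2Stmt := by
  intro wt qst p _ g f F κ u v G δ s y hp hf ht cp uv d1 d2 hW hN
  have hp2 : p ≠ 2 := by omega
  have hs := hf.sq ℚ_[p]
  obtain ⟨w1, w2, -, w4, -⟩ := wt g f F κ u v G hf cp ℚ_[p]
  have key : ∀ δ₀ s₀, Wt (zK f ℚ_[p]) (zK F ℚ_[p]) (zK κ ℚ_[p]) δ₀ →
      NF p f (δ₀ * zK (be u v G) ℚ_[p]) s₀ 1 → s₀ = 0 := by
    intro δ₀ s₀ h1 h2
    obtain ⟨c1, c2⟩ := w1 _ (w2 _ _ h1 w4)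
    have c3 := qst g f F κ u v G hf cp _ δ₀ h1
    generalize δ₀ * zK (be u v G) ℚ_[p] = δ₁ at h2 c1 c2 c3
    obtain ⟨σ, hsy⟩ := JC.T.symb.2 p
    have g1 := (gram.2 ℚ_[p] g _ hs).1 δ₁
    have g2 := ((gram.1 ℚ_[p] _ hs.monic).2.2.2.1 δ₁).2 c1
    obtain ⟨e, e1, e2⟩ := diag ℚ_[p] (Ne.isUnit two_ne_zero) _ _ (Gm_symm δ₁)
      (g1 ▸ (isUnit_neg_one.pow g).mul g2)
    refine (locq gram diag hinv pad hens p g f δ₁ σ e s₀ hp hf ht hsy e1 c2 h2).1 ?_
    rw [(hinv ℚ_[p] σ hsy.1).2 g _ e e1 (fun i => (e2 i).ne_zero) c3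
      (by rw [g1, ← mul_assoc, ← mul_pow]; simpa using c2)]
    refine prod_eq_one fun i _ => prod_eq_one fun j _ => ?_
    simpa using ((pad.1 p hp2).2 σ hsy).1 ((-1) ^ i.1) ((-1) ^ j.1) (isUnit_neg_one.pow _)
      (isUnit_neg_one.pow _)
  have hT := nf_be hf ht cp.nm uv d1 d2
  have ad := (nfm p g f hf).2.2.2 hp2 ht
  have hM := ad _ _ _ _ _ _ hN hT
  rcases (by decide : ∀ y : ZMod 2, y = 0 ∨ y = 1) y with rfl | rfl
  · rw [zero_add, add_zero] at hM
    exact key _ _ hW hM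
  · have := ad _ _ _ _ _ _ hM hT
    rw [add_zero, add_zero, show (1 + 1 + 1 : ZMod 2) = 1 from rfl] at this
    exact key _ _ (w2 _ _ hW w4) this

end Pool.Agent.MP_a43263_nt.K2

end

end PkK2Ram2

section PkK2Evh

/-! THEOREM R2, row EVH: valuations away from the branch point. -/

set_option autoImplicit false

noncomputable section

namespace Pool.Agent.MP_a43263_nt.K2

open Polynomial Finset Filter Matrix JC Pool.Agent.MP_a43263_nt.UV

namespace EvhA

/-- a value of a binary form that is prime to a given divisor of the discriminant -/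
theorem exists_coprime {k : Type} [Field k] {f u v w : k[X]} (h0 : f ≠ 0) (hf : f ∣ v ^ 2 - u * w)
    (H : ∀ φ, Irreducible φ → φ ∣ f → φ ∣ u → φ ∣ v → ¬φ ∣ w) :
    ∃ a, IsCoprime (u * a ^ 2 + 2 * v * a + w) f := by
  classical
  let a := ((UniqueFactorizationMonoid.factors f).filter fun ψ => ¬ψ ∣ w).prod
  refine ⟨a, (isCoprime_of_irreducible_dvd (fun h => h0 h.1) fun φ hφ h1 h2 => ?_).symm⟩
  have hp := hφ.prime
  by_cases c : φ ∣ w
  · have h3 : φ ∣ v := hp.dvd_of_dvd_pow (n := 2) (by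
      simpa using dvd_add (h1.trans hf) (c.mul_left u))
    have h4 : φ ∣ u * a ^ 2 := by
      simpa using dvd_sub (dvd_sub h2 c) ((h3.mul_left 2).mul_right a)
    rcases hp.dvd_or_dvd h4 with h5 | h5
    · exact H φ hφ h1 h5 h3 c
    · obtain ⟨ψ, h6, h7⟩ := hp.exists_mem_multiset_dvd (hp.dvd_of_dvd_pow h5)
      rw [Multiset.mem_filter] at h6
      exact h6.2 ((hφ.associated_of_dvd
        (UniqueFactorizationMonoid.irreducible_of_factor ψ h6.1) h7).symm.dvd.trans c)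
  · obtain ⟨ψ, h6, h7⟩ := UniqueFactorizationMonoid.exists_mem_factors_of_dvd h0 hφ h1
    have h3 : φ ∣ a := h7.dvd.trans
      (Multiset.dvd_prod (Multiset.mem_filter.2 ⟨h6, fun h => c (h7.dvd.trans h)⟩))
    exact c ((dvd_add_right (dvd_add ((dvd_pow h3 two_ne_zero).mul_left u) (h3.mul_left _))).1 h2)

/-- a primitive form at the factors where the multiplier is a unit -/
theorem prim {p : ℕ} [Fact p.Prime] {f : ℤ[X]} {m u v w : ℤ_[p][X]} (hn : ¬Nx p f)
    (hF : m * zK f ℤ_[p] = v ^ 2 - u * w) {φ : (ZMod p)[X]} (hφ : Irreducible φ)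
    (hf : φ ∣ rq p (zK f ℤ_[p])) (hm : IsCoprime (rq p m) φ) (h1 : φ ∣ rq p u) (h2 : φ ∣ rq p v)
    (h3 : φ ∣ rq p w) : False := by
  classical
  obtain ⟨ψ, e1, e2, e3⟩ := lifts_and_natDegree_eq_and_monic
    ((mem_lifts (f := Int.castRingHom (ZMod p)) _).2 (Ev.lift p (normalize φ)))
    (monic_normalize hφ.ne_zero)
  obtain ⟨u₁, u₂, rfl⟩ := Ev.split (φ := ψ) (e1.symm ▸ normalize_dvd_iff.2 h1)
  obtain ⟨v₁, v₂, rfl⟩ := Ev.split (φ := ψ) (e1.symm ▸ normalize_dvd_iff.2 h2)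
  obtain ⟨w₁, w₂, rfl⟩ := Ev.split (φ := ψ) (e1.symm ▸ normalize_dvd_iff.2 h3)
  obtain ⟨f₁, f₂, ef⟩ := Ev.split (φ := ψ) (e1.symm ▸ normalize_dvd_iff.2 hf)
  obtain ⟨α, β, hα⟩ := hm
  obtain ⟨α, rfl⟩ := Ev.lift p α
  have h4 : φ ∣ rq p (1 - zK α ℤ_[p] * m) := by
    rw [rq, Polynomial.map_sub, Polynomial.map_mul, zK_map, Polynomial.map_one, ← hα]
    exact ⟨β, by ring⟩
  obtain ⟨c₁, c₂, ec⟩ := Ev.split (φ := ψ) (e1.symm ▸ normalize_dvd_iff.2 h4)
  refine hn (nxp.1 p f ψ (f₁ * c₁ + zK α ℤ_[p] * (v₁ ^ 2 - u₁ * w₁))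
    (f₁ * c₂ + f₂ * c₁ + zK α ℤ_[p] * (2 * v₁ * v₂ - u₁ * w₂ - u₂ * w₁))
    (f₂ * c₂ + zK α ℤ_[p] * (v₂ ^ 2 - u₂ * w₂)) e3 ?_ ?_)
  · rw [e2]
    exact ((normalize_associated φ).symm.irreducible hφ).natDegree_pos
  · linear_combination zK α ℤ_[p] * hF + zK f ℤ_[p] * ec +
      (zK ψ ℤ_[p] * c₁ + C (p : ℤ_[p]) * c₂) * ef

end EvhA

theorem evh_k : EVHStmt := by
  intro p _ f a h l δ hn hf hm hl ⟨hδ, U, V, U', s, j₀, k, hU, hUf, hs⟩
  obtain ⟨u, v, w, j, hF, H⟩ := intm p (l ^ (2 * j₀ + 1) * zK f ℤ_[p]) U V U' (by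
    rw [← hU, iq, Polynomial.map_mul, zK_map, Polynomial.map_pow])
  have hd : rq p h ∣ rq p (zK f ℤ_[p]) := by
    rw [hf]
    exact Polynomial.map_dvd _ (dvd_mul_left h a)
  obtain ⟨b, hb⟩ := EvhA.exists_coprime (f := rq p h) (u := rq p u) (v := rq p v) (w := rq p w)
    (hm.map _).ne_zero
    (by
      have := congrArg (Polynomial.map PadicInt.toZMod) hF
      rw [Polynomial.map_mul, Polynomial.map_sub, Polynomial.map_mul, Polynomial.map_pow,
        Polynomial.map_pow] at this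
      exact this ▸ hd.mul_left _)
    fun φ hφ h0 h1 h2 h3 => EvhA.prim hn hF hφ (h0.trans hd) (by
      rw [rq, Polynomial.map_pow]
      exact (hl.of_isCoprime_of_dvd_right h0).pow_left) h1 h2 h3
  obtain ⟨b, rfl⟩ := Ev.lift p b
  obtain ⟨z, z', hr⟩ := H (zK b ℤ_[p]) 1
  set r := (-l) ^ k * (u * zK b ℤ_[p] ^ 2 + 2 * v * zK b ℤ_[p] * 1 + w * 1 ^ 2) with hr'
  have hc : IsCoprime (rq p r) (rq p h) := by
    rw [hr', rq, Polynomial.map_mul, Polynomial.map_pow, Polynomial.map_neg]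
    refine IsCoprime.mul_left hl.neg_left.pow_left ?_
    simpa [zK_map] using hb
  have e1 : iq p r = (-iq p l) ^ k * (C ((p : ℚ_[p]) ^ j) *
      (U * z ^ 2 + 2 * V * z * z' - U' * z' ^ 2)) := by
    rw [← hr, hr', iq, Polynomial.map_mul, Polynomial.map_pow, Polynomial.map_neg]
  obtain ⟨y, hy⟩ := hs
  obtain ⟨t, t', ht⟩ := hδ.mul_left hUf
  have hp : (p : ℚ_[p]) ≠ 0 := Nat.cast_ne_zero.2 (Fact.out : p.Prime).ne_zero
  have e2 : C ((p : ℚ_[p]) ^ (-j)) * C ((p : ℚ_[p]) ^ j) = 1 := by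
    rw [← C_mul, ← zpow_add₀ hp]
    simp
  have e3 : C ((p : ℚ_[p]) ^ (-j)) * iq p r =
      (-iq p l) ^ k * (U * z ^ 2 + 2 * V * z * z' - U' * z' ^ 2) := by
    rw [e1, mul_left_comm, ← mul_assoc (C _), e2, one_mul]
  have hd' : iq p h ∣ zK f ℚ_[p] := by
    rw [← zK_map f PadicInt.Coe.ringHom, hf]
    exact Polynomial.map_dvd _ (dvd_mul_left h a)
  refine ⟨-j, s * (U * z + V * z') * t, r, hd'.trans ?_, hc⟩
  rw [e3]
  generalize (-iq p l) ^ k = L at *
  generalize iq p l ^ (2 * j₀ + 1) = M at *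
  refine ⟨δ * t ^ 2 * (δ * L * U * M * z' ^ 2 - y * (U * z + V * z') ^ 2) -
    t' * (t * (δ * U) + 1) * (L * (U * z ^ 2 + 2 * V * z * z' - U' * z' ^ 2)), ?_⟩
  linear_combination -(δ * t ^ 2 * (U * z + V * z') ^ 2) * hy -
    δ ^ 2 * t ^ 2 * L * U * z' ^ 2 * hU +
    (t * (δ * U) + 1) * (L * (U * z ^ 2 + 2 * V * z * z' - U' * z' ^ 2)) * ht

end Pool.Agent.MP_a43263_nt.K2

end

end PkK2Evh

section PkK2Exp

/-! THEOREM R2: the two exponent inequalities. -/

set_option autoImplicit false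

namespace Pool.Agent.MP_a43263_nt.K2

open Finset UC UC.Exp

namespace ExpA

def T0 (x y : ℤ) : ℤ := max (x + y) 0 - max (y - x) (x - y)

theorem two_wt {n : ℕ} (e : Fin n → ℤ) (he : Monotone e) :
    2 * wt e = ∑ p, ∑ q, T0 (e p) (e q) + ∑ p, T0 (e p) (e p) := by
  have h1 := sym_sum univ (fun p q : Fin n => T0 (e p) (e q)) (fun p q => by
    simp only [T0]; omega)
  have h3 := sum_up (fun p q : Fin n => max (e p + e q) 0)
  have h4 := sum_sup (fun p q : Fin n => e q - e p)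
  have h5 : ∑ p, T0 (e p) (e p) = ∑ p, max (e p + e p) 0 :=
    sum_congr rfl fun p _ => by simp only [T0]; omega
  have h6 : (∑ p, ∑ q, if p < q then T0 (e p) (e q) else 0)
      = (∑ p, ∑ q, if p < q then max (e p + e q) 0 else 0)
        - ∑ p, ∑ q, if p < q then e q - e p else 0 := by
    rw [← sum_sub_distrib]
    refine sum_congr rfl fun p _ => ?_
    rw [← sum_sub_distrib]
    refine sum_congr rfl fun q _ => ?_
    by_cases h : p < q
    · have := he h.le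
      simp only [if_pos h, T0]; omega
    · simp only [if_neg h]; ring
  unfold wt
  beta_reduce at h1 h3 h4
  rw [h3, h4, h1, h6, h5]
  ring

variable {g : ℕ} {e e' : Fin (2 * g + 1) → ℤ}

theorem nn (he : Ex e) (i : ℕ) (hi : i ≤ g) : 0 ≤ aa e i := by
  have h := aa_anti e he.1 i g hi (by omega)
  rwa [aa_mid e he] at h

/-- a double sum over two types -/
theorem dbl (he : Ex e) (he' : Ex e') (F : ℤ → ℤ → ℤ) : ∑ p, ∑ q, F (e' p) (e q) =
    ∑ i ∈ range g, ∑ j ∈ range g, (F (-aa e' i) (-aa e j) + F (-aa e' i) (aa e j) +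
      (F (aa e' i) (-aa e j) + F (aa e' i) (aa e j))) +
    ∑ i ∈ range g, (F (-aa e' i) 0 + F (aa e' i) 0 + (F 0 (-aa e i) + F 0 (aa e i))) + F 0 0 := by
  have h2 := split e' he' (fun x => ∑ q, F x (e q))
  have h3 : ∀ x, ∑ q, F x (e q) = ∑ i ∈ range g, (F x (-aa e i) + F x (aa e i)) + F x 0 :=
    fun x => split e he (fun y => F x y)
  beta_reduce at h2
  rw [h2]
  simp only [h3, sum_add_distrib]
  ring

theorem wt_eq (he : Ex e) : wt e = -∑ i ∈ range g, ∑ j ∈ range g, max (aa e i) (aa e j) := by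
  have h1 := split e he (fun x => T0 x x)
  have h2 := dbl he he T0
  have h3 : ∑ i ∈ range g, ∑ j ∈ range g, (T0 (-aa e i) (-aa e j) + T0 (-aa e i) (aa e j) +
      (T0 (aa e i) (-aa e j) + T0 (aa e i) (aa e j))) =
      -2 * ∑ i ∈ range g, ∑ j ∈ range g, max (aa e i) (aa e j) := by
    simp only [mul_sum]
    refine sum_congr rfl fun i hi => sum_congr rfl fun j hj => ?_
    have := nn he i (mem_range.1 hi).le
    have := nn he j (mem_range.1 hj).le
    simp only [T0]; omega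
  have h4 : ∑ i ∈ range g, (T0 (-aa e i) 0 + T0 (aa e i) 0 + (T0 0 (-aa e i) + T0 0 (aa e i))) +
      ∑ i ∈ range g, (T0 (-aa e i) (-aa e i) + T0 (aa e i) (aa e i)) = 0 := by
    rw [← sum_add_distrib]
    refine sum_eq_zero fun i hi => ?_
    have := nn he i (mem_range.1 hi).le
    simp only [T0]; omega
  have h5 : T0 0 0 = 0 := rfl
  have h6 := two_wt e he.1
  beta_reduce at h1
  linarith

/-- the loss -/
def ls (k x z : ℤ) : ℤ := max (x + z - k) 0 + max (x - z - k) 0 + max (z - x - k) 0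

/-- one row -/
def row (k : ℤ) (g : ℕ) (a b : ℕ → ℤ) (i : ℕ) : ℤ :=
  ls k (b i) (a i) - min (a i) k - min (b i) k +
    ∑ j ∈ range g, if i < j then ls k (b i) (a j) - 2 * b i + (ls k (a i) (b j) - 2 * a i) else 0

theorem phi_eq (k : ℕ) (he : Ex e) (he' : Ex e') :
    Phi2 k e e' = (k * (2 * g + 1) ^ 2 : ℕ) + ∑ i ∈ range g, row k g (aa e) (aa e') i := by
  have h1 := dbl he he' fun x y => max ((k : ℤ) + x + y) 0
  have n1 := nn he
  have n2 := nn he'
  have m1 := aa_anti e he.1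
  have m2 := aa_anti e' he'.1
  beta_reduce at h1
  rw [Phi2, h1, wt_eq he, wt_eq he']
  generalize aa e = a at *
  generalize aa e' = b at *
  let u : ℕ → ℕ → ℤ := fun i j => ls k (b i) (a j) - max (a i) (a j) - max (b i) (b j)
  have h2 := sym_sum (range g) (fun i j => u i j + u j i) fun i j => add_comm _ _
  have h3 : ∑ i ∈ range g, ∑ j ∈ range g, (u i j + u j i) =
      2 * ∑ i ∈ range g, ∑ j ∈ range g, u i j := by
    simp only [sum_add_distrib]
    rw [two_mul, sum_comm (f := fun i j => u j i)]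
  have h4 : ∑ i ∈ range g, ∑ j ∈ range g, (max ((k : ℤ) + -b i + -a j) 0 +
      max ((k : ℤ) + -b i + a j) 0 + (max ((k : ℤ) + b i + -a j) 0 + max ((k : ℤ) + b i + a j) 0)) =
      ∑ i ∈ range g, ∑ j ∈ range g, (u i j + max (a i) (a j) + max (b i) (b j) + 4 * k) := by
    refine sum_congr rfl fun i hi => sum_congr rfl fun j hj => ?_
    have := n2 i (mem_range.1 hi).le
    have := n1 j (mem_range.1 hj).le
    simp only [u, ls]; omega
  have h5 : 2 * ∑ i ∈ range g, (max ((k : ℤ) + -b i + 0) 0 + max ((k : ℤ) + b i + 0) 0 +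
      (max ((k : ℤ) + 0 + -a i) 0 + max ((k : ℤ) + 0 + a i) 0)) +
      (∑ i ∈ range g, (u i i + u i i) +
        2 * ∑ i ∈ range g, ∑ j ∈ range g, if i < j then u i j + u j i else 0) =
      2 * ∑ i ∈ range g, (row k g a b i + 4 * k) := by
    simp only [mul_sum (s := range g) (a := (2 : ℤ)) , ← sum_add_distrib]
    refine sum_congr rfl fun i hi => ?_
    have := n2 i (mem_range.1 hi).le
    have := n1 i (mem_range.1 hi).le
    have e1 : ∑ j ∈ range g, 2 * (if i < j then u i j + u j i else 0) = 2 * ∑ j ∈ range g,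
        if i < j then ls k (b i) (a j) - 2 * b i + (ls k (a i) (b j) - 2 * a i) else 0 := by
      rw [mul_sum]
      refine sum_congr rfl fun j hj => ?_
      split_ifs with c
      · have := m1 i j c.le (by have := mem_range.1 hj; omega)
        have := m2 i j c.le (by have := mem_range.1 hj; omega)
        simp only [u, ls]; omega
      · rfl
    rw [e1, row]
    simp only [u]; omega
  have h6 : max ((k : ℤ) + 0 + 0) 0 = k := by omega
  beta_reduce at h2
  rw [h4, h6]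
  simp only [sum_add_distrib, sum_const, card_range, nsmul_eq_mul] at h5 h3 h2 ⊢
  push_cast
  linarith

end ExpA

open ExpA in
theorem exp_k : EXPStmt := by
  intro g k e e' hg h
  have he := h.ex
  have he' := h.ex'
  rw [phi_eq k he he']
  have an : ∀ i j, i ≤ j → j ≤ g → aa e j ≤ aa e i ∧ aa e' j ≤ aa e' i := fun i j c d =>
    ⟨aa_anti e he.1 i j c (by omega), aa_anti e' he'.1 i j c (by omega)⟩
  have n0 : ∀ i, i ≤ g → 0 ≤ aa e i ∧ 0 ≤ aa e' i := fun i c => ⟨nn he i c, nn he' i c⟩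
  have c1 : ∀ i, i ≤ g → aa e i ≤ aa e' i + k ∧ aa e' i ≤ aa e i + k := fun i c => by
    have h1 := abs_le.1 (h.c1 ⟨i, by omega⟩)
    have h2 := aa_eq e ⟨i, by omega⟩
    have h3 := aa_eq e' ⟨i, by omega⟩
    simp only at h2 h3
    omega
  have c2 : ∀ j, 1 ≤ j → j ≤ g → aa e' (j - 1) - aa e j ≤ k ∨
      aa e (j - 1) - aa e' j ≤ k := fun j c d => by
    have h1 := h.c2 ⟨j - 1, by omega⟩ ⟨j, by omega⟩ (by simp only; omega)
    have h2 := aa_eq e ⟨j - 1, by omega⟩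
    have h3 := aa_eq e' ⟨j - 1, by omega⟩
    have h4 := aa_eq e ⟨j, by omega⟩
    have h5 := aa_eq e' ⟨j, by omega⟩
    simp only at h2 h3 h4 h5
    omega
  have nd : ∀ x : Fin (2 * g + 1) → ℤ, Ex x → ¬Dp k x → aa x (g - 1) ≤ k := fun x hx c => by
    simp only [Dp, not_forall, not_lt] at c
    obtain ⟨i, hi⟩ := c
    have h1 := aa_anti x hx.1 i.1 (g - 1) (by omega) (by omega)
    have h2 : aa x i.1 = -x (lo i) := aa_eq x (lo i)
    omega
  have c3 := nd e' he' h.c3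
  have c4 := nd e he
  have h4 : aa e 0 = -e 0 := aa_eq e 0
  have h5 : aa e' 0 = -e' 0 := aa_eq e' 0
  have hl : ∀ i : Fin g, aa e i = -e (lo i) := fun i => aa_eq e (lo i)
  have hm := sum_lo e (fun x => x)
  generalize aa e = a at *
  generalize aa e' = b at *
  constructor
  · intro hd
    have c4 := c4 hd
    let τ : ℕ → ℤ := fun j => max (a j + b j - k) 0 - min (min (a j) (b j)) k
    have hr : ∀ i, i < g → row k g a b i ≤ -min (max (a i) (b i)) k := fun i hi => by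
      have h1 : (∑ j ∈ range g, if i < j then ls k (b i) (a j) - 2 * b i +
          (ls k (a i) (b j) - 2 * a i) else 0) ≤
          -∑ j ∈ range g, if i < j then τ (j - 1) - τ j else 0 := by
        rw [← sum_neg_distrib]
        refine sum_le_sum fun j hj => ?_
        have hj' := mem_range.1 hj
        split_ifs with c
        · have a1 := an i (j - 1) (by omega) (by omega)
          have a2 := an (j - 1) j (by omega) (by omega)
          have a3 := c2 j (by omega) (by omega)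
          have a4 := c1 (j - 1) (by omega)
          have a5 := c1 j (by omega)
          have a6 := n0 j (by omega)
          simp only [τ, ls]; omega
        · rfl
      rw [tel' τ i g hi] at h1
      have a1 := n0 (g - 1) (by omega)
      have a2 := c1 i (by omega)
      have a3 := n0 i (by omega)
      simp only [τ] at h1
      rw [row]
      simp only [ls] at h1 ⊢
      omega
    have h2 : ∑ i ∈ range g, row k g a b i ≤ row k g a b 0 := by
      rw [← add_sum_erase _ _ (mem_range.2 hg)]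
      refine add_le_of_nonpos_right (sum_nonpos fun i hi => ?_)
      have hi' := mem_range.1 (mem_of_mem_erase hi)
      have := hr i hi'
      have := n0 i hi'.le
      omega
    have h3 := hr 0 hg
    rw [gn, ← h4, ← h5]
    omega
  · intro hd
    have c4 : ∀ i, i < g → (k : ℤ) < a i := fun i hi => by
      have h1 := hd ⟨i, hi⟩
      have h2 : a i = _ := hl ⟨i, hi⟩
      omega
    let τ : ℕ → ℤ := fun j => max (b j - k) 0
    have hr : ∀ i ∈ range g, row k g a b i ≤ -(2 * k) - -a i -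
        ∑ j ∈ range g, if i < j then (2 * k : ℤ) else 0 := fun i hi => by
      have hi := mem_range.1 hi
      have h1 : (∑ j ∈ range g, if i < j then ls k (b i) (a j) - 2 * b i +
          (ls k (a i) (b j) - 2 * a i) else 0) ≤
          -(∑ j ∈ range g, if i < j then τ (j - 1) - τ j else 0) -
            ∑ j ∈ range g, if i < j then (2 * k : ℤ) else 0 := by
        rw [← sum_neg_distrib, ← sum_sub_distrib]
        refine sum_le_sum fun j hj => ?_
        have hj' := mem_range.1 hj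
        split_ifs with c
        · have a1 := an i (j - 1) (by omega) (by omega)
          have a2 := an (j - 1) j (by omega) (by omega)
          have a3 := c2 j (by omega) (by omega)
          have a4 := c1 (j - 1) (by omega)
          have a5 := c1 j (by omega)
          have a6 := n0 j (by omega)
          have a7 := c4 j hj'
          simp only [τ, ls]; omega
        · rfl
      rw [tel' τ i g hi] at h1
      have a1 := n0 (g - 1) (by omega)
      have a2 := c1 i (by omega)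
      have a3 := n0 i (by omega)
      have a4 := c4 i hi
      simp only [τ] at h1
      rw [row]
      simp only [ls] at h1 ⊢
      omega
    have h2 := sum_le_sum hr
    have h3 := sym_sum (range g) (fun _ _ => (2 * k : ℤ)) fun _ _ => rfl
    have ht : (2 * tri g : ℤ) = g * (g + 1) := by exact_mod_cast two_tri g
    have ht2 : (k : ℤ) * (2 * tri g) = k * (g * (g + 1)) := by rw [ht]
    beta_reduce at hm h3
    rw [sum_sub_distrib, sum_sub_distrib] at h2
    simp only [sum_const, card_range, nsmul_eq_mul] at h2 h3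
    rw [dp, hm]
    push_cast
    linarith

end Pool.Agent.MP_a43263_nt.K2

end PkK2Exp

section PkK2Fc

/-! THEOREM R2: the count over a finite field. -/

set_option autoImplicit false

noncomputable section

namespace Pool.Agent.MP_a43263_nt.K2

open Polynomial Finset Filter Matrix JC Pool.Agent.MP_a43263_nt.UV

namespace FcA

open U99 in
theorem bd_le' (m : ℕ) :
    ∃ q0 : ℕ, ∀ q, q0 ≤ q → 5 * bd q (m + 1) ≤ 12 * q ^ ((m + 1) * m / 2) := by
  have h : Tendsto (fun q : ℕ => 10 * (1 + 2 / (q : ℝ)) ^ m) atTop (nhds (10 * (1 + 0) ^ m)) :=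
    (((tendsto_const_div_atTop_nhds_zero_nat (2 : ℝ)).const_add 1).pow m).const_mul 10
  obtain ⟨q0, hq⟩ := eventually_atTop.1
    (h.eventually_le_const (show (10 * (1 + 0) ^ m : ℝ) < 12 by norm_num))
  refine ⟨max q0 1, fun q hq0 => ?_⟩
  have h1 : 0 < q := le_of_max_le_right hq0
  have h2 : (0 : ℝ) < q := by exact_mod_cast h1
  have h3 : 10 * (q + 2) ^ m ≤ 12 * q ^ m := by
    have := mul_le_mul_of_nonneg_right (hq q (le_of_max_le_left hq0)) (pow_pos h2 m).le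
    rw [mul_assoc, ← mul_pow, add_mul, div_mul_cancel₀ _ h2.ne', one_mul] at this
    exact_mod_cast this
  refine Nat.le_of_mul_le_mul_right ?_ (pow_pos h1 m)
  rw [mul_assoc, bd_eq]
  calc _ = 10 * (q + 2) ^ m * q ^ ((m + 1) * m / 2) := by ring
    _ ≤ 12 * q ^ m * q ^ ((m + 1) * m / 2) := Nat.mul_le_mul_right _ h3
    _ = _ := by ring

variable {F : Type} [Field F] {n : ℕ}

/-- the orthogonal group, in matrices -/
theorem orth [Fintype F] (h2 : (2 : F) ≠ 0) {A : Matrix (Fin n) (Fin n) F} (hA : A.IsSymm)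
    (hdet : A.det ≠ 0) :
    Nat.card {P : Matrix (Fin n) (Fin n) F // Pᵀ * A * P = A} ≤ U99.bd (Fintype.card F) n := by
  have hs : ∀ x y, toBilin' A x y = toBilin' A y x := fun x y => by
    rw [toBilin'_apply', toBilin'_apply', dotProduct_mulVec, ← mulVec_transpose, hA.eq,
      dotProduct_comm]
  have hn : ∀ x, (∀ y, toBilin' A x y = 0) → x = 0 := fun x hx => by
    refine eq_zero_of_mulVec_eq_zero hdet (dotProduct_eq_zero _ fun y => ?_)
    rw [dotProduct_comm, ← toBilin'_apply', hs, hx]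
  have h3 := U99.orth_le h2 (toBilin' A) hs hn
  rw [Module.finrank_fin_fun, Nat.card_eq_fintype_card (α := F)] at h3
  have : Finite (Module.End F (Fin n → F)) := Finite.of_injective _ DFunLike.coe_injective
  refine le_trans ?_ h3
  refine Nat.card_le_card_of_injective (fun P => ⟨toLin' P.1, fun x y => ?_⟩) fun P Q hh => ?_
  · rw [← LinearMap.BilinForm.comp_apply, toBilin'_comp, P.2]
  · exact Subtype.ext (toLin'.injective (congrArg Subtype.val hh))

variable {A A' N N₀ : Matrix (Fin n) (Fin n) F}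

theorem mul_Tt (h : A.det ≠ 0) : A * Tt A A' N = A - Nᵀ * A'⁻¹ * N := by
  rw [Tt, mul_sub, mul_one, ← mul_assoc, ← mul_assoc, ← mul_assoc,
    mul_nonsing_inv _ h.isUnit, one_mul]

theorem fibre (h : A.det ≠ 0) (h0 : N₀.det ≠ 0) (e : Tt A A' N₀ = Tt A A' N) {ε : F}
    (hε : ε * ε = 1) : (ε • (N * N₀⁻¹))ᵀ * A'⁻¹ * (ε • (N * N₀⁻¹)) = A'⁻¹ := by
  have e1 : Nᵀ * A'⁻¹ * N = N₀ᵀ * A'⁻¹ * N₀ :=
    sub_right_injective ((mul_Tt h).symm.trans (e ▸ mul_Tt h))
  have e2 := mul_nonsing_inv _ h0.isUnit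
  calc _ = (ε * ε) • (N₀⁻¹ᵀ * (Nᵀ * A'⁻¹ * N) * N₀⁻¹) := by
        simp only [transpose_smul, transpose_mul, smul_mul_assoc, mul_smul_comm, smul_smul,
          mul_assoc]
    _ = (N₀ * N₀⁻¹)ᵀ * A'⁻¹ * (N₀ * N₀⁻¹) := by
        rw [hε, one_smul, e1]; simp only [transpose_mul, mul_assoc]
    _ = _ := by rw [e2, transpose_one, one_mul, mul_one]

end FcA

open FcA in
theorem fc_k : FCStmt := by
  intro g hg
  obtain ⟨q0, hq⟩ := bd_le' (2 * g)
  obtain ⟨q1, hq1⟩ := U99.fieldCount g hg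
  refine ⟨max q0 q1, fun F _ _ _ h0 h2 A A' hA hA' hd hd' m h hm hi hn => ?_⟩
  have h3 := hq1 F (le_of_max_le_right h0) h2 A hA hd 0 h hi hn
  have h4 := (Nat.mul_le_mul_left 5 (orth h2 hA'.inv (by
    rw [det_nonsing_inv, Ring.inverse_eq_inv]; exact inv_ne_zero hd'))).trans
    (hq _ (le_of_max_le_left h0))
  rw [show (2 * g + 1) * (2 * g) / 2 = g * (2 * g + 1) by
    rw [show (2 * g + 1) * (2 * g) = 2 * (g * (2 * g + 1)) by ring,
      Nat.mul_div_cancel_left _ two_pos]] at h4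
  have ex : ∀ T : Mat g F, ∃ N₀ : Mat g F, ∀ N : Mat g F, N.det = m → Tt A A' N = T →
      N₀.det ≠ 0 ∧ Tt A A' N₀ = T := fun T => by
    by_cases c : ∃ N : Mat g F, N.det = m ∧ Tt A A' N = T
    · obtain ⟨N, c1, c2⟩ := c
      exact ⟨N, fun _ _ _ => ⟨c1 ▸ hm, c2⟩⟩
    · exact ⟨0, fun N c1 c2 => absurd ⟨N, c1, c2⟩ c⟩
  choose ν hν using ex
  let ε : Bool → F := fun b => if b then 1 else -1
  have e1 : ∀ b, ε b * ε b = 1 := fun b => by cases b <;> simp [ε]
  have e2 : ∀ b, ε b ^ (2 * g + 1) = ε b := fun b => by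
    rw [pow_succ, pow_mul, sq, e1, one_pow, one_mul]
  have e3 : ∀ b b', ε b = ε b' → b = b' := fun b b' e => by
    have : (1 : F) ≠ -1 := fun c => h2 (by linear_combination c)
    cases b <;> cases b' <;> simp_all [ε, this.symm]
  have key := Nat.card_le_card_of_injective
    (α := {N : Mat g F // N.det = m ∧ St (X * h) A (A * Tt A A' N)} × Bool)
    (β := {T : Mat g F // (A * T).IsSymm ∧ T.charpoly = (X - C 0) * h ∧
      ∃ (x : Fin (2 * g + 1) → F) (s : F), s ≠ 0 ∧ T *ᵥ x = (0 : F) • x ∧ x ⬝ᵥ A *ᵥ x = s ^ 2} ×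
      {P : Mat g F // Pᵀ * A'⁻¹ * P = A'⁻¹})
    (fun z => (⟨Tt A A' z.1.1, by
      obtain ⟨T, t1, t2, t3⟩ := z.1.2.2
      have := invertibleOfIsUnitDet A hd.isUnit
      rw [← Matrix.mul_right_injective_of_invertible A t1, C_0, sub_zero]
      refine ⟨?_, t2, by simpa only [zero_smul] using t3⟩
      rw [t1, mul_Tt hd]
      refine hA.sub ?_
      rw [Matrix.IsSymm, transpose_mul, transpose_mul, transpose_transpose, hA'.inv.eq, mul_assoc]⟩,
      ⟨ε z.2 • (z.1.1 * (ν (Tt A A' z.1.1))⁻¹),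
        fibre hd (hν _ _ z.1.2.1 rfl).1 (hν _ _ z.1.2.1 rfl).2 (e1 _)⟩)) (by
    rintro ⟨N, b⟩ ⟨N', b'⟩ e
    have a1 : Tt A A' N.1 = Tt A A' N'.1 := congrArg (·.1.1) e
    have a2 : ε b • (N.1 * (ν (Tt A A' N.1))⁻¹) = ε b' • (N'.1 * (ν (Tt A A' N'.1))⁻¹) :=
      congrArg (·.2.1) e
    rw [← a1] at a2
    have a3 := congrArg (· * ν (Tt A A' N.1)) a2
    simp only [smul_mul_assoc, mul_assoc, nonsing_inv_mul _ (hν _ _ N.2.1 rfl).1.isUnit,
      mul_one] at a3
    have a4 := congrArg det a3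
    rw [det_smul, det_smul, Fintype.card_fin, e2, e2, N.2.1, N'.2.1] at a4
    obtain rfl := e3 _ _ (mul_right_cancel₀ hm a4)
    exact Prod.ext (Subtype.ext (smul_right_injective _ (left_ne_zero_of_mul_eq_one (e1 b)) a3))
      rfl)
  rw [Nat.card_prod, Nat.card_prod, Nat.card_eq_fintype_card (α := Bool), Fintype.card_bool] at key
  have h5 := Nat.mul_le_mul h3 h4
  rw [show 2 * g * (2 * g + 1) = g * (2 * g + 1) + g * (2 * g + 1) by ring, pow_add]
  nlinarith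

end Pool.Agent.MP_a43263_nt.K2

end

end PkK2Fc

section PkK2Gcd

/-! THEOREM R2, row GCD: large common prime factors of two coordinates are rare. -/

set_option autoImplicit false

noncomputable section

namespace Pool.Agent.MP_a43263_nt.K2

open Polynomial Finset Filter Matrix JC Pool.Agent.MP_a43263_nt.UV

namespace GcdA

theorem sum_xp (g : ℕ) : ∑ i : Fin (2 * g + 1), xp g i.1 = (2 * g + 1) ^ 2 := by
  have h : ∀ n : ℕ, ∑ i ∈ range n, 2 * (i + 1) = n * (n + 1) := fun n => by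
    induction n with
    | zero => rfl
    | succ n ih => rw [sum_range_succ, ih]; ring
  rw [Fin.sum_univ_eq_sum_range (xp g) (2 * g + 1), sum_range_succ,
    sum_congr rfl fun i hi => show xp g i = 2 * (i + 1) from if_neg (mem_range.1 hi).ne, h,
    show xp g (2 * g) = 2 * g + 1 from if_pos rfl]
  ring

theorem mult (a L : ℤ) (p : ℕ) (hp : 0 < p) (h1 : 1 ≤ L) (h : (p : ℤ) ≤ 8 * L) :
    (((Icc (a - L) (a + L)).filter fun x => (p : ℤ) ∣ x).card : ℝ) ≤ 11 * (L : ℝ) * (1 / p) := by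
  have e : Icc (a - L) (a + L) = Ioc (a - L - 1) (a + L) := by
    ext x; simp only [mem_Icc, mem_Ioc]; omega
  have h2 := Int.Ioc_filter_dvd_card (a - L - 1) (a + L)
    (r := (p : ℤ)) (by exact_mod_cast hp)
  have p0 : (0 : ℚ) < p := by exact_mod_cast hp
  have hL : (1 : ℚ) ≤ L := by exact_mod_cast h1
  have hq : (p : ℚ) ≤ 8 * L := by exact_mod_cast h
  have h3 := Int.floor_le (((a + L : ℤ) : ℚ) / ((p : ℤ) : ℚ))
  have h4 := Int.lt_floor_add_one (((a - L - 1 : ℤ) : ℚ) / ((p : ℤ) : ℚ))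
  have h5 : ((((Ioc (a - L - 1) (a + L)).filter fun x => (p : ℤ) ∣ x).card : ℤ) : ℚ) ≤
      11 * (L : ℚ) * (1 / p) := by
    rw [h2, Int.cast_max]
    refine max_le ?_ (by simp only [Int.cast_zero]; positivity)
    have h6 : ((a + L : ℤ) : ℚ) / ((p : ℤ) : ℚ) - ((a - L - 1 : ℤ) : ℚ) / ((p : ℤ) : ℚ) + 1 ≤
        11 * (L : ℚ) * (1 / p) := by
      push_cast
      rw [← sub_div, div_add_one p0.ne', mul_one_div]
      exact div_le_div_of_nonneg_right (by linarith) p0.le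
    rw [Int.cast_sub]
    linarith
  rw [e]
  have := (Rat.cast_le (K := ℝ)).2 h5
  push_cast at this
  simpa using this

theorem one (g k p : ℕ) (hg : 1 ≤ g) (hk : 1 ≤ k) (hp : 0 < p) (h : p ≤ 8 * k ^ (2 * g + 1)) :
    cnt g k (fun w => (p : ℤ) ∣ w (Fin.last _) ∧
      ∀ i : Fin (2 * g + 1), i.1 + 1 = 2 * g → (p : ℤ) ∣ w i) ≤
        11 ^ (2 * g + 1) * vol g k * ((p : ℝ) ^ 2)⁻¹ := by
  classical
  let P : Fin (2 * g + 1) → Prop := fun i => i.1 = 2 * g ∨ i.1 + 1 = 2 * g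
  let S : Fin (2 * g + 1) → Finset ℤ := fun i =>
    (Icc (ce g k i.1 - (k : ℤ) ^ xp g i.1) (ce g k i.1 + (k : ℤ) ^ xp g i.1)).filter
      fun x => P i → (p : ℤ) ∣ x
  have k1 : (1 : ℤ) ≤ k := by exact_mod_cast hk
  have p1 : (1 : ℝ) ≤ p := by exact_mod_cast hp
  have hS : ∀ i, ((S i).card : ℝ) ≤ 11 * (k : ℝ) ^ xp g i.1 * if P i then 1 / (p : ℝ) else 1 := by
    intro i
    split_ifs with e
    · have := mult (ce g k i.1) ((k : ℤ) ^ xp g i.1) p hp (one_le_pow₀ k1) (by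
        have h1 : (p : ℤ) ≤ 8 * (k : ℤ) ^ (2 * g + 1) := by exact_mod_cast h
        have h2 : (k : ℤ) ^ (2 * g + 1) ≤ (k : ℤ) ^ xp g i.1 := pow_le_pow_right₀ k1 (by
          unfold xp; rcases e with e | e <;> split_ifs <;> omega)
        linarith)
      simpa only [S, e, true_imp_iff, Int.cast_pow, Int.cast_natCast] using this
    · have := mult (ce g k i.1) ((k : ℤ) ^ xp g i.1) 1 one_pos (one_le_pow₀ k1) (by
        have := one_le_pow₀ (n := xp g i.1) k1
        push_cast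
        linarith)
      simpa [S, e] using this
  have hc : 2 ≤ (univ.filter P).card := one_lt_card.2 ⟨Fin.last _, by simp [P],
    ⟨2 * g - 1, by omega⟩, by simp only [P, mem_filter, mem_univ, true_and]; omega,
    fun e => by have := congrArg Fin.val e; simp only [Fin.val_last] at this; omega⟩
  rw [cnt_eq_card]
  calc _ ≤ ((Fintype.piFinset S).card : ℝ) := by
        refine Nat.cast_le.2 (card_le_card fun w hw => Fintype.mem_piFinset.2 fun i => ?_)
        simp only [mem_filter] at hw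
        obtain ⟨h1, h2, h3⟩ := hw
        refine mem_filter.2 ⟨mem_Icc.2 (mem_bx.1 h1 i), fun e => e.elim (fun e => ?_) (h3 i)⟩
        rwa [show i = Fin.last _ from Fin.ext e]
    _ ≤ ∏ i, 11 * (k : ℝ) ^ xp g i.1 * if P i then 1 / (p : ℝ) else 1 := by
        rw [Fintype.card_piFinset, Nat.cast_prod]
        exact prod_le_prod (fun i _ => Nat.cast_nonneg _) fun i _ => hS i
    _ = 11 ^ (2 * g + 1) * vol g k * (1 / (p : ℝ)) ^ (univ.filter P).card := by
        rw [prod_mul_distrib, prod_mul_distrib, prod_const, prod_pow_eq_pow_sum, sum_xp, prod_ite,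
          prod_const, prod_const_one, mul_one, card_univ, Fintype.card_fin, vol]
    _ ≤ _ := by
        refine mul_le_mul_of_nonneg_left ?_ (by unfold vol; positivity)
        rw [← inv_pow, one_div]
        exact pow_le_pow_of_le_one (by positivity) (inv_le_one_of_one_le₀ p1) hc

end GcdA

theorem gcd_k : GCDStmt := by
  refine fun g hg => ⟨2 * 11 ^ (2 * g + 1), by positivity, fun k M hk hM => ?_⟩
  have c1 : 1 ≤ ⌈M⌉₊ := Nat.one_le_ceil_iff.2 (by linarith)
  have v0 : 0 ≤ vol g k := by unfold vol; positivity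
  refine (cnt_le_sum (Ioo (⌈M⌉₊ - 1) (8 * k ^ (2 * g + 1) + 1)) (fun p w => (p : ℤ) ∣ w (Fin.last _) ∧
    ∀ i : Fin (2 * g + 1), i.1 + 1 = 2 * g → (p : ℤ) ∣ w i) ?_).trans ?_
  · rintro w hw ⟨p, -, h1, h2, h3⟩
    have h4 := mem_bx.1 hw (Fin.last _)
    simp only [Fin.val_last, ce, xp, or_true, if_true] at h4
    have h5 : (1 : ℤ) ≤ (k : ℤ) ^ (2 * g + 1) := one_le_pow₀ (by exact_mod_cast hk)
    have h6 : (p : ℤ) ≤ 8 * (k : ℤ) ^ (2 * g + 1) :=
      (Int.le_of_dvd (by linarith) h2).trans (by linarith)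
    have h7 : p ≤ 8 * k ^ (2 * g + 1) := by exact_mod_cast h6
    have h8 := Nat.ceil_le.2 h1
    exact ⟨p, mem_Ioo.2 ⟨by omega, by omega⟩, h2, h3⟩
  · refine (sum_le_sum fun p hp => GcdA.one g k p hg hk (by have := mem_Ioo.1 hp; omega)
      (by have := mem_Ioo.1 hp; omega)).trans ?_
    rw [← mul_sum]
    have h1 := sum_Ioo_inv_sq_le (α := ℝ) (⌈M⌉₊ - 1) (8 * k ^ (2 * g + 1) + 1)
    rw [Nat.cast_sub c1, Nat.cast_one, sub_add_cancel] at h1
    have h2 : (2 : ℝ) / ⌈M⌉₊ ≤ 2 / M :=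
      div_le_div_of_nonneg_left zero_le_two (by linarith) (Nat.le_ceil M)
    refine (mul_le_mul_of_nonneg_left (h1.trans h2) (by positivity)).trans (le_of_eq (by ring))

end Pool.Agent.MP_a43263_nt.K2

end

end PkK2Gcd

section PkK2Idx

/-! THEOREM R2, row IDX: the index of `2 J(ℚ)` in `J(ℚ)` for a polynomial that need not split. -/

set_option autoImplicit false

noncomputable section

namespace Pool.Agent.MP_a43263_nt.K2

open Polynomial Finset Filter Matrix JC Pool.Agent.MP_a43263_nt.UV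

namespace IdxA

open JC.Sha

/-- the signed norm -/
def sn (U : ℚ[X]) : ℚ[X] := C ((-1) ^ U.natDegree) * U

theorem sn_mul {U U' : ℚ[X]} (h : U.Monic) (h' : U'.Monic) : sn (U * U') = sn U * sn U' := by
  simp only [sn, h.natDegree_mul h', pow_add, C_mul]; ring

theorem sn_cop {U F : ℚ[X]} (h : IsCoprime U F) : IsCoprime (sn U) F :=
  (isCoprime_mul_unit_left_left (isUnit_C.2 (isUnit_one.neg.pow _)) _ _).2 h

theorem sn_ev (U : ℚ[X]) (x : Qbar) : (fK (sn U) Qbar).eval x = nb (fK U Qbar) x := by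
  simp [sn, nb, fK]

theorem sq_tr {F x y z : ℚ[X]} (hy : IsCoprime y F) (h : Sqm F (x * y)) (h' : Sqm F (y * z)) :
    Sqm F (x * z) := by
  obtain ⟨u, b, hy⟩ := hy
  obtain ⟨s, c, h⟩ := h
  obtain ⟨t, d, h'⟩ := h'
  exact ⟨s * t * u, x * z * b * (2 * u * y + b * F) + u ^ 2 * (s ^ 2 * d + c * t ^ 2 + F * c * d), by
    linear_combination (-(x * z * (1 + u * y + b * F))) * hy + u ^ 2 * (y * z) * h +
      u ^ 2 * (s ^ 2 + F * c) * h'⟩

theorem ec (φ : ℚ →+* Qbar) : φ = Rat.castHom Qbar := RingHom.ext_rat _ _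

variable {ι : Type} [Fintype ι] {g : ℕ} {F : ℚ[X]} {a : ι → Qbar} (h : Cv g a (fK F Qbar))

include h

theorem sqm_iff (d : ℚ[X]) :
    Sqm F d ↔ ∃ z : ℚ[X], ∀ i, (fK z Qbar).eval (a i) ^ 2 = (fK d Qbar).eval (a i) := by
  refine exists_congr fun z => ⟨fun ⟨w, hs⟩ i => ?_, fun e => UM.dvd_of_roots _ h fun i => ?_⟩
  · have := congrArg (fun p => (fK p Qbar).eval (a i)) hs
    simp only [fK, Polynomial.map_sub, Polynomial.map_mul, Polynomial.map_pow, eval_sub, eval_mul,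
      eval_pow, (UM.root_iff h _).2 ⟨i, rfl⟩, zero_mul] at this
    exact (sub_eq_zero.1 this).symm
  · rw [Polynomial.map_sub, Polynomial.map_pow, eval_sub, eval_pow, e, sub_self]

theorem cop {U : ℚ[X]} (c : IsCoprime U F) (i : ι) : (fK U Qbar).eval (a i) ≠ 0 := by
  have h' : Cv g a (F.map (algebraMap ℚ Qbar)) := ec (algebraMap _ _) ▸ h
  have := (UM.cop_iff h').1 c i
  rwa [ec (algebraMap _ _)] at this

/-- an invariant ideal class is twice a rational point iff the signed norm is a square -/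
theorem key {D : Ideal (Rg (fK F Qbar))} {w : ℚ[X]} (hn : Nu D (fK w Qbar)) (hw : IsCoprime w F)
    (hD : ∀ σ : Qbar →+* Qbar, D.map (rmap σ (fK_map F σ)) = D) :
    (∃ Q ∈ JQ F, 2 • Q = Additive.ofMul (cl D)) ↔ Sqm F (sn w) := by
  obtain ⟨z1, z2, -⟩ := JC.T.zed Qbar ι g _ _ h
  obtain ⟨π, hπ, p1, pm⟩ := UM.exists_perm h
  have iv : ∀ σ i, π σ (π σ⁻¹ i) = i := fun σ i => by rw [← pm, mul_inv_cancel, p1]
  have iv' : ∀ σ i, π σ⁻¹ (π σ i) = i := fun σ i => by rw [← pm, inv_mul_cancel, p1]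
  have act : ∀ (σ : GQ) {R : Jac F Qbar} {ρ : ι → Qbar}, Z a _ R.toMul D ρ →
      Z a _ (jac F σ R).toMul D fun i => σ (ρ (π σ⁻¹ i)) := fun σ R ρ z => by
    have := UM.z_map h (σ : Qbar →+* Qbar) (b := a) (η := fun i => σ (ρ (π σ⁻¹ i))) z fun i =>
      ⟨π σ⁻¹ i, by rw [RingHom.coe_coe, hπ, iv], rfl⟩
    rwa [hD] at this
  have n0 : ∀ i, nb (fK w Qbar) (a i) ≠ 0 := fun i => sn_ev w (a i) ▸ cop h (sn_cop hw) i
  rw [sqm_iff h]
  simp only [sn_ev]
  constructor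
  · rintro ⟨Q, hQ, e⟩
    obtain ⟨ρ, z⟩ := z2 Q.toMul D _ hn (cop h hw) (congrArg Additive.toMul e)
    obtain ⟨p, hp⟩ := UM.interp (K := ℚ) (z := ρ) h.inj fun σ => ⟨π σ, fun i => ⟨hπ σ i, by
      have k := act σ z
      rw [hQ σ] at k
      exact (congrArg (fun j => σ (ρ j)) (iv' σ i)).symm.trans (UM.z_unique h z k (π σ i))⟩⟩
    refine ⟨p, fun i => ?_⟩
    rw [← (z1 _ _ _ _ z hn).2 i, ← hp i]
    exact congrArg (fun φ => (p.map φ).eval (a i) ^ 2) (ec _).symm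
  · rintro ⟨s, e1⟩
    obtain ⟨R, hR⟩ := JC.T.half Qbar ι g _ _ h (cl D)
    obtain ⟨ρ, z⟩ := z2 R D _ hn (cop h hw) hR
    have h1 := (z1 _ _ _ _ z hn).2
    have r0 : ∀ i, ρ i ≠ 0 := fun i => ne_of_sq (h1 i) (n0 i)
    obtain ⟨η, hη⟩ : ∃ η : ι → Qbar, ∀ i, η i = (fK s Qbar).eval (a i) / ρ i := ⟨_, fun _ => rfl⟩
    have e2 : ∀ i, η i ^ 2 = 1 := fun i => by rw [hη, div_pow, e1, h1, div_self (n0 i)]
    obtain ⟨ε, hε⟩ : ∃ ε, ε = ∏ i, η i := ⟨_, rfl⟩
    have e4 : ε ^ 2 = 1 := by rw [hε, ← prod_pow, prod_eq_one fun i _ => e2 i]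
    obtain ⟨T, hT⟩ := (JC.T.zt Qbar ι g _ _ h).2 (fun i => ε * η i)
      (fun i => by rw [mul_pow, e4, e2, one_mul])
      (by rw [prod_mul_distrib, prod_const, card_univ, h.card, ← hε, pow_succ, pow_mul, e4,
        one_pow, one_mul, ← sq, e4])
    have z' := UM.z_add h (R := Additive.ofMul R) (R' := Additive.ofMul T) z hT
    have e5 : (fun i => ρ i * (ε * η i)) = fun i => ε * (fK s Qbar).eval (a i) :=
      funext fun i => by rw [hη, mul_left_comm, mul_div_cancel₀ _ (r0 i)]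
    rw [e5] at z'
    refine ⟨_, fun σ => sub_eq_zero.1 (((JC.T.zt Qbar ι g _ _ h).1 _ _
      (UM.z_sub h z' (act σ z'))).2 fun i => ?_), congrArg Additive.ofMul (z1 _ _ _ _ z' hn).1⟩
    have e6 : σ ε = ε := map_sign (σ : Qbar →+* Qbar) e4
    have e7 : σ ((fK s Qbar).eval (a (π σ⁻¹ i))) = (fK s Qbar).eval (a i) := by
      rw [← RingHom.coe_coe, ← eval₂_at_apply, ← eval_map, fK_map, RingHom.coe_coe, hπ, iv]
    rw [map_mul, e6, e7]
    exact div_self (mul_ne_zero (ne_of_sq e4 one_ne_zero) (ne_of_sq (e1 i) (n0 i)))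

omit h in
theorem mi_fix (σ : Qbar →+* Qbar) (U V : ℚ[X]) :
    (MI (fK F Qbar) (fK U Qbar) (fK V Qbar)).map (rmap σ (fK_map F σ)) =
      MI (fK F Qbar) (fK U Qbar) (fK V Qbar) := by
  rw [mi_map, fK_map, fK_map]

theorem mi_nu {U V : ℚ[X]} (hm : U.Monic) (hd : U ∣ F - V ^ 2) :
    Nu (MI (fK F Qbar) (fK U Qbar) (fK V Qbar)) (fK U Qbar) :=
  (JC.mum Qbar ι g _ _ h).2.2.2.2.2.2.2.2.2.1 _ _ (hm.map _) ((RatA.dvd_map _ rfl).2 hd)

theorem mem_JQ {U V : ℚ[X]} (hm : U.Monic) (hd : U ∣ F - V ^ 2) :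
    Additive.ofMul (cl (MI (fK F Qbar) (fK U Qbar) (fK V Qbar))) ∈ JQ F := fun σ => by
  have := UM.cl_map (UM.Sq.of_cv h) (UM.Sq.of_cv h) (σ : Qbar →+* Qbar) (fK_map F _)
    (hm.map _) ((RatA.dvd_map _ rfl).2 hd)
  rw [fK_map, fK_map] at this
  exact congrArg Additive.ofMul this

/-- two rational pairs have the same class modulo `2 J(ℚ)` iff the norms agree up to squares -/
theorem same_iff {U V U' V' : ℚ[X]} (hm : U.Monic) (hd : U ∣ F - V ^ 2) (hc : IsCoprime U F)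
    (hm' : U'.Monic) (hd' : U' ∣ F - V' ^ 2) (hc' : IsCoprime U' F) (P P' : JQ F)
    (hP : P.1 = Additive.ofMul (cl (MI (fK F Qbar) (fK U Qbar) (fK V Qbar))))
    (hP' : P'.1 = Additive.ofMul (cl (MI (fK F Qbar) (fK U' Qbar) (fK V' Qbar)))) :
    -P + P' ∈ (nsmulAddMonoidHom 2 : JQ F →+ JQ F).range ↔ Sqm F (sn U * sn U') := by
  have hM := JC.mum Qbar ι g _ _ h
  have : IsDomain (Rg (fK F Qbar)) := hM.1.2.2.2
  have n1 := mi_nu h hm hd
  have n2 := mi_nu h hm' hd'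
  have n3 := hM.2.2.2.2.2.2.2.2.2.2.2.2.1 _ _ _ _ n1 n2
  rw [← Polynomial.map_mul] at n3
  have hk := key h n3 (hc.mul_left hc') fun σ => by rw [Ideal.map_mul, mi_fix, mi_fix]
  rw [(JC.pic.1 _).2.2.1 _ _ (hM.2.2.2.2.2.2.2.2.2.2.2.2.2.2.1 _ _ n1).2.1
    (hM.2.2.2.2.2.2.2.2.2.2.2.2.2.2.1 _ _ n2).2.1, ofMul_mul, ← hP, ← hP', sn_mul hm hm'] at hk
  rw [← hk]
  constructor
  · rintro ⟨Q, hQ⟩
    refine ⟨(Q + P : JQ F).1, (Q + P).2, ?_⟩
    have e : 2 • (Q + P) = P + P' := by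
      have hQ' : 2 • Q = -P + P' := hQ
      rw [nsmul_add, hQ', two_nsmul]; abel
    exact congrArg Subtype.val e
  · rintro ⟨Q, hQ, e⟩
    have e' : 2 • (⟨Q, hQ⟩ : JQ F) = P + P' := Subtype.ext e
    refine ⟨⟨Q, hQ⟩ - P, ?_⟩
    show 2 • ((⟨Q, hQ⟩ : JQ F) - P) = -P + P'
    rw [nsmul_sub, e', two_nsmul]; abel

theorem rep (h0 : UM.Sq g F) (P : JQ F) : ∃ U V : ℚ[X], U.Monic ∧ U ∣ F - V ^ 2 ∧ IsCoprime U F ∧
    P.1 = Additive.ofMul (cl (MI (fK F Qbar) (fK U Qbar) (fK V Qbar))) := by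
  have sb := UM.Sq.of_cv h
  obtain ⟨U0, V0, hr0, hP⟩ := UM.rat (K := ℚ) (f := F) sb (congrArg (fun φ => F.map φ) (ec _))
    (Additive.toMul P.1) fun σ _ => congrArg Additive.toMul (P.2 σ)
  have e2 : ∀ φ : ℚ →+* Qbar, cl (MI (fK F Qbar) (fK U0 Qbar) (fK V0 Qbar)) =
      cl (MI (fK F Qbar) (U0.map φ) (V0.map φ)) := fun φ => by rw [ec φ]
  obtain ⟨⟨U, V⟩, hm, cp, e0⟩ := (UM.move h0).1 (cl (MI _ U0 V0)) _ h0.mo.ne_zero
  refine ⟨U, V, hm.1, hm.2.1, cp, congrArg Additive.ofMul (((e2 _).trans hP).symm.trans ?_)⟩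
  rw [← UM.cl_map h0 sb _ rfl hm.1 hm.2.1, ← UM.cl_map h0 sb _ rfl hr0.1 hr0.2.1, ← e0]
  rfl

end IdxA

open IdxA in
theorem idx_k : IDXStmt := by
  intro g F I hF hW hI hS
  obtain ⟨a, h⟩ := UM.exists_cv (F := fK F Qbar) hF.pos (hF.monic.map _)
    ((hF.monic.natDegree_map _).trans hF.deg) hF.sep.map
  have hW' : ∀ d ∈ I, ∃ U V : ℚ[X], U.Monic ∧ U ∣ F - V ^ 2 ∧ IsCoprime U F ∧ IsCoprime d F ∧
      Sqm F (d * sn U) := fun d hd => by
    obtain ⟨c, U, V, s, h1, h2, h3, h4⟩ := hW d hd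
    rw [C_1, one_mul] at h2
    exact ⟨U, V, h1, h2, h3, c, s, h4⟩
  choose U V hm hd hc hc' hs using hW'
  let P : I → JQ F := fun d => ⟨_, mem_JQ h (hm d.1 d.2) (hd d.1 d.2)⟩
  let q : I → JQ F ⧸ (nsmulAddMonoidHom 2 : JQ F →+ JQ F).range :=
    fun d => QuotientAddGroup.mk (P d)
  have hq : Function.Bijective q := by
    constructor
    · intro d e hde
      have h1 := (same_iff h (hm d.1 d.2) (hd d.1 d.2) (hc d.1 d.2) (hm e.1 e.2) (hd e.1 e.2)
        (hc e.1 e.2) (P d) (P e) rfl rfl).1 (QuotientAddGroup.eq.1 hde)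
      exact Subtype.ext (hI d.1 d.2 e.1 e.2 (sq_tr (sn_cop (hc e.1 e.2))
        (sq_tr (sn_cop (hc d.1 d.2)) (hs d.1 d.2) h1) (by rw [mul_comm]; exact hs e.1 e.2)))
    · intro x
      obtain ⟨Q, rfl⟩ := QuotientAddGroup.mk_surjective x
      obtain ⟨U', V', h1, h2, h3, e⟩ := rep h ⟨hF.monic, hF.deg, hF.sep.squarefree⟩ Q
      obtain ⟨d, hd', h4⟩ := hS (sn U') ⟨sn_cop h3, U', V', sn U', h1,
        by rwa [C_1, one_mul], h3, 0, by rw [sq, mul_zero]; exact sub_self _⟩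
      refine ⟨⟨d, hd'⟩, (QuotientAddGroup.eq.2 ?_).symm⟩
      exact (same_iff h h1 h2 h3 (hm d hd') (hd d hd') (hc d hd') Q (P ⟨d, hd'⟩) e rfl).2
        (sq_tr (hc' d hd') h4 (hs d hd'))
  rw [AddSubgroup.index_eq_card, ← Nat.card_eq_of_bijective q hq, Nat.card_eq_fintype_card,
    Fintype.card_coe]

end Pool.Agent.MP_a43263_nt.K2

end

end PkK2Idx

section PkK2Irr

/-! THEOREM R2: irreducible polynomials over prime fields with prescribed values. -/

set_option autoImplicit false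

noncomputable section

namespace Pool.Agent.MP_a43263_nt.K2

open Polynomial Finset Filter Matrix JC Pool.Agent.MP_a43263_nt.UV

namespace IrrA

open IntermediateField

/-- the value of the minimal polynomial of a primitive element is a norm -/
theorem ev {F K : Type} [Field F] [Field K] [Algebra F K] [FiniteDimensional F K] {g : ℕ}
    (hK : Module.finrank F K = 2 * g) {α : K} (h : (minpoly F α).natDegree = 2 * g) (c : F) :
    (minpoly F α).eval c = Algebra.norm F (α - algebraMap F K c) := by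
  have hi : IsIntegral F (α - algebraMap F K c) := IsIntegral.of_finite _ _
  have hm := minpoly.sub_algebraMap α c
  have hd : (minpoly F (α - algebraMap F K c)).natDegree = 2 * g := by
    rw [hm, natDegree_comp, natDegree_X_add_C, mul_one, h]
  have ht : F⟮α - algebraMap F K c⟯ = ⊤ :=
    (Field.primitive_element_iff_minpoly_natDegree_eq _ _).2 (hd.trans hK.symm)
  have := Algebra.PowerBasis.norm_gen_eq_coeff_zero_minpoly
    (PowerBasis.ofAdjoinEqTop hi (adjoin_eq_top_iff.1 ht))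
  rw [PowerBasis.ofAdjoinEqTop_gen, PowerBasis.ofAdjoinEqTop_dim, hd, pow_mul, neg_one_sq,
    one_pow, one_mul, coeff_zero_eq_eval_zero, hm, eval_comp] at this
  rw [this]
  simp

theorem fix (p : ℕ) [Fact p.Prime] {N : ℕ} (α x : GaloisField p N) (hx : x ∈ (ZMod p)⟮α⟯) :
    x ^ p ^ (minpoly (ZMod p) α).natDegree = x := by
  have hi : IsIntegral (ZMod p) α := IsIntegral.of_finite _ α
  have := Fintype.ofFinite (ZMod p)⟮α⟯
  have hc : Fintype.card (ZMod p)⟮α⟯ = p ^ (minpoly (ZMod p) α).natDegree := by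
    rw [← Nat.card_eq_fintype_card, Module.natCard_eq_pow_finrank (K := ZMod p), Nat.card_zmod,
      adjoin.finrank hi]
  have h2 := congrArg Subtype.val (FiniteField.pow_card (⟨x, hx⟩ : (ZMod p)⟮α⟯))
  rw [hc] at h2
  exact h2

theorem one (p : ℕ) [Fact p.Prime] {g : ℕ} (hg : 1 ≤ g) (c : ZMod p) (h2 : p ≠ 2) :
    ∃ h : (ZMod p)[X], h.Monic ∧ h.natDegree = 2 * g ∧ Irreducible h ∧ ¬IsSquare (h.eval c) := by
  have hK := GaloisField.finrank p (n := 2 * g) (by omega)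
  obtain ⟨γ, hγ⟩ := IsCyclic.exists_monoid_generator (α := (GaloisField p (2 * g))ˣ)
  have hp : ∀ x : GaloisField p (2 * g), x ≠ 0 → ∃ k : ℕ, γ.1 ^ k = x := fun x hx => by
    obtain ⟨k, hk⟩ := hγ (Units.mk0 x hx)
    exact ⟨k, congrArg Units.val hk⟩
  have ht : (ZMod p)⟮γ.1⟯ = ⊤ := top_le_iff.1 fun x _ => by
    by_cases hx : x = 0
    · exact hx ▸ zero_mem _
    · obtain ⟨k, rfl⟩ := hp x hx
      exact pow_mem (mem_adjoin_simple_self _ _) k
  have hd := ((Field.primitive_element_iff_minpoly_natDegree_eq _ _).1 ht).trans hK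
  set α := γ.1 + algebraMap (ZMod p) (GaloisField p (2 * g)) c with hα
  have hi : IsIntegral (ZMod p) α := IsIntegral.of_finite _ _
  have hd' : (minpoly (ZMod p) α).natDegree = 2 * g := by
    rw [hα, minpoly.add_algebraMap, natDegree_comp, natDegree_X_sub_C, mul_one, hd]
  refine ⟨_, minpoly.monic hi, hd', minpoly.irreducible hi, fun hs => ?_⟩
  rw [ev hK hd', hα, add_sub_cancel_right] at hs
  obtain ⟨a, ha⟩ := FiniteField.exists_nonsquare (F := ZMod p) (by rwa [ZMod.ringChar_zmod_n])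
  obtain ⟨x, rfl⟩ := FiniteField.norm_surjective (ZMod p) (GaloisField p (2 * g)) a
  by_cases hx : x = 0
  · exact ha (by rw [hx, Algebra.norm_zero]; exact IsSquare.zero)
  · obtain ⟨k, rfl⟩ := hp x hx
    exact ha (by rw [map_pow]; exact hs.pow k)

theorem two (p : ℕ) [hp : Fact p.Prime] {g : ℕ} (hg : 1 ≤ g) (h5 : 5 ≤ p) :
    ∃ h : (ZMod p)[X], h.Monic ∧ h.natDegree = 2 * g ∧ Irreducible h ∧ IsSquare (h.eval 0) ∧
      IsSquare (h.eval 1) := by
  have hK := GaloisField.finrank p (n := 2 * g) (by omega)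
  obtain ⟨γ, hγ⟩ := IsCyclic.exists_generator (α := (GaloisField p (2 * g))ˣ)
  have ho := orderOf_eq_card_of_forall_mem_zpowers hγ
  rw [Nat.card_units, GaloisField.card p _ (by omega)] at ho
  have h2 : (2 : GaloisField p (2 * g)) ≠ 0 := fun e => by
    have := (CharP.cast_eq_zero_iff (GaloisField p (2 * g)) p 2).1 (by exact_mod_cast e)
    have := Nat.le_of_dvd two_pos this
    omega
  set r : GaloisField p (2 * g) := γ.1 with hr
  have r0 : r ≠ 0 := γ.ne_zero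
  set α : GaloisField p (2 * g) := ((r + r⁻¹) / 2) ^ 2 with hα
  have hi : IsIntegral (ZMod p) α := IsIntegral.of_finite _ _
  have hd : (minpoly (ZMod p) α).natDegree = 2 * g := by
    have h1 := minpoly.natDegree_le (A := ZMod p) α
    rw [hK] at h1
    refine h1.eq_of_not_lt fun hlt => ?_
    have hd := minpoly.natDegree_pos hi
    have hm : r ^ 2 + (r ^ 2)⁻¹ ∈ (ZMod p)⟮α⟯ := by
      have e : r ^ 2 + (r ^ 2)⁻¹ = (4 : ℕ) * α - (2 : ℕ) := by
        rw [hα]; push_cast; field_simp; ring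
      rw [e]
      exact sub_mem (mul_mem (_root_.natCast_mem _ _) (mem_adjoin_simple_self _ _))
        (_root_.natCast_mem _ _)
    have hf := fix p α _ hm
    set d := (minpoly (ZMod p) α).natDegree
    rw [add_pow_char_pow, inv_pow] at hf
    have u0 : (r ^ 2) ^ p ^ d ≠ 0 := pow_ne_zero _ (pow_ne_zero _ r0)
    have e : ((r ^ 2) ^ p ^ d - r ^ 2) * ((r ^ 2) ^ p ^ d * r ^ 2 - 1) = 0 := by
      generalize (r ^ 2) ^ p ^ d = u at hf u0
      have t0 : r ^ 2 ≠ 0 := pow_ne_zero _ r0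
      generalize r ^ 2 = t at hf t0
      field_simp at hf
      linear_combination hf
    have hQ : p ≤ p ^ d := Nat.le_self_pow hd.ne' p
    have h7 : 5 * p ^ d ≤ p ^ (2 * g) :=
      (Nat.mul_le_mul_right _ h5).trans (by
        rw [← pow_succ']
        exact Nat.pow_le_pow_right hp.out.pos hlt)
    have key : ∀ n : ℕ, 0 < n → r ^ n = 1 → p ^ (2 * g) - 1 ≤ n := fun n hn e =>
      ho ▸ orderOf_le_of_pow_eq_one hn (Units.ext e)
    rcases mul_eq_zero.1 e with e | e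
    · obtain ⟨m, hm⟩ : ∃ m, p ^ d = m + 1 := ⟨p ^ d - 1, by omega⟩
      rw [hm, pow_succ, sub_eq_zero, mul_eq_right₀ (pow_ne_zero _ r0), ← pow_mul] at e
      have := key _ (by omega) e
      omega
    · rw [sub_eq_zero, ← pow_succ, ← pow_mul] at e
      have := key _ (by omega) e
      omega
  refine ⟨_, minpoly.monic hi, hd, minpoly.irreducible hi, ?_, ?_⟩
  · rw [ev hK hd, map_zero, sub_zero, hα, map_pow]
    exact IsSquare.sq _
  · have e : α - 1 = ((r - r⁻¹) / 2) ^ 2 := by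
      rw [hα]; field_simp; ring
    rw [ev hK hd, map_one, e, map_pow]
    exact IsSquare.sq _

end IrrA

theorem irr_k : IRRStmt := fun _ hg =>
  ⟨fun p _ c h => IrrA.one p hg c h, 5, fun q _ h => IrrA.two q hg h⟩

end Pool.Agent.MP_a43263_nt.K2

end

end PkK2Irr

section PkK2Iso

/-! THEOREM R2, row ISO: substitution of the root of the companion. -/

set_option autoImplicit false

noncomputable section

namespace Pool.Agent.MP_a43263_nt.K2

open Polynomial Finset Filter Matrix JC Pool.Agent.MP_a43263_nt.UV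

namespace IsoA

variable {K : Type} [Field K] {g : ℕ}

theorem dvd_fp {a : Fin (2 * g + 1) → K} (ha : Function.Injective a) (P : K[X]) :
    fp a ∣ P ↔ ∀ i, P.eval (a i) = 0 := by
  rw [fp]
  refine ⟨fun h i => ?_, fun h => ?_⟩
  · exact dvd_iff_isRoot.1 ((dvd_prod_of_mem (fun i => X - C (a i)) (mem_univ i)).trans h)
  · exact Finset.prod_dvd_of_coprime (fun i _ j _ e => pairwise_coprime_X_sub_C ha e)
      fun i _ => dvd_iff_isRoot.2 (h i)

theorem nm_fp (a : Fin (2 * g + 1) → K) (P : K[X]) : Nm (fp a) P = ∏ k, P.eval (a k) := by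
  rw [Nm, fp, resultant_prod_left _ _ _ _ (by simp) le_rfl]
  exact prod_congr rfl fun k _ => by
    rw [natDegree_X_sub_C, resultant_X_sub_C_left _ _ _ le_rfl]

/-- the roots of the companion -/
theorem roots [CharZero K] {f F κ : ℤ[X]} {u v G : ℤ} (h : Cp g f F κ u v G)
    {a : Fin (2 * g + 1) → K} (hc : Cv g a (zK f K)) :
    Function.Injective (fun i => (zK κ K).eval (a i)) ∧
      zK F K = fp (fun i => (zK κ K).eval (a i)) ∧ ∀ i, (zK κ K).eval (a i) ≠ 0 := by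
  have hG : (G : K) ≠ 0 := Int.cast_ne_zero.2 h.G0
  have hv : (v : K) ≠ 0 := Int.cast_ne_zero.2 h.v0
  have h0 : ∀ i, (zK f K).eval (a i) = 0 := (dvd_fp hc.inj _).1 (hc.eq ▸ dvd_rfl)
  have h1 : ∀ i, (zK κ K).eval (a i) * (zK (el u v) K).eval (a i) = G := fun i => by
    have := eval_eq_zero_of_dvd_of_eval_eq_zero (map_dvd (Int.castRingHom K) h.ka) (h0 i)
    simpa [sub_eq_zero] using this
  have h2 : ∀ x : K, (zK (el u v) K).eval x = (v : K) ^ 2 * (x - 1) + (u : K) ^ 2 := fun x => by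
    simp [el]
  have hi : Function.Injective fun i => (zK κ K).eval (a i) := fun i j e => by
    have e1 := h1 i
    have e2 := h1 j
    have e3 : (zK κ K).eval (a j) ≠ 0 := fun z => hG (by rw [← e2, z, zero_mul])
    simp only at e
    rw [e, ← e2, mul_right_inj' e3, h2, h2, add_left_inj, mul_right_inj' (pow_ne_zero 2 hv),
      sub_left_inj] at e1
    exact hc.inj e1
  have hm : (zK F K).Monic := h.mo.map _
  have hd : (zK F K).natDegree = 2 * g + 1 := by rw [h.mo.natDegree_map, h.dg]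
  have h3 : ∀ i, (zK F K).eval ((zK κ K).eval (a i)) = 0 := fun i => by
    have e := congrArg (fun P => (zK P K).eval (a i)) h.mb
    have e3 : (zK (el u v) K).eval (a i) ≠ 0 := fun z => hG (by rw [← h1 i, z, mul_zero])
    simp only [Polynomial.map_sum, Polynomial.map_mul, Polynomial.map_pow, map_C, eval_mul,
      eval_finsetSum, eval_pow, eval_C, h0 i, mul_zero] at e
    refine (mul_eq_zero.1 (?_ : _ * (zK (el u v) K).eval (a i) ^ (2 * g + 1) = 0)).resolve_right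
      (pow_ne_zero _ e3)
    rw [eval_eq_sum_range, hd, sum_mul, ← e]
    refine sum_congr rfl fun k hk => ?_
    obtain ⟨m, hm⟩ := Nat.exists_eq_add_of_le (Nat.lt_succ_iff.1 (mem_range.1 hk))
    rw [hm, Nat.add_sub_cancel_left, coeff_map, map_mul, map_pow, eq_intCast _ G, ← h1 i]
    ring
  refine ⟨hi, ?_, fun i z => hG (by rw [← h1 i, z, zero_mul])⟩
  refine eq_of_monic_of_dvd_of_natDegree_le (monic_prod_X_sub_C _ _) hm ((dvd_fp hi _).2 h3) ?_
  rw [hd, fp, natDegree_prod_of_monic _ _ fun i _ => monic_X_sub_C _]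
  simp

theorem is [CharZero K] {f F κ : ℤ[X]} {u v G : ℤ} (hz : Zq g f) (h : Cp g f F κ u v G) :
    Is (zK f K) (zK F K) (zK κ K) := by
  let φ := algebraMap K (AlgebraicClosure K)
  obtain ⟨a, hc, -⟩ := (hz.sq (AlgebraicClosure K)).cv
  obtain ⟨hi, hF, h0⟩ := roots h hc
  have hm : (zK F K).Monic := h.mo.map _
  have ker : ∀ P : K[X], zK f K ∣ P.comp (zK κ K) ↔ zK F K ∣ P := fun P => by
    rw [← map_dvd_map' φ, ← map_dvd_map' φ, map_comp, zK_map, zK_map, zK_map, hc.eq, hF,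
      dvd_fp hc.inj, dvd_fp hi]
    simp only [eval_comp]
  refine ⟨ker, fun P => ?_, fun P => φ.injective ?_⟩
  · have hv : (v : K) ≠ 0 := Int.cast_ne_zero.2 h.v0
    have c0 : (zK F K).coeff 0 ≠ 0 := fun z => by
      have e : (zK F (AlgebraicClosure K)).eval 0 = 0 := by
        rw [← coeff_zero_eq_eval_zero, ← zK_map F φ, coeff_map, z, map_zero]
      rw [hF, fp, eval_prod, prod_eq_zero_iff] at e
      obtain ⟨i, -, e⟩ := e
      exact h0 i (by simpa using e)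
    have e1 := (ker _).2 dvd_rfl
    have e2 : zK f K ∣ zK κ K * (C ((v : K) ^ 2) * (X - 1) + C ((u : K) ^ 2)) - C (G : K) := by
      simpa [el] using map_dvd (Int.castRingHom K) h.ka
    generalize zK F K = F' at c0 e1
    rw [← divX_mul_X_add F', add_comp, mul_comp, X_comp, C_comp] at e1
    have e3 : zK f K ∣ X - (1 + C ((v : K) ^ 2)⁻¹ *
        (-(C (G * (F'.coeff 0)⁻¹) * F'.divX) - C ((u : K) ^ 2))).comp (zK κ K) := by
      have i1 : C ((v : K) ^ 2)⁻¹ * C ((v : K) ^ 2) = (1 : K[X]) := by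
        rw [← C_mul, inv_mul_cancel₀ (pow_ne_zero 2 hv), C_1]
      have i2 : C (F'.coeff 0)⁻¹ * C (F'.coeff 0) = (1 : K[X]) := by
        rw [← C_mul, inv_mul_cancel₀ c0, C_1]
      simp only [add_comp, mul_comp, sub_comp, neg_comp, C_comp, one_comp, C_mul]
      convert (dvd_sub (e1.mul_left (C ((v : K) ^ 2) * (X - 1) + C ((u : K) ^ 2)))
        (e2.mul_left (F'.divX.comp (zK κ K)))).mul_left
        (C ((v : K) ^ 2)⁻¹ * C (F'.coeff 0)⁻¹) using 1
      linear_combination (-(X - 1) * C (F'.coeff 0)⁻¹ * C (F'.coeff 0)) * i1 +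
        (-(X - 1) - C ((v : K) ^ 2)⁻¹ * C ((u : K) ^ 2)) * i2
    have := e3.trans (sub_dvd_eval_sub _ _ (P.map C))
    rw [eval_map, eval_map, ← Polynomial.comp, ← Polynomial.comp, comp_X, ← comp_assoc] at this
    exact ⟨_, this⟩
  · rw [← Gram.nm_map (hz.mo K), ← Gram.nm_map hm, map_comp, zK_map, zK_map, zK_map, hc.eq, hF, nm_fp, nm_fp]
    simp only [eval_comp]

end IsoA

theorem iso_k : ISOStmt := fun g f F κ u v G hz h => by
  refine ⟨⟨hz.pos, h.mo, h.dg, Prime.irreducible ⟨(h.mo.map _).ne_zero, fun hu => ?_,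
    fun a b e => ?_⟩⟩, fun K _ _ => IsoA.is hz h⟩
  · have := natDegree_eq_zero_of_isUnit hu
    rw [h.mo.natDegree_map, h.dg] at this
    omega
  · have k := (IsoA.is (K := ℚ) hz h).ker
    rw [← k, mul_comp] at e
    exact (hz.irr.prime.dvd_or_dvd e).imp (k _).1 (k _).1

theorem wsq_k : WSQStmt := by
  rintro K _ f δ δ' ⟨⟨d, c, hd⟩, U, V, s, h1, h2, h3, ⟨x, h4⟩⟩ h5 ⟨z, y, h6⟩
  refine ⟨h5, U, V, s * z * d, h1, h2, h3, ?_⟩
  generalize C ((-1 : K) ^ U.natDegree) * U = W at h4 ⊢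
  refine ⟨δ' * W * c * (1 + d * δ) + d ^ 2 * (x * (δ * δ') + s ^ 2 * y), ?_⟩
  linear_combination (-(δ' * W) * (1 + d * δ)) * hd + d ^ 2 * (δ * δ') * h4 + d ^ 2 * s ^ 2 * h6

end Pool.Agent.MP_a43263_nt.K2

end

end PkK2Iso
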