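import Pool.Agent.MP_a43263_nt.N2.SpecB
import Pool.Agent.MP_a43263_nt.NP.C1
import Pool.Agent.MP_a43263_nt.NP.K3
import Pool.Agent.MP_a43263_nt.NP.K2

/-! Packed rows. -/

section PkN2Trp

set_option autoImplicit false

noncomputable section

namespace Pool.Agent.MP_a43263_nt.N2

open Polynomial Finset Filter Matrix JC Pool.Agent.MP_a43263_nt.UV K2

/-! The triple of two overlattices. -/

namespace TrpA

variable {g : ℕ}

theorem lcan {R X Y : Mat g ℤ} (hR : R.det ≠ 0) (h : R * X = R * Y) : X = Y := by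
  have h1 := congrArg (R.adjugate * ·) h
  simp only [← Matrix.mul_assoc, Matrix.adjugate_mul, Matrix.smul_mul, Matrix.one_mul] at h1
  exact smul_right_injective _ hR h1

theorem swap {R X : Mat g ℤ} {c : ℤ} (hR : R.det ≠ 0) (h : R * X = c • 1) : X * R = c • 1 :=
  lcan hR (by rw [← Matrix.mul_assoc, h, Matrix.smul_mul, Matrix.mul_smul, Matrix.one_mul,
    Matrix.mul_one])

theorem swap' {R X : Mat g ℤ} {c : ℤ} (hR : R.det ≠ 0) (h : X * R = c • 1) : R * X = c • 1 := by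
  have h1 := congrArg Matrix.transpose h
  rw [Matrix.transpose_mul, Matrix.transpose_smul, Matrix.transpose_one] at h1
  have h2 := congrArg Matrix.transpose (swap (by rwa [Matrix.det_transpose]) h1)
  simpa only [Matrix.transpose_mul, Matrix.transpose_smul, Matrix.transpose_one,
    Matrix.transpose_transpose] using h2

theorem chp {R X Y : Mat g ℤ} (hR : R.det ≠ 0) (h : R * X = Y * R) : X.charpoly = Y.charpoly := by
  have h1 : (C : ℤ →+* ℤ[X]).mapMatrix R * X.charmatrix =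
      Y.charmatrix * (C : ℤ →+* ℤ[X]).mapMatrix R := by
    rw [Matrix.charmatrix, Matrix.charmatrix, Matrix.mul_sub, Matrix.sub_mul, ← map_mul, ← map_mul,
      h, (Matrix.scalar_commute _ (fun _ => Commute.all _ _) _).eq]
  have h2 := congrArg Matrix.det h1
  rw [Matrix.det_mul, Matrix.det_mul, ← RingHom.map_det, mul_comm] at h2
  exact mul_right_cancel₀ (C_ne_zero.2 hR) h2

theorem dot (P S : Mat g ℤ) (x y : Vz g) :
    (fun k => ((P *ᵥ x) k : ℚ)) ⬝ᵥ mK S ℚ *ᵥ (fun k => ((P *ᵥ y) k : ℚ)) =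
      ((x ⬝ᵥ (Pᵀ * S * P) *ᵥ y : ℤ) : ℚ) := by
  have e : x ⬝ᵥ (Pᵀ * S * P) *ᵥ y = (P *ᵥ x) ⬝ᵥ S *ᵥ (P *ᵥ y) := by
    rw [Matrix.mul_assoc, ← Matrix.mulVec_mulVec, Matrix.dotProduct_mulVec, Matrix.vecMul_transpose,
      ← Matrix.mulVec_mulVec]
  rw [e]
  generalize P *ᵥ x = u
  generalize P *ᵥ y = v
  simp [dotProduct, Matrix.mulVec]

theorem dst {A T P B S : Mat g ℤ} {a b d : ℤ} (h : Ni g A T) (hP : P.det ≠ 0)
    (h1 : Pᵀ * A * P = a • B) (h2 : Pᵀ * (A * T) * P = b • B + d • (B * S)) (M ρ : ℝ)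
    (H : Mat g ℝ) : Dst M ρ B S H := by
  intro e he hi
  refine (h (fun i k => ((P *ᵥ e i) k : ℚ)) ?_ fun i j => ⟨?_, ?_⟩).elim
  · rw [← LinearIndependent.iff_fractionRing ℤ ℚ]
    refine he.map' (((Algebra.linearMap ℤ ℚ).compLeft _).comp P.mulVecLin)
      (LinearMap.ker_eq_bot'.2 fun x hx => ?_)
    refine Matrix.eq_zero_of_mulVec_eq_zero hP (funext fun k => ?_)
    have := congrFun hx k
    simpa using this
  · rw [dot, h1, Matrix.smul_mulVec, dotProduct_smul, (hi i j).1]; simp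
  · rw [dot, h2, Matrix.add_mulVec, Matrix.smul_mulVec, Matrix.smul_mulVec, dotProduct_add,
      dotProduct_smul, dotProduct_smul, (hi i j).1, (hi i j).2]; simp

theorem ne (f : ℤ[X]) (h : Zq g f) : f.eval 1 ≠ 0 := fun e => by
  have h1 : (zK f ℚ).IsRoot 1 := by
    rw [IsRoot, ← map_one (Int.castRingHom ℚ), eval_map, eval₂_at_apply, e, map_zero]
  have h2 := natDegree_eq_of_degree_eq_some (n := 1) (degree_eq_one_of_irreducible_of_root h.irr h1)
  rw [h.monic.natDegree_map, h.deg] at h2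
  have := h.pos
  omega

end TrpA

open TrpA in
theorem trp_n : CHGStmt → OVFStmt → FHStmt → TRPStmt := by
  intro _ ovf fhs g Q m₀ m₁ a f m A A' M T R R' B B' Λ Λ' hz hm hs hp ho ho'
  obtain ⟨sB, dR, -, -, -⟩ := ovf g m₁ A R B Λ hs hp.sa ho
  obtain ⟨sB', dR', -, hK, -⟩ := ovf g m₁ A' R' B' Λ' hs hp.sa' ho'
  have c0 : (m₁ : ℤ) ≠ 0 := by exact_mod_cast hs.ne_zero
  obtain ⟨-, hch, -, -⟩ := fhs g m₁ f c0 hz
  have hch := hch T hp.ch
  have e1 := ho.eq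
  have e2 := ho'.eq
  have dA := hp.dA
  choose K₀ hK₀ using hK
  obtain ⟨K, hK⟩ : ∃ K : Mat g ℤ, A' * R' = (m₁ : ℤ) • K :=
    ⟨Matrix.of K₀, by ext i j; simpa using hK₀ i j⟩
  generalize hc : (m₁ : ℤ) = c at *
  have uB := ho.un
  have uB' := ho'.un
  have hKt : R'ᵀ * A' = c • Kᵀ := by
    rw [← Matrix.transpose_smul, ← hK, Matrix.transpose_mul, hp.sa'.eq]
  have k1 : R'ᵀ * K = c • B' := smul_right_injective _ c0 (by
    simp only
    rw [← Matrix.mul_smul, ← hK, ← Matrix.mul_assoc, e2, smul_smul, sq])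
  have k2 : K * B'⁻¹ * R'ᵀ = c • 1 := swap (by rwa [Matrix.det_transpose]) (by
    rw [← Matrix.mul_assoc, k1, Matrix.smul_mul, Matrix.mul_nonsing_inv _ uB'])
  have k3 : K * B'⁻¹ * Kᵀ = A' := smul_right_injective _ c0 (by
    simp only
    rw [← Matrix.mul_smul, ← hKt, ← Matrix.mul_assoc, k2, Matrix.smul_mul, Matrix.one_mul])
  have z1 : R * (B⁻¹ * Rᵀ * A) = c ^ 2 • 1 := swap' dR (by
    rw [Matrix.mul_assoc, Matrix.mul_assoc, ← Matrix.mul_assoc Rᵀ, e1, Matrix.mul_smul,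
      Matrix.nonsing_inv_mul _ uB])
  obtain ⟨N₀, hN₀⟩ : ∃ N₀, N₀ = Kᵀ * M * R := ⟨_, rfl⟩
  have n1 : c • N₀ = R'ᵀ * A' * M * R := by rw [hKt, hN₀, Matrix.smul_mul, Matrix.smul_mul]
  have n2 : N₀ᵀ * B'⁻¹ * N₀ = Rᵀ * (A * (1 - T)) * R := by
    rw [← hp.rel, ← k3, hN₀]
    simp only [Matrix.transpose_mul, Matrix.transpose_transpose, Matrix.mul_assoc]
  have d1 : (1 - T).det = m ^ 2 := by
    rw [← hm, ← hp.ch, Matrix.eval_charpoly, map_one]
  have m0 : m ≠ 0 := fun e => ne f hz (by rw [hm, e]; norm_num)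
  have a0 : A.det ≠ 0 := fun e => by
    rw [e] at dA
    exact pow_ne_zero _ hs.ne_zero dA.symm
  have dM : M.det ≠ 0 := fun e => by
    have h := congrArg Matrix.det hp.rel
    simp only [Matrix.det_mul, e, d1, mul_zero] at h
    exact mul_ne_zero a0 (pow_ne_zero _ m0) h.symm
  have d2 : N₀.det.natAbs = (c ^ (2 * g + 1) * m).natAbs := by
    have h1 := congrArg Matrix.det n2
    have h2 := congrArg Matrix.det e1
    simp only [Matrix.det_mul, Matrix.det_transpose, d1, Matrix.det_smul, Fintype.card_fin] at h1 h2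
    have h3 : N₀.det ^ 2 * B'⁻¹.det = (c ^ (2 * g + 1) * m) ^ 2 * B.det := by
      linear_combination h1 + m ^ 2 * h2
    have h4 := congrArg Int.natAbs h3
    rw [Int.natAbs_mul, Int.natAbs_mul, Int.isUnit_iff_natAbs_eq.1 uB,
      Int.isUnit_iff_natAbs_eq.1 (Matrix.isUnit_nonsing_inv_det _ uB'), mul_one, mul_one,
      Int.natAbs_pow, Int.natAbs_pow] at h4
    exact Nat.pow_left_injective two_ne_zero h4
  obtain ⟨ε, hε, d3⟩ : ∃ ε : ℤ, ε * ε = 1 ∧ (ε • N₀).det = c ^ (2 * g + 1) * m := by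
    rcases Int.natAbs_eq_natAbs_iff.1 d2 with h | h
    · exact ⟨1, by norm_num, by rw [one_smul, h]⟩
    · exact ⟨-1, by norm_num, by
        rw [Matrix.det_smul, Fintype.card_fin, h, pow_succ (-1 : ℤ), pow_mul]; norm_num⟩
  have t1 : Tt B B' (ε • N₀) = 1 - B⁻¹ * (Rᵀ * (A * (1 - T)) * R) := by
    rw [Tt, ← n2]
    simp only [Matrix.transpose_smul, Matrix.smul_mul, Matrix.mul_smul, smul_smul, hε, one_smul,
      Matrix.mul_assoc]
  have t2 : Tt B' B (ε • N₀)ᵀ = 1 - B'⁻¹ * (N₀ * B⁻¹ * N₀ᵀ) := by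
    rw [Tt]
    simp only [Matrix.transpose_smul, Matrix.transpose_transpose, Matrix.smul_mul, Matrix.mul_smul,
      smul_smul, hε, one_smul, Matrix.mul_assoc]
  have cj : R * Tt B B' (ε • N₀) = ((1 - c ^ 2) • (1 : Mat g ℤ) + (c ^ 2) • T) * R := by
    have : R * (B⁻¹ * (Rᵀ * (A * (1 - T)) * R)) = R * (B⁻¹ * Rᵀ * A) * ((1 - T) * R) := by
      simp only [Matrix.mul_assoc]
    rw [t1, Matrix.mul_sub, this, z1]
    simp only [Matrix.mul_one, Matrix.smul_mul, Matrix.one_mul, Matrix.sub_mul, Matrix.add_mul]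
    module
  subst hc
  refine ⟨ε • N₀, ⟨ε, hε, by rw [smul_comm, n1]⟩, ⟨sB, sB', uB, uB', d3, (chp dR cj).trans hch⟩, cj,
    dst (b := (m₁ : ℤ) ^ 2 - 1) (d := 1) hp.ni dR e1 ?_, ?_⟩
  · rw [t1, Matrix.mul_sub, ← Matrix.mul_assoc B, Matrix.mul_nonsing_inv _ uB, Matrix.one_mul,
      Matrix.mul_sub A, Matrix.mul_sub, Matrix.sub_mul, Matrix.mul_one, Matrix.mul_one, e1]
    module
  obtain ⟨P, hP⟩ : ∃ P, P = M.adjugate * R' := ⟨_, rfl⟩
  have p1 : M * P = M.det • R' := by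
    rw [hP, ← Matrix.mul_assoc, Matrix.mul_adjugate, Matrix.smul_mul, Matrix.one_mul]
  have p2 : P.det ≠ 0 := fun e => by
    have h := congrArg Matrix.det p1
    rw [Matrix.det_mul, e, mul_zero, Matrix.det_smul] at h
    exact mul_ne_zero (pow_ne_zero _ dM) dR' h.symm
  have p1' : Pᵀ * Mᵀ = M.det • R'ᵀ := by rw [← Matrix.transpose_mul, p1, Matrix.transpose_smul]
  have p3 : Pᵀ * (A * (1 - T)) = (M.det * m₁) • (Kᵀ * M) := by
    rw [← hp.rel, ← Matrix.mul_assoc, ← Matrix.mul_assoc, p1', Matrix.smul_mul, hKt, smul_smul,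
      Matrix.smul_mul]
  have p4 : A * (1 - T) * P = (M.det * m₁) • (Mᵀ * K) := by
    rw [← hp.rel, Matrix.mul_assoc, p1, Matrix.mul_smul, Matrix.mul_assoc, hK, Matrix.mul_smul,
      smul_smul]
  have p5 : Pᵀ * (A * (1 - T)) * P = (M.det ^ 2 * (m₁ : ℤ) ^ 2) • B' := by
    rw [← hp.rel]
    calc Pᵀ * (Mᵀ * A' * M) * P = Pᵀ * Mᵀ * A' * (M * P) := by simp only [Matrix.mul_assoc]
      _ = _ := by
        rw [p1, p1', Matrix.smul_mul, Matrix.smul_mul, Matrix.mul_smul, e2, smul_smul, smul_smul, sq M.det]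
  have p6 : Pᵀ * (A * (1 - T)) * ((1 - T) * P) = M.det ^ 2 • (N₀ * B⁻¹ * N₀ᵀ) :=
    smul_right_injective _ (pow_ne_zero 2 c0) (by
      simp only
      calc (m₁ : ℤ) ^ 2 • (Pᵀ * (A * (1 - T)) * ((1 - T) * P))
          = Pᵀ * (A * (1 - T)) * (R * (B⁻¹ * Rᵀ * A) * ((1 - T) * P)) := by
            rw [z1, Matrix.smul_mul, Matrix.one_mul, Matrix.mul_smul]
        _ = Pᵀ * (A * (1 - T)) * (R * B⁻¹ * Rᵀ) * (A * (1 - T) * P) := by
            simp only [Matrix.mul_assoc]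
        _ = _ := by
            rw [p3, p4, hN₀]
            simp only [Matrix.transpose_mul, Matrix.transpose_transpose, Matrix.smul_mul,
              Matrix.mul_smul, smul_smul, Matrix.mul_assoc]
            congr 1
            ring)
  refine dst (b := M.det ^ 2 * ((m₁ : ℤ) ^ 2 - 1)) (d := M.det ^ 2) hp.ni' p2 p5 ?_
  rw [Matrix.sub_mul 1 T P, Matrix.mul_sub (Pᵀ * (A * (1 - T))), Matrix.one_mul, p5] at p6
  have p7 : Pᵀ * (A * (1 - T) * T) * P = Pᵀ * (A * (1 - T)) * (T * P) := by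
    simp only [Matrix.mul_assoc]
  rw [t2, Matrix.mul_sub B', ← Matrix.mul_assoc B', Matrix.mul_nonsing_inv _ uB', Matrix.one_mul,
    Matrix.mul_one, p7, smul_sub, ← p6]
  module

end Pool.Agent.MP_a43263_nt.N2

end

end PkN2Trp

section PkN2Uni

/-! THEOREM N2: division by the unitriangular matrices. -/

set_option autoImplicit false

noncomputable section

namespace Pool.Agent.MP_a43263_nt.N2

open Polynomial Finset Filter Matrix JC Pool.Agent.MP_a43263_nt.UV K2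

namespace UniA

open UC.Uni

variable {n : ℕ} {e e' : Fin n → ℤ} {u u' : UC.Mz n}

theorem det_one (hu : u ∈ U e) : u.det = 1 := by
  rw [det_of_isUpperTriangular fun p q (h : q < p) => (low hu h.le).trans (one_apply_ne h.ne')]
  simp [low hu le_rfl]

theorem box2 (he : Monotone e) (he' : Monotone e') (hu : u ∈ U e) (hu' : u' ∈ U e') {m : ℤ}
    {A : UC.Mz n} (hA : Box2 m e e' A) : Box2 (m + (2 * n : ℕ)) e e' (u'ᵀ * A * u) := fun p q => by
  have t : ∀ j i, |((u' i p * A i j * u j q : ℤ) : ℝ)| ≤ 2 ^ (m + e' p + e q) := fun j i => by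
    rw [Int.cast_mul, Int.cast_mul, abs_mul, abs_mul, show m + e' p + e q =
      e' p - e' i + (m + e' i + e j) + (e q - e j) by ring, zpow_add₀ two_ne_zero,
      zpow_add₀ two_ne_zero]
    gcongr
    exacts [bound he' hu' i p, hA i j, bound he hu j q]
  have h : (n : ℝ) ≤ 2 ^ n := by exact_mod_cast n.lt_two_pow_self.le
  simp only [mul_apply, transpose_apply, sum_mul, Int.cast_sum]
  refine (abs_sum_le_sum_abs _ _).trans ((sum_le_sum fun j _ =>
    (abs_sum_le_sum_abs _ _).trans (sum_le_sum fun i _ => t j i)).trans ?_)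
  rw [show m + (2 * n : ℕ) + e' p + e q = (n + n : ℕ) + (m + e' p + e q) by push_cast; ring,
    zpow_add₀ two_ne_zero ((n + n : ℕ) : ℤ), zpow_natCast, pow_add, mul_assoc]
  simp only [sum_const, card_univ, Fintype.card_fin, nsmul_eq_mul]
  gcongr

theorem cancel {N P P' : UC.Mz n} (hN : N.det ≠ 0) (h : P * N = P' * N) : P = P' := by
  have := congrArg (fun M => M * N.adjugate) h
  simp only [mul_assoc, mul_adjugate, mul_smul_comm, mul_one] at this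
  exact smul_right_injective _ hN this

theorem back {N N₂ a a' b b' : UC.Mz n} (ha : a' * a'⁻¹ = 1) (hb : b' * b'⁻¹ = 1)
    (h : bᵀ * N * a = b'ᵀ * N₂ * a') : N₂ = (b * b'⁻¹)ᵀ * N * (a * a'⁻¹) := by
  calc N₂ = (b' * b'⁻¹)ᵀ * N₂ * (a' * a'⁻¹) := by rw [ha, hb, transpose_one, one_mul, mul_one]
    _ = b'⁻¹ᵀ * (b'ᵀ * N₂ * a') * a'⁻¹ := by rw [transpose_mul]; simp only [mul_assoc]
    _ = _ := by rw [← h, transpose_mul]; simp only [mul_assoc]

theorem det_div (hu : u ∈ U e) (hu' : u' ∈ U e') : (u * u'⁻¹).det = 1 := by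
  have := congrArg det (inv hu')
  rw [det_mul, det_one hu', one_mul, Matrix.det_one] at this
  rw [det_mul, det_one hu, this, one_mul]

end UniA

open UC.Uni UniA in
theorem uni_n : CHGStmt → UNIStmt := by
  classical
  rintro ⟨c1, c2, -⟩ g
  refine ⟨2 * (2 * g + 1), fun a b e e' L hL he he' S W nis hS hW => ?_⟩
  have h2 := fun x hx => (hS x hx).2.1
  have h3 := fun x hx => (hS x hx).2.2.1
  have h4 := fun x hx => (hS x hx).2.2.2.1
  have h5 := fun x hx => (hS x hx).2.2.2.2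
  have hT := fun x hx => (hS x hx).1
  choose! f m hi h0 h1 using hT
  rw [zpow_add₀ two_ne_zero, ← card_U he, ← card_U he', ← Nat.cast_mul, ← Nat.cast_mul, Nat.cast_le,
    ← card_product, ← card_product]
  have tri : ∀ x ∈ S, ∀ u ∈ U e, ∀ u' ∈ U e',
      Tri (f x) (m x) (uᵀ * x.1 * u) (u'ᵀ * x.2.1 * u') (u'ᵀ * x.2.2 * u) := fun x hx u hu u' hu' =>
    c2 _ _ _ _ _ _ _ _ (h1 x hx).det (h1 x hx).det' (UniA.det_one hu) (UniA.det_one hu') (h1 x hx)
  refine card_le_card_of_injOn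
    (fun z => (z.2.1ᵀ * z.1.1 * z.2.1, z.2.2ᵀ * z.1.2.1 * z.2.2, z.2.2ᵀ * z.1.2.2 * z.2.1))
    (fun z hz => ?_) fun z hz y hy E => ?_
  · obtain ⟨p, q⟩ := mem_product.1 hz
    obtain ⟨q, r⟩ := mem_product.1 q
    exact hW _ _ _ _ _ (tri _ p _ q _ r)
      (hL _ _ _ _ _ (h1 _ p).det (h1 _ p).det' (UniA.det_one q) (UniA.det_one r) (h2 _ p))
      (box he q (h3 _ p)) (box he' r (h4 _ p)) (box2 he he' q r (h5 _ p))
  · obtain ⟨x, u, v⟩ := z
    obtain ⟨x', u', v'⟩ := y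
    obtain ⟨p, w⟩ := mem_product.1 hz
    obtain ⟨q, r⟩ := mem_product.1 w
    obtain ⟨p', w'⟩ := mem_product.1 hy
    obtain ⟨q', r'⟩ := mem_product.1 w'
    simp only [Prod.mk.injEq] at E p q r p' q' r' ⊢
    obtain ⟨E1, E2, E3⟩ := E
    obtain rfl : x = x' := nis x p x' p' _ _ (det_div q q') (det_div r r')
      (Prod.ext (back (inv q') (inv q') E1)
        (Prod.ext (back (inv r') (inv r') E2) (back (inv q') (inv r') E3)))
    have k := c1 _ _ _ x.2.2 _ _ v (h1 _ p).det (h1 _ p).det' (inv q)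
      (UniA.det_one r ▸ isUnit_one)
    rw [E1, E2, E3, c1 _ _ _ x.2.2 _ _ v' (h1 _ p).det (h1 _ p).det' (inv q')
      (UniA.det_one r' ▸ isUnit_one)] at k
    obtain rfl : u' = u := uniq ((h1 _ p).ch.symm ▸ hi _ p) q' q k
    refine ⟨rfl, rfl, transpose_injective (cancel ((h1 _ p).dt.symm ▸ h0 _ p)
      (cancel (N := u') ?_ E3))⟩
    rw [UniA.det_one q]
    exact one_ne_zero

end Pool.Agent.MP_a43263_nt.N2

end

end PkN2Uni

section PkN2Qz

/-! THEOREM N2, row Qz: zeros of a quadratic form of rank at least three. -/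

set_option autoImplicit false

namespace Pool.Agent.MP_a43263_nt.N2

open Finset Module

namespace QzA

variable {F V : Type} [Field F] [Fintype F] [AddCommGroup V] [Module F V] [Fintype V]
  {B : LinearMap.BilinForm F V}

theorem nat (h2 : (2 : F) ≠ 0) (hs : ∀ x y, B x y = B y x)
    (hr : finrank F (LinearMap.ker B) + 3 ≤ finrank F V) (Z : Finset V) (hZ : ∀ v ∈ Z, B v v = 0) :
    Z.card * Fintype.card F * Fintype.card F ≤
      (Fintype.card F + 2) * Fintype.card F ^ finrank F V := by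
  classical
  have q1 : 1 ≤ Fintype.card F := Fintype.card_pos
  by_cases hk : ∀ v ∈ Z, v ∈ LinearMap.ker B
  · have a0 := TupA.line (LinearMap.ker B) 0 (zero_mem _) Z hk (Fintype.card F) fun _ =>
      ⟨univ, le_rfl, fun _ _ => mem_univ _⟩
    calc _ ≤ Fintype.card F * Fintype.card F ^ finrank F (LinearMap.ker B) * Fintype.card F :=
          Nat.mul_le_mul_right _ a0
      _ = 1 * Fintype.card F ^ (finrank F (LinearMap.ker B) + 2) := by ring
      _ ≤ _ := Nat.mul_le_mul (by omega) (Nat.pow_le_pow_right q1 (by omega))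
  push Not at hk
  obtain ⟨e, he, e1⟩ := hk
  have e3 := hZ e he
  have e2 : B e ≠ 0 := e1
  have d1 := Module.Dual.finrank_ker_add_one_of_ne_zero e2
  obtain ⟨f, f1, f2⟩ : ∃ f ∈ LinearMap.ker (B e), B f f ≠ 0 := by
    by_contra k
    push Not at k
    obtain ⟨z, hz⟩ : ∃ z, B e z ≠ 0 := by
      by_contra k'
      push Not at k'
      exact e2 (LinearMap.ext k')
    have z0 : B z ≠ 0 := fun k' => hz (by rw [hs, k', LinearMap.zero_apply])
    have d2 := Module.Dual.finrank_ker_add_one_of_ne_zero z0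
    have d3 := Submodule.finrank_sup_add_finrank_inf_eq (LinearMap.ker (B e)) (LinearMap.ker (B z))
    have d4 := Submodule.finrank_le (LinearMap.ker (B e) ⊔ LinearMap.ker (B z))
    have : LinearMap.ker (B e) ⊓ LinearMap.ker (B z) ≤ LinearMap.ker B := fun x hx => by
      refine LinearMap.ext fun y => ?_
      have hy : y - (B e y / B e z) • z ∈ LinearMap.ker (B e) := by
        simp [div_mul_cancel₀ _ hz]
      have k1 := k _ (Submodule.add_mem _ hx.1 hy)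
      have k2 := k _ hy
      have k3 : B z x = 0 := hx.2
      generalize hw : y - (B e y / B e z) • z = w at k1 k2
      simp only [map_add, LinearMap.add_apply, k x hx.1, k2, hs w x] at k1
      have k4 : B x w = 0 := (mul_eq_zero.1 (by linear_combination k1 : 2 * B x w = 0)).resolve_left h2
      rw [← hw, map_sub, map_smul, hs x z, k3, smul_zero, sub_zero] at k4
      exact k4
    have := Submodule.finrank_mono this
    omega
  have a1 := TupA.line ⊤ e trivial (Z.filter fun v => B e v ≠ 0) (fun _ _ => trivial) 1 fun v =>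
    ⟨{-B v v / (2 * B e v)}, by simp, fun t ht => by
      obtain ⟨k1, k2⟩ := mem_filter.1 ht
      have k3 := hZ _ k1
      simp only [map_add, map_smul, LinearMap.add_apply, LinearMap.smul_apply, smul_eq_mul, e3,
        hs v e, mul_zero, add_zero] at k2 k3
      rw [mem_singleton, eq_div_iff (mul_ne_zero h2 k2)]
      linear_combination k3⟩
  have a2 := TupA.line (LinearMap.ker (B e)) f f1 (Z.filter fun v => ¬B e v ≠ 0)
    (fun v hv => not_not.1 (mem_filter.1 hv).2) 2 fun v => by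
    have p0 : (Polynomial.C (B f f) * Polynomial.X ^ 2 + Polynomial.C (2 * B f v) * Polynomial.X +
      Polynomial.C (B v v)) ≠ 0 := fun k => f2 (by simpa using congrArg (·.coeff 2) k)
    refine ⟨(Polynomial.C (B f f) * Polynomial.X ^ 2 + Polynomial.C (2 * B f v) * Polynomial.X +
      Polynomial.C (B v v)).roots.toFinset, (Multiset.toFinset_card_le _).trans
      ((Polynomial.card_roots' _).trans Polynomial.natDegree_quadratic_le), fun t ht => ?_⟩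
    have k3 := hZ _ (mem_filter.1 ht).1
    simp only [map_add, map_smul, LinearMap.add_apply, LinearMap.smul_apply, smul_eq_mul,
      hs v f] at k3
    rw [Multiset.mem_toFinset, Polynomial.mem_roots p0]
    simp only [Polynomial.IsRoot.def, Polynomial.eval_add, Polynomial.eval_mul, Polynomial.eval_C,
      Polynomial.eval_pow, Polynomial.eval_X]
    linear_combination k3
  rw [finrank_top, ← d1] at a1
  rw [← card_filter_add_card_filter_not (s := Z) fun v => B e v ≠ 0, ← d1, add_mul]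
  calc _ ≤ (1 * Fintype.card F ^ (finrank F (LinearMap.ker (B e)) + 1) +
        2 * Fintype.card F ^ finrank F (LinearMap.ker (B e))) * Fintype.card F := by gcongr
    _ = _ := by ring

end QzA

theorem qz_n : QZStmt := by
  classical
  intro F _ _ h2 V _ _ _ B hs hr
  have : Finite V := Module.finite_of_finite F
  let _ := Fintype.ofFinite V
  have h := QzA.nat h2 hs hr (univ.filter fun x => B x x = 0) fun v hv => (mem_filter.1 hv).2
  rw [← Fintype.card_subtype, ← Nat.card_eq_fintype_card] at h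
  have h' := (Nat.cast_le (α := ℝ)).2 h
  push_cast at h'
  have q0 : (0 : ℝ) < Fintype.card F := by exact_mod_cast Fintype.card_pos
  generalize (Fintype.card F : ℝ) = q at h' q0 ⊢
  refine le_of_mul_le_mul_right (h'.trans ?_) q0
  rw [mul_assoc, show (1 + 5 / q) * q = q + 5 by field_simp, mul_comm]
  gcongr
  norm_num

end Pool.Agent.MP_a43263_nt.N2

end PkN2Qz

section PkN2Tup

/-! THEOREM N2, row Tup: independent isotropic tuples. -/

set_option autoImplicit false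

namespace Pool.Agent.MP_a43263_nt.N2

open Finset Matrix

namespace TupA

theorem pow_le (k : ℕ) {x : ℝ} (h0 : 0 ≤ x) (h1 : x ≤ 1) : (1 + 2 * x) ^ k ≤ 1 + 3 ^ k * x := by
  induction k with
  | zero => simpa using h0
  | succ k ih =>
    have h3 : (1 : ℝ) ≤ 3 ^ k := one_le_pow₀ (by norm_num)
    have h4 : (1 + 2 * x) ^ k ≤ 3 ^ k := pow_le_pow_left₀ (by positivity) (by linarith) k
    have h5 : (1 + 2 * x) ^ k * (2 * x) ≤ 3 ^ k * (2 * x) := by gcongr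
    rw [pow_succ, pow_succ]
    nlinarith

end TupA

theorem tup0 : TUPStmt := by
  classical
  intro k
  refine ⟨3 ^ k, by positivity, fun F _ _ h2 ι _ _ B hs hd hk => ?_⟩
  have h := TupA.tuples (F := F) (V := ι → F) (B := toBilin' B) h2
    (fun x y => by
      rw [toBilin'_apply', toBilin'_apply', dotProduct_mulVec, ← mulVec_transpose, hs.eq,
        dotProduct_comm])
    (LinearMap.BilinForm.nondegenerate_toBilin'_of_det_ne_zero' B hd) k (by simpa using hk)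
    (univ.filter fun x => LinearIndependent F x ∧ ∀ i j, x i ⬝ᵥ B *ᵥ x j = 0)
    fun x hx => by simpa only [toBilin'_apply'] using (mem_filter.1 hx).2
  rw [Module.finrank_pi, ← Fintype.card_subtype, ← Nat.card_eq_fintype_card, sum_range_id,
    ← Nat.choose_two_right] at h
  have h' := (Nat.cast_le (α := ℝ)).2 h
  push_cast at h'
  have q1 : (1 : ℝ) ≤ Fintype.card F := by exact_mod_cast Fintype.card_pos
  generalize (Fintype.card F : ℝ) = q at h' q1 ⊢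
  have q0 : 0 < q := by linarith
  have e := TupA.pow_le k (x := 1 / q) (by positivity) (by rw [div_le_one q0]; exact q1)
  refine le_of_mul_le_mul_right ?_ (pow_pos q0 k)
  calc _ = _ := by ring
    _ ≤ _ := h'
    _ = (1 + 2 * (1 / q)) ^ k * (q ^ (k * Fintype.card ι) * q ^ k) := by
      rw [show q + 2 = (1 + 2 * (1 / q)) * q by field_simp, mul_pow]; ring
    _ ≤ (1 + 3 ^ k * (1 / q)) * (q ^ (k * Fintype.card ι) * q ^ k) := by gcongr
    _ = _ := by ring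

theorem tup_n : QZStmt → TUPStmt := fun _ => tup0

end Pool.Agent.MP_a43263_nt.N2

end PkN2Tup

section PkN2Beg

/-! THEOREM N2: the invariants of the marked class at a simple root. -/

set_option autoImplicit false

noncomputable section

namespace Pool.Agent.MP_a43263_nt.N2

open Polynomial Finset Filter Matrix JC Pool.Agent.MP_a43263_nt.UV K2
open UV.Cmp (unit_iff zero_iff)

namespace BegA

open Ev2A

theorem key {R : Type} [CommRing R] {h x r π P t G E : R} (h1 : h ∣ x - P * t)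
    (h2 : h ∣ r - -G * E * t) (h3 : h ∣ π - P * t) :
    h ∣ -(P * G) * E * x ^ 2 - P ^ 2 * (r * π) := by
  obtain ⟨a, ha⟩ := h1
  obtain ⟨b, hb⟩ := h2
  obtain ⟨c, hc⟩ := h3
  rw [sub_eq_iff_eq_add] at ha hb hc
  exact ⟨-(P * G) * E * (h * a ^ 2 + 2 * a * P * t) -
    P ^ 2 * (h * b * c + b * P * t - G * E * t * c), by rw [ha, hb, hc]; ring⟩

variable {p : ℕ} [Fact p.Prime] {a u v : ℤ}

theorem root (uv : IsCoprime u v) (d : (p : ℤ) ∣ (el u v).eval a) : (v : ZMod p) ≠ 0 ∧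
    zK (el u v) (ZMod p) = C ((v : ZMod p) ^ 2) * (X - C (a : ZMod p)) := by
  have e : (v : ZMod p) ^ 2 * (a - 1) + (u : ZMod p) ^ 2 = 0 := by
    simpa [el] using (ZMod.intCast_zmod_eq_zero_iff_dvd _ p).2 d
  refine ⟨fun c => ?_, ?_⟩
  · have := uv.map (Int.castRingHom (ZMod p))
    rw [eq_intCast, eq_intCast, c, isCoprime_zero_right] at this
    rw [c, zero_pow two_ne_zero, zero_mul, zero_add] at e
    exact (this.pow 2).ne_zero e
  · rw [el_eq, (eq_neg_of_add_eq_zero_right e), C_neg, C_mul, C_sub, C_1]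
    ring

end BegA

open BegA Ev2A in
theorem beg_n : HENStmt → BEGStmt := by
  intro hen p _ g f a u v G _ Z rt nm uv d2 d1
  obtain ⟨α, h, t, H⟩ := hen p g f a Z rt
  obtain ⟨v0, e0⟩ := root uv d1
  have dh : (rq p h).natDegree = 2 * g := by
    have e := Z.dg ℤ_[p]
    rw [H.eq, (monic_X_sub_C α).natDegree_mul H.monic, natDegree_X_sub_C] at e
    rw [H.monic.natDegree_map]
    omega
  have n1 : (G : ℤ_[p]) = -(zK (el u v) ℤ_[p]).eval α * Nm h (-zK (el u v) ℤ_[p]) := by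
    have := (UV.gram.1 _ _ Z.monic).2.2.2.2.2 ℤ_[p] (Int.castRingHom _) (-el u v)
    rw [nm, eq_intCast, Polynomial.map_neg] at this
    rw [← this, ← zK, H.eq, (UV.gram.1 _ _ (monic_X_sub_C _)).2.2.2.2.1 _ H.monic, Nm,
      natDegree_X_sub_C, resultant_X_sub_C_left _ _ _ le_rfl, eval_neg]
  have n2 : PadicInt.toZMod (Nm h (-zK (el u v) ℤ_[p])) =
      ((-(v : ZMod p) ^ 2) ^ g) ^ 2 * (rq p h).eval (a : ZMod p) := by
    obtain ⟨k1, -, k3, -⟩ := UV.gram.1 _ _ (H.monic.map (PadicInt.toZMod (p := p)))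
    rw [← (UV.gram.1 _ _ H.monic).2.2.2.2.2, Polynomial.map_neg, zK_map, e0, ← neg_mul, ← C_neg,
      k1, k3, dh, Nm, natDegree_X_sub_C, resultant_X_sub_C_right _ _ _ le_rfl, dh, ← pow_mul,
      mul_comm g, pow_mul (-1 : ZMod p), neg_one_sq, one_pow, one_mul]
  have s0 : (-(v : ZMod p) ^ 2) ^ g ≠ 0 := pow_ne_zero _ (neg_ne_zero.2 (pow_ne_zero _ v0))
  generalize (-(v : ZMod p) ^ 2) ^ g = w at n2 s0
  have eb : zK (be u v G) ℤ_[p] = -C (G : ℤ_[p]) * zK (el u v) ℤ_[p] := by simp [be, zK]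
  rw [← rq_zK] at e0
  generalize zK (el u v) ℤ_[p] = E at n1 n2 eb e0
  generalize Nm h (-E) = N at n1 n2
  obtain ⟨c, hc⟩ := (PadicInt.norm_lt_one_iff_dvd (E.eval α)).1 (zero_iff.1 (by
    rw [← rq_eval, e0, H.red]
    simp))
  have p0 : (p : ℤ_[p]) ≠ 0 := Nat.cast_ne_zero.2 (Fact.out : p.Prime).ne_zero
  obtain ⟨G', rfl⟩ := (ZMod.intCast_zmod_eq_zero_iff_dvd G p).1 (by
    rw [← map_intCast (PadicInt.toZMod (p := p)), n1, hc]
    simp)
  have g0 : (G' : ZMod p) ≠ 0 := fun c => d2 (by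
    rw [pow_two]
    exact mul_dvd_mul_left _ ((ZMod.intCast_zmod_eq_zero_iff_dvd _ p).1 c))
  have n3 : (G' : ℤ_[p]) = -c * N := mul_left_cancel₀ p0 (by
    rw [hc] at n1
    push_cast at n1
    linear_combination n1)
  have c0 : PadicInt.toZMod c ≠ 0 := fun e => g0 (by
    rw [← map_intCast (PadicInt.toZMod (p := p)), n3, map_mul, map_neg, e, neg_zero, zero_mul])
  have ua : IsUnit (h.eval α) := unit_iff.2 (by rw [← rq_eval, H.red]; exact H.ne)
  obtain ⟨s, hs⟩ := (unit_iff.2 (H.val ▸ pow_ne_zero 3 H.ne)).exists_right_inv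
  have hs' := congrArg PadicInt.toZMod hs
  rw [map_mul, H.val, map_one] at hs'
  obtain ⟨x, x1, x2⟩ := crt ua 1 (C (p : ℤ_[p]) * t)
  obtain ⟨r, r1, r2⟩ := crt ua (c ^ 2 * N * s) (-C (G' : ℤ_[p]) * E * t)
  have r3 : (rq p r).eval (a : ZMod p) = (PadicInt.toZMod c * w * (rq p h).eval (a : ZMod p) ^ 2 *
      PadicInt.toZMod s) ^ 2 := by
    rw [← H.red, rq_eval, r1, map_mul, map_mul, map_pow, n2, H.red]
    linear_combination (-PadicInt.toZMod c ^ 2 * w ^ 2 * (rq p h).eval (a : ZMod p) *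
      PadicInt.toZMod s) * hs'
  have dv := two ua.ne_zero (by
    simp only [eval_sub, eval_mul, eval_neg, eval_pow, eval_C, x1, r1, hc, n3]
    linear_combination (-(p : ℤ_[p]) ^ 2 * c ^ 2 * N) * hs) (key x2 r2 H.pi)
  refine ⟨C (p : ℚ_[p])⁻¹ * iq p x, r, ?_, ?_, iff_of_true ⟨_, r3.trans (sq _)⟩ rfl⟩
  · have := (Polynomial.map_dvd (PadicInt.Coe.ringHom (p := p)) (H.eq ▸ dv)).mul_left
      (C (p : ℚ_[p])⁻¹ ^ 2)
    have q0 : C (p : ℚ_[p])⁻¹ * C (p : ℚ_[p]) = 1 := by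
      rw [← C_mul, inv_mul_cancel₀ (Nat.cast_ne_zero.2 (Fact.out : p.Prime).ne_zero), C_1]
    rw [zK_map] at this
    refine (congrArg _ ?_).mp this
    rw [← iq_zK (be u v _), eb, show (1 : ZMod 2).val = 1 from rfl, ← iq_zK (pw p f a)]
    simp only [iq, Polynomial.map_sub, Polynomial.map_mul, Polynomial.map_neg, Polynomial.map_pow,
      map_C, Int.cast_mul, Int.cast_natCast, C_mul, map_natCast PadicInt.Coe.ringHom]
    linear_combination (-(C (p : ℚ_[p])⁻¹ * C (p : ℚ_[p]) + 1) * map PadicInt.Coe.ringHom r *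
      map PadicInt.Coe.ringHom (zK (pw p f a) ℤ_[p])) * q0
  · rw [← rq_zK, H.eq, rq, rq, Polynomial.map_mul, Polynomial.map_sub, map_X, map_C, H.red]
    refine IsCoprime.mul_right (cop.2 (r3 ▸ pow_ne_zero _ (mul_ne_zero (mul_ne_zero
      (mul_ne_zero c0 s0) (pow_ne_zero _ H.ne)) (right_ne_zero_of_mul_eq_one hs')))).symm ?_
    obtain ⟨k, hk⟩ := r2
    rw [sub_eq_iff_eq_add'.1 hk, Polynomial.map_add, Polynomial.map_mul _ (p := h)]
    refine IsCoprime.add_mul_left_left ?_ _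
    rw [Polynomial.map_mul, Polynomial.map_mul, Polynomial.map_neg, map_C, map_intCast, ← rq, ← rq,
      e0, H.un, ← C_neg]
    have a1 : ∀ z : ZMod p, z ≠ 0 → IsCoprime (C z) (rq p h) := fun z hz =>
      ⟨C z⁻¹, 0, by rw [← C_mul, inv_mul_cancel₀ hz, C_1, zero_mul, add_zero]⟩
    exact ((a1 _ (neg_ne_zero.2 g0)).mul_left
      ((a1 _ (pow_ne_zero 2 v0)).mul_left (cop.2 H.ne))).mul_left (cop.2 H.ne)

end Pool.Agent.MP_a43263_nt.N2

end

end PkN2Beg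

section PkN2Badn

/-! THEOREM N2: the neighbours. -/

set_option autoImplicit false

noncomputable section

namespace Pool.Agent.MP_a43263_nt.N2

open Polynomial Finset Filter Matrix JC Pool.Agent.MP_a43263_nt.UV K2

namespace BadnA

variable {g : ℕ}

theorem mK_inv {A : Mat g ℤ} (h : IsUnit A.det) (R : Type) [CommRing R] :
    (mK A R)⁻¹ = mK A⁻¹ R :=
  inv_eq_right_inv (by rw [← mK_mul, mul_nonsing_inv _ h]; exact Matrix.map_one _ (by simp) (by simp))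

theorem mK_Tt {A A' : Mat g ℤ} (N : Mat g ℤ) (h : IsUnit A.det) (h' : IsUnit A'.det) (R : Type)
    [CommRing R] : Tt (mK A R) (mK A' R) (mK N R) = mK (Tt A A' N) R := by
  rw [Tt, Tt, mK_inv h, mK_inv h', ← mK_transpose, ← mK_mul, ← mK_mul, ← mK_mul]
  generalize A⁻¹ * Nᵀ * A'⁻¹ * N = B
  ext i j
  simp [one_apply]

theorem frame {f : ℤ[X]} {Λ : Set ℚ[X]} {b : Fin (2 * g + 1) → ℚ[X]} {A T : Mat g ℤ} {p l : ℕ}
    (hf : Zq g f) (h : SD f 1 Λ) (hp : C (p : ℚ) ∈ Λ) (hb : Bs g f Λ b) (hT : Mt g f 1 b A T)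
    (p1 : p.Prime) (l1 : l.Prime) (ne : l ≠ p) : Frm g l f 1 A T := by
  choose z hz using fun j : Fin (2 * g + 1) => hb.span _ (h.zmul (X ^ j.1) hp)
  have hz' : ∀ j : Fin (2 * g + 1),
      zK f ℚ ∣ C (p : ℚ) * X ^ j.1 - Dst.cb b fun i => (z j i : ℚ) := fun j => by
    have := hz j
    rwa [show zK (X ^ j.1) ℚ = X ^ j.1 by simp, mul_comm] at this
  have lp : ¬(l : ℤ) ∣ (p : ℤ) := fun c =>
    ne ((Nat.prime_dvd_prime_iff_eq l1 p1).1 (Int.natCast_dvd_natCast.1 c))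
  have e1 : (of z)ᵀᵀ * A * (of z)ᵀ = Gm g f (C ((p : ℤ) ^ 2) * 1) := by
    ext j k
    refine Int.cast_injective (α := ℚ) ?_
    have a1 := Dst.cb_ta hT (fun i => (z j i : ℚ)) fun i => (z k i : ℚ)
    rw [Dst.cast_form] at a1
    have a2 : ((of z)ᵀᵀ * A * (of z)ᵀ) j k = z j ⬝ᵥ A *ᵥ z k := by
      rw [Matrix.mul_assoc]
      simp [mul_apply, dotProduct, mulVec]
    rw [a2, ← a1, Gm, of_apply]
    refine (ta_congr (hf.mo ℚ) ?_).trans (ta_map hf.monic (Int.castRingHom ℚ) _)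
    refine (dvd_neg.2 (dvd_add ((hz' j).mul_right (C (p : ℚ) * X ^ k.1))
      ((hz' k).mul_left (Dst.cb b fun i => (z j i : ℚ))))).trans (dvd_of_eq ?_)
    simp only [Polynomial.map_mul, Polynomial.map_pow, map_X, Polynomial.map_one, map_pow,
      map_natCast, Polynomial.map_natCast]
    ring
  refine ⟨(of z)ᵀ, p, fun c => lp ?_, lp, e1, ?_⟩
  · have a1 := congrArg (fun B : Mat g ℤ => ((B.det : ℤ) : ℚ)) e1
    rw [← mK_det (R := ℚ) (Gm g f _), mK, ← Gm_map hf.monic, (gram.2 ℚ g _ (hf.sq ℚ)).1,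
      show (C ((p : ℤ) ^ 2) * 1 : ℤ[X]).map (Int.castRingHom ℚ) = C ((p : ℚ) ^ 2) by simp,
      (gram.1 ℚ _ (hf.mo ℚ)).2.2.1, det_mul, det_mul] at a1
    have a2 : (of z)ᵀᵀ.det * A.det * (of z)ᵀ.det =
        (-1) ^ g * ((p : ℤ) ^ 2) ^ (zK f ℚ).natDegree := by exact_mod_cast a1
    have a3 : (l : ℤ) ∣ (-1) ^ g * ((p : ℤ) ^ 2) ^ (zK f ℚ).natDegree := a2 ▸ c.mul_left _
    have l2 := Nat.prime_iff_prime_int.1 l1
    rcases l2.dvd_or_dvd a3 with a | a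
    · exact absurd (isUnit_of_dvd_unit a (isUnit_one.neg.pow g)) l2.not_isUnit
    · exact l2.dvd_of_dvd_pow (l2.dvd_of_dvd_pow a)
  · ext i j
    refine Int.cast_injective (α := ℚ) ?_
    have a1 := Dst.cb_X hT fun i => (z j i : ℚ)
    have a2 : zK f ℚ ∣ X ^ (j.1 + 1) - ∑ k : Fin (2 * g + 1), C (Cx g f k j : ℚ) * X ^ k.1 := by
      have := Polynomial.map_dvd (Int.castRingHom ℚ) (dvd_sub_mod (f := f) (X ^ (j.1 + 1)))
      rw [← po_ve hf.monic hf.deg] at this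
      simpa [po, ve, Cx, Polynomial.map_sum] using this
    have a3 := Finset.dvd_sum (s := univ) fun (k : Fin (2 * g + 1)) _ =>
      (hz' k).mul_left (C (Cx g f k j : ℚ))
    have a4 := Dst.cb_inj hb (x := mK T ℚ *ᵥ fun i => (z j i : ℚ))
      (y := ∑ k, (Cx g f k j : ℚ) • fun i => (z k i : ℚ)) (by
        rw [Dst.cb_sum]
        refine (dvd_sub (dvd_sub (dvd_add (a2.mul_left (C (p : ℚ))) a3) ((hz' j).mul_left X))
          a1).trans (dvd_of_eq ?_)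
        simp only [mul_sub, sum_sub_distrib, mul_sum, mul_left_comm (C (p : ℚ))]
        ring)
    simpa [mul_apply, mulVec, dotProduct, Finset.sum_apply, mul_comm] using congrFun a4 i

end BadnA

open BadnA in
theorem badn_n : K2.LATStmt → TRIStmt → K2.MAJStmt → SHPStmt → MTXStmt → BADNStmt := by
  intro lat2 tri maj shp mtx g Q m₀ a f m M ρ p hS hF hn hρ hθ hM p1 p2 p3 p6 p4 p5
  have hf := hF.zq
  have hm := hF.ev
  obtain ⟨Λ, h3, b2, b3⟩ := nbr g p f hf p1 p2 p5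
  have h1 : IsCoprime (1 : ℚ[X]) (zK f ℚ) := isCoprime_one_left
  have h2 : IsSquare (Nm (zK f ℚ) 1) := by
    rw [← C_1, (gram.1 ℚ _ (hf.mo ℚ)).2.2.1, one_pow]
    exact IsSquare.one
  have h4 : ∀ q ∈ Q, Loc q f 1 Λ := fun q hq => ⟨_, b2, C ((p : ℤ) ^ 2), p,
    by simp [zK], fun c => p3 (by
      rwa [← (Nat.prime_dvd_prime_iff_eq (hF.ty q hq).1 p1).1
        ((ZMod.natCast_eq_zero_iff p q).1 c)]), by simp⟩
  have m0 := WtgA.m_ne hf hm
  have e1 : (zK f ℚ).eval 1 = (m : ℚ) ^ 2 := by rw [eval_one_map, hm]; simp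
  have k1 : IsCoprime (1 * (1 - X)) (zK f ℚ) :=
    h1.mul_left (WtgA.cop_lin (x := 1) (by rw [e1]; simpa using m0))
  have k2 : IsSquare (Nm (zK f ℚ) (1 * (1 - X))) := by
    rw [(gram.1 ℚ _ (hf.mo ℚ)).1, BadA.nm_lin, e1]
    exact h2.mul (IsSquare.sq _)
  obtain ⟨Λ', k3, hs⟩ := lat2 g f m 1 Λ hf hm hF.co h1 h3
  obtain ⟨b, hb⟩ := bs1 g f 1 Λ hf h1 h3
  obtain ⟨A, T, hT, hR⟩ := bs2 g f 1 Λ b hf h1 h3 hb
  obtain ⟨b', hb'⟩ := bs1 g f _ Λ' hf k1 k3
  obtain ⟨A', T', hT', hR'⟩ := bs2 g f _ Λ' b' hf k1 k3 hb'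
  obtain ⟨N, hN, rfl, rfl⟩ := tri g f m 1 Λ' b b' A T A' T' hf hm hb' (fun i => hs (hb.mem i))
    hT hR hT' hR'
  obtain ⟨H, H', hH⟩ := maj g f m A A' N ρ hf m0 hN hθ
  have r : 1 ≤ ρ ^ 2 := one_le_pow₀ hρ
  refine ⟨A, A', N, H, H', hN, ⟨fun q hq => ⟨1, by simp, ?_, ?_⟩, fun l l1 l2 => ?_,
    fun l l1 l2 _ => ?_⟩, hH,
    dst (uniq gram) gs g f 1 Λ b A _ H M _ hf h1 h2 h3 hb hT r hH.h hM (.inr ⟨rfl, p, p1, p4, b3⟩),
    fun M' a => dst (uniq gram) gs g f _ Λ' b' A' _ H' M' _ hf k1 k2 k3 hb' hT' r hH.h' a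
      (.inl (by rwa [one_mul]))⟩
  · rw [one_smul, mK_Tt N hN.det hN.det', ← mK_mul]
    exact strq g q f 1 Λ b A _ hf (hF.ty q hq).1 (hF.ty q hq).2 h3 hb hT hR (h4 q hq)
  · rw [one_smul, mK_det, hN.dt]
  · exact absurd (Nat.dvd_one.1 l2) l1.ne_one
  · have a1 := ((shp l g f 1 a A _ l1 hf (by simpa [zK] using isCoprime_one_left)).2
      (fun c => hS.odd (c ▸ l2)) (hF.rt l l1 l2) (by simp)
      (mtx g f 1 Λ b A _ hf h1 h2 hb hT).2.2.2.2.1).2
      (frame hf h3 b2 hb hT p1 l1 fun c => p6 (c ▸ l2))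
    rw [L2, show (((1 : ℕ) : ℤ) ^ 2 * (1 - a) - 1) • A + A * Tt A A' N = A * Tt A A' N - a • A by
      rw [show ((1 : ℕ) : ℤ) ^ 2 * (1 - a) - 1 = -a by simp, neg_smul, neg_add_eq_sub]]
    exact a1

end Pool.Agent.MP_a43263_nt.N2

end

end PkN2Badn

section PkN2Box

/-! THEOREM N2: triples in boxes. -/

set_option autoImplicit false

noncomputable section

namespace Pool.Agent.MP_a43263_nt.N2

open Polynomial Finset Filter Matrix JC Pool.Agent.MP_a43263_nt.UV K2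

namespace BoxA

variable {n : ℕ}

theorem nset (b : ℤ) (e e' : Fin n → ℤ) (L : UC.Mz n → UC.Mz n → UC.Mz n → Prop) (μ : ℝ)
    (N₀ l : ℕ) (hμ : 0 ≤ μ)
    (h : μ = 1 ∨ Dens2 L μ N₀ ∧ N₀ ≤ 2 ^ l ∧ ∀ p q, (l : ℤ) ≤ b + e' p + e q) (A A' : UC.Mz n) :
    ∃ W : Finset (UC.Mz n), (∀ (f : ℤ[X]) (m : ℤ) (N : UC.Mz n), Tri f m A A' N → L A A' N →
      Box2 b e e' N → N ∈ W) ∧
      (W.card : ℝ) ≤ μ * (3 ^ (n * n) * (2 : ℝ) ^ (∑ p, ∑ q, max (b + e' p + e q) 0)) := by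
  rcases h with rfl | ⟨hD, hl, hN⟩
  · obtain ⟨W, h1, h2⟩ := K2.BoxA.full b e e'
    exact ⟨W, fun _ _ N _ _ => h1 N, by rwa [one_mul]⟩
  by_cases h : A.IsSymm ∧ A'.IsSymm ∧ IsUnit A.det ∧ IsUnit A'.det
  · have h0 : ∀ p q, (0 : ℤ) ≤ b + e' p + e q := fun p q => (Int.natCast_nonneg l).trans (hN p q)
    have hY : ∀ p q, ((2 ^ (b + e' p + e q).toNat : ℕ) : ℝ) = (2 : ℝ) ^ (b + e' p + e q) :=
      fun p q => by
        push_cast
        rw [← zpow_natCast, Int.toNat_of_nonneg (h0 p q)]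
    obtain ⟨W, h1, h2⟩ := hD A A' h.1 h.2.1 h.2.2.1 h.2.2.2
      (fun p q => 2 ^ (b + e' p + e q).toNat) fun p q =>
        hl.trans (Nat.pow_le_pow_right (by norm_num) (by have := hN p q; omega))
    refine ⟨W, fun _ _ N _ l k => h1 N l fun p q => ?_, h2.trans_eq ?_⟩
    · have := k p q
      rw [← hY] at this
      exact_mod_cast this
    · simp only [hY, K2.BoxA.prd, max_eq_left (h0 _ _)]
  · refine ⟨∅, fun _ _ _ t => (h ⟨t.sa, t.sa', t.det, t.det'⟩).elim, ?_⟩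
    simp only [card_empty, Nat.cast_zero]
    positivity

end BoxA

theorem box_n : BOXStmt := by
  classical
  intro n
  refine ⟨3 ^ (n * n) * 3 ^ (UC.up n).card * 3 ^ (UC.up n).card *
    (2 ^ (UC.up n).card * 2 ^ (UC.up n).card), by positivity, fun a b e e' L μ N₀ l hμ h => ?_⟩
  obtain ⟨W₁, h1, h1'⟩ := K2.BoxA.sym a e
  obtain ⟨W₂, h2, h2'⟩ := K2.BoxA.sym a e'
  choose WN h3 h3' using N2.BoxA.nset b e e' L μ N₀ l hμ h
  refine ⟨(W₁ ×ˢ W₂).biUnion fun x => (WN x.1 x.2).image fun N => (x.1, x.2, N),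
    fun f m A A' N t l b1 b2 b3 => mem_biUnion.2 ⟨(A, A'), mem_product.2 ⟨h1 _ t.sa b1,
      h2 _ t.sa' b2⟩, mem_image.2 ⟨N, h3 A A' f m N t l b3, rfl⟩⟩, ?_⟩
  refine (Nat.cast_le.2 card_biUnion_le).trans ?_
  rw [Nat.cast_sum]
  refine (sum_le_sum fun x _ => (Nat.cast_le.2 card_image_le).trans (h3' x.1 x.2)).trans ?_
  rw [sum_const, card_product, nsmul_eq_mul, Nat.cast_mul, zpow_add₀ two_ne_zero,
    zpow_add₀ two_ne_zero]
  refine (mul_le_mul_of_nonneg_right (mul_le_mul h1' h2' (Nat.cast_nonneg _) (by positivity))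
    (by positivity)).trans ?_
  have k1 : (1 : ℝ) ≤ 3 ^ (n * n) * 3 ^ (UC.up n).card * 3 ^ (UC.up n).card :=
    one_le_mul_of_one_le_of_one_le (one_le_mul_of_one_le_of_one_le (one_le_pow₀ (by norm_num))
      (one_le_pow₀ (by norm_num))) (one_le_pow₀ (by norm_num))
  have k2 : (1 : ℝ) ≤ 2 ^ (UC.up n).card * 2 ^ (UC.up n).card :=
    one_le_mul_of_one_le_of_one_le (one_le_pow₀ one_le_two) (one_le_pow₀ one_le_two)
  have k3 := mul_le_mul (le_self_pow₀ k1 a.succ_ne_zero) (pow_le_pow_right₀ k2 a.le_succ)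
    (by positivity) (by positivity)
  rw [← mul_pow _ _ a.succ] at k3
  refine le_trans (le_of_eq ?_) (mul_le_mul_of_nonneg_right (mul_le_mul_of_nonneg_left k3 hμ)
    (by positivity))
  rw [mul_pow]
  generalize ((2 : ℝ) ^ (UC.up n).card) ^ a = u
  generalize (3 : ℝ) ^ (UC.up n).card = v
  generalize (3 : ℝ) ^ (n * n) = w
  ring

end Pool.Agent.MP_a43263_nt.N2

end

end PkN2Box

section PkN2Core

/-! THEOREM N2: the count for reduced representatives. -/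

set_option autoImplicit false

noncomputable section

namespace Pool.Agent.MP_a43263_nt.N2

open Polynomial Finset Filter Matrix JC Pool.Agent.MP_a43263_nt.UV K2

open K2.CoreA in
theorem core_n : ADMStmt → UNIStmt → BOXStmt → K2.EXPStmt → K2.SUMStmt → COREStmt := by
  intro hA hU hB hE hS g κ hg
  classical
  obtain ⟨c, hc⟩ := hU g
  obtain ⟨cB, hcB, hB⟩ := hB (2 * g + 1)
  obtain ⟨C1, hC1, hS⟩ := hS g hg
  set K0 : ℝ := cB ^ (κ + c + 1) * 2 ^ (c * (2 * g + 1) ^ 2) with hK0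
  have hK0p : 0 < K0 := by positivity
  refine ⟨K0 * C1 * (2 ^ (κ + κ)) ^ (2 * g + 1) ^ 2, by positivity,
    fun L μ N₀ l hL hμ hD hN s s₂ k hk S hNis hSf => ?_⟩
  set k' : ℕ := κ + k + κ with hk'
  have hrep : ∀ x : Trp g, ∃ y : (Fin (2 * g + 1) → ℤ) × (Fin (2 * g + 1) → ℤ), x ∈ S →
      Adm2 k' y.1 y.2 ∧ (Dp k' y.1 → s₂ ≠ 0 → (2 * s₂ : ℤ) ≤ dp k' y.1) ∧
      (∃ f m, UC.Irr f ∧ m ≠ 0 ∧ Tri f m x.1 x.2.1 x.2.2) ∧ L x.1 x.2.1 x.2.2 ∧
        UC.Box κ y.1 x.1 ∧ UC.Box κ y.2 x.2.1 ∧ Box2 ((κ : ℤ) + k) y.1 y.2 x.2.2 := by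
    intro x
    by_cases hx : x ∈ S
    · obtain ⟨⟨f, m, h1, h2, hT⟩, hl, e, e', x1, x2, b1, b2, b3, nz, hz⟩ := hSf x hx
      obtain ⟨a1, a2⟩ := hA g κ (κ + k) f m x.1 x.2.1 x.2.2 e e' hg hT h1 h2 x1 x2 b1 b2
        (by rwa [Nat.cast_add]) nz
      refine ⟨(e, e'), fun _ => ⟨a1, fun d h0 => (hz (a2 d) h0).trans ?_, ⟨f, m, h1, h2, hT⟩, hl,
        b1, b2, b3⟩⟩
      have h5 : 2 * k * UC.tri g ≤ 2 * k' * UC.tri g := Nat.mul_le_mul_right _ (by omega)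
      simp only [dp]
      omega
    · exact ⟨0, fun h => absurd h hx⟩
  choose ef hef using hrep
  set E := S.image ef with hEdef
  have hE1 : ∀ y ∈ E, Adm2 k' y.1 y.2 := by
    intro y hy
    obtain ⟨x, hx, rfl⟩ := mem_image.1 hy
    exact (hef x hx).1
  have hE2 : ∀ y ∈ E, Dp k' y.1 → (2 * s₂ : ℤ) ≤ dp k' y.1 := by
    intro y hy hd
    by_cases h0 : s₂ = 0
    · rw [h0]
      simpa using (hS k' E hE1).2.1 y hy
    obtain ⟨x, hx, rfl⟩ := mem_image.1 hy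
    exact (hef x hx).2.1 hd h0
  set w : (Fin (2 * g + 1) → ℤ) × (Fin (2 * g + 1) → ℤ) → ℝ :=
    fun y => ((S.filter fun x => ef x = y).card : ℝ) with hw
  have hfib : ∀ y ∈ E, ∀ ν : ℝ, 0 ≤ ν →
      (ν = 1 ∨ Dens2 L ν N₀ ∧ N₀ ≤ 2 ^ l ∧ ∀ p q, (l : ℤ) ≤ (κ : ℤ) + k + c + y.2 p + y.1 q) →
      w y ≤ ν * K0 * (2 : ℝ) ^ Phi2 k' y.1 y.2 := by
    intro y hy ν hν h
    obtain ⟨W, hW, hW'⟩ := hB (κ + c) ((κ : ℤ) + k + c) y.1 y.2 L ν N₀ l hν h
    rw [Nat.cast_add] at hW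
    have h1 := hc κ ((κ : ℤ) + k) y.1 y.2 L hL (hE1 y hy).ex.1 (hE1 y hy).ex'.1
      (S.filter fun x => ef x = y) W
      (fun x hx z hz => hNis x (mem_filter.1 hx).1 z (mem_filter.1 hz).1) (fun x hx => by
        obtain ⟨hx', rfl⟩ := mem_filter.1 hx
        exact (hef x hx').2.2) hW
    have := fin_bound ((κ : ℤ) + k) k' c (by rw [hk']; push_cast; omega) y.1 y.2 _ _ _
      (by positivity) h1 hW'
    rwa [mul_assoc ν] at this
  have htot : (S.card : ℝ) = ∑ y ∈ E, w y := by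
    rw [card_eq_sum_card_image ef S]; push_cast; rfl
  have s1 := cls (E.filter fun y => Dp k' y.1) w (fun y => Phi2 k' y.1 y.2) (fun y => dp k' y.1)
    (1 * K0) _ (k' * (2 * g + 1) ^ 2) (by positivity)
    (fun y hy => hfib y (mem_filter.1 hy).1 1 zero_le_one (Or.inl rfl))
    (fun y hy => (hE g k' _ _ hg (hE1 y (mem_filter.1 hy).1)).2 (mem_filter.1 hy).2)
    ((hS k' _ fun y hy => hE1 y (mem_filter.1 hy).1).2.2 s₂
      fun y hy => hE2 y (mem_filter.1 hy).1 (mem_filter.1 hy).2)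
  have s2 := cls ((E.filter fun y => ¬Dp k' y.1).filter fun y => (2 * s : ℤ) ≤ gn k' y.1 y.2) w
    (fun y => Phi2 k' y.1 y.2) (fun y => gn k' y.1 y.2)
    (1 * K0) _ (k' * (2 * g + 1) ^ 2) (by positivity)
    (fun y hy => hfib y (mem_filter.1 (mem_filter.1 hy).1).1 1 zero_le_one (Or.inl rfl))
    (fun y hy => (hE g k' _ _ hg (hE1 y (mem_filter.1 (mem_filter.1 hy).1).1)).1
      (mem_filter.1 (mem_filter.1 hy).1).2)
    ((hS k' _ fun y hy => hE1 y (mem_filter.1 (mem_filter.1 hy).1).1).1 s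
      fun y hy => (mem_filter.1 hy).2)
  have s3 := cls ((E.filter fun y => ¬Dp k' y.1).filter fun y => ¬(2 * s : ℤ) ≤ gn k' y.1 y.2) w
    (fun y => Phi2 k' y.1 y.2) (fun y => gn k' y.1 y.2)
    (μ * K0) _ (k' * (2 * g + 1) ^ 2) (by positivity)
    (fun y hy => hfib y (mem_filter.1 (mem_filter.1 hy).1).1 μ hμ (Or.inr ⟨hD, hN, fun p q => by
      have a := hE1 y (mem_filter.1 (mem_filter.1 hy).1).1
      have h0 := (mem_filter.1 hy).2
      have h1 : y.2 0 ≤ y.2 p := a.ex'.1 (Fin.zero_le p)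
      have h2 : y.1 0 ≤ y.1 q := a.ex.1 (Fin.zero_le q)
      simp only [gn] at h0
      omega⟩))
    (fun y hy => (hE g k' _ _ hg (hE1 y (mem_filter.1 (mem_filter.1 hy).1).1)).1
      (mem_filter.1 (mem_filter.1 hy).1).2)
    ((hS k' _ fun y hy => hE1 y (mem_filter.1 (mem_filter.1 hy).1).1).1 0 fun y hy => by
      have := ex0 (hE1 y (mem_filter.1 (mem_filter.1 hy).1).1).ex
      simp only [gn]
      omega)
  have hPX : (2 : ℝ) ^ (k' * (2 * g + 1) ^ 2) =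
      (2 ^ (κ + κ)) ^ (2 * g + 1) ^ 2 * ((2 : ℝ) ^ k) ^ (2 * g + 1) ^ 2 := by
    rw [pow_mul, ← mul_pow, ← pow_add, show κ + κ + k = k' by omega]
  rw [htot, ← sum_filter_add_sum_filter_not E (fun y => Dp k' y.1),
    ← sum_filter_add_sum_filter_not (E.filter fun y => ¬Dp k' y.1)
      (fun y => (2 * s : ℤ) ≤ gn k' y.1 y.2)]
  refine (add_le_add s1 (add_le_add s2 s3)).trans (le_of_eq ?_)
  rw [hPX]
  generalize ((2 : ℝ) ^ (κ + κ)) ^ (2 * g + 1) ^ 2 = u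
  generalize ((2 : ℝ) ^ k) ^ (2 * g + 1) ^ 2 = v
  ring

end Pool.Agent.MP_a43263_nt.N2

end

end PkN2Core

section PkN2Den

/-! Row DEN: the density of all local conditions. -/

set_option autoImplicit false

noncomputable section

namespace Pool.Agent.MP_a43263_nt.N2

open Polynomial Finset Filter Matrix JC Pool.Agent.MP_a43263_nt.UV K2
open Pool.Agent.MP_a43263_nt.K2.DenA (map_tt det_mp)

namespace DenA

/-- The condition `P` forces the class modulo `r` into a set of density `μ`. -/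
def LD (n r : ℕ) (P : UC.Mz n → Prop) (μ : ℝ) : Prop :=
  ∃ S : Finset (Matrix (Fin n) (Fin n) (ZMod r)),
    (∀ B, P B → B.map (Int.castRingHom (ZMod r)) ∈ S) ∧ (S.card : ℝ) ≤ μ * (r : ℝ) ^ (n * n)

theorem crt (n : ℕ) {ι : Type} (I : Finset ι) (md : ι → ℕ) (P : ι → UC.Mz n → Prop) (μ : ι → ℝ)
    (h0 : ∀ i ∈ I, 0 < md i) (hc : ∀ i ∈ I, ∀ j ∈ I, i ≠ j → (md i).Coprime (md j))
    (hL : ∀ i ∈ I, LD n (md i) (P i) (μ i)) (Y : Fin n → Fin n → ℕ)
    (hY : ∀ p q, ∏ r ∈ I, md r ≤ Y p q) : ∃ W : Finset (UC.Mz n),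
      (∀ B : UC.Mz n, (∀ i ∈ I, P i B) → (∀ p q, |B p q| ≤ (Y p q : ℤ)) → B ∈ W) ∧
      (W.card : ℝ) ≤ (∏ i ∈ I, μ i) * ∏ p, ∏ q, (3 * (Y p q : ℝ)) := by
  classical
  have hS : ∀ i, ∃ S : Finset (Matrix (Fin n) (Fin n) (ZMod (md i))), i ∈ I →
      (∀ B, P i B → B.map (Int.castRingHom (ZMod (md i))) ∈ S) ∧
        (S.card : ℝ) ≤ μ i * (md i : ℝ) ^ (n * n) := fun i => by
    by_cases h : i ∈ I
    · exact (hL i h).imp fun _ a _ => a
    · exact ⟨∅, fun a => absurd a h⟩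
  choose S hS using hS
  set N := ∏ r ∈ I, md r with hN
  have N0 : 0 < N := prod_pos h0
  let W0 : Finset (UC.Mz n) := Fintype.piFinset fun p => Fintype.piFinset fun q =>
    Icc (-(Y p q : ℤ)) (Y p q)
  let W := W0.filter fun B : UC.Mz n => ∀ i ∈ I, B.map (Int.castRingHom (ZMod (md i))) ∈ S i
  refine ⟨W, fun B h3 h2 => mem_filter.2 ⟨Fintype.mem_piFinset.2 fun p =>
    Fintype.mem_piFinset.2 fun q => mem_Icc.2 (abs_le.1 (h2 p q)),
      fun i hi => (hS i hi).1 B (h3 i hi)⟩, ?_⟩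
  have key : W.card ≤ (∏ p, ∏ q, (2 * Y p q / N + 1)) * (I.pi S).card := by
    refine card_le_mul_card_image_of_maps_to
      (f := fun (B : UC.Mz n) i (_ : i ∈ I) => B.map (Int.castRingHom (ZMod (md i))))
      (fun B hB => mem_pi.2 (mem_filter.1 hB).2) _ fun s _ => ?_
    rcases (W.filter fun B : UC.Mz n => (fun i (_ : i ∈ I) =>
      B.map (Int.castRingHom (ZMod (md i)))) = s).eq_empty_or_nonempty with h | ⟨B0, h0⟩
    · rw [h]
      exact Nat.zero_le _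
    refine le_trans (card_le_card (t := Fintype.piFinset fun p => Fintype.piFinset fun q =>
      (Icc (-(Y p q : ℤ)) (Y p q)).filter fun z => (N : ℤ) ∣ z - B0 p q) fun B hB => ?_) ?_
    · obtain ⟨hB1, hB2⟩ := mem_filter.1 hB
      refine Fintype.mem_piFinset.2 fun p => Fintype.mem_piFinset.2 fun r =>
        mem_filter.2 ⟨Fintype.mem_piFinset.1
          (Fintype.mem_piFinset.1 (mem_filter.1 hB1).1 p) r, ?_⟩
      rw [hN, Nat.cast_prod]
      refine Finset.prod_dvd_of_coprime (fun q hq q' hq' hne => Nat.isCoprime_iff_coprime.2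
        (hc q hq q' hq' hne)) fun q hq => ?_
      have := congrFun (congrFun (congrFun (congrFun
        (((mem_filter.1 h0).2).trans hB2.symm) q) hq) p) r
      exact (ZMod.intCast_eq_intCast_iff_dvd_sub _ _ _).1 this
    · rw [Fintype.card_piFinset]
      refine prod_le_prod' fun p _ => ?_
      rw [Fintype.card_piFinset]
      exact prod_le_prod' fun r _ => UC.Den.card_class N _ N0 _
  have N0' : (0 : ℝ) < N := by exact_mod_cast N0
  rw [card_pi] at key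
  have k2 : (W.card : ℝ) ≤ (∏ p, ∏ q, (3 * (Y p q : ℝ) / N)) *
      ∏ i ∈ I, μ i * (md i : ℝ) ^ (n * n) := by
    refine le_trans (Nat.cast_le.2 key) ?_
    push_cast
    refine mul_le_mul (prod_le_prod
      (fun _ _ => prod_nonneg fun _ _ => by positivity) fun p _ =>
      prod_le_prod (fun _ _ => by positivity) fun r _ => ?_)
      (prod_le_prod (fun _ _ => Nat.cast_nonneg _) fun i hi => (hS i hi).2)
      (prod_nonneg fun _ _ => Nat.cast_nonneg _) (by positivity)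
    have h1 : ((2 * Y p r / N : ℕ) : ℝ) ≤ (2 * Y p r : ℕ) / N := Nat.cast_div_le
    have h2 : (1 : ℝ) ≤ Y p r / N := (one_le_div N0').2 (by exact_mod_cast hY p r)
    push_cast at h1
    calc _ ≤ 2 * (Y p r : ℝ) / N + Y p r / N := add_le_add h1 h2
      _ = _ := by ring
  refine k2.trans (le_of_eq ?_)
  simp only [prod_div_distrib, prod_const, card_univ, Fintype.card_fin]
  rw [prod_mul_distrib, prod_pow, ← Nat.cast_prod, ← hN, ← pow_mul]
  field_simp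

theorem two_ne {p : ℕ} (hp : p.Prime) (h2 : p ≠ 2) : (2 : ZMod p) ≠ 0 := fun e =>
  h2 ((Nat.prime_dvd_prime_iff_eq hp Nat.prime_two).1
    ((ZMod.natCast_eq_zero_iff 2 p).1 (by exact_mod_cast e)))

variable {g : ℕ} {A A' : Mat g ℤ}

theorem det_ne {p : ℕ} [Fact p.Prime] (h : IsUnit A.det) : (mK A (ZMod p)).det ≠ 0 := by
  rw [det_mp]
  exact (h.map _).ne_zero

theorem ldQ (hF : K2.FCStmt) (g : ℕ) (hg : 1 ≤ g) : ∃ q₀ : ℕ, ∀ (q : ℕ) (f₀ : ℤ[X]) (mb : ℤ)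
    (m₁ : ℕ) (A A' : Mat g ℤ), q.Prime → q₀ ≤ q → Ty q f₀ → ¬(q : ℤ) ∣ mb → A.IsSymm →
    A'.IsSymm → IsUnit A.det → IsUnit A'.det →
    LD (2 * g + 1) q (LQ q f₀ mb m₁ A A') (9 / 10 / (q : ℝ) ^ (2 * g + 1)) := by
  obtain ⟨q0, hq0⟩ := hF g hg
  refine ⟨max q0 3, ?_⟩
  rintro q f₀ mb m₁ A A' h1 h2 ⟨h, h3, h4, -⟩ h5 hA hA' hd hd'
  have := Fact.mk h1
  classical
  by_cases hdeg : h.natDegree = 2 * g
  swap
  · refine ⟨∅, fun N t => absurd ?_ hdeg, by rw [card_empty, Nat.cast_zero]; positivity⟩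
    obtain ⟨c, -, ⟨T, -, hT, -⟩, -⟩ := t
    have h6 := T.charpoly_natDegree_eq_dim
    rw [hT, h3, natDegree_X_mul h4.ne_zero, Fintype.card_fin] at h6
    omega
  have h6 := hq0 (ZMod q) (by rw [ZMod.card]; exact (le_max_left _ _).trans h2)
    (two_ne h1 (by have := (le_max_right _ _).trans h2; omega))
    (mK A (ZMod q)) (mK A' (ZMod q)) (hA.map _) (hA'.map _) (det_ne hd) (det_ne hd')
    (mb : ZMod q) h (fun e => h5 ((ZMod.intCast_zmod_eq_zero_iff_dvd _ _).1 e)) h4 hdeg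
  rw [Nat.card_eq_fintype_card, Fintype.card_subtype, ZMod.card] at h6
  refine ⟨image (fun N => (m₁ : ZMod q) • N) _, ?_, (Nat.cast_le.2 card_image_le).trans
    (le_of_mul_le_mul_left (a := 10) (le_trans (by exact_mod_cast h6 : _ ≤
      9 * (q : ℝ) ^ (2 * g * (2 * g + 1))) (le_of_eq ?_)) (by norm_num))⟩
  · rintro N ⟨c, c1, c2, c3⟩
    exact mem_image.2 ⟨c • mK N (ZMod q), mem_filter.2 ⟨mem_univ _, c3, h3 ▸ c2⟩, by
      rw [smul_smul, mul_comm _ c, c1, one_smul]⟩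
  · have q0' : (0 : ℝ) < q := by exact_mod_cast h1.pos
    rw [show (2 * g + 1) * (2 * g + 1) = 2 * g * (2 * g + 1) + (2 * g + 1) by ring,
      pow_add _ (2 * g * (2 * g + 1))]
    field_simp

theorem ld1 (hF : FLGStmt) {p : ℕ} {C C' : ℝ} (c : ℤ) (hp : p.Prime) (h2 : p ≠ 2) (hA : A.IsSymm)
    (hA' : A'.IsSymm) (hd : IsUnit A.det) (hd' : IsUnit A'.det) (hC : 0 < C)
    (hC' : 2 * C + C ^ 2 ≤ C')
    (h : (Nat.card {M : Sub g p // Is1 p A M} : ℝ) ≤ (p : ℝ) ^ (g + 1).choose 2 * (1 + C / p))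
    (h' : (Nat.card {M : Sub g p // Is1 p A' M} : ℝ) ≤ (p : ℝ) ^ (g + 1).choose 2 * (1 + C / p)) :
    LD (2 * g + 1) (p ^ 2) (L1 p c A A') (2 * (p : ℝ) ^ (5 * g ^ 2 + 3 * g) * (1 + C' / p) /
      (p : ℝ) ^ (2 * (2 * g + 1) ^ 2)) := by
  classical
  have := Fact.mk hp
  have := Fintype.ofFinite ({M : Sub g p // Is1 p A M} × {M : Sub g p // Is1 p A' M})
  choose W w1 w2 using fun x : {M : Sub g p // Is1 p A M} × {M : Sub g p // Is1 p A' M} =>
    hF g p c A A' x.1.1 x.2.1 hp h2 hA hA' hd hd' x.1.2 x.2.2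
  refine ⟨univ.biUnion W, ?_, ?_⟩
  · rintro N ⟨M, M', a1, a2, a3⟩
    exact mem_biUnion.2 ⟨(⟨M, a1⟩, ⟨M', a2⟩), mem_univ _, w2 _ N a3⟩
  · have p1 : (1 : ℝ) ≤ p := by exact_mod_cast hp.one_le
    have b1 := card_biUnion_le_card_mul univ W _ fun x _ => w1 x
    rw [card_univ, ← Nat.card_eq_fintype_card, Nat.card_prod] at b1
    have b2 : (1 + C / p) * (1 + C / p) ≤ 1 + C' / p := by
      have d1 : C / p ≤ C := div_le_self hC.le p1
      have d2 : 0 ≤ C / p := by positivity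
      have d3 : (2 * C + C ^ 2) / p ≤ C' / p := div_le_div_of_nonneg_right hC' (by linarith)
      have d4 : (2 * C + C ^ 2) / p = 2 * (C / p) + C * (C / p) := by ring
      nlinarith
    have b3 : 5 * g ^ 2 + 3 * g = (g + 1).choose 2 + (g + 1).choose 2 + (4 * g ^ 2 + 2 * g) := by
      have := Nat.div_two_mul_two_of_even (Nat.even_mul_pred_self (g + 1))
      rw [Nat.choose_two_right]
      simp only [Nat.add_sub_cancel] at this ⊢
      nlinarith
    refine (Nat.cast_le.2 b1).trans ?_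
    push_cast
    rw [← pow_mul, ← pow_two, div_mul_cancel₀ _ (by positivity), b3,
      pow_add _ _ (4 * g ^ 2 + 2 * g), pow_add _ ((g + 1).choose 2)]
    calc _ ≤ ((p : ℝ) ^ (g + 1).choose 2 * (1 + C / p)) * ((p : ℝ) ^ (g + 1).choose 2 *
          (1 + C / p)) * (2 * (p : ℝ) ^ (4 * g ^ 2 + 2 * g)) :=
          mul_le_mul_of_nonneg_right (mul_le_mul h h' (Nat.cast_nonneg _) (by positivity))
            (by positivity)
      _ = 2 * ((p : ℝ) ^ (g + 1).choose 2 * (p : ℝ) ^ (g + 1).choose 2 *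
          (p : ℝ) ^ (4 * g ^ 2 + 2 * g)) * ((1 + C / p) * (1 + C / p)) := by ring
      _ ≤ _ := mul_le_mul_of_nonneg_left b2 (by positivity)

theorem ld2 {p : ℕ} [Fact p.Prime] {C C' : ℝ} (c : ℤ) (hd : IsUnit A.det) (hd' : IsUnit A'.det)
    (hC : C ≤ C') (h : (Nat.card {N : Mat g (ZMod p) // Hz g ((c : ZMod p) • mK A (ZMod p) +
      mK A (ZMod p) * Tt (mK A (ZMod p)) (mK A' (ZMod p)) N)} : ℝ) * (2 * Fintype.card (ZMod p)) ≤
      (Fintype.card (ZMod p) : ℝ) ^ ((2 * g + 1) ^ 2) * (1 + C / Fintype.card (ZMod p))) :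
    LD (2 * g + 1) p (L2 p c A A') ((1 + C' / p) / (2 * p)) := by
  classical
  have p0 : (0 : ℝ) < p := by exact_mod_cast (Fact.out : p.Prime).pos
  rw [Nat.card_eq_fintype_card, Fintype.card_subtype, ZMod.card] at h
  refine ⟨_, fun N t => mem_filter.2 ⟨mem_univ _, ?_⟩, le_trans ((le_div_iff₀ (by positivity)).2 h)
    ?_⟩
  · rw [← map_tt _ N hd hd', show (c : ZMod p) • mK A (ZMod p) = mK (c • A) (ZMod p) from
      Matrix.ext fun i j => (Int.cast_mul c (A i j)).symm, ← Matrix.map_add _ (map_add _)]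
    exact t
  · rw [← pow_two, div_mul_eq_mul_div, mul_comm (1 + C' / p)]
    gcongr

end DenA

open DenA

theorem den_n : K2.FCStmt → ISCStmt → FLGStmt → DTWStmt → DENStmt := by
  intro hF hI hG hD g hg
  obtain ⟨q₀, hq⟩ := ldQ hF g hg
  obtain ⟨C₁, c1, h1⟩ := hI g
  obtain ⟨C₂, c2, h2⟩ := hD g hg
  refine ⟨q₀, 2 * C₁ + C₁ ^ 2 + C₂, by positivity,
    fun Q f₀ mb m₀ m₁ a hQ hS hm A A' hA hA' hd hd' Y hY => ?_⟩
  have m0 : m₀ ≠ 0 := hS.sf.ne_zero
  have m1 : m₁ ≠ 0 := ne_zero_of_dvd_ne_zero m0 hm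
  have hsub : m₁.primeFactors ⊆ m₀.primeFactors := Nat.primeFactors_mono hm m0
  have o2 : ∀ p, p ∣ m₀ → p ≠ 2 := fun p h e => hS.odd (e ▸ h)
  let I := Q.disjSum (m₁.primeFactors.disjSum (m₀.primeFactors \ m₁.primeFactors))
  let pr : ℕ ⊕ ℕ ⊕ ℕ → ℕ := Sum.elim id (Sum.elim id id)
  let md : ℕ ⊕ ℕ ⊕ ℕ → ℕ := Sum.elim id (Sum.elim (· ^ 2) id)
  have hI : ∀ i ∈ I, (∃ q ∈ Q, i = .inl q) ∨ (∃ p, p.Prime ∧ p ∣ m₁ ∧ i = .inr (.inl p)) ∨
      ∃ p, p.Prime ∧ p ∣ m₀ ∧ ¬p ∣ m₁ ∧ i = .inr (.inr p) := by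
    rintro (q | p | p) hi
    · exact Or.inl ⟨q, inl_mem_disjSum.1 hi, rfl⟩
    · have := Nat.mem_primeFactors.1 (inl_mem_disjSum.1 (inr_mem_disjSum.1 hi))
      exact Or.inr (Or.inl ⟨p, this.1, this.2.1, rfl⟩)
    · obtain ⟨a1, a2⟩ := mem_sdiff.1 (inr_mem_disjSum.1 (inr_mem_disjSum.1 hi))
      have := Nat.mem_primeFactors.1 a1
      exact Or.inr (Or.inr ⟨p, this.1, this.2.1,
        fun h => a2 (Nat.mem_primeFactors.2 ⟨this.1, h, m1⟩), rfl⟩)
  have hp : ∀ i ∈ I, (pr i).Prime ∧ md i ∣ pr i ^ 2 := fun i hi => by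
    rcases hI i hi with ⟨q, a, rfl⟩ | ⟨p, a, -, rfl⟩ | ⟨p, a, -, -, rfl⟩
    exacts [⟨(hQ q a).1, dvd_pow_self _ two_ne_zero⟩, ⟨a, dvd_rfl⟩,
      ⟨a, dvd_pow_self _ two_ne_zero⟩]
  have hj : ∀ i ∈ I, ∀ j ∈ I, pr i = pr j → i = j := fun i hi j hj e => by
    rcases hI i hi with ⟨q, a, rfl⟩ | ⟨p, -, a, rfl⟩ | ⟨p, -, a, a', rfl⟩ <;>
      rcases hI j hj with ⟨q', b, rfl⟩ | ⟨p', -, b, rfl⟩ | ⟨p', -, b, b', rfl⟩ <;>
      obtain rfl : _ = _ := (show (_ : ℕ) = _ from e)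
    exacts [rfl, absurd (b.trans hm) (hS.cop _ a), absurd b (hS.cop _ a),
      absurd (a.trans hm) (hS.cop _ b), rfl, absurd a b', absurd a (hS.cop _ b), absurd b a', rfl]
  obtain ⟨W, w1, w2⟩ := crt (2 * g + 1) I md
    (Sum.elim (fun q => LQ q f₀ mb m₁ A A') (Sum.elim
      (fun p => L1 p ((1 - a) * ((m₁ / p : ℕ) : ℤ) ^ 2) A A')
      fun p => L2 p ((m₁ : ℤ) ^ 2 * (1 - a) - 1) A A'))
    (Sum.elim (fun q : ℕ => 9 / 10 / (q : ℝ) ^ (2 * g + 1)) (Sum.elim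
      (fun p : ℕ => 2 * (p : ℝ) ^ (5 * g ^ 2 + 3 * g) * (1 + (2 * C₁ + C₁ ^ 2 + C₂) / p) /
        (p : ℝ) ^ (2 * (2 * g + 1) ^ 2))
      fun p : ℕ => (1 + (2 * C₁ + C₁ ^ 2 + C₂) / p) / (2 * p)))
    (fun i hi => Nat.pos_of_dvd_of_pos (hp i hi).2 (pow_pos (hp i hi).1.pos 2))
    (fun i hi j hj' e => Nat.Coprime.of_dvd (hp i hi).2 (hp j hj').2 (Nat.Coprime.pow 2 2
      ((Nat.coprime_primes (hp i hi).1 (hp j hj').1).2 fun h => e (hj i hi j hj' h))))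
    (fun i hi => by
      rcases hI i hi with ⟨q, b, rfl⟩ | ⟨p, b, b', rfl⟩ | ⟨p, b, b1, b2, rfl⟩
      · obtain ⟨a1, a2, a3, a4⟩ := hQ q b
        exact hq q f₀ mb m₁ A A' a1 a2 a3 a4 hA hA' hd hd'
      · have e := o2 p (b'.trans hm)
        exact ld1 hG _ b e hA hA' hd hd' c1 (by linarith) (h1 p A b e hA hd) (h1 p A' b e hA' hd')
      · have := Fact.mk b
        obtain ⟨⟨s, hs⟩, a2⟩ := hS.sq p b b1
        refine ld2 (p := p) _ hd hd' (by nlinarith) (h2 (ZMod p) (two_ne b (o2 p b1)) _ _ _ (m₁ * s)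
          (hA.map _) (hA'.map _) (det_ne hd) (det_ne hd') (mul_ne_zero
            (fun e => b2 ((ZMod.natCast_eq_zero_iff _ _).1 e)) fun e => a2
              ((ZMod.intCast_zmod_eq_zero_iff_dvd _ _).1 (by rw [hs, e, mul_zero]))) ?_)
        rw [Int.cast_sub, Int.cast_mul, hs]
        push_cast
        ring) Y
    (fun p q => le_trans (by
      rw [prod_disjSum, prod_disjSum]
      refine Nat.mul_le_mul_left _ ?_
      refine le_trans (Nat.mul_le_mul_left _ (prod_le_prod' (g := fun p => p ^ 2) fun p _ =>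
        Nat.le_self_pow two_ne_zero p)) (le_of_eq ?_)
      rw [mul_comm]
      refine (prod_sdiff (f := fun p => p ^ 2) hsub).trans ?_
      rw [prod_pow, Nat.prod_primeFactors_of_squarefree hS.sf]) (hY p q))
  refine ⟨W, fun N t => w1 N fun i hi => ?_, w2.trans (le_of_eq ?_)⟩
  · rcases hI i hi with ⟨q, b, rfl⟩ | ⟨p, b, b', rfl⟩ | ⟨p, b, b1, b2, rfl⟩
    exacts [t.1 q b, t.2.1 p b b', t.2.2 p b b1 b2]
  · rw [prod_disjSum, prod_disjSum, den, ← prod_pow, ← prod_const, ← prod_div_distrib,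
      ← mul_assoc (∏ q ∈ Q, _)]
    rfl

end Pool.Agent.MP_a43263_nt.N2

end

end PkN2Den

section PkN2Fma

/-! THEOREM N2: the first moment for one type. -/

set_option autoImplicit false

noncomputable section

namespace Pool.Agent.MP_a43263_nt.N2

open Polynomial Finset Filter Matrix JC Pool.Agent.MP_a43263_nt.UV K2

namespace FmaA

variable {g : ℕ}

theorem same {f f' : ℤ[X]} {m m' : ℤ} {x y : Trp g} {γ β : Mat g ℤ}
    (h : Tri f m x.1 x.2.1 x.2.2) (h' : Tri f' m' y.1 y.2.1 y.2.2) (hγ : γ.det = 1)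
    (hβ : β.det = 1) (e : y = (γᵀ * x.1 * γ, βᵀ * x.2.1 * β, βᵀ * x.2.2 * γ)) :
    f = f' ∧ m = m' := by
  have k := chg_k.2.1 _ f m x.1 x.2.1 x.2.2 γ β h.det h.det' hγ hβ h
  subst e
  exact ⟨k.ch.symm.trans h'.ch, k.dt.symm.trans h'.dt⟩

theorem glue {α : Type} (S : Finset α) (I : α → Finset (Trp g)) (φ : α → ℤ[X]) (ψ : α → ℤ) (k : ℕ)
    (inj : ∀ x ∈ S, ∀ y ∈ S, φ x = φ y → ψ x = ψ y → x = y)
    (tri : ∀ x ∈ S, ∀ t ∈ I x, Tri (φ x) (ψ x) t.1 t.2.1 t.2.2) (nis : ∀ x ∈ S, Nis (I x))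
    (cd : ∀ x ∈ S, k ≤ (I x).card) :
    ∃ T : Finset (Trp g), Nis T ∧ S.card * k ≤ T.card ∧ ∀ t ∈ T, ∃ x ∈ S, t ∈ I x := by
  classical
  refine ⟨S.biUnion I, fun s hs t ht γ β hγ hβ e => ?_, ?_, fun t ht => mem_biUnion.1 ht⟩
  · obtain ⟨x, hx, hs⟩ := mem_biUnion.1 hs
    obtain ⟨y, hy, ht⟩ := mem_biUnion.1 ht
    obtain ⟨e1, e2⟩ := same (tri x hx s hs) (tri y hy t ht) hγ hβ e
    obtain rfl := inj x hx y hy e1 e2
    exact nis x hx s hs t ht γ β hγ hβ e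
  · rw [card_biUnion fun x hx y hy hne => disjoint_left.2 fun t h1 h2 => hne ?_]
    · exact card_nsmul_le_sum S (fun x => (I x).card) k cd
    · have a := tri x hx t h1
      have b := tri y hy t h2
      exact inj x hx y hy (a.ch.symm.trans b.ch) (a.dt.symm.trans b.dt)

theorem move {Q : Finset ℕ} {f₀ f : ℤ[X]} {mb m a : ℤ} {m₀ m₁ : ℕ} {A A' N : Mat g ℤ}
    (h : Rs Q f₀ mb f m) (L : Lall Q f m m₀ m₁ a A A' N) : Lall Q f₀ mb m₀ m₁ a A A' N := by
  refine ⟨fun q hq => ?_, L.2⟩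
  have k := L.1 q hq
  unfold LQ at k ⊢
  rwa [(h q hq).1, (h q hq).2] at k

theorem den_nn (g : ℕ) {C : ℝ} (hC : 0 < C) (Q : Finset ℕ) (m₀ m₁ : ℕ) :
    0 ≤ den g C Q m₀ m₁ := by
  unfold den
  positivity

theorem root {N ρ : ℝ} (h1 : 1 ≤ N) (h2 : N ≤ ρ) : 1 / √(√ρ) ≤ (N / ρ) ^ (1 / 4 : ℝ) := by
  have r0 : 0 < ρ := by linarith
  have e : 1 / √(√ρ) = (1 / ρ) ^ (1 / 4 : ℝ) := by
    rw [Real.div_rpow zero_le_one r0.le, Real.one_rpow, Real.sqrt_eq_rpow, Real.sqrt_eq_rpow,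
      ← Real.rpow_mul r0.le]
    norm_num
  rw [e]
  exact Real.rpow_le_rpow (by positivity) (div_le_div_of_nonneg_right h1 r0.le) (by norm_num)

end FmaA

open FmaA in
theorem fma_n : K2.MAJStmt → FHStmt → FAMStmt → BADNStmt → INVStmt → COUNTStmt → DENStmt →
    FMAStmt := by
  intro maj fhs fam badn inv count dens g hg
  obtain ⟨c, hc, count⟩ := count g hg
  obtain ⟨q₀, C, hC, dens⟩ := dens g hg
  refine ⟨q₀, c, C, hc, hC, fun Q f₀ mb m₀ a ρ hQ hm hρ S hS => ?_⟩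
  have m0 : 0 < m₀ := Nat.pos_of_ne_zero hm.sf.ne_zero
  have N1 : 1 ≤ (∏ q ∈ Q, q) * m₀ ^ 2 :=
    Nat.mul_pos (prod_pos fun q hq => (hQ q hq).1.pos) (pow_pos m0 2)
  generalize hN : (∏ q ∈ Q, q) * m₀ ^ 2 = N₀ at hρ N1 ⊢
  have N1' : (1 : ℝ) ≤ N₀ := by exact_mod_cast N1
  have r1 : 1 ≤ ρ := N1'.trans hρ
  have r0 : 0 < ρ := by linarith
  have s0 : 0 < √ρ := Real.sqrt_pos.2 r0
  have rt := root N1' hρ
  refine ⟨fun m₁ h1 hP => ?_, fun hB => ?_⟩
  · have m1 : 0 < m₁ := Nat.pos_of_dvd_of_pos h1 m0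
    have m1' : (m₁ : ℤ) ≠ 0 := by exact_mod_cast m1.ne'
    have m1r : (1 : ℝ) ≤ m₁ := by exact_mod_cast m1
    have key : ∀ x ∈ S, ∃ I : Finset (Trp g), mu1 g m₁ ≤ I.card ∧ Nis I ∧ ∀ t ∈ I,
        Tri (fh m₁ x.1) ((m₁ : ℤ) ^ (2 * g + 1) * x.2) t.1 t.2.1 t.2.2 ∧
        Lall Q x.1 x.2 m₀ m₁ a t.1 t.2.1 t.2.2 ∧ Nd t.1 t.2.1 t.2.2 := fun x hx => by
      obtain ⟨A, A', M, T, h⟩ := hP x hx
      exact fam g Q m₀ m₁ a x.1 x.2 A A' M T hm (hS x hx).1 h1 h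
    choose! I I1 I2 I3 using key
    obtain ⟨T, T1, T2, T3⟩ := glue S I (fun x => fh m₁ x.1)
      (fun x => (m₁ : ℤ) ^ (2 * g + 1) * x.2) (mu1 g m₁) (fun x hx y hy e1 e2 => Prod.ext
        ((fhs g m₁ x.1 m1' (hS x hx).1.zq).2.2.2 y.1 (hS y hy).1.zq e1)
        (mul_left_cancel₀ (pow_ne_zero _ m1') e2)) (fun x hx t ht => (I3 x hx t ht).1) I2 I1
    have le : ρ ≤ 2 * m₁ * ρ := by nlinarith
    have hD := dens Q f₀ mb m₀ m₁ a hQ hm h1
    rw [hN] at hD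
    have k := count (Lall Q f₀ mb m₀ m₁ a) (den g C Q m₀ m₁) N₀ (√ρ) (2 * m₁ * ρ)
      (inv g Q f₀ mb m₀ m₁ a) (den_nn g hC Q m₀ m₁) hD N1 s0 (hρ.trans le) T T1 fun t ht => by
        obtain ⟨x, hx, ht⟩ := T3 t ht
        obtain ⟨a1, a2, a3⟩ := I3 x hx t ht
        obtain ⟨b1, b2, b3⟩ := hS x hx
        obtain ⟨c1, -, c3, -⟩ := fhs g m₁ x.1 m1' b1.zq
        have c4 := c3 ρ r1 b3
        rw [Int.cast_natCast, Nat.abs_cast] at c4
        have ne : (m₁ : ℤ) ^ (2 * g + 1) * x.2 ≠ 0 :=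
          mul_ne_zero (pow_ne_zero _ m1') (LatA.m_ne b1.zq b1.ev)
        obtain ⟨H, H', hH⟩ := maj g _ _ _ _ _ _ c1 ne a1 c4
        exact ⟨move b2 a2, _, _, H, H', c1, ne, a1, hH, a3.1 _ _ _, fun M' _ => a3.2 _ _ _⟩
    have T2' : (S.card : ℝ) * mu1 g m₁ ≤ T.card := by exact_mod_cast T2
    refine T2'.trans (k.trans (mul_le_mul_of_nonneg_right (mul_le_mul_of_nonneg_left ?_ hc.le)
      (by positivity)))
    have : ((N₀ : ℝ) / (2 * m₁ * ρ)) ^ (1 / 4 : ℝ) ≤ (N₀ / ρ) ^ (1 / 4 : ℝ) :=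
      Real.rpow_le_rpow (by positivity) (div_le_div_of_nonneg_left (by positivity) r0 le)
        (by norm_num)
    linarith
  · have key : ∀ x ∈ S, ∃ t : Trp g, ∃ H H' : Mat g ℝ, Tri x.1 x.2 t.1 t.2.1 t.2.2 ∧
        Lall Q x.1 x.2 m₀ 1 a t.1 t.2.1 t.2.2 ∧ Maj2 ρ t.1 t.2.1 t.2.2 H H' ∧
        Dst (√ρ) (ρ ^ 2) t.1 (Tt t.1 t.2.1 t.2.2) H ∧
        ∀ M' : ℝ, 0 ≤ M' → Dst M' (ρ ^ 2) t.2.1 (Tt t.2.1 t.1 t.2.2ᵀ) H' := fun x hx => by
      obtain ⟨b1, -, b3⟩ := hS x hx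
      obtain ⟨d1, p, p1, p2, p3, p4, p5, p6⟩ := hB x hx
      obtain ⟨A, A', N, H, H', h⟩ :=
        badn g Q m₀ a x.1 x.2 (√ρ) ρ p hm b1 d1 r1 b3 s0.le p1 p2 p3 p4 p5 p6
      exact ⟨(A, A', N), H, H', h⟩
    choose! t ht using key
    obtain ⟨T, T1, T2, T3⟩ := glue S (fun x => {t x}) Prod.fst Prod.snd 1
      (fun x _ y _ e1 e2 => Prod.ext e1 e2)
      (fun x hx s hs => by
        obtain ⟨H, H', h, -⟩ := ht x hx
        rwa [mem_singleton.1 hs])
      (fun x _ s hs u hu _ _ _ _ _ => (mem_singleton.1 hs).trans (mem_singleton.1 hu).symm)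
      fun x _ => (card_singleton _).ge
    have hD := dens Q f₀ mb m₀ 1 a hQ hm (one_dvd _)
    rw [hN] at hD
    have k := count (Lall Q f₀ mb m₀ 1 a) (den g C Q m₀ 1) N₀ (√ρ) ρ
      (inv g Q f₀ mb m₀ 1 a) (den_nn g hC Q m₀ 1) hD N1 s0 hρ T T1 fun s hs => by
        obtain ⟨x, hx, hs⟩ := T3 s hs
        obtain rfl := mem_singleton.1 hs
        obtain ⟨H, H', a1, a2, a3⟩ := ht x hx
        obtain ⟨b1, b2, -⟩ := hS x hx
        exact ⟨move b2 a2, _, _, H, H', b1.zq, LatA.m_ne b1.zq b1.ev, a1, a3⟩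
    have T2' : (S.card : ℝ) ≤ T.card := by exact_mod_cast (mul_one S.card).symm.le.trans T2
    refine T2'.trans (k.trans (mul_le_mul_of_nonneg_right (mul_le_mul_of_nonneg_left ?_ hc.le)
      (by positivity)))
    linarith

end Pool.Agent.MP_a43263_nt.N2

end

end PkN2Fma

section PkN2Locb

/-! THEOREM N2, row LOCB: local generators for the second class. -/

set_option autoImplicit false

noncomputable section

namespace Pool.Agent.MP_a43263_nt.N2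

open Polynomial Finset Filter Matrix JC Pool.Agent.MP_a43263_nt.UV K2

namespace LocbA

theorem nm_mul {f : ℤ[X]} (hf : f.Monic) (r s : ℤ[X]) : Nm f (r * s) = Nm f r * Nm f s := by
  rw [Gram.nm_eq hf _ natDegree_mul_le, resultant_mul_right _ _ _ _ le_rfl, Nm, Nm]

theorem nm_nd {f η : ℤ[X]} (hf : f.Monic) {p : ℕ} (hp : p.Prime)
    (h : IsCoprime (zK η (ZMod p)) (zK f (ZMod p))) : ¬(p : ℤ) ∣ Nm f η := by
  have := Fact.mk hp
  intro hd
  have h1 : IsUnit (Nm (zK f (ZMod p)) (zK η (ZMod p))) :=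
    (isUnit_resultant_iff_isCoprime (hf.map _)).2 h.symm
  rw [Gram.nm_map hf] at h1
  exact h1.ne_zero ((ZMod.intCast_zmod_eq_zero_iff_dvd _ p).2 hd)

/-- the data of the change of generators at one prime -/
structure Ch (f : ℤ[X]) (p : ℕ) (w : ℚ[X]) (η γ : ℤ[X]) : Prop where
  sq : zK f ℚ ∣ (1 - X) * w ^ 2 - zK η ℚ
  inv : zK f ℚ ∣ w * zK γ ℚ - zK η ℚ
  co : IsCoprime (zK η (ZMod p)) (zK f (ZMod p))

theorem z1 (R : Type) [CommRing R] : zK (1 - X) R = 1 - X := by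
  rw [zK, Polynomial.map_sub, Polynomial.map_one, map_X]

section
variable {f Q a b c : ℤ[X]} {m : ℤ} {p : ℕ} (hp : p.Prime) (hf : f = C m * C m - (1 - X) * Q)
include hf

theorem zf (R : Type) [CommRing R] : zK f R = C (m : R) * C (m : R) - (1 - X) * zK Q R := by
  conv_lhs => rw [hf]
  simp

include hp

theorem ch_one (h : ¬(p : ℤ) ∣ m) : Ch f p 1 (1 - X) (1 - X) := by
  have := Fact.mk hp
  have hm : (m : ZMod p) ≠ 0 := fun e => h ((ZMod.intCast_zmod_eq_zero_iff_dvd _ p).1 e)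
  have hi : C (m : ZMod p)⁻¹ * C (m : ZMod p) = 1 := by rw [← C_mul, inv_mul_cancel₀ hm, C_1]
  refine ⟨by simp, by simp, C (m : ZMod p)⁻¹ ^ 2 * zK Q (ZMod p), C (m : ZMod p)⁻¹ ^ 2, ?_⟩
  rw [z1, zf hf]
  linear_combination (C (m : ZMod p)⁻¹ * C (m : ZMod p) + 1) * hi

theorem ch_two (hm : m ≠ 0) (hu : a * (1 - X) + b * C m + c * Q = 1) (h : (p : ℤ) ∣ m) :
    Ch f p (1 + C (m : ℚ)⁻¹ * zK Q ℚ) (1 - X + 2 * C m + Q) (1 - X + C m) := by
  have := Fact.mk hp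
  have hm' : (m : ℚ) ≠ 0 := by exact_mod_cast hm
  have hi : C (m : ℚ)⁻¹ * C (m : ℚ) = 1 := by rw [← C_mul, inv_mul_cancel₀ hm', C_1]
  have h0 : (m : ZMod p) = 0 := (ZMod.intCast_zmod_eq_zero_iff_dvd _ p).2 h
  have e1 : ∀ (R : Type) [CommRing R], zK (1 - X + 2 * C m + Q) R =
      1 - X + 2 * C (m : R) + zK Q R := fun R _ => by simp [zK]
  have e2 : zK (1 - X + C m) ℚ = 1 - X + C (m : ℚ) := by simp [zK]
  refine ⟨⟨-(2 * C (m : ℚ)⁻¹ + C (m : ℚ)⁻¹ ^ 2 * zK Q ℚ), ?_⟩, ⟨-C (m : ℚ)⁻¹, ?_⟩, ?_⟩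
  · rw [e1, zf hf]
    linear_combination (2 * C (m : ℚ) + (C (m : ℚ)⁻¹ * C (m : ℚ) + 1) * zK Q ℚ) * hi
  · rw [e1, e2, zf hf]
    linear_combination (C (m : ℚ) + zK Q ℚ) * hi
  · have hV : zK a (ZMod p) * (1 - X) + zK b (ZMod p) * C (m : ZMod p) +
        zK c (ZMod p) * zK Q (ZMod p) = 1 := by
      simpa using congrArg (fun P : ℤ[X] => zK P (ZMod p)) hu
    rw [h0, C_0, mul_zero, add_zero] at hV
    rw [e1, zf hf, h0, C_0, mul_zero, mul_zero, add_zero, zero_sub]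
    refine IsCoprime.neg_right (IsCoprime.mul_right
      ⟨zK c (ZMod p), zK a (ZMod p) - zK c (ZMod p), ?_⟩
      ⟨zK a (ZMod p), zK c (ZMod p) - zK a (ZMod p), ?_⟩)
    · linear_combination hV
    · linear_combination hV

end

end LocbA

open LocbA in
theorem locb_n : LOCBStmt := by
  intro g Q m₀ m₁ a f m δ x r P hS hF _ hG hr
  have hm := LatA.m_ne hF.zq hF.ev
  obtain ⟨q, a', b, c, hf, hu⟩ := LatA.decomp hF.ev hF.co
  have hmem : ∀ p : ℕ, p.Prime → (p ∈ m.natAbs.primeFactors ↔ (p : ℤ) ∣ m) := fun p hp => by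
    rw [Nat.mem_primeFactors, Int.natCast_dvd]
    exact ⟨fun h => h.2.1, fun h => ⟨hp, h, Int.natAbs_ne_zero.2 hm⟩⟩
  obtain ⟨w, η, γ, h1, h2⟩ : ∃ (w : ℕ → ℚ[X]) (η γ : ℕ → ℤ[X]),
      (∀ p : ℕ, p.Prime → Ch f p (w p) (η p) (γ p)) ∧
      ∀ p, p ∉ m.natAbs.primeFactors → w p = 1 ∧ η p = 1 - X := by
    refine ⟨fun p => if p ∈ m.natAbs.primeFactors then 1 + C (m : ℚ)⁻¹ * zK q ℚ else 1,
      fun p => if p ∈ m.natAbs.primeFactors then 1 - X + 2 * C m + q else 1 - X,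
      fun p => if p ∈ m.natAbs.primeFactors then 1 - X + C m else 1 - X,
      fun p hp => ?_, fun p hp => ⟨if_neg hp, if_neg hp⟩⟩
    by_cases h : p ∈ m.natAbs.primeFactors
    · simp only [if_pos h]
      exact ch_two hp hf hm hu ((hmem p hp).1 h)
    · simp only [if_neg h]
      exact ch_one hp hf fun e => h ((hmem p hp).2 e)
  have hR : ∀ p, Rp m₁ f a (fun p => r p * η p) p = Rp m₁ f a r p * η p := fun p => by
    simp only [Rp]
    ring
  refine ⟨fun p => x p * w p, fun p => r p * η p, P ∪ m.natAbs.primeFactors,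
    fun p hp => ⟨?_, ?_, fun h => ?_⟩, fun y hy p hp => ?_, fun p hp => ⟨?_, fun h => ?_⟩⟩
  · have := ((h1 p hp).sq.mul_left (δ * x p ^ 2)).add ((hG p hp).1.mul_left (zK (η p) ℚ))
    rw [hR, zK, zK, Polynomial.map_mul]
    refine (congrArg _ ?_).mp this
    ring
  · rw [hR, nm_mul hF.zq.monic]
    exact mul_ne_zero (hG p hp).2.1 fun e =>
      nm_nd hF.zq.monic hp (h1 p hp).co (e ▸ dvd_zero _)
  · rw [mem_union, not_or] at h
    show x p * w p = x 0 * w 0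
    rw [(hG p hp).2.2 h.1, (h2 p h.2).1, (h2 0 (by simp)).1]
  · obtain ⟨t, s, ht, hs⟩ := hy p hp
    obtain ⟨k, e, -, -, hk⟩ := exists_mul_add_mul_eq_C_resultant f (η p) le_rfl le_rfl
      (Or.inl (by rw [hF.zq.deg]; omega))
    have hk' : zK f ℚ * zK k ℚ + zK (η p) ℚ * zK e ℚ = C ((Nm f (η p) : ℤ) : ℚ) := by
      simpa [Nm] using congrArg (fun P : ℤ[X] => zK P ℚ) hk
    refine ⟨t * Nm f (η p), γ p * e * s, fun hd => ?_, ?_⟩
    · exact ((Nat.prime_iff_prime_int.1 hp).dvd_or_dvd hd).elim ht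
        (nm_nd hF.zq.monic hp (h1 p hp).co)
    · have := ((hs.mul_left (C ((Nm f (η p) : ℤ) : ℚ))).add
        (dvd_mul_right (zK f ℚ) (zK k ℚ * x p * zK s ℚ))).sub
        ((h1 p hp).inv.mul_left (x p * zK e ℚ * zK s ℚ))
      refine (congrArg _ ?_).mp this
      simp only [zK, Polynomial.map_mul, Int.cast_mul, C_mul] at hk' ⊢
      linear_combination (x p * s.map (Int.castRingHom ℚ)) * hk'
  · rw [zK, Polynomial.map_mul]
    exact (hr p hp).1.mul_left (h1 p hp).co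
  · have hn : p ∉ m.natAbs.primeFactors := fun e =>
      (Nat.prime_iff_prime_int.1 hp).not_isUnit
        (hF.cm.isUnit_of_dvd' ((hmem p hp).1 e) (Int.natCast_dvd_natCast.2 h))
    show IsSquare ((((r p * η p).eval a : ℤ)) : ZMod p)
    rw [(h2 p hn).2, eval_mul, Int.cast_mul]
    refine ((hr p hp).2 h).mul ?_
    simpa using (hS.sq p hp h).1

end Pool.Agent.MP_a43263_nt.N2

end

end PkN2Locb

section PkN2Pre

/-! THEOREM N2, row PRE: a bad polynomial gives two lattices. -/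

set_option autoImplicit false

noncomputable section

namespace Pool.Agent.MP_a43263_nt.N2

open Polynomial Finset Filter Matrix JC Pool.Agent.MP_a43263_nt.UV K2

namespace PreA

theorem abs_eq {d : ℤ} {m k : ℕ} (hm : Squarefree m) (hd : d ≠ 0)
    (h1 : ∀ p : ℕ, p.Prime → ¬p ∣ m → ¬(p : ℤ) ∣ d)
    (h2 : ∀ p : ℕ, p.Prime → p ∣ m → (p : ℤ) ^ k ∣ d ∧ ¬(p : ℤ) ^ (k + 1) ∣ d) :
    d.natAbs = m ^ k := by
  have d0 := Int.natAbs_ne_zero.2 hd
  refine Nat.eq_of_factorization_eq d0 (pow_ne_zero _ hm.ne_zero) fun p => ?_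
  by_cases hp : p.Prime
  swap
  · rw [Nat.factorization_eq_zero_of_not_prime _ hp, Nat.factorization_eq_zero_of_not_prime _ hp]
  rw [Nat.factorization_pow, Finsupp.smul_apply, smul_eq_mul]
  by_cases c : p ∣ m
  · obtain ⟨a, b⟩ := h2 p hp c
    rw [← Nat.cast_pow, Int.natCast_dvd, hp.pow_dvd_iff_le_factorization d0] at a b
    have e1 := hm.natFactorization_le_one p
    have e2 := hp.factorization_pos_of_dvd hm.ne_zero c
    rw [show m.factorization p = 1 by omega]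
    omega
  · rw [Nat.factorization_eq_zero_of_not_dvd c,
      Nat.factorization_eq_zero_of_not_dvd fun e => h1 p hp c (Int.natCast_dvd.2 e), mul_zero]

theorem rp_pos {m₁ p : ℕ} (f : ℤ[X]) (a : ℤ) (r : ℕ → ℤ[X]) (h : p ∣ m₁) :
    Rp m₁ f a r p = r p * pw p f a := by rw [Rp, if_pos h, pow_one]

theorem rp_neg {m₁ p : ℕ} (f : ℤ[X]) (a : ℤ) (r : ℕ → ℤ[X]) (h : ¬p ∣ m₁) :
    Rp m₁ f a r p = r p := by rw [Rp, if_neg h, pow_zero, mul_one]

/-- the shape of one lattice -/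
theorem one (shp : SHPStmt) {g m₀ m₁ : ℕ} {Q : Finset ℕ} {a m : ℤ} {f : ℤ[X]} {r : ℕ → ℤ[X]}
    {A T : Mat g ℤ} (s : Sm0 Q m₀ a) (F : Fm g Q m₀ a f m) (hm : m₁ ∣ m₀) (d0 : A.det ≠ 0)
    (sq : IsSquare ((((-1) ^ g * A.det : ℤ)) : ℚ))
    (hr : ∀ p : ℕ, p.Prime → IsCoprime (zK (r p) (ZMod p)) (zK f (ZMod p)) ∧
      (p ∣ m₀ → IsSquare ((((r p).eval a : ℤ)) : ZMod p)))
    (fr : ∀ p : ℕ, p.Prime → Frm g p f (Rp m₁ f a r p) A T) :
    A.det.natAbs = m₁ ^ (2 * g) ∧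
    (∀ p : ℕ, p.Prime → p ∣ m₁ → Hy g p A ∧ ∀ i j, (p : ℤ) ∣ (A * T - a • A) i j) ∧
    ∀ p : ℕ, p.Prime → p ∣ m₀ → ¬p ∣ m₁ → Hz g (mK (A * T - a • A) (ZMod p)) := by
  have k := fun (p : ℕ) (hp : p.Prime) (c : p ∣ m₀) =>
    (shp p g f (r p) a A T hp F.zq (hr p hp).1).2 (fun e => s.odd (e ▸ c)) (F.rt p hp c)
      ((hr p hp).2 c) sq
  have k1 := fun (p : ℕ) (hp : p.Prime) (c : p ∣ m₁) =>
    (k p hp (c.trans hm)).1 (rp_pos f a r c ▸ fr p hp)
  refine ⟨abs_eq (s.sf.squarefree_of_dvd hm) d0 (fun p hp c => ?_) fun p hp c => (k1 p hp c).2.2,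
    fun p hp c => ⟨(k1 p hp c).1, (k1 p hp c).2.1⟩,
    fun p hp c n => (k p hp c).2 (rp_neg f a r n ▸ fr p hp)⟩
  exact (shp p g f (r p) a A T hp F.zq (hr p hp).1).1 (rp_neg f a r c ▸ fr p hp)

end PreA

open PreA in
theorem pre_n : GLUStmt → LOCAStmt → LOCBStmt → SHPStmt → STQStmt → MTXStmt → PREStmt := by
  classical
  intro glu loca locb shp stq mtx g Q m₀ a f m s F h
  simp only [Str3, not_forall, not_or] at h
  obtain ⟨δ, a1, a2, a3, a4, a5, a6, a7⟩ := h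
  have hf := F.zq
  let P : ℕ → Prop := fun p => ∃ _ : Fact p.Prime, NG p f a (fK δ ℚ_[p]) 0 1
  let m₁ := ∏ p ∈ m₀.primeFactors.filter P, p
  have hm : m₁ ∣ m₀ := (prod_dvd_prod_of_subset _ _ _ (filter_subset _ _)).trans
    (Nat.prod_primeFactors_dvd m₀)
  have hp1 : ∀ p : ℕ, p.Prime → (p ∣ m₁ ↔ p ∣ m₀ ∧ P p) := fun p hp => by
    refine ⟨fun c => ?_, fun c => dvd_prod_of_mem _
      (mem_filter.2 ⟨Nat.mem_primeFactors.2 ⟨hp, c.1, s.sf.ne_zero⟩, c.2⟩)⟩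
    obtain ⟨q, q1, q2⟩ := (hp.prime.dvd_finsetProd_iff _).1 c
    rw [mem_filter] at q1
    rw [(Nat.prime_dvd_prime_iff_eq hp (Nat.prime_of_mem_primeFactors q1.1)).1 q2]
    exact ⟨Nat.dvd_of_mem_primeFactors q1.1, q1.2⟩
  obtain ⟨x, r, W, g1, g2⟩ := loca g Q m₀ m₁ a f m δ s F hm a3 (fun p i c => by
    split_ifs with e
    · exact ((hp1 p i.out).1 e).2.2
    · obtain ⟨y, hy⟩ := a4 p c
      have : ∀ z : ZMod 2, z = 0 ∨ z = 1 := by decide
      rcases this y with rfl | rfl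
      · exact hy
      · exact absurd ((hp1 p i.out).2 ⟨c, i, hy⟩) e) a5
  have g3 := fun (p : ℕ) (hp : p.Prime) => And.intro (g2 p hp).1 (g2 p hp).2.1
  obtain ⟨x', r', W', g4, g5, g6⟩ := locb g Q m₀ m₁ a f m δ x r W s F hm g1 g3
  obtain ⟨b, A, T, b1, b2, b3⟩ := glu g f δ x _ W hf g1
  obtain ⟨b', A', T', c1, c2, c3⟩ := glu g f _ x' _ W' hf g4
  have m0 := WtgA.m_ne hf F.ev
  have e1 : (zK f ℚ).eval 1 = (m : ℚ) ^ 2 := by rw [eval_one_map, F.ev]; simp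
  have k1 : IsCoprime (δ * (1 - X)) (zK f ℚ) :=
    a1.mul_left (WtgA.cop_lin (x := 1) (by rw [e1]; simpa using m0))
  have k2 : IsSquare (Nm (zK f ℚ) (δ * (1 - X))) := by
    rw [(gram.1 ℚ _ (hf.mo ℚ)).1, BadA.nm_lin, e1]
    exact a2.mul (IsSquare.sq _)
  obtain ⟨t1, t2, t3, t4, t5, t6, t7⟩ := mtx g f δ _ b A T hf a1 a2 b1 b2
  obtain ⟨u1, -, -, u4, u5, -⟩ := mtx g f _ _ b' A' T' hf k1 k2 c1 c2
  have v := (mtx g f _ _ b _ T hf k1 k2 b1 t7).2.2.2.2.2.1 a7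
  choose z hz using fun j => c1.span (b j) (g5 _ (b1.mem j))
  obtain ⟨M, hM⟩ : ∃ M : Mat g ℤ, ∀ j, zK f ℚ ∣ b j - Dst.cb b' fun i => (M i j : ℚ) :=
    ⟨(of z)ᵀ, hz⟩
  obtain ⟨o1, o2, o3⟩ := one shp s F hm t4 t5 g3 b3
  obtain ⟨w1, w2, -⟩ := one shp s F hm u4 u5 g6 c3
  refine ⟨m₁, hm, A, A', M, T, t1, u1, t2, t3, TriA.form hf b2 c2 hM, o1, w1,
    fun p hp c => ⟨(o2 p hp c).1, (w2 p hp c).1, (o2 p hp c).2⟩, o3, fun q hq => ?_, t6 a6, v⟩
  have q1 := (F.ty q hq).1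
  exact stq q g f (r q) A T q1 hf (F.ty q hq).2 (g2 q q1).1 ((g2 q q1).2.2 hq)
    (rp_neg f a r (fun c => s.cop q hq (c.trans hm)) ▸ b3 q q1) t3

end Pool.Agent.MP_a43263_nt.N2

end

end PkN2Pre
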