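import Pool.Agent.MP_a43263_nt.N2.SpecC

/-! Packed rows. -/

section PkN2Mom

/-! THEOREM N2, analytic part: one moment. -/

set_option autoImplicit false

noncomputable section

namespace Pool.Agent.MP_a43263_nt.N2

open Finset Filter K2

namespace MomA

theorem smul_sh (g : ℕ) (i t u' v : ℤ) : i • sh g t u' v = sh g (i * t) u' v := by
  funext j
  simp only [sh, Pi.smul_apply, smul_eq_mul]
  split_ifs <;> ring

theorem om_inv {g : ℕ} {ω : Vec g → ℝ} {σ : Vec g} (h : ∀ w, ω (w + σ) = ω w) (w : Vec g) (i : ℕ) :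
    ω (w + (i : ℤ) • σ) = ω w := by
  induction i with
  | zero => simp
  | succ i ih => rw [Nat.cast_succ, add_smul, one_smul, ← add_assoc, h, ih]

theorem co_eq {g d u v : ℕ} {w : Vec g} (hd : (d : ℤ) ∣ Gv w u v) (h : 0 ≤ Gv w u v) :
    Gv w u v = d * co d w u v := by
  rw [co, Int.toNat_of_nonneg (Int.ediv_nonneg h (by positivity)), Int.mul_ediv_cancel' hd]

theorem co_add {g d u v a : ℕ} {w w' : Vec g} (d0 : 0 < d) (hd : (d : ℤ) ∣ Gv w u v)
    (h : 0 ≤ Gv w u v) (e : Gv w' u v = Gv w u v + d * a) : co d w' u v = co d w u v + a := by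
  rw [co, e, co_eq hd h, ← mul_add, Int.mul_ediv_cancel_left _ (by exact_mod_cast d0.ne'),
    ← Nat.cast_add, Int.toNat_natCast]

theorem ql_mul {g v N d m s s' u : ℕ} (hN : 0 < N) (hd : d ∣ N) :
    ((m * d : ℕ) : ℤ) * (ql g v N d m s s' u : ℕ) =
      (N : ℤ) ^ 2 * Int.sign ((s : ℤ) - s') * (((u + m * s : ℕ) : ℤ) ^ 2 * (v : ℤ) ^ (4 * g) *
        (((u + m * s : ℕ) : ℤ) ^ 2 - ((u + m * s' : ℕ) : ℤ) ^ 2)) := by
  obtain ⟨e, rfl⟩ := hd
  have d0 : 0 < d := Nat.pos_of_mul_pos_right hN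
  rw [ql, show (d * e) ^ 2 = d * (d * e ^ 2) by ring, Nat.mul_div_cancel_left _ d0]
  push_cast
  rw [← Int.sign_mul_self_eq_abs]
  ring

/-- sum over the fibres of the value -/
theorem fib {g k d u v : ℕ} {ω : Vec g → ℝ} {B M : ℝ} {E : ℕ → ℝ} {Y : Finset ℕ}
    (h0 : ∀ w, 0 ≤ ω w ∧ ω w ≤ B)
    (h1 : ∀ w ∈ bx g k, ω w ≠ 0 → co d w u v ∈ Y ∧ Gv w u v = d * co d w u v)
    (h2 : ∀ y ∈ Y, E y ≠ 0 → cnt g k (fun w => Gv w u v = (d : ℤ) * y) ≤ M) :
    |∑ w ∈ bx g k, ω w * E (co d w u v)| ≤ B * (M * ∑ y ∈ Y, |E y|) := by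
  have B0 : 0 ≤ B := (h0 0).1.trans (h0 0).2
  refine (abs_sum_le_sum_abs _ _).trans ?_
  calc ∑ w ∈ bx g k, |ω w * E (co d w u v)|
      ≤ ∑ w ∈ bx g k, ∑ y ∈ Y, B * (ind (Gv w u v = (d : ℤ) * y) * |E y|) := by
        refine sum_le_sum fun w hw => ?_
        have nn : ∀ y ∈ Y, 0 ≤ B * (ind (Gv w u v = (d : ℤ) * y) * |E y|) := fun y _ =>
          mul_nonneg B0 (mul_nonneg (ind_nonneg _) (abs_nonneg _))
        by_cases e : ω w = 0
        · rw [e, zero_mul, abs_zero]; exact sum_nonneg nn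
        · obtain ⟨a, b⟩ := h1 w hw e
          refine le_trans ?_ (single_le_sum nn a)
          rw [ind_pos b, one_mul, abs_mul, abs_of_nonneg (h0 w).1]
          exact mul_le_mul_of_nonneg_right (h0 w).2 (abs_nonneg _)
    _ = B * ∑ y ∈ Y, cnt g k (fun w => Gv w u v = (d : ℤ) * y) * |E y| := by
        rw [sum_comm, mul_sum]
        exact sum_congr rfl fun y _ => by rw [← mul_sum, cnt, sum_mul]
    _ ≤ B * (M * ∑ y ∈ Y, |E y|) := by
        rw [mul_sum Y _ M]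
        refine mul_le_mul_of_nonneg_left (sum_le_sum fun y hy => ?_) B0
        by_cases e : E y = 0
        · rw [e, abs_zero, mul_zero, mul_zero]
        · exact mul_le_mul_of_nonneg_right (h2 y hy e) (abs_nonneg _)

/-- no primes in a progression that is not reduced -/
theorem ezero {y q K : ℕ} (q1 : 1 ≤ q) (h : q < y) (hc : ¬y.Coprime q) :
    ∑ i ∈ range K, lam (y + i * q) - K * (ph q * ind (y.Coprime q)) = 0 := by
  rw [ind_neg hc, mul_zero, mul_zero, sub_zero]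
  refine sum_eq_zero fun i _ => if_neg fun p => ?_
  have a : Nat.gcd y q ∣ y + i * q :=
    dvd_add (Nat.gcd_dvd_left _ _) ((Nat.gcd_dvd_right _ _).mul_left _)
  have b := Nat.gcd_le_right y q1
  rcases (Nat.dvd_prime p).1 a with e | e
  · exact hc e
  · omega

theorem tau_sum (n : ℕ) :
    ∑ x ∈ Ioc 0 n, (x.divisors.card : ℝ) ≤ n * (1 + Real.log n) := by
  have a := ArithmeticFunction.sum_Ioc_sigma0_eq_sum_div n
  simp only [ArithmeticFunction.sigma_zero_apply] at a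
  have b : ∑ x ∈ Ioc 0 n, (x.divisors.card : ℝ) = ∑ x ∈ Ioc 0 n, ((n / x : ℕ) : ℝ) := by
    exact_mod_cast a
  have c := harmonic_le_one_add_log n
  rw [harmonic_eq_sum_Icc] at c
  push_cast at c
  rw [b]
  refine le_trans ?_ (mul_le_mul_of_nonneg_left c (Nat.cast_nonneg n))
  rw [mul_sum]
  exact sum_le_sum fun x _ => Nat.cast_div_le

/-- few points have many divisors -/
theorem bad {U a : ℕ} {T : Finset ℕ} {R : ℝ} (ha : a ≤ U) (hT : T ⊆ Ioc U (2 * U)) :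
    ((T.filter fun u => ¬((u + a).divisors.card : ℝ) ≤ R).card : ℝ) * R ≤
      3 * U * (1 + Real.log (3 * U)) := by
  have t := tau_sum (3 * U)
  push_cast at t
  refine le_trans ?_ t
  rw [← nsmul_eq_mul]
  refine (card_nsmul_le_sum _ (fun u => ((u + a).divisors.card : ℝ)) R
    fun u hu => (not_le.1 (mem_filter.1 hu).2).le).trans ?_
  rw [← sum_image (s := T.filter fun u => ¬((u + a).divisors.card : ℝ) ≤ R) (g := fun u => u + a)
    (f := fun x => (x.divisors.card : ℝ)) fun x _ y _ e => Nat.add_right_cancel e]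
  refine sum_le_sum_of_subset_of_nonneg (fun x hx => ?_) fun _ _ _ => Nat.cast_nonneg _
  obtain ⟨u, hu, rfl⟩ := mem_image.1 hx
  have := mem_Ioc.1 (hT (mem_filter.1 hu).1)
  exact mem_Ioc.2 ⟨by omega, by omega⟩

/-- how often `m` divides the value -/
theorem cnt_dvd (geo : GEOStmt) (cbx : CBXStmt) {g k m x v : ℕ} (hg : 1 ≤ g) (m0 : 0 < m)
    (mk : m ≤ k) (hc : m.Coprime (x * v)) :
    cnt g k (fun w => (m : ℤ) ∣ Gv w x v) ≤ 2 * 3 ^ (2 * g + 1) * vol g k / m := by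
  classical
  have k1 : 1 ≤ k := by omega
  have mp : (0 : ℝ) < m := by exact_mod_cast m0
  have a := (cbx g (fun i => ce g k i.1 - (k : ℤ) ^ xp g i.1) 0 (fun i => 2 * k ^ xp g i.1)
    (fun _ => 1) m x v hg (fun _ => one_pos) m0 hc (fun _ _ => Nat.coprime_one_right m)
    ((bx g k).filter fun w => (m : ℤ) ∣ Gv w x v) fun w => by
      rw [mem_filter, mem_bx]
      refine ⟨fun h => ⟨fun i => ⟨(h.1 i).1, ?_⟩, fun i => by simp, h.2⟩,
        fun h => ⟨fun i => ⟨(h.1 i).1, ?_⟩, h.2.2⟩⟩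
      · have := (h.1 i).2
        push_cast
        linarith
      · have := (h.1 i).2
        push_cast at this
        linarith).1
  have b : ((bx g k).card : ℝ) = ∏ i : Fin (2 * g + 1), (2 * (k : ℝ) ^ xp g i.1 + 1) := by
    rw [bx, Fintype.card_piFinset]
    push_cast
    refine prod_congr rfl fun i _ => ?_
    rw [Int.card_Icc, show ce g k i.1 + (k : ℤ) ^ xp g i.1 + 1 - (ce g k i.1 - (k : ℤ) ^ xp g i.1) =
      ((2 * k ^ xp g i.1 + 1 : ℕ) : ℤ) by push_cast; ring, Int.toNat_natCast]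
    push_cast
    rfl
  have c := ((geo g hg).1 k k1).2
  rw [cnt_eq_card]
  refine le_trans (le_of_eq (by congr)) (a.trans ?_)
  let j : Fin (2 * g + 1) := ⟨2 * g - 1, by omega⟩
  have e : ∏ i : Fin (2 * g + 1), (if i = j then (2 / m : ℝ) else 1) = 2 / m := by simp
  calc _ ≤ ∏ i : Fin (2 * g + 1), (2 * (k : ℝ) ^ xp g i.1 + 1) * (if i = j then (2 / m : ℝ) else 1) := by
        refine prod_le_prod (fun i _ => by positivity) fun i _ => ?_
        by_cases h : i.1 + 1 = 2 * g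
        · have h' : i = j := Fin.ext (by simp only [j]; omega)
          rw [if_pos h, if_pos h']
          have p : (m : ℝ) ≤ (k : ℝ) ^ xp g i.1 := by
            have : k ≤ k ^ xp g i.1 := Nat.le_self_pow (by rw [xp, if_neg (by omega)]; omega) k
            exact_mod_cast mk.trans this
          push_cast
          rw [one_mul, div_add_one mp.ne', ← mul_div_assoc]
          exact div_le_div_of_nonneg_right (by linarith) mp.le
        · have h' : i ≠ j := fun e => h (by rw [e]; simp only [j]; omega)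
          rw [if_neg h, if_neg h']
          push_cast
          simp
    _ = (bx g k).card * (2 / m) := by rw [prod_mul_distrib, e, b]
    _ ≤ 3 ^ (2 * g + 1) * vol g k * (2 / m) := mul_le_mul_of_nonneg_right c (by positivity)
    _ = _ := by ring

theorem mem_win {P d y : ℕ} (d0 : 0 < d) (hd : d ≤ P) (h1 : 35 * P ≤ d * y) (h2 : d * y ≤ 65 * P) :
    y ∈ Ioc (34 * P / d + 34 * P / d / 100) (2 * (34 * P / d)) := by
  have a := Nat.mul_div_le (34 * P) d
  have b := Nat.lt_mul_div_succ (34 * P) d0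
  generalize 34 * P / d = X at a b
  have c := Nat.mul_div_le X 100
  generalize X / 100 = Z at c
  refine mem_Ioc.2 ⟨lt_of_mul_lt_mul_left (a := d) (?_ : d * (X + Z) < d * y) d0.le,
    Nat.le_of_mul_le_mul_left (?_ : d * y ≤ d * (2 * X)) d0⟩
  · have : d * (100 * Z) ≤ d * X := Nat.mul_le_mul_left d c
    nlinarith
  · nlinarith

/-- one base point -/
theorem one {g k m n x v q K X : ℕ} {σ : Vec g} {ω : Vec g → ℝ} {B R M S : ℝ}
    (hsh : ∀ (F : Vec g → ℝ) (B' : ℝ), 0 ≤ B' →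
      (∀ w ∈ bx g k, ∀ i : ℕ, i < K → |F (w + (i : ℤ) • σ)| ≤ B') →
      (∀ w, F w ≠ 0 → (m : ℤ) ∣ Gv w x v) →
      |∑ w ∈ bx g k, ∑ i ∈ range K, F (w + (i : ℤ) • σ) - K * ∑ w ∈ bx g k, F w| ≤ K * (B' * S))
    (hmul : ∀ y : ℤ, IsCoprime y (x : ℤ) → cnt g k (fun w => Gv w x v = y) ≤ M)
    (K1 : 1 ≤ K) (n0 : 0 < n) (mn : m ∣ n) (q1 : 1 ≤ q) (KX : K * q ≤ X) (xq : x ∣ q)
    (cop : n.Coprime x) (h0 : ∀ w, 0 ≤ ω w ∧ ω w ≤ B) (h1 : ∀ w, ω (w + σ) = ω w)
    (h2 : ∀ w, ω w ≠ 0 → (n : ℤ) ∣ Gv w x v)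
    (win : ∀ w ∈ bx g k, ω w ≠ 0 →
      co n w x v ∈ Ioc (X + X / 100) (2 * X) ∧ Gv w x v = n * co n w x v)
    (shf : ∀ w, ∀ i : ℕ, Gv (w + (i : ℤ) • σ) x v = Gv w x v + n * (i * q : ℕ))
    (R0 : 0 ≤ R) (term : ∀ y : ℕ, 0 < y → y ≤ 3 * X → ∀ P : Prop, |lam y - ph q * ind P| ≤ R) :
    |∑ w ∈ bx g k, ω w * (lam (co n w x v) - ph q * ind ((co n w x v).Coprime q))| ≤
      B * R * S + B * (M * ((∑ y ∈ Ioc (X + X / 100) (2 * X),
        |∑ i ∈ range K, lam (y + i * q) - K * (ph q * ind (y.Coprime q))|) / K)) ∧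
    |∑ w ∈ bx g k, ω w * (lam (co n w x v) - ph q * ind ((co n w x v).Coprime q))| ≤
      B * R * cnt g k (fun w => (m : ℤ) ∣ Gv w x v) := by
  have B0 : 0 ≤ B := (h0 0).1.trans (h0 0).2
  have K0 : (0 : ℝ) < K := by exact_mod_cast K1
  have qX : q ≤ X := le_trans (Nat.le_mul_of_pos_left q K1) KX
  have dv : ∀ w, ω w ≠ 0 → (m : ℤ) ∣ Gv w x v := fun w e =>
    (Int.natCast_dvd_natCast.2 mn).trans (h2 w e)
  have shift : ∀ w ∈ bx g k, ω w ≠ 0 → ∀ i : ℕ,
      co n (w + (i : ℤ) • σ) x v = co n w x v + i * q := fun w hw e i =>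
    co_add n0 (h2 w e) (by rw [(win w hw e).2]; positivity) (shf w i)
  obtain ⟨F, hF⟩ : ∃ F : Vec g → ℝ, F = fun w => ω w * (lam (co n w x v) -
    ph q * ind ((co n w x v).Coprime q)) := ⟨_, rfl⟩
  have Fs : ∀ w ∈ bx g k, ∀ i : ℕ, F (w + (i : ℤ) • σ) =
      ω w * (lam (co n w x v + i * q) - ph q * ind ((co n w x v).Coprime q)) := fun w hw i => by
    rw [hF]
    beta_reduce
    rw [om_inv h1]
    by_cases e : ω w = 0
    · rw [e, zero_mul, zero_mul]
    · rw [shift w hw e, ind_congr (Nat.coprime_add_mul_right_left _ _ _)]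
  have bd : ∀ w ∈ bx g k, ∀ i : ℕ, i < K → |F (w + (i : ℤ) • σ)| ≤ B * R := fun w hw i hi => by
    rw [Fs w hw, abs_mul, abs_of_nonneg (h0 w).1]
    by_cases e : ω w = 0
    · rw [e, zero_mul]; positivity
    have a := mem_Ioc.1 (win w hw e).1
    have b : i * q ≤ K * q := by gcongr
    exact mul_le_mul (h0 w).2 (term _ (by omega) (by omega) _) (abs_nonneg _) B0
  have Fd : ∀ w, F w ≠ 0 → (m : ℤ) ∣ Gv w x v := fun w e => dv w fun e' => e (by
    rw [hF]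
    beta_reduce
    rw [e', zero_mul])
  have goal : ∑ w ∈ bx g k, ω w * (lam (co n w x v) - ph q * ind ((co n w x v).Coprime q)) =
      ∑ w ∈ bx g k, F w := by rw [hF]
  rw [goal]
  constructor
  · have sh1 := hsh F (B * R) (by positivity) bd Fd
    have fb := fib (E := fun y => ∑ i ∈ range K, lam (y + i * q) - K * (ph q * ind (y.Coprime q)))
      (M := M) h0 win fun y hy e => hmul _ (by
        have c : y.Coprime q := by_contra fun c => e (ezero q1 (by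
          have := (mem_Ioc.1 hy).1
          omega) c)
        have := Nat.isCoprime_iff_coprime.2 (Nat.Coprime.mul_left cop (c.coprime_dvd_right xq))
        exact_mod_cast this)
    have eq : ∑ w ∈ bx g k, ∑ i ∈ range K, F (w + (i : ℤ) • σ) = ∑ w ∈ bx g k, ω w *
        (∑ i ∈ range K, lam (co n w x v + i * q) - K * (ph q * ind ((co n w x v).Coprime q))) :=
      sum_congr rfl fun w hw => by
        rw [sum_congr rfl fun i _ => Fs w hw i, ← mul_sum, sum_sub_distrib, sum_const, card_range,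
          nsmul_eq_mul]
    rw [← eq] at fb
    refine le_of_mul_le_mul_left ?_ K0
    generalize (∑ y ∈ Ioc (X + X / 100) (2 * X),
        |∑ i ∈ range K, lam (y + i * q) - K * (ph q * ind (y.Coprime q))|) = Z at fb ⊢
    rw [show K * (B * R * S + B * (M * (Z / K))) = K * (B * R * S) + B * (M * Z) by
      field_simp]
    have a := abs_le.1 sh1
    have b := abs_le.1 fb
    rw [← abs_of_pos K0, ← abs_mul, abs_of_pos K0]
    exact abs_le.2 ⟨by linarith [a.1, a.2, b.1, b.2], by linarith [a.1, a.2, b.1, b.2]⟩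
  · refine (abs_sum_le_sum_abs _ _).trans ?_
    rw [cnt, mul_sum]
    refine sum_le_sum fun w hw => ?_
    by_cases e : F w = 0
    · rw [e, abs_zero]
      exact mul_nonneg (by positivity) (ind_nonneg _)
    · rw [ind_pos (Fd w e), mul_one]
      simpa using bd w hw 0 K1

/-- the length of the progressions -/
theorem len {k e E D U : ℕ} {L X : ℝ} (hL : 2 ≤ L) (he : 2 ≤ e) (hE : 4 ≤ E)
    (h : 54 ^ 45 * L ^ (25 * E + 105) ≤ k) (D1 : 1 ≤ D) (Dl : (D : ℝ) ≤ L ^ 4) (lo : k ≤ U ^ 3)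
    (hi : U ≤ k) (X0 : 0 ≤ X) (hX : X ≤ L * (k : ℝ) ^ (e + 4)) :
    ∃ K : ℕ, 27 ≤ K ∧ (K : ℝ) * L ^ (E + 1) ≤ (k : ℝ) ^ e ∧
      X ^ (1 / 4 : ℝ) ≤ (K * (2 * D * U ^ 3) : ℕ) ∧ K * (2 * D * U ^ 3) ≤ k ^ (e + 3) ∧
      (54 * D * U ^ 3) ^ 4 ≤ (K * (2 * D * U ^ 3)) ^ 2 * U ^ 3 := by
  have L1 : 1 ≤ L := by linarith
  have pk : ∀ j, j ≤ 25 * E + 105 → 54 ^ 45 * L ^ j ≤ k := fun j hj =>
    le_trans (mul_le_mul_of_nonneg_left (pow_le_pow_right₀ L1 hj) (by positivity)) h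
  have k1 : (1 : ℝ) ≤ k := by
    have := pk 0 (by omega)
    norm_num at this ⊢
    omega
  have ke : (k : ℝ) ≤ (k : ℝ) ^ e := le_self_pow₀ k1 (by omega)
  have pE : 0 < L ^ (E + 1) := by positivity
  have b : (27 : ℝ) ≤ (k : ℝ) ^ e / L ^ (E + 1) := by
    rw [le_div_iff₀ pE]
    have := pk (E + 1) (by omega)
    have a : (27 : ℝ) * L ^ (E + 1) ≤ 54 ^ 45 * L ^ (E + 1) := by gcongr; norm_num
    linarith
  have K1 : 27 ≤ ⌊(k : ℝ) ^ e / L ^ (E + 1)⌋₊ := Nat.le_floor (by simpa using b)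
  have K2 := (le_div_iff₀ pE).1 (Nat.floor_le (a := (k : ℝ) ^ e / L ^ (E + 1)) (by positivity))
  have c := Nat.lt_floor_add_one ((k : ℝ) ^ e / L ^ (E + 1))
  generalize ⌊(k : ℝ) ^ e / L ^ (E + 1)⌋₊ = K at K1 K2 c
  have K1' : (27 : ℝ) ≤ K := by exact_mod_cast K1
  have d : (k : ℝ) ^ e ≤ 2 * K * L ^ (E + 1) := (div_le_iff₀ pE).1 (by linarith)
  have D1' : (1 : ℝ) ≤ D := by exact_mod_cast D1
  have lo' : (k : ℝ) ≤ (U : ℝ) ^ 3 := by exact_mod_cast lo
  refine ⟨K, K1, K2, ?_, ?_, ?_⟩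
  · have f : X ≤ ((K * (2 * D * U ^ 3) : ℕ) : ℝ) ^ 4 := by
      refine hX.trans (le_of_mul_le_mul_right ?_ (show 0 < (L ^ (E + 1)) ^ 4 by positivity))
      have a1 : L ^ (4 * E + 5) ≤ k := by
        have := pk (4 * E + 5) (by omega)
        have a : 1 * L ^ (4 * E + 5) ≤ 54 ^ 45 * L ^ (4 * E + 5) := by gcongr; norm_num
        linarith
      have a2 : (k : ℝ) ≤ ((k : ℝ) ^ e) ^ 3 := ke.trans (le_self_pow₀ (k1.trans ke) (by omega))
      push_cast
      calc L * (k : ℝ) ^ (e + 4) * (L ^ (E + 1)) ^ 4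
          = (k : ℝ) ^ e * L ^ (4 * E + 5) * (1 * (k : ℝ)) ^ 4 := by ring
        _ ≤ (k : ℝ) ^ e * ((k : ℝ) ^ e) ^ 3 * (D * (U : ℝ) ^ 3) ^ 4 := by
            gcongr
            exact a1.trans a2
        _ = ((k : ℝ) ^ e) ^ 4 * (D * (U : ℝ) ^ 3) ^ 4 := by ring
        _ ≤ (2 * K * L ^ (E + 1)) ^ 4 * (D * (U : ℝ) ^ 3) ^ 4 := by gcongr
        _ = _ := by ring
    refine (Real.rpow_le_rpow X0 f (by norm_num)).trans_eq ?_
    rw [show (1 / 4 : ℝ) = ((4 : ℕ) : ℝ)⁻¹ by norm_num,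
      Real.pow_rpow_inv_natCast (by positivity) (by norm_num)]
  · have a1 : 2 * (D : ℝ) ≤ L ^ (E + 1) := by
      calc 2 * (D : ℝ) ≤ L * L ^ 4 := by gcongr
        _ = L ^ 5 := by ring
        _ ≤ _ := pow_le_pow_right₀ L1 (by omega)
    have a2 : K * (2 * D) ≤ k ^ e := by
      have : (K : ℝ) * (2 * D) ≤ (k : ℝ) ^ e := le_trans (by gcongr) K2
      exact_mod_cast this
    calc K * (2 * D * U ^ 3) = K * (2 * D) * U ^ 3 := by ring
      _ ≤ k ^ e * k ^ 3 := by gcongr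
      _ = _ := by ring
  · have hi' : (U : ℝ) ≤ k := by exact_mod_cast hi
    have a2 : 54 ^ 4 * (D : ℝ) ^ 2 * (U : ℝ) ^ 3 ≤ (2 * K : ℝ) ^ 2 := by
      refine le_of_mul_le_mul_right ?_ (show 0 < (L ^ (E + 1)) ^ 2 by positivity)
      calc 54 ^ 4 * (D : ℝ) ^ 2 * (U : ℝ) ^ 3 * (L ^ (E + 1)) ^ 2
          ≤ 54 ^ 45 * (L ^ 4) ^ 2 * (k : ℝ) ^ 3 * (L ^ (E + 1)) ^ 2 := by gcongr <;> norm_num
        _ = 54 ^ 45 * L ^ (2 * E + 10) * (k : ℝ) ^ 3 := by ring
        _ ≤ k * (k : ℝ) ^ 3 := by gcongr; exact pk _ (by omega)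
        _ = ((k : ℝ) ^ 2) ^ 2 := by ring
        _ ≤ ((k : ℝ) ^ e) ^ 2 := by gcongr
        _ ≤ (2 * K * L ^ (E + 1)) ^ 2 := by gcongr
        _ = _ := by ring
    have a3 : 54 ^ 4 * D ^ 2 * U ^ 3 ≤ (2 * K) ^ 2 := by exact_mod_cast a2
    calc (54 * D * U ^ 3) ^ 4 = 54 ^ 4 * D ^ 2 * U ^ 3 * (D ^ 2 * U ^ 9) := by ring
      _ ≤ (2 * K) ^ 2 * (D ^ 2 * U ^ 9) := by gcongr
      _ = _ := by ring

theorem sh_le {L : ℝ} {g N x v k K e E : ℕ} {t : ℤ} (he : e + 2 = 4 * g) (v1 : 1 ≤ v)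
    (L0 : 0 < L) (hN : 9 * (N : ℝ) ^ 2 * (v : ℝ) ^ 2 ≤ L) (hx : x ≤ 3 * k)
    (hK : (K : ℝ) * L ^ (E + 1) ≤ (k : ℝ) ^ e) (i : Fin (2 * g + 1)) :
    (K : ℝ) * |(sh g ((N : ℤ) ^ 2 * Int.sign t) x v i : ℝ)| ≤ 1 / L ^ E * (k : ℝ) ^ xp g i.1 := by
  have s1 : |((Int.sign t : ℤ) : ℝ)| ≤ 1 := by
    have : |Int.sign t| ≤ 1 := by rcases Int.sign_trichotomy t with h | h | h <;> simp [h]
    exact_mod_cast this
  have v1' : (1 : ℝ) ≤ (v : ℝ) ^ 2 := one_le_pow₀ (by exact_mod_cast v1)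
  have hx' : (x : ℝ) ≤ 3 * k := by exact_mod_cast hx
  have N0 := sq_nonneg (N : ℝ)
  rw [one_div, inv_mul_eq_div, le_div_iff₀ (by positivity), sh]
  split_ifs with e1 e2
  · rw [xp, if_neg (by omega), show 2 * (i.1 + 1) = e by omega]
    push_cast
    rw [abs_mul, abs_mul, abs_sq, abs_sq]
    refine le_trans ?_ hK
    calc (K : ℝ) * ((N : ℝ) ^ 2 * |((Int.sign t : ℤ) : ℝ)| * (v : ℝ) ^ 2) * L ^ E
        ≤ K * ((N : ℝ) ^ 2 * 9 * (v : ℝ) ^ 2) * L ^ E := by gcongr; linarith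
      _ ≤ K * L * L ^ E := by gcongr; linarith
      _ = _ := by ring
  · rw [xp, if_neg (by omega), show 2 * (i.1 + 1) = e + 2 by omega]
    push_cast
    rw [abs_mul, abs_mul, abs_sq, abs_sq]
    calc (K : ℝ) * ((N : ℝ) ^ 2 * |((Int.sign t : ℤ) : ℝ)| * (x : ℝ) ^ 2) * L ^ E
        ≤ K * ((N : ℝ) ^ 2 * (v : ℝ) ^ 2 * (3 * k) ^ 2) * L ^ E := by gcongr; linarith
      _ = K * (9 * (N : ℝ) ^ 2 * (v : ℝ) ^ 2) * L ^ E * (k : ℝ) ^ 2 := by ring
      _ ≤ K * L * L ^ E * (k : ℝ) ^ 2 := by gcongr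
      _ = K * L ^ (E + 1) * (k : ℝ) ^ 2 := by ring
      _ ≤ (k : ℝ) ^ e * (k : ℝ) ^ 2 := by gcongr
      _ = _ := by ring
  · rw [Int.cast_zero, abs_zero, mul_zero, zero_mul]; positivity

theorem term_le (pha : PHAStmt) {k j q y : ℕ} (q1 : 1 ≤ q) (y1 : 0 < y) (hq : q ≤ k ^ j)
    (hy : y ≤ k ^ j) (hL : 2 * j + 2 ≤ Real.log k) (P : Prop) :
    |lam y - ph q * ind P| ≤ Real.log k ^ 2 := by
  have key : ∀ z : ℕ, 0 < z → z ≤ k ^ j → Real.log z ≤ j * Real.log k := fun z a b => by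
    rw [← Real.log_pow]
    exact Real.log_le_log (by exact_mod_cast a) (by exact_mod_cast b)
  have a := lam_nonneg y
  have b := (lam_le y).trans (key y y1 hy)
  obtain ⟨p1, p2⟩ := pha.1 q q1
  have c := mul_nonneg (zero_le_one.trans p1) (ind_nonneg P)
  have d : ph q * ind P ≤ ph q := mul_le_of_le_one_right (zero_le_one.trans p1) (ind_le_one P)
  have e := key q q1 hq
  have j0 : (0 : ℝ) ≤ j := Nat.cast_nonneg j
  have f : (2 * j + 2) * Real.log k ≤ Real.log k ^ 2 := by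
    rw [sq]; exact mul_le_mul_of_nonneg_right hL (by linarith)
  have : 0 ≤ j * Real.log k := mul_nonneg j0 (by linarith)
  exact abs_le.2 ⟨by nlinarith, by nlinarith⟩

theorem ms_le {k U m s : ℕ} {L : ℝ} (lo : k ≤ U ^ 3) (hm : m ^ 12 ≤ k) (k1 : 1 ≤ k)
    (hs : (s : ℝ) ≤ L ^ 3) (hL : L ^ 36 ≤ k) : m * s ≤ U := by
  have a : s ^ 12 ≤ k := by
    have : (s : ℝ) ^ 12 ≤ (L ^ 3) ^ 12 := by gcongr
    rw [← pow_mul] at this
    exact_mod_cast this.trans hL
  refine le_of_pow_le_pow_left₀ (n := 12) (by norm_num) (Nat.zero_le _) ?_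
  calc (m * s) ^ 12 = m ^ 12 * s ^ 12 * 1 * 1 := by ring
    _ ≤ k * k * k * k := by gcongr
    _ = k ^ 4 := by ring
    _ ≤ (U ^ 3) ^ 4 := by gcongr
    _ = U ^ 12 := by ring

end MomA

open MomA in
theorem mom_n : GEOStmt → PHAStmt → APLStmt → CBXStmt → SHStmt → SIZStmt → MULStmt → MOMStmt := by
  intro geo pha apl cbx shf siz mul g v N d A hg pv hN hd
  classical
  obtain ⟨c, c0, hc⟩ := shf g hg
  obtain ⟨c', c0', hc'⟩ := mul g hg
  obtain ⟨X0, hX0⟩ := eventually_atTop.1 (apl (2 * A + 6) 4)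
  obtain ⟨e, he⟩ : ∃ e, e + 2 = 4 * g := ⟨4 * g - 2, by omega⟩
  filter_upwards [siz g v hg pv, eventually_ge_atTop X0, eventually_ge_atTop (N ^ 2),
    ev_le_log (N ^ 2 * v ^ (4 * g)), ev_le_log (9 * N ^ 2 * v ^ 2),
    ev_le_log (34 * v ^ (4 * g + 2)), ev_le_log (2 * (4 * g + 3 : ℕ) + 2), ev_le_log (3 * c),
    ev_le_log (3 * c'), ev_le_log (36 * 3 ^ (2 * g + 1)),
    ev_log_le (54 ^ 45) (25 * (A + 4) + 105)] with k sz k0 kN l1 l2 l3 l4 l5 l6 l7 l8
  intro U m s s' ω B T ur m0 mk ne hs hs' hT mv cop h0 h1 h2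
  have d0 : 0 < d := Nat.pos_of_dvd_of_pos hd hN
  have v1 : 1 ≤ v := le_trans (by omega) pv.ge
  have B0 : 0 ≤ B := (h0 0 0).1.trans (h0 0 0).2
  have k1 : 1 ≤ k := le_trans (Nat.succ_le_of_lt (by positivity)) kN
  have L3 : 3 ≤ Real.log k := by
    have : (0 : ℝ) ≤ g := by positivity
    push_cast at l4
    linarith
  have tl := fun q y a b c d P => term_le pha (k := k) (j := 4 * g + 3) (q := q) (y := y) a b c d l4 P
  have lU : ∀ U : ℕ, 1 ≤ U → U ≤ k → 1 + Real.log (3 * U) ≤ 2 * Real.log k := fun U a b => by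
    have a' : (0 : ℝ) < U := by exact_mod_cast a
    have e1 : Real.log U ≤ Real.log k := Real.log_le_log a' (by exact_mod_cast b)
    have e2 := Real.log_le_sub_one_of_pos (show (0 : ℝ) < 3 by norm_num)
    rw [Real.log_mul (by norm_num) a'.ne']
    linarith
  have xl : ∀ X : ℕ, k ≤ X → Real.log k ≤ Real.log X := fun X h =>
    Real.log_le_log (by exact_mod_cast k1) (by exact_mod_cast h)
  generalize Real.log k = L at *
  have L1 : 1 ≤ L := by linarith
  have L0 : 0 < L := by linarith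
  have kp : (0 : ℝ) < k := by exact_mod_cast k1
  have mp : (0 : ℝ) < m := by exact_mod_cast m0
  have pk : ∀ j, j ≤ 25 * (A + 4) + 105 → 3 * L ^ j ≤ k := fun j hj => by
    refine le_trans ?_ l8
    gcongr
    norm_num
  have pk' : ∀ j, j ≤ 25 * (A + 4) + 105 → L ^ j ≤ k := fun j hj => by
    have := pk j hj
    have : 0 < L ^ j := by positivity
    linarith
  have U1 : 1 ≤ U := Nat.pos_of_ne_zero fun h => by
    have := ur.lo
    rw [h] at this
    omega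
  have m1 := ms_le ur.lo mk k1 hs (pk' 36 (by omega))
  have m2 := ms_le ur.lo mk k1 hs' (pk' 36 (by omega))
  have mk' : m ≤ k := (Nat.le_self_pow (by norm_num) m).trans mk
  have mdk : m * d ≤ k := by
    refine le_of_pow_le_pow_left₀ (n := 2) (by norm_num) (Nat.zero_le _) ?_
    have a : m ^ 2 ≤ k := (Nat.pow_le_pow_right m0 (by norm_num)).trans mk
    have b : d ^ 2 ≤ k := (Nat.pow_le_pow_left (Nat.le_of_dvd hN hd) 2).trans kN
    calc (m * d) ^ 2 = m ^ 2 * d ^ 2 := by ring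
      _ ≤ k * k := by gcongr
      _ = k ^ 2 := by ring
  have md0 : 0 < m * d := by positivity
  obtain ⟨D, hD⟩ : ∃ D, D = N ^ 2 / d * v ^ (4 * g) * ((s : ℤ) - s').natAbs := ⟨_, rfl⟩
  have D1 : 1 ≤ D := by
    have a : 0 < N ^ 2 / d := Nat.div_pos
      ((Nat.le_of_dvd hN hd).trans (Nat.le_self_pow two_ne_zero N)) d0
    have b : 0 < ((s : ℤ) - s').natAbs := by omega
    rw [hD]
    exact Nat.succ_le_of_lt (by positivity)
  have Dl : (D : ℝ) ≤ L ^ 4 := by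
    have a : ((N ^ 2 / d : ℕ) : ℝ) ≤ (N : ℝ) ^ 2 := by exact_mod_cast Nat.div_le_self _ _
    have b : ((((s : ℤ) - s').natAbs : ℕ) : ℝ) ≤ L ^ 3 := by
      rcases (show ((s : ℤ) - s').natAbs ≤ s ∨ ((s : ℤ) - s').natAbs ≤ s' by omega) with h | h
      · exact le_trans (by exact_mod_cast h) hs
      · exact le_trans (by exact_mod_cast h) hs'
    rw [hD, Nat.cast_mul, Nat.cast_mul, Nat.cast_pow]
    calc _ ≤ (N : ℝ) ^ 2 * (v : ℝ) ^ (4 * g) * L ^ 3 := by gcongr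
      _ ≤ L * L ^ 3 := by gcongr
      _ = _ := by ring
  have qe : ∀ u, ql g v N d m s s' u = D * ((u + m * s) ^ 2 * (2 * u + m * (s + s'))) :=
    fun u => by rw [hD, ql]
  obtain ⟨P, hP⟩ : ∃ P, P = (k * v) ^ (4 * g + 2) := ⟨_, rfl⟩
  have P1 : k ^ (4 * g + 2) ≤ P := hP ▸ Nat.pow_le_pow_left (Nat.le_mul_of_pos_right k v1) _
  obtain ⟨X, hX⟩ : ∃ X, X = 34 * P / (m * d) := ⟨_, rfl⟩
  have x1 : (X : ℝ) * m ≤ L * (k : ℝ) ^ (4 * g + 2) := by
    have a : X * m ≤ 34 * P := by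
      have := Nat.div_mul_le_self (34 * P) (m * d)
      rw [← hX] at this
      exact le_trans (Nat.mul_le_mul_left X (Nat.le_mul_of_pos_right m d0)) this
    calc (X : ℝ) * m ≤ 34 * ((k : ℝ) * v) ^ (4 * g + 2) := by rw [hP] at a; exact_mod_cast a
      _ = 34 * (v : ℝ) ^ (4 * g + 2) * (k : ℝ) ^ (4 * g + 2) := by ring
      _ ≤ _ := by gcongr
  have x5 : (X : ℝ) ≤ L * (k : ℝ) ^ (4 * g + 2) :=
    le_trans (le_mul_of_one_le_right (by positivity) (by exact_mod_cast m0)) x1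
  have x2 : k ^ (4 * g + 1) ≤ X := by
    rw [hX, Nat.le_div_iff_mul_le md0]
    calc k ^ (4 * g + 1) * (m * d) ≤ k ^ (4 * g + 1) * k := by gcongr
      _ = k ^ (4 * g + 2) := by ring
      _ ≤ 34 * P := by omega
  have x3 : k ≤ X := (Nat.le_self_pow (by omega) k).trans x2
  have x4 := xl X x3
  have x6 : 3 * X ≤ k ^ (4 * g + 3) := by
    have a := pk 1 (by omega)
    have : 3 * (X : ℝ) ≤ (k : ℝ) ^ (4 * g + 3) := by
      calc 3 * (X : ℝ) ≤ 3 * (L * (k : ℝ) ^ (4 * g + 2)) := by gcongr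
        _ = 3 * L ^ 1 * (k : ℝ) ^ (4 * g + 2) := by ring
        _ ≤ k * (k : ℝ) ^ (4 * g + 2) := by gcongr
        _ = _ := by ring
    exact_mod_cast this
  obtain ⟨K, K1, K2, K3, K4, K5⟩ := len (k := k) (e := e) (E := A + 4) (D := D) (U := U)
    (X := X) (by linarith) (by omega) (by omega) l8 D1 Dl ur.lo ur.hi
    (by positivity)
    (by rwa [show e + 4 = 4 * g + 2 by omega])
  obtain ⟨h, hh⟩ : ∃ h, h = K * (2 * D * U ^ 3) := ⟨_, rfl⟩
  rw [← hh] at K3 K4 K5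
  have hX' : h ≤ X := by
    rw [show e + 3 = 4 * g + 1 by omega] at K4
    exact K4.trans x2
  have ap := hX0 X (k0.trans x3) U h D (m * s) (m * (s + s')) (ql g v N d m s s') T
    ⟨U1, D1, Dl.trans (by gcongr), m1, by rw [mul_add]; omega, hT, fun u _ => qe u, K3, hX', K5⟩
  have v0 : 0 < vol g k := by rw [vol]; positivity
  have key := fun u (hu : u ∈ T) => by
    have hu' := mem_Ioc.1 (hT hu)
    have q1 : 2 * D * U ^ 3 ≤ ql g v N d m s s' u := by
      rw [qe]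
      calc 2 * D * U ^ 3 = D * (U ^ 2 * (2 * U)) := by ring
        _ ≤ _ := by gcongr <;> omega
    have q2 : ql g v N d m s s' u ≤ h := by
      rw [qe, hh]
      calc _ ≤ D * ((3 * U) ^ 2 * (6 * U)) := by
            gcongr
            · omega
            · rw [mul_add]; omega
        _ = 27 * (2 * D * U ^ 3) := by ring
        _ ≤ _ := by gcongr
    have q0 : 1 ≤ ql g v N d m s s' u := le_trans (Nat.succ_le_of_lt (by positivity)) q1
    have q3 : h / ql g v N d m s s' u ≤ K := Nat.div_le_of_le_mul (by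
      rw [hh, mul_comm]
      gcongr)
    have c1 : m.Coprime (u + m * s) := (Nat.coprime_add_mul_left_right _ _ _).2 (cop u hu).1.symm
    have c2 := Nat.coprime_mul_iff_right.1 (cop u hu).2
    have c3 : (u + m * s).Coprime (2 * v) :=
      Nat.Coprime.mul_right (c2.1.coprime_dvd_right (Dvd.dvd.trans (by norm_num) pv.dv)) c2.1
    have o := one (g := g) (k := k) (m := m) (n := m * d) (x := u + m * s) (v := v)
      (q := ql g v N d m s s' u) (K := h / ql g v N d m s s' u) (X := X)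
      (σ := sh g ((N : ℤ) ^ 2 * Int.sign ((s : ℤ) - s')) (u + m * s' : ℕ) v) (ω := ω u) (B := B)
      (R := L ^ 2) (M := c' * (u + m * s).divisors.card * vol g k / (k : ℝ) ^ (4 * g + 2))
      (S := c * (1 / L ^ (A + 4)) * vol g k / m)
      (fun F B' b0 => hc k _ m (u + m * s) v _ F B' _ k1 m0 (c1.mul_right mv) b0
        (by
          rw [one_div, inv_mul_eq_div, le_div_iff₀ (by positivity), sq]
          have := pk' (A + 4) (by omega)
          gcongr)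
        ((div_le_one (by positivity)).2 (one_le_pow₀ L1))
        (sh_le he v1 L0 l2 (by have := ur.hi; omega) (le_trans (by gcongr) K2)))
      (fun y hy => (le_div_iff₀ (by positivity)).2 (hc' k _ v y k1 (by omega) v1 c3 hy))
      (Nat.div_pos q2 q0) md0 (dvd_mul_right m d) q0 ((Nat.div_mul_le_self _ _).trans hX')
      (by rw [qe]; exact ((dvd_pow_self _ two_ne_zero).mul_right _).mul_left _)
      (Nat.Coprime.mul_left c1 c2.2.symm) (h0 u) (h1 u hu) (h2 u hu)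
      (fun w hw e => by
        obtain ⟨a, b, -⟩ := sz w hw (u + m * s) (by have := ur.hi; omega)
        have f := co_eq (h2 u hu w e) (le_trans (by positivity) a)
        refine ⟨hX ▸ mem_win md0 (mdk.trans ((Nat.le_self_pow (by omega) k).trans P1)) ?_ ?_, f⟩
        · rw [hP]; rw [f] at a; exact_mod_cast a
        · rw [hP]; rw [f] at b; exact_mod_cast b)
      (fun w i => by
        rw [smul_sh, (geo g hg).2.1, Nat.cast_mul i, mul_left_comm _ (i : ℤ), ql_mul hN hd]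
        ring)
      (by positivity) fun y a b P => tl _ y q0 a (by omega) (by omega) P
    exact And.intro o.1 (o.2.trans (mul_le_mul_of_nonneg_left
      (cnt_dvd geo cbx hg m0 mk' (c1.mul_right mv)) (by positivity)))
  have cT : (T.card : ℝ) ≤ U := by
    have := card_le_card hT
    rw [Nat.card_Ioc] at this
    exact_mod_cast (show T.card ≤ U by omega)
  have bd := (bad (R := L ^ (A + 4)) m1 hT).trans
    (mul_le_mul_of_nonneg_left (lU U U1 ur.hi) (by positivity))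
  rw [← sum_filter_add_sum_filter_not T
    fun u => ((u + m * s).divisors.card : ℝ) ≤ L ^ (A + 4)]
  have t1 : B * L ^ 2 * (c * (1 / L ^ (A + 4)) * vol g k / m) * U ≤
      B * vol g k * U / (m * L ^ A) / 3 := by
    rw [show B * L ^ 2 * (c * (1 / L ^ (A + 4)) * vol g k / m) * U =
      B * vol g k * U / (m * L ^ A) / 3 * (3 * c / L ^ 2) by field_simp; ring]
    exact mul_le_of_le_one_right (by positivity)
      ((div_le_one (by positivity)).2 (l5.trans (le_self_pow₀ L1 two_ne_zero)))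
  have t2 : B * (c' * L ^ (A + 4) * vol g k / (k : ℝ) ^ (4 * g + 2)) *
      ((U : ℝ) * X / Real.log X ^ (2 * A + 6)) ≤ B * vol g k * U / (m * L ^ A) / 3 := by
    have a : (X : ℝ) ≤ L * (k : ℝ) ^ (4 * g + 2) / m := (le_div_iff₀ mp).2 x1
    calc _ ≤ B * (c' * L ^ (A + 4) * vol g k / (k : ℝ) ^ (4 * g + 2)) *
          ((U : ℝ) * (L * (k : ℝ) ^ (4 * g + 2) / m) / L ^ (2 * A + 6)) := by gcongr
      _ = B * vol g k * U / (m * L ^ A) / 3 * (3 * c' / L) := by field_simp; ring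
      _ ≤ _ := mul_le_of_le_one_right (by positivity) ((div_le_one L0).2 l6)
  have t3 : B * L ^ 2 * (2 * 3 ^ (2 * g + 1) * vol g k / m) * (3 * U * (2 * L) / L ^ (A + 4)) ≤
      B * vol g k * U / (m * L ^ A) / 3 := by
    rw [show B * L ^ 2 * (2 * 3 ^ (2 * g + 1) * vol g k / m) * (3 * U * (2 * L) / L ^ (A + 4)) =
      B * vol g k * U / (m * L ^ A) / 3 * (36 * 3 ^ (2 * g + 1) / L) by field_simp; ring]
    exact mul_le_of_le_one_right (by positivity) ((div_le_one L0).2 l7)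
  refine le_trans (add_le_add (le_trans ?_ (add_le_add t1 t2)) (le_trans ?_ t3))
    (le_of_eq (by ring))
  · refine le_trans ?_ (add_le_add (mul_le_mul_of_nonneg_left cT (by positivity))
      (mul_le_mul_of_nonneg_left ap (by positivity)))
    rw [mul_comm _ (T.card : ℝ), ← nsmul_eq_mul, ← sum_const, mul_sum, ← sum_add_distrib]
    refine le_trans (sum_le_sum fun u hu => ?_) (sum_le_sum_of_subset_of_nonneg
      (filter_subset _ T) fun u _ _ => by positivity)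
    obtain ⟨hu, τ⟩ := mem_filter.1 hu
    refine (key u hu).1.trans (add_le_add le_rfl ?_)
    rw [mul_assoc B]
    gcongr
  · refine (sum_le_card_nsmul _ _ _ fun u hu => (key u (mem_filter.1 hu).1).2).trans ?_
    rw [nsmul_eq_mul, mul_comm]
    exact mul_le_mul_of_nonneg_left ((le_div_iff₀ (by positivity)).2 bd) (by positivity)

end Pool.Agent.MP_a43263_nt.N2

end

end PkN2Mom

section PkN2Mset

/-! The smooth parts have a large harmonic sum. -/

set_option autoImplicit false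

noncomputable section

namespace Pool.Agent.MP_a43263_nt.N2

open Finset Filter

namespace MsetA

open Classical in
/-- squarefree numbers without small prime factors -/
def A (z Y : ℕ) : Finset ℕ :=
  (Icc 1 Y).filter fun m => Squarefree m ∧ ∀ p : ℕ, p.Prime → p ∣ m → z < p

lemma mem_A {z Y m : ℕ} :
    m ∈ A z Y ↔ (1 ≤ m ∧ m ≤ Y) ∧ Squarefree m ∧ ∀ p : ℕ, p.Prime → p ∣ m → z < p := by
  simp [A]

lemma inv_sq (Y : ℕ) : ∑ b ∈ Icc 1 Y, ((b : ℝ) ^ 2)⁻¹ ≤ 2 := by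
  simpa using (sum_Ioo_inv_sq_le (α := ℝ) 0 (Y + 1)).trans_eq' (sum_congr (by ext; simp; omega)
    fun _ _ => rfl)

lemma harm (z Y : ℕ) : Real.log Y ≤ 2 * (z.factorial.divisors.card * ∑ m ∈ A z Y, 1 / (m : ℝ)) := by
  have h1 : Real.log Y ≤ ∑ n ∈ Icc 1 Y, (n : ℝ)⁻¹ := by
    have := log_add_one_le_harmonic Y
    rw [harmonic_eq_sum_Icc] at this
    push_cast at this
    refine le_trans ?_ this
    rcases Nat.eq_zero_or_pos Y with rfl | h
    · simp
    · exact Real.log_le_log (by positivity) (by linarith)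
  have h2 : Icc 1 Y ⊆ (Icc 1 Y ×ˢ z.factorial.divisors ×ˢ A z Y).image
      fun x => x.1 ^ 2 * (x.2.1 * x.2.2) := fun n hn => by
    obtain ⟨a1, a2⟩ := mem_Icc.1 hn
    obtain ⟨a, b, a3, a4, a5, a6⟩ := Nat.sq_mul_squarefree_of_pos a1
    obtain ⟨m, hm⟩ := Nat.gcd_dvd_left a z.factorial
    have a7 : m ∣ a := Dvd.intro_left _ hm.symm
    refine mem_image.2 ⟨(b, a.gcd z.factorial, m), mem_product.2 ⟨mem_Icc.2 ⟨a4, ?_⟩,
      mem_product.2 ⟨Nat.mem_divisors.2 ⟨Nat.gcd_dvd_right _ _, z.factorial_ne_zero⟩,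
        mem_A.2 ⟨⟨Nat.pos_of_dvd_of_pos a7 a3, ?_⟩, a6.squarefree_of_dvd a7, fun p hp h => ?_⟩⟩⟩,
      by rw [← hm, a5]⟩
    · exact (Nat.le_of_dvd a1 (a5 ▸ (dvd_pow_self b two_ne_zero).mul_right a)).trans a2
    · exact (Nat.le_of_dvd a1 (a5 ▸ a7.mul_left _)).trans a2
    · by_contra c
      exact hp.not_isUnit (a6 p (hm ▸ mul_dvd_mul (Nat.dvd_gcd (h.trans a7)
        (hp.dvd_factorial.2 (not_lt.1 c))) h))
  refine h1.trans ((sum_le_sum_of_subset_of_nonneg h2 fun _ _ _ => by positivity).trans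
    ((sum_image_le_of_nonneg fun _ _ => by positivity).trans ?_))
  simp only [sum_product, Nat.cast_mul, Nat.cast_pow, mul_inv, ← mul_sum, ← sum_mul, one_div]
  refine mul_le_mul (inv_sq Y) (mul_le_mul_of_nonneg_right ?_ (by positivity)) (by positivity)
    zero_le_two
  refine (sum_le_card_nsmul _ _ 1 fun s hs => inv_le_one_of_one_le₀ ?_).trans (by simp)
  exact_mod_cast Nat.pos_of_mem_divisors hs

lemma markov {z : ℕ} (hz : z ≠ 0) (Y : ℕ) :
    ∑ m ∈ A z Y, 1 / (m : ℝ) * ∑ p ∈ m.primeFactors, 1 / (p : ℝ) ≤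
      (z : ℝ)⁻¹ * ∑ m ∈ A z Y, 1 / (m : ℝ) := by
  have h1 : ∑ p ∈ Ioc z Y, ((p : ℝ) ^ 2)⁻¹ ≤ (z : ℝ)⁻¹ := by
    rcases le_total z Y with c | c
    · exact (sum_Ioc_inv_sq_le_sub hz c).trans (sub_le_self _ (by positivity))
    · rw [Ioc_eq_empty (not_lt.2 c), sum_empty]
      positivity
  refine le_trans ?_ (mul_le_mul_of_nonneg_right h1 (by positivity))
  rw [sum_mul_sum, ← sum_product']
  simp only [mul_sum]
  rw [sum_sigma']
  have h2 : ∀ x ∈ (A z Y).sigma Nat.primeFactors, x.2.Prime ∧ x.2 ∣ x.1 := fun x hx =>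
    ⟨Nat.prime_of_mem_primeFactors (mem_sigma.1 hx).2, Nat.dvd_of_mem_primeFactors (mem_sigma.1 hx).2⟩
  rw [sum_congr rfl (g := fun x => (fun y : ℕ × ℕ => ((y.1 : ℝ) ^ 2)⁻¹ * (1 / (y.2 : ℝ)))
    (x.2, x.1 / x.2)) fun x hx => by
      have := (h2 x hx).1.pos
      simp only
      rw [Nat.cast_div (h2 x hx).2 (by positivity)]
      rcases eq_or_ne (x.1 : ℝ) 0 with c | c
      · simp [c]
      · field_simp, ← sum_image (g := fun x : Σ _ : ℕ, ℕ => (x.2, x.1 / x.2))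
      (f := fun y : ℕ × ℕ => ((y.1 : ℝ) ^ 2)⁻¹ * (1 / (y.2 : ℝ)))]
  · refine sum_le_sum_of_subset_of_nonneg (fun y hy => ?_) fun _ _ _ => by positivity
    obtain ⟨x, hx, rfl⟩ := mem_image.1 hy
    obtain ⟨⟨a1, a2⟩, a3, a4⟩ := mem_A.1 (mem_sigma.1 hx).1
    obtain ⟨a5, a6⟩ := h2 x hx
    have a7 := Nat.div_dvd_of_dvd a6
    exact mem_product.2 ⟨mem_Ioc.2 ⟨a4 _ a5 a6, (Nat.le_of_dvd a1 a6).trans a2⟩,
      mem_A.2 ⟨⟨Nat.pos_of_dvd_of_pos a7 a1, (Nat.div_le_self _ _).trans a2⟩,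
        a3.squarefree_of_dvd a7, fun p hp h => a4 p hp (h.trans a7)⟩⟩
  · rintro ⟨m, p⟩ hx ⟨m', p'⟩ hy e
    obtain ⟨rfl, e2⟩ : p = p' ∧ m / p = m' / p' := Prod.mk.inj e
    rw [show m = m' from (Nat.div_mul_cancel (h2 _ hx).2).symm.trans
      ((congrArg (· * p) e2).trans (Nat.div_mul_cancel (h2 _ hy).2))]

end MsetA

open MsetA in
theorem mset_n : MSETStmt := by
  classical
  intro κ hκ
  filter_upwards [eventually_ge_atTop (⌈2 / κ⌉₊ + 1)] with z hz
  have h0 : (0 : ℝ) < z.factorial.divisors.card := by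
    exact_mod_cast card_pos.2 ⟨1, Nat.one_mem_divisors.2 z.factorial_ne_zero⟩
  have h1 : (z : ℝ)⁻¹ ≤ κ / 2 := by
    rw [← inv_div]
    refine inv_anti₀ (by positivity) ((Nat.le_ceil _).trans ?_)
    exact_mod_cast (by omega)
  refine ⟨1 / (4 * z.factorial.divisors.card), by positivity, Eventually.of_forall fun Y => ?_⟩
  have h2 := (markov (by omega) Y).trans (mul_le_mul_of_nonneg_right h1 (by positivity))
  have h3 := harm z Y
  have h4 := sum_filter_add_sum_filter_not (A z Y)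
    (fun m => ∑ p ∈ m.primeFactors, 1 / (p : ℝ) ≤ κ) fun m => 1 / (m : ℝ)
  have h5 : κ * ∑ m ∈ (A z Y).filter fun m : ℕ => ¬ ∑ p ∈ m.primeFactors, 1 / (p : ℝ) ≤ κ,
      1 / (m : ℝ) ≤ ∑ m ∈ A z Y, 1 / (m : ℝ) * ∑ p ∈ m.primeFactors, 1 / (p : ℝ) := by
    rw [mul_sum]
    refine (sum_le_sum fun m hm => ?_).trans (sum_le_sum_of_subset_of_nonneg (filter_subset _ _)
      fun _ _ _ => by positivity)
    rw [mul_comm]
    exact mul_le_mul_of_nonneg_left (not_le.1 (mem_filter.1 hm).2).le (by positivity)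
  have h6 := le_of_mul_le_mul_left ((h5.trans h2).trans_eq
    (show _ = κ * ((∑ m ∈ A z Y, 1 / (m : ℝ)) / 2) by ring)) hκ
  rw [show (Icc 1 Y).filter (Mz z κ) = (A z Y).filter
    fun m : ℕ => ∑ p ∈ m.primeFactors, 1 / (p : ℝ) ≤ κ by ext; simp [mem_A, Mz, and_assoc],
    div_mul_eq_mul_div, one_mul, div_le_iff₀ (by positivity)]
  nlinarith

end Pool.Agent.MP_a43263_nt.N2

end

end PkN2Mset

section PkN2Mul

/-! THEOREM N2, row MUL: multiplicities of the values. -/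

set_option autoImplicit false

noncomputable section

namespace Pool.Agent.MP_a43263_nt.N2

open Finset Filter K2

namespace MulA

theorem sum_xp (g : ℕ) : ∑ i : Fin (2 * g + 1), xp g i.1 = (2 * g + 1) ^ 2 := by
  have h : ∀ m : ℕ, ∑ i ∈ range m, 2 * (i + 1) = m * (m + 1) := by
    intro m
    induction m with
    | zero => simp
    | succ m ih => rw [sum_range_succ, ih]; ring
  rw [Fin.sum_univ_eq_sum_range (fun i => xp g i), sum_range_succ,
    sum_congr rfl (g := fun i => 2 * (i + 1)) (fun i hi => by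
      have := mem_range.1 hi
      simp only [xp]; rw [if_neg (by omega)]), h]
  simp only [xp, if_true]
  ring

open Classical in
/-- counting along the fibres over the coordinates outside `J` -/
theorem fib {g k : ℕ} (hk : 1 ≤ k) (J : Finset (Fin (2 * g + 1))) (P : Vec g → Prop) (M : ℕ)
    (h : ∀ w₀ ∈ bx g k, P w₀ → ∀ s : Finset (Vec g),
      (∀ w ∈ s, w ∈ bx g k ∧ P w ∧ ∀ i ∉ J, w i = w₀ i) → s.card ≤ M) :
    cnt g k P * ∏ i ∈ J, (k : ℝ) ^ xp g i.1 ≤ M * (3 ^ (2 * g + 1) * vol g k) := by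
  set t : Finset (Vec g) := Fintype.piFinset fun i => if i ∈ J then {0} else
    Icc (ce g k i.1 - (k : ℤ) ^ xp g i.1) (ce g k i.1 + (k : ℤ) ^ xp g i.1) with ht
  have h1 : ((bx g k).filter P).card ≤ M * t.card := by
    refine card_le_mul_card_image_of_maps_to (f := fun w i => if i ∈ J then 0 else w i)
      (fun w hw => ?_) M fun a _ => ?_
    · rw [ht, Fintype.mem_piFinset]
      intro i
      by_cases e : i ∈ J
      · simp [e]
      · simp only [e, if_false]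
        exact mem_Icc.2 (mem_bx.1 (mem_filter.1 hw).1 i)
    · rcases (((bx g k).filter P).filter
          fun w => (fun i => if i ∈ J then 0 else w i) = a).eq_empty_or_nonempty with e | ⟨w₀, e⟩
      · rw [e]; simp
      · obtain ⟨e1, e2⟩ := mem_filter.1 e
        refine h w₀ (mem_filter.1 e1).1 (mem_filter.1 e1).2 _ fun w hw => ?_
        obtain ⟨f1, f2⟩ := mem_filter.1 hw
        refine ⟨(mem_filter.1 f1).1, (mem_filter.1 f1).2, fun i hi => ?_⟩
        have := congrFun (f2.trans e2.symm) i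
        simpa [hi] using this
  have hk' : (1 : ℝ) ≤ k := by exact_mod_cast hk
  have h2 : (t.card : ℝ) * ∏ i ∈ J, (k : ℝ) ^ xp g i.1 ≤ 3 ^ (2 * g + 1) * vol g k := by
    have h0 : (3 : ℝ) ^ (2 * g + 1) = ∏ _i : Fin (2 * g + 1), 3 := by simp
    rw [ht, Fintype.card_piFinset, Nat.cast_prod, ← Fintype.prod_ite_mem J, ← prod_mul_distrib,
      vol, ← sum_xp, ← prod_pow_eq_pow_sum, h0, ← prod_mul_distrib]
    refine prod_le_prod (fun i _ => by positivity) fun i _ => ?_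
    have h3 : (1 : ℝ) ≤ (k : ℝ) ^ xp g i.1 := one_le_pow₀ hk'
    by_cases e : i ∈ J
    · simp only [e, if_true, card_singleton, Nat.cast_one]
      linarith
    · simp only [e, if_false, Int.card_Icc, mul_one]
      have : ce g k i.1 + (k : ℤ) ^ xp g i.1 + 1 - (ce g k i.1 - (k : ℤ) ^ xp g i.1) =
          ((2 * k ^ xp g i.1 + 1 : ℕ) : ℤ) := by push_cast; ring
      rw [this, Int.toNat_natCast]
      push_cast
      linarith
  rw [cnt_eq_card]
  have h4 : (((bx g k).filter P).card : ℝ) ≤ M * t.card := by exact_mod_cast h1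
  calc _ ≤ (M * t.card : ℝ) * ∏ i ∈ J, (k : ℝ) ^ xp g i.1 := by gcongr
    _ ≤ _ := by rw [mul_assoc]; gcongr

/-- the last but one index -/
def ic (g : ℕ) : Fin (2 * g + 1) := ⟨2 * g - 1, by omega⟩

theorem diff {g : ℕ} (hg : 1 ≤ g) (w w' : Vec g) (u v : ℤ)
    (h : ∀ i, i ≠ ic g → i ≠ Fin.last _ → w i = w' i) :
    Gv w u v - Gv w' u v = (w (Fin.last _) ^ 2 - w' (Fin.last _) ^ 2) * v ^ (4 * g + 2) -
      (w (ic g) - w' (ic g)) * u ^ 2 * v ^ (4 * g) := by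
  have hne : ic g ≠ Fin.last _ := fun e => by
    have := congrArg Fin.val e
    simp only [ic, Fin.val_last] at this
    omega
  rw [Gv, Gv, add_sub_add_left_eq_sub, ← sum_sub_distrib,
    Fintype.sum_eq_add (ic g) (Fin.last _) hne fun i hi => by simp only [sv, h i hi.1 hi.2, sub_self]]
  have e1 : 2 * g - (2 * g - 1) = 1 := by omega
  have e2 : 2 * g - 1 + 1 = 2 * g := by omega
  have e3 : ¬(2 * g - 1 = 2 * g) := by omega
  simp only [sv, ic, Fin.val_last, if_true, e1, e2, e3, if_false, Nat.sub_self]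
  ring

/-- points of one residue class in an interval -/
theorem cls (lo : ℤ) (D p : ℕ) (hp : 0 < p) (s : Finset ℤ) (h : ∀ m ∈ s, m ∈ Icc lo (lo + D))
    (h' : ∀ m ∈ s, ∀ m' ∈ s, (p : ℤ) ∣ m' - m) : s.card ≤ D / p + 1 := by
  have hp' : (0 : ℤ) < p := by exact_mod_cast hp
  have : D / p + 1 = (Icc (0 : ℤ) ((D / p : ℕ) : ℤ)).card := by
    rw [Int.card_Icc, sub_zero]
    exact (Int.toNat_natCast (D / p + 1)).symm
  rw [this]
  refine card_le_card_of_injOn (fun m => (m - lo) / p) (fun m hm => ?_) fun m hm m' hm' e => ?_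
  · obtain ⟨h1, h2⟩ := mem_Icc.1 (h m hm)
    refine mem_coe.2 (mem_Icc.2 ⟨Int.ediv_nonneg (by omega) hp'.le, ?_⟩)
    rw [Int.natCast_div]
    exact Int.ediv_le_ediv hp' (by omega)
  · have h1 : (p : ℤ) ∣ (m' - lo) - (m - lo) := by
      rw [sub_sub_sub_cancel_right]
      exact h' m hm m' hm'
    have h2 : (m - lo) % p = (m' - lo) % p := (Int.modEq_iff_dvd.2 h1 :)
    have h3 := Int.mul_ediv_add_emod (m - lo) p
    have h4 := Int.mul_ediv_add_emod (m' - lo) p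
    simp only at e
    rw [e, h2] at h3
    omega

theorem split {u : ℕ} {m r : ℤ} (hc : IsCoprime (2 * r) (u : ℤ))
    (h : (u : ℤ) ^ 2 ∣ (m - r) * (m + r)) : ∃ e f : ℕ, u = e * f ∧ IsCoprime (e : ℤ) (f : ℤ) ∧
      (e : ℤ) ^ 2 ∣ m - r ∧ (f : ℤ) ^ 2 ∣ m + r := by
  have h1 := Int.natCast_dvd.1 ((dvd_pow_self (u : ℤ) two_ne_zero).trans h)
  rw [Int.natAbs_mul] at h1
  obtain ⟨e, f, he, hf, rfl⟩ := exists_dvd_and_dvd_of_dvd_mul h1
  obtain ⟨a, ha⟩ := Int.natCast_dvd.2 he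
  obtain ⟨b, hb⟩ := Int.natCast_dvd.2 hf
  rw [Nat.cast_mul] at hc h
  have c1 : IsCoprime (e : ℤ) (m + r) := by
    rw [show m + r = 2 * r + e * a by linarith]
    exact hc.of_mul_right_left.symm.add_mul_left_right a
  have c2 : IsCoprime (f : ℤ) (m - r) := by
    rw [show m - r = -(2 * r) + f * b by linarith]
    exact hc.of_mul_right_right.symm.neg_right.add_mul_left_right b
  rw [mul_pow] at h
  exact ⟨e, f, rfl, (hb ▸ c1).of_mul_right_left,
    c1.pow_left.dvd_of_dvd_mul_right ((dvd_mul_right _ _).trans h),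
    c2.pow_left.dvd_of_dvd_mul_left ((dvd_mul_left _ _).trans h)⟩

theorem roots {u : ℕ} (hu : 1 ≤ u) (B : ℕ) {r : ℤ} (hc : IsCoprime (2 * r) (u : ℤ)) :
    ((Icc (r - (B * u ^ 2 : ℕ)) (r + (B * u ^ 2 : ℕ))).filter
      fun m => (u : ℤ) ^ 2 ∣ (m - r) * (m + r)).card ≤ u.divisors.card * (2 * B + 1) := by
  classical
  refine le_trans (card_le_card (t := u.divisors.biUnion fun e =>
    (Icc (r - (B * u ^ 2 : ℕ)) (r + (B * u ^ 2 : ℕ))).filter fun m =>
      IsCoprime (e : ℤ) ((u / e : ℕ) : ℤ) ∧ (e : ℤ) ^ 2 ∣ m - r ∧ ((u / e : ℕ) : ℤ) ^ 2 ∣ m + r)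
    fun m hm => ?_) (card_biUnion_le_card_mul _ _ _ fun e he => ?_)
  · obtain ⟨e, f, h1, h2⟩ := split hc (mem_filter.1 hm).2
    have h3 : u / e = f := by
      rw [h1] at hu ⊢
      exact Nat.mul_div_cancel_left f (Nat.pos_of_mul_pos_right hu)
    refine mem_biUnion.2 ⟨e, Nat.mem_divisors.2 ⟨⟨f, h1⟩, by omega⟩, ?_⟩
    rw [h3]
    exact mem_filter.2 ⟨(mem_filter.1 hm).1, h2⟩
  · have h0 : 0 < u ^ 2 := by positivity
    refine (cls (r - (B * u ^ 2 : ℕ)) (2 * B * u ^ 2) (u ^ 2) h0 _ (fun m hm => ?_)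
      fun m hm m' hm' => ?_).trans_eq (by rw [Nat.mul_div_cancel _ h0])
    · have := mem_Icc.1 (mem_filter.1 hm).1
      rw [mem_Icc]
      push_cast at this ⊢
      constructor <;> linarith [this.1, this.2]
    · obtain ⟨a1, a2, a3⟩ := (mem_filter.1 hm).2
      obtain ⟨-, b2, b3⟩ := (mem_filter.1 hm').2
      have h1 := Nat.mul_div_cancel' (Nat.dvd_of_mem_divisors he)
      generalize u / e = f at *
      rw [← h1, Nat.cast_pow, Nat.cast_mul, mul_pow]
      exact a1.pow.mul_dvd (by simpa using dvd_sub b2 a2) (by simpa using dvd_sub b3 a3)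

theorem cop {g : ℕ} {w : Vec g} {u v : ℤ} (h : IsCoprime (Gv w u v) u) :
    IsCoprime (w (Fin.last _)) u := by
  have h0 : u ∣ -u ^ 2 := dvd_neg.2 (dvd_pow_self u two_ne_zero)
  obtain ⟨t, ht⟩ : u ∣ Gv w u v - w (Fin.last _) * (w (Fin.last _) * (v ^ 2) ^ (2 * g + 1)) := by
    rw [Gv, Fin.sum_univ_castSucc]
    simp only [sv, Fin.val_last, if_true, Nat.sub_self, pow_zero, mul_one]
    rw [← add_assoc, sq (w _), mul_assoc, add_sub_cancel_right]
    refine dvd_add (dvd_pow h0 (by omega)) (dvd_sum fun i _ => ?_)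
    have := i.2
    exact ((dvd_pow h0 (by rw [Fin.val_castSucc]; omega)).mul_left _).mul_right _
  rw [sub_eq_iff_eq_add'.1 ht] at h
  exact h.of_add_mul_left_left.of_mul_left_left

theorem last_mem {g k : ℕ} {w : Vec g} (h : w ∈ bx g k) :
    6 * (k : ℤ) ^ (2 * g + 1) ≤ w (Fin.last _) ∧ w (Fin.last _) ≤ 8 * (k : ℤ) ^ (2 * g + 1) := by
  have := mem_bx.1 h (Fin.last _)
  simp only [ce, xp, Fin.val_last, or_true, if_true] at this
  constructor <;> linarith [this.1, this.2]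

theorem xp_ic {g : ℕ} (hg : 1 ≤ g) : xp g (ic g).1 = 4 * g := by
  change xp g (2 * g - 1) = _
  rw [xp, if_neg (by omega)]
  omega

theorem near {g k : ℕ} (hg : 1 ≤ g) (hk : 1 ≤ k) {w w' : Vec g} (h : w ∈ bx g k)
    (h' : w' ∈ bx g k) {u v : ℤ} (hv : 1 ≤ v)
    (e : (w (Fin.last _) ^ 2 - w' (Fin.last _) ^ 2) * v ^ (4 * g + 2) =
      (w (ic g) - w' (ic g)) * u ^ 2 * v ^ (4 * g)) :
    w (Fin.last _) - w' (Fin.last _) ≤ (k : ℤ) ^ (2 * g - 1) * u ^ 2 := by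
  have a := last_mem h
  have a' := last_mem h'
  have b := mem_bx.1 h (ic g)
  have b' := mem_bx.1 h' (ic g)
  rw [xp_ic hg] at b b'
  have hk' : (0 : ℤ) < k := by exact_mod_cast hk
  have e1 : (w (Fin.last _) ^ 2 - w' (Fin.last _) ^ 2) * v ^ 2 =
      (w (ic g) - w' (ic g)) * u ^ 2 := by
    refine mul_right_cancel₀ (pow_ne_zero (4 * g) (by omega : v ≠ 0)) ?_
    rw [← e]; ring
  have e2 : (k : ℤ) ^ (4 * g) = (k : ℤ) ^ (2 * g - 1) * (k : ℤ) ^ (2 * g + 1) := by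
    rw [← pow_add]; congr 1; omega
  have p1 : 0 < (k : ℤ) ^ (2 * g + 1) := by positivity
  have p2 : 0 < (k : ℤ) ^ (2 * g - 1) := by positivity
  generalize w (Fin.last _) = m at *
  generalize w' (Fin.last _) = m' at *
  generalize (k : ℤ) ^ (2 * g + 1) = A at *
  generalize (k : ℤ) ^ (2 * g - 1) = B at *
  by_contra hc
  push Not at hc
  have q0 : 0 ≤ B * u ^ 2 := by positivity
  have q1 : (w (ic g) - w' (ic g)) * u ^ 2 ≤ 2 * (B * A) * u ^ 2 :=
    mul_le_mul_of_nonneg_right (by linarith [b.2, b'.1]) (sq_nonneg u)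
  have q2 : (m - m') * (12 * A) ≤ (m - m') * (m + m') :=
    mul_le_mul_of_nonneg_left (by linarith [a.1, a'.1]) (by linarith)
  have q3 : (m - m') * (m + m') * 1 ≤ (m - m') * (m + m') * v ^ 2 :=
    mul_le_mul_of_nonneg_left (one_le_pow₀ hv) (mul_nonneg (by linarith) (by linarith [a.1, a'.1]))
  have q4 : B * u ^ 2 * (12 * A) < (m - m') * (12 * A) := mul_lt_mul_of_pos_right hc (by linarith)
  have q5 : 0 ≤ B * u ^ 2 * A := by positivity
  nlinarith

end MulA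

open MulA in
theorem mul_n : MULStmt := by
  classical
  intro g hg
  refine ⟨3 * 3 ^ (2 * g + 1), by positivity, fun k u v y hk hu hv huv hy => ?_⟩
  have hne : ic g ≠ Fin.last _ := fun e => by
    have := congrArg Fin.val e
    simp only [ic, Fin.val_last] at this
    omega
  have hu' : (1 : ℤ) ≤ u := by exact_mod_cast hu
  have hv' : (1 : ℤ) ≤ v := by exact_mod_cast hv
  have c0 : IsCoprime (u : ℤ) (2 * v) := by exact_mod_cast Nat.isCoprime_iff_coprime.2 huv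
  have key := fib hk {ic g, Fin.last _} (fun w => Gv w u v = y)
    (u.divisors.card * (3 * k ^ (2 * g - 1))) fun w₀ h₀ e₀ s hs => by
    have hD : 1 ≤ k ^ (2 * g - 1) := Nat.succ_le_of_lt (by positivity)
    have ag : ∀ w w' : Vec g, (∀ i ∉ ({ic g, Fin.last _} : Finset _), w i = w₀ i) →
        (∀ i ∉ ({ic g, Fin.last _} : Finset _), w' i = w₀ i) → Gv w u v = y → Gv w' u v = y →
        (w (Fin.last _) ^ 2 - w' (Fin.last _) ^ 2) * (v : ℤ) ^ (4 * g + 2) =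
          (w (ic g) - w' (ic g)) * (u : ℤ) ^ 2 * (v : ℤ) ^ (4 * g) := fun w w' a a' b b' => by
      have := diff hg w w' u v fun i h1 h2 => by
        rw [a i (by simp [h1, h2]), a' i (by simp [h1, h2])]
      rw [b, b', sub_self] at this
      linarith
    refine le_trans (card_le_card_of_injOn (fun w => w (Fin.last _)) (fun w hw => ?_)
      fun w hw w' hw' e => ?_) ((roots hu (k ^ (2 * g - 1)) (r := w₀ (Fin.last _))
        (c0.of_mul_right_left.symm.mul_left (cop (e₀ ▸ hy)))).trans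
          (Nat.mul_le_mul_left _ (by omega)))
    · obtain ⟨h1, h2, h3⟩ := hs w hw
      have n0 := ag w w₀ h3 (fun _ _ => rfl) h2 e₀
      have n1 := near hg hk h1 h₀ hv' n0
      have n2 := near hg hk h₀ h1 hv' (ag w₀ w (fun _ _ => rfl) h3 e₀ h2)
      refine mem_coe.2 (mem_filter.2 ⟨mem_Icc.2 ?_, ?_⟩)
      · push_cast
        constructor <;> linarith
      · refine (c0.of_mul_right_right.pow (m := 2) (n := 4 * g + 2)).dvd_of_dvd_mul_right ?_
        rw [mul_comm (_ - _), ← sq_sub_sq, n0]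
        exact (dvd_mul_left _ _).mul_right _
    · obtain ⟨-, h2, h3⟩ := hs w hw
      obtain ⟨-, h2', h3'⟩ := hs w' hw'
      have e' : w (Fin.last _) = w' (Fin.last _) := e
      have := ag w w' h3 h3' h2 h2'
      rw [e', sub_self, zero_mul] at this
      have e'' : w (ic g) = w' (ic g) := by
        have := (mul_eq_zero.1 ((mul_eq_zero.1 this.symm).resolve_right
          (by positivity))).resolve_right (by positivity)
        linarith
      funext i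
      by_cases c1 : i = ic g
      · rw [c1, e'']
      by_cases c2 : i = Fin.last _
      · rw [c2, e']
      rw [h3 i (by simp [c1, c2]), h3' i (by simp [c1, c2])]
  rw [prod_pair hne, xp_ic hg] at key
  simp only [xp, Fin.val_last, if_true] at key
  have hk' : (0 : ℝ) < k := by exact_mod_cast hk
  have e2 : (k : ℝ) ^ (4 * g) * (k : ℝ) ^ (2 * g + 1) =
      (k : ℝ) ^ (4 * g + 2) * (k : ℝ) ^ (2 * g - 1) := by
    rw [← pow_add, ← pow_add]; congr 1; omega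
  rw [e2] at key
  push_cast at key
  have p2 : 0 < (k : ℝ) ^ (2 * g - 1) := by positivity
  exact le_of_mul_le_mul_right (by linarith) p2

end Pool.Agent.MP_a43263_nt.N2

end

end PkN2Mul

section PkN2Siz

/-! THEOREM N2: sizes of the values. -/

set_option autoImplicit false

noncomputable section

namespace Pool.Agent.MP_a43263_nt.N2

open Finset Filter K2

namespace SizA

theorem sum_near {n : ℕ} (f : Fin n → ℤ) (i₀ : Fin n) {B : ℤ} (hB : 0 ≤ B)
    (h : ∀ i, i ≠ i₀ → |f i| ≤ B) : |∑ i, f i - f i₀| ≤ n * B := by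
  rw [← add_sum_erase univ f (mem_univ i₀), add_sub_cancel_left]
  refine (abs_sum_le_sum_abs _ _).trans
    ((sum_le_card_nsmul _ _ B fun i hi => h i (ne_of_mem_erase hi)).trans ?_)
  rw [nsmul_eq_mul]
  refine mul_le_mul_of_nonneg_right ?_ hB
  exact_mod_cast (card_le_univ _).trans (Fintype.card_fin n).le

variable {g k : ℕ} {w : Vec g}

theorem abs_le8 (hw : w ∈ bx g k) (i : Fin (2 * g + 1)) : |w i| ≤ 8 * (k : ℤ) ^ xp g i.1 := by
  obtain ⟨a, b⟩ := mem_bx.1 hw i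
  have : (0 : ℤ) ≤ (k : ℤ) ^ xp g i.1 := by positivity
  unfold ce at a b
  rw [abs_le]
  split_ifs at a b <;> constructor <;> linarith

theorem big (hw : w ∈ bx g k) (i : Fin (2 * g + 1)) (h : Odd i.1 ∨ i.1 = 2 * g) :
    6 * (k : ℤ) ^ xp g i.1 ≤ w i ∧ w i ≤ 8 * (k : ℤ) ^ xp g i.1 := by
  obtain ⟨a, b⟩ := mem_bx.1 hw i
  rw [ce, if_pos h] at a b
  constructor <;> linarith

theorem pw {u P : ℤ} (hu : 0 ≤ u) (hP : u ≤ P) {j : ℕ} (hj : 1 ≤ j) :
    |(-u ^ 2) ^ j| ≤ P ^ (2 * (j - 1)) * u ^ 2 := by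
  rw [abs_pow, abs_neg, abs_of_nonneg (sq_nonneg u), ← pow_mul,
    show 2 * j = 2 * (j - 1) + 2 by omega, pow_add]
  gcongr

theorem tm (hw : w ∈ bx g k) {u v : ℤ} (hu : 0 ≤ u) (hv : 0 ≤ v) (hP : u ≤ (k : ℤ) * v)
    (i : Fin (2 * g + 1)) (hi : i.1 ≠ 2 * g) {j n : ℕ} (hj : 1 ≤ j)
    (hn : n = 2 * (i.1 + 1) + 2 * (j - 1)) :
    |sv w i * (-u ^ 2) ^ j * (v ^ 2) ^ (i.1 + 1)| ≤ 8 * (((k : ℤ) * v) ^ n * u ^ 2) := by
  have a := abs_le8 hw i
  rw [xp, if_neg hi] at a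
  have b := pw hu hP hj
  have d : (0 : ℤ) ≤ v ^ (2 * (i.1 + 1)) := by positivity
  rw [sv, if_neg hi, abs_mul, abs_mul, ← pow_mul v, abs_of_nonneg d]
  calc |w i| * |(-u ^ 2) ^ j| * v ^ (2 * (i.1 + 1))
      ≤ 8 * (k : ℤ) ^ (2 * (i.1 + 1)) * (((k : ℤ) * v) ^ (2 * (j - 1)) * u ^ 2) *
        v ^ (2 * (i.1 + 1)) := by gcongr
    _ = _ := by rw [hn, pow_add ((k : ℤ) * v), mul_pow _ v (2 * (i.1 + 1))]; ring

theorem gv (hw : w ∈ bx g k) {u v : ℤ} (hu : 0 ≤ u) (hv : 0 ≤ v) (hP : u ≤ (k : ℤ) * v)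
    (hU : (16 * g + 9) * u ^ 2 ≤ ((k : ℤ) * v) ^ 2) :
    35 * ((k : ℤ) * v) ^ (4 * g + 2) ≤ Gv w u v ∧ Gv w u v ≤ 65 * ((k : ℤ) * v) ^ (4 * g + 2) := by
  have hU0 : (0 : ℤ) ≤ u ^ (4 * g + 2) := by positivity
  have h1 := sum_near (fun i : Fin (2 * g + 1) =>
      sv w i * (-u ^ 2) ^ (2 * g - i.1) * (v ^ 2) ^ (i.1 + 1)) (Fin.last _)
    (B := 8 * (((k : ℤ) * v) ^ (4 * g) * u ^ 2)) (by positivity) fun i hi => by
      have : i.1 < 2 * g := Fin.val_lt_last hi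
      exact tm hw hu hv hP i this.ne (by omega) (by omega)
  obtain ⟨a, b⟩ := big hw (Fin.last _) (Or.inr rfl)
  simp only [Fin.val_last, Nat.sub_self, pow_zero, mul_one, sv, if_true, xp] at h1 a b
  have h2 : (-u ^ 2) ^ (2 * g + 1) = -u ^ (4 * g + 2) := by
    rw [Odd.neg_pow ⟨g, rfl⟩, ← pow_mul]; congr 2; ring
  have h3 : ((k : ℤ) * v) ^ (4 * g + 2) = ((k : ℤ) ^ (2 * g + 1)) ^ 2 * (v ^ 2) ^ (2 * g + 1) := by
    rw [mul_pow, ← pow_mul, ← pow_mul]; congr 2 <;> ring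
  have h4 : (16 * g + 9) * (((k : ℤ) * v) ^ (4 * g) * u ^ 2) ≤ ((k : ℤ) * v) ^ (4 * g + 2) :=
    calc _ = ((k : ℤ) * v) ^ (4 * g) * ((16 * g + 9) * u ^ 2) := by ring
      _ ≤ ((k : ℤ) * v) ^ (4 * g) * ((k : ℤ) * v) ^ 2 := by gcongr
      _ = _ := by rw [← pow_add]
  have h5 : u ^ (4 * g + 2) ≤ ((k : ℤ) * v) ^ (4 * g) * u ^ 2 := by
    rw [pow_add]
    gcongr
  have k0 : (0 : ℤ) ≤ (k : ℤ) ^ (2 * g + 1) := by positivity
  have v0 : (0 : ℤ) ≤ (v ^ 2) ^ (2 * g + 1) := by positivity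
  have h6 : 36 * ((k : ℤ) * v) ^ (4 * g + 2) ≤ w (Fin.last _) ^ 2 * (v ^ 2) ^ (2 * g + 1) := by
    rw [h3, ← mul_assoc]
    exact mul_le_mul_of_nonneg_right (by nlinarith) v0
  have h7 : w (Fin.last _) ^ 2 * (v ^ 2) ^ (2 * g + 1) ≤ 64 * ((k : ℤ) * v) ^ (4 * g + 2) := by
    rw [h3, ← mul_assoc]
    exact mul_le_mul_of_nonneg_right (by nlinarith) v0
  obtain ⟨c, d⟩ := abs_le.1 h1
  push_cast at c d
  simp only [Gv, sv, h2]
  constructor <;> linarith

theorem gx (hg : 1 ≤ g) (hw : w ∈ bx g k) {u v : ℤ} (hu : 0 ≤ u) (hv : 1 ≤ v) (hk : 1 ≤ (k : ℤ))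
    (hP : u ≤ (k : ℤ) * v) (hU : (2 * g + 1) * (16 * g + 1) * u ^ 2 ≤ ((k : ℤ) * v) ^ 2)
    (hV : 9 * v ^ (4 * g) ≤ k) : 0 < Gx w u v ∧ Gx w u v ≤ (k : ℤ) ^ (4 * g + 1) := by
  have lt : 2 * g - 1 < 2 * g + 1 := by omega
  have h1 := sum_near (fun i : Fin (2 * g + 1) => ((2 * g - i.1 : ℕ) : ℤ) * sv w i *
      (-u ^ 2) ^ (2 * g - i.1 - 1) * (v ^ 2) ^ (i.1 + 1)) ⟨2 * g - 1, lt⟩
    (B := 2 * g * (8 * (((k : ℤ) * v) ^ (4 * g - 2) * u ^ 2))) (by positivity)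
    fun i hi => by
      by_cases e : i.1 = 2 * g
      · simp only [e, Nat.sub_self, Nat.cast_zero, zero_mul, abs_zero]
        positivity
      have n : i.1 ≠ 2 * g - 1 := fun c => hi (Fin.ext c)
      have := i.2
      rw [mul_assoc, mul_assoc, abs_mul, ← mul_assoc (sv w i), Nat.abs_cast]
      refine mul_le_mul ?_ (tm hw hu (by omega) hP i e (by omega) (by omega)) (abs_nonneg _)
        (by positivity)
      exact_mod_cast Nat.sub_le _ _
  obtain ⟨a, b⟩ := big hw ⟨2 * g - 1, lt⟩ (Or.inl ⟨g - 1, by simp only; omega⟩)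
  have e1 : 2 * g - 1 ≠ 2 * g := by omega
  have e2 : 2 * (2 * g - 1 + 1) = 4 * g := by omega
  have e3 : 2 * g - (2 * g - 1) = 1 := by omega
  simp only [xp, if_neg e1, e2] at a b
  have e4 : ((2 * g - (2 * g - 1) : ℕ) : ℤ) * sv w ⟨2 * g - 1, lt⟩ *
      (-u ^ 2) ^ (2 * g - (2 * g - 1) - 1) * (v ^ 2) ^ (2 * g - 1 + 1) =
        w ⟨2 * g - 1, lt⟩ * v ^ (4 * g) := by
    rw [e3, ← pow_mul, e2, sv]
    simp only [if_neg e1]
    simp
  simp only [e4] at h1
  have h2 : (0 : ℤ) ≤ (-u ^ 2) ^ (2 * g) := Even.pow_nonneg ⟨g, by ring⟩ _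
  have h3 : (-u ^ 2) ^ (2 * g) ≤ ((k : ℤ) * v) ^ (4 * g - 2) * u ^ 2 := by
    have := (le_abs_self _).trans (pw hu hP (show 1 ≤ 2 * g by omega))
    rwa [show 2 * (2 * g - 1) = 4 * g - 2 by omega] at this
  have h4 : (2 * g + 1) * (16 * g + 1) * (((k : ℤ) * v) ^ (4 * g - 2) * u ^ 2) ≤
      (k : ℤ) ^ (4 * g) * v ^ (4 * g) :=
    calc _ = ((k : ℤ) * v) ^ (4 * g - 2) * ((2 * g + 1) * (16 * g + 1) * u ^ 2) := by ring
      _ ≤ ((k : ℤ) * v) ^ (4 * g - 2) * ((k : ℤ) * v) ^ 2 := by gcongr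
      _ = _ := by rw [← pow_add, ← mul_pow]; congr 1; omega
  have v0 : (0 : ℤ) < v ^ (4 * g) := by positivity
  have k0 : (0 : ℤ) < (k : ℤ) ^ (4 * g) := by positivity
  have h5 := mul_le_mul_of_nonneg_right a v0.le
  have h6 := mul_le_mul_of_nonneg_right b v0.le
  have h7 := mul_le_mul_of_nonneg_left hV k0.le
  have h8 := mul_le_mul_of_nonneg_left h3 (show (0 : ℤ) ≤ 2 * g + 1 by positivity)
  have h9 := mul_nonneg (show (0 : ℤ) ≤ 2 * g + 1 by positivity) h2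
  have h10 := mul_pos k0 v0
  obtain ⟨c, d⟩ := abs_le.1 h1
  push_cast at c d
  rw [Gx, pow_succ (k : ℤ)]
  constructor <;> nlinarith

end SizA

theorem siz_n : SIZStmt := by
  intro g v hg hv
  filter_upwards [eventually_ge_atTop 1, eventually_ge_atTop (9 * v ^ (4 * g))]
    with k h1 h2 w hw u hu
  have g1 : (1 : ℤ) ≤ g := by exact_mod_cast hg
  have u0 : (0 : ℤ) ≤ u := Nat.cast_nonneg _
  have u1 : (u : ℤ) ≤ 3 * k := by exact_mod_cast hu
  have v1 : 24 * ((g : ℤ) + 1) ≤ v := by exact_mod_cast hv.ge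
  have k1 : (1 : ℤ) ≤ k := by exact_mod_cast h1
  have a : 8 * ((g : ℤ) + 1) * u ≤ k * v := by nlinarith
  have b : (8 * ((g : ℤ) + 1) * u) ^ 2 ≤ ((k : ℤ) * v) ^ 2 := by gcongr
  have c : (u : ℤ) ≤ k * v := by nlinarith
  have s := sq_nonneg (u : ℤ)
  rw [mul_pow] at b
  obtain ⟨d, e⟩ := SizA.gv hw u0 (by omega) c
    ((mul_le_mul_of_nonneg_right (by nlinarith) s).trans b)
  exact ⟨d, e, SizA.gx hg hw u0 (by omega) k1 c
    ((mul_le_mul_of_nonneg_right (by nlinarith) s).trans b) (by exact_mod_cast h2)⟩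

end Pool.Agent.MP_a43263_nt.N2

end

end PkN2Siz
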