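import Pool.Agent.MP_a43263_nt.N2.SpecC
import Pool.Agent.MP_a43263_nt.NP.C1

/-! Packed rows. -/

section PkN2Apl

/-! Primes in almost all short progressions of a family, from the variance. -/

set_option autoImplicit false

noncomputable section

namespace Pool.Agent.MP_a43263_nt.N2

open Finset Filter K2

namespace AplA

open ArithmeticFunction K2.AplA

/-- the transform of the error terms -/
def tr (q h y : ℕ) (a : ZMod q) : ℂ := ∑ χ : DirichletCharacter ℂ q, χ⁻¹ a * er q h χ y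

/-- the mean square of the error terms -/
def vr (q h y : ℕ) : ℝ := ∑ χ : DirichletCharacter ℂ q, ‖er q h χ y‖ ^ 2

variable {q : ℕ} [NeZero q]

theorem parseval (E : DirichletCharacter ℂ q → ℂ) :
    ∑ a : ZMod q, ‖∑ χ : DirichletCharacter ℂ q, χ⁻¹ a * E χ‖ ^ 2 =
      q.totient * ∑ χ : DirichletCharacter ℂ q, ‖E χ‖ ^ 2 := by
  have h1 : ∀ χ ψ : DirichletCharacter ℂ q, ∑ a : ZMod q, χ⁻¹ a * ψ a =
      if χ = ψ then (q.totient : ℂ) else 0 := fun χ ψ => by
    simp only [← MulChar.mul_apply]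
    split_ifs with h
    · rw [h, inv_mul_cancel, MulChar.sum_one_eq_card_units, ZMod.card_units_eq_totient]
    · exact MulChar.sum_eq_zero_of_ne_one fun e => h (inv_mul_eq_one.1 e)
  have h2 : ∀ (χ : DirichletCharacter ℂ q) a, (starRingEnd ℂ) (χ⁻¹ a) = χ a := fun χ a => by
    rw [← MulChar.star_apply']
    exact star_star _
  refine Complex.ofReal_injective ?_
  push_cast
  simp only [← Complex.mul_conj', map_sum, map_mul, h2, sum_mul_sum]
  rw [sum_comm, mul_sum]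
  refine sum_congr rfl fun χ _ => ?_
  rw [sum_comm]
  have h3 : ∀ ψ : DirichletCharacter ℂ q, ∑ a : ZMod q, χ⁻¹ a * E χ * (ψ a * (starRingEnd ℂ) (E ψ))
      = if χ = ψ then (q.totient : ℂ) * (E χ * (starRingEnd ℂ) (E ψ)) else 0 := fun ψ => by
    rw [← ite_zero_mul, ← h1, sum_mul]
    exact sum_congr rfl fun _ _ => by ring
  simp only [h3, sum_ite_eq, mem_univ, if_true]

theorem tot_pos : (0 : ℝ) < q.totient := by
  exact_mod_cast Nat.totient_pos.2 (Nat.pos_of_ne_zero (NeZero.ne q))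

/-- one interval, all classes -/
theorem sum_tr (h y : ℕ) {t : ℝ} (ht : 0 < t) :
    ∑ j ∈ range q, ‖tr q h y (y + j : ℕ)‖ / q.totient ≤ (t + ph q * vr q h y / t) / 2 := by
  have h0 := tot_pos (q := q)
  have h1 : ∑ j ∈ range q, ‖tr q h y (y + j : ℕ)‖ ≤ ∑ a, ‖tr q h y a‖ := by
    rw [← sum_image (f := fun a => ‖tr q h y a‖) (g := fun j : ℕ => ((y + j : ℕ) : ZMod q))
      fun a ha b hb e => Nat.ModEq.eq_of_lt_of_lt (Nat.ModEq.add_left_cancel' y
        ((ZMod.natCast_eq_natCast_iff _ _ _).1 e)) (mem_range.1 ha) (mem_range.1 hb)]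
    exact sum_le_sum_of_subset_of_nonneg (subset_univ _) fun _ _ _ => norm_nonneg _
  have h2 := sq_sum_le_card_mul_sum_sq (s := univ) (f := fun a => ‖tr q h y a‖)
  rw [card_univ, ZMod.card, show ∑ a, ‖tr q h y a‖ ^ 2 = q.totient * vr q h y from
    parseval _] at h2
  have h3 : ((∑ a, ‖tr q h y a‖) / q.totient) ^ 2 ≤ ph q * vr q h y := by
    rw [div_pow, div_le_iff₀ (by positivity), ph]
    refine h2.trans_eq ?_
    field_simp
  rw [← sum_div]
  refine (div_le_div_of_nonneg_right h1 h0.le).trans ?_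
  rw [le_div_iff₀ two_pos, ← sub_le_iff_le_add', le_div_iff₀ ht]
  nlinarith [sq_nonneg ((∑ a, ‖tr q h y a‖) / q.totient - t)]

theorem tr_eq (h y : ℕ) {a : ZMod q} (hu : IsUnit a) : tr q h y a =
    ((q.totient * ∑ n ∈ Ico y (y + h) with a = (n : ℕ), vonMangoldt n - h : ℝ) : ℂ) := by
  have h0 : ∀ χ : DirichletCharacter ℂ q, χ⁻¹ a = χ a⁻¹ := fun χ => by
    rw [MulChar.inv_apply_eq_inv']
    exact (eq_inv_of_mul_eq_one_left (by rw [← map_mul, ZMod.inv_mul_of_unit _ hu, map_one])).symm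
  have h1 : ∑ χ : DirichletCharacter ℂ q, χ⁻¹ a *
      ∑ n ∈ Ico y (y + h), (vonMangoldt n : ℂ) * χ n =
      (q.totient : ℂ) * ∑ n ∈ Ico y (y + h) with a = (n : ℕ), (vonMangoldt n : ℂ) := by
    simp only [sum_filter, mul_sum, h0]
    rw [sum_comm]
    refine sum_congr rfl fun n _ => ?_
    have h := DirichletCharacter.sum_char_inv_mul_char_eq ℂ hu (n : ZMod q)
    calc ∑ χ : DirichletCharacter ℂ q, χ a⁻¹ * ((vonMangoldt n : ℂ) * χ n)
        = (vonMangoldt n : ℂ) * ∑ χ : DirichletCharacter ℂ q, χ a⁻¹ * χ n := by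
          rw [mul_sum]
          exact sum_congr rfl fun _ _ => by ring
      _ = _ := by
          rw [h]
          split_ifs <;> ring
  have h2 : ∑ χ : DirichletCharacter ℂ q, χ⁻¹ a * ((h : ℂ) * ((ind (χ = 1) : ℝ) : ℂ)) = h := by
    rw [sum_eq_single (1 : DirichletCharacter ℂ q)]
    · rw [inv_one, MulChar.one_apply hu, ind_pos rfl]
      simp
    · intro χ _ h
      rw [ind_neg h]
      simp
    · intro h
      exact absurd (mem_univ _) h
  push_cast
  rw [← h1, ← h2, ← sum_sub_distrib]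
  refine sum_congr rfl fun χ _ => ?_
  rw [er, sum_sub_distrib, sum_const, Nat.card_Ico, Nat.add_sub_cancel_left, nsmul_eq_mul, mul_sub]

omit [NeZero q] in
/-- the class inside the interval -/
theorem cls (h y : ℕ) {j : ℕ} (hj : j < q) :
    ∑ i ∈ range (h / q), vonMangoldt (y + j + i * q) ≤
      ∑ n ∈ Ico y (y + h) with ((y + j : ℕ) : ZMod q) = (n : ℕ), vonMangoldt n ∧
    ∑ n ∈ Ico y (y + h) with ((y + j : ℕ) : ZMod q) = (n : ℕ), vonMangoldt n ≤
      ∑ i ∈ range (h / q + 1), vonMangoldt (y + j + i * q) := by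
  have hq : 0 < q := by omega
  have inj : ∀ K, ∑ n ∈ (range K).image (fun i => y + j + i * q), vonMangoldt n =
      ∑ i ∈ range K, vonMangoldt (y + j + i * q) := fun K =>
    sum_image fun a _ b _ e => Nat.eq_of_mul_eq_mul_right hq (Nat.add_left_cancel e)
  rw [← inj, ← inj]
  constructor <;>
    refine sum_le_sum_of_subset_of_nonneg (fun n hn => ?_) fun _ _ _ => vonMangoldt_nonneg
  · obtain ⟨i, hi, rfl⟩ := mem_image.1 hn
    have h1 := (Nat.le_div_iff_mul_le hq).1 (Nat.succ_le_of_lt (mem_range.1 hi))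
    rw [Nat.succ_mul] at h1
    exact mem_filter.2 ⟨mem_Ico.2 ⟨by omega, by omega⟩, by simp⟩
  · obtain ⟨h1, h2⟩ := mem_filter.1 hn
    obtain ⟨h3, h4⟩ := mem_Ico.1 h1
    have h5 := (ZMod.natCast_eq_natCast_iff _ _ _).1 h2
    have h6 : y + j ≤ n := by
      by_contra h7
      have := Nat.le_of_dvd (by omega) ((Nat.modEq_iff_dvd' (not_le.1 h7).le).1 h5.symm)
      omega
    obtain ⟨i, hi⟩ := (Nat.modEq_iff_dvd' h6).1 h5
    rw [mul_comm] at hi
    exact mem_image.2 ⟨i, mem_range.2 (Nat.lt_succ_of_le ((Nat.le_div_iff_mul_le hq).2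
      (by omega))), by omega⟩

/-- one starting point -/
theorem pt {h y j X : ℕ} (hj : j < q) (hy : q < y + j)
    (hX : y + j + h ≤ 3 * X) :
    |∑ i ∈ range (h / q), lam (y + j + i * q) -
      (h / q : ℕ) * (ph q * ind ((y + j).Coprime q))| ≤ ‖tr q h y (y + j : ℕ)‖ / q.totient +
      (Real.log (3 * X) + ph q) + ∑ i ∈ range (h / q), pp (y + j + i * q) := by
  have h0 : 0 ≤ ∑ i ∈ range (h / q), pp (y + j + i * q) := sum_nonneg fun _ _ => pp_nonneg _
  have ht := tot_pos (q := q)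
  have hq : 0 < q := by omega
  have p0 : 0 ≤ ph q := div_nonneg (Nat.cast_nonneg _) ht.le
  have k1 := Nat.div_mul_le_self h q
  have l1 : vonMangoldt (y + j + h / q * q) ≤ Real.log (3 * X) :=
    vonMangoldt_le_log.trans (Real.log_le_log (by exact_mod_cast (by omega))
      (by exact_mod_cast (by omega)))
  have l0 := vonMangoldt_nonneg.trans l1
  by_cases hc : (y + j).Coprime q
  · obtain ⟨c1, c2⟩ := cls h y hj
    rw [sum_range_succ] at c2
    have e1 : ((h / q : ℕ) : ℝ) * ph q ≤ h / q.totient := by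
      rw [ph, ← mul_div_assoc]
      exact div_le_div_of_nonneg_right (by exact_mod_cast k1) ht.le
    have e2 : (h : ℝ) / q.totient ≤ (h / q : ℕ) * ph q + ph q := by
      rw [ph, ← mul_div_assoc, ← add_div]
      exact div_le_div_of_nonneg_right (by exact_mod_cast (Nat.lt_div_mul_add hq).le) ht.le
    rw [tr_eq h y ((ZMod.isUnit_iff_coprime _ q).2 hc), Complex.norm_real, Real.norm_eq_abs,
      ← abs_of_pos ht, ← abs_div, abs_of_pos ht, sub_div, mul_div_cancel_left₀ _ ht.ne']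
    simp only [lam_eq]
    rw [ind_pos hc, mul_one, sum_sub_distrib, abs_le]
    obtain ⟨a1, a2⟩ := abs_le.1 (le_refl |∑ n ∈ Ico y (y + h) with ((y + j : ℕ) : ZMod q) = (n : ℕ),
      vonMangoldt n - (h : ℝ) / q.totient|)
    constructor <;> linarith
  · have h1 : ∑ i ∈ range (h / q), lam (y + j + i * q) = 0 :=
      sum_eq_zero fun i _ => if_neg fun hp => hc ((Nat.coprime_add_mul_right_left _ q i).1
        ((Nat.Prime.coprime_iff_not_dvd hp).2 fun hd => by
          have := Nat.le_of_dvd hq hd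
          omega))
    rw [h1, ind_neg hc, mul_zero, mul_zero, sub_zero, abs_zero]
    positivity

/-- one modulus -/
theorem one {h X : ℕ} (hX : 1 ≤ X) (hq : q ≤ X / 100) (hh : h ≤ X) {t : ℝ}
    (ht : 0 < t) :
    q * ∑ y ∈ Ioc (X + X / 100) (2 * X), |∑ i ∈ range (h / q), lam (y + i * q) -
      (h / q : ℕ) * (ph q * ind (y.Coprime q))| ≤
      (X * t + ph q * (∑ y ∈ Ioc X (2 * X), vr q h y) / t) / 2 + q * (X * (Real.log (3 * X) + ph q)
        + (h / q : ℕ) * (2 * √(3 * X : ℝ) * Real.log (3 * X))) := by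
  have ht0 := tot_pos (q := q)
  have cX : #(Ioc X (2 * X)) = X := by rw [Nat.card_Ioc]; omega
  have sub : Ioc (X + X / 100) (2 * X) ⊆ Ioc X (2 * X) := Ioc_subset_Ioc_left (by omega)
  have c0 : 0 ≤ Real.log (3 * X) + ph q := add_nonneg
    (by exact_mod_cast Real.log_natCast_nonneg (3 * X)) (div_nonneg (Nat.cast_nonneg _) ht0.le)
  have h1 : ∀ j ∈ range q, ∑ y ∈ Ioc (X + X / 100) (2 * X), |∑ i ∈ range (h / q),
      lam (y + i * q) - (h / q : ℕ) * (ph q * ind (y.Coprime q))| ≤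
      ∑ y ∈ Ioc X (2 * X), ‖tr q h y (y + j : ℕ)‖ / q.totient + (X * (Real.log (3 * X) + ph q)
        + (h / q : ℕ) * (2 * √(3 * X : ℝ) * Real.log (3 * X))) := fun j hj => by
    have hj := mem_range.1 hj
    calc _ ≤ ∑ y ∈ Ioc (X + X / 100) (2 * X), (‖tr q h (y - j) y‖ / q.totient +
          (Real.log (3 * X) + ph q) + ∑ i ∈ range (h / q), pp (y + i * q)) := by
          refine sum_le_sum fun y hy => ?_
          obtain ⟨y1, y2⟩ := mem_Ioc.1 hy
          have := pt (h := h) (y := y - j) (X := X) hj (by omega) (by omega)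
          rwa [Nat.sub_add_cancel (by omega)] at this
      _ ≤ _ := by
          rw [sum_add_distrib, sum_add_distrib, add_assoc]
          refine add_le_add ?_ (add_le_add ?_ ?_)
          · refine (sum_le_sum_of_subset_of_nonneg (t := (Ioc X (2 * X)).image (· + j))
              (fun y hy => ?_) fun _ _ _ => by positivity).trans_eq ?_
            · obtain ⟨y1, y2⟩ := mem_Ioc.1 hy
              exact mem_image.2 ⟨y - j, mem_Ioc.2 ⟨by omega, by omega⟩, by omega⟩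
            · rw [sum_image fun _ _ _ _ e => Nat.add_right_cancel e]
              simp only [Nat.add_sub_cancel]
          · refine (sum_le_sum_of_subset_of_nonneg sub fun _ _ _ => c0).trans_eq ?_
            rw [sum_const, cX, nsmul_eq_mul]
          · rw [sum_comm]
            refine (sum_le_card_nsmul _ _ _ fun i hi => (sum_le_sum_of_subset_of_nonneg sub
              fun _ _ _ => pp_nonneg _).trans (pp_sum hX ?_)).trans_eq
              (by rw [card_range, nsmul_eq_mul])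
            exact ((Nat.mul_le_mul_right q (mem_range.1 hi).le).trans
              (Nat.div_mul_le_self h q)).trans hh
  have h2 := sum_le_sum h1
  rw [sum_const, sum_add_distrib, sum_const, card_range, nsmul_eq_mul, nsmul_eq_mul,
    sum_comm] at h2
  refine h2.trans (add_le_add ((sum_le_sum fun y _ => sum_tr h y ht).trans_eq ?_) le_rfl)
  rw [← sum_div, sum_add_distrib, sum_const, cX, nsmul_eq_mul, ← sum_div, ← mul_sum]

end AplA

open AplA in
theorem apl_n : PHAStmt → VARStmt → APLStmt := by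
  intro pha var A B
  filter_upwards [var (2 * A + 7) B, ev_le_log 3, ev_log_le 192 (2 * (A + 1)),
    ev_log_le (10 ^ 12) (12 * (A + 4)), eventually_ge_atTop (10 ^ 6)] with X hS hL hX hX' hX1
    U h D s s' q T hF
  have hS := hS U h D s s' q T hF
  set L := Real.log X with hLdef
  have hL0 : 0 < L := by linarith
  have hX0 : (0 : ℝ) < X := by exact_mod_cast (by omega : 0 < X)
  have hh4 : (X : ℝ) ≤ (h : ℝ) ^ 4 := by
    have := pow_le_pow_left₀ (by positivity) hF.lo 4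
    rwa [← Real.rpow_natCast, ← Real.rpow_mul hX0.le, show (1 / 4 * (4 : ℕ) : ℝ) = 1 by norm_num,
      Real.rpow_one] at this
  have hh0 : (0 : ℝ) < h := lt_of_lt_of_le (by positivity) hF.lo
  have e1 : Real.log (3 * X) ≤ 2 * L := by
    rw [Real.log_mul (by norm_num) hX0.ne']
    have := Real.log_le_sub_one_of_pos (show (0 : ℝ) < 3 by norm_num)
    linarith
  have h3 : 2 * √(3 * X : ℝ) * Real.log (3 * X) ≤ X / L ^ A / 2 := by
    have e2 : 8 * √(3 * X : ℝ) * L ^ (A + 1) ≤ X := by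
      refine le_trans (le_abs_self _) (abs_le_of_sq_le_sq ?_ hX0.le)
      rw [mul_pow, mul_pow, Real.sq_sqrt (by positivity), ← pow_mul, mul_comm (A + 1) 2]
      calc (8 : ℝ) ^ 2 * (3 * X) * L ^ (2 * (A + 1)) = X * (192 * L ^ (2 * (A + 1))) := by ring
        _ ≤ X * X := mul_le_mul_of_nonneg_left hX hX0.le
        _ = _ := by ring
    rw [div_div, le_div_iff₀ (by positivity)]
    calc 2 * √(3 * X : ℝ) * Real.log (3 * X) * (L ^ A * 2)
        ≤ 2 * √(3 * X : ℝ) * (2 * L) * (L ^ A * 2) := by gcongr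
      _ = 8 * √(3 * X : ℝ) * L ^ (A + 1) := by ring
      _ ≤ X := e2
  have h1 : ∀ u ∈ T, (∑ y ∈ Ioc (X + X / 100) (2 * X), |∑ i ∈ range (h / q u),
      lam (y + i * q u) - (h / q u : ℕ) * (ph (q u) * ind (y.Coprime (q u)))|) / (h / q u : ℕ) ≤
      3 * L ^ (A + 4) / (h : ℝ) ^ 2 * ∑ y ∈ Ioc X (2 * X), vr (q u) h y +
        (2 * (X / L ^ (A + 3)) + X / L ^ A / 2) := fun u hu => by
    obtain ⟨u1, u2⟩ := mem_Ioc.1 (hF.sub hu)
    have q0 : 0 < q u := by
      rw [hF.eq u hu]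
      exact Nat.mul_pos hF.D1 (Nat.mul_pos (pow_pos (by omega) 2) (by omega))
    have q1 : q u ^ 3 ≤ h ^ 2 := by
      have := hF.s1
      have := hF.s2
      have a1 : q u ≤ 54 * D * U ^ 3 := by
        calc q u = D * ((u + s) ^ 2 * (2 * u + s')) := hF.eq u hu
          _ ≤ D * ((3 * U) ^ 2 * (6 * U)) := by gcongr <;> omega
          _ = _ := by ring
      have a2 : U ^ 3 ≤ 54 * D * U ^ 3 := Nat.le_mul_of_pos_left _ (by have := hF.D1; omega)
      exact (Nat.pow_le_pow_left a1 3).trans (Nat.le_of_mul_le_mul_right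
        ((pow_succ _ 3).ge.trans (hF.big.trans (Nat.mul_le_mul_left _ a2))) (by omega))
    generalize q u = Q at q0 q1 ⊢
    have : NeZero Q := ⟨q0.ne'⟩
    have q2 : Q ≤ X / 100 := by
      rw [Nat.le_div_iff_mul_le (by norm_num)]
      refine (Nat.pow_le_pow_iff_left (n := 3) (by norm_num)).1 ?_
      calc (Q * 100) ^ 3 = Q ^ 3 * 100 ^ 3 := mul_pow _ _ _
        _ ≤ X ^ 2 * X := Nat.mul_le_mul (q1.trans (Nat.pow_le_pow_left hF.hi 2))
          (le_trans (by norm_num) hX1)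
        _ = _ := by ring
    have Q0 : (0 : ℝ) < Q := by exact_mod_cast q0
    have q3 : 10 * L ^ (A + 4) * Q ≤ h := by
      refine le_of_pow_le_pow_left₀ (n := 12) (by norm_num) hh0.le ?_
      calc (10 * L ^ (A + 4) * Q) ^ 12 = 10 ^ 12 * L ^ (12 * (A + 4)) * ((Q : ℝ) ^ 3) ^ 4 := by ring
        _ ≤ (h : ℝ) ^ 4 * ((h : ℝ) ^ 2) ^ 4 :=
          mul_le_mul (hX'.trans hh4) (pow_le_pow_left₀ (by positivity) (by exact_mod_cast q1) 4)
            (by positivity) (by positivity)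
        _ = _ := by ring
    have q4 : (h : ℝ) < (h / Q : ℕ) * Q + Q := by exact_mod_cast Nat.lt_div_mul_add q0
    have l1 : 1 ≤ L ^ (A + 4) := one_le_pow₀ (by linarith)
    have q5 : 10 * L ^ (A + 4) < (h / Q : ℕ) + 1 := lt_of_mul_lt_mul_right (by linarith) Q0.le
    have K1 : (1 : ℝ) ≤ (h / Q : ℕ) := by linarith
    have p1 : ph Q ≤ 3 * L := by
      have := Real.log_le_log Q0 (show (Q : ℝ) ≤ X by exact_mod_cast (by omega))
      linarith [(pha.1 Q q0).2]
    have h2 := one (q := Q) (by omega) q2 hF.hi (t := h / L ^ (A + 3)) (by positivity)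
    have v0 : 0 ≤ ∑ y ∈ Ioc X (2 * X), vr Q h y :=
      sum_nonneg fun _ _ => sum_nonneg fun _ _ => by positivity
    generalize ∑ y ∈ Ioc X (2 * X), vr Q h y = V at h2 v0 ⊢
    generalize ((h / Q : ℕ) : ℝ) = K at h2 q4 q5 K1 ⊢
    have a1 : (X * (h / L ^ (A + 3)) + ph Q * V / (h / L ^ (A + 3))) / 2 ≤
        (3 * L ^ (A + 4) / (h : ℝ) ^ 2 * V + X / L ^ (A + 3)) * (K * Q) := by
      calc _ ≤ (X * (h / L ^ (A + 3)) + 3 * L * V / (h / L ^ (A + 3))) / 2 := by gcongr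
        _ = (3 * L ^ (A + 4) / (h : ℝ) ^ 2 * V + X / L ^ (A + 3)) * (h / 2) := by
          field_simp
          ring
        _ ≤ _ := by
          gcongr
          nlinarith
    have a2 : X * (Real.log (3 * X) + ph Q) ≤ X / L ^ (A + 3) * K := by
      calc _ ≤ X * (5 * L) := by gcongr; linarith
        _ = X / L ^ (A + 3) * (5 * L ^ (A + 4)) := by field_simp; ring
        _ ≤ _ := by gcongr; linarith
    have a3 := mul_le_mul_of_nonneg_left h3 (zero_le_one.trans K1)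
    rw [div_le_iff₀ (by linarith)]
    refine le_of_mul_le_mul_left (h2.trans ?_) Q0
    have := mul_le_mul_of_nonneg_left (add_le_add a2 a3) Q0.le
    linarith
  have cT : (#T : ℝ) ≤ U := by
    have := card_le_card hF.sub
    rw [Nat.card_Ioc] at this
    exact_mod_cast (by omega)
  refine (sum_le_sum h1).trans ?_
  rw [sum_add_distrib, ← mul_sum, sum_const, nsmul_eq_mul]
  have b1 := mul_le_mul_of_nonneg_left hS (show 0 ≤ 3 * L ^ (A + 4) / (h : ℝ) ^ 2 by positivity)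
  have b2 : 3 * L ^ (A + 4) / (h : ℝ) ^ 2 * ((U : ℝ) * (h : ℝ) ^ 2 * X / L ^ (2 * A + 7)) =
      U * (3 * (X / L ^ (A + 3))) := by
    field_simp
    ring
  have b3 : (X : ℝ) / L ^ (A + 3) ≤ X / L ^ A / 10 := by
    rw [div_div, pow_add]
    gcongr
    exact le_trans (by norm_num) (pow_le_pow_left₀ (by norm_num) hL 3)
  have b4 := mul_le_mul_of_nonneg_right cT
    (show (0 : ℝ) ≤ 2 * (X / L ^ (A + 3)) + X / L ^ A / 2 by positivity)
  have b5 := mul_le_mul_of_nonneg_left b3 (Nat.cast_nonneg (α := ℝ) U)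
  rw [b2] at b1
  refine (add_le_add b1 b4).trans ?_
  rw [mul_div_assoc]
  linarith

end Pool.Agent.MP_a43263_nt.N2

end

end PkN2Apl

section PkN2Mone

/-! THEOREM N2: the first moment. -/

set_option autoImplicit false

noncomputable section

namespace Pool.Agent.MP_a43263_nt.N2

open Finset Filter K2

namespace MoneA

variable {g k v N d a m u x U z p : ℕ}

theorem card_cls (r a U : ℕ) (hr : 0 < r) (h : r ≤ U) :
    (((Ioc U (2 * U)).filter fun u => u ≡ a [MOD r]).card : ℝ) ≤ 2 * (U / (r : ℝ)) := by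
  have e := Nat.Ioc_filter_modEq_card U (2 * U) hr a
  have r0 : (0 : ℚ) < r := by exact_mod_cast hr
  have b1 := Int.floor_le ((((2 * U : ℕ) : ℚ) - a) / r)
  have b2 := Int.lt_floor_add_one (((U : ℚ) - a) / r)
  have b3 : (1 : ℚ) ≤ U / r := (one_le_div r0).2 (by exact_mod_cast h)
  have b4 : (((2 * U : ℕ) : ℚ) - a) / r = ((U : ℚ) - a) / r + U / r := by
    push_cast
    ring
  have f : (((Ioc U (2 * U)).filter fun u => u ≡ a [MOD r]).card : ℚ) ≤ 2 * (U / (r : ℚ)) := by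
    have e' := congrArg (fun t : ℤ => (t : ℚ)) e
    simp only [Int.cast_natCast, Int.cast_max, Int.cast_sub, Int.cast_zero] at e'
    rw [e']
    exact max_le (by linarith) (by linarith)
  have f' := (Rat.cast_le (K := ℝ)).2 f
  push_cast at f'
  exact f'

theorem two_le_xp (hg : 1 ≤ g) (i : ℕ) : 2 ≤ xp g i := by
  unfold xp
  split_ifs <;> omega

theorem vol_nonneg : 0 ≤ vol g k := by unfold vol; positivity

theorem box (cbx : CBXStmt) (hg : 1 ≤ g) (hk : 1 ≤ k) (r : Vec g) (M : Fin (2 * g + 1) → ℕ)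
    (hM : ∀ i, 0 < M i) (hm : 0 < m) (c1 : m.Coprime (x * v))
    (c2 : ∀ i, i.1 + 1 = 2 * g → m.Coprime (M i)) (hs : ∀ i, M i * m ≤ k ^ 2) :
    cnt g k (fun w => (∀ i, (M i : ℤ) ∣ w i - r i) ∧ (m : ℤ) ∣ Gv w x v) ≤
      3 ^ (2 * g + 1) * vol g k / ((∏ i, (M i : ℝ)) * m) := by
  classical
  rw [cnt_eq_card]
  refine (cbx g (fun i => ce g k i.1 - (k : ℤ) ^ xp g i.1) r (fun i => 2 * k ^ xp g i.1) M m x v
    hg hM hm c1 c2 _ fun w => ?_).1.trans ?_
  · simp only [mem_filter, mem_bx]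
    refine and_congr_left fun _ => forall_congr' fun i => and_congr_right fun _ => ?_
    push_cast
    constructor <;> intro h <;> linarith
  · have e : ∏ i : Fin (2 * g + 1), (if i.1 + 1 = 2 * g then (m : ℝ) else 1) = m := by
      rw [Fintype.prod_eq_single (⟨2 * g - 1, by omega⟩ : Fin (2 * g + 1))
        fun i hi => if_neg fun e => hi (Fin.ext (by simp only; omega)), if_pos (by simp only; omega)]
    have e3 : (3 : ℝ) ^ (2 * g + 1) = ∏ _i : Fin (2 * g + 1), (3 : ℝ) := by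
      rw [prod_const, card_univ, Fintype.card_fin]
    rw [GeoA.vol_eq, e3, ← prod_mul_distrib, ← e, ← prod_mul_distrib, ← prod_div_distrib]
    refine prod_le_prod (fun i _ => by split_ifs <;> positivity) fun i _ => ?_
    have m1 : (1 : ℝ) ≤ m := by exact_mod_cast hm
    have M0 : (0 : ℝ) < M i := by exact_mod_cast hM i
    have h1 : (M i : ℝ) * m ≤ (k : ℝ) ^ xp g i.1 := by
      exact_mod_cast (hs i).trans (Nat.pow_le_pow_right hk (two_le_xp hg i.1))
    have h2 : (M i : ℝ) * (if i.1 + 1 = 2 * g then (m : ℝ) else 1) ≤ (k : ℝ) ^ xp g i.1 := by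
      split_ifs
      · exact h1
      · nlinarith
    have h3 : 0 < (M i : ℝ) * (if i.1 + 1 = 2 * g then (m : ℝ) else 1) := by
      split_ifs <;> positivity
    push_cast
    rw [div_add_one h3.ne']
    gcongr
    linarith

theorem box1 (cbx : CBXStmt) (hg : 1 ≤ g) (hk : 1 ≤ k) (wb : Vec g) (hN : 0 < N) (hm : 0 < m)
    (c1 : m.Coprime (x * v)) (c2 : m.Coprime N) (hs : N ^ 2 * m ≤ k ^ 2) :
    cnt g k (Cm v N m wb x) ≤ 3 ^ (2 * g + 1) * (vol g k / (m * (N : ℝ) ^ (2 * (2 * g + 1)))) := by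
  refine le_trans (cnt_mono fun w _ h => ?_) ((box cbx hg hk wb (fun _ => N ^ 2)
    (fun _ => by positivity) hm c1 (fun _ _ => c2.pow_right 2) fun _ => hs).trans_eq ?_)
  · exact ⟨fun i => by exact_mod_cast h.1 i, h.2⟩
  · rw [prod_const, card_univ, Fintype.card_fin]
    push_cast
    ring

theorem box2 (cbx : CBXStmt) (hg : 1 ≤ g) (hk : 1 ≤ k) (wb : Vec g) (hN : 0 < N) (hm : 0 < m)
    (c1 : m.Coprime (x * v)) (c2 : m.Coprime N) (hp : 0 < p) (c3 : N.Coprime p)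
    (hs : N ^ 2 * p * m ≤ k ^ 2) :
    cnt g k (fun w => Cm v N m wb x w ∧ (p : ℤ) ∣ w (Fin.last _)) ≤
      3 ^ (2 * g + 1) * (vol g k / (m * (N : ℝ) ^ (2 * (2 * g + 1)))) * (1 / (p : ℝ)) := by
  have c4 : IsCoprime ((N : ℤ) ^ 2) p := (Nat.isCoprime_iff_coprime.2 c3).pow_left
  obtain ⟨α, β, e⟩ := id c4
  refine le_trans (cnt_mono fun w _ h => ?_) ((box cbx hg hk
    (fun i => if i = Fin.last _ then wb i * (β * p) else wb i)
    (fun i => N ^ 2 * if i = Fin.last _ then p else 1)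
    (fun _ => by split_ifs <;> positivity) hm c1 (fun i hi => ?_) fun i => ?_).trans_eq ?_)
  · refine ⟨fun i => ?_, h.1.2⟩
    by_cases q : i = Fin.last _
    · subst q
      simp only [if_true]
      push_cast
      refine c4.mul_dvd ?_ (dvd_sub h.2 ((dvd_mul_left _ _).mul_left _))
      have : w (Fin.last _) - wb (Fin.last _) * (β * p) =
          w (Fin.last _) - wb (Fin.last _) + (N : ℤ) ^ 2 * (α * wb (Fin.last _)) := by
        linear_combination (-wb (Fin.last _)) * e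
      rw [this]
      exact dvd_add (h.1.1 _) (dvd_mul_right _ _)
    · simp only [if_neg q, mul_one]
      exact_mod_cast h.1.1 i
  · rw [if_neg fun q => by rw [q, Fin.val_last] at hi; omega, mul_one]
    exact c2.pow_right 2
  · refine le_trans ?_ hs
    split_ifs
    · exact le_rfl
    · gcongr
      exact hp
  · simp only [Nat.cast_mul, Nat.cast_pow, Nat.cast_ite, Nat.cast_one]
    rw [prod_mul_distrib, prod_const, card_univ, Fintype.card_fin, prod_ite_eq', if_pos (mem_univ _)]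
    ring

theorem gv_zero (w : Vec g) (v : ℤ) : Gv w 0 v = w (Fin.last _) ^ 2 * (v ^ 2) ^ (2 * g + 1) := by
  rw [Gv, sum_eq_single (Fin.last _) (fun i _ hi => ?_) fun h => absurd (mem_univ _) h]
  · simp [sv]
  · have : 2 * g - i.1 ≠ 0 := by have := Fin.val_lt_last hi; omega
    simp [this]

theorem gv_dvd (w : Vec g) (h : p ∣ x) :
    (p : ℤ) ∣ Gv w x v ↔ (p : ℤ) ∣ w (Fin.last _) ^ 2 * ((v : ℤ) ^ 2) ^ (2 * g + 1) := by
  rw [← gv_zero]
  exact (GeoA.gv_mod (M := p) (w := w) (w' := w) (u := x) (u' := 0) v (fun _ => rfl)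
    (Int.natCast_dvd_natCast.2 h).modEq_zero_int).dvd_iff

theorem adm {wb w : Vec g} (hN : 0 < N) (hd : d ∣ N) (h : Ad1 v N d wb a) (hx : x ≡ a [MOD N ^ 2])
    (hw : Cw N wb w) : Ad1 v N d w x :=
  GeoA.quot hN hd (c := 1) (by
    rw [one_mul]
    exact GeoA.gv_mod _ (fun i => Int.modEq_iff_dvd.2 (by exact_mod_cast hw i))
      (Int.natCast_modEq_iff.2 hx.symm)) isCoprime_one_left h

theorem cm_shift {wb w : Vec g} (s : ℕ) : Cm v N m wb (u + m * s) w ↔ Cm v N m wb u w :=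
  and_congr_right fun _ => (GeoA.gv_mod (M := m) (w := w) (w' := w) v (fun _ => rfl)
    (Int.natCast_modEq_iff.2 (Nat.ModEq.symm (by simp [Nat.ModEq])))).dvd_iff

theorem sh_dvd (t x y : ℤ) (i : Fin (2 * g + 1)) : (N : ℤ) ^ 2 ∣ sh g ((N : ℤ) ^ 2 * t) x y i := by
  unfold sh
  split_ifs
  exacts [(dvd_mul_right _ _).mul_right _, (dvd_mul_right _ _).mul_right _, dvd_zero _]

theorem cop_v {wb : Vec g} (h : Ad1 v N d wb a) (hd : d.Coprime v)
    (hv : ∀ p : ℕ, p.Prime → p ∣ v → p ∣ N) (hp : p.Prime) (h1 : p ∣ v) : ¬p ∣ a := fun h2 => by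
  have b1 : (p : ℤ) ∣ Gv wb a v := (gv_dvd wb h2).2
    ((((Int.natCast_dvd_natCast.2 h1).trans (dvd_pow_self _ two_ne_zero)).trans
      (dvd_pow_self _ (Nat.succ_ne_zero _))).mul_left _)
  have pz := Nat.prime_iff_prime_int.1 hp
  rw [← Int.mul_ediv_cancel' h.1] at b1
  rcases pz.dvd_or_dvd b1 with e | e
  · exact hp.one_lt.ne' (Nat.eq_one_of_dvd_coprimes hd (Int.natCast_dvd_natCast.1 e) h1)
  · exact pz.not_isUnit (h.2.isUnit_of_dvd' e (Int.natCast_dvd_natCast.2 (hv p hp h1)))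

theorem ex_nonneg (N z x : ℕ) : 0 ≤ ex N z x := sum_nonneg fun _ _ => by positivity

theorem ex_one (hz : 1 ≤ z) : ex N z 1 = 0 :=
  sum_eq_zero fun e he => by
    obtain ⟨h1, h2, -⟩ := mem_filter.1 he
    have := Nat.dvd_one.1 (Nat.dvd_of_mem_divisors h1)
    omega

theorem md_dvd {wb w : Vec g} (hN : 0 < N) (hd : d ∣ N) (h : Ad1 v N d wb a)
    (hx : x ≡ a [MOD N ^ 2]) (c : m.Coprime N) (hw : Cm v N m wb x w) :
    ((m * d : ℕ) : ℤ) ∣ Gv w x v := by
  push_cast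
  exact (Nat.isCoprime_iff_coprime.2 (c.coprime_dvd_right hd)).mul_dvd hw.2 (adm hN hd h hx hw.1).1

/-- the vectors whose cofactor is not coprime to the modulus -/
theorem bad (cbx : CBXStmt) (hg : 1 ≤ g) (hk : 1 ≤ k) {wb : Vec g} {s y D : ℕ} (hN : 0 < N)
    (hz : ∀ p : ℕ, p.Prime → (p ∣ N ↔ p ≤ z)) (v0 : 0 < v) (vz : v ≤ z) (hd : d ∣ N)
    (h : Ad1 v N d wb a) (hm : 0 < m) (c1 : m.Coprime N) (c2 : m.Coprime v) (c3 : u.Coprime m)
    (hx : x = u + m * s) (xa : x ≡ a [MOD N ^ 2]) (x0 : 0 < x) (xy : x ≤ y)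
    (hs : N ^ 2 * y * m ≤ k ^ 2) (hD : ∀ p : ℕ, p.Prime → p ∣ D → p ≤ z)
    (h0 : ∀ w ∈ bx g k, 0 ≤ Gv w x v)
    (p3 : ∀ x : ℕ, ∑ p ∈ x.primeFactors.filter (fun p => z < p), 1 / (p : ℝ) ≤ ex N z x) :
    cnt g k (fun w => Cm v N m wb u w ∧ ¬(co (m * d) w x v).Coprime (D * 1 * (x ^ 2 * y))) ≤
      3 ^ (2 * g + 1) * (vol g k / (m * (N : ℝ) ^ (2 * (2 * g + 1)))) * (ex N z x + ex N z y) := by
  obtain ⟨W, hW⟩ : ∃ W : ℝ, W = 3 ^ (2 * g + 1) *
    (vol g k / (m * (N : ℝ) ^ (2 * (2 * g + 1)))) := ⟨_, rfl⟩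
  have W0 : 0 ≤ W := by have := vol_nonneg (g := g) (k := k); rw [hW]; positivity
  have y0 : 0 < y := x0.trans_le xy
  have nv : ∀ p : ℕ, z < p → ¬p ∣ v := fun p a b => by have := Nat.le_of_dvd v0 b; omega
  have cN : ∀ p : ℕ, p.Prime → z < p → p.Coprime N := fun p a b =>
    (Nat.Prime.coprime_iff_not_dvd a).2 fun e => by have := (hz p a).1 e; omega
  have mx : m.Coprime x := by
    rw [hx]
    exact (Nat.coprime_add_mul_left_right _ _ _).2 c3.symm
  have sz : ∀ p ≤ y, N ^ 2 * p * m ≤ k ^ 2 := fun p e => le_trans (by gcongr) hs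
  rw [← hW, mul_add]
  refine (cnt_le_add
    (Q := fun w => ∃ p ∈ x.primeFactors.filter (fun p => z < p),
      Cm v N m wb u w ∧ (p : ℤ) ∣ w (Fin.last _))
    (R := fun w => ∃ p ∈ (y.primeFactors.filter (fun p => z < p)).filter (fun p => ¬p ∣ x),
      Cm v N (m * p) wb x w) ?_).trans (add_le_add ?_ ?_)
  · rintro w hw ⟨h1, h2⟩
    obtain ⟨p, a1, a2, a3⟩ := Nat.Prime.not_coprime_iff_dvd.1 h2
    have h1' : Cm v N m wb x w := by rw [hx]; exact_mod_cast (cm_shift s).2 h1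
    obtain ⟨G, hG⟩ := md_dvd hN hd h xa c1 h1'
    have d0 : 0 < d := Nat.pos_of_dvd_of_pos hd hN
    have md : ((m * d : ℕ) : ℤ) ≠ 0 := by positivity
    have b4 : (p : ℤ) ∣ G := by
      have := Int.natCast_dvd_natCast.2 a2
      rwa [co, Int.toNat_of_nonneg (Int.ediv_nonneg (h0 w hw) (Nat.cast_nonneg _)), hG,
        Int.mul_ediv_cancel_left _ md] at this
    have b2 := (adm hN hd h xa h1.1).2
    rw [hG, show ((m * d : ℕ) : ℤ) * G = d * (m * G) by push_cast; ring,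
      Int.mul_ediv_cancel_left _ (by positivity)] at b2
    have pz := Nat.prime_iff_prime_int.1 a1
    have b7 : z < p := not_le.1 fun e => pz.not_isUnit
      (b2.isUnit_of_dvd' (b4.mul_left _) (Int.natCast_dvd_natCast.2 ((hz p a1).2 e)))
    by_cases q : p ∣ x
    · refine Or.inl ⟨p, mem_filter.2 ⟨Nat.mem_primeFactors.2 ⟨a1, q, x0.ne'⟩, b7⟩, h1, ?_⟩
      rcases pz.dvd_or_dvd ((gv_dvd w q).1 (hG ▸ b4.mul_left _)) with e | e
      · exact pz.dvd_of_dvd_pow e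
      · exact absurd (Int.natCast_dvd_natCast.1 (pz.dvd_of_dvd_pow (pz.dvd_of_dvd_pow e))) (nv p b7)
    · refine Or.inr ⟨p, mem_filter.2 ⟨mem_filter.2 ⟨Nat.mem_primeFactors.2 ⟨a1, ?_, y0.ne'⟩, b7⟩,
        q⟩, h1.1, ?_⟩
      · rw [mul_one] at a3
        rcases (Nat.Prime.dvd_mul a1).1 a3 with e | e
        · exact absurd (hD p a1 e) (by omega)
        · exact ((Nat.Prime.dvd_mul a1).1 e).resolve_left fun f => q (a1.dvd_of_dvd_pow f)
      · rw [hG]
        push_cast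
        rw [mul_assoc]
        exact mul_dvd_mul_left _ (b4.mul_left _)
  · refine (cnt_le_sum _ _ fun _ _ h => h).trans (le_trans (sum_le_sum fun p hp => ?_)
      ((mul_sum _ _ W).symm.trans_le (mul_le_mul_of_nonneg_left (p3 x) W0)))
    obtain ⟨a1, a2⟩ := mem_filter.1 hp
    have pp := Nat.prime_of_mem_primeFactors a1
    rw [hW]
    exact box2 cbx hg hk wb hN hm (Nat.Coprime.mul_right c3.symm c2) c1 pp.pos (cN p pp a2).symm
      (sz p ((Nat.le_of_mem_primeFactors a1).trans xy))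
  · refine (cnt_le_sum _ _ fun _ _ h => h).trans (le_trans (sum_le_sum
      (g := fun p : ℕ => W * (1 / (p : ℝ))) fun p hp => ?_)
      ((sum_le_sum_of_subset_of_nonneg (filter_subset _ _) fun _ _ _ => by positivity).trans
      ((mul_sum _ _ W).symm.trans_le (mul_le_mul_of_nonneg_left (p3 y) W0))))
    obtain ⟨a0, a3⟩ := mem_filter.1 hp
    obtain ⟨a1, a2⟩ := mem_filter.1 a0
    have pp := Nat.prime_of_mem_primeFactors a1
    refine (box1 cbx hg hk wb hN (Nat.mul_pos hm pp.pos) (Nat.Coprime.mul_left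
      (Nat.Coprime.mul_right mx c2) (Nat.Coprime.mul_right ((Nat.Prime.coprime_iff_not_dvd pp).2 a3)
        ((Nat.Prime.coprime_iff_not_dvd pp).2 (nv p a2)))) (Nat.Coprime.mul_left c1 (cN p pp a2))
      ?_).trans_eq ?_
    · exact le_trans (le_of_eq (by ring)) (sz p (Nat.le_of_mem_primeFactors a1))
    · rw [hW]
      push_cast
      ring

theorem fin (T : Finset ℕ) (S q c b E : ℕ → ℝ) {P V Y e ε r η : ℝ}
    (h : ∑ u ∈ T, |S u - q u * (c u - b u)| ≤ ε * (V * Y))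
    (hu : ∀ u ∈ T, P ≤ q u ∧ q u ≤ P * (1 + 2 * E u) ∧ 0 ≤ b u ∧ b u ≤ c u ∧ c u ≤ e * V ∧
      b u ≤ e * V * E u ∧ 0 ≤ E u)
    (hE : ∑ u ∈ T, E u ≤ (4 * r + 2 * ε) * Y) (hT : (T.card : ℝ) ≤ 2 * Y) (P1 : 1 ≤ P)
    (e1 : 1 ≤ e) (r0 : 0 ≤ r) (r1 : r ≤ 1) (ε0 : 0 ≤ ε) (ε1 : ε ≤ 1) (hη : 3 * e * ε ≤ η)
    (V0 : 0 ≤ V) (Y0 : 0 ≤ Y) :
    P * (∑ u ∈ T, c u - (η + 15 * e * r) * (V * Y)) ≤ ∑ u ∈ T, S u ∧
      ∑ u ∈ T, S u ≤ 15 * e * P * (V * Y) := by
  have R0 : 0 ≤ V * Y := by positivity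
  have x1 : ε * (V * Y) ≤ P * (e * ε * (V * Y)) := by
    have : ε * (V * Y) * 1 ≤ ε * (V * Y) * (P * e) := by
      gcongr
      exact one_le_mul_of_one_le_of_one_le P1 e1
    linarith
  have x2 : P * (e * V) * ∑ u ∈ T, E u ≤ P * (e * V) * ((4 * r + 2 * ε) * Y) := by gcongr
  constructor
  · have l : ∑ u ∈ T, (P * c u - P * (e * V) * E u - |S u - q u * (c u - b u)|) ≤ ∑ u ∈ T, S u :=
      sum_le_sum fun u hu' => by
        obtain ⟨a1, -, -, a4, -, a6, -⟩ := hu u hu'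
        have y1 := neg_abs_le (S u - q u * (c u - b u))
        have y2 : P * (c u - b u) ≤ q u * (c u - b u) := by gcongr
        have y3 : P * b u ≤ P * (e * V * E u) := by gcongr
        linarith
    rw [sum_sub_distrib, sum_sub_distrib, ← mul_sum, ← mul_sum] at l
    have x3 : P * (3 * e * ε * (V * Y)) ≤ P * (η * (V * Y)) := by gcongr
    have x4 : 0 ≤ P * (e * r * (V * Y)) := by positivity
    linarith
  · have l : ∑ u ∈ T, S u ≤
        ∑ u ∈ T, (P * (e * V) + 2 * (P * (e * V)) * E u + |S u - q u * (c u - b u)|) :=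
      sum_le_sum fun u hu' => by
        obtain ⟨a1, a2, a3, a4, a5, -, a7⟩ := hu u hu'
        have y1 := le_abs_self (S u - q u * (c u - b u))
        have y2 : q u * (c u - b u) ≤ P * (1 + 2 * E u) * (e * V) :=
          mul_le_mul a2 (by linarith) (by linarith) (by positivity)
        linarith
    rw [sum_add_distrib, sum_add_distrib, sum_const, nsmul_eq_mul, ← mul_sum] at l
    have x3 : (T.card : ℝ) * (P * (e * V)) ≤ 2 * Y * (P * (e * V)) := by gcongr
    have x4 : P * e * (V * Y) * r ≤ P * e * (V * Y) * 1 := by gcongr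
    have x5 : P * e * (V * Y) * ε ≤ P * e * (V * Y) * 1 := by gcongr
    linarith

theorem evU (c : ℝ) : ∀ᶠ k : ℕ in atTop, ∀ U : ℕ, k ≤ U ^ 3 → c ≤ U := by
  filter_upwards [tendsto_natCast_atTop_atTop.eventually_ge_atTop (c ^ 3)] with k hk U h
  exact le_of_pow_le_pow_left₀ three_ne_zero (Nat.cast_nonneg U) (hk.trans (by exact_mod_cast h))

/-- the weight of a cofactor is bounded -/
theorem lam_co {w : Vec g} (a0 : 0 ≤ Gv w x v) (b : Gv w x v ≤ 65 * ((k : ℤ) * v) ^ (4 * g + 2))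
    (k2 : 65 * v ^ (4 * g + 2) ≤ k) : lam (co d w x v) ≤ (4 * g + 3) * Real.log k := by
  have l := Real.log_natCast_nonneg k
  have c : (co d w x v : ℤ) ≤ 65 * ((k : ℤ) * v) ^ (4 * g + 2) := by
    rw [co, Int.toNat_of_nonneg (Int.ediv_nonneg a0 (Nat.cast_nonneg d))]
    exact (Int.ediv_le_self _ a0).trans b
  have c' : co d w x v ≤ 65 * (k * v) ^ (4 * g + 2) := by exact_mod_cast c
  have e : co d w x v ≤ k ^ (4 * g + 3) := by
    calc _ ≤ k ^ (4 * g + 2) * (65 * v ^ (4 * g + 2)) := c'.trans_eq (by ring)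
      _ ≤ k ^ (4 * g + 2) * k := by gcongr
      _ = _ := by ring
  unfold lam
  split_ifs with h
  · have := Real.log_le_log (by exact_mod_cast h.pos) ((Nat.cast_le (α := ℝ)).2 e)
    rw [Nat.cast_pow, Real.log_pow] at this
    exact_mod_cast this
  · positivity

theorem small {s : ℕ} (h1 : m ^ 12 ≤ k) (h2 : k ≤ U ^ 3) (h3 : (s : ℝ) ≤ 2 * Real.log k ^ 3)
    (h4 : 16 * Real.log k ^ 12 ≤ k) : m * s ≤ U := by
  have a : m ^ 4 ≤ U := (Nat.pow_le_pow_iff_left three_ne_zero).1 (by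
    rw [← pow_mul]
    exact h1.trans h2)
  have b : s ^ 4 ≤ k := by
    have : (s : ℝ) ^ 4 ≤ (2 * Real.log k ^ 3) ^ 4 := by gcongr
    exact_mod_cast (this.trans_eq (by ring)).trans h4
  refine (Nat.pow_le_pow_iff_left four_ne_zero).1 ?_
  calc (m * s) ^ 4 = m ^ 4 * s ^ 4 := mul_pow _ _ _
    _ ≤ U * U ^ 3 := Nat.mul_le_mul a (b.trans h2)
    _ = _ := by ring

end MoneA

open MoneA in
theorem m1_n : GEOStmt → CBXStmt → SIZStmt → PHAStmt → PHBStmt → MOMStmt → M1Stmt := by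
  intro geo cbx siz pha phb mom g v hg hv
  obtain ⟨e, he⟩ : ∃ e : ℝ, e = 3 ^ (2 * g + 1) := ⟨_, rfl⟩
  have e1 : 1 ≤ e := he ▸ one_le_pow₀ (by norm_num)
  refine ⟨15 * e, by positivity, fun z d a wb vz z0 hd dv da ad η η0 => ?_⟩
  obtain ⟨-, g2, -⟩ := geo g hg
  have hN : 0 < primorial z := primorial_pos z
  have hz : ∀ p : ℕ, p.Prime → (p ∣ primorial z ↔ p ≤ z) := fun p hp => hp.dvd_primorial_iff
  have pb := phb (primorial z) z hN ((hz 2 Nat.prime_two).2 (by omega)) (by omega)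
  have pa := fun D x y => pha.2 z D 1 x x y z0
  have P1 := (pha.1 _ hN).1
  generalize primorial z = N at *
  have v0 : 0 < v := lt_of_lt_of_le (by omega) hv.ge
  have vN : ∀ p : ℕ, p.Prime → p ∣ v → p ∣ N := fun p hp h =>
    (hz p hp).2 ((Nat.le_of_dvd v0 h).trans vz)
  have N0 : (0 : ℝ) < N := by exact_mod_cast hN
  obtain ⟨ε, ε0, ε1, ε2⟩ : ∃ ε : ℝ, 0 < ε ∧ ε ≤ 1 ∧ 3 * e * ε ≤ η :=
    ⟨min 1 (η / (3 * e)), lt_min one_pos (by positivity), min_le_left _ _,
      (le_div_iff₀' (by positivity)).1 (min_le_right _ _)⟩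
  obtain ⟨D, hD⟩ : ∃ D : ℕ, D = N ^ 2 / d * v ^ (4 * g) * N ^ 2 := ⟨_, rfl⟩
  have dN : d ∣ N ^ 2 := hd.trans (dvd_pow_self N two_ne_zero)
  have D0 : 0 < D := by
    have : 0 < N ^ 2 / d :=
      Nat.div_pos (Nat.le_of_dvd (by positivity) dN) (Nat.pos_of_dvd_of_pos hd hN)
    rw [hD]
    positivity
  have D1 : N ∣ D := hD ▸ (dvd_pow_self N two_ne_zero).mul_left _
  have D2 : ∀ p : ℕ, p.Prime → p ∣ D → p ≤ z := fun p hp h => by
    rw [hD] at h
    refine (hz p hp).1 ?_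
    rcases (Nat.Prime.dvd_mul hp).1 h with h | h
    · rcases (Nat.Prime.dvd_mul hp).1 h with h | h
      · exact hp.dvd_of_dvd_pow (h.trans (Nat.div_dvd_of_dvd dN))
      · exact vN p hp (hp.dvd_of_dvd_pow h)
    · exact hp.dvd_of_dvd_pow h
  filter_upwards [siz g v hg hv, mom g v N d 1 hg hv hN hd, ev_le_log ((N : ℝ) ^ 2),
    ev_log_le 16 12, eventually_ge_atTop (65 * v ^ (4 * g + 2)),
    eventually_ge_atTop ((5 * N ^ 2) ^ 2),
    ev_le_log ((N : ℝ) ^ (2 * (2 * g + 1)) * (N : ℝ) ^ 2 / ε), evU ((N : ℝ) ^ 2),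
    evU ((5 * (N : ℝ) ^ 2 / ε) ^ 2), eventually_ge_atTop 1]
    with k k1 k2 k3 k4 k5 k6 k7 k8 k9 hk U m ur hm mk c1
  have N1 : (1 : ℝ) ≤ (N : ℝ) ^ 2 := one_le_pow₀ (by exact_mod_cast hN)
  have l1 : 1 ≤ Real.log k := N1.trans k3
  have NU : N ^ 2 ≤ U := by exact_mod_cast k8 U ur.lo
  have U1 : 1 ≤ U := le_trans (Nat.pow_pos hN) NU
  have Uk := ur.hi
  have c2 : m.Coprime v := Nat.coprime_of_dvd fun p hp a b =>
    hp.one_lt.ne' (Nat.eq_one_of_dvd_coprimes c1 a (vN p hp b))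
  have s5 : 5 * N ^ 2 * m ≤ k := (Nat.pow_le_pow_iff_left two_ne_zero).1 (by
    rw [mul_pow, sq k]
    exact Nat.mul_le_mul k6 ((Nat.pow_le_pow_right hm (by omega)).trans mk))
  have sz : ∀ y ≤ 5 * k, N ^ 2 * y * m ≤ k ^ 2 := fun y h =>
    calc N ^ 2 * y * m ≤ N ^ 2 * (5 * k) * m := by gcongr
      _ = k * (5 * N ^ 2 * m) := by ring
      _ ≤ k * k := by gcongr
      _ = _ := by ring
  obtain ⟨V, hV⟩ : ∃ V : ℝ, V = vol g k / (m * (N : ℝ) ^ (2 * (2 * g + 1))) := ⟨_, rfl⟩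
  obtain ⟨Y, hY⟩ : ∃ Y : ℝ, Y = U / (N : ℝ) ^ 2 := ⟨_, rfl⟩
  have w0 := vol_nonneg (g := g) (k := k)
  have V0 : 0 ≤ V := by rw [hV]; positivity
  have Y0 : 0 ≤ Y := by rw [hY]; positivity
  have hR : rf g k N m U = V * Y := by rw [rf, hV, hY]
  have sub : Us N a m U ⊆ (Ioc U (2 * U)).filter fun u => u ≡ a [MOD N ^ 2] :=
    monotone_filter_right _ fun _ _ h => h.1
  have hT : ((Us N a m U).card : ℝ) ≤ 2 * Y := by
    have := card_cls (N ^ 2) a U (by positivity) NU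
    rw [Nat.cast_pow, ← hY] at this
    exact le_trans (by exact_mod_cast card_le_card sub) this
  have cu : ∀ u ∈ Us N a m U, cnt g k (Cm v N m wb u) ≤ e * V := fun u hu => by
    rw [he, hV]
    exact box1 cbx hg hk wb hN hm (Nat.Coprime.mul_right (mem_filter.1 hu).2.2.symm c2) c1
      (by simpa using sz 1 (by omega))
  rw [hR]
  refine ⟨?_, fun j hj => ?_⟩
  · have a1 := sum_le_card_nsmul _ _ _ cu
    rw [nsmul_eq_mul] at a1
    have a2 : ((Us N a m U).card : ℝ) * (e * V) ≤ 2 * Y * (e * V) := by gcongr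
    have a3 : 0 ≤ e * (V * Y) := by positivity
    linarith
  have j1 : ((N ^ 2 * (j + 1) : ℕ) : ℝ) ≤ Real.log k ^ 3 := by
    have : ((j + 1 : ℕ) : ℝ) ≤ Real.log k ^ 2 :=
      le_trans (by exact_mod_cast mem_range.1 hj) (nl_le k)
    rw [Nat.cast_mul, Nat.cast_pow, pow_succ' _ 2]
    gcongr
  have jj : N ^ 2 * j < N ^ 2 * (j + 1) := Nat.mul_lt_mul_of_pos_left j.lt_succ_self (by positivity)
  have ja : (((N ^ 2 * j : ℕ) : ℤ) - (N ^ 2 * (j + 1) : ℕ)).natAbs = N ^ 2 := by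
    rw [show ((N ^ 2 * j : ℕ) : ℤ) - (N ^ 2 * (j + 1) : ℕ) = -((N ^ 2 : ℕ) : ℤ) by push_cast; ring,
      Int.natAbs_neg, Int.natAbs_natCast]
  have xa : ∀ u ∈ Us N a m U, u + m * (N ^ 2 * j) ≡ a [MOD N ^ 2] := fun u hu => by
    have : m * (N ^ 2 * j) ≡ 0 [MOD N ^ 2] :=
      Nat.modEq_zero_iff_dvd.2 ((dvd_mul_right _ _).mul_left _)
    exact (mem_filter.1 hu).2.1.add this
  simp only [pu]
  generalize N ^ 2 * j = s at *
  generalize N ^ 2 * (j + 1) = s' at *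
  have j0 : (s : ℝ) ≤ Real.log k ^ 3 := le_trans (by exact_mod_cast jj.le) j1
  have ms : m * (s + s') ≤ U := small mk ur.lo (by push_cast; linarith) k4
  have ms' : m * s ≤ m * (s + s') := Nat.mul_le_mul_left _ (Nat.le_add_right _ _)
  have ur' : ∀ u ∈ Us N a m U, U < u ∧ u ≤ 2 * U := fun u hu => mem_Ioc.1 (mem_filter.1 hu).1
  have sg : ∀ u ∈ Us N a m U, ∀ w ∈ bx g k, 0 ≤ Gv w (u + m * s : ℕ) v ∧
      Gv w (u + m * s : ℕ) v ≤ 65 * ((k : ℤ) * v) ^ (4 * g + 2) := fun u hu w hw => by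
    obtain ⟨a1, a2, -⟩ := k1 w hw (u + m * s) (by have := ur' u hu; omega)
    exact ⟨le_trans (by positivity) a1, a2⟩
  refine ⟨fun u hu w hw => lam_co (sg u hu w hw).1 (sg u hu w hw).2 k5, ?_⟩
  have hq : ∀ u, ql g v N d m s s' u = D * 1 * ((u + m * s) ^ 2 * (2 * u + m * (s + s'))) :=
    fun u => by rw [ql, ja, hD, mul_one]
  have mo := k2 U m s s' (fun u w => ind (Cm v N m wb u w)) 1 (Us N a m U) ur hm mk jj.ne j0 j1
    (filter_subset _ _) c2 (fun u hu => ⟨(mem_filter.1 hu).2.2, Nat.coprime_of_dvd fun p hp b1 b2 => by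
      have key : p ∣ N → p ∣ a := fun h =>
        ((xa u hu).dvd_iff (h.trans (dvd_pow_self N two_ne_zero))).1 b1
      rcases (Nat.Prime.dvd_mul hp).1 b2 with h | h
      · exact cop_v ad dv vN hp h (key (vN p hp h))
      · exact da p hp h (key (h.trans hd))⟩)
    (fun u w => ⟨ind_nonneg _, ind_le_one _⟩)
    (fun u hu w => ind_congr (and_congr (forall_congr' fun i => by
      rw [Pi.add_apply, add_sub_right_comm]
      exact dvd_add_left (sh_dvd _ _ _ i)) (by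
      rw [g2]
      refine dvd_add_left (Dvd.dvd.mul_left (Dvd.dvd.mul_left
        ⟨-((s' : ℤ) * (2 * u + m * s')), ?_⟩ _) _)
      push_cast
      ring)))
    fun u hu w h => md_dvd hN hd ad (xa u hu) c1 (by exact_mod_cast (cm_shift s).2 (of_ind_ne h))
  have sq : 5 * √(U : ℝ) ≤ ε * Y := by
    have a1 : 5 * (N : ℝ) ^ 2 / ε ≤ √(U : ℝ) := Real.le_sqrt_of_sq_le (k9 U ur.lo)
    rw [div_le_iff₀ ε0] at a1
    rw [hY, ← mul_div_assoc, le_div_iff₀ (by positivity)]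
    have a2 := Real.mul_self_sqrt (Nat.cast_nonneg (α := ℝ) U)
    have a3 := mul_le_mul_of_nonneg_left a1 (Real.sqrt_nonneg (U : ℝ))
    nlinarith
  have zs : 1 ≤ √(z : ℝ) := Real.one_le_sqrt.2 (by exact_mod_cast (by omega : 1 ≤ z))
  rw [div_eq_mul_one_div (15 * e)]
  refine fin (Us N a m U) _ (fun u => ph (ql g v N d m s s' u)) _
    (fun u => cnt g k fun w => Cm v N m wb u w ∧
      ¬(co (m * d) w (u + m * s) v).Coprime (ql g v N d m s s' u))
    (fun u => ex N z (u + m * s) + ex N z (2 * u + m * (s + s'))) (ε := ε) ?_ (fun u hu => ?_) ?_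
    hT P1 e1 (by positivity) ((div_le_one (by positivity)).2 zs) ε0.le ε1 ε2 V0 Y0
  · refine le_trans (le_of_eq (sum_congr rfl fun u _ => ?_)) (mo.trans ?_)
    · simp only [cnt, ← sum_sub_distrib, mul_sum]
      refine congrArg _ (sum_congr rfl fun w _ => ?_)
      rw [ind_and]
      by_cases h : (co (m * d) w (u + m * s) v).Coprime (ql g v N d m s s' u)
      · rw [ind_pos h, ind_neg (not_not.2 h)]; ring
      · rw [ind_neg h, ind_pos h]; ring
    · have m0 : (0 : ℝ) < m := by exact_mod_cast hm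
      rw [div_le_iff₀ ε0] at k7
      rw [hV, hY, div_mul_div_comm, ← mul_div_assoc, div_le_div_iff₀ (by positivity) (by positivity)]
      have := mul_le_mul_of_nonneg_left k7 (show 0 ≤ vol g k * U * m by positivity)
      linarith
  · have b0 := ur' u hu
    obtain ⟨p1, p2, p3⟩ := pa D (u + m * s) (2 * u + m * (s + s')) D0 one_pos (by omega) (by omega)
      (by omega) D1 D2
    have x1 := ex_nonneg N z (u + m * s)
    have x2 := ex_nonneg N z (2 * u + m * (s + s'))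
    rw [hq]
    refine ⟨p1, ?_, cnt_nonneg, cnt_mono fun _ _ h => h.1, cu u hu, ?_, by positivity⟩
    · rw [ex_one (by omega), ← pow_two] at p2
      refine le_of_pow_le_pow_left₀ two_ne_zero (by positivity) (p2.trans ?_)
      rw [mul_pow]
      gcongr
      nlinarith
    · rw [he, hV]
      exact bad cbx hg hk hN hz v0 vz hd ad hm c1 c2 (mem_filter.1 hu).2.2 rfl (xa u hu) (by omega)
        (by omega) (sz _ (by omega)) D2 (fun w hw => (sg u hu w hw).1) p3
  · have a1 := pb.1 U a (m * s) 1 U1 (by omega) (Or.inl rfl)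
    have a2 := pb.1 U a (m * (s + s')) 2 U1 (by omega) (Or.inr rfl)
    simp only [one_mul] at a1
    have a3 := sum_le_sum_of_subset_of_nonneg
      (f := fun u => ex N z (u + m * s) + ex N z (2 * u + m * (s + s'))) sub
      fun _ _ _ => add_nonneg (ex_nonneg _ _ _) (ex_nonneg _ _ _)
    rw [← hY, div_eq_mul_one_div] at a1 a2
    refine a3.trans ?_
    rw [sum_add_distrib]
    linarith

end Pool.Agent.MP_a43263_nt.N2

end

end PkN2Mone

section PkN2Mtwo

/-! THEOREM N2: the second moment. -/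

set_option autoImplicit false

noncomputable section

namespace Pool.Agent.MP_a43263_nt.N2

open Finset Filter K2

namespace MtwoA

theorem card_us {N U : ℕ} (a m : ℕ) (hN : 0 < N) (h : N ^ 2 ≤ U) :
    ((Us N a m U).card : ℝ) ≤ 2 * (U / (N : ℝ) ^ 2) := by
  have h0 : 0 < N ^ 2 := pow_pos hN 2
  have h1 : (Us N a m U).card ≤ ((Ioc U (2 * U)).filter fun u => u ≡ a [MOD N ^ 2]).card :=
    card_le_card (monotone_filter_right _ fun u _ k => k.1)
  have h2 := Nat.Ioc_filter_modEq_card U (2 * U) h0 a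
  generalize ((Ioc U (2 * U)).filter fun u => u ≡ a [MOD N ^ 2]).card = c at h1 h2
  have q0 : (0 : ℚ) < (N ^ 2 : ℕ) := by exact_mod_cast h0
  have q1 : (1 : ℚ) ≤ U / (N ^ 2 : ℕ) := (one_le_div q0).2 (by exact_mod_cast h)
  have q2 : (c : ℚ) ≤ 2 * (U / (N ^ 2 : ℕ)) := by
    have a1 := Int.floor_le ((((2 * U : ℕ) : ℚ) - a) / (N ^ 2 : ℕ))
    have a2 := Int.lt_floor_add_one (((U : ℚ) - a) / (N ^ 2 : ℕ))
    have a3 : (((2 * U : ℕ) : ℚ) - a) / (N ^ 2 : ℕ) =
        ((U : ℚ) - a) / (N ^ 2 : ℕ) + U / (N ^ 2 : ℕ) := by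
      rw [← add_div]; push_cast; ring_nf
    have a4 : (c : ℚ) = ((c : ℤ) : ℚ) := rfl
    rw [a4, h2, Int.cast_max, Int.cast_sub, Int.cast_zero]
    exact max_le (by linarith) (by linarith)
  have q3 : ((c : ℚ) : ℝ) ≤ ((2 * (U / (N ^ 2 : ℕ)) : ℚ) : ℝ) := Rat.cast_le.2 q2
  push_cast at q3
  exact le_trans (by exact_mod_cast h1) q3

variable {g : ℕ}

theorem cnt_le (cbx : CBXStmt) (hg : 1 ≤ g) {k v N m u : ℕ} (wb : Vec g) (hN : 0 < N)
    (hm : 0 < m) (h1 : m.Coprime (u * v)) (h2 : m.Coprime N) (h3 : N ^ 2 * m ≤ k ^ 2) :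
    cnt g k (Cm v N m wb u) ≤ 3 ^ (2 * g + 1) * (vol g k / (m * (N : ℝ) ^ (2 * (2 * g + 1)))) := by
  classical
  have k0 : 1 ≤ k := Nat.pos_of_ne_zero fun e => by
    rw [e] at h3
    exact absurd h3 (Nat.not_le.2 (Nat.mul_pos (pow_pos hN 2) hm))
  rw [cnt_eq_card]
  refine (cbx g (fun i => ce g k i.1 - (k : ℤ) ^ xp g i.1) wb (fun i => 2 * k ^ xp g i.1)
    (fun _ => N ^ 2) m u v hg (fun _ => pow_pos hN 2) hm h1 (fun _ _ => h2.pow_right 2) _
    fun w => ?_).1.trans ?_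
  · rw [mem_filter, mem_bx, Cm, Cw]
    push_cast
    refine and_congr_left fun _ => forall_congr' fun i => and_congr_right fun _ => ?_
    constructor <;> intro <;> linarith
  · refine (prod_le_prod (g := fun i => 3 * ((k : ℝ) ^ xp g i.1 /
      ((N : ℝ) ^ 2 * if i.1 + 1 = 2 * g then (m : ℝ) else 1))) (fun i _ => by positivity)
      fun i _ => ?_).trans_eq ?_
    · have p0 : (0 : ℝ) < (N : ℝ) ^ 2 * if i.1 + 1 = 2 * g then (m : ℝ) else 1 := by
        split_ifs <;> positivity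
      have p1 : ((N : ℝ) ^ 2 * if i.1 + 1 = 2 * g then (m : ℝ) else 1) ≤ (k : ℝ) ^ xp g i.1 := by
        have b1 : N ^ 2 * m ≤ k ^ xp g i.1 :=
          h3.trans (Nat.pow_le_pow_right k0 (by unfold xp; split_ifs <;> omega))
        have b2 : N ^ 2 * 1 ≤ k ^ xp g i.1 := (Nat.mul_le_mul_left _ hm).trans b1
        split_ifs
        · exact_mod_cast b1
        · exact_mod_cast b2
      have p2 := (one_le_div p0).2 p1
      push_cast
      rw [mul_div_assoc]
      linarith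
    · have e : ∏ i : Fin (2 * g + 1), (if i.1 + 1 = 2 * g then (m : ℝ) else 1) = m := by
        rw [Fintype.prod_eq_single (⟨2 * g - 1, by omega⟩ : Fin (2 * g + 1)) fun i hi =>
          if_neg fun e => hi (Fin.ext (by simp only; omega)), if_pos (by simp only; omega)]
      rw [prod_mul_distrib, prod_div_distrib, prod_mul_distrib, e, prod_const, prod_const,
        card_univ, Fintype.card_fin, ← GeoA.vol_eq, ← pow_mul, mul_comm (m : ℝ)]

theorem cop {v N d a u : ℕ} (m j : ℕ) {wb : Vec g} (pN : ∀ p : ℕ, p.Prime → p ∣ v → p ∣ N)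
    (hd : d ∣ N) (hdv : d.Coprime v) (hda : ∀ q : ℕ, q.Prime → q ∣ d → ¬q ∣ a)
    (had : Ad1 v N d wb a) (hu : u ≡ a [MOD N ^ 2]) : (u + m * (N ^ 2 * j)).Coprime (v * d) := by
  refine Nat.coprime_of_dvd fun p hp h1 h2 => ?_
  have pn : p ∣ N := ((Nat.Prime.dvd_mul hp).1 h2).elim (pN p hp) (·.trans hd)
  have p2 : p ∣ N ^ 2 := dvd_pow pn two_ne_zero
  have pa : p ∣ a :=
    (hu.dvd_iff p2).1 ((Nat.dvd_add_left ((p2.mul_right j).mul_left m)).1 h1)
  rcases (Nat.Prime.dvd_mul hp).1 h2 with pv | pd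
  · have pz := Nat.prime_iff_prime_int.1 hp
    have b1 : (p : ℤ) ∣ Gv wb a v :=
      dvd_add (dvd_pow (dvd_neg.2 (dvd_pow (Int.natCast_dvd_natCast.2 pa) two_ne_zero))
        (Nat.succ_ne_zero _)) (dvd_sum fun i _ => (dvd_pow
          (dvd_pow (Int.natCast_dvd_natCast.2 pv) two_ne_zero) (Nat.succ_ne_zero _)).mul_left _)
    rw [← Int.mul_ediv_cancel' had.1] at b1
    rcases pz.dvd_or_dvd b1 with b | b
    · exact hp.one_lt.ne' (Nat.eq_one_of_dvd_coprimes hdv (Int.natCast_dvd_natCast.1 b) pv)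
    · exact pz.not_isUnit (had.2.isUnit_of_dvd' b (Int.natCast_dvd_natCast.2 pn))
  · exact hda p hp pd pa

theorem dv {v N d a u m : ℕ} (j : ℕ) {wb w : Vec g} (hd : d ∣ N) (hm : m.Coprime N)
    (had : Ad1 v N d wb a) (hu : u ≡ a [MOD N ^ 2]) (h : Cm v N m wb u w) :
    ((m * d : ℕ) : ℤ) ∣ Gv w (u + m * (N ^ 2 * j) : ℕ) v := by
  have d2 : d ∣ N ^ 2 := dvd_pow hd two_ne_zero
  have d3 : (d : ℤ) ∣ (N : ℤ) ^ 2 := by exact_mod_cast d2
  rw [Nat.cast_mul]
  refine (Nat.isCoprime_iff_coprime.2 (hm.coprime_dvd_right hd)).mul_dvd ?_ ?_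
  · have e : (u : ℤ) ≡ (u + m * (N ^ 2 * j) : ℕ) [ZMOD m] :=
      Int.modEq_iff_dvd.2 ⟨N ^ 2 * j, by push_cast; ring⟩
    exact (GeoA.gv_mod (M := m) v (fun _ => rfl) e).dvd_iff.1 h.2
  · have e : (a : ℤ) ≡ (u + m * (N ^ 2 * j) : ℕ) [ZMOD d] :=
      Int.natCast_modEq_iff.2 ((hu.of_dvd d2).symm.trans
        ((Nat.modEq_zero_iff_dvd.2 ((d2.mul_right j).mul_left m)).add_left u).symm)
    exact (GeoA.gv_mod (M := d) v (fun i => Int.modEq_iff_dvd.2 (d3.trans (h.1 i))) e).dvd_iff.1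
      had.1

theorem inv (hg : 1 ≤ g) (v N m u s : ℕ) (t : ℤ) (wb w : Vec g) :
    Cm v N m wb u (w + sh g ((N : ℤ) ^ 2 * t) (u + m * s : ℕ) v) ↔ Cm v N m wb u w := by
  refine and_congr (forall_congr' fun i => ?_) ?_
  · rw [Pi.add_apply, add_sub_right_comm]
    refine dvd_add_left ?_
    unfold sh
    split_ifs
    · exact (dvd_mul_right _ _).mul_right _
    · exact (dvd_mul_right _ _).mul_right _
    · exact dvd_zero _
  · rw [GeoA.shift hg]
    exact dvd_add_left ((Dvd.dvd.mul_left ⟨-((s : ℤ) * (2 * u + m * s)), by push_cast; ring⟩ _).mul_left _)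

theorem fix (hg : 1 ≤ g) (e x v : ℕ) (t : ℤ) (w : Vec g) : co e (w + sh g t x v) x v = co e w x v := by
  rw [co, GeoA.shift hg, sub_self, mul_zero, mul_zero, add_zero, co]

theorem lamb {k v x : ℕ} (e : ℕ) {w : Vec g} (h0 : 35 * ((k : ℤ) * v) ^ (4 * g + 2) ≤ Gv w x v)
    (h1 : Gv w x v ≤ 65 * ((k : ℤ) * v) ^ (4 * g + 2)) (hk : 65 * v ^ (4 * g + 2) ≤ k) :
    lam (co e w x v) ≤ (4 * g + 3) * Real.log k := by
  unfold lam
  split_ifs with hp
  · have b0 : 0 ≤ Gv w x v := le_trans (by positivity) h0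
    have b1 : ((co e w x v : ℕ) : ℤ) ≤ Gv w x v := by
      rw [co, Int.toNat_of_nonneg (Int.ediv_nonneg b0 (Nat.cast_nonneg _))]
      exact Int.ediv_le_self _ b0
    have b2 : co e w x v ≤ 65 * (k * v) ^ (4 * g + 2) := by exact_mod_cast b1.trans h1
    have b3 : co e w x v ≤ k ^ (4 * g + 3) := b2.trans (by
      rw [mul_pow, mul_left_comm, pow_succ k (4 * g + 2)]
      exact Nat.mul_le_mul_left _ hk)
    refine (Real.log_le_log (by exact_mod_cast hp.pos) (show _ ≤ (k : ℝ) ^ (4 * g + 3) by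
      exact_mod_cast b3)).trans_eq ?_
    rw [Real.log_pow]
    push_cast
    rfl
  · positivity

theorem key {α : Type} (S : Finset α) {I L L' ι ι' Ω : α → ℝ} {P P' Q : ℝ} (hI : ∀ w, 0 ≤ I w)
    (hL : ∀ w, 0 ≤ L' w) (h1 : ∀ w, ι w ≤ 1) (h2 : ∀ w, ι' w ≤ 1) (p0 : 0 ≤ P) (p1 : P ≤ Q)
    (p2 : 0 ≤ P') (hΩ : ∀ w ∈ S, Ω w = I w * L' w) :
    ∑ w ∈ S, I w * (L w * L' w) ≤ |∑ w ∈ S, Ω w * (L w - P * ι w)| +
      Q * |∑ w ∈ S, I w * (L' w - P' * ι' w)| + P * P' * ∑ w ∈ S, I w := by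
  have a1 : ∑ w ∈ S, I w * (L w * L' w) ≤ ∑ w ∈ S, Ω w * (L w - P * ι w) +
      P * ∑ w ∈ S, I w * (L' w - P' * ι' w) + P * P' * ∑ w ∈ S, I w := by
    rw [mul_sum, mul_sum, ← sum_add_distrib, ← sum_add_distrib]
    refine sum_le_sum fun w hw => ?_
    rw [hΩ w hw]
    have b1 := mul_nonneg (mul_nonneg p0 (mul_nonneg (hI w) (hL w))) (sub_nonneg.2 (h1 w))
    have b2 := mul_nonneg (mul_nonneg (mul_nonneg p0 p2) (hI w)) (sub_nonneg.2 (h2 w))
    nlinarith
  have a2 := le_abs_self (∑ w ∈ S, Ω w * (L w - P * ι w))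
  have a3 := (mul_le_mul_of_nonneg_left (le_abs_self (∑ w ∈ S, I w * (L' w - P' * ι' w))) p0).trans
    (mul_le_mul_of_nonneg_right p1 (abs_nonneg _))
  linarith

theorem ql_eq (g v N d m j j' u : ℕ) : ql g v N d m (N ^ 2 * j) (N ^ 2 * j') u =
    N ^ 2 / d * v ^ (4 * g) * N ^ 2 * ((j : ℤ) - j').natAbs *
      ((u + m * (N ^ 2 * j)) ^ 2 * (2 * u + m * (N ^ 2 * j + N ^ 2 * j'))) := by
  rw [ql, show ((N ^ 2 * j : ℕ) : ℤ) - (N ^ 2 * j' : ℕ) = (N ^ 2 : ℕ) * ((j : ℤ) - j') by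
    push_cast; ring, Int.natAbs_mul, Int.natAbs_natCast, mul_assoc _ (N ^ 2)]

theorem ex_nonneg (N z x : ℕ) : 0 ≤ ex N z x := sum_nonneg fun _ _ => by positivity

end MtwoA

open MtwoA in
theorem m2_n : GEOStmt → CBXStmt → SIZStmt → PHAStmt → PHBStmt → MOMStmt → M2Stmt := by
  intro _ cbx siz pha phb mom g v hg hv
  refine ⟨6 * 3 ^ (2 * g + 1), by positivity, fun z d a wb hvz hz hd hdv hda had η hη => ?_⟩
  have N0 : 0 < primorial z := primorial_pos z
  have v0 : 0 < v := lt_of_lt_of_le (by omega) hv.ge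
  have pN : ∀ p : ℕ, p.Prime → p ∣ v → p ∣ primorial z := fun p hp h =>
    hp.dvd_primorial_iff.2 ((Nat.le_of_dvd v0 h).trans hvz)
  have N2 : 2 ∣ primorial z := Nat.prime_two.dvd_primorial_iff.2 (by omega)
  have d2 : d ∣ primorial z ^ 2 := dvd_pow hd two_ne_zero
  obtain ⟨D, hD⟩ : ∃ D, D = primorial z ^ 2 / d * v ^ (4 * g) * primorial z ^ 2 := ⟨_, rfl⟩
  have D0 : 0 < D := hD ▸ Nat.mul_pos (Nat.mul_pos (Nat.div_pos (Nat.le_of_dvd (pow_pos N0 2) d2)
    (Nat.pos_of_dvd_of_pos hd N0)) (pow_pos v0 _)) (pow_pos N0 2)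
  have D1 : primorial z ∣ D := hD ▸ (dvd_pow_self _ two_ne_zero).mul_left _
  have D2 : ∀ p : ℕ, p.Prime → p ∣ D → p ≤ z := fun p hp h => by
    rw [hD, hp.dvd_mul, hp.dvd_mul] at h
    refine hp.dvd_primorial_iff.1 ?_
    rcases h with (h | h) | h
    · exact hp.dvd_of_dvd_pow (h.trans (Nat.div_dvd_of_dvd d2))
    · exact pN p hp (hp.dvd_of_dvd_pow h)
    · exact hp.dvd_of_dvd_pow h
  have pa := fun t x x' y => pha.2 z D t x x' y hz D0
  have pb := (phb _ z N0 N2 (by omega)).1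
  have mo := mom g v _ d 2 hg hv N0 hd
  have p1 := (pha.1 _ N0).1
  unfold pu
  generalize primorial z = N at *
  have NR : (0 : ℝ) < N := by exact_mod_cast N0
  obtain ⟨R, hR⟩ := exists_nat_ge (30 * 3 ^ (2 * g + 1) * (N : ℝ) ^ 2 / η)
  filter_upwards [mo, siz g v hg hv, ev_le_log ((N : ℝ) ^ 2),
    ev_le_log (2 * (4 * g + 17) * ((N : ℝ) ^ (2 * (2 * g + 1)) * (N : ℝ) ^ 2) / η), ev_log_le 1 12,
    eventually_ge_atTop D, eventually_ge_atTop 54, eventually_ge_atTop ((N ^ 2) ^ 3),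
    eventually_ge_atTop (65 * v ^ (4 * g + 2)), eventually_ge_atTop ((R ^ 2) ^ 3)]
    with k hM hS l1 l2 l3 k1 k2 k3 k4 k5 U m hU m0 mk mN j hj j' hj' jj
  have cu : ∀ c : ℕ, c ^ 3 ≤ k → c ≤ U := fun c h =>
    (Nat.pow_le_pow_iff_left three_ne_zero).1 (h.trans hU.lo)
  have U1 : 1 ≤ U := cu 1 (by omega)
  have NU := cu _ k3
  have l0 : 1 ≤ Real.log k := le_trans (one_le_pow₀ (by exact_mod_cast N0)) l1
  have mv : m.Coprime v := Nat.coprime_of_dvd fun p hp a b =>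
    hp.one_lt.ne' (Nat.eq_one_of_dvd_coprimes mN a (pN p hp b))
  have m4 : m ^ 4 ≤ U := cu _ (by rw [← pow_mul]; exact mk)
  have sA : ∀ i ∈ range (nl k), ((N ^ 2 * i : ℕ) : ℝ) ≤ Real.log k ^ 3 := fun i hi => by
    have : (i : ℝ) ≤ Real.log k ^ 2 :=
      le_trans (by exact_mod_cast (mem_range.1 hi).le) (nl_le k)
    push_cast
    rw [pow_succ' _ 2]
    exact mul_le_mul l1 this (by positivity) (by positivity)
  have sK : ∀ i ∈ range (nl k), (N ^ 2 * i) ^ 4 ≤ k := fun i hi => by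
    have := pow_le_pow_left₀ (by positivity) (sA i hi) 4
    rw [← pow_mul] at this
    rw [one_mul] at l3
    exact_mod_cast this.trans l3
  have sB : ∀ i ∈ range (nl k), m * (N ^ 2 * i) ≤ U := fun i hi => by
    refine (Nat.pow_le_pow_iff_left four_ne_zero).1 ?_
    rw [mul_pow, pow_succ' U 3]
    exact Nat.mul_le_mul m4 ((sK i hi).trans hU.lo)
  have jk : ∀ i ∈ range (nl k), i ≤ k := fun i hi =>
    ((Nat.le_mul_of_pos_left i (pow_pos N0 2)).trans ((Nat.le_mul_of_pos_left _ m0).trans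
      (sB i hi))).trans hU.hi
  have sub : Us N a m U ⊆ Ioc U (2 * U) := filter_subset _ _
  have us : ∀ u ∈ Us N a m U, u ≡ a [MOD N ^ 2] ∧ u.Coprime m := fun u hu => (mem_filter.1 hu).2
  have ss : N ^ 2 * j ≠ N ^ 2 * j' := fun e => jj (Nat.eq_of_mul_eq_mul_left (pow_pos N0 2) e)
  have B0 : 0 ≤ (4 * g + 3) * Real.log k := by positivity
  have e1 := hM U m _ _ (fun u w => ind (Cm v N m wb u w) *
      min (lam (co (m * d) w (u + m * (N ^ 2 * j')) v)) ((4 * g + 3) * Real.log k))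
    ((4 * g + 3) * Real.log k) _ hU m0 mk ss (sA j hj) (sA j' hj') sub mv
    (fun u hu => ⟨(us u hu).2, cop m j pN hd hdv hda had (us u hu).1⟩)
    (fun u w => ⟨mul_nonneg (ind_nonneg _) (le_min (lam_nonneg _) B0),
      (mul_le_of_le_one_left (le_min (lam_nonneg _) B0) (ind_le_one _)).trans (min_le_right _ _)⟩)
    (fun u _ w => by rw [ind_congr (inv hg v N m u _ _ wb w), fix hg])
    fun u hu w h => dv j hd mN had (us u hu).1 (of_ind_ne (left_ne_zero_of_mul h))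
  have e2 := hM U m _ _ (fun u w => ind (Cm v N m wb u w)) 1 _ hU m0 mk ss.symm (sA j' hj')
    (sA j hj) sub mv (fun u hu => ⟨(us u hu).2, cop m j' pN hd hdv hda had (us u hu).1⟩)
    (fun u w => ⟨ind_nonneg _, ind_le_one _⟩)
    (fun u _ w => ind_congr (inv hg v N m u _ _ wb w))
    fun u hu w h => dv j' hd mN had (us u hu).1 (of_ind_ne h)
  obtain ⟨t, ht⟩ : ∃ t, t = ((j : ℤ) - j').natAbs := ⟨_, rfl⟩
  have t0 : 0 < t := by omega
  have tk : t ≤ k := by have := jk j hj; have := jk j' hj'; omega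
  have s1 := sB j hj
  have s2 := sB j' hj'
  have s3 : m * (N ^ 2 * j + N ^ 2 * j') ≤ 2 * U := by rw [mul_add]; omega
  obtain ⟨V, hV⟩ : ∃ V, V = vol g k / (m * (N : ℝ) ^ (2 * (2 * g + 1))) := ⟨_, rfl⟩
  have mR : (0 : ℝ) < m := by exact_mod_cast m0
  have V0 : 0 ≤ V := by rw [hV, vol]; positivity
  have hk : N ^ 2 * m ≤ k ^ 2 := by
    rw [sq k]
    exact Nat.mul_le_mul (NU.trans hU.hi) (((Nat.le_self_pow four_ne_zero m).trans m4).trans hU.hi)
  have pw : ∀ u ∈ Us N a m U, ∑ w ∈ bx g k, ind (Cm v N m wb u w) *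
      (lam (co (m * d) w (u + m * (N ^ 2 * j)) v) * lam (co (m * d) w (u + m * (N ^ 2 * j')) v)) ≤
      |∑ w ∈ bx g k, ind (Cm v N m wb u w) *
        min (lam (co (m * d) w (u + m * (N ^ 2 * j')) v)) ((4 * g + 3) * Real.log k) *
        (lam (co (m * d) w (u + m * (N ^ 2 * j)) v) - ph (ql g v N d m (N ^ 2 * j) (N ^ 2 * j') u) *
          ind ((co (m * d) w (u + m * (N ^ 2 * j)) v).Coprime
            (ql g v N d m (N ^ 2 * j) (N ^ 2 * j') u)))| +
      14 * Real.log k * |∑ w ∈ bx g k, ind (Cm v N m wb u w) *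
        (lam (co (m * d) w (u + m * (N ^ 2 * j')) v) - ph (ql g v N d m (N ^ 2 * j') (N ^ 2 * j) u) *
          ind ((co (m * d) w (u + m * (N ^ 2 * j')) v).Coprime
            (ql g v N d m (N ^ 2 * j') (N ^ 2 * j) u)))| +
      ph N ^ 2 * (cnt g k (Cm v N m wb u) + 3 ^ (2 * g + 1) * V *
        (ex N z (1 * u + m * (N ^ 2 * j)) + ex N z (1 * u + m * (N ^ 2 * j')) +
          ex N z (2 * u + m * (N ^ 2 * j + N ^ 2 * j')) + ex N z t)) := fun u hu => by
    obtain ⟨u1, u2⟩ := mem_Ioc.1 (sub hu)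
    have Uk := hU.hi
    have q1 := ql_eq g v N d m j j' u
    have q2 := ql_eq g v N d m j' j u
    rw [← hD, ← ht] at q1
    rw [← hD, show ((j' : ℤ) - j).natAbs = t by omega, add_comm (N ^ 2 * j')] at q2
    have c1 := cnt_le cbx hg wb N0 m0 ((us u hu).2.symm.mul_right mv) mN hk
    rw [← hV] at c1
    rw [one_mul]
    have x0 : 0 < u + m * (N ^ 2 * j) := by omega
    have x1 : 0 < u + m * (N ^ 2 * j') := by omega
    have y0 : 0 < 2 * u + m * (N ^ 2 * j + N ^ 2 * j') := by omega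
    have c2 := (pa t _ _ _ t0 x0 x1 y0 D1 D2).2.1
    rw [← q1, ← q2] at c2
    have Q1 : 0 < ql g v N d m (N ^ 2 * j) (N ^ 2 * j') u := by rw [q1]; positivity
    have Q2 : 0 < ql g v N d m (N ^ 2 * j') (N ^ 2 * j) u := by rw [q2]; positivity
    have Q3 : ql g v N d m (N ^ 2 * j) (N ^ 2 * j') u ≤ k ^ 6 := by
      rw [q1]
      calc _ ≤ k * k * ((3 * k) ^ 2 * (6 * k)) := by gcongr <;> omega
        _ = 54 * k ^ 5 := by ring
        _ ≤ k * k ^ 5 := Nat.mul_le_mul_right _ k2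
        _ = k ^ 6 := by ring
    have Q4 : ph (ql g v N d m (N ^ 2 * j) (N ^ 2 * j') u) ≤ 14 * Real.log k := by
      have := Real.log_le_log (by exact_mod_cast Q1) (show
        (ql g v N d m (N ^ 2 * j) (N ^ 2 * j') u : ℝ) ≤ (k : ℝ) ^ 6 by exact_mod_cast Q3)
      rw [Real.log_pow] at this
      push_cast at this
      linarith only [(pha.1 _ Q1).2, this, l0]
    refine (key (bx g k) (fun _ => ind_nonneg _) (fun _ => lam_nonneg _) (fun _ => ind_le_one _)
      (fun _ => ind_le_one _) (zero_le_one.trans (pha.1 _ Q1).1) Q4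
      (zero_le_one.trans (pha.1 _ Q2).1) fun w hw => ?_).trans (add_le_add_right ?_ _)
    · have := hS w hw (u + m * (N ^ 2 * j')) (by omega)
      rw [min_eq_left (lamb _ this.1 this.2.1 k4)]
    · have c0 : 0 ≤ cnt g k (Cm v N m wb u) := cnt_nonneg
      refine (mul_le_mul_of_nonneg_right c2 c0).trans ?_
      rw [mul_assoc]
      refine mul_le_mul_of_nonneg_left ?_ (sq_nonneg _)
      have := mul_le_mul_of_nonneg_right c1 (add_nonneg (add_nonneg (add_nonneg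
        (ex_nonneg N z (u + m * (N ^ 2 * j))) (ex_nonneg N z (u + m * (N ^ 2 * j'))))
        (ex_nonneg N z (2 * u + m * (N ^ 2 * j + N ^ 2 * j')))) (ex_nonneg N z t))
      linarith only [this]
  refine (sum_le_sum pw).trans ?_
  have pc : ∀ b s : ℕ, s ≤ 2 * U → (b = 1 ∨ b = 2) → ∑ u ∈ Us N a m U, ex N z (b * u + s) ≤
      2 / √(z : ℝ) * (U / (N : ℝ) ^ 2) + 5 * √(U : ℝ) := fun b s h1 h2 =>
    (sum_le_sum_of_subset_of_nonneg (monotone_filter_right _ fun u _ k => k.1)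
      fun _ _ _ => ex_nonneg _ _ _).trans (pb U a s b U1 h1 h2)
  have f1 := pc 1 _ (s1.trans (by omega)) (.inl rfl)
  have f2 := pc 1 _ (s2.trans (by omega)) (.inl rfl)
  have f3 := pc 2 _ s3 (.inr rfl)
  have f4 := mul_le_mul_of_nonneg_right (card_us a m N0 NU) (ex_nonneg N z t)
  rw [sum_add_distrib, sum_add_distrib, ← mul_sum, ← mul_sum, sum_add_distrib, ← mul_sum,
    sum_add_distrib, sum_add_distrib, sum_add_distrib, sum_const, nsmul_eq_mul, rf, ← hV, ← ht]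
  obtain ⟨W, hW⟩ : ∃ W, W = (U : ℝ) / (N : ℝ) ^ 2 := ⟨_, rfl⟩
  rw [← hW] at f1 f2 f3 f4 ⊢
  have W0 : 0 ≤ W := by rw [hW]; positivity
  have g1 : 15 * 3 ^ (2 * g + 1) * √(U : ℝ) ≤ η / 2 * W := by
    have a1 : (R : ℝ) ≤ √(U : ℝ) := Real.le_sqrt_of_sq_le (by exact_mod_cast cu _ k5)
    have a2 := mul_le_mul_of_nonneg_right ((div_le_iff₀ hη).1 (hR.trans a1)) (Real.sqrt_nonneg U)
    have a3 := Real.mul_self_sqrt (Nat.cast_nonneg (α := ℝ) U)
    rw [mul_right_comm _ η, a3] at a2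
    rw [hW, ← mul_div_assoc, le_div_iff₀ (pow_pos NR 2)]
    linarith only [a2]
  have g2 : (4 * g + 3) * Real.log k * vol g k * U / (m * Real.log k ^ 2) +
      14 * Real.log k * (1 * vol g k * U / (m * Real.log k ^ 2)) ≤ η / 2 * (V * W) := by
    have a1 : (4 * g + 3) * Real.log k * vol g k * U / (m * Real.log k ^ 2) +
        14 * Real.log k * (1 * vol g k * U / (m * Real.log k ^ 2)) =
        (4 * g + 17) * ((N : ℝ) ^ (2 * (2 * g + 1)) * (N : ℝ) ^ 2) / Real.log k * (V * W) := by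
      rw [hV, hW]
      field_simp
      ring
    rw [a1]
    refine mul_le_mul_of_nonneg_right ?_ (mul_nonneg V0 W0)
    rw [div_le_iff₀ hη] at l2
    rw [div_le_iff₀ (one_pos.trans_le l0)]
    linarith only [l2]
  have g3 := mul_le_mul_of_nonneg_left e2 (show 0 ≤ 14 * Real.log k by positivity)
  have g4 : η / 2 * (V * W) ≤ ph N ^ 2 * (η / 2 * (V * W)) :=
    le_mul_of_one_le_left (by positivity) (one_le_pow₀ p1)
  have g5 := mul_le_mul_of_nonneg_left (add_le_add (add_le_add (add_le_add f1 f2) f3) f4)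
    (show 0 ≤ 3 ^ (2 * g + 1) * V by positivity)
  have g6 := mul_le_mul_of_nonneg_left g1 V0
  have g7 : 0 ≤ 3 ^ (2 * g + 1) * ex N z t * (V * W) := by
    have := ex_nonneg N z t
    positivity
  have g8 : 3 ^ (2 * g + 1) * V * (2 / √(z : ℝ) * W + 5 * √(U : ℝ) +
      (2 / √(z : ℝ) * W + 5 * √(U : ℝ)) + (2 / √(z : ℝ) * W + 5 * √(U : ℝ)) + 2 * W * ex N z t) ≤
      (η / 2 + 6 * 3 ^ (2 * g + 1) / √(z : ℝ) + 6 * 3 ^ (2 * g + 1) * ex N z t) * (V * W) := by
    rw [div_eq_mul_inv 2, div_eq_mul_inv (6 * _)]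
    linarith only [g6, g7]
  have g9 := mul_le_mul_of_nonneg_left (g5.trans g8) (sq_nonneg (ph N))
  linarith only [g9, g4, g3, g2, e1]

end Pool.Agent.MP_a43263_nt.N2

end

end PkN2Mtwo
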