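import Pool.Agent.MP_a43263_nt.N2.SpecC
import Pool.Agent.MP_678834_nt.gy.Fam

/-! Packed rows. -/

section PkN2Nc

/-! How often a conductor occurs. -/

set_option autoImplicit false

noncomputable section

namespace Pool.Agent.MP_a43263_nt.N2

open Finset

namespace NcA

theorem succ_le_exp {δ : ℝ} (hδ : 0 < δ) (a : ℕ) :
    (a : ℝ) + 1 ≤ (1 + 1 / δ) * Real.exp (a * δ) := by
  have h1 : a * δ + 1 ≤ Real.exp (a * δ) := Real.add_one_le_exp _
  have h2 : (0 : ℝ) ≤ a := Nat.cast_nonneg a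
  have h3 : (1 + 1 / δ) * (a * δ + 1) = a * δ + 1 + a + 1 / δ := by field_simp; ring
  have h4 : 0 < 1 / δ := by positivity
  calc (a : ℝ) + 1 ≤ (1 + 1 / δ) * (a * δ + 1) := by rw [h3]; nlinarith
    _ ≤ _ := by gcongr

theorem divisor {ε : ℝ} (hε : 0 < ε) : ∃ C : ℝ, 1 ≤ C ∧ ∀ n : ℕ, 1 ≤ n →
    (n.divisors.card : ℝ) ≤ C * (n : ℝ) ^ ε := by
  have hl : 0 < Real.log 2 := Real.log_pos one_lt_two
  have hδ : 0 < ε * Real.log 2 := by positivity
  set K : ℝ := 1 + 1 / (ε * Real.log 2) with hK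
  have hK1 : 1 ≤ K := by rw [hK]; linarith [show 0 < 1 / (ε * Real.log 2) by positivity]
  set B : ℕ := ⌈Real.exp (1 / ε)⌉₊ with hB
  refine ⟨K ^ B, one_le_pow₀ hK1, fun n hn => ?_⟩
  have hn0 : n ≠ 0 := by omega
  rw [Nat.card_divisors hn0, Nat.cast_prod]
  have h1 : ∀ p ∈ n.primeFactors, ((n.factorization p + 1 : ℕ) : ℝ) ≤
      (if p < B then K else 1) * (((p ^ n.factorization p : ℕ) : ℝ)) ^ ε := by
    intro p hp
    have hp2 : 2 ≤ p := (Nat.prime_of_mem_primeFactors hp).two_le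
    have hp2' : (2 : ℝ) ≤ p := by exact_mod_cast hp2
    have hp0 : (0 : ℝ) < p := by linarith
    have ha : (0 : ℝ) ≤ n.factorization p := Nat.cast_nonneg _
    have e : (((p ^ n.factorization p : ℕ) : ℝ)) ^ ε =
        Real.exp (n.factorization p * (ε * Real.log p)) := by
      push_cast
      rw [Real.rpow_def_of_pos (by positivity), Real.log_pow]
      congr 1
      ring
    rw [e]
    push_cast
    split_ifs with h
    · refine (succ_le_exp hδ _).trans ?_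
      have : Real.log 2 ≤ Real.log p := Real.log_le_log two_pos hp2'
      gcongr
    · have a1 : Real.exp (1 / ε) ≤ p := by
        refine (Nat.le_ceil _).trans ?_
        exact_mod_cast not_lt.1 h
      have a2 : 1 / ε ≤ Real.log p := by
        rw [Real.le_log_iff_exp_le hp0]
        exact a1
      have a3 : 1 ≤ ε * Real.log p := by
        rw [div_le_iff₀ hε] at a2
        linarith
      rw [one_mul]
      refine le_trans ?_ (Real.add_one_le_exp _)
      nlinarith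
  refine (prod_le_prod (fun _ _ => by positivity) h1).trans ?_
  rw [prod_mul_distrib, Real.finsetProd_rpow _ _ (fun _ _ => by positivity), ← Nat.cast_prod]
  have h2 : ∏ p ∈ n.primeFactors, p ^ n.factorization p = n := by
    conv_rhs => rw [← Nat.prod_factorization_pow_eq_self hn0]
    rfl
  rw [h2]
  refine mul_le_mul_of_nonneg_right ?_ (by positivity)
  rw [prod_ite, prod_const_one, mul_one, prod_const]
  refine pow_le_pow_right₀ hK1 ?_
  calc (n.primeFactors.filter (fun p => p < B)).card ≤ (range B).card :=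
        card_le_card (fun p hp => mem_range.2 (mem_filter.1 hp).2)
    _ = B := card_range B

/-- a large divisor of one of the two factors -/
theorem big {c D x y : ℕ} (hc : 1 ≤ c) (hD : 1 ≤ D) (h : c ∣ D * (x ^ 2 * y)) :
    ∃ e : ℕ, e ∣ c ∧ c ≤ (e * D) ^ 3 ∧ (e ∣ x ∨ e ∣ y) := by
  obtain ⟨c0, r, h0, hr, rfl⟩ := exists_dvd_and_dvd_of_dvd_mul h
  obtain ⟨r1, c3, h1, h3, rfl⟩ := exists_dvd_and_dvd_of_dvd_mul hr
  rw [pow_two] at h1
  obtain ⟨c1, c2, g1, h2, rfl⟩ := exists_dvd_and_dvd_of_dvd_mul h1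
  have hc0 : c0 ≤ D := Nat.le_of_dvd hD h0
  have hD3 : D ≤ D ^ 3 := Nat.le_self_pow (by norm_num) D
  have key : ∀ e : ℕ, c1 ≤ e → c2 ≤ e → c3 ≤ e → c0 * (c1 * c2 * c3) ≤ (e * D) ^ 3 := by
    intro e a1 a2 a3
    calc c0 * (c1 * c2 * c3) ≤ D ^ 3 * (e * e * e) := by gcongr; exact hc0.trans hD3
      _ = (e * D) ^ 3 := by ring
  rcases le_total c1 c2 with a | a
  · rcases le_total c2 c3 with b | b
    · exact ⟨c3, ⟨c0 * c1 * c2, by ring⟩, key _ (a.trans b) b le_rfl, Or.inr h3⟩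
    · exact ⟨c2, ⟨c0 * c1 * c3, by ring⟩, key _ a le_rfl b, Or.inl h2⟩
  · rcases le_total c1 c3 with b | b
    · exact ⟨c3, ⟨c0 * c1 * c2, by ring⟩, key _ b (a.trans b) le_rfl, Or.inr h3⟩
    · exact ⟨c1, ⟨c0 * c2 * c3, by ring⟩, key _ le_rfl a b, Or.inl g1⟩

theorem cnt_le {U b s M e : ℕ} (hb : 1 ≤ b) (hM : b * (2 * U) + s ≤ M) :
    (((Ioc U (2 * U)).filter fun u => e ∣ b * u + s).card : ℝ) ≤ (M : ℝ) / e := by
  refine le_trans ?_ Nat.cast_div_le
  rw [← Nat.Ioc_filter_dvd_card_eq_div]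
  refine Nat.cast_le.2 (card_le_card_of_injOn (fun u => b * u + s) ?_ ?_)
  · intro u hu
    obtain ⟨h1, h2⟩ := mem_filter.1 (mem_coe.1 hu)
    obtain ⟨h3, h4⟩ := mem_Ioc.1 h1
    refine mem_coe.2 (mem_filter.2 ⟨mem_Ioc.2 ⟨?_, ?_⟩, h2⟩)
    · have : 0 < b * u := Nat.mul_pos hb (by omega)
      show 0 < b * u + s
      omega
    · have : b * u ≤ b * (2 * U) := Nat.mul_le_mul_left _ h4
      show b * u + s ≤ M
      omega
  · intro u _ u' _ h
    have h' : b * u + s = b * u' + s := h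
    exact Nat.eq_of_mul_eq_mul_left hb (by omega)

end NcA

theorem nc_n : NCStmt := by
  obtain ⟨C, hC1, hC⟩ := NcA.divisor (ε := 1 / 12) (by norm_num)
  refine ⟨9 * C, by positivity, fun U D s s' c hU hD hs hs' hc => ?_⟩
  have hc0 : (0 : ℝ) < c := by exact_mod_cast hc
  set t : ℝ := (c : ℝ) ^ (1 / 12 : ℝ) with ht
  have ht0 : 0 < t := by positivity
  have e12 : t ^ 12 = c := by
    rw [ht, ← Real.rpow_natCast, ← Real.rpow_mul hc0.le]; norm_num
  have e3 : (c : ℝ) ^ (1 / 4 : ℝ) = t ^ 3 := by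
    rw [ht, ← Real.rpow_natCast, ← Real.rpow_mul hc0.le]; norm_num
  set E := c.divisors.filter fun e => c ≤ (e * D) ^ 3 with hE
  have hsub : ((Ioc U (2 * U)).filter fun u => c ∣ D * ((u + s) ^ 2 * (2 * u + s'))) ⊆
      E.biUnion fun e => ((Ioc U (2 * U)).filter fun u => e ∣ 1 * u + s) ∪
        ((Ioc U (2 * U)).filter fun u => e ∣ 2 * u + s') := by
    intro u hu
    obtain ⟨h1, h2⟩ := mem_filter.1 hu
    obtain ⟨e, a1, a2, a3⟩ := NcA.big hc hD h2
    refine mem_biUnion.2 ⟨e, mem_filter.2 ⟨Nat.mem_divisors.2 ⟨a1, by omega⟩, a2⟩, ?_⟩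
    rcases a3 with a | a
    · exact mem_union_left _ (mem_filter.2 ⟨h1, by rwa [one_mul]⟩)
    · exact mem_union_right _ (mem_filter.2 ⟨h1, a⟩)
  have hone : ∀ e ∈ E, ((((Ioc U (2 * U)).filter fun u => e ∣ 1 * u + s) ∪
        ((Ioc U (2 * U)).filter fun u => e ∣ 2 * u + s')).card : ℝ) ≤ 9 * U * D / t ^ 4 := by
    intro e he
    obtain ⟨a1, a2⟩ := mem_filter.1 he
    have he0 : (0 : ℝ) < e := by exact_mod_cast Nat.pos_of_mem_divisors a1
    have a3 : t ^ 4 ≤ e * D := by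
      refine le_of_pow_le_pow_left₀ (n := 3) (by norm_num) (by positivity) ?_
      rw [← pow_mul, e12]
      exact_mod_cast a2
    have b1 := NcA.cnt_le (U := U) (b := 1) (s := s) (M := 3 * U) (e := e) le_rfl (by omega)
    have b2 := NcA.cnt_le (U := U) (b := 2) (s := s') (M := 6 * U) (e := e) (by norm_num) (by omega)
    refine (Nat.cast_le.2 (card_union_le _ _)).trans ?_
    push_cast at b1 b2 ⊢
    refine (add_le_add b1 b2).trans ?_
    rw [← add_div, div_le_div_iff₀ he0 (by positivity)]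
    have hU0 : (0 : ℝ) ≤ U := Nat.cast_nonneg U
    nlinarith [mul_le_mul_of_nonneg_left a3 hU0]
  have hcard : (E.card : ℝ) ≤ C * t :=
    (Nat.cast_le.2 (card_filter_le _ _)).trans (hC c hc)
  refine (Nat.cast_le.2 ((card_le_card hsub).trans card_biUnion_le)).trans ?_
  push_cast
  refine (sum_le_card_nsmul _ _ _ hone).trans ?_
  rw [nsmul_eq_mul, e3]
  calc (E.card : ℝ) * (9 * U * D / t ^ 4) ≤ C * t * (9 * U * D / t ^ 4) := by gcongr
    _ = 9 * C * U * D / t ^ 3 := by field_simp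

end Pool.Agent.MP_a43263_nt.N2

end

end PkN2Nc

section PkN2Lsm

/-! THEOREM N2: the large sieve for primitive characters on an interval. -/

set_option autoImplicit false

noncomputable section

namespace Pool.Agent.MP_a43263_nt.N2

open Finset Pool.Agent.MP_678834_nt.gy

namespace LsmA

theorem expand1 {q : ℕ} (hq : 0 < q) (χ : DirichletCharacter ℂ q) (hχ : χ.IsPrimitive) :
    ∃ τ : ℂ, ‖τ‖ ^ 2 = q ∧ ∀ n : ℕ, τ * χ (n : ZMod q) =
      ∑ a ∈ range q, χ⁻¹ (a : ZMod q) * ee (n * ((a : ℝ) / q)) := by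
  rcases Nat.lt_or_ge 1 q with h | h
  · exact FamAux.expand h χ hχ
  · obtain rfl : q = 1 := by omega
    refine ⟨1, by simp, fun n => ?_⟩
    have e : ∀ (ψ : DirichletCharacter ℂ 1) (x : ZMod 1), ψ x = 1 := fun ψ x => by
      rw [Subsingleton.elim x 1, map_one]
    simp [e, ee_zero]

theorem shift {Q : ℕ} (hQ : 1 ≤ Q) (y h : ℕ) (c : ℕ → ℂ) :
    ∑ z ∈ Far Q, ‖∑ n ∈ Ico y (y + h), c n * ee (n * ((z.2 : ℝ) / z.1))‖ ^ 2 ≤
      (h + (Q : ℝ) ^ 2 * (1 + 2 * Real.log Q)) * ∑ n ∈ Ico y (y + h), ‖c n‖ ^ 2 := by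
  have k := ls_far hQ h fun i => c (y + i)
  rw [sum_Ico_eq_sum_range, Nat.add_sub_cancel_left]
  refine le_trans (le_of_eq (sum_congr rfl fun z _ => ?_)) k
  rw [sum_Ico_eq_sum_range, Nat.add_sub_cancel_left]
  have e : ∑ i ∈ range h, c (y + i) * ee (((y + i : ℕ) : ℝ) * ((z.2 : ℝ) / z.1)) =
      ee (y * ((z.2 : ℝ) / z.1)) * ∑ i ∈ range h, c (y + i) * ee (i * ((z.2 : ℝ) / z.1)) := by
    rw [mul_sum]
    refine sum_congr rfl fun i _ => ?_
    rw [Nat.cast_add, add_mul, ee_add]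
    ring
  rw [e, norm_mul, norm_ee, one_mul]

end LsmA

theorem lsm_n : LSMStmt := by
  intro R y h c S hR hS
  set s : ℕ × ℕ → ℂ := fun z => ∑ n ∈ Ico y (y + h), c n * ee (n * ((z.2 : ℝ) / z.1)) with hs
  have sub : S ⊆ FamAux.All R := fun z hz => by
    obtain ⟨h1, h2, -⟩ := hS z hz
    simp only [FamAux.All, mem_sigma, mem_Ioc, mem_univ, and_true]
    exact ⟨h1, h2⟩
  calc ∑ z ∈ S, ‖∑ n ∈ Ico y (y + h), c n * z.2 n‖ ^ 2
      = ∑ z ∈ S, 1 / (z.1 : ℝ) * ‖∑ a ∈ range z.1, z.2⁻¹ (a : ZMod z.1) * s (z.1, a)‖ ^ 2 := by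
        refine sum_congr rfl fun z hz => ?_
        obtain ⟨a1, -, a3⟩ := hS z hz
        obtain ⟨τ, t1, t2⟩ := LsmA.expand1 a1 z.2 a3
        have q0 : (z.1 : ℝ) ≠ 0 := by exact_mod_cast a1.ne'
        have e : ∑ a ∈ range z.1, z.2⁻¹ (a : ZMod z.1) * s (z.1, a) =
            τ * ∑ n ∈ Ico y (y + h), c n * z.2 n := by
          simp only [hs, mul_sum]
          rw [sum_comm]
          refine sum_congr rfl fun n _ => ?_
          rw [mul_left_comm, t2, mul_sum]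
          exact sum_congr rfl fun a _ => by ring
        rw [e, norm_mul, mul_pow, t1]
        field_simp
    _ ≤ ∑ z ∈ FamAux.All R, 1 / (z.1 : ℝ) *
          ‖∑ a ∈ range z.1, z.2⁻¹ (a : ZMod z.1) * s (z.1, a)‖ ^ 2 :=
        sum_le_sum_of_subset_of_nonneg sub fun _ _ _ => by positivity
    _ ≤ ∑ q ∈ Ioc 0 R, ∑ a ∈ (range q).filter (fun b => Nat.Coprime b q), ‖s (q, a)‖ ^ 2 := by
        rw [FamAux.All, sum_sigma]
        refine sum_le_sum fun q hq => ?_
        obtain ⟨q1, -⟩ := mem_Ioc.1 hq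
        have : NeZero q := ⟨q1.ne'⟩
        have q0 : (0 : ℝ) < q := by exact_mod_cast q1
        dsimp only
        rw [← mul_sum, FamAux.pars_mul fun a => s (q, a), ← mul_assoc]
        refine mul_le_of_le_one_left (sum_nonneg fun _ _ => sq_nonneg _) ?_
        rw [one_div, inv_mul_le_iff₀ q0, mul_one]
        exact_mod_cast Nat.totient_le q
    _ = ∑ z ∈ FF 0 R, ‖s z‖ ^ 2 := (sum_FF 0 R fun z => ‖s z‖ ^ 2).symm
    _ ≤ ∑ z ∈ Far R, ‖s z‖ ^ 2 :=
        sum_le_sum_of_subset_of_nonneg (filter_subset _ _) fun _ _ _ => sq_nonneg _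
    _ ≤ _ := LsmA.shift hR y h c

end Pool.Agent.MP_a43263_nt.N2

end

end PkN2Lsm

section PkN2Big

/-! THEOREM N2: characters of large conductor, by the additive energy of the set of moduli. -/

set_option autoImplicit false

noncomputable section

namespace Pool.Agent.MP_a43263_nt.N2

open Finset Pool.Agent.MP_678834_nt.gy

namespace BigA

/-- separated points -/
def Sep {ι : Type} (θ : ι → ℝ) (K : ℕ) (J : Finset ι) : Prop :=
  ∀ i ∈ J, ∀ j ∈ J, i ≠ j → ∀ r : ℤ, 1 / (K : ℝ) ≤ |θ i - θ j - r|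

open Classical in
/-- the large sieve for points with bounded clustering -/
theorem mls {ι : Type} (θ : ι → ℝ) {K : ℕ} (hK : 1 ≤ K) (N : ℕ) (c : ℕ → ℂ) : ∀ (m : ℕ)
    (I : Finset ι), (∀ i ∈ I, (I.filter fun j => ∃ r : ℤ, |θ i - θ j - r| < 1 / K).card ≤ m) →
    ∑ i ∈ I, ‖∑ n ∈ range N, c n * ee (n * θ i)‖ ^ 2 ≤
      m * ((N + K * (1 + Real.log K)) * ∑ n ∈ range N, ‖c n‖ ^ 2) := by
  have K0 : (0 : ℝ) < 1 / K := by positivity
  have self : ∀ i, ∃ r : ℤ, |θ i - θ i - r| < 1 / K := fun i => ⟨0, by simpa using K0⟩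
  intro m
  induction m with
  | zero =>
    intro I h
    rcases I.eq_empty_or_nonempty with rfl | ⟨i, hi⟩
    · simp
    · exact absurd (card_pos.2 ⟨i, mem_filter.2 ⟨hi, self i⟩⟩) (not_lt.2 (h i hi))
  | succ m ih =>
    intro I h
    obtain ⟨J, hJ, mx⟩ := exists_max_image (I.powerset.filter (Sep θ K)) card
      ⟨∅, mem_filter.2 ⟨empty_mem_powerset _, fun _ h => absurd h (notMem_empty _)⟩⟩
    obtain ⟨J1, J2⟩ := mem_filter.1 hJ
    rw [mem_powerset] at J1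
    have h1 := ih (I \ J) fun i hi => by
      obtain ⟨i1, i2⟩ := mem_sdiff.1 hi
      obtain ⟨j, j1, j2⟩ : ∃ j ∈ J, ∃ r : ℤ, |θ i - θ j - r| < 1 / K := by
        by_contra k
        push Not at k
        have := mx (insert i J) (mem_filter.2 ⟨mem_powerset.2 (insert_subset i1 J1), ?_⟩)
        · rw [card_insert_of_notMem i2] at this; omega
        intro a ha b hb ab r
        rcases mem_insert.1 ha with rfl | ha' <;> rcases mem_insert.1 hb with rfl | hb'
        · exact absurd rfl ab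
        · exact k b hb' r
        · rw [show θ a - θ b - r = -(θ b - θ a - (-r : ℤ)) by push_cast; ring, abs_neg]
          exact k a ha' _
        · exact J2 a ha' b hb' ab r
      refine Nat.lt_succ_iff.1 (lt_of_lt_of_le (card_lt_card ⟨filter_subset_filter _
        sdiff_subset, fun k => ?_⟩) (h i i1))
      exact (mem_sdiff.1 (mem_filter.1 (k (mem_filter.2 ⟨J1 j1, j2⟩))).1).2 j1
    rw [← sum_sdiff J1, Nat.cast_succ, add_mul, one_mul]
    exact add_le_add h1 (ls J θ hK J2 N c)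

/-- a residue class in an interval -/
theorem cls {c : ℕ} (hc : 0 < c) (M : ℕ) (S : Finset ℤ) (h1 : ∀ n ∈ S, |n| ≤ M)
    (h2 : ∀ n ∈ S, ∀ n' ∈ S, (c : ℤ) ∣ n - n') : S.card ≤ 2 * M / c + 1 := by
  rw [← card_range (2 * M / c + 1)]
  refine card_le_card_of_injOn (fun n => (n + M).toNat / c) (fun n hn => ?_) fun n hn n' hn' e => ?_
  · have := abs_le.1 (h1 n hn)
    exact mem_coe.2 (mem_range.2 (Nat.lt_succ_of_le (Nat.div_le_div_right (by omega))))
  · have a := abs_le.1 (h1 n hn)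
    have b := abs_le.1 (h1 n' hn')
    have e1 := Nat.div_add_mod (n + M).toNat c
    have e2 := Nat.div_add_mod (n' + M).toNat c
    have e3 := Nat.mod_lt (n + M).toNat hc
    have e4 := Nat.mod_lt (n' + M).toNat hc
    dsimp only at e
    rw [e] at e1
    have := Int.eq_zero_of_abs_lt_dvd (h2 n hn n' hn') (by rw [abs_lt]; constructor <;> omega)
    omega

/-- the signed divisors -/
def sd (n : ℤ) : Finset ℤ := n.natAbs.divisors.image (fun d : ℕ => (d : ℤ)) ∪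
  n.natAbs.divisors.image fun d : ℕ => -(d : ℤ)

theorem sd_card (n : ℤ) : (sd n).card ≤ 2 * n.natAbs.divisors.card :=
  (card_union_le _ _).trans ((Nat.add_le_add card_image_le card_image_le).trans_eq (two_mul _).symm)

theorem mem_sd {n d : ℤ} (h0 : n ≠ 0) (h : d ∣ n) : d ∈ sd n := by
  have : d.natAbs ∈ n.natAbs.divisors :=
    Nat.mem_divisors.2 ⟨Int.natAbs_dvd_natAbs.2 h, Int.natAbs_ne_zero.2 h0⟩
  rcases Int.natAbs_eq d with e | e
  · exact mem_union_left _ (mem_image.2 ⟨_, this, e.symm⟩)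
  · exact mem_union_right _ (mem_image.2 ⟨_, this, e.symm⟩)

/-- the additive energy -/
theorem pts {U D s s' c M J τ : ℕ} {a : ℤ} {q : ℕ → ℕ} (A : Finset ℕ) (hD : 1 ≤ D) (hc : 0 < c)
    (ha : IsCoprime (c : ℤ) a) (hA : A ⊆ Ioc U (2 * U))
    (hq : ∀ u ∈ A, q u = D * ((u + s) ^ 2 * (2 * u + s')) ∧ q u ≤ M)
    (hj : ∀ u ∈ A, ∃ j : ℤ, |j| ≤ J ∧ (c : ℤ) ∣ a * q u - j)
    (hτ : ∀ n : ℕ, 1 ≤ n → n ≤ 2 * M → n.divisors.card ≤ τ) :
    A.card ^ 4 ≤ 2 * U * (2 * U ^ 2 + (8 * J + 1) * (4 * M / c + 1) * (2 * τ) ^ 2) := by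
  classical
  have AU : A.card ≤ U := (card_le_card hA).trans (by rw [Nat.card_Ioc]; omega)
  have h1 := card_sq_le_card_mul_addEnergy A A (Ioc (2 * U) (4 * U))
  rw [filter_eq_self.2 fun x hx => by
    have a1 := mem_Ioc.1 (hA (mem_product.1 hx).1)
    have a2 := mem_Ioc.1 (hA (mem_product.1 hx).2)
    exact mem_Ioc.2 ⟨by omega, by omega⟩, card_product, Nat.card_Ioc,
    show 4 * U - 2 * U = 2 * U by omega, ← sq, ← pow_mul] at h1
  refine h1.trans (Nat.mul_le_mul_left _ ?_)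
  set R := (Icc (-(2 * M : ℕ) : ℤ) (2 * M : ℕ)).filter fun n => n ≠ 0 ∧
    ∃ j ∈ Icc (-(4 * J : ℕ) : ℤ) (4 * J : ℕ), (c : ℤ) ∣ a * n - j with hR
  have r1 : R.card ≤ (8 * J + 1) * (4 * M / c + 1) := by
    refine (card_le_card (t := (Icc (-(4 * J : ℕ) : ℤ) (4 * J : ℕ)).biUnion fun j =>
      (Icc (-(2 * M : ℕ) : ℤ) (2 * M : ℕ)).filter fun n => (c : ℤ) ∣ a * n - j)
      fun n hn => ?_).trans (card_biUnion_le.trans ((sum_le_card_nsmul _ _ (4 * M / c + 1)
        fun j _ => ?_).trans_eq ?_))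
    · obtain ⟨b1, -, j, b2, b3⟩ := mem_filter.1 hn
      exact mem_biUnion.2 ⟨j, b2, mem_filter.2 ⟨b1, b3⟩⟩
    · rw [show 4 * M = 2 * (2 * M) by ring]
      refine cls hc (2 * M) _ (fun n hn => abs_le.2 (mem_Icc.1 (mem_filter.1 hn).1))
        fun n hn n' hn' => ha.dvd_of_dvd_mul_left ?_
      have := dvd_sub (mem_filter.1 hn).2 (mem_filter.1 hn').2
      rwa [show a * n - j - (a * n' - j) = a * (n - n') by ring] at this
    · rw [Int.card_Icc, smul_eq_mul]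
      congr 1
      omega
  set E := ((A ×ˢ A) ×ˢ A ×ˢ A).filter fun x => x.1.1 + x.2.1 = x.1.2 + x.2.2 with hE
  have mE : ∀ x ∈ E, (x.1.1 ∈ A ∧ x.1.2 ∈ A) ∧ (x.2.1 ∈ A ∧ x.2.2 ∈ A) ∧
      x.1.1 + x.2.1 = x.1.2 + x.2.2 := fun x hx => by
    simpa only [hE, mem_filter, mem_product, and_assoc] using hx
  have key : ∀ x ∈ E, (q x.1.1 : ℤ) + q x.2.1 - q x.1.2 - q x.2.2 = D * ((x.1.2 - x.1.1) *
      ((x.2.2 - x.1.1) * (6 * (x.1.2 + x.2.2) + 8 * s + 2 * s'))) := fun x hx => by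
    obtain ⟨⟨a1, a2⟩, ⟨a3, a4⟩, a5⟩ := mE x hx
    rw [(hq _ a1).1, (hq _ a2).1, (hq _ a3).1, (hq _ a4).1]
    have e : (x.2.1 : ℤ) = x.1.2 + x.2.2 - x.1.1 := by omega
    push_cast
    rw [e]
    ring
  have e1 : (E.filter fun x => x.1.2 = x.1.1).card ≤ U ^ 2 := by
    refine (card_le_card_of_injOn (t := A ×ˢ A) (fun x => (x.1.1, x.2.1)) (fun x hx => ?_)
      fun x hx y hy e => ?_).trans (by rw [card_product, sq]; exact Nat.mul_le_mul AU AU)
    · have := mE x (mem_filter.1 hx).1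
      exact mem_coe.2 (mem_product.2 ⟨this.1.1, this.2.1.1⟩)
    · have a1 := (mE x (mem_filter.1 hx).1).2.2
      have a2 := (mE y (mem_filter.1 hy).1).2.2
      have a3 := (mem_filter.1 hx).2
      have a4 := (mem_filter.1 hy).2
      obtain ⟨a5, a6⟩ := Prod.ext_iff.1 e
      dsimp only at a5 a6
      exact Prod.ext (Prod.ext a5 (by omega)) (Prod.ext a6 (by omega))
  have e2 : (E.filter fun x => x.2.2 = x.1.1).card ≤ U ^ 2 := by
    refine (card_le_card_of_injOn (t := A ×ˢ A) (fun x => (x.1.1, x.2.1)) (fun x hx => ?_)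
      fun x hx y hy e => ?_).trans (by rw [card_product, sq]; exact Nat.mul_le_mul AU AU)
    · have := mE x (mem_filter.1 hx).1
      exact mem_coe.2 (mem_product.2 ⟨this.1.1, this.2.1.1⟩)
    · have a1 := (mE x (mem_filter.1 hx).1).2.2
      have a2 := (mE y (mem_filter.1 hy).1).2.2
      have a3 := (mem_filter.1 hx).2
      have a4 := (mem_filter.1 hy).2
      obtain ⟨a5, a6⟩ := Prod.ext_iff.1 e
      dsimp only at a5 a6
      exact Prod.ext (Prod.ext a5 (by omega)) (Prod.ext a6 (by omega))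
  have e3 : (E.filter fun x => x.1.2 ≠ x.1.1 ∧ x.2.2 ≠ x.1.1).card ≤
      (8 * J + 1) * (4 * M / c + 1) * (2 * τ) ^ 2 := by
    have n0 : ∀ x ∈ E.filter fun x => x.1.2 ≠ x.1.1 ∧ x.2.2 ≠ x.1.1,
        (q x.1.1 : ℤ) + q x.2.1 - q x.1.2 - q x.2.2 ≠ 0 := fun x hx => by
      obtain ⟨a1, a2, a3⟩ := mem_filter.1 hx
      have := mem_Ioc.1 (hA (mE x a1).1.2)
      rw [key x a1]
      exact mul_ne_zero (by omega) (mul_ne_zero (by omega) (mul_ne_zero (by omega) (by omega)))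
    refine (card_le_card_of_injOn (t := R.sigma fun n => sd n ×ˢ sd n)
      (fun x => ⟨(q x.1.1 : ℤ) + q x.2.1 - q x.1.2 - q x.2.2,
        ((x.1.2 : ℤ) - x.1.1, (x.2.2 : ℤ) - x.1.1)⟩) (fun x hx => ?_) fun x hx y hy e => ?_).trans ?_
    · have a0 := n0 x hx
      have a1 := (mem_filter.1 hx).1
      obtain ⟨⟨b1, b2⟩, ⟨b3, b4⟩, -⟩ := mE x a1
      obtain ⟨j1, c1, d1⟩ := hj _ b1
      obtain ⟨j2, c2, d2⟩ := hj _ b2
      obtain ⟨j3, c3, d3⟩ := hj _ b3
      obtain ⟨j4, c4, d4⟩ := hj _ b4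
      have := (hq _ b1).2
      have := (hq _ b2).2
      have := (hq _ b3).2
      have := (hq _ b4).2
      rw [abs_le] at c1 c2 c3 c4
      dsimp only
      refine mem_coe.2 (mem_sigma.2 ⟨mem_filter.2 ⟨mem_Icc.2 ⟨by dsimp only; omega,
        by dsimp only; omega⟩, a0,
        j1 + j3 - j2 - j4, mem_Icc.2 ⟨by omega, by omega⟩, ?_⟩,
        mem_product.2 ⟨mem_sd a0 ?_, mem_sd a0 ?_⟩⟩)
      · have := dvd_sub (dvd_sub (dvd_add d1 d3) d2) d4
        exact (congrArg _ (by ring)).mp this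
      · exact Dvd.dvd.trans ((dvd_mul_right _ _).mul_left _) (key x a1).symm.dvd
      · exact Dvd.dvd.trans (((dvd_mul_right _ _).mul_left _).mul_left _) (key x a1).symm.dvd
    · obtain ⟨a1, a2⟩ := Sigma.mk.inj_iff.1 e
      obtain ⟨a3, a4⟩ := Prod.ext_iff.1 (eq_of_heq a2)
      obtain ⟨b1, b2, b3⟩ := mem_filter.1 (mem_coe.1 hx)
      have b4 := (mem_filter.1 (mem_coe.1 hy)).1
      have b5 := (mE x b1).2.2
      have b6 := (mE y b4).2.2
      dsimp only at a3 a4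
      rw [key x b1, key y b4, ← a3, ← a4] at a1
      have := mul_left_cancel₀ (by omega) (mul_left_cancel₀ (by omega)
        (mul_left_cancel₀ (by omega) a1))
      exact Prod.ext (Prod.ext (by omega) (by omega)) (Prod.ext (by omega) (by omega))
    · rw [card_sigma]
      refine (sum_le_card_nsmul _ _ ((2 * τ) ^ 2) fun n hn => ?_).trans
        (Nat.mul_le_mul_right _ r1)
      obtain ⟨a1, a2, -⟩ := mem_filter.1 hn
      have := mem_Icc.1 a1
      have a3 := (sd_card n).trans (Nat.mul_le_mul_left 2 (hτ _ (by omega) (by omega)))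
      rw [card_product, sq]
      exact Nat.mul_le_mul a3 a3
  refine (card_le_card (t := (E.filter fun x => x.1.2 = x.1.1) ∪ (E.filter fun x => x.2.2 = x.1.1) ∪
    E.filter fun x => x.1.2 ≠ x.1.1 ∧ x.2.2 ≠ x.1.1) fun x hx => ?_).trans
    ((card_union_le _ _).trans ((Nat.add_le_add_right (card_union_le _ _) _).trans (by omega)))
  have hx' : x ∈ E := hx
  simp only [mem_union, mem_filter, hx', true_and]
  tauto

abbrev Ch : Type := Σ f : ℕ, DirichletCharacter ℂ f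

/-- reduced fractions with given denominators -/
def Fr (V : Finset ℕ) : Finset (Σ _ : ℕ, ℕ) :=
  V.sigma fun c => (range c).filter fun b => Nat.Coprime b c

/-- from characters to fractions -/
theorem gm (V : Finset ℕ) (S : Finset Ch) (hV : ∀ c ∈ V, 0 < c)
    (hS : ∀ z ∈ S, z.1 ∈ V ∧ z.2.IsPrimitive) (W : Finset ℕ) (c : ℕ → ℂ) :
    ∑ z ∈ S, ‖∑ n ∈ W, c n * z.2 n‖ ^ 2 ≤
      ∑ z ∈ Fr V, ‖∑ n ∈ W, c n * ee (n * ((z.2 : ℝ) / z.1))‖ ^ 2 := by
  set s : ℕ × ℕ → ℂ := fun z => ∑ n ∈ W, c n * ee (n * ((z.2 : ℝ) / z.1)) with hs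
  calc ∑ z ∈ S, ‖∑ n ∈ W, c n * z.2 n‖ ^ 2
      = ∑ z ∈ S, 1 / (z.1 : ℝ) * ‖∑ a ∈ range z.1, z.2⁻¹ (a : ZMod z.1) * s (z.1, a)‖ ^ 2 := by
        refine sum_congr rfl fun z hz => ?_
        obtain ⟨a1, a3⟩ := hS z hz
        obtain ⟨τ, t1, t2⟩ := LsmA.expand1 (hV _ a1) z.2 a3
        have q0 : (z.1 : ℝ) ≠ 0 := by exact_mod_cast (hV _ a1).ne'
        have e : ∑ a ∈ range z.1, z.2⁻¹ (a : ZMod z.1) * s (z.1, a) =
            τ * ∑ n ∈ W, c n * z.2 n := by
          simp only [hs, mul_sum]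
          rw [sum_comm]
          refine sum_congr rfl fun n _ => ?_
          rw [mul_left_comm, t2, mul_sum]
          exact sum_congr rfl fun a _ => by ring
        rw [e, norm_mul, mul_pow, t1]
        field_simp
    _ ≤ ∑ z ∈ V.sigma fun q => (univ : Finset (DirichletCharacter ℂ q)), 1 / (z.1 : ℝ) *
          ‖∑ a ∈ range z.1, z.2⁻¹ (a : ZMod z.1) * s (z.1, a)‖ ^ 2 :=
        sum_le_sum_of_subset_of_nonneg (fun z hz => mem_sigma.2 ⟨(hS z hz).1, mem_univ _⟩)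
          fun _ _ _ => by positivity
    _ ≤ _ := by
        rw [Fr, sum_sigma, sum_sigma]
        refine sum_le_sum fun q hq => ?_
        have q1 := hV q hq
        have : NeZero q := ⟨q1.ne'⟩
        have q0 : (0 : ℝ) < q := by exact_mod_cast q1
        dsimp only
        rw [← mul_sum, FamAux.pars_mul fun a => s (q, a), ← mul_assoc]
        refine mul_le_of_le_one_left (sum_nonneg fun _ _ => sq_nonneg _) ?_
        rw [one_div, inv_mul_le_iff₀ q0, mul_one]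
        exact_mod_cast Nat.totient_le q

/-- fractions with denominators dividing `q` are separated -/
theorem sepq {q a c a' c' : ℕ} {r : ℤ} (hq : 0 < q) (h1 : c ∣ q) (h2 : c' ∣ q) (h3 : a < c)
    (h4 : a' < c') (h5 : a.Coprime c) (h6 : a'.Coprime c')
    (h : |(a : ℝ) / c - (a' : ℝ) / c' - r| < 1 / q) : c = c' ∧ a = a' := by
  obtain ⟨e, rfl⟩ := h1
  obtain ⟨e', he⟩ := h2
  have c0 : 0 < c := by omega
  have c1 : 0 < c' := by omega
  have e0 : 0 < e := Nat.pos_of_mul_pos_left hq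
  have e1 : 0 < e' := Nat.pos_of_mul_pos_left (he ▸ hq)
  have q0 : (0 : ℝ) < (c * e : ℕ) := by exact_mod_cast hq
  have k1 : (a : ℝ) / c = (a * e : ℕ) / (c * e : ℕ) := by push_cast; field_simp
  have k2 : (a' : ℝ) / c' = (a' * e' : ℕ) / (c * e : ℕ) := by rw [he]; push_cast; field_simp
  have k3 : ((a * e : ℕ) : ℝ) / (c * e : ℕ) - (a' * e' : ℕ) / (c * e : ℕ) - r =
      (((a * e : ℕ) - (a' * e' : ℕ) - r * (c * e : ℕ) : ℤ) : ℝ) / (c * e : ℕ) := by
    push_cast; field_simp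
  rw [k1, k2, k3, abs_div, abs_of_pos q0, div_lt_div_iff_of_pos_right q0, ← Int.cast_abs] at h
  have k4 : ((a * e : ℕ) : ℤ) - (a' * e' : ℕ) - r * (c * e : ℕ) = 0 :=
    Int.abs_lt_one_iff.1 (by exact_mod_cast h)
  have k5 : a * e < c * e := Nat.mul_lt_mul_of_pos_right h3 e0
  have k6 : a' * e' < c * e := he ▸ Nat.mul_comm c' e' ▸ Nat.mul_comm a' e' ▸
    Nat.mul_lt_mul_of_pos_left h4 e1
  have k7 : a * e = a' * e' := by
    have := Int.eq_zero_of_abs_lt_dvd (m := (c * e : ℕ)) (x := (a * e : ℕ) - (a' * e' : ℕ))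
      ⟨r, by linarith⟩ (by rw [abs_lt]; constructor <;> omega)
    omega
  have k8 : e = e' := by
    rw [← one_mul e, ← one_mul e', ← h5.gcd_eq_one, ← Nat.gcd_mul_right, k7, he,
      Nat.gcd_mul_right, h6.gcd_eq_one, h5.gcd_eq_one]
  subst k8
  exact ⟨Nat.eq_of_mul_eq_mul_right e0 he, Nat.eq_of_mul_eq_mul_right e0 k7⟩

theorem num {U D h c C τ : ℝ} (U1 : 1 ≤ U) (D1 : 1 ≤ D) (h0 : 0 < h) (c0 : 0 < c) {M J P : ℝ}
    (hM : M = 54 * D * U ^ 3) (big : M ^ 4 ≤ h ^ 2 * U ^ 3) (c1 : c ≤ M) (c2 : h ^ 5 ≤ c ^ 9)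
    (J1 : J * h ≤ M * c) (P0 : 0 ≤ P) (P1 : P * c ≤ 4 * M) 
    (τ1 : τ ^ 4 ≤ C ^ 4 * U) :
    (8 * J + 1) * (P + 1) * (2 * τ) ^ 2 ≤ 180 * C ^ 2 * U ^ 2 := by
  obtain ⟨w, w1, rfl⟩ : ∃ w : ℝ, 1 ≤ w ∧ U = w ^ 2 :=
    ⟨√U, Real.one_le_sqrt.2 U1, (Real.sq_sqrt (by linarith)).symm⟩
  have w0 : 0 < w := by linarith
  have w3 : 1 ≤ w ^ 3 := one_le_pow₀ w1
  have M1 : w ^ 6 ≤ M := by
    rw [hM, show (w ^ 2) ^ 3 = w ^ 6 by ring]
    exact le_mul_of_one_le_left (by positivity) (by linarith)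
  have M0 : 0 < M := lt_of_lt_of_le (by positivity) M1
  have a1 : M ^ 2 ≤ h * w ^ 3 := (pow_le_pow_iff_left₀ (by positivity) (by positivity)
    two_ne_zero).1 (by linarith [show (M ^ 2) ^ 2 = M ^ 4 by ring,
      show (h * w ^ 3) ^ 2 = h ^ 2 * (w ^ 2) ^ 3 by ring])
  have a2 : τ ^ 2 ≤ C ^ 2 * w := (pow_le_pow_iff_left₀ (by positivity) (by positivity)
    two_ne_zero).1 (by linarith [show (τ ^ 2) ^ 2 = τ ^ 4 by ring,
      show (C ^ 2 * w) ^ 2 = C ^ 4 * w ^ 2 by ring])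
  have a3 : J ≤ w ^ 3 := le_of_mul_le_mul_right (by nlinarith) h0
  have a4 : J * P ≤ 4 * w ^ 3 := by
    refine le_of_mul_le_mul_right ?_ (mul_pos h0 c0)
    calc J * P * (h * c) = J * h * (P * c) := by ring
      _ ≤ M * c * (4 * M) := mul_le_mul J1 P1 (by positivity) (by positivity)
      _ = 4 * c * M ^ 2 := by ring
      _ ≤ 4 * c * (h * w ^ 3) := by gcongr
      _ = _ := by ring
  have a5 : M ≤ w ^ 3 * c := by
    refine (pow_le_pow_iff_left₀ M0.le (by positivity) (n := 9) (by norm_num)).1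
      (le_of_mul_le_mul_right ?_ (show 0 < M by positivity))
    calc M ^ 9 * M = (M ^ 2) ^ 5 := by ring
      _ ≤ (h * w ^ 3) ^ 5 := by gcongr
      _ = h ^ 5 * w ^ 15 * 1 := by ring
      _ ≤ c ^ 9 * w ^ 27 * M := by
        gcongr
        · norm_num
        · exact (one_le_pow₀ w1).trans M1
      _ = _ := by ring
  have a6 : P ≤ 4 * w ^ 3 := le_of_mul_le_mul_right (by linarith) c0
  calc _ = (8 * (J * P) + 8 * J + P + 1) * (4 * τ ^ 2) := by ring
    _ ≤ (45 * w ^ 3) * (4 * (C ^ 2 * w)) := by gcongr; linarith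
    _ = _ := by ring

end BigA

open BigA in
/-- the characters of large conductor -/
theorem large : ∃ C : ℝ, 0 < C ∧ ∀ (U h D s s' y : ℕ) (q : ℕ → ℕ) (T : Finset ℕ) (c : ℕ → ℂ)
    (S : ℕ → Finset BigA.Ch) (β : ℝ), 1 ≤ U → 1 ≤ D → 108 * D ≤ U → s ≤ U → s' ≤ 2 * U →
    T ⊆ Ioc U (2 * U) → (∀ u ∈ T, q u = D * ((u + s) ^ 2 * (2 * u + s'))) →
    (54 * D * U ^ 3) ^ 4 ≤ h ^ 2 * U ^ 3 →
    (∀ u ∈ T, ∀ z ∈ S u, z.1 ∣ q u ∧ h ^ 5 < z.1 ^ 9 ∧ z.2.IsPrimitive) → 0 ≤ β →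
    C * U ^ 3 ≤ β ^ 4 → ∑ u ∈ T, ∑ z ∈ S u, ‖∑ n ∈ Ico y (y + h), c n * z.2 n‖ ^ 2 ≤
      β * ((h + h * (1 + Real.log h)) * ∑ n ∈ Ico y (y + h), ‖c n‖ ^ 2) := by
  classical
  obtain ⟨C, C1, hC⟩ := NcA.divisor (show (0 : ℝ) < 1 / 16 by norm_num)
  refine ⟨4 + 360 * C ^ 2, by positivity,
    fun U h D s s' y q T c S β U1 D1 DU s1 s2 sub eq big hS β0 hβ => ?_⟩
  obtain ⟨M, hM⟩ : ∃ M, M = 54 * D * U ^ 3 := ⟨_, rfl⟩
  rw [← hM] at big
  have M1 : 54 * U ^ 3 ≤ M := hM ▸ Nat.mul_le_mul_right _ (by omega)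
  have U3 : 1 ≤ U ^ 3 := Nat.one_le_pow _ _ U1
  have Mh : 2 * M ≤ h := by
    by_contra k
    have a1 : h ^ 2 * U ^ 3 ≤ (2 * M) ^ 2 * M :=
      Nat.mul_le_mul (Nat.pow_le_pow_left (by omega) 2) (by omega)
    have a2 : M ^ 3 * M ≤ M ^ 3 * 4 := by nlinarith
    have := Nat.le_of_mul_le_mul_left a2 (Nat.pow_pos (by omega))
    omega
  have h1 : 1 ≤ h := by omega
  have h0 : (0 : ℝ) < h := by exact_mod_cast h1
  have hq : ∀ u ∈ T, 1 ≤ q u ∧ q u ≤ M := fun u hu => by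
    have a := mem_Ioc.1 (sub hu)
    rw [eq u hu, hM, show 54 * D * U ^ 3 = D * ((3 * U) ^ 2 * (6 * U)) by ring]
    exact ⟨Nat.mul_pos D1 (Nat.mul_pos (Nat.pow_pos (by omega)) (by omega)),
      Nat.mul_le_mul_left _ (Nat.mul_le_mul (Nat.pow_le_pow_left (by omega) 2) (by omega))⟩
  set V : ℕ → Finset ℕ := fun u => (q u).divisors.filter fun e => h ^ 5 < e ^ 9 with hV
  have a1 := sum_le_sum fun u (hu : u ∈ T) => gm (V u) (S u)
    (fun e he => Nat.pos_of_mem_divisors (mem_filter.1 he).1) (fun z hz => ⟨mem_filter.2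
      ⟨Nat.mem_divisors.2 ⟨(hS u hu z hz).1, by have := (hq u hu).1; omega⟩, (hS u hu z hz).2.1⟩,
      (hS u hu z hz).2.2⟩) (Ico y (y + h)) c
  refine a1.trans ?_
  rw [sum_sigma' T fun u => Fr (V u)]
  have mI : ∀ i ∈ T.sigma fun u => Fr (V u), i.1 ∈ T ∧ i.2.1 ∣ q i.1 ∧ h ^ 5 < i.2.1 ^ 9 ∧
      i.2.2 < i.2.1 ∧ i.2.2.Coprime i.2.1 := fun i hi => by
    obtain ⟨b1, b2⟩ := mem_sigma.1 hi
    obtain ⟨b3, b4⟩ := mem_sigma.1 b2
    exact ⟨b1, Nat.dvd_of_mem_divisors (mem_filter.1 b3).1, (mem_filter.1 b3).2,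
      mem_range.1 (mem_filter.1 b4).1, (mem_filter.1 b4).2⟩
  have cl : ∀ i ∈ T.sigma fun u => Fr (V u), ∀ N : Finset (Σ _ : ℕ, Σ _ : ℕ, ℕ),
      (∀ j ∈ N, (j ∈ T.sigma fun u => Fr (V u)) ∧
        ∃ r : ℤ, |(i.2.2 : ℝ) / i.2.1 - (j.2.2 : ℝ) / j.2.1 - r| < 1 / h) → N.card ≤ ⌊β⌋₊ := by
    intro i hi N mN
    obtain ⟨i1, i2, i3, i4, i5⟩ := mI i hi
    rw [← card_image_of_injOn (f := fun j : Σ _ : ℕ, Σ _ : ℕ, ℕ => j.1) fun j hj j' hj' e => by
      obtain ⟨j1, r, j2⟩ := mN j hj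
      obtain ⟨j3, r', j4⟩ := mN j' hj'
      obtain ⟨b1, b2, -, b3, b4⟩ := mI j j1
      obtain ⟨-, b5, -, b6, b7⟩ := mI j' j3
      obtain ⟨u, e1, a1⟩ := j
      obtain ⟨u', e2, a2⟩ := j'
      obtain rfl : u = u' := e
      have q0 : (0 : ℝ) < q u := by exact_mod_cast (hq u b1).1
      obtain ⟨rfl, rfl⟩ := sepq (r := r' - r) (hq u b1).1 b2 b5 b3 b6 b4 b7 (by
        have : 1 / (h : ℝ) + 1 / h ≤ 1 / q u := by
          rw [← add_div, div_le_div_iff₀ h0 q0]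
          exact_mod_cast (by have := (hq u b1).2; omega : (1 + 1) * q u ≤ 1 * h)
        rw [abs_lt] at j2 j4 ⊢
        push_cast
        constructor <;> linarith [j2.1, j2.2, j4.1, j4.2])
      rfl]
    have c0 : 0 < i.2.1 := by omega
    have c1 : i.2.1 ≤ M := (Nat.le_of_dvd (hq _ i1).1 i2).trans (hq _ i1).2
    have c2 : (0 : ℝ) < i.2.1 := by exact_mod_cast c0
    have b1 := pts (U := U) (D := D) (s := s) (s' := s') (c := i.2.1) (M := M) (J := M * i.2.1 / h)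
      (τ := ⌊C * (U : ℝ) ^ (1 / 4 : ℝ)⌋₊) (a := i.2.2) (q := q) (N.image fun j => j.1) D1 c0
      (Nat.isCoprime_iff_coprime.2 i5.symm) (fun u hu => by
        obtain ⟨j, hj, rfl⟩ := mem_image.1 hu
        exact sub (mI j (mN j hj).1).1) (fun u hu => by
        obtain ⟨j, hj, rfl⟩ := mem_image.1 hu
        exact ⟨eq _ (mI j (mN j hj).1).1, (hq _ (mI j (mN j hj).1).1).2⟩) (fun u hu => by
        obtain ⟨j, hj, rfl⟩ := mem_image.1 hu
        obtain ⟨j1, r, j2⟩ := mN j hj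
        obtain ⟨b1, ⟨e, b2⟩, -, b3, -⟩ := mI j j1
        refine ⟨i.2.2 * q j.1 - i.2.1 * (j.2.2 * e + r * q j.1), ?_, ⟨_, sub_sub_cancel _ _⟩⟩
        have j0 : (0 : ℝ) < j.2.1 := by exact_mod_cast (by omega : 0 < j.2.1)
        have q0 : (0 : ℝ) < q j.1 := by exact_mod_cast (hq _ b1).1
        have e1 : ((i.2.2 * q j.1 - i.2.1 * (j.2.2 * e + r * q j.1) : ℤ) : ℝ) =
            ((i.2.2 : ℝ) / i.2.1 - (j.2.2 : ℝ) / j.2.1 - r) * (q j.1 * i.2.1) := by
          rw [b2]; push_cast; field_simp; ring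
        rw [Int.abs_eq_natAbs, Nat.cast_le, Nat.le_div_iff_mul_le h1, ← Nat.cast_le (α := ℝ),
          Nat.cast_mul, Nat.cast_natAbs, Int.cast_abs, e1, abs_mul, abs_of_pos (mul_pos q0 c2),
          Nat.cast_mul, mul_right_comm]
        refine (mul_le_of_le_one_left (by positivity) ((lt_div_iff₀ h0).1 j2).le).trans ?_
        exact mul_le_mul_of_nonneg_right (Nat.cast_le.2 (hq _ b1).2) c2.le) fun n n1 n2 => by
        refine Nat.le_floor ((hC n n1).trans (mul_le_mul_of_nonneg_left ?_ (by linarith)))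
        have : (n : ℝ) ≤ (U : ℝ) ^ 4 := by
          exact_mod_cast n2.trans (by rw [hM]; nlinarith : 2 * M ≤ U ^ 4)
        refine (Real.rpow_le_rpow (by positivity) this (by norm_num)).trans_eq ?_
        rw [← Real.rpow_natCast, ← Real.rpow_mul (by positivity)]
        norm_num
    have b2 := num (C := C) (Nat.one_le_cast.2 U1) (Nat.one_le_cast.2 D1) h0 c2 (M := M)
      (J := (M * i.2.1 / h : ℕ)) (P := (4 * M / i.2.1 : ℕ)) (τ := ⌊C * (U : ℝ) ^ (1 / 4 : ℝ)⌋₊)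
      (by exact_mod_cast hM) (by exact_mod_cast big) (by exact_mod_cast c1)
      (by exact_mod_cast i3.le) (by exact_mod_cast Nat.div_mul_le_self _ _)
      (by positivity) (by exact_mod_cast Nat.div_mul_le_self _ _)
      ((pow_le_pow_left₀ (by positivity) (Nat.floor_le (by positivity)) 4).trans_eq (by
        rw [mul_pow, ← Real.rpow_natCast (_ ^ _), ← Real.rpow_mul (by positivity)]
        norm_num))
    have b3 := (Nat.cast_le (α := ℝ)).2 b1
    push_cast at b3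
    refine Nat.le_floor ((pow_le_pow_iff_left₀ (by positivity) β0 (n := 4) (by norm_num)).1
      (b3.trans (le_trans ?_ hβ)))
    calc _ ≤ 2 * (U : ℝ) * (2 * U ^ 2 + 180 * C ^ 2 * U ^ 2) := by gcongr
      _ = _ := by ring
  have a2 := mls (fun i : Σ _ : ℕ, Σ _ : ℕ, ℕ => (i.2.2 : ℝ) / i.2.1) h1 h (fun i => c (y + i))
    ⌊β⌋₊ (T.sigma fun u => Fr (V u)) fun i hi => cl i hi _ fun j hj => mem_filter.1 hj
  rw [sum_Ico_eq_sum_range (fun n => ‖c n‖ ^ 2), Nat.add_sub_cancel_left]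
  refine le_trans (le_of_eq (sum_congr rfl fun z _ => ?_)) (a2.trans
    (mul_le_mul_of_nonneg_right (Nat.floor_le β0) ?_))
  · rw [sum_Ico_eq_sum_range, Nat.add_sub_cancel_left]
    have e : ∑ i ∈ range h, c (y + i) * ee (((y + i : ℕ) : ℝ) * ((z.2.2 : ℝ) / z.2.1)) =
        ee (y * ((z.2.2 : ℝ) / z.2.1)) *
          ∑ i ∈ range h, c (y + i) * ee (i * ((z.2.2 : ℝ) / z.2.1)) := by
      rw [mul_sum]
      refine sum_congr rfl fun i _ => ?_
      rw [Nat.cast_add, add_mul, ee_add]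
      ring
    rw [e, norm_mul, norm_ee, one_mul]
  · have := Real.log_natCast_nonneg h
    positivity

end Pool.Agent.MP_a43263_nt.N2

end

end PkN2Big

section PkN2Var

/-! THEOREM N2, row VAR: the variance over the characters of a family of moduli. -/

set_option autoImplicit false

noncomputable section

namespace Pool.Agent.MP_a43263_nt.N2

open Finset Filter K2 DirichletCharacter
open scoped ArithmeticFunction.vonMangoldt

namespace VarA

abbrev Ch : Type := Σ f : ℕ, DirichletCharacter ℂ f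

def E (y h : ℕ) (z : Ch) : ℂ :=
  ∑ n ∈ Ico y (y + h), (((Λ n : ℝ) : ℂ) * z.2 n - (ind (z.2 = 1) : ℝ))

def F (X h : ℕ) (z : Ch) : ℝ := ∑ y ∈ Ioc X (2 * X), ‖E y h z‖ ^ 2

def pr {q : ℕ} (χ : DirichletCharacter ℂ q) : Ch := ⟨_, χ.primitiveCharacter⟩

open Classical in
def P (Q : ℕ) : Finset Ch := (Icc 1 Q).sigma fun _ => univ.filter IsPrimitive

theorem F_nonneg (X h : ℕ) (z : Ch) : 0 ≤ F X h z := sum_nonneg fun _ _ => sq_nonneg _

theorem mem_P {Q : ℕ} {z : Ch} : z ∈ P Q ↔ (1 ≤ z.1 ∧ z.1 ≤ Q) ∧ z.2.IsPrimitive := by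
  simp only [P, mem_sigma, mem_Icc, mem_filter, mem_univ, true_and]

theorem card_ch {q : ℕ} (hq : 1 ≤ q) : (univ : Finset (DirichletCharacter ℂ q)).card ≤ q := by
  have : NeZero q := ⟨by omega⟩
  rw [card_univ, ← Nat.card_eq_fintype_card, card_eq_totient_of_hasEnoughRootsOfUnity ℂ q]
  exact Nat.totient_le q

theorem card_P (Q : ℕ) : (P Q).card ≤ Q * Q := by
  classical
  rw [P, card_sigma]
  refine (sum_le_card_nsmul _ _ Q fun c hc => ?_).trans (by simp)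
  exact (card_filter_le _ _).trans ((card_ch (mem_Icc.1 hc).1).trans (mem_Icc.1 hc).2)

theorem ncp {q K : ℕ} (hq : 1 ≤ q) (S : Finset ℕ) (hS : ∀ n ∈ S, n < 2 ^ K) :
    ∑ n ∈ S.filter (fun n => ¬n.Coprime q), Λ n ≤ K * Real.log q := by
  rw [← Real.log_pow, ← Nat.cast_pow, ← ArithmeticFunction.vonMangoldt_sum, ← sum_filter_ne_zero]
  refine sum_le_sum_of_subset_of_nonneg (fun n hn => ?_)
    fun _ _ _ => ArithmeticFunction.vonMangoldt_nonneg
  obtain ⟨h1, h2⟩ := mem_filter.1 hn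
  obtain ⟨h3, h4⟩ := mem_filter.1 h1
  obtain ⟨p, k, hp, hk, rfl⟩ :=
    (isPrimePow_nat_iff _).1 (ArithmeticFunction.vonMangoldt_ne_zero_iff.1 h2)
  have d : p ∣ q := by
    by_contra t
    exact h4 (Nat.Coprime.pow_left _ ((Nat.Prime.coprime_iff_not_dvd hp).2 t))
  have : k < K := (Nat.pow_lt_pow_iff_right one_lt_two).1
    ((Nat.pow_le_pow_left hp.two_le k).trans_lt (hS _ h3))
  exact Nat.mem_divisors.2 ⟨(pow_dvd_pow_of_dvd d k).trans (pow_dvd_pow q this.le), by positivity⟩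

theorem diff {q K y h : ℕ} (hq : 1 ≤ q) (χ : DirichletCharacter ℂ q) (hK : y + h ≤ 2 ^ K) :
    ‖E y h ⟨q, χ⟩‖ ≤ ‖E y h (pr χ)‖ + K * Real.log q := by
  have : NeZero q := ⟨by omega⟩
  have : NeZero χ.conductor := ⟨conductor_ne_zero χ⟩
  have e1 : χ.primitiveCharacter = 1 ↔ χ = 1 := by
    rw [eq_one_iff_conductor_eq_one, eq_one_iff_conductor_eq_one,
      (isPrimitive_def _).1 χ.primitiveCharacter_isPrimitive]
  have e2 : E y h ⟨q, χ⟩ = E y h (pr χ) - ∑ n ∈ (Ico y (y + h)).filter (fun n => ¬n.Coprime q),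
      ((Λ n : ℝ) : ℂ) * χ.primitiveCharacter n := by
    rw [sum_filter, E, E, ← sum_sub_distrib]
    refine sum_congr rfl fun n _ => ?_
    change ((Λ n : ℝ) : ℂ) * χ n - (ind (χ = 1) : ℝ) =
      ((Λ n : ℝ) : ℂ) * χ.primitiveCharacter n - (ind (χ.primitiveCharacter = 1) : ℝ) - _
    rw [ind_congr e1]
    by_cases k : n.Coprime q
    · have := χ.primitiveCharacter_apply_of_isCoprime (Nat.isCoprime_iff_coprime.2 k)
      rw [Int.cast_natCast, Int.cast_natCast] at this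
      rw [if_neg (not_not.2 k), this, sub_zero]
    · rw [if_pos k, χ.map_nonunit fun t => k ((ZMod.isUnit_iff_coprime n q).1 t)]
      ring
  rw [e2]
  refine (norm_sub_le _ _).trans (add_le_add_right ((norm_sum_le _ _).trans
    ((sum_le_sum fun n _ => ?_).trans (ncp hq _ fun n hn => (mem_Ico.1 hn).2.trans_le hK))) _)
  rw [norm_mul, Complex.norm_real, Real.norm_of_nonneg ArithmeticFunction.vonMangoldt_nonneg]
  exact mul_le_of_le_one_right ArithmeticFunction.vonMangoldt_nonneg (norm_le_one _ _)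

theorem pr_inj (q : ℕ) : Function.Injective (pr (q := q)) := by
  classical
  refine Function.LeftInverse.injective
    (g := fun z : Ch => if h : z.1 ∣ q then changeLevel h z.2 else 1) fun χ => ?_
  exact (dif_pos χ.conductor_dvd_level).trans χ.changeLevel_primitiveCharacter

theorem red {q Q K X h : ℕ} {R : ℝ} (hq : 1 ≤ q) (hQ : q ≤ Q) (hK : 2 * X + h ≤ 2 ^ K)
    (hR : K * Real.log q ≤ R) :
    ∑ y ∈ Ioc X (2 * X), ∑ χ : DirichletCharacter ℂ q, ‖E y h ⟨q, χ⟩‖ ^ 2 ≤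
      2 * ∑ z ∈ (P Q).filter (fun z => z.1 ∣ q), F X h z + Q * (X * (2 * R ^ 2)) := by
  classical
  have : NeZero q := ⟨by omega⟩
  have h1 : ∀ χ : DirichletCharacter ℂ q, ∑ y ∈ Ioc X (2 * X), ‖E y h ⟨q, χ⟩‖ ^ 2 ≤
      2 * F X h (pr χ) + X * (2 * R ^ 2) := by
    intro χ
    refine (sum_le_sum (g := fun y => 2 * ‖E y h (pr χ)‖ ^ 2 + 2 * R ^ 2) fun y hy => ?_).trans_eq ?_
    · have a := (diff hq χ (y := y) (h := h) (K := K)
        (by have := (mem_Ioc.1 hy).2; omega)).trans (add_le_add_right hR _)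
      have b := pow_le_pow_left₀ (norm_nonneg _) a 2
      nlinarith [sq_nonneg (‖E y h (pr χ)‖ - R)]
    · rw [sum_add_distrib, ← mul_sum, sum_const, Nat.card_Ioc, nsmul_eq_mul,
        show 2 * X - X = X by omega, F]
  rw [sum_comm]
  refine (sum_le_sum fun χ _ => h1 χ).trans ?_
  rw [sum_add_distrib, ← mul_sum, sum_const, nsmul_eq_mul,
    ← sum_image (f := F X h) fun a _ b _ e => pr_inj q e]
  refine add_le_add (mul_le_mul_of_nonneg_left (sum_le_sum_of_subset_of_nonneg (fun z hz => ?_)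
    fun z _ _ => F_nonneg X h z) zero_le_two) (mul_le_mul_of_nonneg_right ?_ (by positivity))
  · obtain ⟨χ, -, rfl⟩ := mem_image.1 hz
    exact mem_filter.2 ⟨mem_P.2 ⟨⟨Nat.pos_of_ne_zero (conductor_ne_zero χ),
      (Nat.le_of_dvd hq χ.conductor_dvd_level).trans hQ⟩, χ.primitiveCharacter_isPrimitive⟩,
      χ.conductor_dvd_level⟩
  · exact_mod_cast (card_ch hq).trans hQ

theorem swap (T : Finset ℕ) (q : ℕ → ℕ) (S : Finset Ch) (G : Ch → ℝ) :
    ∑ u ∈ T, ∑ z ∈ S.filter (fun z => z.1 ∣ q u), G z =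
      ∑ z ∈ S, ((T.filter fun u => z.1 ∣ q u).card : ℝ) * G z := by
  simp only [sum_filter]
  rw [sum_comm]
  refine sum_congr rfl fun z _ => ?_
  rw [← sum_filter, sum_const, nsmul_eq_mul]

theorem blk (lsm : LSMStmt) {X h Q : ℕ} {l : ℝ} (S : Finset Ch) (hQ : 1 ≤ Q)
    (hS : ∀ z ∈ S, 1 < z.1 ∧ z.1 ≤ Q ∧ z.2.IsPrimitive) (hl : ∀ n < 2 * X + h, Λ n ≤ l) :
    ∑ z ∈ S, F X h z ≤ X * ((h + (Q : ℝ) ^ 2 * (1 + 2 * Real.log Q)) * (h * l ^ 2)) := by
  simp only [F]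
  rw [sum_comm]
  refine (sum_le_card_nsmul _ _ _ fun y hy => ?_).trans_eq
    (by rw [Nat.card_Ioc, nsmul_eq_mul, show 2 * X - X = X by omega])
  have h1 := lsm Q y h (fun n => ((Λ n : ℝ) : ℂ)) S hQ
    fun z hz => ⟨by have := (hS z hz).1; omega, (hS z hz).2⟩
  have h2 : ∀ z ∈ S, E y h z = ∑ n ∈ Ico y (y + h), ((Λ n : ℝ) : ℂ) * z.2 n := by
    intro z hz
    obtain ⟨a, -, b⟩ := hS z hz
    have : NeZero z.1 := ⟨by omega⟩
    have c : z.2 ≠ 1 := fun t => by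
      have := (eq_one_iff_conductor_eq_one.1 t).symm.trans ((isPrimitive_def _).1 b)
      omega
    simp only [E, ind_neg c, Complex.ofReal_zero, sub_zero]
  rw [sum_congr rfl fun z hz => by rw [h2 z hz]]
  have := Real.log_natCast_nonneg Q
  refine h1.trans (mul_le_mul_of_nonneg_left ?_ (by positivity))
  refine (sum_le_card_nsmul _ _ (l ^ 2) fun n hn => ?_).trans_eq
    (by rw [Nat.card_Ico, nsmul_eq_mul, Nat.add_sub_cancel_left])
  rw [Complex.norm_real, Real.norm_of_nonneg ArithmeticFunction.vonMangoldt_nonneg]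
  refine pow_le_pow_left₀ ArithmeticFunction.vonMangoldt_nonneg (hl n ?_) 2
  have := (mem_Ioc.1 hy).2
  have := (mem_Ico.1 hn).2
  omega

theorem num {w L h M g : ℝ} {b : ℕ} (hw : 0 < w) (hL : 0 < L) (hh : 0 ≤ h)
    (h1 : L ^ (4 * b) ≤ 2 * w ^ 4) (h2 : w ^ 4 ≤ M) (h3 : M ^ 9 ≤ h ^ 5)
    (h4 : L ^ (36 * (b + 1)) ≤ h) (hg : g ≤ 5 * L) :
    (h + (2 * w ^ 4) ^ 2 * g) / w ≤ 22 * h / L ^ b := by
  have a1 : L ^ b ≤ 2 * w := by
    rw [← pow_le_pow_iff_left₀ (by positivity) (by positivity) (n := 4) (by norm_num), ← pow_mul,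
      mul_comm b]
    have : 0 ≤ w ^ 4 := by positivity
    linarith [show (2 * w) ^ 4 = 16 * w ^ 4 by ring]
  have a2 : w ^ 7 * (L ^ b * L) ≤ h := by
    rw [← pow_le_pow_iff_left₀ (by positivity) hh (n := 36) (by norm_num), ← pow_succ, mul_pow,
      ← pow_mul L, mul_comm (b + 1), show (w ^ 7) ^ 36 = ((w ^ 4) ^ 9) ^ 7 by ring,
      show h ^ 36 = (h ^ 5) ^ 7 * h by ring]
    exact mul_le_mul (pow_le_pow_left₀ (by positivity)
      ((pow_le_pow_left₀ (by positivity) h2 9).trans h3) 7) h4 (by positivity) (by positivity)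
  have a0 : 0 < L ^ b := by positivity
  rw [div_le_div_iff₀ hw a0]
  generalize L ^ b = l at a0 a1 a2
  have a3 := mul_le_mul_of_nonneg_left a1 hh
  have a4 := mul_le_mul_of_nonneg_left a2 hw.le
  have a5 := mul_le_mul_of_nonneg_left hg (show 0 ≤ w ^ 8 * l by positivity)
  linarith [show (h + (2 * w ^ 4) ^ 2 * g) * l = h * l + 4 * (w ^ 8 * l * g) by ring,
    show w ^ 8 * l * (5 * L) = 5 * (w * (w ^ 7 * (l * L))) by ring]

theorem ev (m : ℕ) (c : ℝ) : ∀ᶠ X : ℕ in atTop,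
    3 ≤ X ∧ c ≤ Real.log X ∧ Real.log X ^ m ≤ (X : ℝ) ^ (1 / 4 : ℝ) := by
  have h1 := (isLittleO_log_rpow_rpow_atTop (m : ℝ) (show (0 : ℝ) < 1 / 4 by norm_num)).bound
    one_pos
  filter_upwards [eventually_ge_atTop 3, tendsto_natCast_atTop_atTop.eventually h1,
    (Real.tendsto_log_atTop.comp tendsto_natCast_atTop_atTop).eventually_ge_atTop c]
    with X a b d
  refine ⟨a, d, ?_⟩
  rw [Real.rpow_natCast, one_mul] at b
  exact (le_abs_self _).trans (b.trans_eq (Real.norm_of_nonneg (by positivity)))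

end VarA

open VarA in
theorem var_n : SIVStmt → LSMStmt → NCStmt → VARStmt := by
  classical
  rintro siv lsm ⟨C, C0, nc⟩ A B
  obtain ⟨b, hb⟩ : ∃ b, b = A + B + 5 := ⟨_, rfl⟩
  obtain ⟨C', C0', lar⟩ := large
  filter_upwards [siv (A + 8 * b + 1) (4 * b), ev (36 * (b + 1)) (96 + 2112 * C),
    ev (9 * (1 + B + 3 * (4 * b))) (200 + C')]
    with X hs ⟨X3, hL, hp⟩ ⟨_, hL', hp'⟩ U h D s s' q T H
  have hh := hp.trans H.lo
  have hh' := hp'.trans H.lo
  have X0 : (3 : ℝ) ≤ X := by exact_mod_cast X3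
  have lg : ∀ x : ℝ, 0 < x → x ≤ 3 * X → Real.log x ≤ 2 * Real.log X := fun x a c => by
    rw [show 2 * Real.log X = Real.log ((X : ℝ) ^ 2) by simp]
    exact Real.log_le_log a (by nlinarith)
  have hD := H.Dl
  have hs' : ∀ z : Ch, 1 ≤ z.1 → (z.1 : ℝ) ≤ Real.log X ^ (4 * b) →
      F X h z ≤ (h : ℝ) ^ 2 * X / Real.log X ^ (A + 8 * b + 1) :=
    fun z a c => hs z.1 h z.2 a c H.lo H.hi
  obtain ⟨K, K1, K2, K3⟩ : ∃ K : ℕ, 3 * X < 2 ^ K ∧ (K : ℝ) ≤ 4 * Real.log X ∧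
      ∀ c ≤ X, Nat.log 2 c < K := by
    refine ⟨Nat.log 2 (3 * X) + 1, Nat.lt_pow_succ_log_self one_lt_two _, ?_,
      fun c hc => Nat.lt_succ_of_le (Nat.log_mono_right (by omega))⟩
    have a : ((2 : ℝ)) ^ Nat.log 2 (3 * X) ≤ 3 * X := by
      exact_mod_cast Nat.pow_log_le_self 2 (show 3 * X ≠ 0 by omega)
    have c := lg _ (by positivity) a
    rw [Real.log_pow] at c
    have d := mul_le_mul_of_nonneg_left Real.log_two_gt_d9.le
      (Nat.cast_nonneg (α := ℝ) (Nat.log 2 (3 * X)))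
    push_cast
    linarith
  have lX : ∀ c : ℕ, c ≤ X → Real.log c ≤ Real.log X := fun c hc => by
    rcases c.eq_zero_or_pos with rfl | e
    · simpa using Real.log_natCast_nonneg X
    · exact Real.log_le_log (by exact_mod_cast e) (by exact_mod_cast hc)
  clear hs hp hp'
  generalize Real.log X = L at *
  have L1 : 1 ≤ L := by linarith
  have L0 : 0 < L := by linarith
  have h1 : 1 ≤ h := by exact_mod_cast (one_le_pow₀ L1).trans hh
  obtain ⟨M, hM⟩ : ∃ M, M = 54 * D * U ^ 3 := ⟨_, rfl⟩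
  have Mh : M ≤ h := by
    have a2 : U ^ 3 ≤ M := hM ▸ Nat.le_mul_of_pos_left _ (by have := H.D1; omega)
    have a3 : 1 ≤ M := (Nat.one_le_pow _ _ H.U1).trans a2
    refine (Nat.pow_le_pow_iff_left (n := 2) (by norm_num)).1 ((Nat.pow_le_pow_right a3
      (by norm_num : 2 ≤ 3)).trans (Nat.le_of_mul_le_mul_right ((pow_succ _ 3).ge.trans
        ((hM ▸ H.big : M ^ 4 ≤ _).trans (Nat.mul_le_mul_left _ a2))) a3))
  have hX := H.hi
  have TU : T.card ≤ U := (card_le_card H.sub).trans (by rw [Nat.card_Ioc]; omega)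
  have TU' : (T.card : ℝ) ≤ U := by exact_mod_cast TU
  have hq : ∀ u ∈ T, 1 ≤ q u ∧ q u ≤ M := fun u hu => by
    have a := mem_Ioc.1 (H.sub hu)
    have := H.s1
    have := H.s2
    have := H.D1
    rw [H.eq u hu, hM, show 54 * D * U ^ 3 = D * ((3 * U) ^ 2 * (6 * U)) by ring]
    exact ⟨Nat.mul_pos this (Nat.mul_pos (Nat.pow_pos (by omega)) (by omega)),
      Nat.mul_le_mul_left _ (Nat.mul_le_mul (Nat.pow_le_pow_left (by omega) 2) (by omega))⟩
  have s1 := sum_le_sum fun u hu => red (X := X) (h := h) (K := K) (R := 4 * L * L) (hq u hu).1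
    (hq u hu).2 (by omega) (mul_le_mul K2 (lX _ (by have := (hq u hu).2; omega))
      (Real.log_natCast_nonneg _) (by positivity))
  rw [sum_add_distrib, ← mul_sum, swap, sum_const, nsmul_eq_mul,
    ← sum_filter_add_sum_filter_not (P M) fun z => (z.1 : ℝ) ≤ L ^ (4 * b),
    ← sum_filter_add_sum_filter_not ((P M).filter fun z => ¬(z.1 : ℝ) ≤ L ^ (4 * b))
      fun z => z.1 ^ 9 ≤ h ^ 5] at s1
  refine le_trans s1 ?_
  have Z0 : 0 ≤ (U : ℝ) * (h : ℝ) ^ 2 * X / L ^ A := by positivity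
  have t1 : ∑ z ∈ (P M).filter (fun z => (z.1 : ℝ) ≤ L ^ (4 * b)),
      ((T.filter fun u => z.1 ∣ q u).card : ℝ) * F X h z ≤ U * (h : ℝ) ^ 2 * X / L ^ A / 6 := by
    refine (sum_le_card_nsmul _ _ (U * ((h : ℝ) ^ 2 * X / L ^ (A + 8 * b + 1)))
      fun z hz => ?_).trans ?_
    · obtain ⟨a, c⟩ := mem_filter.1 hz
      exact mul_le_mul ((Nat.cast_le.2 (card_filter_le _ _)).trans TU')
        (hs' z (mem_P.1 a).1.1 c) (F_nonneg _ _ _) (by positivity)
    · have a : ((P M).filter fun z => (z.1 : ℝ) ≤ L ^ (4 * b)).card ≤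
          ⌊L ^ (4 * b)⌋₊ * ⌊L ^ (4 * b)⌋₊ := by
        refine (card_le_card fun z hz => ?_).trans (card_P _)
        obtain ⟨a, c⟩ := mem_filter.1 hz
        exact mem_P.2 ⟨⟨(mem_P.1 a).1.1, Nat.le_floor c⟩, (mem_P.1 a).2⟩
      have c := Nat.floor_le (show 0 ≤ L ^ (4 * b) by positivity)
      have d := (Nat.cast_le (α := ℝ).2 a).trans
        ((Nat.cast_mul _ _).trans_le (mul_le_mul c c (by positivity) (by positivity)))
      rw [nsmul_eq_mul]
      refine (mul_le_mul_of_nonneg_right d (by positivity)).trans ?_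
      rw [show L ^ (4 * b) * L ^ (4 * b) * (U * ((h : ℝ) ^ 2 * X / L ^ (A + 8 * b + 1))) =
        U * (h : ℝ) ^ 2 * X / L ^ A / L by field_simp; ring]
      exact div_le_div_of_nonneg_left Z0 (by norm_num) (by linarith)
  have t2 : ∑ z ∈ ((P M).filter fun z => ¬(z.1 : ℝ) ≤ L ^ (4 * b)).filter
      (fun z => z.1 ^ 9 ≤ h ^ 5),
      ((T.filter fun u => z.1 ∣ q u).card : ℝ) * F X h z ≤ U * (h : ℝ) ^ 2 * X / L ^ A / 12 := by
    rw [← sum_fiberwise_of_maps_to (t := range K) (g := fun z : Ch => Nat.log 2 z.1) fun z hz =>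
      mem_range.2 (K3 _ (by have := (mem_P.1 (mem_filter.1 (mem_filter.1 hz).1).1).1.2; omega))]
    refine (sum_le_card_nsmul _ _
      (C * U * L ^ B * (X * (22 * h / L ^ b * (h * (2 * L) ^ 2)))) fun i _ => ?_).trans ?_
    · generalize hS : (((P M).filter fun z => ¬(z.1 : ℝ) ≤ L ^ (4 * b)).filter
        fun z => z.1 ^ 9 ≤ h ^ 5).filter (fun z : Ch => Nat.log 2 z.1 = i) = S
      have mS : ∀ z ∈ S, L ^ (4 * b) < z.1 ∧ 2 ^ i ≤ z.1 ∧ z.1 < 2 ^ (i + 1) ∧
          (z.1 ≤ M ∧ z.1 ^ 9 ≤ h ^ 5) ∧ z.2.IsPrimitive := fun z hz => by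
        rw [← hS] at hz
        obtain ⟨a, rfl⟩ := mem_filter.1 hz
        obtain ⟨a, a'⟩ := mem_filter.1 a
        obtain ⟨c, d⟩ := mem_filter.1 a
        obtain ⟨⟨e, f⟩, g⟩ := mem_P.1 c
        exact ⟨not_le.1 d, Nat.pow_log_le_self 2 (by omega),
          Nat.lt_pow_succ_log_self one_lt_two _, ⟨f, a'⟩, g⟩
      rcases S.eq_empty_or_nonempty with rfl | ⟨z0, hz0⟩
      · rw [sum_empty]
        positivity
      obtain ⟨a1, a2, a3, ⟨a4, big⟩, -⟩ := mS z0 hz0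
      have w0 : (0 : ℝ) < ((2 ^ i : ℕ) : ℝ) ^ (1 / 4 : ℝ) := by positivity
      have w4 : (((2 ^ i : ℕ) : ℝ) ^ (1 / 4 : ℝ)) ^ 4 = (2 ^ i : ℕ) := by
        rw [← Real.rpow_natCast, ← Real.rpow_mul (by positivity)]
        norm_num
      have wl : ∀ z ∈ S, ((2 ^ i : ℕ) : ℝ) ^ (1 / 4 : ℝ) ≤ (z.1 : ℝ) ^ (1 / 4 : ℝ) := fun z hz =>
        Real.rpow_le_rpow (by positivity) (Nat.cast_le.2 (mS z hz).2.1) (by norm_num)
      generalize ((2 ^ i : ℕ) : ℝ) ^ (1 / 4 : ℝ) = w at w0 w4 wl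
      have e2 : ((2 ^ (i + 1) : ℕ) : ℝ) = 2 * w ^ 4 := by
        rw [w4]
        push_cast
        ring
      have b1 := blk lsm (X := X) (h := h) (Q := 2 ^ (i + 1)) (l := 2 * L) S Nat.one_le_two_pow
        (fun z hz => ⟨by exact_mod_cast (one_le_pow₀ L1).trans_lt (mS z hz).1,
          (mS z hz).2.2.1.le, (mS z hz).2.2.2.2⟩) fun n hn => by
          rcases n.eq_zero_or_pos with rfl | e
          · rw [ArithmeticFunction.map_zero]
            positivity
          · exact ArithmeticFunction.vonMangoldt_le_log.trans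
              (lg _ (by exact_mod_cast e) (by exact_mod_cast (show n ≤ 3 * X by omega)))
      have b2 := lg ((2 ^ (i + 1) : ℕ) : ℝ) (by positivity)
        (by exact_mod_cast (show 2 ^ (i + 1) ≤ 3 * X by rw [pow_succ]; omega))
      have b3 := num (g := 1 + 2 * Real.log ((2 ^ (i + 1) : ℕ) : ℝ)) (M := z0.1) w0 L0
        (Nat.cast_nonneg h) (e2 ▸ a1.le.trans (Nat.cast_le.2 a3.le))
        (w4 ▸ Nat.cast_le.2 a2) (by exact_mod_cast big) hh (by linarith)
      rw [← e2] at b3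
      have b4 : ∀ z ∈ S, ((T.filter fun u => z.1 ∣ q u).card : ℝ) * F X h z ≤
          C * U * L ^ B / w * F X h z := fun z hz => by
        refine mul_le_mul_of_nonneg_right (le_trans (Nat.cast_le.2 (card_le_card fun u hu => ?_))
          ((nc U D s s' z.1 H.U1 H.D1 H.s1 H.s2 (Nat.one_le_two_pow.trans (mS z hz).2.1)).trans
            (div_le_div₀ (by positivity) (mul_le_mul_of_nonneg_left hD (by positivity)) w0
              (wl z hz)))) (F_nonneg _ _ _)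
        obtain ⟨a, c⟩ := mem_filter.1 hu
        exact mem_filter.2 ⟨H.sub a, H.eq u a ▸ c⟩
      refine (sum_le_sum b4).trans ?_
      rw [← mul_sum]
      refine (mul_le_mul_of_nonneg_left b1 (by positivity)).trans ?_
      generalize (h : ℝ) + ((2 ^ (i + 1) : ℕ) : ℝ) ^ 2 *
        (1 + 2 * Real.log ((2 ^ (i + 1) : ℕ) : ℝ)) = G at b3
      rw [show C * U * L ^ B / w * (X * (G * (h * (2 * L) ^ 2))) =
        C * U * L ^ B * (X * (G / w * (h * (2 * L) ^ 2))) by ring]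
      gcongr
    · rw [card_range, nsmul_eq_mul]
      refine (mul_le_mul_of_nonneg_right K2 (by positivity)).trans ?_
      rw [hb, show 4 * L * (C * U * L ^ B * (X * (22 * h / L ^ (A + B + 5) * (h * (2 * L) ^ 2)))) =
        U * (h : ℝ) ^ 2 * X / L ^ A * (352 * C / (L * L)) by field_simp; ring, div_eq_mul_one_div _ 12]
      refine mul_le_mul_of_nonneg_left ?_ Z0
      rw [div_le_div_iff₀ (by positivity) (by norm_num)]
      nlinarith
  have t4 : ∑ z ∈ ((P M).filter fun z => ¬(z.1 : ℝ) ≤ L ^ (4 * b)).filter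
      (fun z => ¬z.1 ^ 9 ≤ h ^ 5),
      ((T.filter fun u => z.1 ∣ q u).card : ℝ) * F X h z ≤ U * (h : ℝ) ^ 2 * X / L ^ A / 12 := by
    generalize hS : ((P M).filter fun z => ¬(z.1 : ℝ) ≤ L ^ (4 * b)).filter
      (fun z => ¬z.1 ^ 9 ≤ h ^ 5) = S
    have mS : ∀ z ∈ S, 1 < z.1 ∧ z.1 ≤ M ∧ h ^ 5 < z.1 ^ 9 ∧ z.2.IsPrimitive := fun z hz => by
      rw [← hS] at hz
      obtain ⟨a, a'⟩ := mem_filter.1 hz
      obtain ⟨c, d⟩ := mem_filter.1 a
      exact ⟨by exact_mod_cast (one_le_pow₀ L1).trans_lt (not_le.1 d), (mem_P.1 c).1.2,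
        not_le.1 a', (mem_P.1 c).2⟩
    rcases S.eq_empty_or_nonempty with rfl | ⟨z0, hz0⟩
    · rw [sum_empty]
      positivity
    have U0 : L ^ (4 * b) ≤ U := by
      by_contra k
      have k1 : (M : ℝ) ≤ L ^ (1 + B + 3 * (4 * b)) := by
        rw [hM, pow_add, pow_add, pow_one, mul_comm 3, pow_mul L (4 * b) 3]
        push_cast
        gcongr
        · linarith
        · exact (not_le.1 k).le
      have k2 : (h : ℝ) ^ 5 < (M : ℝ) ^ 9 := by
        exact_mod_cast (mS z0 hz0).2.2.1.trans_le (Nat.pow_le_pow_left (mS z0 hz0).2.1 9)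
      have k3 := pow_le_pow_left₀ (by positivity) k1 9
      rw [← pow_mul, mul_comm] at k3
      have k4 : (h : ℝ) ≤ (h : ℝ) ^ 5 := le_self_pow₀ (by exact_mod_cast h1) (by norm_num)
      linarith
    have p1 : ∀ j : ℕ, j + 1 ≤ 4 * b → L * L ^ j ≤ U := fun j hj =>
      (pow_succ' L j).ge.trans ((pow_le_pow_right₀ L1 hj).trans U0)
    have l2 : ∀ n < 2 * X + h, Λ n ≤ 2 * L := fun n hn => by
      rcases n.eq_zero_or_pos with rfl | e
      · rw [ArithmeticFunction.map_zero]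
        positivity
      · exact ArithmeticFunction.vonMangoldt_le_log.trans
          (lg _ (by exact_mod_cast e) (by exact_mod_cast (show n ≤ 3 * X by omega)))
    rw [← swap]
    simp only [F]
    rw [sum_congr rfl fun u _ => sum_comm, sum_comm]
    refine (sum_le_card_nsmul _ _ (U / L ^ (A + 4) * (3 * L * h * (h * (2 * L) ^ 2)))
      fun y hy => ?_).trans ?_
    · have b1 := lar U h D s s' y q T (fun n => ((Λ n : ℝ) : ℂ))
        (fun u => S.filter fun z => z.1 ∣ q u) (U / L ^ (A + 4)) H.U1 H.D1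
        (by
          have := mul_le_mul (show (108 : ℝ) ≤ L by linarith) hD (by positivity) L0.le
          exact_mod_cast this.trans (p1 B (by omega))) H.s1 H.s2 H.sub H.eq H.big
        (fun u _ z hz => ⟨(mem_filter.1 hz).2, (mS z (mem_filter.1 hz).1).2.2⟩) (by positivity)
        (by
          rw [div_pow, le_div_iff₀ (by positivity), ← pow_mul, pow_succ' _ 3, mul_right_comm]
          exact mul_le_mul_of_nonneg_right ((mul_le_mul_of_nonneg_right (by linarith)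
            (by positivity)).trans (p1 _ (by omega))) (by positivity))
      have b2 : ∀ z ∈ S, E y h z = ∑ n ∈ Ico y (y + h), ((Λ n : ℝ) : ℂ) * z.2 n := by
        intro z hz
        obtain ⟨a, -, -, b⟩ := mS z hz
        have : NeZero z.1 := ⟨by omega⟩
        have c : z.2 ≠ 1 := fun t => by
          have := (eq_one_iff_conductor_eq_one.1 t).symm.trans ((isPrimitive_def _).1 b)
          omega
        simp only [E, ind_neg c, Complex.ofReal_zero, sub_zero]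
      rw [sum_congr rfl fun u _ => sum_congr rfl fun z hz => by rw [b2 z (mem_filter.1 hz).1]]
      refine b1.trans (mul_le_mul_of_nonneg_left (mul_le_mul ?_ ?_
        (sum_nonneg fun _ _ => sq_nonneg _) (by positivity)) (by positivity))
      · have := mul_le_mul_of_nonneg_left (show 2 + Real.log h ≤ 3 * L by linarith [lX h hX])
          (Nat.cast_nonneg (α := ℝ) h)
        linarith
      · refine (sum_le_card_nsmul _ _ ((2 * L) ^ 2) fun n hn => ?_).trans_eq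
          (by rw [Nat.card_Ico, nsmul_eq_mul, Nat.add_sub_cancel_left])
        rw [Complex.norm_real, Real.norm_of_nonneg ArithmeticFunction.vonMangoldt_nonneg]
        refine pow_le_pow_left₀ ArithmeticFunction.vonMangoldt_nonneg (l2 n ?_) 2
        have := (mem_Ioc.1 hy).2
        have := (mem_Ico.1 hn).2
        omega
    · rw [Nat.card_Ioc, nsmul_eq_mul, show 2 * X - X = X by omega,
        show (X : ℝ) * (U / L ^ (A + 4) * (3 * L * h * (h * (2 * L) ^ 2))) =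
          U * (h : ℝ) ^ 2 * X / L ^ A * (12 / L) by field_simp; ring, div_eq_mul_one_div _ 12]
      refine mul_le_mul_of_nonneg_left ?_ Z0
      rw [div_le_div_iff₀ L0 (by norm_num)]
      linarith
  have t3 : (T.card : ℝ) * (M * (X * (2 * (4 * L * L) ^ 2))) ≤ U * (h : ℝ) ^ 2 * X / L ^ A / 3 := by
    have a : (M : ℝ) ≤ h := by exact_mod_cast Mh
    have c : 96 * L ^ (A + 4) ≤ h := le_trans (by
      rw [pow_succ' L (A + 4)]
      exact mul_le_mul_of_nonneg_right (by linarith) (by positivity))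
      ((pow_le_pow_right₀ L1 (show A + 4 + 1 ≤ 36 * (b + 1) by omega)).trans hh)
    refine (mul_le_mul TU' (mul_le_mul_of_nonneg_right a (by positivity)) (by positivity)
      (by positivity)).trans ?_
    rw [div_div, le_div_iff₀ (by positivity),
      show (U : ℝ) * (h * (X * (2 * (4 * L * L) ^ 2))) * (L ^ A * 3) =
        U * h * X * (96 * L ^ (A + 4)) by ring,
      show (U : ℝ) * (h : ℝ) ^ 2 * X = U * h * X * h by ring]
    exact mul_le_mul_of_nonneg_left c (by positivity)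
  linarith

end Pool.Agent.MP_a43263_nt.N2

end

end PkN2Var
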