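import Pool.Agent.MP_a43263_nt.K2.SpecC
import Pool.Agent.MP_678834_nt.HL9.All

/-! Packed rows. -/

section PkK2Siv

/-! THEOREM R2: characters in almost all short intervals. -/

set_option autoImplicit false

noncomputable section

namespace Pool.Agent.MP_a43263_nt.K2

open Finset Filter

namespace SivA

open Pool.Agent.MP_678834_nt Pool.Agent.MP_678834_nt.HL9 Pool.Agent.MP_678834_nt.HL9.Major
open Pool.Agent.MP_db1c88_nt Pool.Agent.MP_db1c88_nt.z94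

/-- the mean square on a short arc -/
theorem arc (A B D : ℕ) : ∀ᶠ X : ℝ in atTop, ∀ (q : ℕ) (χ : DirichletCharacter ℂ q) (Θ : ℝ),
    1 ≤ q → (q : ℝ) ≤ Real.log X ^ B → 0 < Θ → Θ ≤ 1 → Θ * X ^ (1 / 4 : ℝ) ≤ Real.log X ^ D →
    ∫ η in (-Θ)..Θ, ‖Major.FF X χ η‖ ^ 2 ≤ X / (2 * Real.log X ^ A) := by
  obtain ⟨Cm, hCm, hmel⟩ := mel w1 bump_w1
  obtain ⟨Cs, Xs, hsi⟩ := si (1 / 10) (by norm_num) le_rfl (A + 1) B
  filter_upwards [eventually_ge_atTop Xs, eventually_ge_atTop (12 : ℝ), ev_log 1,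
    ev_log (4 * Cm * max Cs 0), ev_log_pow (δ := 7 / 180) (by norm_num) D (2 * Cm),
    ev_log_pow (δ := 26 / 45) (by norm_num) (A + 2) (5184 * Cm)] with X h1 h2 h3 h4 h5 h6
  intro q χ Θ hq hqL hΘ0 hΘ1 hΘ
  set L := Real.log X with hLdef
  have hX0 : 0 < X := by linarith
  have hL0 : 0 < L := by linarith
  set T : ℝ := X ^ (8 / 9 - 1 / 10 : ℝ) with hT
  have hT0 : 0 < T := by positivity
  have hTc : Cm * (1 + Θ * X) ≤ T := by
    have e1 : T = X ^ (7 / 180 : ℝ) * X ^ (3 / 4 : ℝ) := by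
      rw [hT, ← Real.rpow_add hX0]; norm_num
    have e2 : X = X ^ (1 / 4 : ℝ) * X ^ (3 / 4 : ℝ) := by
      rw [← Real.rpow_add hX0]; norm_num
    have e3 : 1 ≤ X ^ (3 / 4 : ℝ) := Real.one_le_rpow (by linarith) (by norm_num)
    have e4 : Θ * X ≤ L ^ D * X ^ (3 / 4 : ℝ) := by
      calc Θ * X = Θ * X ^ (1 / 4 : ℝ) * X ^ (3 / 4 : ℝ) := by rw [mul_assoc, ← e2]
        _ ≤ _ := by gcongr
    have e5 : 1 ≤ L ^ D * X ^ (3 / 4 : ℝ) := one_le_mul_of_one_le_of_one_le (one_le_pow₀ h3) e3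
    calc Cm * (1 + Θ * X) ≤ Cm * (2 * (L ^ D * X ^ (3 / 4 : ℝ))) := by
          gcongr; linarith
      _ = (2 * Cm * L ^ D) * X ^ (3 / 4 : ℝ) := by ring
      _ ≤ T := by rw [e1]; gcongr
  have k1 := hmel ℕ (wide X 4) (fun n => lc χ n * (wt X 4 n : ℝ)) (fun n => n) X Θ T hX0 hΘ0
    (fun n hn => by
      exact_mod_cast ((z94.mem_wide hX0.le (by norm_num)).1 hn).1) hTc
  have k2 := hsi X q χ h1 hq hqL
  have k3 := sum_coef_le h2 h3 χ
  have k4 : X * X ^ (26 / 45 : ℝ) = T ^ 2 := by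
    rw [hT, sq, ← Real.rpow_add hX0, ← Real.rpow_one_add' hX0.le (by norm_num)]
    norm_num
  have k5 : Cm * Θ * (∑ n ∈ wide X 4, ‖lc χ n * (wt X 4 n : ℝ)‖) ^ 2 / T ^ 2 ≤
      X / (4 * L ^ A) := by
    rw [div_le_div_iff₀ (by positivity) (by positivity), ← k4]
    calc Cm * Θ * (∑ n ∈ wide X 4, ‖lc χ n * (wt X 4 n : ℝ)‖) ^ 2 * (4 * L ^ A)
        ≤ Cm * 1 * (36 * X * L) ^ 2 * (4 * L ^ A) := by gcongr
      _ = X * (X * (5184 * Cm * L ^ (A + 2))) := by ring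
      _ ≤ _ := by gcongr
  have k6 : ∫ t in (-T)..T, ‖GP (wide X 4) (fun n => lc χ n * (wt X 4 n : ℝ))
      (fun n => n) t‖ ^ 2 ≤ max Cs 0 * X ^ 2 / L ^ (A + 1) := by
    refine le_trans k2 ?_
    gcongr
    exact le_max_left _ _
  have k7 : Cm / X * (max Cs 0 * X ^ 2 / L ^ (A + 1)) ≤ X / (4 * L ^ A) := by
    calc _ = 4 * Cm * max Cs 0 * (X / (4 * L ^ A)) / L := by field_simp; ring
      _ ≤ L * (X / (4 * L ^ A)) / L := by gcongr
      _ = _ := by field_simp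
  refine le_trans k1 ?_
  calc _ ≤ X / (4 * L ^ A) + X / (4 * L ^ A) := add_le_add (le_trans (by gcongr) k7) k5
    _ = _ := by field_simp; ring

theorem sq_le {X : ℝ} (hX : 12 ≤ X) (hL : 1 ≤ Real.log X) {q : ℕ} (χ : DirichletCharacter ℂ q) :
    ∑ n ∈ wide X 4, ‖(lc χ n * (wt X 4 n : ℝ)) * (w1 (Real.log n - Real.log X) : ℝ)‖ ^ 2 ≤
      108 * X * Real.log X ^ 2 := by
  have h1 : ∀ n ∈ wide X 4, ‖(lc χ n * (wt X 4 n : ℝ)) * (w1 (Real.log n - Real.log X) : ℝ)‖ ^ 2 ≤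
      (3 * Real.log X) ^ 2 := by
    intro n hn
    have h2 := ((z94.mem_wide (by linarith) (by norm_num)).1 hn).2
    refine pow_le_pow_left₀ (norm_nonneg _) ?_ 2
    rw [norm_mul, norm_mul, Complex.norm_real, wt_eq, Complex.norm_real,
      Real.norm_of_nonneg (w1_nonneg _)]
    refine (mul_le_of_le_one_right (mul_nonneg (norm_nonneg _) (w1_nonneg _)) (w1_le_one _)).trans
      ((mul_le_of_le_one_right (norm_nonneg _) (w1_le_one _)).trans ((norm_lc_le χ n).trans ?_))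
    have := log_le_two hX (Nat.cast_nonneg n) (by linarith)
    linarith
  refine (sum_le_card_nsmul _ _ _ h1).trans ?_
  rw [nsmul_eq_mul, wide, Nat.card_Icc, Nat.add_sub_cancel]
  calc _ ≤ 12 * X * (3 * Real.log X) ^ 2 := by gcongr; exact floor_le hX
    _ = _ := by ring

theorem inner {X y h q : ℕ} (χ : DirichletCharacter ℂ q) (hX : 0 < X) (hy : y ∈ Ioc X (2 * X))
    (hh : h ≤ X) :
    ∑ n ∈ (wide X 4).filter (fun n => y ≤ n ∧ n < y + h),
        (lc χ n * (wt X 4 n : ℝ)) * (w1 (Real.log n - Real.log X) : ℝ) =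
      ∑ n ∈ Ico y (y + h), ((ArithmeticFunction.vonMangoldt n : ℂ) * χ n - (ind (χ = 1) : ℝ)) := by
  obtain ⟨y1, y2⟩ := mem_Ioc.1 hy
  have hX' : (0 : ℝ) < X := by exact_mod_cast hX
  refine sum_congr (Finset.ext fun n => ?_) fun n hn => ?_
  · rw [mem_filter, mem_Ico, and_iff_right_iff_imp]
    intro hn
    have : (n : ℝ) ≤ 12 * X := by exact_mod_cast (by omega : n ≤ 12 * X)
    exact (z94.mem_wide hX'.le (by norm_num)).2 ⟨by omega, by linarith⟩
  · obtain ⟨n1, n2⟩ := mem_Ico.1 hn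
    rw [wt_eq, w1_eq_one hX' (by exact_mod_cast (by omega : X ≤ n))
      (by exact_mod_cast (by omega : n ≤ 4 * X)), lc, ind]
    split_ifs <;> simp

end SivA

open Pool.Agent.MP_678834_nt Pool.Agent.MP_678834_nt.HL9 Pool.Agent.MP_db1c88_nt.z94 in
theorem siv_k : GALStmt → SIVStmt := by
  intro gal A B
  filter_upwards [tendsto_natCast_atTop_atTop.eventually ((SivA.arc A B (A + 3)).and
    ((eventually_ge_atTop (12 : ℝ)).and ((ev_log 216).and
      (ev_log_pow (δ := 1 / 4) (by norm_num) (A + 3) 2))))] with X ⟨h1, h2, h3, h4⟩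
  intro q h χ hq hqL hh hX
  set L := Real.log X with hL
  have hL0 : 0 < L := by linarith
  have hX0 : (0 : ℝ) < X := by linarith
  have hh0 : (0 : ℝ) < h := lt_of_lt_of_le (by positivity) hh
  have hD : 1 ≤ L ^ (A + 3) := one_le_pow₀ (by linarith)
  have t1 : L ^ (A + 3) / h ≤ 1 / 2 := by
    rw [div_le_div_iff₀ hh0 two_pos]; linarith
  have k1 := gal (fun n => (lc χ n * (wt X 4 n : ℝ)) * (w1 (Real.log n - Real.log X) : ℝ))
    (wide X 4) (Ioc X (2 * X)) h (L ^ (A + 3) / h) (by positivity) t1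
  have k2 := h1 q χ (L ^ (A + 3) / h) hq hqL (by positivity) (by linarith) (by
    rw [div_mul_eq_mul_div, div_le_iff₀ hh0]; gcongr)
  have k3 := SivA.sq_le h2 (by linarith) χ
  rw [sum_congr rfl fun y hy => by rw [SivA.inner χ (by exact_mod_cast hX0) hy hX]] at k1
  refine k1.trans ?_
  have k4 : 108 * X * L ^ 2 / (L ^ (A + 3) / h) ^ 2 ≤ (h : ℝ) ^ 2 * (X / (2 * L ^ A)) := by
    calc _ = (h : ℝ) ^ 2 * (X / (2 * L ^ A)) * (216 / L) / L ^ (A + 3) := by field_simp; ring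
      _ ≤ (h : ℝ) ^ 2 * (X / (2 * L ^ A)) * (216 / L) := div_le_self (by positivity) hD
      _ ≤ _ := mul_le_of_le_one_right (by positivity) ((div_le_one hL0).2 h3)
  calc _ ≤ (h : ℝ) ^ 2 * (X / (2 * L ^ A)) + (h : ℝ) ^ 2 * (X / (2 * L ^ A)) :=
        add_le_add (mul_le_mul_of_nonneg_left k2 (sq_nonneg _)) (le_trans (by gcongr) k4)
    _ = _ := by field_simp; ring

end Pool.Agent.MP_a43263_nt.K2

end

end PkK2Siv
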