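import Pool.Agent.MP_a43263_nt.K2.Spec
import Pool.Agent.MP_a43263_nt.N2.SpecC

/-! Packed rows. -/

section PkK2Prs

/-! THEOREM R2: the presentation of the final statement. -/

set_option autoImplicit false

noncomputable section

namespace Pool.Agent.MP_a43263_nt.K2

open Polynomial Finset Filter JC Pool.Agent.MP_a43263_nt.UV

/-- the vector of a pair -/
def jn {g : ℕ} (c : (Fin (2 * g) → ℤ) × ℤ) : Vec g := Fin.snoc (α := fun _ => ℤ) c.1 c.2

theorem jn_cast {g : ℕ} (c : (Fin (2 * g) → ℤ) × ℤ) (i : Fin (2 * g)) :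
    jn c i.castSucc = c.1 i := by simp [jn]

theorem jn_last {g : ℕ} (c : (Fin (2 * g) → ℤ) × ℤ) : jn c (Fin.last _) = c.2 := by simp [jn]

theorem jn_bij (g : ℕ) : Function.Bijective (jn (g := g)) := by
  refine ⟨fun c c' h => Prod.ext (funext fun i => ?_) ?_, fun w =>
    ⟨(fun i => w i.castSucc, w (Fin.last _)), funext fun i => ?_⟩⟩
  · rw [← jn_cast, ← jn_cast, h]
  · rw [← jn_last, ← jn_last c', h]
  · refine Fin.lastCases ?_ (fun j => ?_) i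
    · exact jn_last _
    · exact jn_cast _ _

theorem md_eq {g : ℕ} (c : (Fin (2 * g) → ℤ) × ℤ) : zK (pc (sv (jn c))) ℚ =
    X ^ (2 * g + 1) + ∑ i, C (c.1 i : ℚ) * X ^ (2 * g - i.1) + C ((c.2 : ℚ) ^ 2) := by
  rw [pc, Fin.sum_univ_castSucc, add_assoc]
  simp only [zK, Polynomial.map_add, Polynomial.map_pow, map_X, Polynomial.map_sum,
    Polynomial.map_mul, map_C]
  congr 2
  · refine sum_congr rfl fun i _ => ?_
    rw [sv, if_neg (by simpa using i.2.ne), jn_cast]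
    simp
  · rw [sv, if_pos (by simp), jn_last]
    simp

theorem box_iff {g : ℕ} (Z : ℤ) (c : (Fin (2 * g) → ℤ) × ℤ) :
    (∀ i, |jn c i| ≤ Z ^ xp g i.1) ↔
      (∀ i, |c.1 i| ≤ Z ^ (2 * i.1 + 2)) ∧ |c.2| ≤ Z ^ (2 * g + 1) := by
  rw [Fin.forall_fin_succ', jn_last]
  refine and_congr (forall_congr' fun i => ?_) ?_
  · rw [jn_cast, xp, if_neg (by simpa using i.2.ne), Fin.val_castSucc, mul_add, mul_one]
  · rw [xp, if_pos (by simp)]

theorem md_deg {g : ℕ} (w : Vec g) : (zK (pc (sv w)) ℚ).natDegree < 2 * g + 2 := by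
  refine Nat.lt_succ_of_le (natDegree_map_le.trans ?_)
  rw [pc]
  refine natDegree_add_le_of_degree_le (natDegree_X_pow_le _) ?_
  refine natDegree_sum_le_of_forall_le _ _ fun i _ => (natDegree_C_mul_X_pow_le _ _).trans ?_
  omega

theorem rs_eq {g : ℕ} {f : ℚ[X]} (hf : f.natDegree < 2 * g + 2) (u : ℚ) {v : ℚ} (hv : v ≠ 0) :
    rs g f u v = v ^ (4 * g + 2) * f.eval (-u ^ 2 / v ^ 2) := by
  rw [eval_eq_sum_range' hf, mul_sum, rs]
  refine sum_congr rfl fun i hi => ?_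
  obtain ⟨j, hj⟩ := Nat.exists_eq_add_of_le (Nat.lt_succ_iff.1 (mem_range.1 hi))
  rw [show 4 * g + 2 = 2 * (2 * g + 1) by ring, pow_mul v 2 (2 * g + 1), hj, Nat.add_sub_cancel_left,
    pow_add, div_pow]
  field_simp

theorem od_eval {g : ℕ} {f : ℚ[X]} (hf : f.natDegree < 2 * g + 2) {u v G : ℚ}
    (hG : rs g f u v = G) (h0 : G ≠ 0) (x : ℚ) (hx : v ^ 2 * x + u ^ 2 ≠ 0) :
    (od g f u v).eval (G / (v ^ 2 * x + u ^ 2)) * (v ^ 2 * x + u ^ 2) ^ (2 * g + 2) =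
      (G ^ g * v ^ (2 * g + 1)) ^ 2 * ((v ^ 2 * x + u ^ 2) * f.eval x) := by
  rw [od, hG, eval_mul, eval_C, eval_finsetSum, eval_eq_sum_range' hf x]
  generalize hl : v ^ 2 * x + u ^ 2 = l at hx ⊢
  have e : G - u ^ 2 * (G / l) = v ^ 2 * (G / l) * x := by
    field_simp
    rw [← hl]
    ring
  have e2 : ∀ i ∈ range (2 * g + 2), (C (f.coeff i) * (C G - C (u ^ 2) * X) ^ i *
      (C (v ^ 2) * X) ^ (2 * g + 1 - i)).eval (G / l) =
      (v ^ 2 * (G / l)) ^ (2 * g + 1) * (f.coeff i * x ^ i) := fun i hi => by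
    obtain ⟨j, hj⟩ := Nat.exists_eq_add_of_le (Nat.lt_succ_iff.1 (mem_range.1 hi))
    simp only [eval_mul, eval_C, eval_pow, eval_sub, eval_X]
    rw [e, hj, Nat.add_sub_cancel_left, pow_add, mul_pow _ x]
    ring
  rw [sum_congr rfl e2, ← mul_sum, mul_pow, div_pow]
  field_simp
  ring

/-- the conclusion, with the odd model described by an identity -/
def Out (g Z : ℕ) (f : ℚ[X]) : Prop := Irreducible f ∧ ∃ (u v G : ℕ) (F : ℚ[X]), 0 < u ∧ 0 < v ∧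
  (u : ℝ) ≤ Real.log Z ^ 7 ∧ (v : ℝ) ≤ Real.log Z ^ 7 ∧
  (G : ℚ) = (v : ℚ) ^ (4 * g + 2) * f.eval (-(u : ℚ) ^ 2 / (v : ℚ) ^ 2) ∧ Squarefree G ∧
  Z ^ (4 * g) ≤ G ∧ F.Monic ∧ F.natDegree = 2 * g + 1 ∧ Irreducible F ∧
  (∀ x l : ℚ, l = (v : ℚ) ^ 2 * x + (u : ℚ) ^ 2 → l ≠ 0 → F.eval (G / l) * l ^ (2 * g + 2) =
    ((G : ℚ) ^ g * (v : ℚ) ^ (2 * g + 1)) ^ 2 * (l * f.eval x)) ∧ Good 2 F

theorem out_of {g Z : ℕ} {w : Vec g} (h : Best g Z (zK (pc (sv w)) ℚ)) :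
    Out g Z (zK (pc (sv w)) ℚ) := by
  obtain ⟨hi, u, v, G, hu, hv, hu', hv', hG, hs, hZ, hm, hd, hF, hg⟩ := h
  refine ⟨hi, u, v, G, _, hu, hv, hu', hv', ?_, hs, hZ, hm, hd, hF, fun x l hl hx => ?_, hg⟩
  · rw [← hG, rs_eq (md_deg w) _ (Nat.cast_ne_zero.2 hv.ne')]
  · subst hl
    exact od_eval (md_deg w) hG (Nat.cast_ne_zero.2 hs.ne_zero) x hx

/-- the final form -/
theorem pres (h : MainStmt) (g : ℕ) (hg : 1 ≤ g) : ∃ ε : ℝ, 0 < ε ∧ ∀ᶠ Z : ℕ in atTop,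
    ∀ B : Finset ((Fin (2 * g) → ℤ) × ℤ), (∀ c, c ∈ B ↔
      (∀ i, |c.1 i| ≤ (Z : ℤ) ^ (2 * i.1 + 2)) ∧ |c.2| ≤ (Z : ℤ) ^ (2 * g + 1)) →
    ∃ T ⊆ B, ε * B.card ≤ T.card ∧ ∀ c ∈ T, Out g Z
      (X ^ (2 * g + 1) + ∑ i, C (c.1 i : ℚ) * X ^ (2 * g - i.1) + C ((c.2 : ℚ) ^ 2)) := by
  classical
  obtain ⟨ε, h0, h⟩ := h g hg
  refine ⟨ε, h0, h.mono fun Z k B hB => ⟨B.filter fun c => Best g Z (zK (pc (sv (jn c))) ℚ),
    filter_subset _ _, ?_, fun c hc => md_eq c ▸ out_of (mem_filter.1 hc).2⟩⟩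
  have e : ∀ s : Set (Vec g), s.ncard = (jn ⁻¹' s).ncard := fun s =>
    (Set.ncard_preimage_of_injective_subset_range (jn_bij g).1
      (by rw [(jn_bij g).2.range_eq]; exact Set.subset_univ _)).symm
  rw [e, e {w : Vec g | _ ∧ _}] at k
  rw [← Set.ncard_coe_finset, ← Set.ncard_coe_finset, coe_filter]
  simp only [hB, ← box_iff]
  rwa [show (B : Set _) = _ from Set.ext fun c => (hB c).trans (box_iff _ c).symm]

end Pool.Agent.MP_a43263_nt.K2

end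

end PkK2Prs

section PkK2Fin

/-! THEOREM R2: the final count. -/

set_option autoImplicit false

noncomputable section

namespace Pool.Agent.MP_a43263_nt.K2

open Polynomial Finset Filter Matrix JC Pool.Agent.MP_a43263_nt.UV

namespace FinA

theorem sum_two (n : ℕ) : ∑ i ∈ range n, 2 * (i + 1) = n * (n + 1) := by
  induction n with
  | zero => rfl
  | succ n ih => rw [sum_range_succ, ih]; ring

theorem sum_xp (g : ℕ) : ∑ i : Fin (2 * g + 1), xp g i.1 = (2 * g + 1) ^ 2 := by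
  rw [Fin.sum_univ_eq_sum_range (xp g) (2 * g + 1), sum_range_succ,
    sum_congr rfl fun i hi => show xp g i = 2 * (i + 1) from if_neg (mem_range.1 hi).ne, sum_two,
    show xp g (2 * g) = 2 * g + 1 from if_pos rfl]
  ring

theorem two_le_xp {g : ℕ} (hg : 1 ≤ g) (i : ℕ) : 2 ≤ xp g i := by
  unfold xp
  split_ifs <;> omega

theorem box_card (g Z : ℕ) (h : 1 ≤ Z) :
    {w : Vec g | ∀ i, |w i| ≤ (Z : ℤ) ^ xp g i.1}.ncard ≤
      3 ^ (2 * g + 1) * Z ^ ((2 * g + 1) ^ 2) := by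
  have e := FinK.box_eq fun i : Fin (2 * g + 1) => Z ^ xp g i.1
  simp only [Nat.cast_pow] at e
  rw [e, Set.ncard_coe_finset, Fintype.card_piFinset, ← sum_xp, ← prod_pow_eq_pow_sum]
  calc _ ≤ ∏ i : Fin (2 * g + 1), 3 * Z ^ xp g i.1 := prod_le_prod' fun i _ => by
        have := FinK.card_Icc' (Z ^ xp g i.1)
        have h1 : 1 ≤ Z ^ xp g i.1 := Nat.one_le_pow _ _ h
        rw [Nat.cast_pow] at this
        omega
    _ = _ := by rw [prod_mul_distrib, prod_const, card_univ, Fintype.card_fin]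

theorem bx_sub {g k Z : ℕ} (hg : 1 ≤ g) (h : 3 * k ≤ Z) {w : Vec g} (hw : w ∈ bx g k)
    (i : Fin (2 * g + 1)) : |w i| ≤ (Z : ℤ) ^ xp g i.1 := by
  obtain ⟨h1, h2⟩ := mem_bx.1 hw i
  have h3 : (0 : ℤ) ≤ (k : ℤ) ^ xp g i.1 := by positivity
  have h4 : (3 : ℤ) ^ 2 * (k : ℤ) ^ xp g i.1 ≤ (Z : ℤ) ^ xp g i.1 :=
    (mul_le_mul_of_nonneg_right (pow_le_pow_right₀ (by norm_num) (two_le_xp hg _)) h3).trans (by
      rw [← mul_pow]
      exact pow_le_pow_left₀ (by positivity) (by exact_mod_cast h) _)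
  unfold ce at h1 h2
  rw [abs_le]
  split_ifs at h1 h2 <;> constructor <;> linarith

end FinA

open FinA in
theorem fin_k : GEOStmt → ALLStmt → SIEVEStmt → CLSStmt → ONEStmt → MainStmt := by
  intro _ all sieve cls one g hg
  obtain ⟨Q, ε, hε, hQ, hev⟩ := sieve g hg
  have hN : 0 < 5 * ∏ q ∈ Q, q := Nat.mul_pos (by norm_num) (prod_pos fun q hq => (hQ q hq).1.pos)
  have hc : (5 * ∏ q ∈ Q, q).Coprime 6 := Nat.Coprime.mul_left (by norm_num)
    (Nat.Coprime.prod_left fun q hq => (hQ q hq).1.coprime_iff_not_dvd.2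
      (Nat.not_dvd_of_pos_of_lt (by norm_num) (hQ q hq).2))
  obtain ⟨T, hT⟩ : ∃ T, T = Q.powerset ×ˢ range ((5 * ∏ q ∈ Q, q) ^ 2) := ⟨_, rfl⟩
  have hall := (eventually_all_finset T).2 fun x hx => all g _ (∏ q ∈ x.1, q) x.2 hg hN hc
    ((prod_dvd_prod_of_subset _ _ _ (mem_powerset.1 (mem_product.1 (hT ▸ hx)).1)).mul_left 5)
    (ε / 2 / (T.card + 1)) (by positivity)
  refine ⟨ε / 2 / (3 ^ (2 * g + 1) * 4 ^ ((2 * g + 1) ^ 2)), by positivity, ?_⟩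
  have ht : Tendsto (fun Z : ℕ => Z / 3) atTop atTop := Nat.tendsto_div_const_atTop (by norm_num)
  filter_upwards [ht.eventually hev, ht.eventually hall, ht.eventually (one g Q hg),
    ht.eventually_ge_atTop 2] with Z h1 h2 h3 h4
  obtain ⟨k, hk⟩ : ∃ k, k = Z / 3 := ⟨_, rfl⟩
  rw [← hk] at h1 h2 h3 h4
  have hv : 0 ≤ vol g k := by unfold vol; positivity
  have a1 := cnt_le_add (g := g) (k := k) (P := fun w => Fam g Q (f1 w) ∧ Str2 Q (f1 w))
    (Q := fun w => Best g Z (zK (pc (sv w)) ℚ))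
    (R := fun w => ∃ x ∈ T, Ad (5 * ∏ q ∈ Q, q) (∏ q ∈ x.1, q) w x.2 ∧
      ¬∃ u v, Gp (5 * ∏ q ∈ Q, q) (∏ q ∈ x.1, q) x.2 k w u v) fun w hw hf => by
    obtain ⟨S, hS, b1⟩ := h3 w hw hf.1 hf.2
    obtain ⟨a, b2, b3, b4⟩ := cls g Q S w hg hf.1 hS
    by_cases e : ∃ u v, Gp (5 * ∏ q ∈ Q, q) (∏ q ∈ S, q) a k w u v
    · obtain ⟨u, v, e⟩ := e
      exact Or.inl (b1 a u v Z b3 (by omega) (by omega) e)
    · exact Or.inr ⟨(S, a), hT ▸ mem_product.2 ⟨mem_powerset.2 hS, b2⟩, b4, e⟩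
  have a2 := (cnt_le_sum (g := g) (k := k) T _ fun w _ h => h).trans
    ((sum_le_card_nsmul T _ _ h2).trans (show _ ≤ ε / 2 * vol g k by
      rw [nsmul_eq_mul, ← mul_assoc]
      refine mul_le_mul_of_nonneg_right ?_ hv
      rw [mul_div_assoc', div_le_iff₀ (by positivity)]
      nlinarith))
  have a3 : cnt g k (fun w => Best g Z (zK (pc (sv w)) ℚ)) ≤
      ({w : Vec g | (∀ i, |w i| ≤ (Z : ℤ) ^ xp g i.1) ∧ Best g Z (zK (pc (sv w)) ℚ)}.ncard : ℝ) := by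
    rw [cnt_eq_ncard, Nat.cast_le]
    exact Set.ncard_le_ncard (fun w hw => ⟨bx_sub hg (by omega) hw.1, hw.2⟩)
      ((FinK.box_fin fun i : Fin (2 * g + 1) => Z ^ xp g i.1).subset fun c hc i => by
        simpa using hc.1 i)
  have a4 : ({w : Vec g | ∀ i, |w i| ≤ (Z : ℤ) ^ xp g i.1}.ncard : ℝ) ≤
      3 ^ (2 * g + 1) * 4 ^ ((2 * g + 1) ^ 2) * vol g k := by
    have := (box_card g Z (by omega)).trans (Nat.mul_le_mul_left _
      (Nat.pow_le_pow_left (show Z ≤ 4 * k by omega) _))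
    rw [mul_pow, ← mul_assoc] at this
    unfold vol
    exact_mod_cast this
  refine (mul_le_mul_of_nonneg_left a4 (by positivity)).trans ?_
  rw [← mul_assoc, div_mul_cancel₀ _ (by positivity)]
  linarith

end Pool.Agent.MP_a43263_nt.K2

end

end PkK2Fin

section PkN2Prs

/-! THEOREM N2: from the count at scale `k` to the final statement. -/

set_option autoImplicit false

noncomputable section

namespace Pool.Agent.MP_a43263_nt.N2

open Polynomial Finset Filter JC Pool.Agent.MP_a43263_nt.UV K2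

/-- the conclusion at one point -/
def Bst {g : ℕ} (w : Vec g) (u v : ℕ) : Prop := Irreducible (zK (pc (sv w)) ℚ) ∧ ∃ G : ℕ,
  rs g (zK (pc (sv w)) ℚ) u v = G ∧ Squarefree G ∧ (od g (zK (pc (sv w)) ℚ) u v).Monic ∧
  (od g (zK (pc (sv w)) ℚ) u v).natDegree = 2 * g + 1 ∧
  Irreducible (od g (zK (pc (sv w)) ℚ) u v) ∧ K2.Good 2 (od g (zK (pc (sv w)) ℚ) u v)

def MainStmt : Prop := ∀ g : ℕ, 1 ≤ g → ∃ (v : ℕ) (ε : ℝ), 0 < v ∧ 0 < ε ∧ ∀ᶠ k : ℕ in atTop,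
  ∀ U : ℕ, Ur g k U → ε * vol g k * U ≤ ∑ u ∈ Ioc U (3 * U), cnt g k fun w => Bst w u v

/-- the conclusion, with the odd model described by an identity -/
def Out (g : ℕ) (f : ℚ[X]) (u : ℤ) : Prop := Irreducible f ∧ u ≠ 0 ∧ ∃ (G : ℕ) (F : ℚ[X]),
  (G : ℚ) = f.eval (-(u : ℚ) ^ 2) ∧ Squarefree G ∧ F.Monic ∧ F.natDegree = 2 * g + 1 ∧
  Irreducible F ∧ (∀ x l : ℚ, l = x + (u : ℚ) ^ 2 → l ≠ 0 →
    F.eval (G / l) * l ^ (2 * g + 2) = (G : ℚ) ^ (2 * g) * (l * f.eval x)) ∧ K2.Good 2 F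

namespace PrsA

variable {g : ℕ}

/-- the scaling -/
def sc (v : ℕ) (w : Vec g) : Vec g := fun i => (v : ℤ) ^ xp g i.1 * w i

/-- the pair of a vector -/
def pr (w : Vec g) : (Fin (2 * g) → ℤ) × ℤ := (fun i => w i.castSucc, w (Fin.last _))

theorem jn_un (w : Vec g) : jn (pr w) = w := funext fun i => by
  refine Fin.lastCases ?_ (fun j => ?_) i
  · exact jn_last _
  · exact jn_cast _ _

theorem sv_sc (v : ℕ) (w : Vec g) (i : Fin (2 * g + 1)) :
    sv (sc v w) i = ((v : ℤ) ^ 2) ^ (i.1 + 1) * sv w i := by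
  unfold sv sc xp
  split_ifs with h
  · rw [h]; ring
  · rw [pow_mul]

theorem sc_eval {v : ℕ} (hv : 0 < v) (w : Vec g) (x : ℚ) : (zK (pc (sv (sc v w))) ℚ).eval x =
    (v : ℚ) ^ (4 * g + 2) * (zK (pc (sv w)) ℚ).eval (x / (v : ℚ) ^ 2) := by
  have v0 : (v : ℚ) ≠ 0 := Nat.cast_ne_zero.2 hv.ne'
  simp only [pc, zK, Polynomial.map_add, Polynomial.map_pow, map_X, Polynomial.map_sum,
    Polynomial.map_mul, map_C, eval_add, eval_pow, eval_X, eval_finsetSum, eval_mul, eval_C,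
    mul_add, mul_sum]
  simp only [sv_sc, eq_intCast]
  rw [show 4 * g + 2 = 2 * (2 * g + 1) by ring, pow_mul (v : ℚ) 2]
  congr 1
  · rw [div_pow]; field_simp
  · refine sum_congr rfl fun i _ => ?_
    obtain ⟨j, hj⟩ := Nat.exists_eq_add_of_le (Nat.lt_succ_iff.1 i.2)
    rw [show 2 * g + 1 - 1 - i.1 = j by omega, show ((v : ℚ) ^ 2) ^ (2 * g + 1) =
      ((v : ℚ) ^ 2) ^ (i.1 + 1) * ((v : ℚ) ^ 2) ^ j by rw [← pow_add]; congr 1; omega, div_pow]
    push_cast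
    field_simp

theorem out_of {v u : ℕ} (hv : 0 < v) (hu : 0 < u) {w : Vec g} (h : Bst w u v) :
    Out g (zK (pc (sv (sc v w))) ℚ) u := by
  obtain ⟨hi, G, hG, hs, hm, hd, hF, hg⟩ := h
  have v0 : (v : ℚ) ≠ 0 := Nat.cast_ne_zero.2 hv.ne'
  refine ⟨?_, Int.natCast_ne_zero.2 hu.ne', G, _, ?_, hs, hm, hd, hF, fun x l hl hx => ?_, hg⟩
  · let _ := invertibleOfNonzero (inv_ne_zero (pow_ne_zero 2 v0))
    have e : zK (pc (sv (sc v w))) ℚ = C ((v : ℚ) ^ (4 * g + 2)) *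
        algEquivCMulXAddC ((v : ℚ) ^ 2)⁻¹ 0 (zK (pc (sv w)) ℚ) := Polynomial.funext fun x => by
      rw [sc_eval hv, eval_mul, eval_C, algEquivCMulXAddC_apply, ← comp_eq_aeval, eval_comp]
      simp [div_eq_inv_mul]
    rw [e, irreducible_isUnit_mul (isUnit_C.2 (pow_ne_zero _ v0).isUnit)]
    exact (MulEquiv.irreducible_iff _).2 hi
  · rw [sc_eval hv, ← hG, rs_eq (md_deg w) _ v0, Int.cast_natCast]
  · have e : (v : ℚ) ^ 2 * (x / (v : ℚ) ^ 2) + (u : ℚ) ^ 2 = l := by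
      rw [hl, Int.cast_natCast]; field_simp
    have := od_eval (md_deg w) hG (Nat.cast_ne_zero.2 hs.ne_zero) (x / (v : ℚ) ^ 2) (e ▸ hx)
    rw [e] at this
    rw [this, sc_eval hv]
    ring

theorem ur {v H U : ℕ} (hv : 0 < v) (h1 : H ≤ U ^ 2) (h2 : U ≤ H)
    (h4 : (144 * v ^ 2 * (6 * v)) ^ 2 ≤ H) (a3 : 1 ≤ H / (3 * v)) :
    Ur g (H / (3 * v)) (U / (6 * v)) ∧ U ≤ 12 * v * (U / (6 * v)) ∧ H ≤ 6 * v * (H / (3 * v)) := by
  have a1 : 144 * v ^ 2 ≤ U / (6 * v) := (Nat.le_div_iff_mul_le (by omega)).2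
    ((Nat.pow_le_pow_iff_left two_ne_zero).1 (h4.trans h1))
  have a2 : 1 ≤ U / (6 * v) := le_trans (by have := pow_pos hv 2; omega) a1
  have a4 : U ≤ 12 * v * (U / (6 * v)) := by
    have := Nat.lt_mul_div_succ U (show 0 < 6 * v by omega)
    nlinarith
  have a5 : H ≤ 6 * v * (H / (3 * v)) := by
    have := Nat.lt_mul_div_succ H (show 0 < 3 * v by omega)
    nlinarith
  refine ⟨⟨?_, Nat.div_le_div h2 (by omega) (by omega)⟩, a4, a5⟩
  calc _ ≤ (12 * v * (U / (6 * v))) ^ 2 :=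
      (Nat.div_le_self _ _).trans (h1.trans (Nat.pow_le_pow_left a4 2))
    _ = 144 * v ^ 2 * (U / (6 * v)) ^ 2 := by ring
    _ ≤ _ := by rw [pow_succ' _ 2]; exact Nat.mul_le_mul_right _ a1

end PrsA

open PrsA in
/-- the final form -/
theorem pres (h : MainStmt) (g : ℕ) (hg : 1 ≤ g) : ∃ ε : ℝ, 0 < ε ∧ ∀ᶠ H : ℕ in atTop, ∀ U : ℕ,
    H ≤ U ^ 2 → U ≤ H →
    ∀ B : Finset (ℤ × (Fin (2 * g) → ℤ) × ℤ), (∀ t, t ∈ B ↔ |t.1| ≤ U ∧
      (∀ i, |t.2.1 i| ≤ (H : ℤ) ^ (2 * i.1 + 2)) ∧ |t.2.2| ≤ (H : ℤ) ^ (2 * g + 1)) →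
    ∃ T ⊆ B, ε * B.card ≤ T.card ∧ ∀ t ∈ T, Out g (X ^ (2 * g + 1) +
      ∑ i, C (t.2.1 i : ℚ) * X ^ (2 * g - i.1) + C ((t.2.2 : ℚ) ^ 2)) t.1 := by
  classical
  obtain ⟨v, ε, hv, h0, h⟩ := h g hg
  refine ⟨ε / (36 * v * (3 ^ (2 * g + 1) * (6 * v) ^ ((2 * g + 1) ^ 2))), by positivity, ?_⟩
  have ht : Tendsto (fun H : ℕ => H / (3 * v)) atTop atTop :=
    Nat.tendsto_div_const_atTop (by omega)
  filter_upwards [ht.eventually h, eventually_ge_atTop ((144 * v ^ 2 * (6 * v)) ^ 2),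
    ht.eventually_ge_atTop 1, eventually_ge_atTop 1]
    with H k h4 h5 h6 U h1 h2 B hB
  obtain ⟨a1, a2, a3⟩ := ur (g := g) hv h1 h2 h4 h5
  have k := k _ a1
  have a4 : 3 * (U / (6 * v)) ≤ U :=
    (Nat.mul_le_mul_right _ (by omega)).trans (Nat.mul_div_le U (6 * v))
  have a5 := Nat.mul_div_le H (3 * v)
  have a6 : 1 ≤ U := Nat.pos_of_ne_zero fun e => by rw [e] at h1; omega
  generalize H / (3 * v) = k', U / (6 * v) = U' at *
  refine ⟨B.filter fun t => Out g (zK (pc (sv (jn t.2))) ℚ) t.1, filter_subset _ _, ?_,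
    fun t ht => md_eq t.2 ▸ (mem_filter.1 ht).2⟩
  have b1 : B.card ≤ 36 * v * (3 ^ (2 * g + 1) * (6 * v) ^ ((2 * g + 1) ^ 2)) *
      (k' ^ ((2 * g + 1) ^ 2) * U') := by
    have e := FinK.box_eq fun i : Fin (2 * g + 1) => H ^ xp g i.1
    have c := FinA.box_card g H h6
    simp only [Nat.cast_pow] at e
    rw [e, Set.ncard_coe_finset] at c
    refine (card_le_card_of_injOn (t := Icc (-(U : ℤ)) U ×ˢ Fintype.piFinset fun i =>
      Icc (-(H : ℤ) ^ xp g i.1) ((H : ℤ) ^ xp g i.1)) (fun t => (t.1, jn t.2)) (fun t ht => ?_)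
      fun t _ t' _ e => Prod.ext (Prod.ext_iff.1 e).1 ((jn_bij g).1 (Prod.ext_iff.1 e).2)).trans ?_
    · have := (hB t).1 ht
      simpa only [coe_product, Set.mem_prod, mem_coe, mem_Icc, Fintype.mem_piFinset, ← abs_le]
        using And.intro this.1 ((box_iff _ _).2 this.2)
    · rw [card_product, FinK.card_Icc']
      calc _ ≤ 36 * v * U' * (3 ^ (2 * g + 1) * (6 * v * k') ^ ((2 * g + 1) ^ 2)) :=
          Nat.mul_le_mul (by linarith) (c.trans (Nat.mul_le_mul_left _ (Nat.pow_le_pow_left a3 _)))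
        _ = _ := by rw [mul_pow (6 * v)]; ring
  have b2 : ((Ioc U' (3 * U') ×ˢ bx g k').filter fun x => Bst x.2 x.1 v).card ≤
      (B.filter fun t => Out g (zK (pc (sv (jn t.2))) ℚ) t.1).card := by
    refine card_le_card_of_injOn (fun x => ((x.1 : ℤ), pr (sc v x.2))) (fun x hx => ?_)
      fun x _ y _ e => Prod.ext (Int.natCast_inj.1 (congrArg Prod.fst e)) (funext fun i => ?_)
    · obtain ⟨c1, c2⟩ := mem_filter.1 (mem_coe.1 hx)
      obtain ⟨c3, c4⟩ := mem_product.1 c1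
      rw [mem_Ioc] at c3
      refine mem_coe.2 (mem_filter.2 ⟨(hB _).2 ⟨?_, (box_iff _ _).1 fun i => ?_⟩, ?_⟩)
      · rw [Nat.abs_cast]; exact_mod_cast c3.2.trans a4
      · rw [jn_un, sc, abs_mul, abs_of_nonneg (by positivity)]
        refine (mul_le_mul_of_nonneg_left (FinA.bx_sub hg le_rfl c4 i) (by positivity)).trans ?_
        rw [← mul_pow]
        exact pow_le_pow_left₀ (by positivity) (by exact_mod_cast (by linarith : v * (3 * k') ≤ H)) _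
      · rw [jn_un]; exact out_of hv (by omega) c2
    · have := congrFun (congrArg (fun t => jn t.2) e) i
      simp only [jn_un, sc] at this
      exact mul_left_cancel₀ (by positivity) this
  have b3 : ∑ u ∈ Ioc U' (3 * U'), cnt g k' (fun w => Bst w u v) =
      ((Ioc U' (3 * U') ×ˢ bx g k').filter fun x => Bst x.2 x.1 v).card := by
    simp only [cnt_eq_card, card_filter, sum_product, Nat.cast_sum]
  rw [div_mul_eq_mul_div, div_le_iff₀ (by positivity)]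
  have b4 : (B.card : ℝ) ≤ 36 * v * (3 ^ (2 * g + 1) * (6 * v) ^ ((2 * g + 1) ^ 2)) *
      (vol g k' * U') := by unfold vol; exact_mod_cast b1
  refine (mul_le_mul_of_nonneg_left b4 h0.le).trans ?_
  rw [mul_left_comm, mul_comm, ← mul_assoc ε]
  exact mul_le_mul_of_nonneg_right (k.trans (b3.trans_le (Nat.cast_le.2 b2))) (by positivity)

end Pool.Agent.MP_a43263_nt.N2

end

end PkN2Prs

section PkK2Trn

/-! THEOREM R2: the translated polynomial. -/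

set_option autoImplicit false

noncomputable section

namespace Pool.Agent.MP_a43263_nt.K2

open Polynomial Finset Filter Matrix JC Pool.Agent.MP_a43263_nt.UV

namespace TrnA

theorem nx_comp {p : ℕ} {f : ℤ[X]} (t : ℤ) (h : Nx p f) : Nx p (f.comp (X + C t)) := by
  obtain ⟨φ, a, b, c, h1, h2, h3⟩ := h
  refine ⟨φ.comp (X + C t), a.comp (X + C t), b.comp (X + C t), c.comp (X + C t),
    h1.comp_X_add_C t, ?_, ?_⟩
  · rwa [natDegree_comp, natDegree_X_add_C, mul_one]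
  · rw [h3]
    simp only [add_comp, mul_comp, pow_comp, C_comp]

theorem sub_eq {R : Type} [CommRing R] : (X - 1 : R[X]) = X + C (-1) := by
  rw [C_neg, C_1, sub_eq_add_neg]

theorem back {R : Type} [CommRing R] (f : R[X]) : (f.comp (X - 1)).comp (X + C 1) = f := by
  rw [comp_assoc]
  simp

theorem zK_f1 {g : ℕ} (w : Vec g) (R : Type) [CommRing R] :
    zK (f1 w) R = (zK (pc (sv w)) R).comp (X - 1) := by
  rw [f1, zK, map_comp]
  simp

theorem zK_pc {g : ℕ} (w : Vec g) (R : Type) [CommRing R] :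
    zK (pc (sv w)) R = pc (sv fun i => (w i : R)) := by
  rw [zK, pc_map]
  congr 1
  funext i
  unfold sv
  split_ifs <;> simp

theorem der_eval {R : Type} [CommRing R] (f : R[X]) (a : R) :
    (derivative (f.comp (X - 1))).eval a = (derivative f).eval (a - 1) := by
  rw [derivative_comp]
  simp [eval_comp]

theorem pc_eval {R : Type} [CommRing R] {n : ℕ} (c : Fin n → R) (b : R) :
    (pc c).eval b = b ^ n + ∑ i, c i * b ^ (n - 1 - i.1) := by
  simp [pc, eval_finsetSum]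

theorem pc_der {R : Type} [CommRing R] {n : ℕ} (c : Fin n → R) (b : R) :
    (derivative (pc c)).eval b =
      n * b ^ (n - 1) + ∑ i, ((n - 1 - i.1 : ℕ) : R) * c i * b ^ (n - 1 - i.1 - 1) := by
  rw [pc, derivative_add, derivative_X_pow, derivative_sum, eval_add, eval_finsetSum]
  congr 1
  · simp
  · refine sum_congr rfl fun i _ => ?_
    rw [derivative_C_mul, derivative_X_pow, eval_mul, eval_mul, eval_C, eval_C, eval_pow, eval_X]
    ring

theorem gx_eq {g : ℕ} (w : Vec g) (u v : ℤ) {R : Type} [CommRing R] (b : R)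
    (h : -(u : R) ^ 2 = (v : R) ^ 2 * b) :
    (Gx w u v : R) = ((v : R) ^ 2) ^ (2 * g) * (derivative (zK (pc (sv w)) R)).eval b := by
  rw [zK, pc_map, pc_der, Gx, Nat.add_sub_cancel, mul_add, mul_sum]
  push_cast
  rw [h]
  congr 1
  · ring
  · refine sum_congr rfl fun i _ => ?_
    have hi := i.2
    rcases Nat.lt_or_ge i.1 (2 * g) with e | e
    · obtain ⟨m, hm⟩ : ∃ m, 2 * g = m + (i.1 + 1) := ⟨2 * g - i.1 - 1, by omega⟩
      have h1 : 2 * g - i.1 - 1 = m := by omega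
      have h2 : ((v : R) ^ 2) ^ (2 * g) = ((v : R) ^ 2) ^ m * ((v : R) ^ 2) ^ (i.1 + 1) := by
        rw [← pow_add, ← hm]
      rw [h1, h2, eq_intCast]
      ring
    · have h1 : 2 * g - i.1 = 0 := by omega
      rw [h1]
      simp

theorem box {g k : ℕ} {w : Vec g} (hg : 1 ≤ g) (hw : w ∈ bx g k) : Box (8 * k ^ 2) (sv w) := by
  intro i
  obtain ⟨h1, h2⟩ := mem_bx.1 hw i
  have h0 : (0 : ℤ) ≤ (k : ℤ) ^ xp g i.1 := by positivity
  have h3 : |w i| ≤ 8 * (k : ℤ) ^ xp g i.1 := by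
    rw [abs_le]
    unfold ce at h1 h2
    split_ifs at h1 h2 <;> constructor <;> linarith
  push_cast
  rw [mul_pow, ← pow_mul]
  unfold sv
  unfold xp at h3
  split_ifs at h3 ⊢ with e
  · rw [abs_pow, e]
    have h4 : (8 : ℤ) ^ 2 ≤ 8 ^ (2 * g + 1) := pow_le_pow_right₀ (by norm_num) (by omega)
    calc |w i| ^ 2 ≤ (8 * (k : ℤ) ^ (2 * g + 1)) ^ 2 := pow_le_pow_left₀ (abs_nonneg _) h3 2
      _ = 8 ^ 2 * (k : ℤ) ^ (2 * (2 * g + 1)) := by ring
      _ ≤ _ := mul_le_mul_of_nonneg_right h4 (by positivity)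
  · have h4 : (8 : ℤ) ^ 1 ≤ 8 ^ (i.1 + 1) := pow_le_pow_right₀ (by norm_num) (by omega)
    rw [pow_one] at h4
    exact h3.trans (mul_le_mul_of_nonneg_right h4 (by positivity))

end TrnA

open TrnA in
theorem trn_k : TRNStmt := by
  intro g w hg
  have hl : (Fin.last (2 * g)).1 = 2 * g := rfl
  refine ⟨⟨?_, ?_⟩, ?_, fun i hi => ?_, fun h => ?_, fun p => ⟨fun h => ?_, fun h => ?_⟩,
    fun a => ?_, fun q w' h => ?_, fun w' h e => ?_, fun p u v _ _ h a h1 _ h2 => h ?_,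
    fun k hk hw => ⟨?_, fun θ hθ => ?_⟩⟩
  · rw [f1, sub_eq]
    exact (pc_monic _).comp_X_add_C _
  · rw [f1, sub_eq, natDegree_comp, natDegree_X_add_C, mul_one, pc_deg]
  · have h := Beta.pc_coeff (sv w) (Fin.last _)
    rw [hl, Nat.add_sub_cancel, Nat.sub_self, sv, if_pos hl] at h
    rw [f1, eval_comp, eval_sub, eval_X, eval_one, sub_self, ← coeff_zero_eq_eval_zero, h]
  · have h := Beta.pc_coeff (sv w) i
    rw [show 2 * g + 1 - 1 - i.1 = 1 by omega, sv, if_neg (by omega)] at h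
    rw [f1, der_eval, sub_self, ← coeff_zero_eq_eval_zero, coeff_derivative, zero_add, h]
    simp
  · rw [zK_f1, sub_eq] at h
    refine (MulEquiv.irreducible_iff (algEquivAevalXAddC (-1 : ℚ))).1 ?_
    rwa [algEquivAevalXAddC_apply, ← comp_eq_aeval]
  · have := nx_comp 1 h
    rwa [f1, back] at this
  · rw [f1, sub_eq]
    exact nx_comp _ h
  · rw [f1, eval_comp, eval_sub, eval_X, eval_one, sub_sub_cancel_left, pc_eval, Gv,
      Nat.add_sub_cancel]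
    simp
  · rw [zK_f1, zK_f1, zK_pc, zK_pc, funext h]
  · have h1 : pc (sv w) = pc (sv w') := by
      rw [← back (pc (sv w)), ← back (pc (sv w'))]
      exact congrArg (fun f : ℤ[X] => f.comp (X + C 1)) h
    funext i
    have h2 := Beta.pc_coeff (sv w) i
    rw [h1, Beta.pc_coeff, sv, sv] at h2
    split_ifs at h2 with k
    · rw [show i = Fin.last _ from Fin.ext k, e]
    · exact h2.symm
  · rw [zK_f1, der_eval] at h2
    rw [← ZMod.intCast_zmod_eq_zero_iff_dvd, gx_eq w u v (a - 1), h2, mul_zero]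
    rw [el, zK, Polynomial.map_add, Polynomial.map_mul, Polynomial.map_sub, map_C, map_C, map_X,
      Polynomial.map_one, eval_add, eval_mul, eval_sub, eval_C, eval_C, eval_X, eval_one,
      eq_intCast, eq_intCast, Int.cast_pow, Int.cast_pow] at h1
    linear_combination -h1
  · have h1 := (mem_bx.1 hw (Fin.last _)).1
    have h0 : (0 : ℤ) < (k : ℤ) ^ xp g (2 * g) := by positivity
    rw [hl, ce, if_pos (Or.inr rfl)] at h1
    exact ne_of_gt (by linarith)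
  · rw [zK_f1, eval_comp, eval_sub, eval_X, eval_one] at hθ
    have h1 := root.2 _ _ _ (by nlinarith) (box hg hw) _ hθ
    have h2 : (1 : ℝ) ≤ k := by exact_mod_cast hk
    have h3 : ‖θ‖ ≤ ‖θ - 1‖ + 1 := by simpa using norm_add_le (θ - 1) 1
    push_cast at h1
    rw [norm_sub_rev 1 θ]
    constructor <;> nlinarith

end Pool.Agent.MP_a43263_nt.K2

end

end PkK2Trn

section PkK2Cls

/-! THEOREM R2: admissible classes exist. -/

set_option autoImplicit false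

noncomputable section

namespace Pool.Agent.MP_a43263_nt.K2

open Polynomial Finset Filter Matrix JC Pool.Agent.MP_a43263_nt.UV

namespace ClsA

theorem cast_eval (f : ℤ[X]) (l : ℕ) (x : ℤ) :
    ((f.eval x : ℤ) : ZMod l) = (zK f (ZMod l)).eval (x : ZMod l) := by
  rw [zK, eval_intCast_map]
  rfl

theorem noroot {g q : ℕ} {f : ℤ[X]} (hf : Zq g f) (hq : q.Prime) {h : (ZMod q)[X]}
    (e : zK f (ZMod q) = X * h) (hi : Irreducible h) (x : ZMod q) : h.eval x ≠ 0 := fun c => by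
  have := Fact.mk hq
  have h1 := natDegree_eq_of_degree_eq_some (n := 1) (degree_eq_one_of_irreducible_of_root hi c)
  have h2 : (zK f (ZMod q)).natDegree = 2 * g + 1 := by rw [hf.monic.natDegree_map, hf.deg]
  rw [e, natDegree_X_mul hi.ne_zero] at h2
  have := hf.pos
  omega

theorem out {g q : ℕ} {f : ℤ[X]} (hf : Zq g f) (hq : q.Prime) (ht : Ty q f) :
    ¬(q : ℤ) ∣ f.eval (1 - ((0 : ℕ) : ℤ) ^ 2) := fun c => by
  obtain ⟨h, e, hi, -⟩ := ht
  rw [← ZMod.intCast_zmod_eq_zero_iff_dvd, cast_eval, e] at c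
  exact noroot hf hq e hi 1 (by simpa using c)

theorem inn {g q : ℕ} {f : ℤ[X]} (hf : Zq g f) (hq : q.Prime) (h2 : q ≠ 2) (ht : Ty q f) :
    ∃ a : ℕ, (q : ℤ) ∣ f.eval (1 - (a : ℤ) ^ 2) ∧ ¬(q : ℤ) ^ 2 ∣ f.eval (1 - (a : ℤ) ^ 2) := by
  obtain ⟨h, e, hi, -⟩ := ht
  have h0 : (q : ℤ) ∣ f.eval 0 := by
    rw [← ZMod.intCast_zmod_eq_zero_iff_dvd, cast_eval, e]
    simp
  by_cases c : (q : ℤ) ^ 2 ∣ f.eval 0
  · have h1 : ¬(q : ℤ) ∣ (derivative f).eval 0 := fun d => by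
      rw [← ZMod.intCast_zmod_eq_zero_iff_dvd, cast_eval, zK, ← derivative_map, ← zK, e] at d
      exact noroot hf hq e hi 0 (by simpa using d)
    obtain ⟨k, hk⟩ := f.binomExpansion 0 (-(q * (2 + q)))
    have e1 : 1 - ((1 + q : ℕ) : ℤ) ^ 2 = 0 + -(q * (2 + q)) := by push_cast; ring
    refine ⟨1 + q, ?_, fun d => ?_⟩
    · rw [e1, hk]
      exact (h0.add ⟨-(derivative f).eval 0 * (2 + q), by ring⟩).add
        ⟨k * q * (2 + q) ^ 2, by ring⟩
    · rw [e1, hk] at d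
      have d1 : (q : ℤ) * q ∣ q * ((derivative f).eval 0 * 2) := by
        have := (c.sub d).add (⟨k * (2 + q) ^ 2 - (derivative f).eval 0, rfl⟩ :
          (q : ℤ) ^ 2 ∣ (q : ℤ) ^ 2 * (k * (2 + q) ^ 2 - (derivative f).eval 0))
        rw [← sq]
        exact this.trans (dvd_of_eq (by ring))
      have d2 := (mul_dvd_mul_iff_left (Int.natCast_ne_zero.2 hq.ne_zero)).1 d1
      rcases (Nat.prime_iff_prime_int.1 hq).dvd_or_dvd d2 with d3 | d3
      · exact h1 d3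
      · exact h2 ((Nat.prime_dvd_prime_iff_eq hq Nat.prime_two).1 (by exact_mod_cast d3))
  · exact ⟨1, by simpa using h0, by simpa using c⟩

theorem five {f : ℤ[X]} (ht : Tz 5 0 f) : ¬((5 : ℕ) : ℤ) ∣ f.eval (1 - ((1 : ℕ) : ℤ) ^ 2) :=
  fun c => by
    obtain ⟨h, e, -, hs⟩ := ht
    rw [← ZMod.intCast_zmod_eq_zero_iff_dvd, cast_eval, e] at c
    have : h.eval 0 = 0 := by simpa using c
    exact hs (by rw [this]; exact IsSquare.zero)

theorem cong (f : ℤ[X]) {a b m : ℕ} (h : a ≡ b [MOD m]) :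
    (m : ℤ) ∣ f.eval (1 - (b : ℤ) ^ 2) - f.eval (1 - (a : ℤ) ^ 2) :=
  (show (m : ℤ) ∣ 1 - (b : ℤ) ^ 2 - (1 - (a : ℤ) ^ 2) from
    (h.dvd.mul_left (-(a + b : ℤ))).trans (dvd_of_eq (by ring))).trans (sub_dvd_eval_sub _ _ f)

end ClsA

open ClsA in
theorem cls_k : TRNStmt → CLSStmt := by
  intro trn g Q S w hg hF hS
  have h5 : 5 ∉ Q := fun c => absurd (hF.ty 5 c).2.1 (by norm_num)
  have hp : ∀ l ∈ insert 5 Q, l.Prime := fun l hl => by
    rcases mem_insert.1 hl with rfl | hl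
    exacts [Nat.prime_five, (hF.ty l hl).1]
  have loc : ∀ l : ℕ, ∃ a : ℕ, l ∈ insert 5 Q → (l = 5 → a = 1) ∧
      (l ∉ S → ¬(l : ℤ) ∣ (f1 w).eval (1 - (a : ℤ) ^ 2)) ∧
      (l ∈ S → (l : ℤ) ∣ (f1 w).eval (1 - (a : ℤ) ^ 2) ∧
        ¬(l : ℤ) ^ 2 ∣ (f1 w).eval (1 - (a : ℤ) ^ 2)) := fun l => by
    by_cases c5 : l = 5
    · subst c5
      exact ⟨1, fun _ => ⟨fun _ => rfl, fun _ => five hF.t5, fun c => (h5 (hS c)).elim⟩⟩
    by_cases cQ : l ∈ Q
    · obtain ⟨k1, k2, k3⟩ := hF.ty l cQ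
      by_cases cS : l ∈ S
      · obtain ⟨a, ha⟩ := inn hF.zq k1 (by omega) k3
        exact ⟨a, fun _ => ⟨fun c => (c5 c).elim, fun c => (c cS).elim, fun _ => ha⟩⟩
      · exact ⟨0, fun _ => ⟨fun c => (c5 c).elim, fun _ => out hF.zq k1 k3, fun c => (cS c).elim⟩⟩
    · exact ⟨0, fun c => ((mem_insert.1 c).elim c5 cQ).elim⟩
  choose r hr using loc
  have hs0 : ∀ l ∈ insert 5 Q, l ^ 2 ≠ 0 := fun l hl => pow_ne_zero 2 (hp l hl).ne_zero
  have hpp : Set.Pairwise (↑(insert 5 Q) : Set ℕ) (Function.onFun Nat.Coprime fun l => l ^ 2) :=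
    fun l hl l' hl' c => Nat.Coprime.pow 2 2 ((Nat.coprime_primes (hp l hl) (hp l' hl')).2 c)
  obtain ⟨a, ha, hlt⟩ : ∃ a : ℕ, (∀ l ∈ insert 5 Q, a ≡ r l [MOD l ^ 2]) ∧
      a < ∏ l ∈ insert 5 Q, l ^ 2 :=
    ⟨_, (Nat.chineseRemainderOfFinset r (fun l => l ^ 2) (insert 5 Q) hs0 hpp).2,
      Nat.chineseRemainderOfFinset_lt_prod r (fun l => l ^ 2) hs0 hpp⟩
  rw [prod_pow, prod_insert h5] at hlt
  have hd : ∀ l ∈ insert 5 Q, (l : ℤ) ^ 2 ∣ (f1 w).eval (1 - (r l : ℤ) ^ 2) -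
      (f1 w).eval (1 - (a : ℤ) ^ 2) := fun l hl => by exact_mod_cast cong (f1 w) (ha l hl)
  have hd1 := fun (l : ℕ) hl => (dvd_pow_self (l : ℤ) two_ne_zero).trans (hd l hl)
  have hG := (trn g w hg).2.2.2.2.2.1 a
  have dv : ((∏ q ∈ S, q : ℕ) : ℤ) ∣ Gv w a 1 := by
    rw [hG, Nat.cast_prod]
    refine prod_dvd_of_coprime (fun l hl l' hl' c => ?_) fun l hl => ?_
    · exact Nat.isCoprime_iff_coprime.2
        ((Nat.coprime_primes (hF.ty l (hS hl)).1 (hF.ty l' (hS hl')).1).2 c)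
    · have m := mem_insert_of_mem (b := 5) (hS hl)
      exact (dvd_sub_right ((hr l m).2.2 hl).1).1 (hd1 l m)
  refine ⟨a, mem_range.2 hlt, ?_, dv, ?_⟩
  · have := (ha 5 (mem_insert_self _ _)).of_dvd (dvd_pow_self 5 two_ne_zero)
    rwa [(hr 5 (mem_insert_self _ _)).1 rfl] at this
  · obtain ⟨c, hc⟩ := dv
    have d0 : ((∏ q ∈ S, q : ℕ) : ℤ) ≠ 0 :=
      Int.natCast_ne_zero.2 (prod_ne_zero_iff.2 fun l hl => (hF.ty l (hS hl)).1.ne_zero)
    rw [hc, Int.mul_ediv_cancel_left _ d0, ← prod_insert (f := fun q => q) h5, Nat.cast_prod]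
    refine IsCoprime.prod_right fun l hl => ?_
    refine ((Nat.prime_iff_prime_int.1 (hp l hl)).irreducible.coprime_iff_not_dvd.2 fun d => ?_).symm
    rw [hG] at hc
    by_cases cS : l ∈ S
    · refine ((hr l hl).2.2 cS).2 ((dvd_sub_left ?_).1 (hd l hl))
      rw [hc, sq]
      exact mul_dvd_mul (Int.natCast_dvd_natCast.2 (dvd_prod_of_mem _ cS)) d
    · exact (hr l hl).2.1 cS ((dvd_sub_left (hc ▸ d.mul_left _)).1 (hd1 l hl))

end Pool.Agent.MP_a43263_nt.K2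

end

end PkK2Cls

section PkK2Low

/-! THEOREM R2: the sieve at the small primes. -/

set_option autoImplicit false

noncomputable section

namespace Pool.Agent.MP_a43263_nt.K2

open Polynomial Finset Filter Matrix JC Pool.Agent.MP_a43263_nt.UV Topology

namespace LowA

theorem sum_xp (g : ℕ) : ∑ i : Fin (2 * g + 1), xp g i.1 = (2 * g + 1) ^ 2 := by
  have : ∀ n : ℕ, ∑ i ∈ range n, 2 * (i + 1) = n * (n + 1) := fun n => by
    induction n with
    | zero => simp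
    | succ n ih => rw [sum_range_succ, ih]; ring
  rw [Fin.sum_univ_eq_sum_range (fun i => xp g i), sum_range_succ,
    sum_congr rfl fun i hi => show xp g i = 2 * (i + 1) from if_neg (mem_range.1 hi).ne, this, xp,
    if_pos rfl]
  ring

theorem sum_le (P : Finset ℕ) (hP : ∀ p ∈ P, 7 ≤ p) :
    ∑ p ∈ P, 1 / ((p : ℝ) ^ 2 - 1) ≤ 13 / 84 := by
  have h := Low.sum_le (P ∪ {3, 4, 5, 6}) fun p hp => by
    rcases mem_union.1 hp with h | h
    · have := hP p h; omega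
    · simp only [mem_insert, mem_singleton] at h; omega
  rw [sum_union (disjoint_left.2 fun p hp h => by
    have := hP p hp
    simp only [mem_insert, mem_singleton] at h; omega)] at h
  norm_num at h ⊢
  linarith

theorem ev (n : ℕ) (K : ℝ) : ∀ᶠ H : ℕ in atTop, 1 ≤ H ∧ K / H ≤ 1 ∧
    1 / 2 ≤ (2 - K / H) ^ (n + 1) - 13 / 21 * (2 + K / H) ^ (n + 1) := by
  have h0 : Tendsto (fun H : ℕ => K / (H : ℝ)) atTop (𝓝 0) :=
    tendsto_const_div_atTop_nhds_zero_nat K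
  have h1 : Tendsto (fun H : ℕ => (2 - K / (H : ℝ)) ^ (n + 1) - 13 / 21 * (2 + K / (H : ℝ)) ^ (n + 1))
      atTop (𝓝 ((2 - 0) ^ (n + 1) - 13 / 21 * (2 + 0) ^ (n + 1))) :=
    ((h0.const_sub 2).pow _).sub (((h0.const_add 2).pow _).const_mul _)
  refine (eventually_ge_atTop 1).and ((h0.eventually_le_const one_pos).and ?_)
  refine h1.eventually_const_le ?_
  have : (1 : ℝ) ≤ 2 ^ n := one_le_pow₀ one_le_two
  rw [sub_zero, add_zero, pow_succ]
  linarith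

theorem bad {n m p : ℕ} (c₀ : Fin n → ℤ) (L : Fin n → ℝ) (R : (Fin n → ℤ) → Prop)
    (hL : ∀ i, 0 ≤ L i) (hp : 0 < p) (hm : 0 < m) (hc : m.Coprime p) (hne : m ≠ p) :
    ({c : Fin n → ℤ | (∀ i, |(c i : ℝ)| ≤ L i) ∧ (∀ i, (c i : ZMod m) = c₀ i) ∧ R c}.ncard : ℝ) ≤
      ({x : Fin n → ZMod p | ∃ c : Fin n → ℤ, (fun i => (c i : ZMod p)) = x ∧ R c}.ncard : ℝ) *
        ∏ i, (2 * L i / (m * (p : ℝ)) + 1) := by
  obtain ⟨hf, h, -⟩ := bxc (Fin n) L hL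
  let S : ∀ q : ℕ, Set (Fin n → ZMod q) := fun q => {x | ∃ c : Fin n → ℤ,
    (fun i => (c i : ZMod q)) = x ∧ (q = m ∧ (∀ i, (c i : ZMod m) = c₀ i) ∨ q = p ∧ R c)}
  have h1 := h {m, p} S (by simp [hm, hp]) (by
    rw [coe_pair]
    exact (Set.pairwise_pair_of_symm (r := Nat.Coprime)).2 fun _ => hc)
  rw [prod_pair hne, prod_pair hne] at h1
  have h2 : (S m).ncard ≤ 1 := by
    refine (Set.ncard_le_ncard (t := {fun i => (c₀ i : ZMod m)}) ?_).trans (by simp)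
    rintro _ ⟨c, rfl, hx | hx⟩
    · exact funext hx.2
    · exact (hne hx.1).elim
  have h3 : S p = {x : Fin n → ZMod p | ∃ c : Fin n → ℤ, (fun i => (c i : ZMod p)) = x ∧ R c} := by
    ext x
    simp [S, hne.symm]
  rw [← h3]
  refine le_trans (Nat.cast_le.2 (Set.ncard_le_ncard ?_ (hf.subset fun z hz => hz.1)))
    (h1.trans ?_)
  · rintro c ⟨hc1, hc2, hc3⟩
    refine ⟨hc1, fun q hq => ⟨c, rfl, ?_⟩⟩
    rcases mem_insert.1 hq with hq | hq
    · exact .inl ⟨hq, hc2⟩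
    · exact .inr ⟨mem_singleton.1 hq, hc3⟩
  · refine mul_le_mul_of_nonneg_right ?_ (prod_nonneg fun i _ => by
      have := hL i
      positivity)
    have h5 : ((S m).ncard : ℝ) ≤ 1 := by exact_mod_cast h2
    exact mul_le_of_le_one_left (Nat.cast_nonneg _) h5

/-- translation to the centre -/
theorem shift (g k : ℕ) (P : Vec g → Prop) : cnt g k P =
    ({z : Vec g | (∀ i, |(z i : ℝ)| ≤ (k : ℝ) ^ xp g i.1) ∧
      P ((fun i => ce g k i.1) + z)}.ncard : ℝ) := by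
  rw [cnt_eq_ncard, ← Set.ncard_preimage_of_injective_subset_range
    (add_right_injective fun i : Fin (2 * g + 1) => ce g k i.1)
    (by rw [(AddGroup.addLeft_bijective _).2.range_eq]; exact Set.subset_univ _)]
  congr 2
  ext z
  refine and_congr_left' ?_
  rw [mem_bx]
  refine forall_congr' fun i => ?_
  have : |(z i : ℝ)| ≤ (k : ℝ) ^ xp g i.1 ↔ |z i| ≤ (k : ℤ) ^ xp g i.1 := by exact_mod_cast Iff.rfl
  rw [this, abs_le]
  simp only [Pi.add_apply]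
  constructor <;> rintro ⟨a, b⟩ <;> constructor <;> linarith

end LowA

theorem low_k : BETAStmt → LOWStmt := by
  intro be g Q w₀ M hg hQ
  classical
  have hm : 0 < 30 * ∏ q ∈ Q, q := mul_pos (by norm_num) (prod_pos fun q hq => (hQ q hq).1.pos)
  have hmc : 30 * ∏ q ∈ Q, (q : ℝ) = ((30 * ∏ q ∈ Q, q : ℕ) : ℝ) := by push_cast; rfl
  have hco : ∀ p : ℕ, p.Prime → 7 ≤ p → p ∉ Q → (30 * ∏ q ∈ Q, q).Coprime p := fun p hp h7 hq => by
    refine Nat.Coprime.mul_left ?_ (Nat.Coprime.prod_left fun q h =>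
      (Nat.coprime_primes (hQ q h).1 hp).2 fun e => hq (e ▸ h))
    exact (((Nat.coprime_primes Nat.prime_two hp).2 (by omega)).mul_left
      ((Nat.coprime_primes Nat.prime_three hp).2 (by omega))).mul_left
      ((Nat.coprime_primes Nat.prime_five hp).2 (by omega))
  rw [hmc]
  generalize 30 * ∏ q ∈ Q, q = m at *
  have hP : (0 : ℝ) < m := by exact_mod_cast hm
  filter_upwards [LowA.ev (2 * g) (m * (1 + M ^ 2))] with H ⟨hH, ht1, ht2⟩
  have hH1 : (1 : ℝ) ≤ H := by exact_mod_cast hH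
  obtain ⟨L, hLd⟩ : ∃ L : Fin (2 * g + 1) → ℝ, L = fun i => (H : ℝ) ^ xp g i.1 := ⟨_, rfl⟩
  obtain ⟨c, hcd⟩ : ∃ c : Vec g, c = fun i => ce g H i.1 := ⟨_, rfl⟩
  have sf : ∀ P : Vec g → Prop, cnt g H P =
      ({z : Vec g | (∀ i, |(z i : ℝ)| ≤ L i) ∧ P (c + z)}.ncard : ℝ) := fun P => by
    rw [hLd, hcd]; exact LowA.shift g H P
  have cl : ∀ z : Vec g, (∀ i, ((c + z) i : ZMod m) = w₀ i) ↔
      ∀ i, (z i : ZMod m) = (w₀ - c) i := fun z => forall_congr' fun i => by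
    simp only [Pi.add_apply, Pi.sub_apply, Int.cast_add, Int.cast_sub, eq_sub_iff_add_eq']
  have hLH : ∀ i, (H : ℝ) ≤ L i := fun i => by
    rw [hLd]
    exact le_self_pow₀ hH1 (by unfold xp; split_ifs <;> omega)
  have hL : ∀ i, 0 ≤ L i := fun i => by linarith [hLH i]
  have hX : ∏ i, L i / m = vol g H / m ^ (2 * g + 1) := by
    rw [prod_div_distrib, hLd, prod_pow_eq_pow_sum, LowA.sum_xp, vol]
    simp
  have hK : m * (1 + M ^ 2) ≤ H := (div_le_one (by linarith)).1 ht1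
  have ht : ∀ i, 1 + M ^ 2 ≤ L i / m * (m * (1 + M ^ 2) / H) := fun i => by
    have e : L i / m * (m * (1 + M ^ 2) / H) = L i / H * (1 + M ^ 2) := by field_simp
    rw [e]
    exact le_mul_of_one_le_left (by positivity) ((one_le_div (by linarith)).2 (hLH i))
  have ht0 : 0 ≤ m * (1 + M ^ 2) / H := by positivity
  generalize m * (1 + M ^ 2) / H = t at *
  have h0 : 0 ≤ vol g H / (m : ℝ) ^ (2 * g + 1) := by unfold vol; positivity
  have hA : vol g H / m ^ (2 * g + 1) * (2 - t) ^ (2 * g + 1) ≤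
      cnt g H fun w => ∀ i, (w i : ZMod m) = w₀ i := by
    rw [sf]
    simp only [cl]
    refine le_trans ?_ ((bxc _ L hL).2.2 m (w₀ - c) hm fun i => by nlinarith [hLH i, sq_nonneg M])
    rw [← hX, ← Fin.prod_const, ← prod_mul_distrib]
    refine prod_le_prod (fun i _ => mul_nonneg (div_nonneg (hL i) hP.le) (by linarith))
      fun i _ => ?_
    rw [mul_div_assoc]
    nlinarith [ht i, sq_nonneg M]
  let Ps := (range ⌈M⌉₊).filter fun p => p.Prime ∧ 7 ≤ p ∧ p ∉ Q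
  have hbad : ∀ p ∈ Ps, (cnt g H fun w => (∀ i, (w i : ZMod m) = w₀ i) ∧ Nx p (f1 w)) ≤
      vol g H / m ^ (2 * g + 1) * (2 + t) ^ (2 * g + 1) * 4 * (1 / ((p : ℝ) ^ 2 - 1)) := by
    intro p hp
    obtain ⟨hpM, hp, h7, hq⟩ := mem_filter.1 hp
    have hpM' : (p : ℝ) < M := Nat.lt_ceil.1 (mem_range.1 hpM)
    have hp1 : (1 : ℝ) < p := by exact_mod_cast hp.one_lt
    have hp2 : 0 < p ^ 2 := pow_pos hp.pos 2
    have := NeZero.mk hp2.ne'
    rw [sf]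
    simp only [cl]
    refine (LowA.bad (w₀ - c) L (fun z => Nx p (f1 (c + z))) hL hp2 hm
      ((hco p hp h7 hq).pow_right 2) fun e => ?_).trans ?_
    · have := hco p hp h7 hq
      rw [e, Nat.coprime_pow_left_iff two_pos, Nat.coprime_self] at this
      omega
    have h3 : {x : Fin (2 * g + 1) → ZMod (p ^ 2) | ∃ z : Vec g,
        (fun i => (z i : ZMod (p ^ 2))) = x ∧ Nx p (f1 (c + z))}.ncard ≤
        {x : Fin (2 * g + 1) → ZMod (p ^ 2) | ∃ w : Vec g,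
          (fun i => (w i : ZMod (p ^ 2))) = x ∧ Nx p (f1 w)}.ncard :=
      Set.ncard_le_ncard_of_injOn (fun x => (fun i => (c i : ZMod (p ^ 2))) + x)
        (by rintro _ ⟨z, rfl, hz⟩; exact ⟨c + z, by ext i; simp, hz⟩)
        (add_right_injective _).injOn (Set.toFinite _)
    have h4 := (Nat.cast_le.2 h3).trans (be g p hg hp (by omega))
    have h1 : (p : ℝ) ^ (2 * (2 * g + 1)) * ∏ i, (2 * L i / (m * ((p ^ 2 : ℕ) : ℝ)) + 1) ≤
        vol g H / m ^ (2 * g + 1) * (2 + t) ^ (2 * g + 1) := by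
      rw [← hX, pow_mul, ← Fin.prod_const (2 * g + 1) ((p : ℝ) ^ 2),
        ← Fin.prod_const (2 * g + 1) (2 + t), ← prod_mul_distrib, ← prod_mul_distrib, Nat.cast_pow]
      refine prod_le_prod (fun i _ => by have := hL i; positivity) fun i _ => ?_
      have e : (p : ℝ) ^ 2 * (2 * L i / (m * (p : ℝ) ^ 2) + 1) = 2 * (L i / m) + p ^ 2 := by
        field_simp
      rw [e]
      nlinarith [ht i]
    have h2 : 0 ≤ 4 * (1 / ((p : ℝ) ^ 2 - 1)) :=
      mul_nonneg (by norm_num) (one_div_nonneg.2 (by nlinarith))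
    refine (mul_le_mul_of_nonneg_right h4 (prod_nonneg fun i _ => by
      have := hL i; positivity)).trans ?_
    refine le_trans (le_of_eq ?_) ((mul_le_mul_of_nonneg_right h1 h2).trans_eq ?_) <;> ring
  have hsum := sum_le_sum hbad
  rw [← mul_sum] at hsum
  replace hsum := hsum.trans (mul_le_mul_of_nonneg_left (LowA.sum_le Ps fun p hp =>
    (mem_filter.1 hp).2.2.1) (by positivity))
  have hcov := (cnt_le_add (g := g) (k := H) (P := fun w => ∀ i, (w i : ZMod m) = w₀ i)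
    (Q := fun w => (∀ i, (w i : ZMod m) = w₀ i) ∧
      ∀ p : ℕ, p.Prime → 7 ≤ p → p ∉ Q → (p : ℝ) < M → ¬Nx p (f1 w))
    (R := fun w => ∃ p ∈ Ps, (∀ i, (w i : ZMod m) = w₀ i) ∧ Nx p (f1 w)) fun w _ hw => by
      by_contra h
      rw [not_or] at h
      exact h.1 ⟨hw, fun p hp h7 hq hM hx => h.2
        ⟨p, mem_filter.2 ⟨mem_range.2 (Nat.lt_ceil.2 hM), hp, h7, hq⟩, hw, hx⟩⟩).trans
    (add_le_add le_rfl ((cnt_le_sum Ps _ fun _ _ h => h).trans hsum))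
  have h1 := mul_le_mul_of_nonneg_left ht2 h0
  have e : 1 / 2 / (m : ℝ) ^ (2 * g + 1) * vol g H = vol g H / m ^ (2 * g + 1) * (1 / 2) := by ring
  rw [e]
  linarith

end Pool.Agent.MP_a43263_nt.K2

end

end PkK2Low

section PkK2Sieve

/-! THEOREM R2: the sieve. -/

set_option autoImplicit false

noncomputable section

namespace Pool.Agent.MP_a43263_nt.K2

open Polynomial Finset Filter Matrix JC Pool.Agent.MP_a43263_nt.UV

namespace SieveA

theorem tz_nx {p g : ℕ} [Fact p.Prime] {c : ZMod p} {f : ℤ[X]} (hz : Zq g f) (h : Tz p c f) :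
    ¬Nx p f := by
  obtain ⟨h, e, hh, -⟩ := h
  refine Ev.not_nx ?_
  have i1 : Irreducible (X - 1 : (ZMod p)[X]) := irreducible_X_sub_C 1
  have d1 : (X - 1 : (ZMod p)[X]).natDegree = 1 := natDegree_X_sub_C 1
  rw [e, squarefree_mul_iff]
  refine ⟨i1.isRelPrime_iff_not_dvd.2 fun c => ?_, i1.squarefree, hh.squarefree⟩
  have h1 := hz.dg (ZMod p)
  have h2 := natDegree_eq_of_degree_eq
    (degree_eq_degree_of_associated (i1.associated_of_dvd hh c))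
  rw [e, natDegree_mul i1.ne_zero hh.ne_zero, ← h2, d1] at h1
  have := hz.pos
  omega

theorem nx_one {p : ℕ} {f : ℤ[X]} {m : ℤ} (h : f.eval 1 = m ^ 2) (h1 : (p : ℤ) ∣ m)
    (h2 : (p : ℤ) ∣ (derivative f).eval 1) : Nx p f := by
  obtain ⟨q, hq⟩ := X_sub_C_dvd_sub_C_eval (a := 1) (p := f)
  obtain ⟨a, ha⟩ := X_sub_C_dvd_sub_C_eval (a := 1) (p := q)
  have e : (derivative f).eval 1 = q.eval 1 := by
    have := congrArg (fun P => (derivative P).eval 1) hq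
    simpa using this
  obtain ⟨c, rfl⟩ := h1
  obtain ⟨b, hb⟩ := h2
  refine ⟨X - C 1, a, C b, C (c ^ 2), monic_X_sub_C 1, by rw [natDegree_X_sub_C]; exact one_pos, ?_⟩
  rw [← e, hb, C_mul] at ha
  rw [h, C_pow, C_mul] at hq
  rw [C_pow]
  linear_combination hq + (X - C 1) * ha

end SieveA

theorem sieve_k : TRNStmt → INDStmt → BADStmt → COUNTStmt → LOWStmt → GCDStmt → BASEStmt →
    SIEVEStmt := by
  intro trn ind bad count low gcd base g hg
  classical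
  obtain ⟨q₀, c, c0, hc⟩ := count g hg
  obtain ⟨c', c0', hc'⟩ := gcd g hg
  obtain ⟨t, ht⟩ : ∃ t : ℝ, t = 5 ^ (2 * g + 1) ^ 2 := ⟨_, rfl⟩
  obtain ⟨s, hs⟩ : ∃ s : ℝ, s = 30 ^ (2 * g + 1) := ⟨_, rfl⟩
  have t0 : 0 < t := by rw [ht]; positivity
  have s0 : 0 < s := by rw [hs]; positivity
  obtain ⟨N, hN⟩ := exists_pow_lt_of_lt_one (x := 1 / (8 * c * t * s)) (y := (9 / 10 : ℝ))
    (by positivity) (by norm_num)
  obtain ⟨Q, w₀, rfl, i2, t3, t5, hQ⟩ := base g (max q₀ 7) N hg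
  have hQ7 : ∀ q ∈ Q, q.Prime ∧ 7 ≤ q := fun q hq =>
    ⟨(hQ q hq).1, (le_max_right _ _).trans (hQ q hq).2.2.1⟩
  obtain ⟨P, hP⟩ : ∃ P : ℝ, P = (∏ q ∈ Q, (q : ℝ)) ^ (2 * g + 1) := ⟨_, rfl⟩
  have P0 : 0 < P := hP ▸ pow_pos (prod_pos fun q hq => by exact_mod_cast (hQ q hq).1.pos) _
  obtain ⟨r, hr⟩ : ∃ r : ℝ, r = 16 * t * s * P * c + 8 * s * P * c' + 2 := ⟨_, rfl⟩
  have r1 : 0 < 16 * t * s * P * c := by positivity
  have r2 : 0 < 8 * s * P * c' := by positivity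
  have r0 : 0 < r := by linarith
  have k1 := hc Q (f1 w₀) (w₀ (Fin.last _)) (r ^ 2) (1 / (16 * t * s * P))
    (fun q hq => ⟨(hQ q hq).1, (le_max_left _ _).trans (hQ q hq).2.2.1, (hQ q hq).2.2.2⟩)
    (by positivity) (by positivity)
  have k2 := low g Q w₀ (r ^ 2) hg hQ7
  rw [Real.sqrt_sq r0.le, ← hP] at k1
  rw [mul_pow, ← hP, ← hs] at k2
  refine ⟨Q, 1 / 8 / (s * P), by positivity, hQ7, ?_⟩
  have e : (c * (9 / 10) ^ Q.card / P + 1 / (16 * t * s * P) + c / r) * t ≤ 1 / 4 / (s * P) := by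
    have e1 : c / r ≤ 1 / (16 * t * s * P) := by
      rw [div_le_div_iff₀ r0 (by positivity)]; linarith
    have e2 : c * (9 / 10) ^ Q.card / P ≤ 1 / (8 * t * s * P) := by
      rw [lt_div_iff₀ (by positivity)] at hN
      rw [div_le_div_iff₀ P0 (by positivity)]
      nlinarith
    refine (mul_le_mul_of_nonneg_right (add_le_add (add_le_add e2 le_rfl) e1) t0.le).trans_eq ?_
    field_simp
    norm_num
  have M2 : 2 ≤ r ^ 2 := by nlinarith
  have e' : c' / r ^ 2 ≤ 1 / 8 / (s * P) := by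
    rw [div_le_div_iff₀ (by positivity) (by positivity)]; nlinarith
  generalize r ^ 2 = M at M2 k1 k2 e'
  filter_upwards [(tendsto_natCast_atTop_atTop.const_mul_atTop
    (by norm_num : (0 : ℝ) < 5)).eventually k1, k2, eventually_ge_atTop 1] with k h1 h2 h3
  have v0 : 0 ≤ vol g k := by unfold vol; positivity
  obtain ⟨R, hR⟩ : ∃ R : Vec g → Prop, ∀ w, R w ↔ Zq g (f1 w) ∧ w (Fin.last _) ≠ 0 ∧
    Cl2 g Q (f1 w₀) (w₀ (Fin.last _)) M (5 * k) (f1 w) (w (Fin.last _)) := ⟨_, fun _ => Iff.rfl⟩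
  have h4 := h1 (((bx g k).filter R).image fun w => (f1 w, w (Fin.last _))) fun x hx => by
    obtain ⟨w, hw, rfl⟩ := mem_image.1 hx
    exact (hR w).1 (mem_filter.1 hw).2
  rw [card_image_of_injective _ fun a b h => (trn g a hg).2.2.2.2.2.2.2.1 b
    (congrArg Prod.fst h) (congrArg Prod.snd h), ← cnt_eq_card, mul_pow, ← ht, ← mul_assoc] at h4
  have h5 : cnt g k R ≤ 1 / 4 / (s * P) * vol g k := h4.trans (mul_le_mul_of_nonneg_right e v0)
  have h6 := (hc' k M h3 M2).trans ((mul_div_right_comm _ _ _).trans_le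
    (mul_le_mul_of_nonneg_right e' v0))
  have h7 := h2.trans ((cnt_le_add (Q := fun w => Fam g Q (f1 w) ∧ Str2 Q (f1 w))
    (R := fun w => (∃ p : ℕ, p.Prime ∧ M ≤ p ∧ (p : ℤ) ∣ w (Fin.last _) ∧
      ∀ i : Fin (2 * g + 1), i.1 + 1 = 2 * g → (p : ℤ) ∣ w i) ∨ R w) ?_).trans
    (add_le_add le_rfl ((cnt_le_add fun _ _ h => h).trans (add_le_add h6 h5))))
  · have : 1 / 2 / (s * P) * vol g k = 4 * (1 / 8 / (s * P) * vol g k) := by ring
    have : 1 / 4 / (s * P) * vol g k = 2 * (1 / 8 / (s * P) * vol g k) := by ring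
    linarith
  rintro w b1 ⟨b2, b3⟩
  obtain ⟨⟨a1, a2⟩, a3, a4, -, -, -, a5, -, -, a6⟩ := trn g w hg
  obtain ⟨a6, a7⟩ := a6 k h3 b1
  have y : ∀ q : ℕ, (q ∣ 30 * ∏ q ∈ Q, q) → ∀ i, (w i : ZMod q) = w₀ i := fun q hq i =>
    (ZMod.intCast_eq_intCast_iff _ _ _).2
      (((ZMod.intCast_eq_intCast_iff _ _ _).1 (b2 i)).of_dvd (Int.natCast_dvd_natCast.2 hq))
  have yq : ∀ q ∈ Q, ∀ i, (w i : ZMod q) = w₀ i := fun q hq =>
    y q ((dvd_prod_of_mem _ hq).mul_left 30)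
  have j2 : Irreducible (zK (f1 w) (ZMod 2)) := by
    rw [a5 2 w₀ (y 2 (Dvd.dvd.mul_right (by norm_num) _))]; exact i2
  have hZ : Zq g (f1 w) := ⟨hg, a1, a2, (IsPrimitive.Int.irreducible_iff_irreducible_map_cast
    a1.isPrimitive).1 (a1.irreducible_of_irreducible_map _ _ j2)⟩
  have j3 : Tz 3 1 (f1 w) := by
    rw [Tz, a5 3 w₀ (y 3 (Dvd.dvd.mul_right (by norm_num) _))]; exact t3
  have j5 : Tz 5 0 (f1 w) := by
    rw [Tz, a5 5 w₀ (y 5 (Dvd.dvd.mul_right (by norm_num) _))]; exact t5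
  have ty : ∀ q ∈ Q, Ty q (f1 w) := fun q hq => by
    rw [Ty, a5 q w₀ (yq q hq)]; exact (hQ q hq).2.2.2.1
  have nx0 : ∀ p : ℕ, p.Prime → Nx p (f1 w) → p ≠ 2 ∧ p ∉ Q ∧ M ≤ p := fun p hp nx => by
    have p2 : p ≠ 2 := fun e => Ev.not_nx j2.squarefree (e ▸ nx)
    have p3 : p ≠ 3 := fun e => SieveA.tz_nx hZ j3 (e ▸ nx)
    have p5 : p ≠ 5 := fun e => have := Fact.mk Nat.prime_five; SieveA.tz_nx hZ j5 (e ▸ nx)
    have pQ : p ∉ Q := fun e => nxp.2.1 p g _ hp hZ (ty p e) nx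
    have p7 : 7 ≤ p := by
      have := hp.two_le
      by_contra d
      obtain rfl | rfl : p = 4 ∨ p = 6 := by omega
      exacts [absurd hp (by norm_num), absurd hp (by norm_num)]
    exact ⟨p2, pQ, not_lt.1 fun d => b3 p hp p7 pQ d nx⟩
  by_cases co : IsCoprime (w (Fin.last _)) ((derivative (f1 w)).eval 1)
  swap
  · obtain ⟨p, hp, d⟩ := Nat.exists_prime_and_dvd (mt Int.isCoprime_iff_gcd_eq_one.2 co)
    have d1 := (Int.natCast_dvd_natCast.2 d).trans (Int.gcd_dvd_left ..)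
    have d2 := (Int.natCast_dvd_natCast.2 d).trans (Int.gcd_dvd_right ..)
    exact .inr (.inl ⟨p, hp, (nx0 p hp (SieveA.nx_one a3 d1 d2)).2.2, d1,
      fun i hi => a4 i hi ▸ d2⟩)
  by_cases a : ¬Str2 Q (f1 w) ∨ ∃ p : ℕ, p.Prime ∧ p ≠ 2 ∧ p ∉ Q ∧ M ≤ p ∧ Nx p (f1 w)
  · obtain ⟨A, A', B, H, H', c1, c2, c3⟩ := bad g _ _ Q M (5 * k) hZ a3 co (ind g _ _ hZ a3 j3).1
      (fun q hq => ⟨(hQ q hq).1, ty q hq⟩)
      (by have : (1 : ℝ) ≤ k := by exact_mod_cast h3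
          linarith) a7 (by linarith) a
    exact .inr (.inr ((hR w).2 ⟨hZ, a6, A, A', B, H, H', c1, fun q hq =>
      ⟨a5 q w₀ (yq q hq) ▸ (c2 q hq).1, (c2 q hq).2.trans (yq q hq _)⟩, c3⟩))
  rw [not_or, not_not] at a
  exact .inl ⟨⟨hZ, fun q hq => ⟨(hQ q hq).1, (hQ q hq).2.1, ty q hq⟩, fun p hp nx =>
    let ⟨e1, e2, e3⟩ := nx0 p hp nx; a.2 ⟨p, hp, e1, e2, e3, nx⟩, j3, j5⟩, a.1⟩

end Pool.Agent.MP_a43263_nt.K2

end

end PkK2Sieve
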