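import Pool.Agent.MP_a43263_nt.NP.D1
import Pool.Agent.MP_a43263_nt.NP.C1
import Pool.Agent.MP_a43263_nt.NP.K1

/-! Packed rows. -/

section PkN2Bse

/-! THEOREM N2: many base points. -/

set_option autoImplicit false

noncomputable section

namespace Pool.Agent.MP_a43263_nt.N2

open Polynomial Finset Filter Matrix JC Pool.Agent.MP_a43263_nt.UV K2

namespace BseA

theorem cls_card {r U : ℕ} (c : ℕ) (hr : 0 < r) (h : 2 * r ≤ U) :
    (U : ℝ) / (2 * r) ≤ ((Ioc U (2 * U)).filter fun u => u ≡ c [MOD r]).card := by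
  have e := Nat.Ioc_filter_modEq_card U (2 * U) hr c
  have r0 : (0 : ℚ) < r := by exact_mod_cast hr
  have a1 := Int.lt_floor_add_one ((((2 * U : ℕ) : ℚ) - c) / r)
  have a2 := Int.floor_le (((U : ℚ) - c) / r)
  have a3 : (((2 * U : ℕ) : ℚ) - c) / r = ((U : ℚ) - c) / r + 2 * (U / (2 * r)) := by
    push_cast
    field_simp
    ring
  have a4 : (1 : ℚ) ≤ U / (2 * r) := by
    rw [le_div_iff₀ (by positivity), one_mul]
    exact_mod_cast h
  have a5 : ((⌊(((2 * U : ℕ) : ℚ) - c) / r⌋ - ⌊((U : ℚ) - c) / r⌋ : ℤ) : ℚ) ≤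
      ((Ioc U (2 * U)).filter fun u => u ≡ c [MOD r]).card := by
    have := (Int.cast_le (R := ℚ)).2 ((le_max_left _ _).trans e.ge)
    rwa [Int.cast_natCast] at this
  have a6 : (U : ℚ) / (2 * r) ≤ ((Ioc U (2 * U)).filter fun u => u ≡ c [MOD r]).card := by
    rw [Int.cast_sub] at a5
    linarith
  simpa using (Rat.cast_le (K := ℝ)).2 a6

theorem weier (s : Finset ℕ) (f : ℕ → ℝ) (h : ∀ p ∈ s, 0 ≤ f p ∧ f p ≤ 1) :
    1 - ∑ p ∈ s, f p ≤ ∏ p ∈ s, (1 - f p) := by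
  induction s using Finset.induction_on with
  | empty => simp
  | insert a s ha ih =>
    rw [sum_insert ha, prod_insert ha]
    have h1 := h a (mem_insert_self _ _)
    have h2 := ih fun p hp => h p (mem_insert_of_mem hp)
    have h3 : 0 ≤ ∑ p ∈ s, f p := sum_nonneg fun p hp => (h p (mem_insert_of_mem hp)).1
    nlinarith [mul_le_mul_of_nonneg_left h2 (sub_nonneg.2 h1.2), mul_nonneg h1.1 h3]

theorem tot {m : ℕ} (h : ∑ p ∈ m.primeFactors, 1 / (p : ℝ) ≤ 1 / 56) :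
    (m : ℝ) / 2 ≤ m.totient := by
  have e : (m.totient : ℝ) = m * ∏ p ∈ m.primeFactors, (1 - 1 / (p : ℝ)) := by
    have := congrArg (Rat.cast (K := ℝ)) (Nat.totient_eq_mul_prod_factors m)
    push_cast at this
    simpa only [one_div] using this
  have := weier m.primeFactors (fun p => 1 / (p : ℝ)) fun p hp => ⟨by positivity, by
    rw [div_le_one (by exact_mod_cast (Nat.prime_of_mem_primeFactors hp).pos)]
    exact_mod_cast (Nat.prime_of_mem_primeFactors hp).pos⟩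
  rw [e, div_eq_mul_inv]
  gcongr
  linarith

end BseA

open BseA in
theorem bse_n : RTSStmt → SIEVEStmt → CLSStmt → ONEStmt → BSEStmt := by
  classical
  intro rts sieve cls one g v hg hv
  obtain ⟨Q, ε, E, hε, hQ, hs⟩ := sieve g v hg
  refine ⟨Q, ε / 4, E, by positivity, hQ, ?_⟩
  filter_upwards [eventually_ge_atTop v, eventually_ge_atTop (Q.sup id), eventually_ge_atTop 30]
    with z z1 z2 z3
  obtain ⟨N, hN⟩ : ∃ N, N = primorial z := ⟨_, rfl⟩
  have N0 : 0 < N := hN ▸ primorial_pos z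
  have pN : ∀ p : ℕ, p.Prime → (p ∣ N ↔ p ≤ z) := fun p hp => hN ▸ hp.dvd_primorial_iff
  have qz : ∀ q ∈ Q, q ≤ z := fun q hq => (le_sup (f := id) hq).trans z2
  have v0 : 0 < v := by have := hv.ge; omega
  rw [← hN]
  filter_upwards [hs, one g v Q hg hv, eventually_ge_atTop ((2 * N ^ 2) ^ 12),
    eventually_ge_atTop 1] with k hs one k1 k0 U m hU hm mE m12
  have m0 : 0 < m := Nat.pos_of_ne_zero hm.1.ne_zero
  have cop : ∀ n : ℕ, (∀ p : ℕ, p.Prime → p ∣ n → p ≤ z) → m.Coprime n := fun n h =>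
    Nat.coprime_of_dvd fun p hp h1 h2 => absurd (h p hp h2) (not_le.2 (hm.2.1 p hp h1))
  have cv : m.Coprime v := cop v fun p _ h => (Nat.le_of_dvd v0 h).trans z1
  have cN : m.Coprime (N ^ 2) := (cop N fun p hp h => (pN p hp).1 h).pow_right 2
  have cq : m.Coprime (30 * ∏ q ∈ Q, q) := cop _ fun p hp h => by
    rcases (Nat.Prime.dvd_mul hp).1 h with h | h
    · exact (Nat.le_of_dvd (by norm_num) h).trans z3
    · obtain ⟨q, hq, h⟩ := (hp.prime.dvd_finsetProd_iff _).1 h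
      exact (Nat.le_of_dvd (hQ q hq).1.pos h).trans (qz q hq)
  have hr : 2 * (m * N ^ 2) ≤ U := by
    refine (Nat.pow_le_pow_iff_left (n := 12) (by norm_num)).1 ?_
    calc (2 * (m * N ^ 2)) ^ 12 = (2 * N ^ 2) ^ 12 * m ^ 12 := by ring
      _ ≤ k * k := Nat.mul_le_mul k1 m12
      _ ≤ k ^ 4 := by rw [← sq]; exact Nat.pow_le_pow_right k0 (by norm_num)
      _ ≤ (U ^ 3) ^ 4 := Nat.pow_le_pow_left hU.lo 4
      _ = _ := by ring
  choose a ha using fun b => rts.2.2 m b v cv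
  have ms : ∀ b, m.Coprime b → Ms v Q m b := fun b hb =>
    ⟨hm.1, Nat.Coprime.mul_right hb cv, cq, hm.2.2⟩
  have key : ∀ w ∈ bx g k, ∀ b ∈ (range m).filter (fun b => m.Coprime b),
      ind (Gd v Q m b (a b) w) * ((U : ℝ) / (2 * (m * N ^ 2 : ℕ))) ≤
        ∑ u ∈ (Ioc U (2 * U)).filter (fun u => u % m = b), ind (Ok v N k U Q m u w) := by
    intro w hw b hb
    obtain ⟨b1, b2⟩ := mem_filter.1 hb
    by_cases hG : Gd v Q m b (a b) w
    swap
    · rw [ind_neg hG, zero_mul]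
      exact sum_nonneg fun u _ => ind_nonneg _
    obtain ⟨S, hS, h⟩ := one w hw m b (a b) m12
      (rts.2.1 v Q m b (a b) (fun q hq => (hQ q hq).1) (ms b b2) (ha b)) hG
    have hc : Cl v N S w (al v N S w) := Nat.sInf_mem (s := {a | Cl v N S w a})
      (hN ▸ cls.1 g v z Q S w hv z1 hG.fam hS fun q hq => ⟨(hQ q hq).2, qz q hq⟩)
    obtain ⟨c, c1, c2⟩ := Nat.chineseRemainder cN b (al v N S w)
    rw [ind_pos hG, one_mul]
    refine (cls_card c (by positivity) hr).trans ?_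
    rw [card_eq_sum_ones, Nat.cast_sum]
    have ok : ∀ u ∈ (Ioc U (2 * U)).filter (fun u => u ≡ c [MOD m * N ^ 2]),
        u ≡ b [MOD m] ∧ Ok v N k U Q m u w := fun u hu => by
      obtain ⟨u1, u2⟩ := mem_filter.1 hu
      have u3 : u ≡ b [MOD m] := (u2.of_mul_right _).trans c1
      have u4 : u ≡ al v N S w [MOD N ^ 2] := (u2.of_mul_left _).trans c2
      refine ⟨u3, S, hS, hc, mem_filter.2 ⟨u1, u4, ?_⟩, ?_, fun j r x1 hr hG' => ?_⟩
      · exact (u3.gcd_eq.trans b2.symm : u.gcd m = 1)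
      · exact (Int.ModEq.dvd_iff (GeoA.gv_mod (v : ℤ) (fun i => Int.ModEq.refl (w i))
          (Int.natCast_modEq_iff.2 u3))).2 hG.dv
      · have x2 : pu N m u j ≡ b [MOD m] :=
          (Nat.ModEq.trans (by simp [pu, Nat.ModEq]) u3)
        have x3 : pu N m u j ≡ al v N S w [MOD N ^ 2] := by
          refine Nat.ModEq.trans ?_ u4
          rw [pu, mul_left_comm]
          simp [Nat.ModEq]
        have x4 : ∀ p : ℕ, p.Prime → p ≤ z → pu N m u j ≡ al v N S w [MOD p] := fun p hp h =>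
          x3.of_dvd (((pN p hp).2 h).trans (dvd_pow_self N two_ne_zero))
        refine h _ r (lt_of_lt_of_le (Nat.zero_lt_of_lt (mem_Ioc.1 u1).1) (Nat.le_add_right _ _))
          x1 (Nat.coprime_of_dvd fun p hp h1 h2 => ?_) ?_ ?_ hr hG'
        · exact hp.one_lt.ne' (Nat.eq_one_of_dvd_coprimes hc.cop
            (((x4 p hp ((Nat.le_of_dvd v0 h2).trans z1)).dvd_iff dvd_rfl).1 h1) h2)
        · have := (x4 5 (by norm_num) (by omega)).symm.dvd
          have := dvd_add this hc.five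
          simpa using this
        · have e1 := (x2.symm.pow 2).dvd
          have e2 := dvd_add (ha b) e1
          refine e2.trans (dvd_of_eq ?_)
          simp only [el, eval_add, eval_mul, eval_C]
          push_cast
          ring
    calc _ = ∑ u ∈ (Ioc U (2 * U)).filter (fun u => u ≡ c [MOD m * N ^ 2]),
          ind (Ok v N k U Q m u w) := sum_congr rfl fun u hu => by
            rw [ind_pos (ok u hu).2, Nat.cast_one]
      _ ≤ _ := sum_le_sum_of_subset_of_nonneg (fun u hu => mem_filter.2 ⟨(mem_filter.1 hu).1,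
            Eq.trans (ok u hu).1 (Nat.mod_eq_of_lt (mem_range.1 b1))⟩) fun u _ _ => ind_nonneg _
  have V0 : 0 ≤ vol g k := by unfold vol; positivity
  have m1 : (0 : ℝ) < m := by exact_mod_cast m0
  have N1 : (0 : ℝ) < N := by exact_mod_cast N0
  calc ε / 4 * (vol g k * U / (m * (N : ℝ) ^ 2))
      = (m : ℝ) / 2 * (ε * vol g k / m) * ((U : ℝ) / (2 * (m * N ^ 2 : ℕ))) := by
        push_cast
        field_simp
        ring
    _ ≤ (∑ b ∈ (range m).filter (fun b => m.Coprime b), cnt g k (Gd v Q m b (a b))) *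
          ((U : ℝ) / (2 * (m * N ^ 2 : ℕ))) := by
        refine mul_le_mul_of_nonneg_right ?_ (by positivity)
        refine le_trans ?_ (card_nsmul_le_sum _ _ (ε * vol g k / m) fun b hb =>
          hs m b (a b) (ms b (mem_filter.1 hb).2) mE m12 (ha b))
        rw [nsmul_eq_mul, ← Nat.totient_eq_card_coprime]
        exact mul_le_mul_of_nonneg_right (tot hm.2.2) (by positivity)
    _ = ∑ w ∈ bx g k, ∑ b ∈ (range m).filter (fun b => m.Coprime b),
          ind (Gd v Q m b (a b) w) * ((U : ℝ) / (2 * (m * N ^ 2 : ℕ))) := by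
        simp only [cnt, sum_mul]
        exact sum_comm
    _ ≤ ∑ w ∈ bx g k, ∑ u ∈ Ioc U (2 * U), ind (Ok v N k U Q m u w) :=
        sum_le_sum fun w hw => (sum_le_sum (key w hw)).trans
          (sum_fiberwise_le_sum_of_sum_fiber_nonneg fun _ _ => sum_nonneg fun _ _ => ind_nonneg _)
    _ = _ := sum_comm

end Pool.Agent.MP_a43263_nt.N2

end

end PkN2Bse

section PkN2Cls

/-! THEOREM N2: admissible classes exist. -/

set_option autoImplicit false

noncomputable section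

namespace Pool.Agent.MP_a43263_nt.N2

open Polynomial Finset Filter Matrix JC Pool.Agent.MP_a43263_nt.UV K2

namespace ClsA

theorem nonroot {g l : ℕ} {f : ℤ[X]} (hf : Zq g f) (hl : l.Prime) (h : 4 * g + 2 < l) :
    ∃ a : ℕ, ¬(l : ℤ) ∣ f.eval (1 - (a : ℤ) ^ 2) := by
  have := Fact.mk hl
  by_contra c
  have c' : ∀ a : ℕ, (l : ℤ) ∣ f.eval (1 - (a : ℤ) ^ 2) := fun a => by
    by_contra d
    exact c ⟨a, d⟩
  have h2 : (zK f (ZMod l)).natDegree = 2 * g + 1 := by rw [hf.monic.natDegree_map, hf.deg]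
  have h3 : (1 - X ^ 2 : (ZMod l)[X]).natDegree = 2 := by
    rw [natDegree_sub_eq_right_of_natDegree_lt (by simp), natDegree_X_pow]
  have h4 : ((zK f (ZMod l)).comp (1 - X ^ 2)).natDegree = (2 * g + 1) * 2 := by
    rw [natDegree_comp, h2, h3]
  have h5 : (zK f (ZMod l)).comp (1 - X ^ 2) = 0 :=
    eq_zero_of_natDegree_lt_card_of_eval_eq_zero _ Function.injective_id (fun x => by
      have := c' x.val
      rw [← ZMod.intCast_zmod_eq_zero_iff_dvd, K2.ClsA.cast_eval] at this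
      simpa [eval_comp] using this) (by rw [h4, ZMod.card]; omega)
  rw [h5, natDegree_zero] at h4
  omega

theorem loc {g v z : ℕ} {Q S : Finset ℕ} {w : Vec g} (trn : TRNStmt) (hv : Pv g v)
    (hF : Fam g Q (f1 w)) (hS : S ⊆ Q) (hQ : ∀ q ∈ Q, v < q ∧ q ≤ z) (l : ℕ) :
    ∃ a : ℕ, l.Prime → (l = 5 → a = v) ∧ (l ∣ v → ¬l ∣ a) ∧
      (l ∉ S → ¬(l : ℤ) ∣ Gv w a v) ∧
      (l ∈ S → ¬l ∣ a ∧ (l : ℤ) ∣ Gv w a v ∧ ¬(l : ℤ) ^ 2 ∣ Gv w a v) := by
  have hg := hF.zq.pos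
  have hG := (trn g w hg).2.2.2.2.2.1
  have v0 : 0 < v := by have := hv.ge; omega
  have h5 : 5 ∉ Q := fun c => absurd (hF.ty 5 c).2.1 (by norm_num)
  by_cases hl : l.Prime
  swap
  · exact ⟨0, fun c => (hl c).elim⟩
  have hz := Nat.prime_iff_prime_int.1 hl
  by_cases cv : l ∣ v
  · have nS : l ∉ S := fun c => absurd (Nat.le_of_dvd v0 cv) (not_le.2 (hQ l (hS c)).1)
    refine ⟨1, fun _ => ⟨fun c => (hv.n5 (c ▸ cv)).elim, fun _ => hl.not_dvd_one,
      fun _ d => ?_, fun c => (nS c).elim⟩⟩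
    have := (geo_k g hg).2.2.2.2 w ((1 : ℕ) : ℤ) v (by rw [Nat.cast_one]; exact isCoprime_one_left)
    exact hz.not_isUnit (this.isUnit_of_dvd' d (Int.natCast_dvd_natCast.2 cv))
  have cz : ¬(l : ℤ) ∣ (v : ℤ) ^ (4 * g + 2) := fun d =>
    cv (Int.natCast_dvd_natCast.1 (hz.dvd_of_dvd_pow d))
  have hh : ∀ a : ℕ, Gv w ((a * v : ℕ) : ℤ) v =
      (v : ℤ) ^ (4 * g + 2) * (f1 w).eval (1 - (a : ℤ) ^ 2) := fun a => by
    rw [Nat.cast_mul, GeoA.homog, hG]
  have key : ∀ a : ℕ, ¬(l : ℤ) ∣ (f1 w).eval (1 - (a : ℤ) ^ 2) →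
      ¬(l : ℤ) ∣ Gv w ((a * v : ℕ) : ℤ) v := fun a ha d => by
    rw [hh] at d
    exact (hz.dvd_or_dvd d).elim cz ha
  by_cases c5 : l = 5
  · subst c5
    exact ⟨1 * v, fun _ => ⟨fun _ => one_mul v, fun c => (cv c).elim,
      fun _ => key 1 (K2.ClsA.five hF.t5), fun c => (h5 (hS c)).elim⟩⟩
  by_cases cS : l ∈ S
  · obtain ⟨k1, k2, k3⟩ := hF.ty l (hS cS)
    obtain ⟨a, ha, ha'⟩ := K2.ClsA.inn hF.zq k1 (by omega) k3
    refine ⟨a * v, fun _ => ⟨fun c => (c5 c).elim, fun c => (cv c).elim, fun c => (c cS).elim,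
      fun _ => ⟨fun d => ?_, by rw [hh]; exact ha.mul_left _, fun d => ha' ?_⟩⟩⟩
    · have e := K2.ClsA.cong (f1 w)
        ((Nat.modEq_zero_iff_dvd.2 ((hl.dvd_mul.1 d).resolve_right cv)) : a ≡ 0 [MOD l])
      exact K2.ClsA.out hF.zq k1 k3 ((dvd_sub_left ha).1 e)
    · rw [hh] at d
      exact ((hz.irreducible.coprime_iff_not_dvd.2 cz).pow_left).dvd_of_dvd_mul_left d
  · obtain ⟨a, ha⟩ := nonroot hF.zq hl (not_le.1 fun c => cv (hv.sm l hl c c5))
    exact ⟨a * v, fun _ => ⟨fun c => (c5 c).elim, fun c => (cv c).elim, fun _ => key a ha,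
      fun c => (cS c).elim⟩⟩

theorem one {g v N : ℕ} {S : Finset ℕ} {w wb : Vec g} (hN : 0 < N) (hd : (∏ q ∈ S, q) ∣ N)
    (h : ∀ i, wb i ≡ w i [ZMOD (N ^ 2 : ℕ)]) (a : ℕ) (c : Cl v N S wb a) : Cl v N S w a :=
  ⟨c.five, c.cop, c.nd, GeoA.quot hN hd (by rw [one_mul]; exact GeoA.gv_mod _ h rfl)
    isCoprime_one_left c.ad⟩

end ClsA

open ClsA in
theorem cls_n : TRNStmt → CLSStmt := by
  intro trn
  refine ⟨fun g v z Q S w hv hz hF hS hQ => ?_, fun g v N S w wb hN hd h => ?_⟩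
  swap
  · have h' : ∀ i, wb i ≡ w i [ZMOD (N ^ 2 : ℕ)] := fun i =>
      Int.modEq_iff_dvd.2 (by simpa using h i)
    have e : ∀ a, Cl v N S w a ↔ Cl v N S wb a := fun a =>
      ⟨one hN hd (fun i => (h' i).symm) a, one hN hd h' a⟩
    exact ⟨e, congrArg sInf (Set.ext e)⟩
  choose r hr using loc trn hv hF hS hQ
  have v0 : 0 < v := by have := hv.ge; omega
  set P : Finset ℕ := (range (z + 1)).filter Nat.Prime with hP
  have hp : ∀ l ∈ P, l.Prime := fun l hl => (mem_filter.1 hl).2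
  have hm : ∀ l : ℕ, l.Prime → l ≤ z → l ∈ P := fun l h1 h2 =>
    mem_filter.2 ⟨mem_range.2 (by omega), h1⟩
  have hs0 : ∀ l ∈ P, l ^ 2 ≠ 0 := fun l hl => pow_ne_zero 2 (hp l hl).ne_zero
  have hpp : Set.Pairwise (↑P : Set ℕ) (Function.onFun Nat.Coprime fun l => l ^ 2) :=
    fun l hl l' hl' c => Nat.Coprime.pow 2 2 ((Nat.coprime_primes (hp l hl) (hp l' hl')).2 c)
  obtain ⟨a, ha⟩ : ∃ a : ℕ, ∀ l ∈ P, a ≡ r l [MOD l ^ 2] :=
    ⟨_, (Nat.chineseRemainderOfFinset r (fun l => l ^ 2) P hs0 hpp).2⟩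
  have ha1 : ∀ l ∈ P, l ∣ a → l ∣ r l := fun l hl d =>
    (((ha l hl).of_dvd (dvd_pow_self l two_ne_zero)).dvd_iff dvd_rfl).1 d
  have hd : ∀ l ∈ P, (l : ℤ) ^ 2 ∣ Gv w (r l) v - Gv w a v := fun l hl => by
    have := (GeoA.gv_mod (M := l ^ 2) (w := w) (w' := w) (v : ℤ) (fun _ => rfl)
      (Int.natCast_modEq_iff.2 (ha l hl))).dvd
    exact_mod_cast this
  have hd1 := fun (l : ℕ) hl => (dvd_pow_self (l : ℤ) two_ne_zero).trans (hd l hl)
  have mS : ∀ l ∈ S, l ∈ P := fun l hl => hm l (hF.ty l (hS hl)).1 (hQ l (hS hl)).2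
  have dv : ((∏ q ∈ S, q : ℕ) : ℤ) ∣ Gv w a v := by
    rw [Nat.cast_prod]
    refine prod_dvd_of_coprime (fun l hl l' hl' c => ?_) fun l hl => ?_
    · exact Nat.isCoprime_iff_coprime.2
        ((Nat.coprime_primes (hF.ty l (hS hl)).1 (hF.ty l' (hS hl')).1).2 c)
    · exact (dvd_sub_right ((hr l (hp l (mS l hl))).2.2.2 hl).2.1).1 (hd1 l (mS l hl))
  refine ⟨a, ?_, Nat.coprime_of_dvd fun l hl d1 d2 => ?_,
    fun l hl d => ((hr l (hp l (mS l hl))).2.2.2 hl).1 (ha1 l (mS l hl) d), dv, ?_⟩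
  · have m5 : 5 ∈ P := hm 5 Nat.prime_five (by have := hv.ge; omega)
    have := (ha 5 m5).of_dvd (dvd_pow_self 5 two_ne_zero)
    rw [(hr 5 Nat.prime_five).1 rfl] at this
    exact_mod_cast this.symm.dvd
  · exact (hr l hl).2.1 d2 (ha1 l (hm l hl ((Nat.le_of_dvd v0 d2).trans hz)) d1)
  · obtain ⟨c, hc⟩ := dv
    have d0 : ((∏ q ∈ S, q : ℕ) : ℤ) ≠ 0 :=
      Int.natCast_ne_zero.2 (prod_ne_zero_iff.2 fun l hl => (hF.ty l (hS hl)).1.ne_zero)
    rw [hc, Int.mul_ediv_cancel_left _ d0, primorial, ← hP, Nat.cast_prod]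
    refine IsCoprime.prod_right fun l hl => ?_
    refine ((Nat.prime_iff_prime_int.1 (hp l hl)).irreducible.coprime_iff_not_dvd.2 fun d => ?_).symm
    by_cases cS : l ∈ S
    · refine ((hr l (hp l hl)).2.2.2 cS).2.2 ((dvd_sub_left ?_).1 (hd l hl))
      rw [hc, sq]
      exact mul_dvd_mul (Int.natCast_dvd_natCast.2 (dvd_prod_of_mem _ cS)) d
    · exact (hr l (hp l hl)).2.2.1 cS ((dvd_sub_left (hc ▸ d.mul_left _)).1 (hd1 l hl))

end Pool.Agent.MP_a43263_nt.N2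

end

end PkN2Cls

section PkN2Fin

/-! THEOREM N2: the final count. -/

set_option autoImplicit false

noncomputable section

namespace Pool.Agent.MP_a43263_nt.N2

open Finset Filter K2

namespace FinA

theorem cop {z m d : ℕ} {κ : ℝ} (h : Mz z κ m) (hd : d ∣ primorial z) : m.Coprime d :=
  Nat.coprime_of_dvd fun p hp h1 h2 =>
    absurd (hp.dvd_primorial_iff.1 (h2.trans hd)) (not_le.2 (h.2.1 p hp h1))

/-- the smooth part is determined by the point -/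
theorem uniq {g v z k m m' x : ℕ} {κ : ℝ} {w : Vec g} (hz : z ≤ k) (hm : Mz z κ m)
    (hm' : Mz z κ m') (h0 : 0 < m') (hk : m' ≤ k) (h : Hit v (primorial z) k m x w)
    (h' : Hit v (primorial z) k m' x w) : m = m' := by
  obtain ⟨-, d, r, hd, hr, kr, e⟩ := h
  obtain ⟨-, d', r', hd', hr', -, e'⟩ := h'
  have e1 : m * d * r = m' * d' * r' := by exact_mod_cast e.symm.trans e'
  have e2 : r = r' := by
    rcases (Nat.Prime.dvd_mul hr).1 (e1 ▸ Dvd.intro_left _ rfl : r ∣ m' * d' * r') with a | a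
    · rcases (Nat.Prime.dvd_mul hr).1 a with b | b
      · have := Nat.le_of_dvd h0 b
        omega
      · have := hr.dvd_primorial_iff.1 (b.trans hd')
        omega
    · exact (Nat.prime_dvd_prime_iff_eq hr hr').1 a
  subst e2
  have e3 : m * d = m' * d' := Nat.eq_of_mul_eq_mul_right hr.pos e1
  exact Nat.dvd_antisymm ((cop hm hd').dvd_of_dvd_mul_right (e3 ▸ Dvd.intro _ rfl))
    ((cop hm' hd).dvd_of_dvd_mul_right (e3 ▸ Dvd.intro _ rfl))

open Classical in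
theorem sum_ind {α : Type} (s : Finset α) (P : α → Prop) :
    ∑ x ∈ s, ind (P x) = ((s.filter P).card : ℝ) := by
  unfold ind
  rw [card_filter]
  push_cast
  exact sum_congr rfl fun x _ => by congr

/-- one vector and one index -/
theorem inj {g v z k U j : ℕ} {κ : ℝ} (w : Vec g) (M : Finset ℕ) (hz : z ≤ k)
    (hM : ∀ m ∈ M, Mz z κ m ∧ 0 < m ∧ m ≤ k ∧ m * (primorial z ^ 2 * j) ≤ U) :
    ∑ m ∈ M, ∑ u ∈ Ioc U (2 * U), ind (Hit v (primorial z) k m (pu (primorial z) m u j) w) ≤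
      ∑ x ∈ Ioc U (3 * U), ind (Bst w x v) := by
  classical
  rw [← sum_product' (f := fun m u => ind (Hit v (primorial z) k m (pu (primorial z) m u j) w)),
    sum_ind, sum_ind, Nat.cast_le]
  refine card_le_card_of_injOn (fun y => pu (primorial z) y.1 y.2 j) (fun y hy => ?_)
    fun y hy y' hy' e => ?_
  · obtain ⟨a, b⟩ := mem_filter.1 (mem_coe.1 hy)
    obtain ⟨a1, a2⟩ := mem_product.1 a
    have := (hM _ a1).2.2.2
    have := mem_Ioc.1 a2
    exact mem_coe.2 (mem_filter.2 ⟨mem_Ioc.2 (by simp only [pu]; omega), b.1⟩)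
  · obtain ⟨a, b⟩ := mem_filter.1 (mem_coe.1 hy)
    obtain ⟨a', b'⟩ := mem_filter.1 (mem_coe.1 hy')
    have c := hM _ (mem_product.1 a).1
    have c' := hM _ (mem_product.1 a').1
    have e1 : pu (primorial z) y.1 y.2 j = pu (primorial z) y'.1 y'.2 j := e
    have e2 : y.1 = y'.1 := uniq hz c.1 c'.1 c'.2.1 c'.2.2.1 (e1 ▸ b) b'
    refine Prod.ext e2 ?_
    unfold pu at e1
    rw [e2] at e1
    omega

/-- all vectors and indices -/
theorem tot {g v z k U : ℕ} {κ : ℝ} (M : Finset ℕ) (hz : z ≤ k)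
    (hM : ∀ m ∈ M, Mz z κ m ∧ 0 < m ∧ m ≤ k ∧ m * (primorial z ^ 2 * nl k) ≤ U) :
    ∑ m ∈ M, ∑ u ∈ Ioc U (2 * U), ∑ j ∈ range (nl k),
        cnt g k (Hit v (primorial z) k m (pu (primorial z) m u j)) ≤
      nl k * ∑ x ∈ Ioc U (3 * U), cnt g k fun w => Bst w x v := by
  unfold cnt
  calc _ = ∑ j ∈ range (nl k), ∑ w ∈ bx g k, ∑ m ∈ M, ∑ u ∈ Ioc U (2 * U),
          ind (Hit v (primorial z) k m (pu (primorial z) m u j) w) := by
        rw [sum_congr rfl fun m _ => sum_comm, sum_comm]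
        refine sum_congr rfl fun j _ => ?_
        rw [sum_congr rfl fun m _ => sum_comm, sum_comm]
    _ ≤ ∑ j ∈ range (nl k), ∑ w ∈ bx g k, ∑ x ∈ Ioc U (3 * U), ind (Bst w x v) :=
        sum_le_sum fun j hj => sum_le_sum fun w _ => inj w M hz fun m hm =>
          ⟨(hM m hm).1, (hM m hm).2.1, (hM m hm).2.2.1, le_trans (Nat.mul_le_mul_left _
            (Nat.mul_le_mul_left _ (mem_range.1 hj).le)) (hM m hm).2.2.2⟩
    _ = _ := by rw [sum_const, card_range, nsmul_eq_mul, sum_comm]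

/-- the number of indices is small -/
theorem small (N : ℕ) : ∀ᶠ k : ℕ in atTop, (N * nl k) ^ 4 ≤ k ∧ 0 < nl k := by
  have h := (Real.isLittleO_pow_log_id_atTop (n := 8)).bound
    (show (0 : ℝ) < 1 / ((N : ℝ) ^ 4 + 1) by positivity)
  filter_upwards [tendsto_natCast_atTop_atTop.eventually h,
    (Real.tendsto_log_atTop.comp tendsto_natCast_atTop_atTop).eventually_ge_atTop 1] with k h1 h2
  have h3 : (1 : ℝ) ≤ Real.log k := h2
  refine ⟨?_, Nat.floor_pos.2 (one_le_pow₀ h3)⟩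
  have h4 : (nl k : ℝ) ≤ Real.log k ^ 2 := Nat.floor_le (by positivity)
  rw [Real.norm_of_nonneg (by positivity), id, Real.norm_of_nonneg (Nat.cast_nonneg k),
    div_mul_eq_mul_div, one_mul, le_div_iff₀ (by positivity)] at h1
  have h5 : ((nl k : ℝ)) ^ 4 ≤ Real.log k ^ 8 :=
    (pow_le_pow_left₀ (Nat.cast_nonneg _) h4 4).trans_eq (by ring)
  have h6 : (((N * nl k) ^ 4 : ℕ) : ℝ) ≤ k := by
    push_cast
    rw [mul_pow]
    have : (0 : ℝ) ≤ (N : ℝ) ^ 4 := by positivity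
    have : (0 : ℝ) ≤ Real.log k ^ 8 := by positivity
    nlinarith
  exact_mod_cast h6

theorem step {k U m n : ℕ} (h1 : m ^ 12 ≤ k) (h2 : n ^ 4 ≤ k) (h3 : k ≤ U ^ 3) : m * n ≤ U := by
  refine (Nat.pow_le_pow_iff_left (n := 12) (by norm_num)).1 ?_
  calc _ = m ^ 12 * (n ^ 4) ^ 3 := by ring
    _ ≤ k * k ^ 3 := Nat.mul_le_mul h1 (Nat.pow_le_pow_left h2 3)
    _ = k ^ 4 := by ring
    _ ≤ (U ^ 3) ^ 4 := Nat.pow_le_pow_left h3 4
    _ = _ := by ring

theorem lg {D k Y : ℕ} (h0 : 0 < k) (h1 : k < (Y + 1) ^ D) (h2 : 2 ≤ Y) :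
    Real.log k ≤ 2 * D * Real.log Y := by
  have h3 : k ≤ Y ^ (2 * D) := by
    rw [pow_mul]
    exact h1.le.trans (Nat.pow_le_pow_left (by nlinarith) D)
  have h4 : (k : ℝ) ≤ (Y : ℝ) ^ (2 * D) := by exact_mod_cast h3
  have := Real.log_le_log (Nat.cast_pos.2 h0) h4
  rwa [Real.log_pow, Nat.cast_mul, Nat.cast_ofNat] at this

end FinA

open FinA in
theorem fin_n : PVXStmt → MSETStmt → MNYStmt → MainStmt := by
  classical
  intro pvx mset mny g hg
  obtain ⟨v, hv⟩ := pvx g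
  obtain ⟨E, hE⟩ := mny g v hg hv
  obtain ⟨z, ⟨ε, hε, h1⟩, c, hc, h2⟩ := (hE.and (mset (1 / 56) (by norm_num))).exists
  obtain ⟨Y₀, hY⟩ := eventually_atTop.1 h2
  have hD : E + 12 ≠ 0 := by omega
  have hD' : (0 : ℝ) < (E + 12 : ℕ) := Nat.cast_pos.2 (by omega)
  refine ⟨v, ε * c / (2 * (E + 12 : ℕ)), by have := hv.ge; omega, by positivity, ?_⟩
  filter_upwards [h1, small (primorial z ^ 2), eventually_ge_atTop z,
    eventually_ge_atTop (max Y₀ 2 ^ (E + 12)), eventually_ge_atTop 2] with k a1 a2 a3 a4 a5 U hU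
  obtain ⟨Y, hYe⟩ : ∃ Y, Y = Nat.nthRoot (E + 12) k := ⟨_, rfl⟩
  have b1 : Y ^ (E + 12) ≤ k := hYe ▸ Nat.pow_nthRoot_le_iff.2 (Or.inl hD)
  have b2 : k < (Y + 1) ^ (E + 12) := hYe ▸ Nat.lt_pow_nthRoot_add_one hD k
  have b3 : max Y₀ 2 ≤ Y := hYe ▸ (Nat.le_nthRoot_iff hD).2 a4
  have b4 := lg (by omega) b2 (le_of_max_le_right b3)
  have b5 := hY Y (le_of_max_le_left b3)
  have b6 : ∀ m ∈ (Icc 1 Y).filter (Mz z (1 / 56)), Mz z (1 / 56) m ∧ 0 < m ∧
      ∀ n ≤ E + 12, m ^ n ≤ k := fun m hm => by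
    obtain ⟨c1, c2⟩ := mem_filter.1 hm
    obtain ⟨c3, c4⟩ := mem_Icc.1 c1
    exact ⟨c2, c3, fun n hn => (Nat.pow_le_pow_right c3 hn).trans
      ((Nat.pow_le_pow_left c4 _).trans b1)⟩
  have b7 := (sum_le_sum fun m hm => a1 U m hU (b6 m hm).1 ((b6 m hm).2.2 E (by omega))
    ((b6 m hm).2.2 12 (by omega))).trans (tot (v := v) _ a3 fun m hm =>
      ⟨(b6 m hm).1, (b6 m hm).2.1, by simpa using (b6 m hm).2.2 1 (by omega),
        step ((b6 m hm).2.2 12 (by omega)) a2.1 hU.lo⟩)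
  have hl : 0 < Real.log k := Real.log_pos (by exact_mod_cast a5)
  have hn : (0 : ℝ) < nl k := Nat.cast_pos.2 a2.2
  have hw : 0 ≤ vol g k * U := by unfold vol; positivity
  rw [sum_congr rfl fun m _ => show ε * (vol g k * U / (m : ℕ)) * (nl k / Real.log k) =
    nl k * (ε * (vol g k * U) / Real.log k) * (1 / (m : ℝ)) by ring, ← mul_sum, mul_assoc] at b7
  refine le_trans ?_ (le_of_mul_le_mul_left b7 hn)
  refine le_trans ?_ (mul_le_mul_of_nonneg_left b5 (by positivity))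
  rw [mul_assoc, div_mul_eq_mul_div, div_mul_eq_mul_div, div_le_div_iff₀ (by positivity) hl]
  have := mul_le_mul_of_nonneg_left b4 (show 0 ≤ ε * c * (vol g k * U) by positivity)
  linarith

end Pool.Agent.MP_a43263_nt.N2

end

end PkN2Fin

section PkN2Low

/-! THEOREM N2, row Low: the sieve at the small primes. -/

set_option autoImplicit false

noncomputable section

namespace Pool.Agent.MP_a43263_nt.N2

open Polynomial Finset Filter Matrix JC Pool.Agent.MP_a43263_nt.UV K2 Topology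

namespace LowA

theorem prod_one (g : ℕ) (hg : 1 ≤ g) (a : ℝ) :
    ∏ i : Fin (2 * g + 1), (if i.1 + 1 = 2 * g then a else 1) = a := by
  rw [Finset.prod_eq_single (⟨2 * g - 1, by omega⟩ : Fin (2 * g + 1))]
  · rw [if_pos (by simp only; omega)]
  · intro b _ hb
    rw [if_neg]
    intro h
    apply hb
    ext
    simp only
    omega
  · simp

/-- the main term of one coordinate -/
def D (g k M m : ℕ) (i : Fin (2 * g + 1)) : ℝ :=
  (k : ℝ) ^ xp g i.1 / (M * if i.1 + 1 = 2 * g then (m : ℝ) else 1)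

theorem D_nonneg (g k M m : ℕ) (i : Fin (2 * g + 1)) : 0 ≤ D g k M m i := by
  unfold D
  split_ifs <;> positivity

theorem prod_D (g k M m : ℕ) (hg : 1 ≤ g) :
    ∏ i, D g k M m i = vol g k / ((M : ℝ) ^ (2 * g + 1) * m) := by
  unfold D
  rw [prod_div_distrib, prod_pow_eq_pow_sum, K2.LowA.sum_xp, vol, prod_mul_distrib, prod_one g hg]
  simp

theorem pb_eq (g k M m : ℕ) (s : ℝ) : pb g k M m s = ∏ i, (2 * D g k M m i + s) := by
  unfold pb D
  refine prod_congr rfl fun i _ => ?_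
  rw [mul_div_assoc]

theorem D_ge (g k M m : ℕ) (hk : 1 ≤ k) (hM : 0 < M) (hm : 0 < m) (h : m ^ 2 ≤ k)
    (i : Fin (2 * g + 1)) (hg : 1 ≤ g) : 5 * (k : ℝ) ≤ D g k M m i * (5 * M / √(k : ℝ)) := by
  have hk1 : (1 : ℝ) ≤ k := by exact_mod_cast hk
  have hM1 : (0 : ℝ) < M := by exact_mod_cast hM
  have hm1 : (1 : ℝ) ≤ m := by exact_mod_cast hm
  have hs : 0 < √(k : ℝ) := Real.sqrt_pos.2 (by linarith)
  have h1 : (m : ℝ) ≤ √(k : ℝ) := Real.le_sqrt_of_sq_le (by exact_mod_cast h)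
  have h2 : (k : ℝ) ^ 2 ≤ (k : ℝ) ^ xp g i.1 :=
    pow_le_pow_right₀ hk1 (by unfold xp; split_ifs <;> omega)
  have h3 : √(k : ℝ) * √(k : ℝ) = k := Real.mul_self_sqrt (by linarith)
  obtain ⟨a, ha, ha1, ha2⟩ : ∃ a : ℝ, a = (if i.1 + 1 = 2 * g then (m : ℝ) else 1) ∧ 0 < a ∧
      a ≤ √(k : ℝ) := ⟨_, rfl, by split_ifs <;> linarith, by split_ifs <;> linarith⟩
  unfold D
  rw [← ha]
  have e : (k : ℝ) ^ xp g i.1 / (M * a) * (5 * M / √(k : ℝ)) =
      5 * (k : ℝ) ^ xp g i.1 / (a * √(k : ℝ)) := by field_simp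
  rw [e, le_div_iff₀ (by positivity)]
  have h4 : a * √(k : ℝ) ≤ k := by nlinarith
  nlinarith

theorem pb_le (g k M m : ℕ) (s t : ℝ) (hs : 0 ≤ s) (h : ∀ i, s ≤ D g k M m i * t) :
    pb g k M m s ≤ (∏ i, D g k M m i) * (2 + t) ^ (2 * g + 1) := by
  rw [pb_eq, ← Fin.prod_const (2 * g + 1) (2 + t), ← prod_mul_distrib]
  refine prod_le_prod (fun i _ => by have := D_nonneg g k M m i; positivity) fun i _ => ?_
  nlinarith [h i]

theorem pb_div (g k M m p : ℕ) (s : ℝ) (hg : 1 ≤ g) (hs : 0 ≤ s) (hp : 1 ≤ p) (hm : 0 < m)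
    (hM : 0 < M) : pb g k M m s ≤ p * pb g k M (m * p) s := by
  have hp1 : (1 : ℝ) ≤ p := by exact_mod_cast hp
  have hm1 : (0 : ℝ) < m := by exact_mod_cast hm
  have hM1 : (0 : ℝ) < M := by exact_mod_cast hM
  rw [pb_eq, pb_eq]
  conv_rhs => rw [← prod_one g hg (p : ℝ)]
  rw [← prod_mul_distrib]
  refine prod_le_prod (fun i _ => by have := D_nonneg g k M m i; positivity) fun i _ => ?_
  unfold D
  split_ifs
  · have e : (p : ℝ) * (2 * ((k : ℝ) ^ xp g i.1 / (M * ((m * p : ℕ) : ℝ))) + s) =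
        2 * ((k : ℝ) ^ xp g i.1 / (M * m)) + p * s := by
      push_cast
      field_simp
    rw [e]
    nlinarith
  · rw [one_mul]

theorem ev (n : ℕ) (K : ℝ) : ∀ᶠ H : ℕ in atTop, 1 ≤ H ∧ K / √(H : ℝ) ≤ 1 ∧
    1 / 2 ≤ (2 - K / √(H : ℝ)) ^ (n + 1) - 125 / 168 * (2 + K / √(H : ℝ)) ^ (n + 1) := by
  have h0 : Tendsto (fun H : ℕ => K / √(H : ℝ)) atTop (𝓝 0) :=
    (Real.tendsto_sqrt_atTop.comp tendsto_natCast_atTop_atTop).const_div_atTop K
  have h1 : Tendsto (fun H : ℕ => (2 - K / √(H : ℝ)) ^ (n + 1) -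
      125 / 168 * (2 + K / √(H : ℝ)) ^ (n + 1))
      atTop (𝓝 ((2 - 0) ^ (n + 1) - 125 / 168 * (2 + 0) ^ (n + 1))) :=
    ((h0.const_sub 2).pow _).sub (((h0.const_add 2).pow _).const_mul _)
  refine (eventually_ge_atTop 1).and ((h0.eventually_le_const one_pos).and ?_)
  refine h1.eventually_const_le ?_
  have : (1 : ℝ) ≤ 2 ^ n := one_le_pow₀ one_le_two
  rw [sub_zero, add_zero, pow_succ]
  linarith

open Classical in
theorem ex_S (g k : ℕ) (P : Vec g → Prop) :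
    ∃ S : Finset (Vec g), (∀ w, w ∈ S ↔ w ∈ bx g k ∧ P w) ∧ cnt g k P = S.card :=
  ⟨_, fun w => by rw [mem_filter], cnt_eq_card⟩

/-- the base count -/
theorem base (cbx : CBXStmt) (g k M m u v : ℕ) (w₀ : Vec g) (t : ℝ) (hg : 1 ≤ g) (hM : 0 < M)
    (hm : 0 < m) (h1 : m.Coprime (u * v)) (h2 : m.Coprime M) (ht : t ≤ 1)
    (h : ∀ i, 1 ≤ D g k M m i * t) :
    (∏ i, D g k M m i) * (2 - t) ^ (2 * g + 1) ≤
      cnt g k fun w => (∀ i, (w i : ZMod M) = w₀ i) ∧ (m : ℤ) ∣ Gv w u v := by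
  classical
  have hm1 : (0 : ℝ) < m := by exact_mod_cast hm
  have hM1 : (0 : ℝ) < M := by exact_mod_cast hM
  obtain ⟨S, hS, hc⟩ := ex_S g k fun w => (∀ i, (w i : ZMod M) = w₀ i) ∧ (m : ℤ) ∣ Gv w u v
  rw [hc]
  have h3 := (cbx g (fun i => ce g k i.1 - (k : ℤ) ^ xp g i.1) w₀ (fun i => 2 * k ^ xp g i.1)
    (fun _ => M) m u v hg (fun _ => hM) hm h1 (fun _ _ => h2)
    S (fun w => by
      rw [hS, mem_bx]
      refine and_congr (forall_congr' fun i => ?_) (and_congr_left' (forall_congr' fun i => ?_))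
      · push_cast
        constructor <;> rintro ⟨a, b⟩ <;> constructor <;> linarith
      · rw [ZMod.intCast_eq_intCast_iff_dvd_sub, ← dvd_neg, neg_sub])).2 fun i => ?_
  · refine le_trans ?_ h3
    rw [← Fin.prod_const (2 * g + 1) (2 - t), ← prod_mul_distrib]
    refine prod_le_prod (fun i _ => mul_nonneg (D_nonneg g k M m i) (by linarith)) fun i _ => ?_
    have e : ((2 * k ^ xp g i.1 : ℕ) : ℝ) / (M * ((if i.1 + 1 = 2 * g then m else 1 : ℕ) : ℝ)) =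
        2 * D g k M m i := by
      unfold D
      push_cast
      rw [mul_div_assoc]
    rw [e]
    nlinarith [h i]
  · have h4 : 1 ≤ D g k M m i := by nlinarith [h i, D_nonneg g k M m i]
    unfold D at h4
    rw [one_le_div (by split_ifs <;> positivity)] at h4
    have h5 : ((M * if i.1 + 1 = 2 * g then m else 1 : ℕ) : ℝ) ≤ ((k ^ xp g i.1 : ℕ) : ℝ) := by
      push_cast
      exact h4
    have h6 := Nat.cast_le.1 h5
    omega

end LowA

theorem low_n : CBXStmt → LWNStmt → LWXStmt → LOWStmt := by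
  intro cbx lwn lwx g v Q w₀ hg hQ
  classical
  have hM : 0 < 30 * ∏ q ∈ Q, q := mul_pos (by norm_num) (prod_pos fun q hq => (hQ q hq).1.pos)
  have hmc : 30 * ∏ q ∈ Q, (q : ℝ) = ((30 * ∏ q ∈ Q, q : ℕ) : ℝ) := by push_cast; rfl
  have hco : ∀ p : ℕ, p.Prime → 7 ≤ p → p ∉ Q → (30 * ∏ q ∈ Q, q).Coprime p := fun p hp h7 hq => by
    refine Nat.Coprime.mul_left ?_ (Nat.Coprime.prod_left fun q h =>
      (Nat.coprime_primes (hQ q h).1 hp).2 fun e => hq (e ▸ h))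
    exact (((Nat.coprime_primes Nat.prime_two hp).2 (by omega)).mul_left
      ((Nat.coprime_primes Nat.prime_three hp).2 (by omega))).mul_left
      ((Nat.coprime_primes Nat.prime_five hp).2 (by omega))
  rw [hmc]
  filter_upwards [LowA.ev (2 * g) (5 * ((30 * ∏ q ∈ Q, q : ℕ) : ℝ))] with k ⟨hk, ht1, ht2⟩
  intro m u hms hmk
  obtain ⟨sf, cu, cq, hsum⟩ := hms
  generalize 30 * ∏ q ∈ Q, q = M at *
  have hm : 0 < m := Nat.pos_of_ne_zero sf.ne_zero
  have hk1 : (1 : ℝ) ≤ k := by exact_mod_cast hk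
  have hm2 : m ^ 2 ≤ k := (Nat.pow_le_pow_right hm (by norm_num)).trans hmk
  have hD := fun i => LowA.D_ge g k M m hk hM hm hm2 i hg
  have ht0 : 0 ≤ 5 * (M : ℝ) / √(k : ℝ) := by positivity
  generalize 5 * (M : ℝ) / √(k : ℝ) = t at *
  have hX := LowA.prod_D g k M m hg
  have h0 : 0 ≤ ∏ i, LowA.D g k M m i := prod_nonneg fun i _ => LowA.D_nonneg g k M m i
  have hA := LowA.base cbx g k M m u v w₀ t hg hM hm cu cq ht1 fun i => by linarith [hD i]
  have hpb : ∀ s : ℝ, 0 ≤ s → s ≤ 5 * k →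
      pb g k M m s ≤ (∏ i, LowA.D g k M m i) * (2 + t) ^ (2 * g + 1) := fun s h1 h2 =>
    LowA.pb_le g k M m s t h1 fun i => h2.trans (hD i)
  have hY : 0 ≤ (∏ i, LowA.D g k M m i) * (2 + t) ^ (2 * g + 1) := by positivity
  have hfin := mul_le_mul_of_nonneg_left ht2 h0
  rw [mul_sub, ← mul_left_comm] at hfin
  have e : 1 / 2 / (M : ℝ) ^ (2 * g + 1) * vol g k / m = (∏ i, LowA.D g k M m i) * (1 / 2) := by
    rw [hX]
    ring
  rw [e]
  generalize (∏ i, LowA.D g k M m i) * (2 + t) ^ (2 * g + 1) = Y at *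
  let Ps := (range ⌈√(5 * (k : ℝ))⌉₊).filter fun p => p.Prime ∧ 7 ≤ p ∧ p ∉ Q ∧ ¬p ∣ m
  have hb1 : ∀ p ∈ Ps, (cnt g k fun w => (∀ i, (w i : ZMod M) = w₀ i) ∧ (m : ℤ) ∣ Gv w u v ∧
      Nx p (f1 w)) ≤ Y * 4 * (1 / ((p : ℝ) ^ 2 - 1)) := by
    intro p hp
    obtain ⟨hpM, hp, h7, hq, hpm⟩ := mem_filter.1 hp
    have hpM' : (p : ℝ) < √(5 * (k : ℝ)) := Nat.lt_ceil.1 (mem_range.1 hpM)
    have h7' : (7 : ℝ) ≤ p := by exact_mod_cast h7
    have h1 : (p : ℝ) ^ 2 ≤ 5 * k := ((Real.lt_sqrt (by positivity)).1 hpM').le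
    refine (lwn g k M m p u v w₀ hg hp (by omega) hM hm (hco p hp h7 hq) cu
      (cq.mul_right ((Nat.Prime.coprime_iff_not_dvd hp).2 hpm).symm)).trans ?_
    have h2 : 0 ≤ 4 / ((p : ℝ) ^ 2 - 1) := div_nonneg (by norm_num) (by nlinarith)
    refine (mul_le_mul_of_nonneg_left (hpb _ (by positivity) h1) h2).trans_eq ?_
    ring
  have hs1 := sum_le_sum hb1
  rw [← mul_sum] at hs1
  replace hs1 := hs1.trans (mul_le_mul_of_nonneg_left (K2.LowA.sum_le Ps fun p hp =>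
    (mem_filter.1 hp).2.2.1) (by positivity))
  have hb2 : ∀ p ∈ m.primeFactors, (cnt g k fun w => (∀ i, (w i : ZMod M) = w₀ i) ∧
      (m : ℤ) ∣ Gv w u v ∧ (Nx p (f1 w) ∨ (p : ℤ) ∣ w (Fin.last _) ∨ (p : ℤ) ∣ Gx w u v)) ≤
      Y * 7 * (1 / (p : ℝ)) := by
    intro p hpf
    have hp := Nat.prime_of_mem_primeFactors hpf
    have hpm := Nat.dvd_of_mem_primeFactors hpf
    have hp0 : (0 : ℝ) < p := by exact_mod_cast hp.pos
    have h56 : (56 : ℝ) ≤ p := by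
      have h1 := (single_le_sum (f := fun q : ℕ => 1 / (q : ℝ)) (fun q _ => by positivity)
        hpf).trans hsum
      rw [div_le_div_iff₀ hp0 (by norm_num)] at h1
      linarith
    have h56' : 56 ≤ p := by exact_mod_cast h56
    have hp2 : (p : ℝ) ^ 2 ≤ k := by
      exact_mod_cast (Nat.pow_le_pow_left (Nat.le_of_dvd hm hpm) 2).trans hm2
    obtain ⟨m', rfl⟩ : ∃ m', m = m' * p := exists_eq_mul_left_of_dvd hpm
    have hm' : 0 < m' := Nat.pos_of_mul_pos_right hm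
    have h1 := lwn g k M m' p u v w₀ hg hp (by omega) hM hm' (cq.coprime_mul_left.symm)
      cu.coprime_mul_right (cq.coprime_mul_right.mul_right (Nat.coprime_of_squarefree_mul sf))
    have h2 := lwx g k M (m' * p) p u v w₀ hg hp hM hm hpm cu cq
    have h3 := LowA.pb_div g k M m' p ((p : ℝ) ^ 2) hg (by positivity) hp.pos hm' hM
    have h4 := hpb ((p : ℝ) ^ 2) (by positivity) (by linarith)
    have h5 := hpb p (by positivity) (by nlinarith)
    have h6 : 0 < (p : ℝ) ^ 2 - 1 := by nlinarith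
    have h7 : 4 / ((p : ℝ) ^ 2 - 1) * p ≤ 5 / p := by
      rw [div_mul_eq_mul_div, div_le_div_iff₀ h6 hp0]
      nlinarith
    refine (cnt_le_add fun w _ hw => ?_).trans ((add_le_add h1 h2).trans ?_)
    · rcases hw.2.2 with h | h
      · refine .inl ⟨hw.1, dvd_trans ?_ hw.2.1, h⟩
        exact Int.natCast_dvd_natCast.2 (Dvd.intro _ rfl)
      · exact .inr ⟨hw.1, hw.2.1, h⟩
    · have h8 := mul_le_mul_of_nonneg_left (h3.trans (mul_le_mul_of_nonneg_left h4 hp0.le))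
        (by positivity : 0 ≤ 4 / ((p : ℝ) ^ 2 - 1))
      rw [← mul_assoc] at h8
      have h9 := h8.trans (mul_le_mul_of_nonneg_right h7 hY)
      have h10 := mul_le_mul_of_nonneg_left h5 (by positivity : 0 ≤ 2 / (p : ℝ))
      refine (add_le_add h9 h10).trans_eq ?_
      ring
  have hs2 := sum_le_sum hb2
  rw [← mul_sum] at hs2
  replace hs2 := hs2.trans (mul_le_mul_of_nonneg_left hsum (by positivity))
  have hcov := (cnt_le_add (g := g) (k := k)
    (P := fun w => (∀ i, (w i : ZMod M) = w₀ i) ∧ (m : ℤ) ∣ Gv w u v)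
    (Q := fun w => (∀ i, (w i : ZMod M) = w₀ i) ∧ (m : ℤ) ∣ Gv w u v ∧
      (∀ p : ℕ, p.Prime → 7 ≤ p → p ∉ Q → (p : ℝ) < √(5 * k) → ¬Nx p (f1 w)) ∧
      ∀ p : ℕ, p.Prime → p ∣ m → ¬(p : ℤ) ∣ w (Fin.last _) ∧ ¬(p : ℤ) ∣ Gx w u v)
    (R := fun w => (∃ p ∈ Ps, (∀ i, (w i : ZMod M) = w₀ i) ∧ (m : ℤ) ∣ Gv w u v ∧ Nx p (f1 w)) ∨
      ∃ p ∈ m.primeFactors, (∀ i, (w i : ZMod M) = w₀ i) ∧ (m : ℤ) ∣ Gv w u v ∧
        (Nx p (f1 w) ∨ (p : ℤ) ∣ w (Fin.last _) ∨ (p : ℤ) ∣ Gx w u v)) fun w _ hw => by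
      by_contra h
      rw [not_or, not_or] at h
      refine h.1 ⟨hw.1, hw.2, fun p hp h7 hq hM hx => ?_, fun p hp hpm => ⟨fun hx => ?_,
        fun hx => ?_⟩⟩
      · by_cases hpm : p ∣ m
        · exact h.2.2 ⟨p, Nat.mem_primeFactors.2 ⟨hp, hpm, hm.ne'⟩, hw.1, hw.2, .inl hx⟩
        · exact h.2.1 ⟨p, mem_filter.2 ⟨mem_range.2 (Nat.lt_ceil.2 hM), hp, h7, hq, hpm⟩,
            hw.1, hw.2, hx⟩
      · exact h.2.2 ⟨p, Nat.mem_primeFactors.2 ⟨hp, hpm, hm.ne'⟩, hw.1, hw.2, .inr (.inl hx)⟩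
      · exact h.2.2 ⟨p, Nat.mem_primeFactors.2 ⟨hp, hpm, hm.ne'⟩, hw.1, hw.2,
          .inr (.inr hx)⟩).trans
    (add_le_add le_rfl ((cnt_le_add fun _ _ h => h).trans (add_le_add
      ((cnt_le_sum Ps _ fun _ _ h => h).trans hs1)
      ((cnt_le_sum m.primeFactors _ fun _ _ h => h).trans hs2))))
  linarith

end Pool.Agent.MP_a43263_nt.N2

end

end PkN2Low

section PkN2Lwn

/-! Polynomials that are not maximal at one prime. -/

set_option autoImplicit false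

noncomputable section

namespace Pool.Agent.MP_a43263_nt.N2

open Polynomial Finset Pool.Agent.MP_a43263_nt.UV K2

namespace LwnA

theorem one (cbx : CBXStmt) {g k m m' p u v : ℕ} (w₀ : Vec g) (hg : 1 ≤ g) (hp : 0 < p)
    (hm : 0 < m) (hm' : 0 < m') (c1 : m.Coprime p) (c2 : m'.Coprime (u * v))
    (c3 : m'.Coprime (m * p)) (x : Fin (2 * g + 1) → ZMod (p ^ 2)) :
    (p : ℝ) ^ (2 * (2 * g + 1)) * cnt g k (fun w => (∀ i, (w i : ZMod m) = w₀ i) ∧
      (m' : ℤ) ∣ Gv w u v ∧ (fun i => (w i : ZMod (p ^ 2))) = x) ≤ pb g k m m' ((p : ℝ) ^ 2) := by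
  classical
  by_cases h : ∃ r : Vec g, (∀ i, (r i : ZMod m) = w₀ i) ∧ (fun i => (r i : ZMod (p ^ 2))) = x
  swap
  · rw [cnt, sum_eq_zero fun w _ => ind_neg fun q => h ⟨w, q.1, q.2.2⟩, mul_zero, pb]
    exact prod_nonneg fun i _ => by split_ifs <;> positivity
  obtain ⟨r, r1, r2⟩ := h
  have c4 : m'.Coprime (m * p ^ 2) :=
    Nat.Coprime.mul_right (Nat.Coprime.coprime_mul_right_right c3)
      ((Nat.Coprime.coprime_mul_left_right c3).pow_right 2)
  have h1 := (cbx g (fun i => ce g k i.1 - (k : ℤ) ^ xp g i.1) r (fun i => 2 * k ^ xp g i.1)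
    (fun _ => m * p ^ 2) m' u v hg (fun _ => by positivity) hm' c2 (fun _ _ => c4)
    ((bx g k).filter fun w => (∀ i, ((m * p ^ 2 : ℕ) : ℤ) ∣ w i - r i) ∧ (m' : ℤ) ∣ Gv w u v)
    (fun w => by
      rw [mem_filter, mem_bx]
      refine and_congr_left fun _ => forall_congr' fun i => and_congr_right fun _ => ?_
      push_cast
      constructor <;> intro q <;> linarith)).1
  have h2 : cnt g k (fun w => (∀ i, (w i : ZMod m) = w₀ i) ∧
      (m' : ℤ) ∣ Gv w u v ∧ (fun i => (w i : ZMod (p ^ 2))) = x) ≤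
      cnt g k (fun w => (∀ i, ((m * p ^ 2 : ℕ) : ℤ) ∣ w i - r i) ∧ (m' : ℤ) ∣ Gv w u v) := by
    refine cnt_mono fun w _ q => ⟨fun i => ?_, q.2.1⟩
    rw [Nat.cast_mul]
    refine IsCoprime.mul_dvd (Nat.isCoprime_iff_coprime.2 (c1.pow_right 2)) ?_ ?_
    · exact (ZMod.intCast_eq_intCast_iff_dvd_sub _ _ _).1 ((r1 i).trans (q.1 i).symm)
    · exact (ZMod.intCast_eq_intCast_iff_dvd_sub _ _ _).1
        ((congrFun r2 i).trans (congrFun q.2.2 i).symm)
  rw [cnt_eq_card (P := fun w => (∀ i, ((m * p ^ 2 : ℕ) : ℤ) ∣ w i - r i) ∧ (m' : ℤ) ∣ Gv w u v)]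
    at h2
  have h3 := h2.trans ((Nat.cast_le.2 (card_le_card fun w hw => by
    simpa only [mem_filter] using hw)).trans h1)
  refine (mul_le_mul_of_nonneg_left h3 (by positivity)).trans (le_of_eq ?_)
  have e : (p : ℝ) ^ (2 * (2 * g + 1)) = ∏ _i : Fin (2 * g + 1), (p : ℝ) ^ 2 := by
    rw [prod_const, card_univ, Fintype.card_fin, ← pow_mul]
  rw [e, ← prod_mul_distrib, pb]
  refine prod_congr rfl fun i _ => ?_
  have hp0 : (p : ℝ) ≠ 0 := by positivity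
  have hm0 : (m : ℝ) ≠ 0 := by positivity
  have hm1 : (m' : ℝ) ≠ 0 := by positivity
  push_cast
  split_ifs <;> field_simp

end LwnA

theorem lwn_n : K2.BETAStmt → CBXStmt → LWNStmt := by
  intro beta cbx g k m m' p u v w₀ hg hp h2 hm hm' c1 c2 c3
  have : NeZero (p ^ 2) := ⟨pow_ne_zero 2 hp.ne_zero⟩
  have hb := beta g p hg hp h2
  set Y := {x : Fin (2 * g + 1) → ZMod (p ^ 2) | ∃ w : Vec g,
    (fun i => (w i : ZMod (p ^ 2))) = x ∧ Nx p (f1 w)} with hY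
  have hf : Y.Finite := Set.toFinite Y
  rw [Set.ncard_eq_toFinset_card Y hf] at hb
  have hP : (0 : ℝ) < (p : ℝ) ^ (2 * (2 * g + 1)) := by have := hp.pos; positivity
  have h0 : 0 ≤ pb g k m m' ((p : ℝ) ^ 2) :=
    prod_nonneg fun i _ => by split_ifs <;> positivity
  refine (cnt_le_sum hf.toFinset (fun x w => (∀ i, (w i : ZMod m) = w₀ i) ∧
    (m' : ℤ) ∣ Gv w u v ∧ (fun i => (w i : ZMod (p ^ 2))) = x)
    fun w _ q => ⟨_, hf.mem_toFinset.2 ⟨w, rfl, q.2.2⟩, q.1, q.2.1, rfl⟩).trans ?_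
  refine (sum_le_card_nsmul _ _ (pb g k m m' ((p : ℝ) ^ 2) / (p : ℝ) ^ (2 * (2 * g + 1)))
    fun x _ => (le_div_iff₀' hP).2 (LwnA.one cbx w₀ hg hp.pos hm hm' c1 c2 c3 x)).trans ?_
  rw [nsmul_eq_mul]
  refine (mul_le_mul_of_nonneg_right hb (by positivity)).trans (le_of_eq ?_)
  field_simp

end Pool.Agent.MP_a43263_nt.N2

end

end PkN2Lwn
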