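import Pool.Agent.MP_a43263_nt.NP.D1
import Pool.Agent.MP_a43263_nt.NP.C1
import Pool.Agent.MP_a43263_nt.NP.K1

/-! Packed rows. -/

section PkN2Lwx

/-! THEOREM N2, row Lwx: exclusions at a prime of the smooth part. -/

set_option autoImplicit false

noncomputable section

namespace Pool.Agent.MP_a43263_nt.N2

open Finset Filter K2

namespace LwxA

theorem diff {g : ℕ} (w w' : Vec g) (u v : ℤ) :
    Gv w u v - Gv w' u v + u ^ 2 * (Gx w u v - Gx w' u v) =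
      ∑ i, (1 - ((2 * g - i.1 : ℕ) : ℤ)) * (sv w i - sv w' i) * (-u ^ 2) ^ (2 * g - i.1) *
        (v ^ 2) ^ (i.1 + 1) := by
  rw [Gv, Gv, Gx, Gx, add_sub_add_left_eq_sub, add_sub_add_left_eq_sub, ← sum_sub_distrib,
    ← sum_sub_distrib, mul_sum, ← sum_add_distrib]
  refine sum_congr rfl fun i _ => ?_
  generalize 2 * g - i.1 = n
  cases n with
  | zero => simp; ring
  | succ n => rw [Nat.add_sub_cancel, pow_succ (-u ^ 2) n]; ring

theorem det {g : ℕ} {p u v : ℤ} (hu : IsCoprime p u) (hv : IsCoprime p v) (j : Fin (2 * g + 1))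
    (hj : j.1 + 2 = 2 * g) {w w' : Vec g} (a : p ∣ Gv w u v) (b : p ∣ Gx w u v)
    (a' : p ∣ Gv w' u v) (b' : p ∣ Gx w' u v)
    (h : ∀ i, i.1 + 1 ≠ 2 * g → i ≠ j → p ∣ w i - w' i) : p ∣ w j - w' j := by
  have h1 := dvd_add (dvd_sub a a') ((dvd_sub b b').mul_left (u ^ 2))
  rw [diff, ← add_sum_erase _ _ (mem_univ j), dvd_add_left (dvd_sum fun i hi => ?_)] at h1
  · have e : 2 * g - j.1 = 2 := by omega
    have e' : j.1 ≠ 2 * g := by omega
    rw [e] at h1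
    simp only [sv, if_neg e'] at h1
    have h2 := hu.pow_right.neg_right.pow_right.dvd_of_dvd_mul_right
      (hv.pow_right.pow_right.dvd_of_dvd_mul_right h1)
    norm_num at h2
    exact dvd_sub_comm.1 h2
  · by_cases e : i.1 + 1 = 2 * g
    · have : 2 * g - i.1 = 1 := by omega
      simp [this]
    · refine ((Dvd.dvd.mul_left ?_ _).mul_right _).mul_right _
      have := h i e (ne_of_mem_erase hi)
      rw [sv, sv]
      split_ifs
      · rw [sq_sub_sq]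
        exact this.mul_left _
      · exact this

theorem cls (cbx : CBXStmt) {g k m m' p u v : ℕ} (w₀ : Vec g) (hg : 1 ≤ g) (hp : p.Prime)
    (hm : 0 < m) (hm' : 0 < m') (hd : p ∣ m') (c1 : m'.Coprime (u * v)) (c2 : m'.Coprime m)
    (j : Fin (2 * g + 1)) (hj : j.1 + 1 ≠ 2 * g) (P : Vec g → Prop)
    (hP : ∀ w w', (m' : ℤ) ∣ Gv w u v → (m' : ℤ) ∣ Gv w' u v → P w → P w' →
      (∀ i, i.1 + 1 ≠ 2 * g → i ≠ j → (p : ℤ) ∣ w i - w' i) → (p : ℤ) ∣ w j - w' j) :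
    cnt g k (fun w => (∀ i, (w i : ZMod m) = w₀ i) ∧ (m' : ℤ) ∣ Gv w u v ∧ P w) ≤
      1 / (p : ℝ) * pb g k m m' p := by
  classical
  have : NeZero p := ⟨hp.ne_zero⟩
  have p0 : (0 : ℝ) < p := Nat.cast_pos.2 hp.pos
  have p1 : (1 : ℝ) ≤ p := Nat.one_le_cast.2 hp.pos
  have m0 : (0 : ℝ) < m := Nat.cast_pos.2 hm
  have cp : IsCoprime (m : ℤ) p := Nat.isCoprime_iff_coprime.2 (c2.coprime_dvd_left hd).symm
  let M : Fin (2 * g + 1) → ℕ := fun i => if i.1 + 1 = 2 * g then m else m * p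
  let φ : Vec g → Fin (2 * g + 1) → ZMod p := fun w i =>
    if i.1 + 1 = 2 * g ∨ i = j then 0 else w i
  let T : Finset (Fin (2 * g + 1) → ZMod p) :=
    Fintype.piFinset fun i => if i.1 + 1 = 2 * g ∨ i = j then {0} else univ
  obtain ⟨S, hS, eS⟩ : ∃ S : Finset (Vec g), (∀ w ∈ S, w ∈ bx g k ∧ (∀ i, (w i : ZMod m) = w₀ i) ∧
      (m' : ℤ) ∣ Gv w u v ∧ P w) ∧ cnt g k (fun w => (∀ i, (w i : ZMod m) = w₀ i) ∧
      (m' : ℤ) ∣ Gv w u v ∧ P w) = S.card := ⟨_, fun w hw => by simpa using hw, cnt_eq_card⟩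
  rw [eS, card_eq_sum_card_fiberwise (f := φ) (t := T) fun w _ => ?_, Nat.cast_sum]
  swap
  · refine mem_coe.2 (Fintype.mem_piFinset.2 fun i => ?_)
    simp only [φ]
    split_ifs <;> simp
  refine (sum_le_card_nsmul _ _ (∏ i, (((2 * k ^ xp g i.1 : ℕ) : ℝ) /
    (M i * if i.1 + 1 = 2 * g then m' else 1) + 1)) fun x _ => ?_).trans ?_
  · rcases (S.filter fun w => φ w = x).eq_empty_or_nonempty with h | ⟨r, hr⟩
    · rw [h, card_empty, Nat.cast_zero]
      positivity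
    refine le_trans (Nat.cast_le.2 (card_le_card fun w hw => ?_))
      (cbx g (fun i => ce g k i.1 - (k : ℤ) ^ xp g i.1) r (fun i => 2 * k ^ xp g i.1) M m' u v hg
        (fun i => ?_) hm' c1 (fun i hi => ?_) ((bx g k).filter fun w =>
          (∀ i, (M i : ℤ) ∣ w i - r i) ∧ (m' : ℤ) ∣ Gv w u v) fun w => ?_).1
    · rw [mem_filter] at hw hr ⊢
      obtain ⟨a1, a2, a3, a4⟩ := hS w hw.1
      obtain ⟨-, b2, b3, b4⟩ := hS r hr.1
      have q1 : ∀ i, (m : ℤ) ∣ w i - r i := fun i =>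
        (ZMod.intCast_eq_intCast_iff_dvd_sub _ _ _).1 ((b2 i).trans (a2 i).symm)
      have q2 : ∀ i, i.1 + 1 ≠ 2 * g → i ≠ j → (p : ℤ) ∣ w i - r i := fun i h1 h2 => by
        have := congrFun (hr.2.trans hw.2.symm) i
        simp only [φ, if_neg (not_or.2 ⟨h1, h2⟩)] at this
        exact (ZMod.intCast_eq_intCast_iff_dvd_sub _ _ _).1 this
      refine ⟨a1, fun i => ?_, a3⟩
      simp only [M]
      split_ifs with h1
      · exact q1 i
      · rw [Nat.cast_mul]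
        refine cp.mul_dvd (q1 i) ?_
        by_cases h2 : i = j
        · exact h2 ▸ hP w r a3 b3 a4 b4 q2
        · exact q2 i h1 h2
    · simp only [M]
      split_ifs
      exacts [hm, Nat.mul_pos hm hp.pos]
    · simp only [M, if_pos hi]
      exact c2
    · rw [mem_filter, mem_bx]
      refine and_congr_left' (forall_congr' fun i => and_congr_right' ?_)
      push_cast
      rw [show ∀ a b : ℤ, a - b + 2 * b = a + b from fun a b => by ring]
  · have e : (p : ℝ) = ∏ i, if i = j then (p : ℝ) else 1 := by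
      rw [prod_ite_eq', if_pos (mem_univ j)]
    rw [nsmul_eq_mul, one_div, le_inv_mul_iff₀ p0, Fintype.card_piFinset, Nat.cast_prod, pb,
      ← prod_mul_distrib]
    refine (congrArg (· * _) e).trans_le ?_
    clear e
    rw [← prod_mul_distrib]
    refine prod_le_prod (fun i _ => by positivity) fun i _ => ?_
    simp only [M]
    by_cases h1 : i.1 + 1 = 2 * g
    · have h2 : i ≠ j := fun h => hj (h ▸ h1)
      simp [h1, h2, p1]
    · by_cases h2 : i = j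
      · simp only [h2, hj, if_true, if_false, or_true, card_singleton]
        push_cast
        refine le_of_eq ?_
        field_simp
      · simp only [h1, h2, if_false, or_false, card_univ, ZMod.card]
        push_cast
        refine le_of_eq ?_
        field_simp

end LwxA

open LwxA in
theorem lwx_n : CBXStmt → LWXStmt := by
  intro cbx g k m m' p u v w₀ hg hp hm hm' hd c1 c2
  have c3 := c1.coprime_dvd_left hd
  have hd' : (p : ℤ) ∣ m' := Int.natCast_dvd_natCast.2 hd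
  have a := cls cbx (k := k) w₀ hg hp hm hm' hd c1 c2 (Fin.last _) (by simp)
    (fun w => (p : ℤ) ∣ w (Fin.last _)) fun w w' _ _ a b _ => dvd_sub a b
  have b := cls cbx (k := k) w₀ hg hp hm hm' hd c1 c2 ⟨2 * g - 2, by omega⟩ (by simp only; omega)
    (fun w => (p : ℤ) ∣ Gx w u v) fun w w' a a' b b' h =>
      det (Nat.isCoprime_iff_coprime.2 c3.coprime_mul_right_right)
        (Nat.isCoprime_iff_coprime.2 c3.coprime_mul_left_right) _ (by simp only; omega)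
        (hd'.trans a) b (hd'.trans a') b' h
  refine le_trans (cnt_le_add fun w _ h => ?_) ((add_le_add a b).trans_eq (by ring))
  exact h.2.2.imp (fun q => ⟨h.1, h.2.1, q⟩) fun q => ⟨h.1, h.2.1, q⟩

end Pool.Agent.MP_a43263_nt.N2

end

end PkN2Lwx

section PkN2Mny

/-! THEOREM N2: many good points. -/

set_option autoImplicit false

noncomputable section

namespace Pool.Agent.MP_a43263_nt.N2

open Finset Filter K2

namespace MnyA

variable {g : ℕ}

open Classical in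
/-- the admissible pairs of a subset and a class -/
def cls (g v N : ℕ) (Q : Finset ℕ) : Finset (Finset ℕ × Vec g) :=
  (Q.powerset ×ˢ Fintype.piFinset fun _ => Ico (0 : ℤ) ((N : ℤ) ^ 2)).filter fun t =>
    Cl v N t.1 t.2 (al v N t.1 t.2)

theorem card_cls (g v N : ℕ) (Q : Finset ℕ) :
    ((cls g v N Q).card : ℝ) ≤ 2 ^ Q.card * (N : ℝ) ^ (2 * (2 * g + 1)) := by
  have h : (cls g v N Q).card ≤ 2 ^ Q.card * N ^ (2 * (2 * g + 1)) := by
    classical
    unfold cls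
    refine (card_filter_le _ _).trans (le_of_eq ?_)
    have e : ((N : ℤ) ^ 2).toNat = N ^ 2 := by exact_mod_cast Int.toNat_natCast (N ^ 2)
    rw [card_product, card_powerset, Fintype.card_piFinset, pow_mul]
    simp [e]
  exact_mod_cast h

theorem prod_dvd {z : ℕ} {S : Finset ℕ} (h : ∀ q ∈ S, q.Prime ∧ q ≤ z) :
    (∏ q ∈ S, q) ∣ primorial z :=
  prod_dvd_prod_of_subset _ _ _ fun q hq =>
    mem_filter.2 ⟨mem_range.2 (Nat.lt_succ_of_le (h q hq).2), (h q hq).1⟩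

theorem cop_of_mz {z m : ℕ} {κ : ℝ} (h : Mz z κ m) : m.Coprime (primorial z) :=
  Nat.coprime_of_dvd fun p hp h1 h2 => (h.2.1 p hp h1).not_ge (hp.dvd_primorial_iff.1 h2)

theorem small (N : ℕ) : ∀ᶠ k : ℕ in atTop, ∀ U m : ℕ, k ≤ U ^ 3 → m ^ 12 ≤ k →
    m * (N ^ 2 * nl k) ≤ U := by
  filter_upwards [ev_log_le ((N : ℝ) ^ 24) 24, eventually_ge_atTop 1] with k h1 h2 U m hU hm
  have a : (N ^ 2 * nl k) ^ 12 ≤ k := by
    have b : ((N : ℝ) ^ 2 * nl k) ^ 12 ≤ ((N : ℝ) ^ 2 * Real.log k ^ 2) ^ 12 := by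
      gcongr
      exact nl_le k
    have c : ((N : ℝ) ^ 2 * Real.log k ^ 2) ^ 12 = (N : ℝ) ^ 24 * Real.log k ^ 24 := by ring
    exact_mod_cast b.trans (c.le.trans h1)
  refine (Nat.pow_le_pow_iff_left (n := 12) (by norm_num)).1 ?_
  calc (m * (N ^ 2 * nl k)) ^ 12 = m ^ 12 * (N ^ 2 * nl k) ^ 12 := mul_pow _ _ _
    _ ≤ k * k := Nat.mul_le_mul hm a
    _ = k ^ 2 := (sq k).symm
    _ ≤ k ^ 4 := Nat.pow_le_pow_right h2 (by norm_num)
    _ ≤ (U ^ 3) ^ 4 := Nat.pow_le_pow_left hU 4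
    _ = U ^ 12 := by ring

/-- the value at a point of the progression -/
theorem val {v N d m a u j : ℕ} {w : Vec g} (hd : d ∣ N) (hm : m.Coprime N)
    (h1 : (d : ℤ) ∣ Gv w a v) (h2 : (m : ℤ) ∣ Gv w u v) (hu : u ≡ a [MOD N ^ 2]) (h0 : 0 < m * d)
    (hp : (co (m * d) w (pu N m u j) v).Prime) :
    Gv w (pu N m u j) v = ((m * d : ℕ) : ℤ) * (co (m * d) w (pu N m u j) v : ℕ) := by
  have e1 : (pu N m u j : ℤ) ≡ u [ZMOD m] := Int.natCast_modEq_iff.2
    ((Nat.ModEq.refl u).add (Nat.modEq_zero_iff_dvd.2 (dvd_mul_right m (N ^ 2 * j))))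
  have e2 : (pu N m u j : ℤ) ≡ a [ZMOD d] := Int.natCast_modEq_iff.2 (by
    have d2 : d ∣ N ^ 2 := hd.trans (dvd_pow_self N two_ne_zero)
    have k : pu N m u j ≡ u + 0 [MOD d] :=
      (Nat.ModEq.refl u).add ((Nat.modEq_zero_iff_dvd).2 ((d2.mul_right j).mul_left m))
    exact k.trans (hu.of_dvd d2))
  have f1 : (m : ℤ) ∣ Gv w (pu N m u j) v :=
    (Int.ModEq.dvd_iff (GeoA.gv_mod v (fun _ => rfl) e1)).2 h2
  have f2 : (d : ℤ) ∣ Gv w (pu N m u j) v :=
    (Int.ModEq.dvd_iff (GeoA.gv_mod v (fun _ => rfl) e2)).2 h1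
  obtain ⟨s, hs⟩ : ((m * d : ℕ) : ℤ) ∣ Gv w (pu N m u j) v := by
    push_cast
    exact (Nat.isCoprime_iff_coprime.2 (hm.coprime_dvd_right hd)).mul_dvd f1 f2
  have e : co (m * d) w (pu N m u j) v = s.toNat := by
    rw [co, hs, Int.mul_ediv_cancel_left _ (by exact_mod_cast h0.ne')]
  rw [e] at hp ⊢
  rw [hs, Int.toNat_of_nonneg]
  by_contra k
  rw [Int.toNat_of_nonpos (not_le.1 k).le] at hp
  exact Nat.not_prime_zero hp

/-- the alternative at one base point -/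
theorem alt (hc : CLSStmt) {v z k U m u : ℕ} {Q : Finset ℕ} {w : Vec g}
    (hQ : ∀ q ∈ Q, q.Prime ∧ q ≤ z) (hm : m.Coprime (primorial z)) (m0 : 0 < m) (hU : U ≤ k)
    (hs : m * (primorial z ^ 2 * nl k) ≤ U) (h : Ok v (primorial z) k U Q m u w) :
    (∃ t ∈ cls g v (primorial z) Q, u ∈ Us (primorial z) (al v (primorial z) t.1 t.2) m U ∧
      Cm v (primorial z) m t.2 u w ∧ Few v (primorial z) (∏ q ∈ t.1, q) m k u w) ∨
    nl k / ((8 * g + 6) * Real.log k) ≤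
      ∑ j ∈ range (nl k), ind (Hit v (primorial z) k m (pu (primorial z) m u j) w) := by
  classical
  obtain ⟨S, hS, h1, h2, h3, h4⟩ := h
  have hN := primorial_pos z
  have hd := prod_dvd fun q hq => hQ q (hS hq)
  by_cases f : Few v (primorial z) (∏ q ∈ S, q) m k u w
  · have n2 : (0 : ℤ) < (primorial z : ℤ) ^ 2 := by positivity
    have c : Cw (primorial z) (fun i => w i % (primorial z : ℤ) ^ 2) w := fun i =>
      Int.dvd_self_sub_emod
    obtain ⟨e1, e2⟩ := hc.2 g v _ S w _ hN hd c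
    refine Or.inl ⟨(S, fun i => w i % (primorial z : ℤ) ^ 2), mem_filter.2 ⟨mem_product.2
      ⟨mem_powerset.2 hS, Fintype.mem_piFinset.2 fun i => mem_Ico.2
        ⟨Int.emod_nonneg _ n2.ne', Int.emod_lt_of_pos _ n2⟩⟩, ?_⟩, ?_, ⟨c, h3⟩, f⟩
    · exact e2 ▸ (e1 _).1 h1
    · exact e2 ▸ h2
  · refine Or.inr ((not_lt.1 f).trans ?_)
    rw [card_eq_sum_ones, Nat.cast_sum, sum_filter]
    refine sum_le_sum fun j hj => ?_
    split_ifs with hp
    · obtain ⟨u1, u2, -⟩ := mem_filter.1 h2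
      have e := val hd hm h1.ad.1 h3 u2 (Nat.mul_pos m0 (Nat.pos_of_dvd_of_pos hd hN)) hp
      have l : pu (primorial z) m u j ≤ 3 * k := by
        have a : m * (primorial z ^ 2 * j) ≤ m * (primorial z ^ 2 * nl k) := by
          gcongr
          exact (mem_range.1 hj).le
        have b := (mem_Ioc.1 u1).2
        unfold pu
        omega
      obtain ⟨b1, b2⟩ := h4 j _ l hp e
      rw [ind_pos ⟨b1, _, _, hd, hp, b2, e⟩, Nat.cast_one]
    · exact ind_nonneg _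

theorem one (hc : CLSStmt) {v z k U m : ℕ} (u : ℕ) {Q : Finset ℕ}
    (hQ : ∀ q ∈ Q, q.Prime ∧ q ≤ z) (hm : m.Coprime (primorial z)) (m0 : 0 < m) (hU : U ≤ k)
    (hs : m * (primorial z ^ 2 * nl k) ≤ U) :
    cnt g k (Ok v (primorial z) k U Q m u) * (nl k / ((8 * g + 6) * Real.log k)) ≤
      (∑ t ∈ cls g v (primorial z) Q, cnt g k fun w =>
        u ∈ Us (primorial z) (al v (primorial z) t.1 t.2) m U ∧
        Cm v (primorial z) m t.2 u w ∧ Few v (primorial z) (∏ q ∈ t.1, q) m k u w) *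
          (nl k / ((8 * g + 6) * Real.log k)) +
      ∑ j ∈ range (nl k), cnt g k (Hit v (primorial z) k m (pu (primorial z) m u j)) := by
  have c0 : 0 ≤ nl k / ((8 * g + 6) * Real.log k) :=
    div_nonneg (Nat.cast_nonneg _) (mul_nonneg (by positivity) (Real.log_natCast_nonneg k))
  have h1 := cnt_le_add (g := g) (k := k) fun w _ h =>
    alt hc hQ hm m0 hU hs (v := v) (u := u) (w := w) h
  have h2 := cnt_le_sum (g := g) (k := k) (cls g v (primorial z) Q) (fun t w =>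
    u ∈ Us (primorial z) (al v (primorial z) t.1 t.2) m U ∧
      Cm v (primorial z) m t.2 u w ∧ Few v (primorial z) (∏ q ∈ t.1, q) m k u w) fun _ _ h => h
  have h3 := cnt_mul_le (g := g) (k := k) (a := nl k / ((8 * g + 6) * Real.log k))
    (F := fun w => ∑ j ∈ range (nl k), ind (Hit v (primorial z) k m (pu (primorial z) m u j) w))
    (fun _ _ => sum_nonneg fun _ _ => ind_nonneg _) fun _ _ h => h
  rw [sum_comm] at h3
  refine (mul_le_mul_of_nonneg_right (h1.trans (add_le_add h2 le_rfl)) c0).trans ?_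
  rw [add_mul]
  exact add_le_add le_rfl h3

theorem sum_us {k N a m U : ℕ} (P : ℕ → Vec g → Prop) :
    ∑ u ∈ Ioc U (2 * U), cnt g k (fun w => u ∈ Us N a m U ∧ P u w) =
      ∑ u ∈ Us N a m U, cnt g k (P u) := by
  refine (sum_subset (filter_subset _ _ : Us N a m U ⊆ Ioc U (2 * U)) fun u _ hu =>
    sum_eq_zero fun w _ => ind_neg fun h => hu h.1).symm.trans ?_
  exact sum_congr rfl fun u hu => sum_congr rfl fun w _ => ind_congr (and_iff_right hu)

end MnyA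

open MnyA in
theorem mny_n : ALLStmt → CLSStmt → BSEStmt → MNYStmt := by
  classical
  intro all hc bse g v hg hv
  obtain ⟨Q, ε, E, hε, hQ, H⟩ := bse g v hg hv
  refine ⟨E, ?_⟩
  have hη : 0 < ε / (2 * 2 ^ Q.card) := by positivity
  have v0 : 0 < v := lt_of_lt_of_le (by positivity) hv.ge
  filter_upwards [H, all g v hg hv _ hη, eventually_ge_atTop (Q.sup id)] with z Hz Az hz
  have hN : (0 : ℝ) < primorial z := by exact_mod_cast primorial_pos z
  have hq : ∀ q ∈ Q, q.Prime ∧ q ≤ z := fun q h => ⟨(hQ q h).1, (le_sup (f := id) h).trans hz⟩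
  refine ⟨ε / (2 * (primorial z : ℝ) ^ 2 * (8 * g + 6)), by positivity, ?_⟩
  have hT := (eventually_all_finset (cls g v (primorial z) Q)).2 fun t ht => by
    obtain ⟨t1, t2⟩ := mem_filter.1 ht
    have hS := mem_powerset.1 (mem_product.1 t1).1
    refine Az (∏ q ∈ t.1, q) (al v (primorial z) t.1 t.2) t.2 (prod_dvd fun q h => hq q (hS h))
      (Nat.Coprime.prod_left fun q h => (hQ q (hS h)).1.coprime_iff_not_dvd.2
        (Nat.not_dvd_of_pos_of_lt v0 (hQ q (hS h)).2)) (fun q h1 h2 => ?_) t2.ad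
    obtain ⟨r, r1, r2⟩ := (h1.prime.dvd_finsetProd_iff _).1 h2
    rw [(Nat.prime_dvd_prime_iff_eq h1 (hQ r (hS r1)).1).1 r2]
    exact t2.nd r r1
  filter_upwards [Hz, hT, small (primorial z)] with k h1 h2 h3 U m hU hm hE h12
  have m0 : 0 < m := Nat.pos_of_ne_zero hm.1.ne_zero
  have m1 : (0 : ℝ) < m := by exact_mod_cast m0
  have hmN := cop_of_mz hm
  have c0 : 0 ≤ nl k / ((8 * g + 6) * Real.log k) :=
    div_nonneg (Nat.cast_nonneg _) (mul_nonneg (by positivity) (Real.log_natCast_nonneg k))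
  have a1 := sum_le_sum fun u (_ : u ∈ Ioc U (2 * U)) =>
    one (g := g) (v := v) hc u hq hmN m0 hU.hi (h3 U m hU.lo h12)
  rw [sum_add_distrib, ← sum_mul, ← sum_mul, sum_comm (t := cls g v (primorial z) Q)] at a1
  have a2 := sum_le_card_nsmul _ _ _ fun t ht =>
    (sum_us _).le.trans (h2 t ht U m hU m0 h12 hmN)
  have r0 : 0 ≤ ε / (2 * 2 ^ Q.card) * rf g k (primorial z) m U := by
    unfold rf vol
    positivity
  rw [nsmul_eq_mul] at a2
  have a3 := a2.trans (mul_le_mul_of_nonneg_right (card_cls g v (primorial z) Q) r0)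
  have e1 : 2 ^ Q.card * (primorial z : ℝ) ^ (2 * (2 * g + 1)) *
      (ε / (2 * 2 ^ Q.card) * rf g k (primorial z) m U) =
      ε * (vol g k * U / (m * (primorial z : ℝ) ^ 2)) / 2 := by
    unfold rf
    field_simp
  have e2 : ε / (2 * (primorial z : ℝ) ^ 2 * (8 * g + 6)) * (vol g k * U / m) *
      (nl k / Real.log k) = ε * (vol g k * U / (m * (primorial z : ℝ) ^ 2)) / 2 *
      (nl k / ((8 * g + 6) * Real.log k)) := by
    rw [div_mul_eq_div_div_swap (nl k : ℝ)]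
    field_simp
  have a4 := mul_le_mul_of_nonneg_right (a3.trans e1.le) c0
  have a5 := mul_le_mul_of_nonneg_right (h1 U m hU hm hE h12) c0
  rw [e2]
  linarith

end Pool.Agent.MP_a43263_nt.N2

end

end PkN2Mny

section PkN2One

/-! THEOREM N2: from a good point to rank two. -/

set_option autoImplicit false

noncomputable section

namespace Pool.Agent.MP_a43263_nt.N2

open Polynomial Finset Filter Matrix JC Pool.Agent.MP_a43263_nt.UV K2

namespace OneA

theorem sqf {S : Finset ℕ} {r : ℕ} (hS : ∀ q ∈ S, q.Prime) (hr : r.Prime) (h : r ∉ S) :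
    Squarefree ((∏ q ∈ S, q) * r) := by
  rw [mul_comm, ← prod_insert (f := fun q => q) h]
  have k : ∀ q ∈ insert r S, q.Prime := fun q hq => (mem_insert.1 hq).elim (· ▸ hr) (hS q)
  refine Finset.squarefree_prod_of_pairwise_isCoprime (fun p hp q hq e => ?_)
    fun p hp => (k p hp).squarefree
  simp only [← Nat.coprime_iff_isRelPrime]
  exact (Nat.coprime_primes (k p hp) (k q hq)).2 e

theorem sqf2 {S : Finset ℕ} {m r : ℕ} (hS : ∀ q ∈ S, q.Prime ∧ ¬q ∣ m) (hr : r.Prime) (h : r ∉ S)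
    (hm : Squarefree m) (h' : ¬r ∣ m) : Squarefree (m * (∏ q ∈ S, q) * r) := by
  rw [mul_assoc]
  refine (Nat.squarefree_mul (Nat.Coprime.mul_right (Nat.Coprime.prod_right fun q hq => ?_)
    ((Nat.Prime.coprime_iff_not_dvd hr).2 h').symm)).2 ⟨hm, sqf (fun q hq => (hS q hq).1) hr h⟩
  exact ((Nat.Prime.coprime_iff_not_dvd (hS q hq).1).2 (hS q hq).2).symm

end OneA

open OneA in
theorem one_n : SIZStmt → MODStmt → TRNStmt → POSStmt → ISOStmt → KILLStmt → INDStmt → FOURStmt →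
    ONEStmt := by
  intro siz md trn pos iso kill ind four g v Q hg pv
  filter_upwards [siz g v hg pv, eventually_ge_atTop ((∏ q ∈ Q, q) ^ 2 + 2)]
    with k hs hD w hw m u a hmk sm gd
  have fam := gd.fam
  have hk : 1 ≤ k := by omega
  obtain ⟨S, hSQ, hS⟩ :=
    kill g (f1 w) Q m a fam.zq fam.ty fam.nx (pos g k w hg hk hw) sm gd.rt gd.str
  refine ⟨S, hSQ, fun x r hx0 hx3 huv d5 hme hr hG => ?_⟩
  obtain ⟨_, hm, _, hirr, _, _, _, _, hsr, _⟩ := trn g w hg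
  obtain ⟨s1, _, s3, s4⟩ := hs w hw x hx3
  have h24 := pv.dv
  have hv : 0 < v := by have := pv.ge; omega
  have hP : 0 < ∏ q ∈ Q, q := prod_pos fun q hq => (fam.ty q hq).1.pos
  have m0 : 0 < m := Nat.pos_of_ne_zero sm.sf.ne_zero
  have m2 : m ^ 2 ≤ k := (Nat.pow_le_pow_right m0 (by norm_num)).trans hmk
  have hd : ∏ q ∈ S, q ≤ ∏ q ∈ Q, q := Nat.le_of_dvd hP (prod_dvd_prod_of_subset _ _ _ hSQ)
  have hd2 : m * ∏ q ∈ S, q ≤ k := by
    have h1 : (∏ q ∈ S, q) ^ 2 ≤ k := (Nat.pow_le_pow_left hd 2).trans (by omega)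
    refine (Nat.pow_le_pow_iff_left two_ne_zero).1 ?_
    rw [mul_pow, sq k]
    exact Nat.mul_le_mul m2 h1
  have hkv : k ^ (4 * g + 2) < (m * ∏ q ∈ S, q) * r := by
    have h1 : 35 * (k * v) ^ (4 * g + 2) ≤ (m * ∏ q ∈ S, q) * r := by
      rw [hG] at s1
      exact_mod_cast s1
    have h2 : k ^ (4 * g + 2) ≤ (k * v) ^ (4 * g + 2) :=
      Nat.pow_le_pow_left (Nat.le_mul_of_pos_right _ hv) _
    have h5 : 0 < k ^ (4 * g + 2) := by positivity
    omega
  have hkr : k ^ (4 * g + 1) < r := by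
    have h6 : k * k ^ (4 * g + 1) < k * r := by
      rw [← pow_succ']
      exact hkv.trans_le (Nat.mul_le_mul_right _ hd2)
    exact lt_of_mul_lt_mul_left h6 (Nat.zero_le _)
  have hkk : k ≤ k ^ (4 * g + 1) := Nat.le_self_pow (by omega) k
  have hrQ : r ∉ Q := fun h => by
    have h1 := Nat.le_of_dvd hP (dvd_prod_of_mem (fun q => q) h)
    have h2 := Nat.le_self_pow two_ne_zero (∏ q ∈ Q, q)
    omega
  have hrm : ¬r ∣ m := fun h => by
    have h1 := Nat.le_of_dvd m0 h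
    have h2 := Nat.le_self_pow two_ne_zero m
    omega
  have hco : IsCoprime (x : ℤ) (v : ℤ) := Nat.isCoprime_iff_coprime.2 huv
  have hx : ¬(r : ℤ) ∣ Gx w x v := fun h => by
    have h1 := (Int.le_of_dvd s3 h).trans s4
    have h2 : r ≤ k ^ (4 * g + 1) := by exact_mod_cast h1
    omega
  have hG0 : Gv w x v ≠ 0 := by
    have : (0 : ℤ) < 35 * ((k : ℤ) * v) ^ (4 * g + 2) := by positivity
    omega
  obtain ⟨hrs, F, κ, cp, hF⟩ := md g w x v hg (by omega) (by omega) hG0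
  have h8 : (8 : ℤ) ∣ (v : ℤ) := by omega
  obtain ⟨i1, i2⟩ := ind g (f1 w) _ fam.zq hm fam.t3
  have n3 : ¬(3 : ℤ) ∣ (x : ℤ) := fun h => by
    have h1 : 3 ∣ Nat.gcd x v := Nat.dvd_gcd (by omega) (by omega)
    rw [huv] at h1
    omega
  have n5 : ¬(5 : ℤ) ∣ (v : ℤ) := fun h => pv.n5 (by omega)
  obtain ⟨i3, i4⟩ := i2 x v _ cp.nm fam.t5 (by omega) n3 n5 d5
  have good := four g (f1 w) F κ x v _ _ fam.zq cp hm i1 i3 i4
    (hS F κ x v _ r cp hco h8 hr (by omega) hrQ hrm hG hme (hsr r x v hr hco hx))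
  have zq := (iso g (f1 w) F κ x v _ fam.zq cp).1
  rw [Int.cast_natCast, Int.cast_natCast] at hrs hF
  refine ⟨⟨hirr fam.zq.irr, (m * ∏ q ∈ S, q) * r, ?_,
    sqf2 (fun q hq => ⟨(fam.ty q (hSQ hq)).1, sm.cop q (hSQ hq)⟩) hr (fun h => hrQ (hSQ h))
      sm.sf hrm, ?_⟩, by omega⟩
  · rw [hrs, hG, Int.cast_mul, Int.cast_natCast, Int.cast_natCast, Nat.cast_mul _ r]
  · rw [← hF]
    exact ⟨zq.monic.map _, by rw [zq.monic.natDegree_map, zq.deg], zq.irr, good⟩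

end Pool.Agent.MP_a43263_nt.N2

end

end PkN2One

section PkN2Pvx

/-! THEOREM N2: the second coordinate exists. -/

set_option autoImplicit false

namespace Pool.Agent.MP_a43263_nt.N2

open Finset

theorem pvx_n : PVXStmt := by
  intro g
  have h5 : Nat.Prime 5 := by norm_num
  have h0 : 0 < ∏ p ∈ (range (4 * g + 3)).filter (fun p => p.Prime ∧ p ≠ 5), p :=
    prod_pos fun p hp => (mem_filter.1 hp).2.1.pos
  refine ⟨24 * 2 ^ g * ∏ p ∈ (range (4 * g + 3)).filter (fun p => p.Prime ∧ p ≠ 5), p,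
    ⟨(dvd_mul_right _ _).mul_right _, fun h => ?_, ?_, fun p hp h1 h2 => ?_⟩⟩
  · rcases (h5.dvd_mul).1 h with h | h
    · rcases (h5.dvd_mul).1 h with h | h
      · norm_num at h
      · exact absurd (h5.dvd_of_dvd_pow h) (by norm_num)
    · obtain ⟨p, hp, h⟩ := (h5.prime.dvd_finsetProd_iff _).1 h
      obtain ⟨-, a, b⟩ := mem_filter.1 hp
      exact b ((Nat.prime_dvd_prime_iff_eq h5 a).1 h).symm
  · exact (Nat.mul_le_mul_left 24 (Nat.succ_le_of_lt Nat.lt_two_pow_self)).trans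
      (Nat.le_mul_of_pos_right _ h0)
  · exact (dvd_prod_of_mem _ (mem_filter.2 ⟨mem_range.2 (by omega), hp, h2⟩)).mul_left _

end Pool.Agent.MP_a43263_nt.N2

end PkN2Pvx

section PkN2Rts

/-! THEOREM N2: the root at the smooth part. -/

set_option autoImplicit false

noncomputable section

namespace Pool.Agent.MP_a43263_nt.N2

open Polynomial Finset Filter Matrix JC Pool.Agent.MP_a43263_nt.UV K2

namespace RtsA

theorem el_eval (u v a : ℤ) : (el u v).eval a = v ^ 2 * (a - 1) + u ^ 2 := by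
  rw [el, eval_add, eval_mul, eval_sub, eval_C, eval_C, eval_X, eval_one]

theorem cast_eval (f : ℤ[X]) (a : ℤ) (R : Type) [CommRing R] :
    ((f.eval a : ℤ) : R) = (zK f R).eval (a : R) :=
  (eval_intCast_map (Int.castRingHom R) f a).symm

theorem gv_eq {g : ℕ} (w : Vec g) (u v : ℤ) {R : Type} [CommRing R] (b : R)
    (h : -(u : R) ^ 2 = (v : R) ^ 2 * b) :
    (Gv w u v : R) = ((v : R) ^ 2) ^ (2 * g + 1) * (zK (pc (sv w)) R).eval b := by
  rw [zK, pc_map, TrnA.pc_eval, Gv, Nat.add_sub_cancel, mul_add, mul_sum]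
  push_cast
  rw [h]
  congr 1
  · ring
  · refine sum_congr rfl fun i _ => ?_
    have hi := i.2
    have h2 : ((v : R) ^ 2) ^ (2 * g + 1) =
        ((v : R) ^ 2) ^ (2 * g - i.1) * ((v : R) ^ 2) ^ (i.1 + 1) := by
      rw [← pow_add]
      congr 1
      omega
    rw [h2, eq_intCast]
    ring

theorem rel {p : ℕ} {u v a : ℤ} (h : (p : ℤ) ∣ (el u v).eval a) :
    -(u : ZMod p) ^ 2 = (v : ZMod p) ^ 2 * ((a : ZMod p) - 1) := by
  rw [el_eval, ← ZMod.intCast_zmod_eq_zero_iff_dvd] at h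
  push_cast at h
  linear_combination -h

end RtsA

open RtsA in
theorem rts_n : RTSStmt := by
  refine ⟨fun g p w u v a hp hv h1 h2 h3 => ?_, fun v Q m u a hQ h h1 => ?_, fun m u v h => ?_⟩
  · have : Fact p.Prime := ⟨hp⟩
    have r := rel h1
    have v0 : (v : ZMod p) ≠ 0 := fun e => hv ((ZMod.intCast_zmod_eq_zero_iff_dvd _ _).1 e)
    refine ⟨?_, fun k => h3 ?_⟩
    · rw [← ZMod.intCast_zmod_eq_zero_iff_dvd, gv_eq w u v _ r] at h2
      rw [← ZMod.intCast_zmod_eq_zero_iff_dvd, cast_eval, TrnA.zK_f1, eval_comp, eval_sub, eval_X,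
        eval_one]
      exact (mul_eq_zero.1 h2).resolve_left (pow_ne_zero _ (pow_ne_zero _ v0))
    · rw [← ZMod.intCast_zmod_eq_zero_iff_dvd, cast_eval, zK, ← derivative_map] at k
      have k' : (derivative (zK (f1 w) (ZMod p))).eval (a : ZMod p) = 0 := k
      rw [TrnA.zK_f1, TrnA.der_eval] at k'
      rw [← ZMod.intCast_zmod_eq_zero_iff_dvd, TrnA.gx_eq w u v _ r, k', mul_zero]
  · have nd : ∀ {p n : ℕ}, p.Prime → m.Coprime n → p ∣ n → ¬p ∣ m := fun hp c a b =>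
      hp.one_lt.ne' (Nat.eq_one_of_dvd_coprimes c b a)
    refine ⟨h.sf, nd Nat.prime_two h.cq (Dvd.dvd.mul_right (by norm_num) _),
      fun q hq => nd (hQ q hq) h.cq (Dvd.dvd.mul_left (dvd_prod_of_mem _ hq) _),
      fun p hp hm => ?_⟩
    have : Fact p.Prime := ⟨hp⟩
    have r := rel ((Int.natCast_dvd_natCast.2 hm).trans h1)
    rw [Int.cast_natCast, Int.cast_natCast] at r
    have u0 : (u : ZMod p) ≠ 0 := fun e =>
      nd hp h.cu (Dvd.dvd.mul_right ((ZMod.natCast_eq_zero_iff _ _).1 e) _) hm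
    have v0 : (v : ZMod p) ≠ 0 := fun e =>
      nd hp h.cu (Dvd.dvd.mul_left ((ZMod.natCast_eq_zero_iff _ _).1 e) _) hm
    refine ⟨⟨(u : ZMod p) / v, ?_⟩, fun k => u0 ?_⟩
    · push_cast
      field_simp
      linear_combination r
    · rw [← ZMod.intCast_zmod_eq_zero_iff_dvd] at k
      push_cast at k
      refine pow_eq_zero_iff two_ne_zero |>.1 ?_
      linear_combination -r + (v : ZMod p) ^ 2 * k
  · obtain ⟨x, y, e⟩ : IsCoprime (m : ℤ) ((v : ℤ) ^ 2) :=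
      (Nat.isCoprime_iff_coprime.2 h).pow_right
    refine ⟨1 - (u : ℤ) ^ 2 * y, (u : ℤ) ^ 2 * x, ?_⟩
    rw [el_eval]
    linear_combination -(u : ℤ) ^ 2 * e

end Pool.Agent.MP_a43263_nt.N2

end

end PkN2Rts

section PkN2Sieve

/-! THEOREM N2: the sieve. -/

set_option autoImplicit false

noncomputable section

namespace Pool.Agent.MP_a43263_nt.N2

open Polynomial Finset Filter Matrix JC Pool.Agent.MP_a43263_nt.UV K2

namespace SieveA

theorem root {r : ℝ} {m k : ℕ} (m0 : 0 < m) (h : m ^ 12 ≤ k) (hr : r ^ 4 ≤ k) :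
    r * m ≤ √(5 * (k : ℝ)) := by
  refine Real.le_sqrt_of_sq_le ?_
  have h1 : (m : ℝ) ^ 4 ≤ k := by
    exact_mod_cast (Nat.pow_le_pow_right m0 (by norm_num)).trans h
  have h2 : (0 : ℝ) ≤ k := k.cast_nonneg
  nlinarith [sq_nonneg (r ^ 2 - (m : ℝ) ^ 2)]

end SieveA

theorem sieve_n : TRNStmt → INDStmt → GCDStmt → K2.BASEStmt → FMStmt → RTSStmt → LOWStmt →
    SIEVEStmt := by
  intro trn ind gcd base fm rts low g v hg
  classical
  obtain ⟨q₀, E, c, c0, hc⟩ := fm g hg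
  obtain ⟨c', c0', hc'⟩ := gcd g hg
  obtain ⟨t, ht⟩ : ∃ t : ℝ, t = 5 ^ (2 * g + 1) ^ 2 := ⟨_, rfl⟩
  obtain ⟨s, hs⟩ : ∃ s : ℝ, s = 30 ^ (2 * g + 1) := ⟨_, rfl⟩
  have t0 : 0 < t := by rw [ht]; positivity
  have s0 : 0 < s := by rw [hs]; positivity
  obtain ⟨N, hN⟩ := exists_pow_lt_of_lt_one (x := 1 / (8 * c * t * s)) (y := (9 / 10 : ℝ))
    (by positivity) (by norm_num)
  obtain ⟨Q, w₀, rfl, i2, t3, t5, hQ⟩ := base g (max q₀ (max 7 (v + 1))) N hg
  have hQ7 : ∀ q ∈ Q, q.Prime ∧ 7 ≤ q := fun q hq =>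
    ⟨(hQ q hq).1, (max_le_iff.1 (max_le_iff.1 (hQ q hq).2.2.1).2).1⟩
  obtain ⟨P, hP⟩ : ∃ P : ℝ, P = (∏ q ∈ Q, (q : ℝ)) ^ (2 * g + 1) := ⟨_, rfl⟩
  have P0 : 0 < P := hP ▸ pow_pos (prod_pos fun q hq => by exact_mod_cast (hQ q hq).1.pos) _
  obtain ⟨r, hr⟩ : ∃ r : ℝ, r = 8 * s * P * c' + 2 := ⟨_, rfl⟩
  have r2 : 0 < 8 * s * P * c' := by positivity
  have k1 := hc Q (f1 w₀) (w₀ (Fin.last _)) (1 / (8 * t * s * P))
    (fun q hq => ⟨(hQ q hq).1, (le_max_left _ _).trans (hQ q hq).2.2.1, (hQ q hq).2.2.2⟩)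
    (by positivity)
  have k2 := low g v Q w₀ hg hQ7
  rw [← hP] at k1
  rw [mul_pow, ← hP, ← hs] at k2
  refine ⟨Q, 1 / 8 / (s * P), E, by positivity, fun q hq =>
    ⟨(hQ q hq).1, (max_le_iff.1 (max_le_iff.1 (hQ q hq).2.2.1).2).2⟩, ?_⟩
  have e : (c * (9 / 10) ^ Q.card / P + 1 / (8 * t * s * P)) * t ≤ 1 / 4 / (s * P) := by
    have e2 : c * (9 / 10) ^ Q.card / P ≤ 1 / (8 * t * s * P) := by
      rw [lt_div_iff₀ (by positivity)] at hN
      rw [div_le_div_iff₀ P0 (by positivity)]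
      nlinarith
    refine (mul_le_mul_of_nonneg_right (add_le_add e2 le_rfl) t0.le).trans_eq ?_
    field_simp
    norm_num
  filter_upwards [(tendsto_natCast_atTop_atTop.const_mul_atTop
    (by norm_num : (0 : ℝ) < 5)).eventually k1, k2, eventually_ge_atTop 1,
    tendsto_natCast_atTop_atTop.eventually (eventually_ge_atTop (r ^ 4))]
    with k h1 h2 h3 hk m u a ms mE m12 ma
  have m0 : 0 < m := Nat.pos_of_ne_zero ms.sf.ne_zero
  have m1 : (1 : ℝ) ≤ m := by exact_mod_cast m0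
  have hM := SieveA.root m0 m12 hk
  replace h1 := h1 m a (rts.2.1 v Q m u a (fun q hq => (hQ q hq).1) ms ma)
    (by have : (m : ℝ) ^ E ≤ k := by exact_mod_cast mE
        linarith [(k.cast_nonneg : (0 : ℝ) ≤ k)]) (ms.sum.trans (by norm_num))
  replace h2 := h2 m u ms m12
  generalize √(5 * (k : ℝ)) = M at hM h1 h2
  have M1 : 2 * (m : ℝ) ≤ M := by nlinarith
  have e' : c' / M ≤ 1 / 8 / (s * P) / m := by
    rw [div_div, div_div, div_le_div_iff₀ (by linarith) (by positivity)]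
    nlinarith
  have v0 : 0 ≤ vol g k := by unfold vol; positivity
  obtain ⟨R, hR⟩ : ∃ R : Vec g → Prop, ∀ w, R w ↔ Fm g Q m a (f1 w) (w (Fin.last _)) ∧
    Rs Q (f1 w₀) (w₀ (Fin.last _)) (f1 w) (w (Fin.last _)) ∧ Rb (5 * k) (f1 w) ∧
    ¬Sqm (zK (f1 w) ℚ) (1 - X) ∧ (¬Str3 Q m a (f1 w) ∨
      ∃ p : ℕ, p.Prime ∧ p ≠ 2 ∧ p ∉ Q ∧ ¬p ∣ m ∧ M ≤ p ∧ Nx p (f1 w)) := ⟨_, fun _ => Iff.rfl⟩
  have h4 := h1 (((bx g k).filter R).image fun w => (f1 w, w (Fin.last _))) fun x hx => by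
    obtain ⟨w, hw, rfl⟩ := mem_image.1 hx
    exact (hR w).1 (mem_filter.1 hw).2
  rw [card_image_of_injective _ fun a b h => (trn g a hg).2.2.2.2.2.2.2.1 b
    (congrArg Prod.fst h) (congrArg Prod.snd h), ← cnt_eq_card, mul_pow, ← ht, ← mul_assoc] at h4
  have h5 : cnt g k R ≤ 1 / 4 / (s * P) * vol g k / m :=
    h4.trans (div_le_div_of_nonneg_right (mul_le_mul_of_nonneg_right e v0) m.cast_nonneg)
  have h6 := (hc' k M h3 (by linarith)).trans ((mul_div_right_comm _ _ _).trans_le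
    (mul_le_mul_of_nonneg_right e' v0))
  have h7 := h2.trans ((cnt_le_add (Q := Gd v Q m u a)
    (R := fun w => (∃ p : ℕ, p.Prime ∧ M ≤ p ∧ (p : ℤ) ∣ w (Fin.last _) ∧
      ∀ i : Fin (2 * g + 1), i.1 + 1 = 2 * g → (p : ℤ) ∣ w i) ∨ R w) ?_).trans
    (add_le_add le_rfl ((cnt_le_add fun _ _ h => h).trans (add_le_add h6 h5))))
  · have : 1 / 2 / (s * P) * vol g k / m = 4 * (1 / 8 / (s * P) * vol g k / m) := by ring
    have : 1 / 4 / (s * P) * vol g k / m = 2 * (1 / 8 / (s * P) * vol g k / m) := by ring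
    have : 1 / 8 / (s * P) / m * vol g k = 1 / 8 / (s * P) * vol g k / m := by ring
    linarith
  rintro w b1 ⟨b2, b0, b3, b4⟩
  obtain ⟨⟨a1, a2⟩, a3, a4, -, -, -, a5, -, -, a6⟩ := trn g w hg
  obtain ⟨-, a7⟩ := a6 k h3 b1
  have y : ∀ q : ℕ, (q ∣ 30 * ∏ q ∈ Q, q) → ∀ i, (w i : ZMod q) = w₀ i := fun q hq i =>
    (ZMod.intCast_eq_intCast_iff _ _ _).2
      (((ZMod.intCast_eq_intCast_iff _ _ _).1 (b2 i)).of_dvd (Int.natCast_dvd_natCast.2 hq))
  have yq : ∀ q ∈ Q, ∀ i, (w i : ZMod q) = w₀ i := fun q hq =>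
    y q ((dvd_prod_of_mem _ hq).mul_left 30)
  have j2 : Irreducible (zK (f1 w) (ZMod 2)) := by
    rw [a5 2 w₀ (y 2 (Dvd.dvd.mul_right (by norm_num) _))]; exact i2
  have hZ : Zq g (f1 w) := ⟨hg, a1, a2, (IsPrimitive.Int.irreducible_iff_irreducible_map_cast
    a1.isPrimitive).1 (a1.irreducible_of_irreducible_map _ _ j2)⟩
  have j3 : Tz 3 1 (f1 w) := by
    rw [Tz, a5 3 w₀ (y 3 (Dvd.dvd.mul_right (by norm_num) _))]; exact t3
  have j5 : Tz 5 0 (f1 w) := by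
    rw [Tz, a5 5 w₀ (y 5 (Dvd.dvd.mul_right (by norm_num) _))]; exact t5
  have ty : ∀ q ∈ Q, Ty q (f1 w) := fun q hq => by
    rw [Ty, a5 q w₀ (yq q hq)]; exact (hQ q hq).2.2.2.1
  have nx0 : ∀ p : ℕ, p.Prime → Nx p (f1 w) → p ≠ 2 ∧ p ∉ Q ∧ ¬p ∣ m ∧ M ≤ p := fun p hp nx => by
    have p2 : p ≠ 2 := fun e => Ev.not_nx j2.squarefree (e ▸ nx)
    have p3 : p ≠ 3 := fun e => K2.SieveA.tz_nx hZ j3 (e ▸ nx)
    have p5 : p ≠ 5 := fun e => have := Fact.mk Nat.prime_five; K2.SieveA.tz_nx hZ j5 (e ▸ nx)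
    have pQ : p ∉ Q := fun e => nxp.2.1 p g _ hp hZ (ty p e) nx
    have p7 : 7 ≤ p := by
      have := hp.two_le
      by_contra d
      obtain rfl | rfl : p = 4 ∨ p = 6 := by omega
      exacts [absurd hp (by norm_num), absurd hp (by norm_num)]
    have pM : M ≤ p := not_lt.1 fun d => b3 p hp p7 pQ d nx
    refine ⟨p2, pQ, fun d => ?_, pM⟩
    have : (p : ℝ) ≤ m := by exact_mod_cast Nat.le_of_dvd m0 d
    linarith
  have rt : ∀ p : ℕ, p.Prime → p ∣ m → Rt p (f1 w) a := fun p hp d =>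
    have d' := Int.natCast_dvd_natCast.2 d
    rts.1 g p w u v a hp (fun q => hp.one_lt.ne' (Nat.eq_one_of_dvd_coprimes ms.cu d
      ((Int.natCast_dvd_natCast.1 q).mul_left u))) (d'.trans ma) (d'.trans b0) (b4 p hp d).2
  have cm : IsCoprime (w (Fin.last _)) (m : ℤ) := by
    by_contra co
    obtain ⟨p, hp, d⟩ := Nat.exists_prime_and_dvd (mt Int.isCoprime_iff_gcd_eq_one.2 co)
    exact (b4 p hp (Int.natCast_dvd_natCast.1
      ((Int.natCast_dvd_natCast.2 d).trans (Int.gcd_dvd_right ..)))).1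
      ((Int.natCast_dvd_natCast.2 d).trans (Int.gcd_dvd_left ..))
  by_cases co : IsCoprime (w (Fin.last _)) ((derivative (f1 w)).eval 1)
  swap
  · obtain ⟨p, hp, d⟩ := Nat.exists_prime_and_dvd (mt Int.isCoprime_iff_gcd_eq_one.2 co)
    have d1 := (Int.natCast_dvd_natCast.2 d).trans (Int.gcd_dvd_left ..)
    have d2 := (Int.natCast_dvd_natCast.2 d).trans (Int.gcd_dvd_right ..)
    exact .inr (.inl ⟨p, hp, (nx0 p hp (K2.SieveA.nx_one a3 d1 d2)).2.2.2, d1,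
      fun i hi => a4 i hi ▸ d2⟩)
  by_cases b : ¬Str3 Q m a (f1 w) ∨
    ∃ p : ℕ, p.Prime ∧ p ≠ 2 ∧ p ∉ Q ∧ ¬p ∣ m ∧ M ≤ p ∧ Nx p (f1 w)
  · exact .inr (.inr ((hR w).2 ⟨⟨hZ, a3, co, cm, fun q hq => ⟨(hQ q hq).1, ty q hq⟩, rt⟩,
      fun q hq => ⟨a5 q w₀ (yq q hq), yq q hq _⟩, a7, (ind g _ _ hZ a3 j3).1, b⟩))
  rw [not_or, not_not] at b
  exact .inl ⟨⟨hZ, fun q hq => ⟨(hQ q hq).1, (hQ q hq).2.1, ty q hq⟩, fun p hp nx =>
    let ⟨e1, e2, e3, e4⟩ := nx0 p hp nx; b.2 ⟨p, hp, e1, e2, e3, e4, nx⟩, j3, j5⟩, b0, rt, b.1⟩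

end Pool.Agent.MP_a43263_nt.N2

end

end PkN2Sieve
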