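import Pool.Agent.MP_a43263_nt.K2.Spec

/-! Packed rows. -/

section PkK2Maj

/-! THEOREM R2: joint majorants of a triple. -/

set_option autoImplicit false

noncomputable section

namespace Pool.Agent.MP_a43263_nt.K2

open Polynomial Finset Filter Matrix JC Pool.Agent.MP_a43263_nt.UV

namespace MajA

open Pool.Agent.MP_a43263_nt.UV.MajA

/-- the majorant attached to a diagonalisation -/
theorem pack {g : ℕ} {A T : Mat g ℤ} {ρ : ℝ} {θ : Fin (2 * g + 1) → ℂ} {P Q : Mat g ℂ}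
    (h : UC.Pair A T) (hθ : Function.Injective θ) (pq : P * Q = 1)
    (e : mK T ℂ * P = P * diagonal θ) (hρ : ∀ i, ‖θ i‖ ≤ ρ) :
    ∃ (a : Fin (2 * g + 1) → ℂ) (H : Mat g ℝ), mK A ℂ = Qᵀ * diagonal a * Q ∧
      Q * mK T ℂ = diagonal θ * Q ∧ Maj ρ (mK A ℝ) (mK T ℝ) H ∧
      ∀ x, x ⬝ᵥ H *ᵥ x = ∑ i, ‖a i‖ * ‖(Q *ᵥ fun i => (x i : ℂ)) i‖ ^ 2 := by
  obtain ⟨hA, hd, hT⟩ := h
  have rr : ∀ M : Mat g ℤ, cj (mK M ℂ) = mK M ℂ := fun M => by
    ext i j
    simp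
  obtain ⟨a, h1, hq, h2⟩ := core (A := mK A ℂ) hθ (hA.map _)
    (by rw [← mK_mul]; exact hT.map _) (rr A) (rr T) pq e
  obtain ⟨K, hK⟩ : ∃ K, K = (cj Q)ᵀ * diagonal (fun i => (‖a i‖ : ℂ)) * Q := ⟨_, rfl⟩
  obtain ⟨h2, h3⟩ := h2 K hK
  have hH : (K.map Complex.re).map Complex.ofRealHom = K := by
    ext i j
    exact Complex.conj_eq_iff_re.1 (congrFun₂ h2 i j)
  have q : ∀ x : Fin (2 * g + 1) → ℝ, x ⬝ᵥ K.map Complex.re *ᵥ x =
      ∑ i, ‖a i‖ * ‖(Q *ᵥ fun i => (x i : ℂ)) i‖ ^ 2 := fun x => by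
    apply Complex.ofReal_injective
    have e1 : ((x ⬝ᵥ K.map Complex.re *ᵥ x : ℝ) : ℂ) =
        (fun i => (x i : ℂ)) ⬝ᵥ K *ᵥ fun i => (x i : ℂ) := by
      conv_rhs => rw [← hH]
      simp [dotProduct, mulVec]
    rw [e1, hK, form]
    push_cast
    refine sum_congr rfl fun i _ => ?_
    have : (cj Q *ᵥ fun i => (x i : ℂ)) i = starRingEnd ℂ ((Q *ᵥ fun i => (x i : ℂ)) i) := by
      simp [dotProduct, mulVec]
    rw [this, ← Complex.conj_mul']
    ring
  have dt : (K.map Complex.re).det = 1 := by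
    apply Complex.ofReal_injective
    have e1 := congrArg (fun M => ‖det M‖) h1
    have e2 : ‖(mK A ℂ).det‖ = 1 := by
      rw [mK_det]
      rcases Int.isUnit_iff.1 hd with c | c <;> simp [c]
    simp only [e2, det_mul, det_transpose, det_diagonal, norm_mul, norm_prod] at e1
    have e3 := (Complex.ofRealHom.map_det (K.map Complex.re)).trans (congrArg det hH)
    have e4 := ((starRingEnd ℂ).map_det Q).symm
    rw [RingHom.mapMatrix_apply] at e4
    refine e3.trans ?_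
    rw [hK, det_mul, det_mul, det_transpose, det_diagonal, e4, mul_right_comm, Complex.conj_mul',
      e1]
    push_cast
    ring
  have sy : (K.map Complex.re).IsHermitian := by
    ext i j
    exact congrArg Complex.re (congrFun₂ h3 i j)
  refine ⟨a, K.map Complex.re, h1, hq, ⟨(PosSemidef.posDef_iff_det_ne_zero
    (.of_dotProduct_mulVec_nonneg sy fun x => ?_)).2 (dt ▸ one_ne_zero), dt.le, fun x y => ?_,
    fun x => ?_⟩, q⟩
  · rw [star_trivial, q]
    positivity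
  · have e1 : ((x ⬝ᵥ mK A ℝ *ᵥ y : ℝ) : ℂ) =
        (fun i => (x i : ℂ)) ⬝ᵥ mK A ℂ *ᵥ fun i => (y i : ℂ) := by
      simp [dotProduct, mulVec]
    rw [← sq_abs, ← Real.norm_eq_abs, ← Complex.norm_real, e1, h1, form, q, q]
    refine (pow_le_pow_left₀ (norm_nonneg _) (norm_sum_le _ _) 2).trans
      (sum_sq_le_sum_mul_sum_of_sq_le_mul _ (fun i _ => by positivity) (fun i _ => by positivity)
        fun i _ => le_of_eq ?_)
    simp only [norm_mul]
    ring
  · have e1 : (fun i => ((mK T ℝ *ᵥ x) i : ℂ)) = mK T ℂ *ᵥ fun i => (x i : ℂ) := by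
      ext i
      simp [dotProduct, mulVec]
    rw [q, q, e1, mulVec_mulVec, hq, ← mulVec_mulVec, mul_sum]
    refine sum_le_sum fun i _ => ?_
    have := pow_le_pow_left₀ (norm_nonneg _) (hρ i) 2
    rw [mulVec_diagonal, norm_mul, mul_pow, mul_left_comm]
    exact mul_le_mul_of_nonneg_right this (by positivity)

theorem intw {n : ℕ} (A A' N : UC.Mz n) : A'⁻¹ * N * Tt A A' N = Tt A' A Nᵀ * (A'⁻¹ * N) := by
  simp only [Tt, transpose_transpose, Matrix.mul_sub, Matrix.sub_mul, Matrix.mul_one, Matrix.one_mul,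
    Matrix.mul_assoc]

theorem pull {n : ℕ} {A' : UC.Mz n} (N : UC.Mz n) (s : A'.IsSymm) (d : IsUnit A'.det) :
    (A'⁻¹ * N)ᵀ * A' * (A'⁻¹ * N) = Nᵀ * A'⁻¹ * N := by
  rw [transpose_mul, transpose_nonsing_inv, s.eq, Matrix.mul_assoc, ← Matrix.mul_assoc A',
    mul_nonsing_inv _ d, Matrix.one_mul]

end MajA

open MajA Pool.Agent.MP_a43263_nt.UV.MajA in
theorem maj_k : CHGStmt → MAJStmt := by
  intro chg g f m A A' N ρ hz hm h hρ
  obtain ⟨h', p1, e1⟩ := chg.2.2.1 _ f m A A' N h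
  obtain ⟨-, p2, -⟩ := chg.2.2.1 _ f m A' A Nᵀ h'
  have i1 := intw A A' N
  have i2 : (A'⁻¹ * N)ᵀ * A' * (A'⁻¹ * N) = A - A * Tt A A' N := by
    rw [pull N h.sa' h.det', e1, sub_sub_cancel]
  have i3 : A' * (A'⁻¹ * N) = N := by
    rw [← Matrix.mul_assoc, mul_nonsing_inv _ h.det', Matrix.one_mul]
  have ch : (mK (Tt A A' N) ℂ).charpoly = zK f ℂ := by rw [charpoly_map, h.ch]
  generalize hT : Tt A A' N = T at p1 i1 i2 ch
  generalize hT' : Tt A' A Nᵀ = T' at p2 i1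
  generalize A'⁻¹ * N = M at i1 i2 i3
  have dM : IsUnit (mK M ℂ).det := by
    rw [mK_det]
    refine isUnit_iff_ne_zero.2 (Int.cast_ne_zero.2 fun z => hm ?_)
    rw [← h.dt, ← i3, det_mul, z, mul_zero]
  obtain ⟨θ, P, Q, hθ, r, pq, e⟩ := diag (mK T ℂ) (ch ▸ (hz.sq ℂ).sep)
  have qp : Q * P = 1 := mul_eq_one_comm.1 pq
  have b := fun i => hρ _ (ch ▸ r i)
  obtain ⟨a, H, a1, a2, a3, a4⟩ := pack p1 hθ pq e fun i => (b i).1
  obtain ⟨a', H', b1, -, b3, b4⟩ := pack (P := mK M ℂ * P) (Q := Q * (mK M ℂ)⁻¹) p2 hθ (by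
    rw [Matrix.mul_assoc, ← Matrix.mul_assoc P, pq, Matrix.one_mul, mul_nonsing_inv _ dM]) (by
    rw [← Matrix.mul_assoc, ← mK_mul, ← i1, mK_mul, Matrix.mul_assoc, e, Matrix.mul_assoc])
    fun i => (b i).1
  have qm : Q * (mK M ℂ)⁻¹ * mK M ℂ = Q := by
    rw [Matrix.mul_assoc, nonsing_inv_mul _ dM, Matrix.mul_one]
  have j2 : (mK M ℂ)ᵀ * mK A' ℂ * mK M ℂ = mK A ℂ - mK A ℂ * mK T ℂ := by
    have := congrArg (fun X : Mat g ℤ => mK X ℂ) i2
    simp only [mK_mul] at this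
    rw [← mK_mul A T]
    exact (this.trans (Matrix.map_sub _ (map_sub _) _ _))
  have j3 : Qᵀ * diagonal a' * Q = Qᵀ * diagonal (fun i => a i * (1 - θ i)) * Q := by
    calc Qᵀ * diagonal a' * Q
        = (Q * (mK M ℂ)⁻¹ * mK M ℂ)ᵀ * diagonal a' * (Q * (mK M ℂ)⁻¹ * mK M ℂ) := by rw [qm]
      _ = (mK M ℂ)ᵀ * mK A' ℂ * mK M ℂ := by
          rw [b1, transpose_mul (Q * _)]
          simp only [Matrix.mul_assoc]
      _ = Qᵀ * (diagonal a - diagonal a * diagonal θ) * Q := by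
          rw [j2, a1, Matrix.mul_assoc _ Q, a2, Matrix.mul_sub, Matrix.sub_mul]
          simp only [Matrix.mul_assoc]
      _ = _ := by
          rw [diagonal_mul_diagonal, diagonal_sub]
          simp only [mul_sub, mul_one]
  have can : ∀ D : Mat g ℂ, Pᵀ * (Qᵀ * D * Q) * P = D := fun D => by
    rw [← Matrix.mul_assoc, ← Matrix.mul_assoc, ← transpose_mul, qp, transpose_one, Matrix.one_mul,
      Matrix.mul_assoc, qp, Matrix.mul_one]
  have j4 : a' = fun i => a i * (1 - θ i) := diagonal_injective (by rw [← can (diagonal a'), j3, can])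
  refine ⟨H, H', hT ▸ a3, hT' ▸ b3, fun x y => ?_⟩
  have k1 : mK N ℝ *ᵥ x = mK A' ℝ *ᵥ (mK M ℝ *ᵥ x) := by rw [mulVec_mulVec, ← mK_mul, i3]
  have k2 : (fun i => ((mK M ℝ *ᵥ x) i : ℂ)) = mK M ℂ *ᵥ fun i => (x i : ℂ) := by
    ext i
    simp [dotProduct, mulVec]
  rw [k1, mul_left_comm]
  refine (b3.cs _ _).trans (mul_le_mul_of_nonneg_left ?_ (by rw [b4]; positivity))
  rw [b4, a4, k2, mulVec_mulVec, qm, mul_sum, j4]
  refine sum_le_sum fun i _ => ?_
  rw [norm_mul, mul_comm ‖a i‖, mul_assoc]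
  exact mul_le_mul_of_nonneg_right (b i).2 (by positivity)

end Pool.Agent.MP_a43263_nt.K2

end

end PkK2Maj

section PkK2Mob

/-! THEOREM R2: passage to the even model. -/

set_option autoImplicit false

noncomputable section

namespace Pool.Agent.MP_a43263_nt.K2

open Polynomial Finset Filter Matrix JC Pool.Agent.MP_a43263_nt.UV

namespace MobA

variable {K : Type} [Field K]

/-- the homogeneous form at `(G, l)` -/
def hm (G : K) (l : K[X]) (e : ℕ) (P : K[X]) : K[X] :=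
  MvPolynomial.aeval ![C G, l] (P.homogenize e)

variable {G : K} {l f F κ : K[X]}

theorem hm_eq (e : ℕ) (P : K[X]) :
    hm G l e P = ∑ i ∈ range (e + 1), C (P.coeff i * G ^ i) * l ^ (e - i) := by
  rw [hm, homogenize, Finset.Nat.sum_antidiagonal_eq_sum_range_succ_mk, map_sum]
  refine sum_congr rfl fun i _ => ?_
  rw [MvPolynomial.aeval_monomial, Finsupp.prod_fintype _ _ (by simp)]
  simp [mul_assoc]

theorem hm_mul {P Q : K[X]} {a b : ℕ} (h : P.natDegree ≤ a) (k : Q.natDegree ≤ b) :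
    hm G l (a + b) (P * Q) = hm G l a P * hm G l b Q := by
  rw [hm, homogenize_mul _ _ h k, map_mul, hm, hm]

theorem hm_add (P Q : K[X]) (a : ℕ) : hm G l a (P + Q) = hm G l a P + hm G l a Q := by
  rw [hm, homogenize_add, map_add, hm, hm]

theorem hm_one (a : ℕ) : hm G l a 1 = l ^ a := by simp [hm]

theorem hm_dvd (h : f ∣ κ * l - C G) {P : K[X]} {e : ℕ} (k : P.natDegree ≤ e) :
    f ∣ l ^ e * P.comp κ - hm G l e P := by
  rw [hm_eq, Polynomial.comp, eval₂_eq_sum_range' _ (Nat.lt_succ_of_le k), mul_sum, ← sum_sub_distrib]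
  refine dvd_sum fun i hi => ?_
  obtain ⟨j, rfl⟩ := Nat.exists_eq_add_of_le (Nat.lt_succ_iff.1 (mem_range.1 hi))
  rw [Nat.add_sub_cancel_left, show l ^ (i + j) * (C (P.coeff i) * κ ^ i) -
    C (P.coeff i * G ^ i) * l ^ j = C (P.coeff i) * l ^ j * ((κ * l) ^ i - C G ^ i) by
      rw [map_mul, map_pow]; ring]
  exact (h.trans (sub_dvd_pow_sub_pow _ _ i)).mul_left _

theorem cop_of {a b : K[X]} (h : IsCoprime a f) (k : f ∣ a - b) : IsCoprime b f := by
  obtain ⟨z, hz⟩ := k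
  rw [show b = a + f * -z by linear_combination -hz]
  exact h.add_mul_left_left _

theorem cop_comp (h : f ∣ F.comp κ) {P : K[X]} (k : IsCoprime P F) : IsCoprime (P.comp κ) f :=
  (show IsCoprime (P.comp κ) (F.comp κ) from k.map (compRingHom κ)).of_isCoprime_of_dvd_right h

theorem core {g : ℕ} {c : K} {δ : K[X]} (hd : F.natDegree = 2 * g + 1) (ka : f ∣ κ * l - C G)
    (mb : hm G l (2 * g + 1) F = C (c ^ 2) * f) (G0 : G ≠ 0) (c0 : c ≠ 0)
    (ker : ∀ P : K[X], F ∣ P → f ∣ P.comp κ) (h : Wt f F κ δ) : Mb f l δ := by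
  obtain ⟨δ', ⟨h1, U, V, s, hU, ⟨U', h2⟩, h3, h4⟩, h5⟩ := h
  rw [C_1, one_mul] at h2
  have hF := ker F dvd_rfl
  have hl : IsCoprime l f := by
    obtain ⟨z, hz⟩ := ka
    refine ⟨C G⁻¹ * κ, -(C G⁻¹ * z), ?_⟩
    have : C G⁻¹ * C G = (1 : K[X]) := by rw [← map_mul, inv_mul_cancel₀ G0, map_one]
    linear_combination this + C G⁻¹ * hz
  obtain ⟨d, hd'⟩ : ∃ d, d = U.natDegree := ⟨_, rfl⟩
  obtain ⟨t, ht⟩ : ∃ t, t = V.natDegree := ⟨_, rfl⟩
  rw [← hd'] at h4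
  have dU : U'.natDegree ≤ 2 * t + d + 2 * g + 2 := by
    by_cases e : U' = 0
    · simp [e]
    have a1 := hU.natDegree_mul' e
    have a2 := natDegree_sub_le F (V ^ 2)
    rw [h2, a1, natDegree_pow, hd, ← ht] at a2
    omega
  have e1 : hm G l (2 * (t + d) + 1 + (2 * g + 1)) (1 * F) = l ^ (2 * (t + d) + 1) * (C (c ^ 2) * f) := by
    rw [hm_mul (by simp) hd.le, hm_one, mb]
  have e2 : hm G l (2 * (t + d) + 1 + (2 * g + 1)) (1 * F) = hm G l (t + d + g + 1) V ^ 2 +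
      hm G l d U * hm G l (2 * t + d + 2 * g + 2) U' := by
    rw [show 1 * F = V * V + U * U' by linear_combination h2, hm_add, sq,
      ← hm_mul (by omega) (by omega), ← hm_mul hd'.ge dU]
    congr 2 <;> omega
  have e3 := hm_dvd (P := U) ka hd'.ge
  have ci : C c⁻¹ * C c = (1 : K[X]) := by rw [← map_mul, inv_mul_cancel₀ c0, map_one]
  refine ⟨cop_of (cop_comp hF h1) (dvd_sub_comm.1 h5), hm G l d U, C c⁻¹ * hm G l (t + d + g + 1) V,
    C c⁻¹ ^ 2 * hm G l (2 * t + d + 2 * g + 2) U', l ^ d * s.comp κ, t + d, d, ?_,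
    cop_of (hl.pow_left.mul_left (cop_comp hF h3)) e3, ?_⟩
  · rw [e2, map_pow] at e1
    linear_combination (-C c⁻¹ ^ 2) * e1 - l ^ (2 * (t + d) + 1) * f * (C c⁻¹ * C c + 1) * ci
  · obtain ⟨x, hx⟩ := ker _ h4
    obtain ⟨y, hy⟩ := h5
    obtain ⟨z, hz⟩ := e3
    simp only [sub_comp, mul_comp, pow_comp, map_pow, map_neg, map_one, neg_comp,
      one_comp] at hx
    refine ⟨l ^ d * l ^ d * x + (-l) ^ d * (y * hm G l d U - δ'.comp κ * z), ?_⟩
    rw [neg_pow l]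
    linear_combination l ^ d * l ^ d * hx + (-1) ^ d * l ^ d * hm G l d U * hy -
      (-1) ^ d * l ^ d * δ'.comp κ * hz

end MobA

open MobA in
theorem mob_k : ISOStmt → MOBStmt := by
  intro iso g f F κ u v G hf hc K _ _ δ h
  have G0 : (G : K) ≠ 0 := Int.cast_ne_zero.2 hc.G0
  have v0 : (v : K) ≠ 0 := Int.cast_ne_zero.2 hc.v0
  refine core (g := g) (G := (G : K)) (c := (G : K) ^ g * (v : K) ^ (2 * g + 1))
    (by rw [hc.mo.natDegree_map, hc.dg]) ?_ ?_ G0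
    (mul_ne_zero (pow_ne_zero _ G0) (pow_ne_zero _ v0))
    (fun P => (((iso g f F κ u v G hf hc).2 K).ker P).2) h
  · simpa using Polynomial.map_dvd (Int.castRingHom K) hc.ka
  · have := congrArg (Polynomial.map (Int.castRingHom K)) hc.mb
    simp only [Polynomial.map_sum, Polynomial.map_mul, Polynomial.map_pow, map_C] at this
    rw [hm_eq, show ((G : K) ^ g * (v : K) ^ (2 * g + 1)) ^ 2 =
      Int.castRingHom K (G ^ (2 * g) * v ^ (4 * g + 2)) by simp; ring, ← this]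
    exact sum_congr rfl fun i _ => by simp

end Pool.Agent.MP_a43263_nt.K2

end

end PkK2Mob

section PkK2Mod

/-! THEOREM R2: the companion exists. -/

set_option autoImplicit false

noncomputable section

namespace Pool.Agent.MP_a43263_nt.K2

open Polynomial Finset Filter Matrix JC Pool.Agent.MP_a43263_nt.UV

namespace ModA

/-- the polynomial of the moving branch point -/
def fh (f : ℤ[X]) (u v : ℤ) : ℤ[X] := (scaleRoots f (v ^ 2)).comp (X - C (u ^ 2))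

variable {f : ℤ[X]} {u v G : ℤ} {n : ℕ}

theorem fh_deg : (fh f u v).natDegree = f.natDegree := by
  rw [fh, natDegree_comp, natDegree_scaleRoots, natDegree_X_sub_C, mul_one]

theorem fh_ev {R : Type} [CommRing R] (φ : ℤ →+* R) (y : R) : (fh f u v).eval₂ φ y =
    ∑ k ∈ range (f.natDegree + 1),
      φ (f.coeff k) * (y - φ u ^ 2) ^ k * (φ v ^ 2) ^ (f.natDegree - k) := by
  rw [fh, eval₂_comp, eval₂_eq_sum_range, natDegree_scaleRoots]
  refine sum_congr rfl fun k _ => ?_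
  rw [coeff_scaleRoots, eval₂_sub, eval₂_X, eval₂_C, map_mul, map_pow, map_pow, map_pow]
  ring

theorem fh_el : (fh f u v).comp (el u v) = C (v ^ 2) ^ f.natDegree * f.comp (X - 1) := by
  rw [fh, comp_assoc, sub_comp, X_comp, C_comp, el, add_sub_cancel_right]
  exact scaleRoots_eval₂_mul C (X - 1) (v ^ 2)

/-- the odd model -/
def md (n : ℕ) (h : ℤ[X]) (G : ℤ) : ℤ[X] := pc fun j : Fin (n + 1) => h.coeff (j + 1) * G ^ j.1

theorem md_coeff {h : ℤ[X]} (h0 : h.coeff 0 = G) {j : ℕ} (hj : j ≤ n + 1) :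
    (md n h G).coeff (n + 1 - j) * G ^ (n + 1 - j) = h.coeff j * G ^ n := by
  rcases j with _ | j
  · have := (pc_monic fun j : Fin (n + 1) => h.coeff (j + 1) * G ^ j.1).coeff_natDegree
    rw [pc_deg] at this
    rw [Nat.sub_zero, md, this, h0, one_mul, pow_succ']
  · have := Beta.pc_coeff (fun j : Fin (n + 1) => h.coeff (j + 1) * G ^ j.1) ⟨j, by omega⟩
    rw [show n + 1 - (j + 1) = n + 1 - 1 - j by omega, md, this, mul_assoc, ← pow_add,
      show j + (n + 1 - 1 - j) = n by omega]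

theorem hom {h : ℤ[X]} (h0 : h.coeff 0 = G) (hd : h.natDegree = n + 1) {R : Type} [CommRing R]
    (φ : ℤ →+* R) (y : R) :
    ∑ i ∈ range (n + 2), φ ((md n h G).coeff i * G ^ i) * y ^ (n + 1 - i) =
      φ G ^ n * h.eval₂ φ y := by
  rw [← sum_range_reflect, eval₂_eq_sum_range, hd, mul_sum]
  refine sum_congr rfl fun j hj => ?_
  have := mem_range.1 hj
  rw [show n + 2 - 1 - j = n + 1 - j by omega, md_coeff h0 (by omega),
    show n + 1 - (n + 1 - j) = j by omega, map_mul, map_pow]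
  ring

theorem gv {g : ℕ} (w : Vec g) (u v : ℤ) : (fh (pc (sv w)) u v).coeff 0 = Gv w u v := by
  have m := (pc_monic (sv w)).coeff_natDegree
  rw [coeff_zero_eq_eval_zero, eval, fh_ev, pc_deg] at *
  rw [sum_range_succ, m, ← sum_range_reflect, ← Fin.sum_univ_eq_sum_range
    (fun j => RingHom.id ℤ ((pc (sv w)).coeff (2 * g + 1 - 1 - j)) *
      (0 - RingHom.id ℤ u ^ 2) ^ (2 * g + 1 - 1 - j) *
        (RingHom.id ℤ v ^ 2) ^ (2 * g + 1 - (2 * g + 1 - 1 - j))), Gv, add_comm]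
  congr 1
  · simp
  · refine sum_congr rfl fun i _ => ?_
    have := i.2
    rw [Beta.pc_coeff, show 2 * g + 1 - (2 * g + 1 - 1 - i.1) = i.1 + 1 by omega]
    simp

theorem nm (hf : f.Monic) (hv : v ≠ 0) :
    Nm (f.comp (X - 1)) (-el u v) = (fh f u v).coeff 0 := by
  have h1 : (f.comp (X - 1)).Monic := by simpa using hf.comp_X_sub_C 1
  have d1 : (f.comp (X - 1)).natDegree = f.natDegree := by
    rw [natDegree_comp, ← C_1, natDegree_X_sub_C, mul_one]
  have v0 : (v : ℚ) ≠ 0 := Int.cast_ne_zero.2 hv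
  have hq := h1.map (Int.castRingHom ℚ)
  have dq := (h1.natDegree_map (Int.castRingHom ℚ)).trans d1
  obtain ⟨g1, -, g3, -⟩ := gram.1 ℚ _ hq
  have e : (-el u v).map (Int.castRingHom ℚ) =
      C (-(v : ℚ) ^ 2) * (X - C (1 - (u : ℚ) ^ 2 / v ^ 2)) := by
    have : C ((v : ℚ) ^ 2) * C ((u : ℚ) ^ 2 / v ^ 2) = C ((u : ℚ) ^ 2) := by
      rw [← C_mul, mul_div_cancel₀ _ (pow_ne_zero 2 v0)]
    rw [el, Polynomial.map_neg, Polynomial.map_add, Polynomial.map_mul, Polynomial.map_sub,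
      map_C, map_C, map_X, Polynomial.map_one, map_pow (Int.castRingHom ℚ),
      map_pow (Int.castRingHom ℚ), eq_intCast (Int.castRingHom ℚ), eq_intCast (Int.castRingHom ℚ),
      C_neg, C_sub, C_1]
    linear_combination this
  have k := congrArg (eval₂ (Int.castRingHom ℚ) (1 - (u : ℚ) ^ 2 / v ^ 2))
    (fh_el (f := f) (u := u) (v := v))
  have z : eval₂ (Int.castRingHom ℚ) (1 - (u : ℚ) ^ 2 / v ^ 2) (el u v) = 0 := by
    rw [el, eval₂_add, eval₂_mul, eval₂_sub, eval₂_C, eval₂_C, eval₂_X, eval₂_one]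
    simp only [map_pow, eq_intCast]
    field_simp
    ring
  rw [eval₂_comp, z, eval₂_at_zero, eval₂_mul, eval₂_pow, eval₂_C] at k
  refine (Int.castRingHom ℚ).injective_int ?_
  rw [← Gram.nm_map h1, e, g1, g3, Nm, natDegree_X_sub_C, resultant_X_sub_C_right _ _ _ le_rfl, dq,
    k, eval_map, ← mul_assoc, ← mul_pow]
  simp

theorem a1 (N i : ℕ) (h : i ≤ N) (c G : ℚ) {x : ℚ} (hx : x ≠ 0) :
    G ^ N * (c * x ^ i) = c * G ^ i * (G / x) ^ (N - i) * x ^ N := by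
  obtain ⟨j, rfl⟩ := Nat.exists_eq_add_of_le h
  rw [Nat.add_sub_cancel_left, div_pow]
  field_simp
  ring

theorem a2 (N i : ℕ) (h : i ≤ N) (c G a b : ℚ) {x : ℚ} (hx : x ≠ 0) :
    c * (G / x - a) ^ i * b ^ (N - i) * x ^ N = c * (G - a * x) ^ i * (b * x) ^ (N - i) := by
  obtain ⟨j, rfl⟩ := Nat.exists_eq_add_of_le h
  rw [Nat.add_sub_cancel_left, show G - a * x = (G / x - a) * x by field_simp, mul_pow,
    mul_pow]
  ring

end ModA

open ModA in
theorem mod_k : MODStmt := by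
  intro g w u v hg hu hv hG
  have h0 := gv w u v
  have d := pc_deg (sv w)
  have m := pc_monic (sv w)
  have hd : (fh (pc (sv w)) u v).natDegree = 2 * g + 1 := fh_deg.trans d
  have ev : ∀ y : ℚ, (fh (pc (sv w)) u v).eval₂ (Int.castRingHom ℚ) y =
      ∑ k ∈ range (2 * g + 2), (zK (pc (sv w)) ℚ).coeff k * (y - (u : ℚ) ^ 2) ^ k *
        ((v : ℚ) ^ 2) ^ (2 * g + 1 - k) := fun y => by
    rw [fh_ev, d]
    simp only [coeff_map, eq_intCast]
  have r : rs g (zK (pc (sv w)) ℚ) u v = (Gv w u v : ℤ) := by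
    have := ev 0
    rw [eval₂_at_zero, h0, zero_sub] at this
    exact this.symm
  have c := fh_el (f := pc (sv w)) (u := u) (v := v)
  rw [d] at c
  refine ⟨r, md (2 * g) (fh (pc (sv w)) u v) (Gv w u v), -(divX (fh (pc (sv w)) u v)).comp (el u v),
    ⟨pc_monic _, pc_deg _, ⟨-C (v ^ 2) ^ (2 * g + 1), ?_⟩, ?_, (nm m hv).trans h0, hG, hu, hv⟩, ?_⟩
  · rw [← divX_mul_X_add (fh (pc (sv w)) u v), add_comp, mul_comp, X_comp, C_comp, h0] at c
    rw [f1]
    linear_combination -c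
  · rw [hom h0 hd C (el u v), ← Polynomial.comp, c, f1, C_mul, C_pow, C_pow, C_pow, ← pow_mul,
      show 2 * (2 * g + 1) = 4 * g + 2 by ring, mul_assoc]
  · have G0 : ((Gv w u v : ℤ) : ℚ) ≠ 0 := Int.cast_ne_zero.2 hG
    refine eq_of_infinite_eval_eq _ _ ((Set.finite_singleton (0 : ℚ)).infinite_compl.mono
      fun x (hx : x ≠ 0) => ?_)
    have k := hom h0 hd (Int.castRingHom ℚ) ((Gv w u v : ℤ) / x)
    have dm : (md (2 * g) (fh (pc (sv w)) u v) (Gv w u v)).natDegree = 2 * g + 1 := pc_deg _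
    rw [ev, mul_sum] at k
    change eval x _ = eval x _
    rw [od, r, eval_mul, eval_C, eval_finsetSum, eval_map, eval₂_eq_sum_range, dm,
      eq_inv_mul_iff_mul_eq₀ G0]
    refine mul_left_cancel₀ (pow_ne_zero (2 * g) G0) ?_
    have k' := congrArg (· * x ^ (2 * g + 1)) k
    simp only [sum_mul] at k'
    rw [mul_sum, mul_sum, mul_sum]
    refine Eq.trans (sum_congr rfl fun i hi => ?_) (k'.trans (sum_congr rfl fun i hi => ?_))
    · rw [← mul_assoc, ← pow_succ, map_mul, map_pow, eq_intCast, eq_intCast]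
      exact a1 _ _ (Nat.lt_succ_iff.1 (mem_range.1 hi)) _ _ hx
    · simp only [eval_mul, eval_pow, eval_sub, eval_C, eval_X, eq_intCast]
      rw [mul_assoc, a2 _ _ (Nat.lt_succ_iff.1 (mem_range.1 hi)) _ _ _ _ hx]

end Pool.Agent.MP_a43263_nt.K2

end

end PkK2Mod

section PkK2Ns

/-! THEOREM R2, rows NS and IND: nonsquares from a simple root. -/

set_option autoImplicit false

noncomputable section

namespace Pool.Agent.MP_a43263_nt.K2

open Polynomial Finset Filter Matrix JC Pool.Agent.MP_a43263_nt.UV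

namespace NsA

theorem rq_at {p : ℕ} [Fact p.Prime] (r : ℤ_[p][X]) {a : ℤ_[p]} (ha : PadicInt.toZMod a = 1) :
    (rq p r).eval 1 = PadicInt.toZMod (r.eval a) := by
  rw [← ha, eval_map, eval₂_at_apply]

theorem of_sq {K : Type} [Field K] {c x : K} (hc : c ≠ 0) (h : IsSquare (c ^ 2 * x)) :
    IsSquare x := by
  obtain ⟨y, hy⟩ := h
  refine ⟨y / c, ?_⟩
  field_simp
  linear_combination hy

theorem el_map (u v : ℤ) (R : Type) [CommRing R] :
    zK (el u v) R = C ((v : R) ^ 2) * (X - 1) + C ((u : R) ^ 2) := by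
  simp [zK, el]

theorem be_one (u v G : ℤ) (R : Type) [CommRing R] :
    (zK (be u v G) R).eval 1 = -(G : R) * (u : R) ^ 2 := by
  simp [zK, be, el]

theorem nm_red {g : ℕ} {f : ℤ[X]} (hz : Zq g f) {u v G : ℤ} (h : Nm f (-el u v) = G) (R : Type)
    [CommRing R] : (G : R) = Nm (zK f R) (-(C ((v : R) ^ 2) * (X - 1) + C ((u : R) ^ 2))) := by
  rw [← el_map, ← Polynomial.map_neg, (gram.1 ℤ f hz.monic).2.2.2.2.2, h]
  rfl

end NsA

open NsA in
theorem ns_k : NSStmt := by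
  intro p _ g f P h₀ m j h2 Z e hi hm hs ⟨z, y, hy⟩
  have hd : h₀.natDegree = 2 * g := by
    have e1 := Z.dg (ZMod p)
    rw [e, ← C_1, natDegree_mul (X_sub_C_ne_zero 1) hi.ne_zero, natDegree_X_sub_C] at e1
    omega
  have hne : h₀.eval 1 ≠ 0 := fun c => by
    have e1 := degree_eq_one_of_irreducible_of_root hi c
    have e2 : h₀.natDegree = 1 := natDegree_eq_of_degree_eq_some e1
    have := Z.pos
    omega
  have hm0 : m ≠ 0 := fun c => by
    have e0 : (zK f ℚ).IsRoot 1 := by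
      have : (zK f ℚ).eval ((Int.castRingHom ℚ) 1) = (Int.castRingHom ℚ) (f.eval 1) := by
        rw [eval_map, eval₂_at_apply]
      rw [hm, c] at this
      simpa using this
    have e1 := degree_eq_one_of_irreducible_of_root Z.irr e0
    have e2 : (zK f ℚ).natDegree = 1 := natDegree_eq_of_degree_eq_some e1
    have := Z.pos
    have := Z.dg ℚ
    omega
  have rz : ∀ Q : ℤ[X], rq p (zK Q ℤ_[p]) = zK Q (ZMod p) := fun Q => zK_map Q _
  have a1 : ‖(zK f ℤ_[p]).eval 1‖ < 1 := by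
    rw [← Cmp.zero_iff, ← rq_at _ (map_one _), rz, e]
    simp
  have a2 : ‖(zK f ℤ_[p]).derivative.eval 1‖ = 1 := by
    rw [← PadicInt.isUnit_iff, Cmp.unit_iff, ← rq_at _ (map_one _), rq, ← derivative_map, ← rq,
      rz, e]
    simpa using hne
  obtain ⟨a, b1, b2, -⟩ := hensels_lemma (F := zK f ℤ_[p]) (a := (1 : ℤ_[p]))
    (by rw [coe_aeval_eq_eval, a2, one_pow]; exact a1)
  rw [coe_aeval_eq_eval] at b1 b2
  rw [a2, ← Cmp.zero_iff, map_sub, map_one, sub_eq_zero] at b2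
  obtain ⟨h, hh⟩ := (dvd_iff_isRoot (p := zK f ℤ_[p]) (a := a)).2 b1
  have e2 : rq p h = h₀ := by
    rw [← rz, hh, rq, Polynomial.map_mul, Polynomial.map_sub, map_X, map_C, b2] at e
    exact mul_left_cancel₀ (X_sub_C_ne_zero 1) e
  have e3 : (m : ℤ_[p]) ^ 2 = (1 - a) * h.eval 1 := by
    have : (zK f ℤ_[p]).eval ((Int.castRingHom ℤ_[p]) 1) = (Int.castRingHom ℤ_[p]) (f.eval 1) := by
      rw [eval_map, eval₂_at_apply]
    rw [hm, hh] at this
    simpa using this.symm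
  have e4 : PadicInt.toZMod ((zK P ℤ_[p]).eval a * h.eval 1 ^ j) =
      (zK P (ZMod p)).eval 1 * h₀.eval 1 ^ j := by
    rw [map_mul, map_pow, ← rq_at _ b2, ← rq_at _ (map_one _), rz, e2]
  have hu : IsUnit ((zK P ℤ_[p]).eval a * h.eval 1 ^ j) :=
    Cmp.unit_iff.2 fun c => hs (by rw [← e4, c]; exact IsSquare.zero)
  refine hs (e4 ▸ (Pad.sq_iff h2 _ hu).1 ?_)
  have iz : ∀ Q : ℤ[X], (fK (zK Q ℚ) ℚ_[p]).eval (a : ℚ_[p]) =
      (((zK Q ℤ_[p]).eval a : ℤ_[p]) : ℚ_[p]) := fun Q => by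
    rw [fK_zK, ← Cmp.iq_eval, iq, zK_map]
  have e5 := congrArg (fun Q => (fK Q ℚ_[p]).eval (a : ℚ_[p])) hy
  simp only [fK, Polynomial.map_sub, Polynomial.map_mul, Polynomial.map_pow, Polynomial.map_one,
    map_X, eval_sub, eval_mul, eval_pow, eval_one, eval_X] at e5
  rw [iz P, iz f, b1, PadicInt.coe_zero, zero_mul, sub_eq_zero] at e5
  have e6 : (m : ℚ_[p]) ^ 2 = (1 - (a : ℚ_[p])) * ((h.eval 1 : ℤ_[p]) : ℚ_[p]) := by
    exact_mod_cast congrArg (fun x : ℤ_[p] => (x : ℚ_[p])) e3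
  refine of_sq (c := (m : ℚ_[p]) ^ j) (pow_ne_zero _ (Int.cast_ne_zero.2 hm0))
    ⟨(z.map (Rat.castHom ℚ_[p])).eval (a : ℚ_[p]) * ((h.eval 1 : ℤ_[p]) : ℚ_[p]) ^ j, ?_⟩
  rw [← pow_mul, mul_comm j, pow_mul, e6, mul_pow, PadicInt.coe_mul, PadicInt.coe_pow]
  linear_combination (((h.eval 1 : ℤ_[p]) : ℚ_[p]) ^ j) ^ 2 * e5

open NsA in
theorem ind_k : NSStmt → INDStmt := by
  intro ns g f m Z hm ⟨h₃, e₃, i₃, s₃⟩
  have : Fact (Nat.Prime 5) := ⟨by norm_num⟩
  refine ⟨by simpa using ns 3 g f 1 h₃ m 1 (by norm_num) Z e₃ i₃ hm (by simpa using s₃),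
    fun u v G hG ⟨h₅, e₅, i₅, s₅⟩ v3 u3 v5 uv => ⟨?_, ?_⟩⟩
  · have hv : (v : ZMod 5) ≠ 0 := fun c => v5 ((ZMod.intCast_zmod_eq_zero_iff_dvd v 5).1 c)
    have huv : (u : ZMod 5) = v := by
      have := (ZMod.intCast_zmod_eq_zero_iff_dvd (u - v) 5).2 uv
      rwa [Int.cast_sub, sub_eq_zero] at this
    obtain ⟨n1, -, n3, -⟩ := gram.1 (ZMod 5) _ (Z.mo _)
    have hX : Nm (zK f (ZMod 5)) X = h₅.eval 0 := by
      have := resultant_X_sub_C_right (zK f (ZMod 5)) _ 0 le_rfl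
      rw [C_0, sub_zero] at this
      rw [Nm, natDegree_X, this, Z.dg, e₅, pow_succ, pow_mul]
      simp
    have hG' := nm_red Z hG (ZMod 5)
    rw [huv, show -(C ((v : ZMod 5) ^ 2) * (X - 1) + C ((v : ZMod 5) ^ 2)) =
      C (-(v : ZMod 5) ^ 2) * X by rw [C_neg]; ring, n1, n3, hX, Z.dg] at hG'
    simpa using ns 5 g f (be u v G) h₅ m 0 (by norm_num) Z e₅ i₅ hm fun c => s₅ (by
      refine of_sq (c := (v : ZMod 5) ^ (2 * g + 2)) (pow_ne_zero _ hv) ?_
      rw [be_one, hG', huv, (odd_two_mul_add_one g).neg_pow] at c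
      convert c using 1
      ring)
  · have hv : (v : ZMod 3) = 0 := (ZMod.intCast_zmod_eq_zero_iff_dvd v 3).2 v3
    have hu : (u : ZMod 3) ≠ 0 := fun c => u3 ((ZMod.intCast_zmod_eq_zero_iff_dvd u 3).1 c)
    obtain ⟨-, -, n3, -⟩ := gram.1 (ZMod 3) _ (Z.mo _)
    have hG' := nm_red Z hG (ZMod 3)
    rw [hv, zero_pow two_ne_zero, C_0, zero_mul, zero_add, ← C_neg, n3, Z.dg] at hG'
    simpa using ns 3 g f (be u v G) h₃ m 1 (by norm_num) Z e₃ i₃ hm fun c => s₃ (by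
      refine of_sq (c := (u : ZMod 3) ^ (2 * g + 2)) (pow_ne_zero _ hu) ?_
      rw [be_one, hG', (odd_two_mul_add_one g).neg_pow] at c
      convert c using 1
      ring)

end Pool.Agent.MP_a43263_nt.K2

end

end PkK2Ns

section PkK2Pos

/-! THEOREM R2: the polynomials of the box are increasing. -/

set_option autoImplicit false

noncomputable section

namespace Pool.Agent.MP_a43263_nt.K2

open Polynomial Finset Filter Matrix JC Pool.Agent.MP_a43263_nt.UV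

namespace PosA

/-- the lower bound for one term of the derivative -/
def lo (K a : ℝ) (g i : ℕ) : ℝ :=
  ((2 * g - i : ℕ) : ℝ) * ((if Odd i then 6 else -1) * K ^ (i + 1) * a ^ (2 * g - i - 1))

theorem alt {K a : ℝ} (hK : 0 < K) (ha : 0 ≤ a) (g : ℕ) :
    0 < (g + 1) * a ^ (2 * g) + ∑ i ∈ range (2 * g + 1), lo K a g i := by
  induction g with
  | zero => simp [lo]
  | succ g ih =>
    have e : ∀ i, lo K a (g + 1) (i + 1 + 1) = K ^ 2 * lo K a g i := fun i => by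
      have h1 : 2 * (g + 1) - (i + 1 + 1) = 2 * g - i := by omega
      have h2 : Odd (i + 1 + 1) ↔ Odd i := by simp only [Nat.odd_iff]; omega
      simp only [lo, h1, h2]
      ring
    have e0 : lo K a (g + 1) 0 = -((2 * g + 2) * K * (a ^ (2 * g) * a)) := by
      have h1 : 2 * (g + 1) - 0 - 1 = 2 * g + 1 := by omega
      rw [lo, h1, if_neg (by decide), Nat.sub_zero]
      push_cast
      ring
    have e1 : lo K a (g + 1) (0 + 1) = (2 * g + 1) * 6 * K ^ 2 * a ^ (2 * g) := by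
      have h1 : 2 * (g + 1) - (0 + 1) = 2 * g + 1 := by omega
      rw [lo, h1, if_pos (by decide), Nat.add_sub_cancel]
      push_cast
      ring
    rw [show 2 * (g + 1) + 1 = 2 * g + 1 + 1 + 1 by ring, sum_range_succ', sum_range_succ', e0, e1,
      sum_congr rfl fun i _ => e i, ← mul_sum, show a ^ (2 * (g + 1)) = a ^ (2 * g) * a ^ 2 by ring]
    have h1 := mul_pos (pow_pos hK 2) ih
    have g0 : (0 : ℝ) ≤ g := Nat.cast_nonneg g
    have h2 : 0 ≤ (11 * g + 5) * K ^ 2 - (2 * g + 2) * K * a + (g + 2) * a ^ 2 := by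
      nlinarith [mul_nonneg g0 (sq_nonneg (K - a)), sq_nonneg (K - a), mul_nonneg g0 (sq_nonneg K),
        sq_nonneg K, sq_nonneg a]
    have h3 := mul_nonneg (pow_nonneg ha (2 * g)) h2
    push_cast
    nlinarith

theorem der {g : ℕ} (w : Vec g) (x : ℝ) : (derivative (zK (f1 w) ℝ)).eval x =
    (2 * g + 1) * (x - 1) ^ (2 * g) + ∑ i : Fin (2 * g + 1),
      ((2 * g - i.1 : ℕ) : ℝ) * ((sv w i : ℤ) * (x - 1) ^ (2 * g - i.1 - 1)) := by
  rw [f1, zK, Polynomial.map_comp, pc_map, derivative_comp]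
  simp only [pc, Polynomial.map_sub, map_X, Polynomial.map_one, derivative_sub, derivative_X,
    derivative_one, sub_zero, one_mul, eval_comp, eval_sub, eval_X, eval_one, derivative_add,
    derivative_X_pow, derivative_sum, derivative_C_mul, eval_add, eval_mul, eval_C, eval_pow,
    eval_finsetSum, Nat.add_sub_cancel, eq_intCast]
  push_cast
  congr 1
  exact sum_congr rfl fun i _ => by ring

theorem term {g k : ℕ} {w : Vec g} (hw : w ∈ bx g k) (y : ℝ) (i : Fin (2 * g + 1)) :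
    lo ((k : ℝ) ^ 2) |y| g i.1 ≤ ((2 * g - i.1 : ℕ) : ℝ) * ((sv w i : ℤ) * y ^ (2 * g - i.1 - 1)) := by
  by_cases e : i.1 = 2 * g
  · simp [lo, e]
  refine mul_le_mul_of_nonneg_left ?_ (Nat.cast_nonneg _)
  obtain ⟨a, b⟩ := mem_bx.1 hw i
  have hi := i.2
  rw [sv, if_neg e, ← pow_mul]
  rw [ce, xp, if_neg e] at a b
  by_cases o : Odd i.1
  · rw [if_pos (Or.inl o)] at a
    have ev : Even (2 * g - i.1 - 1) := by
      rw [Nat.odd_iff] at o
      rw [Nat.even_iff]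
      omega
    rw [if_pos o, ev.pow_abs]
    refine mul_le_mul_of_nonneg_right ?_ (ev.pow_nonneg y)
    have : 6 * (k : ℤ) ^ (2 * (i.1 + 1)) ≤ w i := by linarith
    exact_mod_cast this
  · rw [if_neg (not_or.2 ⟨o, e⟩)] at a b
    have : |w i| ≤ (k : ℤ) ^ (2 * (i.1 + 1)) := abs_le.2 ⟨by linarith, by linarith⟩
    have c : |(w i : ℝ)| ≤ (k : ℝ) ^ (2 * (i.1 + 1)) := by exact_mod_cast this
    rw [if_neg o, neg_one_mul, neg_mul]
    refine neg_le_of_abs_le ?_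
    rw [abs_mul, abs_pow]
    exact mul_le_mul_of_nonneg_right c (by positivity)

end PosA

theorem pos_k : POSStmt := by
  intro g k w _ hk hw x
  have k0 : (0 : ℝ) < (k : ℝ) ^ 2 := by positivity
  have h1 := PosA.alt k0 (abs_nonneg (x - 1)) g
  rw [← Fin.sum_univ_eq_sum_range (fun i => PosA.lo ((k : ℝ) ^ 2) |x - 1| g i),
    Even.pow_abs ⟨g, by ring⟩] at h1
  have h2 := sum_le_sum fun i (_ : i ∈ univ) => PosA.term hw (x - 1) i
  have h3 : 0 ≤ (g : ℝ) * (x - 1) ^ (2 * g) :=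
    mul_nonneg (Nat.cast_nonneg g) (Even.pow_nonneg ⟨g, by ring⟩ _)
  rw [PosA.der]
  linarith

end Pool.Agent.MP_a43263_nt.K2

end

end PkK2Pos

section PkK2Pt2

/-! THEOREM R2: the condition at two, for one separable divisor. -/

set_option autoImplicit false

noncomputable section

namespace Pool.Agent.MP_a43263_nt.K2

open Polynomial Finset JC Pool.Agent.MP_a43263_nt.UV

namespace Pt2A

section gen

variable {K : Type} [Field K] [CharZero K]

/-- stable under the Galois group -/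
def Sb (S : Finset (AlgebraicClosure K)) : Prop :=
  ∀ σ : AlgebraicClosure K ≃ₐ[K] AlgebraicClosure K, ∀ x ∈ S, σ x ∈ S

variable {S : Finset (AlgebraicClosure K)}

omit [CharZero K] in
theorem roots {P : K[X]} (hm : P.Monic) (hs : P.Separable) : ∃ S : Finset (AlgebraicClosure K),
    P.map (algebraMap K _) = ∏ x ∈ S, (X - C x) ∧ Sb S := by
  classical
  have m := hm.map (algebraMap K (AlgebraicClosure K))
  have hn : (P.map (algebraMap K (AlgebraicClosure K))).roots.Nodup := nodup_roots hs.map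
  refine ⟨(P.map (algebraMap K _)).roots.toFinset, ?_, fun σ x hx => ?_⟩
  · rw [Finset.prod_eq_multiset_prod, Multiset.toFinset_val, hn.dedup]
    exact (IsAlgClosed.splits _).eq_prod_roots_of_monic m
  · rw [Multiset.mem_toFinset, mem_roots m.ne_zero, IsRoot, eval_map_algebraMap] at hx ⊢
    rw [aeval_algHom_apply, hx, map_zero]

omit [CharZero K] in
theorem Sb.prod (h : Sb S) (σ : AlgebraicClosure K ≃ₐ[K] AlgebraicClosure K) {M : Type}
    [CommMonoid M] (F : AlgebraicClosure K → M) : ∏ x ∈ S, F (σ x) = ∏ x ∈ S, F x :=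
  prod_nbij' σ σ.symm (h σ) (h σ.symm) (fun _ _ => σ.symm_apply_apply _)
    (fun _ _ => σ.apply_symm_apply _) fun _ _ => rfl

theorem Sb.interp (h : Sb S) (z : AlgebraicClosure K → AlgebraicClosure K)
    (hz : ∀ σ : AlgebraicClosure K ≃ₐ[K] AlgebraicClosure K, ∀ x, σ (z x) = z (σ x)) :
    ∃ p : K[X], ∀ x ∈ S, aeval x p = z x := by
  obtain ⟨p, hp⟩ := UM.interp (ι := S) (b := Subtype.val) (z := fun x => z x.1)
    Subtype.val_injective fun σ => ⟨fun x => ⟨σ x.1, h σ _ x.2⟩, fun x => ⟨rfl, hz σ _⟩⟩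
  exact ⟨p, fun x hx => (eval_map_algebraMap _ _).symm.trans (hp ⟨x, hx⟩)⟩

theorem Sb.lift (h : Sb S) : ∃ U : K[X], U.map (algebraMap K _) = ∏ x ∈ S, (X - C x) :=
  RatA.lift fun σ => by
    simp only [Polynomial.map_prod, Polynomial.map_sub, map_X, map_C]
    exact h.prod σ fun x => X - C x

omit [CharZero K] in
theorem monic {U : K[X]} (h : U.map (algebraMap K _) = ∏ x ∈ S, (X - C x)) : U.Monic :=
  (algebraMap K (AlgebraicClosure K)).injective.monic_map_iff.2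
    (h ▸ monic_prod_of_monic _ _ fun x _ => monic_X_sub_C x)

omit [CharZero K] in
theorem deg {U : K[X]} (h : U.map (algebraMap K _) = ∏ x ∈ S, (X - C x)) :
    U.natDegree = S.card := by
  rw [← natDegree_map (algebraMap K (AlgebraicClosure K)), h, natDegree_finsetProd_X_sub_C_eq_card]

omit [CharZero K] in
theorem val {U : K[X]} (h : U.map (algebraMap K _) = ∏ x ∈ S, (X - C x))
    (y : AlgebraicClosure K) : aeval y U = ∏ x ∈ S, (y - x) := by
  rw [← eval_map_algebraMap, h, eval_prod]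
  simp

omit [CharZero K] in
theorem val' {U : K[X]} (h : U.map (algebraMap K _) = ∏ x ∈ S, (X - C x))
    (y : AlgebraicClosure K) : aeval y (C ((-1) ^ U.natDegree) * U) = ∏ x ∈ S, (x - y) := by
  rw [map_mul, val h, deg h, aeval_C, map_pow, map_neg, map_one, ← prod_neg]
  simp

omit [CharZero K] in
theorem dvd {U P : K[X]} (h : U.map (algebraMap K _) = ∏ x ∈ S, (X - C x))
    (hP : ∀ x ∈ S, aeval x P = 0) : U ∣ P := by
  rw [← map_dvd_map' (algebraMap K (AlgebraicClosure K)), h]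
  exact Finset.prod_dvd_of_coprime (fun x _ y _ e => isCoprime_X_sub_C_of_isUnit_sub
    (sub_ne_zero.2 e).isUnit) fun x hx => dvd_iff_isRoot.2 ((eval_map_algebraMap _ _).trans (hP x hx))

omit [CharZero K] in
theorem cop {U P : K[X]} (h : U.map (algebraMap K _) = ∏ x ∈ S, (X - C x))
    (hP : ∀ x ∈ S, aeval x P ≠ 0) : IsCoprime P U := by
  rw [isCoprime_iff_aeval_ne_zero_of_isAlgClosed K (AlgebraicClosure K)]
  intro t
  by_cases c : t ∈ S
  · exact .inl (hP t c)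
  · refine .inr ?_
    rw [val h]
    exact prod_ne_zero_iff.2 fun x hx => sub_ne_zero.2 fun e => c (e ▸ hx)

end gen

abbrev Om : Type := PadicAlgCl 2

theorem nσ (σ : Om ≃ₐ[ℚ_[2]] Om) (x : Om) : ‖σ x‖ = ‖x‖ := (spectralNorm_eq_of_equiv σ x).symm

theorem n2 : ‖(2 : Om)‖ = 1 / 2 := by
  have h := PadicAlgCl.norm_extends 2 ((2 : ℕ) : ℚ_[2])
  rw [Padic.norm_p, map_natCast] at h
  simpa using h

theorem uniq {y z : Om} (h : y ^ 2 = z ^ 2) (hy : ‖y - 1‖ < 1 / 2) (hz : ‖z - 1‖ < 1 / 2) :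
    y = z := by
  refine (sq_eq_sq_iff_eq_or_eq_neg.1 h).resolve_right fun e => ?_
  have h1 := IsUltrametricDist.norm_add_le_max (y - 1) (z - 1)
  rw [show y - 1 + (z - 1) = -2 by rw [e]; ring, norm_neg, n2] at h1
  exact absurd (max_lt hy hz) (not_lt.2 h1)

open Classical in
/-- the square root that is close to one -/
def rt (t : Om) : Om := if h : ∃ y, y ^ 2 = t ∧ ‖y - 1‖ < 1 / 2 then h.choose else 0

theorem rt_map (σ : Om ≃ₐ[ℚ_[2]] Om) (t : Om) : σ (rt t) = rt (σ t) := by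
  have k : ∀ (σ : Om ≃ₐ[ℚ_[2]] Om) y t, y ^ 2 = t ∧ ‖y - 1‖ < 1 / 2 →
      σ y ^ 2 = σ t ∧ ‖σ y - 1‖ < 1 / 2 := fun σ y t h =>
    ⟨by rw [← map_pow, h.1], by rw [← map_one σ, ← map_sub, nσ]; exact h.2⟩
  by_cases h : ∃ y, y ^ 2 = t ∧ ‖y - 1‖ < 1 / 2
  · have h' : ∃ y, y ^ 2 = σ t ∧ ‖y - 1‖ < 1 / 2 := ⟨_, k σ _ _ h.choose_spec⟩
    rw [rt, rt, dif_pos h, dif_pos h']
    have h1 := k σ _ _ h.choose_spec
    exact uniq (h1.1.trans h'.choose_spec.1.symm) h1.2 h'.choose_spec.2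
  · rw [rt, rt, dif_neg h, dif_neg, map_zero]
    rintro ⟨y, hy⟩
    exact h ⟨_, by simpa using k σ.symm _ _ hy⟩

theorem rt_sq {t : Om} (h : ‖t - 1‖ ≤ 1 / 8) : rt t ^ 2 = t ∧ t ≠ 0 := by
  have h1 : ∃ y, y ^ 2 = t ∧ ‖y - 1‖ < 1 / 2 := by
    obtain ⟨y, hy⟩ := IsAlgClosed.exists_pow_nat_eq t two_pos
    by_contra c
    push Not at c
    have a := c y hy
    have b := c (-y) (by rw [neg_sq, hy])
    have e : ‖y - 1‖ * ‖-y - 1‖ = ‖t - 1‖ := by
      rw [← norm_mul, ← norm_neg, ← hy]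
      congr 1
      ring
    nlinarith
  refine ⟨by rw [rt, dif_pos h1]; exact h1.choose_spec.1, ?_⟩
  rintro rfl
  norm_num at h

theorem int_le {f : ℤ[X]} (hm : f.Monic) {a : Om} (h : aeval a (zK f ℚ_[2]) = 0) :
    ‖a - 1‖ ≤ 1 := by
  have h0 : ‖a‖ ≤ 1 := by
    by_contra c
    push Not at c
    have m : (zK f Om).Monic := hm.map _
    rw [← eval_map_algebraMap, zK_map, m.as_sum, eval_add, eval_pow, eval_X, eval_finsetSum,
      add_eq_zero_iff_eq_neg] at h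
    rcases Nat.eq_zero_or_pos (zK f Om).natDegree with e | e
    · simp [e] at h
    have h1 := congrArg norm h
    rw [norm_neg, norm_pow] at h1
    refine absurd (h1.le.trans (IsUltrametricDist.norm_sum_le_of_forall_le_of_nonneg
      (C := ‖a‖ ^ ((zK f Om).natDegree - 1)) (by positivity) fun i hi => ?_))
      (not_le.2 (pow_lt_pow_right₀ c (by omega)))
    have := mem_range.1 hi
    rw [eval_mul, eval_C, eval_pow, eval_X, norm_mul, norm_pow, coeff_map]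
    exact (mul_le_of_le_one_left (by positivity) (IsUltrametricDist.norm_intCast_le_one _ _)).trans
      (pow_le_pow_right₀ c.le (by omega))
  rw [sub_eq_add_neg]
  exact (IsUltrametricDist.norm_add_le_max _ _).trans (max_le h0 (by simp))

theorem core {g : ℕ} {f F κ U V : ℚ_[2][X]} {u v G : ℤ} {A R : Finset Om} {l : Om → Om}
    (hl : ∀ x, l x = (v : Om) ^ 2 * (x - 1) + (u : Om) ^ 2)
    (hA : f.map (algebraMap _ _) = ∏ a ∈ A, (X - C a)) (sA : Sb A) (cA : A.card = 2 * g + 1)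
    (nA : ∀ a ∈ A, ‖a - 1‖ ≤ 1) (hR : U.map (algebraMap _ _) = ∏ a ∈ R, (X - C a)) (sR : Sb R)
    (nu : ‖(u : Om)‖ = 1) (nv : ‖(v : Om)‖ ≤ 1 / 8) (v0 : (v : Om) ≠ 0) (G0 : (G : Om) ≠ 0)
    (ka : ∀ a ∈ A, aeval a κ * l a = G)
    (mb : ∀ x, l x ≠ 0 → l x ^ (2 * g + 1) * aeval (G / l x) F =
      ((G : Om) ^ g * (v : Om) ^ (2 * g + 1)) ^ 2 * aeval x f)
    (nm : ∏ a ∈ A, l a = -G) (hV : ∀ ξ ∈ R, aeval ξ F = aeval ξ V ^ 2 ∧ aeval ξ V ≠ 0) :
    Wc 1 f ((C ((-1) ^ U.natDegree) * U).comp κ) := by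
  classical
  have u0 : (u : Om) ≠ 0 := norm_ne_zero_iff.1 (nu ▸ one_ne_zero)
  have lσ : ∀ (σ : Om ≃ₐ[ℚ_[2]] Om) x, σ (l x) = l (σ x) := fun σ x => by simp [hl]
  obtain ⟨lm, hlm⟩ : ∃ lm : Om → Om, ∀ x, lm x = u * rt (l x / (u : Om) ^ 2) := ⟨_, fun _ => rfl⟩
  have mσ : ∀ (σ : Om ≃ₐ[ℚ_[2]] Om) x, σ (lm x) = lm (σ x) := fun σ x => by
    simp [hlm, rt_map, lσ]
  have m2 : ∀ x, ‖x - 1‖ ≤ 8 → lm x ^ 2 = l x ∧ lm x ≠ 0 := fun x hx => by
    have h1 : ‖l x / (u : Om) ^ 2 - 1‖ ≤ 1 / 8 := by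
      rw [show l x / (u : Om) ^ 2 - 1 = (v : Om) ^ 2 * (x - 1) / (u : Om) ^ 2 by
        rw [hl]; field_simp; ring, norm_div, norm_mul, norm_pow, norm_pow, nu, one_pow, div_one]
      calc _ ≤ (1 / 8 : ℝ) ^ 2 * 8 := by gcongr
        _ = _ := by norm_num
    obtain ⟨h2, h3⟩ := rt_sq h1
    have h4 : lm x ^ 2 = l x := by rw [hlm, mul_pow, h2]; field_simp
    exact ⟨h4, fun e => h3 (by rw [← h4, e]; simp)⟩
  have mA : ∀ a ∈ A, lm a ^ 2 = l a ∧ lm a ≠ 0 := fun a ha => m2 a ((nA a ha).trans (by norm_num))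
  obtain ⟨Γ, hΓ⟩ : ∃ Γ, Γ = ∏ a ∈ A, lm a := ⟨_, rfl⟩
  have Γ2 : (G : Om) = -Γ ^ 2 := by
    rw [hΓ, ← prod_pow, prod_congr rfl fun a ha => (mA a ha).1, nm, neg_neg]
  have Γσ : ∀ σ : Om ≃ₐ[ℚ_[2]] Om, σ Γ = Γ := fun σ => by
    simp only [hΓ, map_prod, mσ]
    exact sA.prod σ lm
  obtain ⟨xx, hx⟩ : ∃ xx : Om → Om, ∀ ξ, xx ξ = 1 + (G / ξ - (u : Om) ^ 2) / (v : Om) ^ 2 :=
    ⟨_, fun _ => rfl⟩
  have xσ : ∀ (σ : Om ≃ₐ[ℚ_[2]] Om) x, σ (xx x) = xx (σ x) := fun σ x => by simp [hx]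
  have lx : ∀ ξ, l (xx ξ) = G / ξ := fun ξ => by rw [hl, hx]; field_simp; ring
  have xl : ∀ ξ, G / l (xx ξ) = ξ := fun ξ => by rw [lx, div_div_cancel₀ G0]
  have key : ∀ ξ, ξ ≠ 0 → ∀ a ∈ A, (ξ - aeval a κ) * (l (xx ξ) * lm a ^ 2) =
      Γ ^ 2 * (v : Om) ^ 2 * (xx ξ - a) := fun ξ h a ha => by
    have h1 : ξ * l (xx ξ) = G := by rw [lx]; field_simp
    have h2 := ka a ha
    have h3 : l (xx ξ) - l a = (v : Om) ^ 2 * (xx ξ - a) := by rw [hl, hl]; ring
    rw [(mA a ha).1]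
    linear_combination l a * h1 - l (xx ξ) * h2 - G * h3 - (v : Om) ^ 2 * (xx ξ - a) * Γ2
  obtain ⟨ρ, hρ⟩ : ∃ ρ : Om → Om → Om, ∀ x a, ρ x a = rt (1 - (a - 1) / (x - 1)) :=
    ⟨_, fun _ _ => rfl⟩
  have ρσ : ∀ (σ : Om ≃ₐ[ℚ_[2]] Om) x a, σ (ρ x a) = ρ (σ x) (σ a) := fun σ x a => by
    simp [hρ, rt_map]
  have ρ2 : ∀ x, 8 < ‖x - 1‖ → x - 1 ≠ 0 ∧ ∀ a ∈ A, x - a = (x - 1) * ρ x a ^ 2 ∧ ρ x a ≠ 0 :=
    fun x h => by
    have h0 : x - 1 ≠ 0 := norm_pos_iff.1 (by linarith)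
    refine ⟨h0, fun a ha => ?_⟩
    obtain ⟨h2, h3⟩ := rt_sq (t := 1 - (a - 1) / (x - 1)) (by
      rw [sub_sub_cancel_left, norm_neg, norm_div, div_le_iff₀ (by linarith)]
      linarith [nA a ha])
    rw [← hρ] at h2
    exact ⟨by rw [h2]; field_simp; ring, fun e => h3 (by rw [← h2, e]; simp)⟩
  obtain ⟨w, hw⟩ : ∃ w : Om → Om, ∀ ξ, w ξ = aeval ξ V / ((G : Om) ^ g * (v : Om) ^ (2 * g + 1) *
      (∏ a ∈ A, ρ (xx ξ) a) * ((xx ξ - 1) / l (xx ξ)) ^ g) := ⟨_, fun _ => rfl⟩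
  have wσ : ∀ (σ : Om ≃ₐ[ℚ_[2]] Om) x, σ (w x) = w (σ x) := fun σ x => by
    have := sA.prod σ (ρ (xx (σ x)))
    simp [hw, ρσ, xσ, lσ, this, aeval_algHom_apply]
  have w2 : ∀ ξ ∈ R, ξ ≠ 0 → 8 < ‖xx ξ - 1‖ → w ξ ^ 2 * l (xx ξ) = xx ξ - 1 := fun ξ hξ h0 h => by
    obtain ⟨h1, h2⟩ := ρ2 _ h
    have h3 : l (xx ξ) ≠ 0 := lx ξ ▸ div_ne_zero G0 h0
    have h4 := mb _ h3
    have h5 : ∏ a ∈ A, ρ (xx ξ) a ≠ 0 := prod_ne_zero_iff.2 fun a ha => (h2 a ha).2
    rw [xl, (hV ξ hξ).1, val hA, prod_congr rfl fun a ha => (h2 a ha).1, prod_mul_distrib,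
      prod_const, cA, prod_pow] at h4
    rw [hw, div_pow, div_mul_eq_mul_div, div_eq_iff (by positivity)]
    refine mul_left_cancel₀ (pow_ne_zero (2 * g) h3) ?_
    have h6 : l (xx ξ) ^ (2 * g) * (((xx ξ - 1) / l (xx ξ)) ^ g) ^ 2 = (xx ξ - 1) ^ (2 * g) := by
      rw [← pow_mul, mul_comm g 2, ← mul_pow, mul_div_cancel₀ _ h3]
    linear_combination h4 - (xx ξ - 1) * ((G : Om) ^ g * (v : Om) ^ (2 * g + 1) *
      ∏ a ∈ A, ρ (xx ξ) a) ^ 2 * h6
  let J : Om → Prop := fun ξ => ξ ≠ 0 ∧ ‖xx ξ - 1‖ ≤ 8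
  have Jσ : ∀ (σ : Om ≃ₐ[ℚ_[2]] Om) x, J (σ x) ↔ J x := fun σ x => by
    simp only [J]
    rw [← xσ, ← nσ σ (xx x - 1), map_sub, map_one, _root_.map_ne_zero]
  obtain ⟨s, hs⟩ : ∃ s : Om → Om → Om, ∀ ξ a, s ξ a = if ξ = 0 then Γ / lm a else if J ξ then
      Γ * v * (xx ξ - a) / (lm (xx ξ) * lm a) else Γ * v * ρ (xx ξ) a * w ξ / lm a :=
    ⟨_, fun _ _ => rfl⟩
  have sσ : ∀ (σ : Om ≃ₐ[ℚ_[2]] Om) x a, σ (s x a) = s (σ x) (σ a) := fun σ x a => by
    simp only [hs, Jσ, map_eq_zero]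
    split_ifs <;> simp [Γσ, mσ, xσ, ρσ, wσ]
  have s2 : ∀ ξ ∈ R, ∀ a ∈ A, s ξ a ^ 2 = (ξ - aeval a κ) * if J ξ then xx ξ - a else 1 := by
    intro ξ hξ a ha
    have h1 := (mA a ha).2
    rw [hs]
    by_cases c : ξ = 0
    · rw [if_pos c, if_neg fun e => e.1 c, c, div_pow, div_eq_iff (pow_ne_zero _ h1), (mA a ha).1]
      linear_combination ka a ha + Γ2
    have h2 := key ξ c a ha
    rw [if_neg c]
    by_cases d : J ξ
    · obtain ⟨h3, h4⟩ := m2 _ d.2
      rw [if_pos d, if_pos d, div_pow, div_eq_iff (pow_ne_zero _ (mul_ne_zero h4 h1)), mul_pow,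
        mul_pow (lm _), h3]
      linear_combination -(xx ξ - a) * h2
    · have h3 : 8 < ‖xx ξ - 1‖ := not_le.1 fun e => d ⟨c, e⟩
      have h4 : l (xx ξ) ≠ 0 := lx ξ ▸ div_ne_zero G0 c
      rw [if_neg d, if_neg d, div_pow, div_eq_iff (pow_ne_zero _ h1)]
      refine mul_left_cancel₀ h4 ?_
      linear_combination -h2 + (Γ * v * ρ (xx ξ) a) ^ 2 * w2 ξ hξ c h3 -
        Γ ^ 2 * (v : Om) ^ 2 * ((ρ2 _ h3).2 a ha).1
  have sS : Sb ((R.filter J).image xx) := fun σ x hx => by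
    obtain ⟨ξ, h1, rfl⟩ := mem_image.1 hx
    exact mem_image.2 ⟨σ ξ, mem_filter.2 ⟨sR σ _ (mem_filter.1 h1).1,
      (Jσ σ ξ).2 (mem_filter.1 h1).2⟩, (xσ σ ξ).symm⟩
  obtain ⟨U₀, hU⟩ := sS.lift
  obtain ⟨V₀, hV₀⟩ := sS.interp (fun x => aeval (G / l x) V * lm x ^ (2 * g + 1) /
    ((G : Om) ^ g * (v : Om) ^ (2 * g + 1))) fun σ x => by
      simp [mσ, ← lσ, ← aeval_algHom_apply]
  obtain ⟨p, hp⟩ := sA.interp (fun a => ∏ ξ ∈ R, s ξ a) fun σ a => by
    simp only [map_prod, sσ]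
    exact sR.prod σ fun ξ => s ξ (σ a)
  have fx : ∀ x ∈ (R.filter J).image xx, aeval x f = aeval x V₀ ^ 2 ∧ aeval x V₀ ≠ 0 := by
    intro x hx
    rw [hV₀ x hx]
    obtain ⟨ξ, h1, rfl⟩ := mem_image.1 hx
    obtain ⟨h1, h2⟩ := mem_filter.1 h1
    obtain ⟨h3, h4⟩ := m2 _ h2.2
    have h5 := mb (xx ξ) (h3 ▸ pow_ne_zero _ h4)
    have h6 := (hV ξ h1).2
    rw [xl] at h5 ⊢
    rw [(hV ξ h1).1, ← h3] at h5
    refine ⟨?_, by positivity⟩
    rw [div_pow, eq_div_iff (by positivity)]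
    linear_combination -h5
  have vd : ∀ a, aeval a ((C ((-1) ^ U.natDegree) * U).comp κ) = ∏ ξ ∈ R, (ξ - aeval a κ) :=
    fun a => by rw [aeval_comp, val' hR]
  refine ⟨cop hA fun a ha => ?_, U₀, V₀, p, monic hU, dvd hU fun x hx => ?_,
    (cop hU fun x hx => ?_).symm, dvd hA fun a ha => ?_⟩
  · rw [vd]
    refine prod_ne_zero_iff.2 fun ξ hξ e => (hV ξ hξ).2 ?_
    have h0 : l a ≠ 0 := (mA a ha).1 ▸ pow_ne_zero _ (mA a ha).2
    have h1 := mb a h0
    rw [← ka a ha, mul_div_cancel_right₀ _ h0, ← sub_eq_zero.1 e, (hV ξ hξ).1, val hA,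
      prod_eq_zero ha (sub_self a), mul_zero] at h1
    exact pow_eq_zero_iff two_ne_zero |>.1 ((mul_eq_zero.1 h1).resolve_left (pow_ne_zero _ h0))
  · rw [C_1, one_mul, map_sub, map_pow, (fx x hx).1, sub_self]
  · rw [(fx x hx).1]
    exact pow_ne_zero _ (fx x hx).2
  · rw [map_sub, map_mul, vd, val' hU, map_pow, hp a ha, ← prod_pow,
      prod_congr rfl fun ξ hξ => s2 ξ hξ a ha, prod_mul_distrib, ← prod_filter,
      prod_image fun x _ y _ e => by rw [← xl x, e, xl], sub_self]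

end Pt2A

open Pt2A in
theorem pt2_k : ISOStmt → WSQStmt → PT2Stmt := by
  intro _ _ g f F κ u v G U V hf hc h8 hu mU iU dU cU
  obtain ⟨A, hA, sA⟩ := roots (hf.mo ℚ_[2]) (hf.sq _).sep
  obtain ⟨R, hR, sR⟩ := roots mU iU.separable
  have cA := (deg hA).symm.trans (hf.dg _)
  have rA : ∀ a ∈ A, aeval a (zK f ℚ_[2]) = 0 := fun a ha => by
    rw [val hA, prod_eq_zero ha (sub_self a)]
  have v0 : (v : Om) ≠ 0 := Int.cast_ne_zero.2 hc.v0
  have G0 : (G : Om) ≠ 0 := Int.cast_ne_zero.2 hc.G0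
  obtain ⟨l, hl⟩ : ∃ l : Om → Om, ∀ x, l x = (v : Om) ^ 2 * (x - 1) + (u : Om) ^ 2 :=
    ⟨_, fun _ => rfl⟩
  have ez : ∀ (x : Om) (P : ℤ[X]), aeval x (zK P ℚ_[2]) = aeval x P := fun x P =>
    aeval_map_algebraMap ℚ_[2] x P
  have el' : ∀ x : Om, aeval x (el u v) = l x := fun x => by simp [el, hl]
  have mb : ∀ x : Om, ∑ i ∈ range (2 * g + 2), (F.coeff i : Om) * (G : Om) ^ i *
      l x ^ (2 * g + 1 - i) = ((G : Om) ^ g * (v : Om) ^ (2 * g + 1)) ^ 2 *
        aeval x (zK f ℚ_[2]) := fun x => by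
    have := congrArg (aeval x) hc.mb
    simp only [map_sum, map_mul, map_pow, el', map_intCast, eq_intCast] at this
    rw [this, ez]
    ring
  refine core (V := V) (F := zK F ℚ_[2]) hl hA sA cA (fun a ha => int_le hf.monic (rA a ha)) hR sR
    ?_ ?_ v0 G0 (fun a ha => ?_) (fun x hx => ?_) ?_ fun ξ hξ => ?_
  · obtain ⟨k, rfl⟩ := hu
    have h1 : ‖(2 * k : Om)‖ < ‖(1 : Om)‖ := by
      rw [norm_mul, n2, norm_one]
      linarith [IsUltrametricDist.norm_intCast_le_one Om k]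
    push_cast
    rw [IsUltrametricDist.norm_add_eq_max_of_norm_ne_norm h1.ne, max_eq_right h1.le, norm_one]
  · obtain ⟨k, rfl⟩ := h8
    push_cast
    rw [norm_mul, show (8 : Om) = 2 ^ 3 by norm_num, norm_pow, n2]
    linarith [IsUltrametricDist.norm_intCast_le_one Om k]
  · obtain ⟨y, hy⟩ := hc.ka
    have := congrArg (aeval a) hy
    rw [map_sub, map_mul, map_mul, ← ez a f, rA a ha, zero_mul, el', aeval_C, sub_eq_zero] at this
    rw [ez, this, eq_intCast]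
  · rw [← mb, ez, aeval_eq_sum_range' (n := 2 * g + 2) (by rw [hc.dg]; omega), mul_sum]
    refine sum_congr rfl fun i hi => ?_
    have := mem_range.1 hi
    rw [zsmul_eq_mul, pow_sub₀ _ hx (by omega), div_pow]
    ring
  · have h1 : l (1 - (u : Om) ^ 2 / (v : Om) ^ 2) = 0 := by rw [hl]; field_simp; ring
    have h2 := mb (1 - (u : Om) ^ 2 / (v : Om) ^ 2)
    rw [h1, sum_range_succ, sum_eq_zero fun i hi => by
      rw [zero_pow (by have := mem_range.1 hi; omega), mul_zero], ← hc.dg, hc.mo.coeff_natDegree,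
      hc.dg, val hA] at h2
    have h3 : ∀ a ∈ A, l a = -(v : Om) ^ 2 * (1 - (u : Om) ^ 2 / (v : Om) ^ 2 - a) := fun a _ => by
      rw [hl]; field_simp; ring
    rw [prod_congr rfl h3, prod_mul_distrib, prod_const, cA, (odd_two_mul_add_one g).neg_pow]
    refine mul_left_cancel₀ (pow_ne_zero (2 * g) G0) ?_
    simp only [Int.cast_one, Nat.sub_self] at h2
    linear_combination h2
  · have h0 : aeval ξ U = 0 := by rw [val hR, prod_eq_zero hξ (sub_self ξ)]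
    have h1 : aeval ξ (zK F ℚ_[2]) = aeval ξ V ^ 2 := by
      obtain ⟨y, hy⟩ := dU
      have := congrArg (aeval ξ) hy
      rwa [map_sub, map_mul, h0, zero_mul, map_pow, sub_eq_zero] at this
    refine ⟨h1, fun e => ?_⟩
    obtain ⟨a, b, hab⟩ := cU
    have := congrArg (aeval ξ) hab
    simp [h0, h1, e] at this

end Pool.Agent.MP_a43263_nt.K2

end

end PkK2Pt2

section PkK2Qst

/-! The forms attached to the descent image of the companion are split. -/

set_option autoImplicit false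

noncomputable section

namespace Pool.Agent.MP_a43263_nt.K2

open Polynomial Finset Filter Matrix JC Pool.Agent.MP_a43263_nt.UV

namespace QstA

variable {K : Type} [Field K] {g : ℕ} {f F κ l : K[X]} {G : K}

/-- the polynomial of a vector, as a linear map -/
def poL (K : Type) [Field K] (n : ℕ) : (Fin n → K) →ₗ[K] K[X] where
  toFun := po
  map_add' x y := by simp [po, add_mul, sum_add_distrib]
  map_smul' c x := by simp [po, smul_sum, smul_eq_C_mul, mul_assoc]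

theorem low (hf : UV.Sq g f) (hl : l.natDegree ≤ 1) (hk : f ∣ κ * l - C G) {i : ℕ}
    (hi : i < 2 * g) : ta g f (l ^ (2 * g - 1) * κ ^ i) = 0 := by
  obtain ⟨j, hj⟩ : ∃ j, 2 * g - 1 = j + i := ⟨2 * g - 1 - i, by omega⟩
  have h1 : f ∣ l ^ (2 * g - 1) * κ ^ i - C (G ^ i) * l ^ j := by
    rw [hj, show l ^ (j + i) * κ ^ i - C (G ^ i) * l ^ j = l ^ j * ((κ * l) ^ i - C G ^ i) by
      rw [C_pow]; ring]
    exact (hk.trans (sub_dvd_pow_sub_pow _ _ i)).mul_left _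
  have h2 : (C (G ^ i) * l ^ j).natDegree < 2 * g := by
    refine (natDegree_C_mul_le _ _).trans_lt (natDegree_pow_le.trans_lt ?_)
    have := Nat.mul_le_mul_left j hl
    omega
  rw [ta_congr hf.monic h1, ta_of_lt hf.monic (degree_lt_degree (by rw [hf.deg]; omega)),
    coeff_eq_zero_of_natDegree_lt h2]

/-- the two linear forms have the same kernel -/
theorem key (hf : UV.Sq g f) (hF : UV.Sq g F) (hl : l.natDegree ≤ 1) (hk : f ∣ κ * l - C G)
    (hs : Is f F κ) {P : K[X]} (hP : ta g F P = 0) :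
    ta g f (l ^ (2 * g - 1) * P.comp κ) = 0 := by
  have h1 : f ∣ l ^ (2 * g - 1) * P.comp κ -
      l ^ (2 * g - 1) * (po (ve (2 * g + 1) F P)).comp κ := by
    rw [← mul_sub, ← sub_comp, po_ve hF.monic hF.deg]
    exact ((hs.ker _).2 (dvd_sub_mod P)).mul_left _
  rw [ta_congr hf.monic h1, po, Polynomial.sum_comp, mul_sum, ta_sum]
  refine sum_eq_zero fun i _ => ?_
  rw [mul_comp, C_comp, X_pow_comp, mul_left_comm, ta_C_mul]
  by_cases hi : i.1 < 2 * g
  · rw [low hf hl hk hi, mul_zero]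
  · have e : i.1 = 2 * g := by omega
    have : ve (2 * g + 1) F P i = 0 := by
      rw [ve, e]
      exact hP
    rw [this, zero_mul]

theorem main (hf : UV.Sq g f) (hF : UV.Sq g F) (hl : l.natDegree ≤ 1) (hk : f ∣ κ * l - C G)
    (hG : G ≠ 0) (hs : Is f F κ) {δ δ' : K[X]} (hd : f ∣ δ - δ'.comp κ)
    (h : IsoM g (Gm g F δ')) : IsoM g (Gm g f (δ * (-C G * l))) := by
  obtain ⟨S, hS, hz⟩ := h
  let Ψ : (Fin (2 * g + 1) → K) →ₗ[K] Fin (2 * g + 1) → K := LinearMap.pi fun i =>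
    lcoeff K i.1 ∘ₗ modByMonicHom f ∘ₗ LinearMap.mulLeft K (l ^ (g - 1)) ∘ₗ
      (aeval κ).toLinearMap ∘ₗ poL K (2 * g + 1)
  have e : ∀ z, po (Ψ z) = l ^ (g - 1) * (po z).comp κ %ₘ f := fun z =>
    po_ve hf.monic hf.deg _
  have cop : IsCoprime f l := by
    obtain ⟨t, ht⟩ := hk
    refine ⟨-C G⁻¹ * t, C G⁻¹ * κ, ?_⟩
    have : C G⁻¹ * C G = (1 : K[X]) := by rw [← C_mul, inv_mul_cancel₀ hG, C_1]
    linear_combination C G⁻¹ * ht + this
  have inj : Function.Injective Ψ := by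
    refine (injective_iff_map_eq_zero _).2 fun z h0 => po_inj hF.monic hF.deg ((hs.ker _).1 ?_)
    have h1 := e z
    rw [h0, show po (0 : Fin (2 * g + 1) → K) = 0 by simp [po]] at h1
    exact (cop.pow_right (n := g - 1)).dvd_of_dvd_mul_left
      ((modByMonic_eq_zero_iff_dvd hf.monic).1 h1.symm)
  refine ⟨S.map Ψ, ?_, ?_⟩
  · rwa [← (Submodule.equivMapOfInjective Ψ inj S).finrank_eq]
  · rintro _ ⟨z, hzS, rfl⟩
    have h1 := hz z hzS
    rw [Gm_form] at h1 ⊢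
    have h2 := key hf hF hl hk hs h1
    have h3 : f ∣ δ * (-C G * l) * po (Ψ z) * po (Ψ z) -
        C (-G) * (l ^ (2 * g - 1) * (δ' * po z * po z).comp κ) := by
      obtain ⟨t, ht⟩ := dvd_sub_mod (f := f) (l ^ (g - 1) * (po z).comp κ)
      obtain ⟨u, hu⟩ := hd
      have h4 : l ^ (2 * g - 1) = l * l ^ (g - 1) * l ^ (g - 1) := by
        have := hf.pos
        rw [← pow_succ', ← pow_add]
        congr 1
        omega
      rw [← e] at ht
      rw [h4, mul_comp, mul_comp, C_neg]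
      generalize po (Ψ z) = x, (po z).comp κ = y, δ'.comp κ = d, l ^ (g - 1) = m, C G = c at *
      exact ⟨δ * c * l * t * (m * y + x) - c * l * m ^ 2 * y ^ 2 * u, by
        linear_combination δ * c * l * (m * y + x) * ht - c * l * m ^ 2 * y ^ 2 * hu⟩
    rw [ta_congr hf.monic h3, ta_C_mul, h2, mul_zero]

end QstA

theorem qst_k : ISOStmt → QSTStmt := by
  rintro iso g f F κ u v G hf hc K _ _ δ ⟨δ', hw, hd⟩
  obtain ⟨hF, hs⟩ := iso g f F κ u v G hf hc
  have hl : (zK (el u v) K).natDegree ≤ 1 := by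
    refine natDegree_map_le.trans ?_
    unfold el
    compute_degree
  have hk : zK f K ∣ zK κ K * zK (el u v) K - C (G : K) := by
    simpa using Polynomial.map_dvd (Int.castRingHom K) hc.ka
  have e : zK (be u v G) K = -C (G : K) * zK (el u v) K := by simp [be]
  rw [e]
  exact QstA.main (hf.sq K) (hF.sq K) hl hk (Int.cast_ne_zero.2 hc.G0) (hs K) hd
    (UV.qs K g 1 _ δ' (hF.sq K) one_ne_zero hw)

end Pool.Agent.MP_a43263_nt.K2

end

end PkK2Qst

section PkK2Real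

/-! THEOREM R2: one real root. -/

set_option autoImplicit false

noncomputable section

namespace Pool.Agent.MP_a43263_nt.K2

open Polynomial Finset Filter Matrix JC Pool.Agent.MP_a43263_nt.UV

namespace RealA

theorem glue {K : Type} [Field K] {φ h δ : K[X]} (c : IsCoprime φ h) (h1 : Sqm φ δ) (h2 : Sqm h δ) :
    Sqm (φ * h) δ := by
  obtain ⟨z₁, y₁, e₁⟩ := h1
  obtain ⟨z₂, y₂, e₂⟩ := h2
  obtain ⟨a, b, e⟩ := id c
  refine ⟨z₂ * a * φ + z₁ * b * h, c.mul_dvd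
    ⟨y₁ - (z₂ - z₁) * a * (z₂ * a * φ + z₁ * b * h + z₁), ?_⟩
    ⟨y₂ - (z₁ - z₂) * b * (z₂ * a * φ + z₁ * b * h + z₂), ?_⟩⟩
  · linear_combination e₁ - z₁ * (z₂ * a * φ + z₁ * b * h + z₁) * e
  · linear_combination e₂ - z₂ * (z₂ * a * φ + z₁ * b * h + z₂) * e

theorem irr {φ : ℝ[X]} (m : φ.Monic) (i : Irreducible φ) (n : ∀ a, φ.eval a ≠ 0) (δ : ℝ[X]) :
    Sqm φ δ := by
  obtain ⟨z, hz⟩ := IsAlgClosed.exists_aeval_eq_zero ℂ φ (degree_pos_of_irreducible i).ne'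
  have im : z.im ≠ 0 := fun c => n z.re (by
    have e : z = algebraMap ℝ ℂ z.re := Complex.ext (by simp) (by simpa using c)
    rw [e, aeval_algebraMap_apply, coe_aeval_eq_eval] at hz
    exact (map_eq_zero _).1 hz)
  obtain ⟨s, hs⟩ := IsAlgClosed.exists_pow_nat_eq (aeval z δ) two_pos
  refine ⟨C (s.im / z.im) * X + C (s.re - s.im / z.im * z.re), ?_⟩
  rw [minpoly.eq_of_irreducible_of_monic i hz m]
  refine minpoly.dvd _ _ ?_
  have e : aeval z (C (s.im / z.im) * X + C (s.re - s.im / z.im * z.re)) = s := by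
    rw [map_add, map_mul, aeval_C, aeval_C, aeval_X]
    refine Complex.ext ?_ ?_
    · simp only [Complex.coe_algebraMap, Complex.add_re, Complex.re_ofReal_mul, Complex.ofReal_re]
      ring
    · simp only [Complex.coe_algebraMap, Complex.add_im, Complex.im_ofReal_mul, Complex.ofReal_im]
      field_simp
      ring
  rw [map_sub, map_pow, e, hs, sub_self]

theorem all (δ : ℝ[X]) (n : ℕ) : ∀ h : ℝ[X], h.natDegree = n → h.Monic → Squarefree h →
    (∀ a, h.eval a ≠ 0) → Sqm h δ := by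
  induction n using Nat.strong_induction_on with
  | _ n ih =>
    intro h hn hm hs hr
    by_cases e : h = 1
    · exact ⟨0, e ▸ one_dvd _⟩
    obtain ⟨φ, a, b, h', rfl⟩ := exists_monic_irreducible_factor h fun c => e (hm.eq_one_of_isUnit c)
    have m : h'.Monic := a.of_mul_monic_left hm
    have d := a.natDegree_mul m
    obtain ⟨c, -, s⟩ := squarefree_mul_iff.1 hs
    simp only [eval_mul] at hr
    exact glue c.isCoprime (irr a b (fun x => left_ne_zero_of_mul (hr x)) δ)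
      (ih h'.natDegree (by have := b.natDegree_pos; omega) h' rfl m s
        fun x => right_ne_zero_of_mul (hr x))

theorem sqm {F δ : ℝ[X]} (m : F.Monic) (s : Squarefree F) (hi : ∀ x, 0 < (derivative F).eval x)
    (hc : IsCoprime δ F) (hn : IsSquare (Nm F δ)) : Sqm F δ := by
  by_cases e : ∀ a, F.eval a ≠ 0
  · exact all δ _ F rfl m s e
  push Not at e
  obtain ⟨a, ha⟩ := e
  have mono : StrictMono fun x => F.eval x := strictMono_of_deriv_pos fun x => by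
    rw [Polynomial.deriv]; exact hi x
  obtain ⟨h, rfl⟩ := dvd_iff_isRoot.2 ha
  have mh : h.Monic := (monic_X_sub_C a).of_mul_monic_left m
  obtain ⟨c, -, sh⟩ := squarefree_mul_iff.1 s
  have h1 : Sqm h δ := all δ _ h rfl mh sh fun b hb => by
    obtain rfl : b = a := mono.injective (by simp [hb])
    exact not_isUnit_X_sub_C b (c dvd_rfl (dvd_iff_isRoot.2 hb))
  refine glue c.isCoprime ?_ h1
  obtain ⟨-, n2, n3, -, n5, -⟩ := gram.1 ℝ _ (monic_X_sub_C a)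
  obtain ⟨k1, k2, -, k4, -, -⟩ := gram.1 ℝ _ mh
  obtain ⟨z, hz⟩ := h1
  have h2 : 0 < Nm h δ := by
    refine lt_of_le_of_ne ?_ ((k4 δ).2 hc.of_mul_right_right).ne_zero.symm
    rw [k2 _ _ hz, sq, k1]
    exact mul_self_nonneg _
  rw [n5 h mh, n2 δ (C (δ.eval a)) X_sub_C_dvd_sub_C_eval, n3, natDegree_X_sub_C, pow_one] at hn
  have h3 : 0 ≤ δ.eval a := nonneg_of_mul_nonneg_left hn.nonneg h2
  exact ⟨C √(δ.eval a), by rw [← C_pow, Real.sq_sqrt h3]; exact X_sub_C_dvd_sub_C_eval⟩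

end RealA

theorem real_k : WSQStmt → REALStmt := fun wsq g f δ hz hi hc hn =>
  wsq ℝ _ 1 δ (wg gram ℝ g 1 _ (hz.sq ℝ) one_ne_zero).1 hc (by
    rw [one_mul]
    exact RealA.sqm (hz.mo ℝ) (hz.sq ℝ).sep.squarefree hi hc hn)

end Pool.Agent.MP_a43263_nt.K2

end

end PkK2Real

section PkK2Red

/-! THEOREM R2: reduced bases for a triple. -/

set_option autoImplicit false

noncomputable section

namespace Pool.Agent.MP_a43263_nt.K2

open Polynomial Finset Filter Matrix JC Pool.Agent.MP_a43263_nt.UV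

namespace RedA

open CountOf

theorem hq_neg {n : ℕ} (H : Matrix (Fin n) (Fin n) ℝ) (γ : UC.Mz n) (p : Fin n) :
    UC.Hq H ((-γ)ᵀ p) = UC.Hq H (γᵀ p) := by
  simp [UC.Hq, dotProduct, mulVec]

theorem herm1 (g : ℕ) : ∃ C : ℝ, 0 < C ∧ ∀ H : Mat g ℝ, H.PosDef → ∃ γ γ' : Mat g ℤ, γ * γ' = 1 ∧
    γ.det = 1 ∧ Monotone (fun p => UC.Hq H (γᵀ p)) ∧ ∏ p, UC.Hq H (γᵀ p) ≤ C * H.det := by
  obtain ⟨C, C0, hC⟩ := UC.herm (2 * g + 1)
  refine ⟨C, C0, fun H h => ?_⟩
  obtain ⟨γ, γ', a, b, c⟩ := hC H h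
  rcases Int.isUnit_iff.1 (isUnit_det_of_right_inverse a) with d | d
  · exact ⟨γ, γ', a, d, b, c⟩
  · refine ⟨-γ, -γ', by rw [Matrix.neg_mul, Matrix.mul_neg, neg_neg, a], ?_, ?_, ?_⟩
    · rw [det_neg, d, Fintype.card_fin, pow_succ, pow_mul]; simp
    · simpa only [hq_neg] using b
    · simpa only [hq_neg] using c

theorem entry {n : ℕ} (B β γ : UC.Mz n) (p q : Fin n) :
    (βᵀ * B * γ) p q = βᵀ p ⬝ᵥ B *ᵥ γᵀ q := by
  rw [Matrix.mul_assoc]
  rfl

/-- one form -/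
theorem one (g : ℕ) : ∃ κ : ℕ, ∀ (ρ : ℝ) (k : ℕ) (A T : Mat g ℤ) (H : Mat g ℝ), IsUnit A.det →
    Maj (ρ ^ 2) (mK A ℝ) (mK T ℝ) H → 0 ≤ ρ → ρ ≤ 2 ^ k →
    ∃ (γ γ' : Mat g ℤ) (e : Fin (2 * g + 1) → ℤ), γ * γ' = 1 ∧ γ.det = 1 ∧ UC.Ex e ∧
      UC.Box ((2 * κ : ℕ) : ℤ) e (γᵀ * A * γ) ∧
      (∀ p, 0 ≤ UC.Hq H (γᵀ p) ∧ √(UC.Hq H (γᵀ p)) ≤ (2 : ℝ) ^ ((κ : ℤ) + e p)) ∧
      ∀ M, Dst M (ρ ^ 2) A T H → Zb (γᵀ * A * γ) (γ' * T * γ) →
        M ≤ (2 : ℝ) ^ (((g * κ : ℕ) : ℤ) + dp k e) := by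
  obtain ⟨C, hC0, hC⟩ := herm1 g
  obtain ⟨κ, hκ⟩ := UC.dy (2 * g + 1) √C
  refine ⟨κ, fun ρ k A T H hA hM hρ hk => ?_⟩
  obtain ⟨γ, γ', hγ, d1, hm, hp⟩ := hC H hM.pos
  have h0 : ∀ p, 0 < UC.Hq H (γᵀ p) := fun p => by
    have h1 : (fun i => ((γᵀ p i : ℤ) : ℝ)) ≠ 0 := fun h => by
      have h2 : ∀ i, γ i p = 0 := fun i => Int.cast_eq_zero.1 (congrFun h i)
      have h3 : (γ' * γ) p p = (1 : Mat g ℤ) p p := by rw [mul_eq_one_comm.1 hγ]
      simp [mul_apply, h2] at h3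
    simpa [UC.Hq] using hM.pos.dotProduct_mulVec_pos h1
  have hb0 : ∀ p q, |((γᵀ * A * γ) p q : ℝ)| ≤ √(UC.Hq H (γᵀ p)) * √(UC.Hq H (γᵀ q)) :=
    fun p q => by
    refine abs_le_of_sq_le_sq ?_ (by positivity)
    rw [entry, mul_pow, Real.sq_sqrt (h0 p).le, Real.sq_sqrt (h0 q).le, cast_form]
    exact hM.cs _ _
  have hγ0 : γ.det ≠ 0 := d1 ▸ one_ne_zero
  have hdet : (γᵀ * A * γ).det ≠ 0 := by
    rw [det_mul, det_mul, det_transpose]
    exact mul_ne_zero (mul_ne_zero hγ0 hA.ne_zero) hγ0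
  obtain ⟨e, h1, h2⟩ := hκ (γᵀ * A * γ) (fun p => √(UC.Hq H (γᵀ p))) hdet
    (fun p => Real.sqrt_pos.2 (h0 p)) (fun p q h => Real.sqrt_le_sqrt (hm h))
    (by
      rw [← Real.sqrt_prod _ fun p _ => (h0 p).le]
      refine Real.sqrt_le_sqrt (hp.trans ?_)
      exact mul_le_of_le_one_right hC0.le hM.det)
    hb0
  have hc : γᵀ * A * γ * (γ' * T * γ) = γᵀ * (A * T) * γ := by
    simpa using UC.Red.conj_pow (A := A) (T := T) hγ 1
  have b0 : UC.Box ((2 * κ : ℕ) : ℤ) e (γᵀ * A * γ) := fun p q => by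
    refine (hb0 p q).trans ?_
    calc _ ≤ (2 : ℝ) ^ ((κ : ℤ) + e p) * 2 ^ ((κ : ℤ) + e q) := by
          gcongr
          exacts [h2 p, h2 q]
      _ = _ := by
        rw [← zpow_add₀ two_ne_zero]
        congr 1
        push_cast
        ring
  refine ⟨γ, γ', e, hγ, d1, h1, b0, fun p => ⟨(h0 p).le, h2 p⟩, fun M hD hd => ?_⟩
  have hli : LinearIndependent ℤ fun i : Fin g => γᵀ (UC.lo i) := by
    have h3 : LinearIndependent ℤ fun p => γᵀ p :=
      linearIndependent_rows_of_det_ne_zero (by rwa [det_transpose])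
    exact h3.comp UC.lo fun i j h => Fin.ext (congrArg Fin.val h :)
  have h4 := hD (fun i => γᵀ (UC.lo i)) hli fun i j => by
    rw [← entry, ← entry, ← hc]
    exact hd i j
  refine (abs_le_of_sq_le_sq' (h4.trans ?_) (by positivity)).2
  have h5 : ∀ i : Fin g, UC.Hq H (γᵀ (UC.lo i)) ≤ ((2 : ℝ) ^ ((κ : ℤ) + e (UC.lo i))) ^ 2 :=
    fun i => by
    rw [← Real.sq_sqrt (h0 _).le]
    exact pow_le_pow_left₀ (Real.sqrt_nonneg _) (h2 _) 2
  have hz : ∀ (s : Finset (Fin g)) (t : Fin g → ℤ),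
      (2 : ℝ) ^ (∑ x ∈ s, t x) = ∏ x ∈ s, (2 : ℝ) ^ t x := by
    intro s t
    induction s using Finset.induction_on with
    | empty => simp
    | insert a s ha ih => rw [sum_insert ha, prod_insert ha, zpow_add₀ (by norm_num), ih]
  calc (ρ ^ 2) ^ (g * (g + 1)) * ∏ i : Fin g, UC.Hq H (γᵀ (UC.lo i))
      ≤ ((2 ^ k) ^ 2) ^ (g * (g + 1)) * ∏ i : Fin g, ((2 : ℝ) ^ ((κ : ℤ) + e (UC.lo i))) ^ 2 :=
        mul_le_mul (pow_le_pow_left₀ (sq_nonneg _) (pow_le_pow_left₀ hρ hk _) _)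
          (prod_le_prod (fun i _ => (h0 _).le) fun i _ => h5 i)
          (prod_nonneg fun i _ => (h0 _).le) (by positivity)
    _ = _ := by
      have a : (((2 : ℝ) ^ k) ^ 2) ^ (g * (g + 1)) = (2 ^ ((2 * k * UC.tri g : ℕ) : ℤ)) ^ 2 := by
        rw [zpow_natCast, ← two_tri, ← pow_mul, ← pow_mul, ← pow_mul]
        congr 1
        ring
      rw [prod_pow, ← hz, a, ← mul_pow, ← zpow_add₀ two_ne_zero, sum_add_distrib, dp]
      congr 2
      simp
      ring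

end RedA

open RedA in
theorem red_k : CHGStmt → REDStmt := by
  intro chg g
  obtain ⟨κ, hκ⟩ := one g
  refine ⟨2 * κ, fun M ρ k A A' N H H' hA hA' hM hD hD' hρ hk => ?_⟩
  obtain ⟨γ, γ', e, a1, a2, a3, a4, a5, a6⟩ := hκ ρ k A _ H hA hM.h hρ hk
  obtain ⟨β, β', e', b1, b2, b3, b4, b5, b6⟩ := hκ ρ k A' _ H' hA' hM.h' hρ hk
  refine ⟨γ, β, e, e', a2, b2, a3, b3, a4, b4, fun p q => ?_, fun z => ?_, fun z => ?_⟩
  · calc |((βᵀ * N * γ) p q : ℝ)| ≤ ρ * (√(UC.Hq H' (βᵀ p)) * √(UC.Hq H (γᵀ q))) := by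
          refine abs_le_of_sq_le_sq ?_ (by positivity)
          rw [entry, mul_pow, mul_pow, Real.sq_sqrt (b5 p).1, Real.sq_sqrt (a5 q).1,
            CountOf.cast_form]
          exact hM.jn _ _
      _ ≤ (2 : ℝ) ^ k * ((2 : ℝ) ^ ((κ : ℤ) + e' p) * 2 ^ ((κ : ℤ) + e q)) := by
          gcongr
          exacts [(b5 p).2, (a5 q).2]
      _ = _ := by
        rw [← zpow_natCast, ← zpow_add₀ two_ne_zero, ← zpow_add₀ two_ne_zero]
        congr 1
        push_cast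
        ring
  · rw [chg.1 _ A A' N γ γ' β hA hA' a1 (b2 ▸ isUnit_one)] at z
    refine (a6 M hD z).trans (zpow_le_zpow_right₀ one_le_two ?_)
    have : g * κ ≤ g * (2 * κ) := Nat.mul_le_mul_left g (by omega)
    omega
  · rw [transpose_mul, transpose_mul, transpose_transpose, ← Matrix.mul_assoc,
      chg.1 _ A' A Nᵀ β β' γ hA' hA b1 (a2 ▸ isUnit_one)] at z
    have := b6 ((2 : ℝ) ^ (((g * κ : ℕ) : ℤ) + dp k e') + 1) (hD' _ (by positivity)) z
    linarith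

end Pool.Agent.MP_a43263_nt.K2

end

end PkK2Red

section PkK2Sha

/-! THEOREM R2, row SHA: the 2-primary part of the Tate-Shafarevich group vanishes. -/

set_option autoImplicit false

noncomputable section

namespace Pool.Agent.MP_a43263_nt.K2

open Polynomial Finset Filter Matrix JC Pool.Agent.MP_a43263_nt.UV

namespace ShaA

open JC.Sha

variable {ι : Type} [Fintype ι] {g : ℕ} {f : ℚ[X]} {a : ι → Qbar}

theorem cover (h : Cv g a (fK f Qbar)) {π : GQ → ι → ι} (hπ : ∀ σ i, σ (a i) = a (π σ i))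
    (iv : ∀ σ i, π σ (π σ⁻¹ i) = i) {u : GQ → ι → Qbar} (u2 : ∀ σ i, u σ i ^ 2 = 1)
    {r : ι → Qbar} (r0 : ∀ i, r i ≠ 0) (hr : ∀ (σ : GQ) i, σ (r i) = u σ (π σ i) * r (π σ i))
    {de : ℚ[X]} (hd : ∀ i, (fK de Qbar).eval (a i) = r i ^ 2) (hw : Wc 1 f de) :
    ∃ R : Jac f Qbar, ∀ σ : GQ, Z a _ (jac f σ R - R).toMul ⊤ (u σ) := by
  obtain ⟨-, U, V, s, h1, h2, h3, w, h4⟩ := hw
  have ec : ∀ φ : ℚ →+* Qbar, φ = Rat.castHom Qbar := fun φ => RingHom.ext_rat _ _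
  have h' : Cv g a (f.map (algebraMap ℚ Qbar)) := ec (algebraMap _ _) ▸ h
  have n0 : ∀ i, (fK U Qbar).eval (a i) ≠ 0 := fun i => by
    have := (UM.cop_iff h').1 h3 i
    rwa [ec (algebraMap _ _)] at this
  have dv : fK U Qbar ∣ fK f Qbar - fK V Qbar ^ 2 := by
    have := Polynomial.map_dvd (Rat.castHom Qbar) h2
    rwa [C_1, one_mul, Polynomial.map_sub, Polynomial.map_pow] at this
  obtain ⟨R0, hR0⟩ := JC.T.half Qbar ι g _ _ h (cl (MI _ (fK U Qbar) (fK V Qbar)))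
  obtain ⟨ρ, z, hρ⟩ := UM.z_mum h (R := Additive.ofMul R0) (h1.map _) dv n0 hR0
  have n : ∀ i, ρ i ≠ 0 := fun i => ne_of_sq (hρ i) (mul_ne_zero (by simp) (n0 i))
  have e1 : ∀ i, r i ^ 2 * ρ i ^ 2 = (fK s Qbar).eval (a i) ^ 2 := fun i => by
    have := congrArg (fun p => (fK p Qbar).eval (a i)) h4
    simp only [fK, Polynomial.map_sub, Polynomial.map_mul, Polynomial.map_pow, eval_sub, eval_mul,
      eval_pow, hd, (UM.root_iff h _).2 ⟨i, rfl⟩, zero_mul, map_C, eval_C, map_pow, map_neg,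
      map_one, Polynomial.map_neg, Polynomial.map_one, eval_neg, eval_one] at this
    rw [hρ, nb, natDegree_map]
    exact sub_eq_zero.1 this
  have s0 : ∀ i, (fK s Qbar).eval (a i) ≠ 0 := fun i =>
    ne_of_sq (e1 i).symm (mul_ne_zero (pow_ne_zero _ (r0 i)) (pow_ne_zero _ (n i)))
  have e2 : ∀ i, ((fK s Qbar).eval (a i) / r i / ρ i) ^ 2 = 1 := fun i => by
    rw [div_div, div_pow, mul_pow, e1, div_self (pow_ne_zero _ (s0 i))]
  obtain ⟨ε, hε⟩ : ∃ ε, ε = ∏ i, (fK s Qbar).eval (a i) / r i / ρ i := ⟨_, rfl⟩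
  have e3 : ε ^ 2 = 1 := by rw [hε, ← prod_pow, prod_eq_one fun i _ => e2 i]
  obtain ⟨T, hT⟩ := (JC.T.zt Qbar ι g _ _ h).2
    (fun i => ε * ((fK s Qbar).eval (a i) / r i / ρ i))
    (fun i => by rw [mul_pow, e3, e2, one_mul])
    (by rw [prod_mul_distrib, prod_const, card_univ, h.card, ← hε, pow_succ, pow_mul, e3, one_pow,
      one_mul, ← sq, e3])
  have z1 := UM.z_add h z (R' := Additive.ofMul T) hT
  have e4 : ∀ i, ρ i * (ε * ((fK s Qbar).eval (a i) / r i / ρ i)) =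
      ε * ((fK s Qbar).eval (a i) / r i) := fun i => by
    have := n i
    field_simp
  simp only [e4] at z1
  refine ⟨Additive.ofMul R0 + Additive.ofMul T, fun σ => ?_⟩
  have z2 := UM.z_map h (σ : Qbar →+* Qbar) (b := a)
    (η := fun i => ε * ((fK s Qbar).eval (a i) / (u σ i * r i))) z1 fun i =>
      ⟨π σ⁻¹ i, by rw [RingHom.coe_coe, hπ, iv], by
        rw [map_mul, map_sign _ e3, map_div₀, ← eval₂_at_apply, ← eval_map, fK_map,
          RingHom.coe_coe, hπ, hr, iv]⟩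
  rw [mi_map, fK_map, fK_map] at z2
  have e5 : u σ = fun i => ε * ((fK s Qbar).eval (a i) / (u σ i * r i)) /
      (ε * ((fK s Qbar).eval (a i) / r i)) := funext fun i => by
    have := ne_of_sq e3 one_ne_zero
    have := r0 i
    have := s0 i
    have := ne_of_sq (u2 σ i) one_ne_zero
    field_simp
    exact u2 σ i
  rw [e5]
  exact UM.z_sub h z1 z2

theorem core (h : Cv g a (fK f Qbar)) (h0 : UM.Sq g f) (H : ∀ δ, Els f δ → Wc 1 f δ)
    {c : GQ → Jac f Qbar} (hc : c ∈ Z1 (jac f)) (h2 : ∀ σ, 2 • c σ = 0) (hr : JLoc f ℝ c)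
    (hp : ∀ (p : ℕ) [Fact p.Prime], JLoc f ℚ_[p] c) : ∃ R, ∀ σ, c σ = jac f σ R - R := by
  obtain ⟨π, hπ, p1, pm⟩ := UM.exists_perm h
  have iv : ∀ σ i, π σ (π σ⁻¹ i) = i := fun σ i => by rw [← pm, mul_inv_cancel, p1]
  have iv' : ∀ σ i, π σ⁻¹ (π σ i) = i := fun σ i => by rw [← pm, inv_mul_cancel, p1]
  choose u hu using fun σ => UM.z_ex h (h2 σ)
  have u2 := fun σ => (UM.z_top h (hu σ)).2
  have act : ∀ (σ : GQ) {T : Jac f Qbar} {η : ι → Qbar}, Z a _ T.toMul ⊤ η →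
      Z a _ (jac f σ T).toMul ⊤ fun i => η (π σ⁻¹ i) := fun σ T η z => by
    have := UM.z_map h (σ : Qbar →+* Qbar) (b := a) (η := fun i => η (π σ⁻¹ i)) z fun i =>
      ⟨π σ⁻¹ i, by rw [RingHom.coe_coe, hπ, iv], (map_sign _ ((UM.z_top h z).2 _)).symm⟩
    rwa [Ideal.map_top] at this
  have um : ∀ σ τ i, u (σ * τ) (π σ i) = u σ (π σ i) * u τ i := fun σ τ i => by
    have h1 := UM.z_add h (hu σ) (act σ (hu τ))
    rw [← hc.2] at h1
    rw [UM.z_unique h h1 (hu _), iv']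
  obtain ⟨L, hL, hL'⟩ := exists_level c hc.1
  obtain ⟨r, hr'⟩ := UM.h90p π p1 pm u u2 um L fun σ hσ i => by
    have e := um 1 1 i
    rw [mul_one, p1] at e
    have k := hu σ
    rw [hL' σ hσ] at k
    rw [UM.z_unique h (hu 1) k i]
    exact mul_left_cancel₀ (ne_of_sq (u2 1 i) one_ne_zero) (by rw [← e, mul_one])
  have ec : ∀ φ : ℚ →+* Qbar, φ = Rat.castHom Qbar := fun φ => RingHom.ext_rat _ _
  have k2 : ∀ (σ : GQ) i, σ (r i ^ 2) = r (π σ i) ^ 2 := fun σ i => by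
    rw [map_pow, (hr' i).2 σ, mul_pow, u2, one_mul]
  obtain ⟨de, hd'⟩ := UM.interp (K := ℚ) (z := fun i => r i ^ 2) h.inj fun σ =>
    ⟨π σ, fun i => ⟨hπ σ i, k2 σ i⟩⟩
  have hd : ∀ i, (fK de Qbar).eval (a i) = r i ^ 2 := fun i =>
    (congrArg (fun φ => (de.map φ).eval (a i)) (ec _)).symm.trans (hd' i)
  have h' : Cv g a (f.map (algebraMap ℚ Qbar)) := ec (algebraMap _ _) ▸ h
  have cp : IsCoprime de f := (UM.cop_iff h').2 fun i => by
    rw [ec (algebraMap _ _), hd]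
    exact pow_ne_zero _ (hr' i).1
  have lc : ∀ (K : Type) [Field K] [CharZero K], JLoc f K c → Wc 1 (fK f K) (fK de K) := by
    intro K _ _ hK
    obtain ⟨U, V, z, h1, h2, h3, h4⟩ :=
      UM.loc h h0 hπ (fun σ i => ⟨_, iv σ i⟩) hu (fun σ i => (hr' i).2 σ) hd K hK
    refine ⟨cp.map (mapRingHom (Rat.castHom K)), U, V, z, h1, ?_, h3, ?_⟩
    · rwa [C_1, one_mul]
    · rwa [← mul_assoc]
  obtain ⟨R, hR⟩ := cover h hπ iv u2 (fun i => (hr' i).1) (fun σ i => (hr' i).2 σ) hd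
    (H de ⟨lc ℝ hr, fun p _ => lc _ (hp p)⟩)
  exact ⟨R, fun σ => UM.z_inj h (hR σ) (hu σ)⟩

end ShaA

theorem sha_k : SHAStmt := by
  intro g f h0 H
  obtain ⟨a, h⟩ := UM.exists_cv (F := fK f Qbar) h0.pos (h0.monic.map _)
    ((h0.monic.natDegree_map _).trans h0.deg) h0.sep.map
  refine JC.Sha.sha_two (UM.stab h) (fun P => ?_) fun c hc h2 hr hp =>
    ShaA.core h ⟨h0.monic, h0.deg, h0.sep.squarefree⟩ H hc h2 hr hp
  obtain ⟨R, hR⟩ := JC.T.half Qbar _ g _ _ h P.toMul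
  exact ⟨Additive.ofMul R, congrArg Additive.ofMul hR⟩

end Pool.Agent.MP_a43263_nt.K2

end

end PkK2Sha

section PkK2Sums

/-! Row SUMS: sums over the admissible pairs of types. -/

set_option autoImplicit false

noncomputable section

namespace Pool.Agent.MP_a43263_nt.K2

open Polynomial Finset Filter Matrix JC Pool.Agent.MP_a43263_nt.UV

namespace SumsA

theorem prod_le {α ι : Type} [Fintype ι] [DecidableEq ι] (E : Finset α) (φ : α → ι → ℕ) (B : ℕ)
    (inj : Set.InjOn φ E) (hB : ∀ e ∈ E, ∀ i, φ e i < B) (w : ℕ → ℝ) (hw : ∀ a, 0 ≤ w a) :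
    ∑ e ∈ E, ∏ i, w (φ e i) ≤ (∑ a ∈ range B, w a) ^ Fintype.card ι := by
  rw [← card_univ, ← prod_const, prod_univ_sum,
    ← sum_image (f := fun p : ι → ℕ => ∏ i, w (p i)) inj]
  refine sum_le_sum_of_subset_of_nonneg (fun p hp => ?_) fun p _ _ => prod_nonneg fun i _ => hw _
  obtain ⟨e, he, rfl⟩ := mem_image.1 hp
  exact Fintype.mem_piFinset.2 fun i => mem_range.2 (hB e he i)

theorem geo {r : ℝ} (h0 : 0 ≤ r) (h1 : r < 1) (B : ℕ) : ∑ a ∈ range B, r ^ a ≤ (1 - r)⁻¹ := by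
  have := geom_sum_Ico_le_of_lt_one (x := r) (m := 0) (n := B) h0 h1
  rwa [pow_zero, one_div, ← range_eq_Ico] at this

theorem full {r : ℝ} (h0 : 0 ≤ r) (h1 : r < 1) (G k : ℕ) :
    ∑ a ∈ range (G * k + 1), r ^ min a k ≤ (G + 2) * (1 - r)⁻¹ := by
  have h2 : ∑ a ∈ range (G * k + 1), r ^ min a k ≤ ∑ a ∈ range (G * k + 1), (r ^ a + r ^ k) :=
    sum_le_sum fun a _ => by
      rcases min_choice a k with h | h <;> rw [h]
      · exact le_add_of_nonneg_right (by positivity)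
      · exact le_add_of_nonneg_left (by positivity)
  rw [sum_add_distrib, sum_const, card_range, nsmul_eq_mul] at h2
  have h3 := geo h0 h1 (G * k + 1)
  have h4 : ((k + 1 : ℕ) : ℝ) * r ^ k ≤ (1 - r)⁻¹ := by
    refine le_trans ?_ (geo h0 h1 (k + 1))
    have := card_nsmul_le_sum (range (k + 1)) (fun a => r ^ a) (r ^ k) fun a ha =>
      pow_le_pow_of_le_one h0 h1.le (Nat.lt_succ_iff.1 (mem_range.1 ha))
    rwa [card_range, nsmul_eq_mul] at this
  have h5 : (0 : ℝ) ≤ r ^ k := by positivity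
  have h6 : (0 : ℝ) ≤ G := Nat.cast_nonneg _
  have h7 : (0 : ℝ) ≤ k := Nat.cast_nonneg _
  push_cast at h2 h4
  have h8 := mul_le_mul_of_nonneg_left h4 (show (0 : ℝ) ≤ G + 1 by positivity)
  have h9 := mul_nonneg h6 h5
  have h10 := mul_nonneg h7 h5
  nlinarith

theorem half_le {D s : ℕ} (h : 2 * s ≤ D) : (2 : ℝ) ^ (-(D : ℤ)) ≤ (3 / 4) ^ D / 2 ^ s := by
  rw [_root_.zpow_neg, _root_.zpow_natCast, ← inv_pow, div_eq_mul_one_div _ ((2 : ℝ) ^ s),
    ← _root_.one_div_pow,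
    show (2⁻¹ : ℝ) ^ D = (3 / 4) ^ D * (2 / 3) ^ D by rw [← mul_pow]; norm_num]
  refine mul_le_mul_of_nonneg_left ((pow_le_pow_of_le_one (by norm_num) (by norm_num)
    h).trans ?_) (by positivity)
  rw [pow_mul]
  exact pow_le_pow_left₀ (by norm_num) (by norm_num) s

variable {g k : ℕ} {e e' : Fin (2 * g + 1) → ℤ}

theorem stp (h : Adm2 k e e') : UC.Stp (2 * k) e ∧ UC.Stp (2 * k) e' := by
  refine ⟨fun p q hq => ?_, fun p q hq => ?_⟩ <;>
  · have h1 := abs_le.1 (h.c1 p)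
    have h2 := abs_le.1 (h.c1 q)
    have h3 := h.c2 p q hq
    push_cast
    omega

theorem le' (h : Adm2 k e e') (d : ℕ) : ∀ p : Fin (2 * g + 1), p.1 + d + 1 = g →
    -e' p ≤ (d * (2 * k) + k : ℕ) := by
  induction d with
  | zero =>
    intro p hp
    have h3 := h.c3
    simp only [Dp, not_forall, not_lt] at h3
    obtain ⟨i, hi⟩ := h3
    have h1 := h.ex'.1 (show UC.lo i ≤ p from Fin.le_def.2 (by
      have := i.2
      simp only [UC.lo]
      omega))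
    push_cast
    omega
  | succ d ih =>
    intro p hp
    have h1 := ih ⟨p.1 + 1, by omega⟩ (by simp only; omega)
    have h2 := (stp h).2 p ⟨p.1 + 1, by omega⟩ rfl
    push_cast at h1 h2 ⊢
    linarith

theorem le'' (h : Adm2 k e e') (i : Fin g) : -e' (UC.lo i) + k ≤ ((g - i) * (2 * k) : ℕ) := by
  have hi := i.2
  have h1 := le' h (g - i - 1) (UC.lo i) (by simp only [UC.lo]; omega)
  obtain ⟨d, hd⟩ : ∃ d, g - i = d + 1 := ⟨g - i - 1, by omega⟩
  rw [hd] at h1 ⊢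
  rw [Nat.add_sub_cancel] at h1
  push_cast at h1 ⊢
  linarith

theorem dp_eq : dp k e = ∑ i : Fin g, ((((g - i) * (2 * k) : ℕ) : ℤ) + e (UC.lo i)) := by
  rw [dp, sum_add_distrib, ← Nat.cast_sum, ← sum_mul, UC.Sum.tri_eq, mul_comm]

end SumsA

open SumsA

theorem sums_k : SUMStmt := by
  intro g hg
  obtain ⟨r, r0, r1, rg⟩ : ∃ r : ℝ, 0 ≤ r ∧ r < 1 ∧ r ^ (g + g) = 3 / 4 := by
    refine ⟨(3 / 4 : ℝ) ^ (((g + g : ℕ) : ℝ)⁻¹), by positivity, ?_,
      Real.rpow_inv_natCast_pow (by norm_num) (by omega)⟩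
    exact Real.rpow_lt_one (by norm_num) (by norm_num)
      (inv_pos.2 (Nat.cast_pos.2 (by omega)))
  have rp : 0 < (1 - r)⁻¹ := inv_pos.2 (by linarith)
  refine ⟨(((2 * g : ℕ) + 2) * (1 - r)⁻¹) ^ (g + g) + 8 ^ (g + g), by positivity, fun k E hE => ?_⟩
  have hc : Fintype.card (Fin g ⊕ Fin g) = g + g := by simp
  refine ⟨fun s hs => ?_, fun x hx => ?_, fun s hs => ?_⟩
  · let a : (Fin (2 * g + 1) → ℤ) × (Fin (2 * g + 1) → ℤ) → Fin g ⊕ Fin g → ℕ := fun x =>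
      Sum.elim (fun i => (-x.1 (UC.lo i)).toNat) fun i => (-x.2 (UC.lo i)).toNat
    have ha : ∀ x ∈ E, ∀ i, (a x (.inl i) : ℤ) = -x.1 (UC.lo i) := fun x hx i =>
      Int.toNat_of_nonneg (UC.Sum.nonneg (hE x hx).ex i)
    have ha' : ∀ x ∈ E, ∀ i, (a x (.inr i) : ℤ) = -x.2 (UC.lo i) := fun x hx i =>
      Int.toNat_of_nonneg (UC.Sum.nonneg (hE x hx).ex' i)
    have inj : Set.InjOn a E := fun x hx y hy h => Prod.ext
      (UC.Sum.ext (hE x hx).ex (hE y hy).ex fun i => by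
        have h1 := ha x hx i
        rw [h, ha y hy i] at h1
        omega)
      (UC.Sum.ext (hE x hx).ex' (hE y hy).ex' fun i => by
        have h1 := ha' x hx i
        rw [h, ha' y hy i] at h1
        omega)
    have hB : ∀ x ∈ E, ∀ i, a x i < 2 * g * k + 1 := fun x hx i => by
      have h0 : g * (2 * k) = 2 * g * k := by ring
      rcases i with i | i
      · have h1 := UC.Sum.le (hE x hx).ex (stp (hE x hx)).1 i
        have h2 := UC.Sum.le' (k := 2 * k) i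
        have h3 := ha x hx i
        omega
      · have h1 := UC.Sum.le (hE x hx).ex' (stp (hE x hx)).2 i
        have h2 := UC.Sum.le' (k := 2 * k) i
        have h3 := ha' x hx i
        omega
    have e2 : ∀ x ∈ E, (2 : ℝ) ^ (-gn k x.1 x.2) ≤ (∏ i, r ^ min (a x i) k) / 2 ^ s :=
      fun x hx => by
        have h1 := hs x hx
        obtain ⟨D, hD⟩ := Int.eq_ofNat_of_zero_le (show 0 ≤ gn k x.1 x.2 by omega)
        rw [hD] at h1 ⊢
        refine (half_le (s := s) (by omega)).trans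
          (div_le_div_of_nonneg_right ?_ (by positivity))
        rw [← rg, ← pow_mul, mul_comm, pow_mul, ← hc, ← card_univ, ← prod_const]
        refine prod_le_prod (fun _ _ => by positivity) fun i _ =>
          pow_le_pow_of_le_one r0 r1.le ?_
        rw [gn] at hD
        rcases i with i | i
        · have h3 := ha x hx i
          have h4 := (hE x hx).ex.1 (Fin.zero_le (UC.lo i))
          omega
        · have h3 := ha' x hx i
          have h4 := (hE x hx).ex'.1 (Fin.zero_le (UC.lo i))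
          omega
    refine (sum_le_sum e2).trans ?_
    rw [← sum_div]
    refine div_le_div_of_nonneg_right ((prod_le E a _ inj hB (fun x => r ^ min x k)
      fun _ => by positivity).trans ?_) (by positivity)
    rw [hc]
    exact (pow_le_pow_left₀ (sum_nonneg fun _ _ => by positivity) (full r0 r1 (2 * g) k) _).trans
      (le_add_of_nonneg_right (by positivity))
  · rw [dp_eq]
    refine sum_nonneg fun i _ => ?_
    have h1 := UC.Sum.le (hE x hx).ex (stp (hE x hx)).1 i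
    omega
  · let t : (Fin (2 * g + 1) → ℤ) × (Fin (2 * g + 1) → ℤ) → Fin g ⊕ Fin g → ℕ := fun x =>
      Sum.elim (fun i => ((((g - i) * (2 * k) : ℕ) : ℤ) + x.1 (UC.lo i)).toNat)
        fun i => ((((g - i) * (2 * k) : ℕ) : ℤ) - k + x.2 (UC.lo i)).toNat
    have ht : ∀ x ∈ E, ∀ i, (t x (.inl i) : ℤ) = ((g - i) * (2 * k) : ℕ) + x.1 (UC.lo i) :=
      fun x hx i => Int.toNat_of_nonneg (by
        have h1 := UC.Sum.le (hE x hx).ex (stp (hE x hx)).1 i
        omega)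
    have ht' : ∀ x ∈ E, ∀ i, (t x (.inr i) : ℤ) = ((g - i) * (2 * k) : ℕ) - k + x.2 (UC.lo i) :=
      fun x hx i => Int.toNat_of_nonneg (by
        have h1 := le'' (hE x hx) i
        omega)
    have inj : Set.InjOn t E := fun x hx y hy h => Prod.ext
      (UC.Sum.ext (hE x hx).ex (hE y hy).ex fun i => by
        have h1 := ht x hx i
        rw [h, ht y hy i] at h1
        omega)
      (UC.Sum.ext (hE x hx).ex' (hE y hy).ex' fun i => by
        have h1 := ht' x hx i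
        rw [h, ht' y hy i] at h1
        omega)
    have hB : ∀ x ∈ E, ∀ i, t x i < g * (2 * k) + 1 := fun x hx i => by
      rcases i with i | i
      · have h1 := UC.Sum.nonneg (hE x hx).ex i
        have h2 := UC.Sum.le' (k := 2 * k) i
        have h3 := ht x hx i
        omega
      · have h1 := UC.Sum.nonneg (hE x hx).ex' i
        have h2 := UC.Sum.le' (k := 2 * k) i
        have h3 := ht' x hx i
        omega
    have e2 : ∀ x ∈ E, (2 : ℝ) ^ (-dp k x.1) ≤ (∏ i, (7 / 8 : ℝ) ^ t x i) / 2 ^ s :=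
      fun x hx => by
        have h1 := hs x hx
        have hD : dp k x.1 = (∑ i, t x (.inl i) : ℕ) := by
          rw [dp_eq, Nat.cast_sum]
          exact sum_congr rfl fun i _ => (ht x hx i).symm
        have h2 : ∑ i, t x (.inr i) ≤ ∑ i, t x (.inl i) := sum_le_sum fun i _ => by
          have h3 := ht x hx i
          have h4 := ht' x hx i
          have h5 := abs_le.1 ((hE x hx).c1 (UC.lo i))
          omega
        rw [hD] at h1 ⊢
        refine (half_le (s := s) (by omega)).trans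
          (div_le_div_of_nonneg_right ?_ (by positivity))
        rw [prod_pow_eq_pow_sum, Fintype.sum_sum_type]
        generalize ∑ i, t x (.inl i) = D at h2 ⊢
        refine le_trans ?_ (pow_le_pow_of_le_one (by norm_num) (by norm_num)
          (Nat.add_le_add_left h2 D))
        rw [← two_mul, pow_mul]
        exact pow_le_pow_left₀ (by norm_num) (by norm_num) D
    refine (sum_le_sum e2).trans ?_
    rw [← sum_div]
    refine div_le_div_of_nonneg_right ((prod_le E t _ inj hB (fun x => (7 / 8 : ℝ) ^ x)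
      fun _ => by positivity).trans ?_) (by positivity)
    rw [hc]
    refine (pow_le_pow_left₀ (sum_nonneg fun _ _ => by positivity) ?_ _).trans
      (le_add_of_nonneg_left (by positivity))
    exact (geo (by norm_num) (by norm_num) _).trans (by norm_num)

end Pool.Agent.MP_a43263_nt.K2

end

end PkK2Sums

section PkK2Tor

/-! THEOREM R2: no rational points of order two. -/

set_option autoImplicit false

namespace Pool.Agent.MP_a43263_nt.K2

open Polynomial Finset JC JC.Sha UM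

theorem tor_k : TORStmt := by
  intro g f h0 hi P hP
  obtain ⟨a, h⟩ := exists_cv (F := fK f Qbar) h0.pos (h0.monic.map _)
    ((h0.monic.natDegree_map _).trans h0.deg) h0.sep.map
  obtain ⟨π, hπ, p1, pm⟩ := exists_perm h
  have iv : ∀ σ i, π σ (π σ⁻¹ i) = i := fun σ i => by rw [← pm, mul_inv_cancel, p1]
  have iv' : ∀ σ i, π σ⁻¹ (π σ i) = i := fun σ i => by rw [← pm, inv_mul_cancel, p1]
  obtain ⟨ρ, z⟩ := z_ex h (R := P.1) (congrArg Subtype.val hP)
  have r2 := (z_top h z).2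
  have ec : ∀ φ : ℚ →+* Qbar, φ = Rat.castHom Qbar := fun φ => RingHom.ext_rat _ _
  have eq : ∀ (σ : GQ) i, σ (ρ i) = ρ (π σ i) := fun σ i => by
    have k := z_map h (σ : Qbar →+* Qbar) (b := a) (η := fun i => ρ (π σ⁻¹ i)) z fun i =>
      ⟨π σ⁻¹ i, by rw [RingHom.coe_coe, hπ, iv], (map_sign _ (r2 _)).symm⟩
    rw [Ideal.map_top, show jmap f (σ : Qbar →+* Qbar) P.1 = P.1 from P.2 σ] at k
    rw [← z_unique h z k (π σ i), iv']
    exact map_sign (σ : Qbar →+* Qbar) (r2 i)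
  obtain ⟨p, hp'⟩ := interp (K := ℚ) (z := ρ) h.inj fun σ => ⟨π σ, fun i => ⟨hπ σ i, eq σ i⟩⟩
  have hp : ∀ i, (fK p Qbar).eval (a i) = ρ i := fun i =>
    (congrArg (fun φ => (p.map φ).eval (a i)) (ec _)).symm.trans (hp' i)
  have d : f ∣ (p - 1) * (p + 1) := dvd_of_roots (Rat.castHom Qbar) h fun i => by
    simp only [Polynomial.map_mul, Polynomial.map_sub, Polynomial.map_add, Polynomial.map_one,
      eval_mul, eval_sub, eval_add, eval_one, hp]
    linear_combination r2 i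
  have rt : ∀ (q : ℚ[X]) i, f ∣ q → (q.map (Rat.castHom Qbar)).eval (a i) = 0 := by
    rintro _ i ⟨q, rfl⟩
    rw [Polynomial.map_mul, eval_mul, (root_iff h _).2 ⟨i, rfl⟩, zero_mul]
  obtain ⟨k1, k2⟩ := (JC.T.zt Qbar _ g _ _ h).1 _ _ z
  refine Subtype.ext (k2 fun i => ?_)
  rcases hi.prime.dvd_or_dvd d with c | c
  · have := rt _ i c
    rwa [Polynomial.map_sub, Polynomial.map_one, eval_sub, eval_one, hp, sub_eq_zero] at this
  · have e : ∀ i, ρ i = -1 := fun i => by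
      have := rt _ i c
      rwa [Polynomial.map_add, Polynomial.map_one, eval_add, eval_one, hp,
        add_eq_zero_iff_eq_neg] at this
    rw [prod_congr rfl fun i _ => e i, prod_const, card_univ, h.card,
      (odd_two_mul_add_one g).neg_one_pow] at k1
    norm_num at k1

end Pool.Agent.MP_a43263_nt.K2

end PkK2Tor

section PkK2Two

/-! THEOREM R2: the condition at two does not move. -/

set_option autoImplicit false

noncomputable section

namespace Pool.Agent.MP_a43263_nt.K2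

open Polynomial Finset Filter Matrix JC Pool.Agent.MP_a43263_nt.UV

namespace TwoA

variable {K : Type} [Field K]

/-- from irreducible divisors to all divisors -/
theorem all {P : K[X] → Prop} {F V κ : K[X]} (h1 : P 1) (hm : ∀ a b, P a → P b → P (a * b))
    (hi : ∀ U : K[X], U.Monic → Irreducible U → U ∣ F - V ^ 2 → IsCoprime U F →
      P ((C ((-1) ^ U.natDegree) * U).comp κ)) (n : ℕ) : ∀ U : K[X], U.natDegree = n → U.Monic →
    U ∣ F - V ^ 2 → IsCoprime U F → P ((C ((-1) ^ U.natDegree) * U).comp κ) := by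
  induction n using Nat.strong_induction_on with
  | _ n ih =>
    intro U hn hU hd hc
    by_cases e : U = 1
    · simpa [e] using h1
    obtain ⟨φ, a, b, U', rfl⟩ := exists_monic_irreducible_factor U fun c => e (hU.eq_one_of_isUnit c)
    have m : U'.Monic := a.of_mul_monic_left hU
    have d := a.natDegree_mul m
    have := hm _ _ (hi φ a b ((dvd_mul_right _ _).trans hd) hc.of_mul_left_left)
      (ih U'.natDegree (by have := b.natDegree_pos; omega) U' rfl m ((dvd_mul_left _ _).trans hd)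
        hc.of_mul_left_right)
    rwa [← mul_comp, mul_mul_mul_comm, ← C_mul, ← pow_add, ← d] at this

end TwoA

theorem two_k : ISOStmt → WSQStmt → PT2Stmt → TWOStmt := by
  intro iso wsq pt g f F κ u v G δ hz hc hv hu ⟨δ', ⟨⟨a, b, h0⟩, U, V, s, h1, h2, h3, h4⟩, h5⟩
  have hI := (iso g f F κ u v G hz hc).2 ℚ_[2]
  obtain ⟨w1, w2, -⟩ := wg gram ℚ_[2] g 1 _ (hz.sq ℚ_[2]) one_ne_zero
  rw [C_1, one_mul] at h2
  have h6 := TwoA.all (P := Wc 1 (zK f ℚ_[2])) w1 w2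
    (fun U' => pt g f F κ u v G U' V hz hc hv hu) _ U rfl h1 h2 h3
  obtain ⟨y, hy⟩ := h5
  refine wsq _ _ _ δ h6 ?_ ?_
  · obtain ⟨z, e⟩ := (hI.ker (a * δ' - 1)).2 ⟨-b, by linear_combination h0⟩
    rw [sub_comp, mul_comp, one_comp] at e
    exact ⟨a.comp (zK κ ℚ_[2]), -(z + a.comp (zK κ ℚ_[2]) * y), by
      linear_combination e + a.comp (zK κ ℚ_[2]) * hy⟩
  · obtain ⟨z, e⟩ := (hI.ker _).2 h4
    rw [sub_comp, mul_comp δ', pow_comp] at e
    exact ⟨s.comp (zK κ ℚ_[2]), z + (C ((-1) ^ U.natDegree) * U).comp (zK κ ℚ_[2]) * y, by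
      linear_combination e + (C ((-1) ^ U.natDegree) * U).comp (zK κ ℚ_[2]) * hy⟩

end Pool.Agent.MP_a43263_nt.K2

end

end PkK2Two
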