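import Pool.Agent.MP_a43263_nt.NP.K2
import Pool.Agent.MP_a43263_nt.NP.K3
import Pool.Agent.MP_a43263_nt.NP.C1
import Pool.Agent.MP_a43263_nt.NP.K4
import Pool.Agent.MP_a43263_nt.NP.C5
import Pool.Agent.MP_a43263_nt.NP.K1
import Pool.Agent.MP_a43263_nt.NP.C3
import Pool.Agent.MP_a43263_nt.NP.B4
import Pool.Agent.MP_a43263_nt.NP.B1
import Pool.Agent.MP_a43263_nt.NP.D2
import Pool.Agent.MP_a43263_nt.NP.B2
import Pool.Agent.MP_a43263_nt.NP.C4
import Pool.Agent.MP_a43263_nt.NP.B3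
import Pool.Agent.MP_a43263_nt.NP.D3
import Pool.Agent.MP_a43263_nt.NP.C2

/-! Packed rows. -/

section PkN2All

/-! THEOREM N2: assembly. -/

set_option autoImplicit false

namespace Pool.Agent.MP_a43263_nt.N2

open K2

theorem allp : ALLStmt :=
  all_of (siv_k gal_k) geo_k lsm_n nc_n var_n pha_n apl_n cbx_n shf_n siz_n mul_n phb_n mom_n
    m1_n m2_n all_n

theorem killp : KILLStmt :=
  have hW := wtg_k iso_k wsq_k
  kill_of hW (qst_k iso_k) (ev1_k hW (mob_k iso_k) evh_k) (ev2_k hW (mob_k iso_k) evh_k)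
    (ram2_k hW (qst_k iso_k)) (two_k iso_k wsq_k (pt2_k iso_k wsq_k)) (real_k wsq_k) hen_n ngm_n
    shz_n locg_n beg_n ramg_n rec_n kill_n

theorem fmp : FMStmt :=
  fm_of chg_k lat_k tri_k (maj_k chg_k) (red_k chg_k) (adm_k chg_k) exp_k sums_k fc_k
    (ngm_n hen_n) (shz_n hen_n) glu_n loca_n locb_n shp_n stq_n mtx_n pre_n hyp_n lagc_n lgo_n
    ovl_n ovf_n fh_n trp_n lop_n ltp_n nis_n fam_n badn_n inv_n uni_n box_n core_n count_n qz_n
    tup_n bas_n isc_n flg_n dtw_n den_n fma_n fm_n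

theorem main : MainStmt :=
  main_of trn_k mod_k pos_k iso_k (ind_k ns_k)
    (four_k iso_k (wtg_k iso_k wsq_k) (desc_k wsq_k sha_k idx_k tor_k)) (beta_k trn_k) gcd_k
    (base_k trn_k irr_k) cbx_n siz_n allp mset_n killp fmp pvx_n rts_n lwn_n lwx_n low_n sieve_n
    cls_n one_n bse_n mny_n fin_n

end Pool.Agent.MP_a43263_nt.N2

end PkN2All
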