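import Pool.Agent.MP_a43263_nt.N2.SpecB

/-! Packed rows. -/

section PkN2Ltp

/-! THEOREM N2, row LTP: the conditions at the primes of `Q` and at the unramified primes. -/

set_option autoImplicit false

noncomputable section

namespace Pool.Agent.MP_a43263_nt.N2

open Polynomial Finset Filter Matrix JC Pool.Agent.MP_a43263_nt.UV K2

namespace LtpA

open UC.Chg

variable {g : ℕ} {F : Type} [CommRing F]

theorem st_cg {f : F[X]} {A B γ γ' : Mat g F} (h : γ * γ' = 1) (s : St f A B) :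
    St f (γᵀ * A * γ) (γᵀ * B * γ) := by
  obtain ⟨T, c0, c, x, s, s0, x1, x2⟩ := s
  refine ⟨γ' * T * γ, by rw [mul1 h, c0], (chp h).trans c, γ' *ᵥ x, s, s0, ?_, ?_⟩
  · rw [mulVec_mulVec, Matrix.mul_assoc, h, Matrix.mul_one, ← mulVec_mulVec, x1, mulVec_zero]
  · rw [UC.Chg.form, mulVec_mulVec, h, one_mulVec, x2]

theorem hz_cg {S γ γ' : Mat g F} (h : γ * γ' = 1) (s : Hz g S) : Hz g (γᵀ * S * γ) := by
  obtain ⟨Γ, e, u, e1, e2, e3⟩ := s
  refine ⟨γ' * Γ, e, ?_, e1, e2, ?_⟩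
  · rw [det_mul]
    exact (isUnit_det_of_left_inverse h).mul u
  · rw [← e3, transpose_mul]
    calc Γᵀ * γ'ᵀ * (γᵀ * S * γ) * (γ' * Γ) = Γᵀ * (γ * γ')ᵀ * S * (γ * γ') * Γ := by
          simp only [transpose_mul, Matrix.mul_assoc]
      _ = _ := by rw [h, transpose_one, Matrix.mul_one, Matrix.mul_one]

/-- the relations over a ring in which `m` is invertible -/
theorem core {A R R₁ B S T : Mat g F} {c m : F} (hc : c * m = 1) (h1 : R * R₁ = m • 1)
    (h2 : Rᵀ * A * R = m ^ 2 • B) (h3 : R * S = ((1 - m ^ 2) • (1 : Mat g F) + m ^ 2 • T) * R) :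
    (c • R) * R₁ = 1 ∧ B = (c • R)ᵀ * A * (c • R) ∧
      1 - S = m ^ 2 • (1 - R₁ * T * (c • R)) := by
  have k1 : (c • R) * R₁ = 1 := by rw [Matrix.smul_mul, h1, smul_smul, hc, one_smul]
  have k2 : R₁ * (c • R) = 1 := mul_eq_one_comm.1 k1
  refine ⟨k1, ?_, ?_⟩
  · rw [transpose_smul, Matrix.smul_mul, Matrix.smul_mul, Matrix.mul_smul, h2, smul_smul,
      smul_smul, show c * c * m ^ 2 = (c * m) ^ 2 by ring, hc, one_pow, one_smul]
  · have k3 : S = R₁ * (((1 - m ^ 2) • (1 : Mat g F) + m ^ 2 • T) * (c • R)) := by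
      rw [Matrix.mul_smul _ c R, ← h3, ← Matrix.smul_mul, ← Matrix.mul_assoc, k2, Matrix.one_mul]
    rw [k3, Matrix.add_mul, Matrix.mul_add, Matrix.smul_mul, Matrix.one_mul, Matrix.mul_smul R₁,
      k2, Matrix.smul_mul, Matrix.mul_smul R₁ (m ^ 2), Matrix.mul_assoc, sub_smul, smul_sub,
      one_smul]
    abel

theorem tt_smul (B B' N : Mat g F) (c : F) :
    Tt B B' (c • N) = 1 - c ^ 2 • (1 - Tt B B' N) := by
  rw [Tt, Tt, sub_sub_cancel, transpose_smul, Matrix.mul_smul, Matrix.mul_smul, Matrix.smul_mul,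
    Matrix.smul_mul, smul_smul, sq]

theorem mk_inv {A : Mat g ℤ} (hA : IsUnit A.det) : mK A⁻¹ F = (mK A F)⁻¹ :=
  (Matrix.inv_eq_left_inv (by
    rw [← mK_mul, Matrix.nonsing_inv_mul _ hA]
    exact Matrix.map_one _ (map_zero _) (map_one _))).symm

theorem mk_one : mK (1 : Mat g ℤ) F = 1 := Matrix.map_one _ (map_zero _) (map_one _)

theorem mk_add (A B : Mat g ℤ) : mK (A + B) F = mK A F + mK B F := by
  ext i j; simp

theorem mk_sub (A B : Mat g ℤ) : mK (A - B) F = mK A F - mK B F := by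
  ext i j; simp

theorem mk_smul (c : ℤ) (A : Mat g ℤ) : mK (c • A) F = (c : F) • mK A F := by
  ext i j
  rw [mK_apply, Matrix.smul_apply, Matrix.smul_apply, mK_apply, smul_eq_mul, smul_eq_mul,
    Int.cast_mul]

theorem mk_tt {A A' : Mat g ℤ} (N : Mat g ℤ) (hA : IsUnit A.det) (hA' : IsUnit A'.det) :
    mK (Tt A A' N) F = Tt (mK A F) (mK A' F) (mK N F) := by
  rw [Tt, Tt, mk_sub, mk_one, mK_mul, mK_mul, mK_mul, mk_inv hA, mk_inv hA', mK_transpose]

/-- the relations modulo anything prime to `m₁` -/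
theorem red {m₁ : ℕ} {A R R₁ B B' N T : Mat g ℤ} {c : F} (hc : c * m₁ = 1)
    (hB : IsUnit B.det) (hB' : IsUnit B'.det) (h1 : R * R₁ = (m₁ : ℤ) • 1)
    (h2 : Rᵀ * A * R = ((m₁ : ℤ) ^ 2) • B)
    (h3 : R * Tt B B' N = ((1 - (m₁ : ℤ) ^ 2) • (1 : Mat g ℤ) + ((m₁ : ℤ) ^ 2) • T) * R) :
    (c • mK R F) * mK R₁ F = 1 ∧ mK B F = (c • mK R F)ᵀ * mK A F * (c • mK R F) ∧
      1 - Tt (mK B F) (mK B' F) (mK N F) =
        (m₁ : F) ^ 2 • (1 - mK R₁ F * mK T F * (c • mK R F)) := by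
  refine core hc ?_ ?_ ?_
  · rw [← mK_mul, h1, mk_smul, mk_one, Int.cast_natCast]
  · rw [← mK_transpose, ← mK_mul, ← mK_mul, h2, mk_smul]
    push_cast
    rfl
  · rw [← mk_tt N hB hB', ← mK_mul, h3, mK_mul, mk_add, mk_smul, mk_smul, mk_one]
    push_cast
    rfl

theorem inv_ex {p m : ℕ} (hp : p.Prime) (h : ¬p ∣ m) : ∃ c : ZMod p, c * m = 1 :=
  ((ZMod.isUnit_iff_coprime m p).2 ((Nat.Prime.coprime_iff_not_dvd hp).2 h).symm).exists_left_inv

end LtpA

open LtpA UC.Chg in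
theorem ltp_n : CHGStmt → OVFStmt → LTPStmt := by
  intro _ ovf g Q m₀ m₁ a f m A A' M T R R' B B' N Λ Λ' hS hF hd hP hO hO' hT
  obtain ⟨-, -, ⟨R₁, h1⟩, -⟩ := ovf g m₁ A R B Λ (hS.sf.squarefree_of_dvd hd) hP.sa hO
  refine ⟨fun q hq => ?_, fun p hp h0 hn => ?_⟩
  · obtain ⟨c, hc⟩ := inv_ex (hF.ty q hq).1 fun h => hS.cop q hq (h.trans hd)
    obtain ⟨k1, k2, k3⟩ := red hc hO.un hO'.un h1 hO.eq hT.cj
    refine ⟨c, hc, ?_, ?_⟩
    · rw [tt_smul, k3, smul_smul, ← mul_pow, hc, one_pow, one_smul, sub_sub_cancel, k2, mul1 k1,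
        ← mK_mul]
      exact st_cg k1 (hP.sq q hq)
    · rw [det_smul, mK_det, hT.tri.dt, Fintype.card_fin]
      push_cast
      rw [← mul_assoc, ← mul_pow, hc, one_pow, one_mul]
  · obtain ⟨c, hc⟩ := inv_ex hp hn
    obtain ⟨k1, k2, k3⟩ := red hc hO.un hO'.un h1 hO.eq hT.cj
    have k4 : mK R (ZMod p) * (c • mK R₁ (ZMod p)) = 1 := by
      rw [Matrix.mul_smul, ← Matrix.smul_mul, k1]
    have k5 := hz_cg k4 (hP.hz p hp h0 hn)
    have k6 : mK R (ZMod p) = (m₁ : ZMod p) • c • mK R (ZMod p) := by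
      rw [smul_smul, mul_comm _ c, hc, one_smul]
    have k7 : Tt (mK B (ZMod p)) (mK B' (ZMod p)) (mK N (ZMod p)) = 1 - (m₁ : ZMod p) ^ 2 •
        (1 - mK R₁ (ZMod p) * mK T (ZMod p) * (c • mK R (ZMod p))) := by
      rw [← k3, sub_sub_cancel]
    unfold L2
    convert k5 using 1
    rw [mk_add, mk_smul, mK_mul, mk_tt N hO.un hO'.un, k7, mk_sub, mK_mul, mk_smul]
    generalize c • mK R (ZMod p) = γ at k1 k2 k6 ⊢
    rw [k6, Matrix.mul_sub, Matrix.mul_smul, Matrix.mul_sub, Matrix.mul_one, k2, mul1 k1]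
    simp only [transpose_smul, Matrix.smul_mul, Matrix.mul_smul, Matrix.mul_sub, Matrix.sub_mul]
    push_cast
    module

end Pool.Agent.MP_a43263_nt.N2

end

end PkN2Ltp

section PkN2Mtx

/-! THEOREM N2: facts on the matrices of a basis. -/

set_option autoImplicit false

noncomputable section

namespace Pool.Agent.MP_a43263_nt.N2

open Polynomial Finset Filter Matrix JC Pool.Agent.MP_a43263_nt.UV K2

theorem mtx_n : MTXStmt := by
  intro g f δ Λ b A T hf hδ hN hb hm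
  have h1 : ∀ i j, ((A * T) i j : ℚ) = ta g (zK f ℚ) (δ * b i * (X * b j)) := fun i j => by
    rw [ta_congr (hf.mo ℚ) (Q := δ * b i * ∑ k, C (T k j : ℚ) * b k)
      (by rw [← mul_sub]; exact (hm.mul j).mul_left _), Bas.ta_comb hm.gram]
    simp [mul_apply, mulVec, dotProduct]
  obtain ⟨P, hP, hA⟩ : ∃ P : Mat g ℚ, P.det ≠ 0 ∧ mK A ℚ = Pᵀ * Gm g (zK f ℚ) δ * P := by
    refine ⟨Matrix.of fun k j => ve _ (zK f ℚ) (b j) k, fun h0 => ?_, ?_⟩
    · obtain ⟨y, hy, hy0⟩ := exists_mulVec_eq_zero_iff.2 h0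
      refine hy (hb.ind y ?_)
      have e : ∑ j, y j • ve (2 * g + 1) (zK f ℚ) (b j) = 0 := by
        rw [← hy0]
        funext k
        simp [mulVec, dotProduct, Finset.sum_apply, mul_comm]
      have a := Finset.dvd_sum (s := univ) fun j _ => (Bas.dvd_ve hf (b j)).mul_left (C (y j))
      simp only [mul_sub, sum_sub_distrib] at a
      rw [← Bas.po_sum, e] at a
      simpa [po] using a
    · ext i j
      rw [mK_apply, hm.gram, Locq.conj_apply, Gm_form]
      refine ta_congr (hf.mo ℚ) ?_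
      change _ ∣ _ - δ * po (ve _ _ (b i)) * po (ve _ _ (b j))
      refine (dvd_add ((Bas.dvd_ve hf (b i)).mul_right (δ * b j))
        ((Bas.dvd_ve hf (b j)).mul_right (δ * po (ve (2 * g + 1) (zK f ℚ) (b i))))).trans (dvd_of_eq ?_)
      ring
  have hd : ((A.det : ℤ) : ℚ) = P.det ^ 2 * ((-1) ^ g * Nm (zK f ℚ) δ) := by
    rw [← mK_det, hA, det_mul, det_mul, det_transpose, (gram.2 ℚ g _ (hf.sq ℚ)).1]
    ring
  have hn : Nm (zK f ℚ) δ ≠ 0 := (((gram.1 ℚ _ (hf.mo ℚ)).2.2.2.1 δ).2 hδ).ne_zero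
  refine ⟨?_, ?_, ?_, fun h0 => ?_, ?_, fun hs e he hi => hs ?_, fun i j => ?_, hm.mul⟩
  · ext i j
    refine Int.cast_injective (α := ℚ) ?_
    rw [transpose_apply, hm.gram, hm.gram, mul_right_comm]
  · ext i j
    refine Int.cast_injective (α := ℚ) ?_
    rw [transpose_apply, h1, h1]
    congr 1
    ring
  · have h1 : aeval (mK T ℚ) (zK f ℚ) = 0 := by
      refine ext_of_mulVec_single fun j => ?_
      rw [zero_mulVec]
      exact hb.ind _ ((dvd_sub_right (dvd_mul_right _ _)).1 (Bas.aeval_comb hm.mul _ _))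
    have h2 := minpoly_dvd_charpoly (mK T ℚ)
    rw [← minpoly.eq_of_irreducible_of_monic hf.irr h1 (hf.mo ℚ)] at h2
    refine Polynomial.map_injective (Int.castRingHom ℚ) Int.cast_injective ?_
    rw [← charpoly_map]
    exact eq_of_monic_of_dvd_of_natDegree_le (hf.mo ℚ) (charpoly_monic _) h2
      (by rw [charpoly_natDegree_eq_dim, hf.dg ℚ, Fintype.card_fin])
  · rw [h0, Int.cast_zero] at hd
    exact mul_ne_zero (pow_ne_zero 2 hP) (mul_ne_zero (pow_ne_zero g (by norm_num)) hn) hd.symm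
  · obtain ⟨s, hs⟩ := hN
    refine ⟨P.det * s, ?_⟩
    have e : ((-1 : ℚ) ^ g) * (-1) ^ g = 1 := by rw [← mul_pow]; simp
    rw [Int.cast_mul, hd, hs, Int.cast_pow, Int.cast_neg, Int.cast_one]
    linear_combination (P.det * s) ^ 2 * e
  · have ta2 : ∀ (w : Fin (2 * g + 1) → ℚ) (Q : ℚ[X]),
        ta g (zK f ℚ) (δ * (∑ k, C (w k) * b k) * Q) =
          ∑ k, w k * ta g (zK f ℚ) (δ * b k * Q) := fun w Q => by
      simp only [mul_sum, sum_mul, ta_sum, ← ta_C_mul]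
      refine sum_congr rfl fun k _ => ?_
      congr 1
      ring
    refine (uniq gram g (zK f ℚ) δ (fun i => ∑ k, C (e i k) * b k) (hf.sq ℚ) hf.irr hδ hN
      (fun z hz => ?_) fun i j => ⟨?_, ?_⟩).1
    · refine funext (Fintype.linearIndependent_iff.1 he z (hb.ind _ (hz.trans (dvd_of_eq ?_))))
      simp only [mul_sum, Finset.sum_apply, Pi.smul_apply, smul_eq_mul, map_sum, sum_mul, C_mul,
        mul_assoc]
      exact sum_comm
    · rw [ta2]
      simp only [Bas.ta_comb hm.gram]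
      exact (hi i j).1
    · have a := Bas.aeval_comb hm.mul X (e j)
      rw [aeval_X] at a
      rw [ta_congr (hf.mo ℚ) (Q := δ * (∑ k, C (e i k) * b k) *
        ∑ k, C ((mK T ℚ *ᵥ e j) k) * b k) (by rw [← mul_sub]; exact a.mul_left _), ta2]
      simp only [Bas.ta_comb hm.gram, mulVec_mulVec, ← mK_mul]
      exact (hi i j).2
  · rw [Matrix.mul_sub, Matrix.mul_one, Matrix.sub_apply, Int.cast_sub, h1, hm.gram, ← ta_sub]
    congr 1
    ring

end Pool.Agent.MP_a43263_nt.N2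

end

end PkN2Mtx

section PkN2Ngm

/-! THEOREM N2: the local invariants at a simple root are additive. -/

set_option autoImplicit false

noncomputable section

namespace Pool.Agent.MP_a43263_nt.N2

open Polynomial Finset Matrix JC Pool.Agent.MP_a43263_nt.UV K2

namespace NgmA

variable {p : ℕ} [Fact p.Prime] {g : ℕ} {f : ℤ[X]} {a : ℤ}

/-- the norm of the marked element -/
theorem nm_pw (hf : Zq g f) {α : ℤ_[p]} {h t : ℤ_[p][X]} (H : Ha p f a α h t) :
    ∃ u : ℤ_[p], PadicInt.toZMod u = ((rq p h).eval (a : ZMod p) ^ 2) ^ 2 ∧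
      Nm (zK f ℤ_[p]) (zK (pw p f a) ℤ_[p]) = ((p : ℤ_[p]) ^ g) ^ 2 * u := by
  have hdg := hf.dg ℤ_[p]
  have dh : h.natDegree = 2 * g := by
    rw [H.eq, (monic_X_sub_C α).natDegree_mul H.monic, natDegree_X_sub_C] at hdg
    omega
  obtain ⟨g1, g2, g3, -, -, g6⟩ := gram.1 _ _ H.monic
  have e1 : Nm (X - C α) (zK (pw p f a) ℤ_[p]) = (zK (pw p f a) ℤ_[p]).eval α := by
    rw [Nm, natDegree_X_sub_C, resultant_X_sub_C_left _ _ _ le_rfl]
  have e2 : PadicInt.toZMod (Nm h t) = (rq p h).eval (a : ZMod p) := by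
    rw [← g6, show t.map PadicInt.toZMod = _ from H.un, Nm, natDegree_X_sub_C,
      resultant_X_sub_C_right _ _ _ le_rfl, H.monic.natDegree_map, dh, pow_mul]
    simp
  refine ⟨(zK (pw p f a) ℤ_[p]).eval α * Nm h t, ?_, ?_⟩
  · rw [map_mul, H.val, e2]
    ring
  · rw [H.eq, Gram.nm_mul_left (monic_X_sub_C α) H.monic, e1, g2 _ _ H.pi, g1, g3, dh]
    ring

theorem nm_sq (hp : p ≠ 2) (hf : Zq g f) {α : ℤ_[p]} {h t : ℤ_[p][X]} (H : Ha p f a α h t) :
    Nm (zK f ℚ_[p]) (zK (pw p f a) ℚ_[p]) ≠ 0 ∧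
      IsSquare (Nm (zK f ℚ_[p]) (zK (pw p f a) ℚ_[p])) := by
  obtain ⟨u, h1, h2⟩ := nm_pw hf H
  have hu : IsUnit u := Locq.unit_iff.2 (h1 ▸ pow_ne_zero _ (pow_ne_zero _ H.ne))
  have hs : IsSquare (u : ℚ_[p]) := ((pad.1 p hp).1 u hu).2 (h1 ▸ IsSquare.sq _)
  have e : Nm (zK f ℚ_[p]) (zK (pw p f a) ℚ_[p]) = ((p : ℚ_[p]) ^ g) ^ 2 * u := by
    rw [← iq_zK, ← iq_zK, Gram.nm_map (hf.mo _), h2]
    simp
  have p0 : (p : ℚ_[p]) ≠ 0 := Nat.cast_ne_zero.2 (Fact.out : p.Prime).ne_zero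
  rw [e]
  exact ⟨mul_ne_zero (pow_ne_zero _ (pow_ne_zero _ p0)) (Locq.coe_ne hu),
    (IsSquare.sq _).mul hs⟩

theorem ev_ne (hr : Rt p f a) {r : (ZMod p)[X]} (hc : IsCoprime r (zK f (ZMod p))) :
    r.eval (a : ZMod p) ≠ 0 := fun e => by
  obtain ⟨u, v, e'⟩ := hc
  have z : (zK f (ZMod p)).eval (a : ZMod p) = 0 := by
    rw [zK, eval_intCast_map, Int.cast_id, eq_intCast]
    exact (ZMod.intCast_zmod_eq_zero_iff_dvd _ _).2 hr.1
  simpa [e, z] using congrArg (eval (a : ZMod p)) e'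

end NgmA

open NgmA Ram in
theorem ngm_n : HENStmt → NGMStmt := by
  intro hen p _ g f a hp hf hr
  obtain ⟨α, h, t, H⟩ := hen p g f a hf hr
  obtain ⟨n1, n2⟩ := nm_sq hp hf H
  have co : IsCoprime (zK (pw p f a) ℚ_[p]) (zK f ℚ_[p]) :=
    ((gram.1 _ _ (hf.mo _)).2.2.2.1 _).1 (IsUnit.mk0 _ n1)
  refine ⟨co, n2, ⟨1, 1, by simp, by simpa using isCoprime_one_left, by simp⟩, ?_,
    fun δ => ⟨?_, ?_⟩, ?_⟩
  · rintro δ δ' u y u' y' ⟨x, r, h1, h2, h3⟩ ⟨x', r', h4, h5, h6⟩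
    obtain ⟨b, c0, hab⟩ := co
    have k2 : IsCoprime (rq p (r * r')) (zK f (ZMod p)) := by
      simpa only [rq, Polynomial.map_mul] using h2.mul_left h5
    have k3 : IsSquare ((rq p (r * r')).eval (a : ZMod p)) ↔ u + u' = 0 := by
      rw [rq, Polynomial.map_mul, eval_mul]
      exact sq_mul (NgmA.ev_ne hr h2) (NgmA.ev_ne hr h5) h3 h6
    have k1 := dvd_mul_sub h1 h4
    have hy : ∀ y y' : ZMod 2, (y + y').val = y.val + y'.val ∨
        ((y + y').val = 0 ∧ y.val = 1 ∧ y'.val = 1) := by decide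
    rcases hy y y' with c | ⟨c, c1, c2⟩
    · refine ⟨x * x', r * r', ?_, k2, k3⟩
      rw [iq, Polynomial.map_mul, c, pow_add, mul_mul_mul_comm,
        show δ * δ' * (x * x') ^ 2 = δ * x ^ 2 * (δ' * x' ^ 2) by ring]
      exact k1
    · refine ⟨x * x' * b, r * r', ?_, k2, k3⟩
      rw [c1, c2] at k1
      rw [iq, Polynomial.map_mul, c]
      have k4 : zK f ℚ_[p] ∣ b * zK (pw p f a) ℚ_[p] - 1 := ⟨-c0, by linear_combination hab⟩
      have k5 := dvd_add (k1.mul_right (b ^ 2))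
        ((dvd_mul_sub k4 k4).mul_left (iq p r * iq p r'))
      refine (congrArg _ ?_).mp k5
      ring
  · rintro ⟨x, r, h1, h2⟩
    by_cases c : IsSquare ((rq p r).eval (a : ZMod p))
    · exact ⟨0, x, r, by simpa using h1, h2, iff_of_true c rfl⟩
    · exact ⟨1, x, r, by simpa using h1, h2, iff_of_false c one_ne_zero⟩
  · rintro ⟨u, x, r, h1, h2, -⟩
    exact ⟨x, r, by simpa using h1, h2⟩
  · rintro δ z s y ⟨x, r, h1, h2⟩
    exact ⟨z * x, r, by rwa [mul_pow, ← mul_assoc], h2⟩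

end Pool.Agent.MP_a43263_nt.N2

end

end PkN2Ngm

section PkN2Nis

/-! THEOREM N2: isomorphic triples come from the same Lagrangians. -/

set_option autoImplicit false

noncomputable section

namespace Pool.Agent.MP_a43263_nt.N2

open Polynomial Finset Filter Matrix JC Pool.Agent.MP_a43263_nt.UV K2

namespace NisA

variable {g : ℕ}

theorem cancel {F : Type} [CommRing F] [IsDomain F] {N P P' : Mat g F} (hN : N.det ≠ 0)
    (h : P * N = P' * N) : P = P' := by
  have := congrArg (fun M => M * N.adjugate) h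
  simp only [mul_assoc, mul_adjugate, mul_smul_comm, mul_one] at this
  exact smul_right_injective _ hN this

/-- an isometry in the centraliser is a sign -/
theorem sign {A T d : Mat g ℚ} (hA : A.det ≠ 0) (hT : Irreducible T.charpoly) (hc : Commute d T)
    (h : dᵀ * A * d = A) : d = 1 ∨ d = -1 := by
  obtain ⟨e, he⟩ : ∃ e, e = d.det := ⟨_, rfl⟩
  have e2 : e * e = 1 := by
    have := congrArg det h
    rw [det_mul, det_mul, det_transpose, ← he] at this
    exact mul_right_cancel₀ hA (by linear_combination this)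
  have k : dᵀ * A * (d - e • 1) = ((-e) • (d - e • 1))ᵀ * A := by
    rw [Matrix.mul_sub, h, smul_sub, smul_smul, neg_mul, e2, transpose_sub, transpose_smul,
      transpose_smul, transpose_one, Matrix.sub_mul, Matrix.mul_smul, Matrix.mul_one,
      Matrix.smul_mul, Matrix.smul_mul, Matrix.one_mul, neg_smul, neg_smul, one_smul]
    abel
  have z : (d - e • 1).det = 0 := by
    have := congrArg det k
    rw [det_mul, det_mul, det_mul, det_transpose, det_transpose, det_smul, Fintype.card_fin, ← he,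
      pow_succ, pow_mul, neg_sq, sq, e2, one_pow, one_mul] at this
    exact mul_right_cancel₀ hA (by
      linear_combination (e / 2) * this - (d - e • 1).det * A.det * e2)
  obtain ⟨v, v0, hv⟩ := exists_mulVec_eq_zero_iff.2 z
  have := UC.Uni.rigid hT (hc.sub_left ((Commute.one_left T).smul_left e)) v0 hv
  rw [sub_eq_zero] at this
  rcases mul_self_eq_one_iff.1 e2 with q | q
  · exact Or.inl (by rw [this, q, one_smul])
  · exact Or.inr (by rw [this, q, neg_smul, one_smul])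

theorem keyQ {A T P R S : Mat g ℚ} {c k : ℚ} (hA : A.det ≠ 0) (hT : Irreducible T.charpoly)
    (hR : R.det ≠ 0) (hk : k ≠ 0) (h : Pᵀ * A * P = Rᵀ * A * R)
    (h1 : P * S = (c • (1 : Mat g ℚ) + k • T) * P) (h2 : R * S = (c • (1 : Mat g ℚ) + k • T) * R) :
    P = R ∨ P = -R := by
  obtain ⟨d, rfl⟩ : ∃ d, P = d * R :=
    ⟨P * R⁻¹, (nonsing_inv_mul_cancel_right _ _ (Ne.isUnit hR)).symm⟩
  have a1 : dᵀ * A * d = A := by
    refine cancel hR (transpose_injective (cancel hR (transpose_injective ?_)))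
    simpa only [transpose_mul, transpose_transpose, Matrix.mul_assoc] using h
  have a2 : Commute d T := by
    rw [Matrix.mul_assoc, h2, ← Matrix.mul_assoc, ← Matrix.mul_assoc] at h1
    have := cancel hR h1
    simp only [Matrix.mul_add, Matrix.add_mul, Matrix.mul_smul, Matrix.smul_mul, Matrix.mul_one,
      Matrix.one_mul, add_right_inj] at this
    exact smul_right_injective _ hk this
  rcases sign hA hT a2 a1 with q | q
  · exact Or.inl (by rw [q, Matrix.one_mul])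
  · exact Or.inr (by rw [q, Matrix.neg_mul, Matrix.one_mul])

theorem keyZ {A T P R S : Mat g ℤ} {c k : ℤ} (hA : A.det ≠ 0) (hT : Irreducible (zK T.charpoly ℚ))
    (hR : R.det ≠ 0) (hk : k ≠ 0) (h : Pᵀ * A * P = Rᵀ * A * R)
    (h1 : P * S = (c • (1 : Mat g ℤ) + k • T) * P) (h2 : R * S = (c • (1 : Mat g ℤ) + k • T) * R) :
    ∃ e : ℤ, e * e = 1 ∧ P = e • R := by
  let φ : Mat g ℤ →+* Mat g ℚ := (Int.castRingHom ℚ).mapMatrix
  have i : Function.Injective φ := Matrix.map_injective (Int.cast_injective (α := ℚ))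
  have dt : ∀ M : Mat g ℤ, M.det ≠ 0 → (φ M).det ≠ 0 := fun M hM => by
    rw [← RingHom.map_det]
    exact Int.cast_ne_zero.2 hM
  have tr : ∀ M : Mat g ℤ, φ Mᵀ = (φ M)ᵀ := fun _ => rfl
  have sm : φ (c • (1 : Mat g ℤ) + k • T) = (c : ℚ) • (1 : Mat g ℚ) + (k : ℚ) • φ T := by
    rw [map_add, map_zsmul, map_zsmul, map_one, Int.cast_smul_eq_zsmul, Int.cast_smul_eq_zsmul]
  rcases keyQ (P := φ P) (S := φ S) (c := c) (k := k) (T := φ T) (dt A hA)
    ((Matrix.charpoly_map T (Int.castRingHom ℚ)).symm ▸ hT) (dt R hR) (Int.cast_ne_zero.2 hk)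
    (by rw [← tr, ← tr, ← map_mul, ← map_mul, h, map_mul, map_mul])
    (by rw [← sm, ← map_mul, h1, map_mul]) (by rw [← sm, ← map_mul, h2, map_mul]) with q | q
  · exact ⟨1, rfl, by rw [one_smul]; exact i q⟩
  · exact ⟨-1, rfl, by rw [neg_smul, one_smul]; exact i (q.trans (map_neg φ R).symm)⟩

/-- the two overlattices are equal -/
theorem same (ovf : OVFStmt) {m₁ : ℕ} {A R B R₂ B₂ γ : Mat g ℤ} {Λ Λ₂ : ∀ p : ℕ, Sub g p}
    (sf : Squarefree m₁) (sa : A.IsSymm) (o : Ov m₁ A Λ R B) (o₂ : Ov m₁ A Λ₂ R₂ B₂)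
    (hγ : γ.det = 1) {e : ℤ} (e2 : e * e = 1) (h : R * γ = e • R₂) {p : ℕ} (hp : p.Prime)
    (hm : p ∣ m₁) : Λ p = Λ₂ p := by
  ext x
  rw [(ovf g m₁ A R B Λ sf sa o).2.2.2.2 p hp hm, (ovf g m₁ A R₂ B₂ Λ₂ sf sa o₂).2.2.2.2 p hp hm]
  constructor
  · rintro ⟨ξ, rfl⟩
    refine ⟨e • (γ⁻¹ *ᵥ ξ), congrArg _ ?_⟩
    rw [mulVec_smul, ← smul_mulVec, ← h, mulVec_mulVec,
      mul_nonsing_inv_cancel_right _ _ (hγ ▸ isUnit_one)]
  · rintro ⟨ξ, rfl⟩
    refine ⟨e • (γ *ᵥ ξ), congrArg _ ?_⟩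
    rw [mulVec_smul, mulVec_mulVec, h, smul_mulVec, smul_smul, e2, one_smul]

end NisA

open NisA in
theorem nis_n : CHGStmt → OVFStmt → NISStmt := by
  intro chg ovf g Q m₀ m₁ a f m A A' M T R R' B B' N R₂ R₂' B₂ B₂' N₂ γ β Λ Λ' Λ₂ Λ₂' zq ev sf pre
    o o' t o₂ o₂' t₂ hγ hβ e1 e2 e3 p hp hm
  have m0 : (m₁ : ℤ) ≠ 0 := Nat.cast_ne_zero.2 sf.ne_zero
  have dA : A.det ≠ 0 := Int.natAbs_ne_zero.1 (pre.dA ▸ pow_ne_zero _ sf.ne_zero)
  have dA' : A'.det ≠ 0 := Int.natAbs_ne_zero.1 (pre.dA' ▸ pow_ne_zero _ sf.ne_zero)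
  have dR := (ovf g m₁ A R₂ B₂ Λ₂ sf pre.sa o₂).2.1
  have iγ : γ * γ⁻¹ = 1 := mul_nonsing_inv _ (hγ ▸ isUnit_one)
  have c := chg.1 _ B B' N γ _ β o.un o'.un iγ (hβ ▸ isUnit_one)
  rw [← e1, ← e2, ← e3] at c
  obtain ⟨e, ee, he⟩ := keyZ (P := R * γ) (S := Tt B₂ B₂' N₂) dA (pre.ch.symm ▸ zq.irr) dR
    (pow_ne_zero 2 m0) (by
      rw [o₂.eq, e1, transpose_mul, show γᵀ * Rᵀ * A * (R * γ) = γᵀ * (Rᵀ * A * R) * γ by
        simp only [Matrix.mul_assoc], o.eq, Matrix.mul_smul, Matrix.smul_mul])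
    (by rw [c, ← Matrix.mul_assoc, ← Matrix.mul_assoc, Matrix.mul_assoc R, iγ, Matrix.mul_one, t.cj,
      Matrix.mul_assoc]) t₂.cj
  refine ⟨same ovf sf pre.sa o o₂ hγ ee he hp hm, ?_⟩
  have f1 : (1 - T).det ≠ 0 := fun h => by
    have r : (zK f ℚ).IsRoot 1 := by
      have := Matrix.eval_charpoly T 1
      rw [map_one, h, pre.ch] at this
      rw [IsRoot, zK, eval_one_map, this, map_zero]
    have b : (zK f ℚ).natDegree = 1 :=
      natDegree_eq_of_degree_eq_some (degree_eq_one_of_irreducible_of_root zq.irr r)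
    rw [zK, zq.monic.natDegree_map, zq.deg] at b
    have := zq.pos
    omega
  have dM : M.det ≠ 0 := fun h => by
    have := congrArg det pre.rel
    rw [det_mul, h, mul_zero, det_mul] at this
    exact mul_ne_zero dA f1 this.symm
  obtain ⟨ε, ε1, ε2⟩ := t.eq
  obtain ⟨δ, δ1, δ2⟩ := t₂.eq
  have k : (δ • R₂'ᵀ) * (A' * M * R₂) = ((ε * e) • (R' * β)ᵀ) * (A' * M * R₂) := by
    calc _ = (m₁ : ℤ) • N₂ := by rw [δ2, Matrix.smul_mul]; simp only [Matrix.mul_assoc]
      _ = βᵀ * ((m₁ : ℤ) • N) * γ := by rw [e3, Matrix.mul_smul, Matrix.smul_mul]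
      _ = ε • ((R' * β)ᵀ * (A' * M * (R * γ))) := by
        rw [ε2, Matrix.mul_smul, Matrix.smul_mul, transpose_mul]
        simp only [Matrix.mul_assoc]
      _ = _ := by rw [he, Matrix.mul_smul, Matrix.mul_smul, smul_smul, Matrix.smul_mul]
  have k' := congrArg (fun Z => (ε * e) • Zᵀ) (cancel (by
    rw [det_mul, det_mul]
    exact mul_ne_zero (mul_ne_zero dA' dM) dR) k)
  simp only [transpose_smul, transpose_transpose, smul_smul] at k'
  rw [show ε * e * (ε * e) = 1 by linear_combination e * e * ε1 + ee, one_smul] at k'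
  exact same ovf sf pre.sa' o' o₂' hβ
    (by linear_combination e * e * δ * δ * ε1 + δ * δ * ee + δ1) k'.symm hp hm

end Pool.Agent.MP_a43263_nt.N2

end

end PkN2Nis

section PkN2Ovf

/-! THEOREM N2, row Ovf: first properties of a unimodular overlattice. -/

set_option autoImplicit false

noncomputable section

namespace Pool.Agent.MP_a43263_nt.N2

open Polynomial Finset Filter Matrix JC Pool.Agent.MP_a43263_nt.UV K2

namespace OvfA

theorem sq_dvd (m : ℕ) (hm : Squarefree m) (z : ℤ)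
    (h : ∀ p : ℕ, p.Prime → p ∣ m → (p : ℤ) ∣ z) : (m : ℤ) ∣ z := by
  have h1 : (∏ p ∈ m.primeFactors, p) = m := Nat.prod_primeFactors_of_squarefree hm
  rw [Int.natCast_dvd, ← h1]
  refine Finset.prod_primes_dvd _ (fun p hp => (Nat.prime_of_mem_primeFactors hp).prime) ?_
  intro p hp
  exact Int.natCast_dvd.1 (h p (Nat.prime_of_mem_primeFactors hp) (Nat.dvd_of_mem_primeFactors hp))

theorem rd_smul {g : ℕ} (p : ℕ) (c : ℤ) (y : Vz g) : rd p (c • y) = (c : ZMod p) • rd p y := by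
  funext i
  simp [rd]

theorem ex_c (m p : ℕ) (hm : Squarefree m) (hp : p.Prime) (hpm : p ∣ m) :
    ∃ c : ℤ, (c : ZMod p) = 1 ∧ ∀ q : ℕ, q.Prime → q ∣ m → q ≠ p → (c : ZMod q) = 0 := by
  obtain ⟨k, hk⟩ := hpm
  have hco : Nat.Coprime p k := by
    rw [hk] at hm
    exact Nat.coprime_of_squarefree_mul hm
  have h2 : IsCoprime (p : ℤ) (k : ℤ) := Nat.isCoprime_iff_coprime.2 hco
  obtain ⟨u, v, huv⟩ := h2
  refine ⟨v * k, ?_, ?_⟩
  · have h3 : ((u * p + v * k : ℤ) : ZMod p) = 1 := by rw [huv]; simp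
    have h4 : ((u * p : ℤ) : ZMod p) = 0 := by simp
    rw [Int.cast_add, h4, zero_add] at h3
    exact h3
  · intro q hq hqm hne
    have h5 : q ∣ k := by
      rw [hk] at hqm
      rcases (Nat.Prime.dvd_mul hq).1 hqm with h | h
      · exact absurd ((Nat.prime_dvd_prime_iff_eq hq hp).1 h) hne
      · exact h
    rw [ZMod.intCast_zmod_eq_zero_iff_dvd]
    exact Dvd.dvd.mul_left (Int.natCast_dvd_natCast.2 h5) v

end OvfA

open OvfA in
theorem ovf_n : OVFStmt := by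
  intro g m₁ A R B Λ hm hA hO
  have hm0 : (m₁ : ℤ) ≠ 0 := by
    have := hm.ne_zero
    exact_mod_cast this
  have hR1 : ∃ R₁ : Mat g ℤ, R * R₁ = (m₁ : ℤ) • 1 := by
    have h1 : ∀ j : Fin (2 * g + 1), ∃ ξ : Vz g, R *ᵥ ξ = (m₁ : ℤ) • (Pi.single j (1 : ℤ) : Vz g) := by
      intro j
      refine (hO.im _).2 ?_
      intro p hp hpm
      have h2 : ((m₁ : ℤ) : ZMod p) = 0 := by
        rw [ZMod.intCast_zmod_eq_zero_iff_dvd]
        exact Int.natCast_dvd_natCast.2 hpm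
      rw [rd_smul, h2, zero_smul]
      exact (Λ p).zero_mem
    choose ξ hξ using h1
    refine ⟨Matrix.of fun i j => ξ j i, ?_⟩
    ext i j
    have h3 := congrFun (hξ j) i
    simp only [Matrix.mulVec, dotProduct, Pi.smul_apply, smul_eq_mul] at h3
    simp only [Matrix.mul_apply, Matrix.of_apply, Matrix.smul_apply, smul_eq_mul]
    rw [h3, Matrix.one_apply, Pi.single_apply]
  refine ⟨?_, ?_, hR1, ?_, ?_⟩
  · have h1 : (((m₁ : ℤ) ^ 2) • B)ᵀ = ((m₁ : ℤ) ^ 2) • B := by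
      rw [← hO.eq, Matrix.transpose_mul, Matrix.transpose_mul, Matrix.transpose_transpose,
        hA.eq, Matrix.mul_assoc]
    ext i j
    have h2 := congrFun (congrFun h1 i) j
    simp only [Matrix.transpose_apply, Matrix.smul_apply, smul_eq_mul] at h2
    rw [Matrix.transpose_apply]
    exact mul_left_cancel₀ (pow_ne_zero 2 hm0) h2
  · obtain ⟨R₁, h1⟩ := hR1
    intro h0
    have h2 := congrArg Matrix.det h1
    rw [Matrix.det_mul, h0, zero_mul, Matrix.det_smul, Matrix.det_one, mul_one] at h2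
    exact pow_ne_zero _ hm0 h2.symm
  · intro i j
    refine sq_dvd m₁ hm _ ?_
    intro p hp hpm
    have h1 : rd p (R *ᵥ (Pi.single j (1 : ℤ) : Vz g)) ∈ Λ p := (hO.im _).1 ⟨_, rfl⟩ p hp hpm
    have h2 := (hO.lg p hp hpm).ker _ h1 i
    rw [Matrix.mulVec_mulVec, Matrix.mulVec_single_one] at h2
    exact h2
  · intro p hp hpm x
    constructor
    · intro hx
      obtain ⟨c, hc1, hc0⟩ := ex_c m₁ p hm hp hpm
      let y : Vz g := fun i => ((x i).cast : ℤ)
      have hy : rd p y = x := by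
        funext i
        exact ZMod.intCast_zmod_cast (x i)
      have h1 : ∃ ξ : Vz g, R *ᵥ ξ = c • y := by
        refine (hO.im _).2 ?_
        intro q hq hqm
        by_cases hqp : q = p
        · subst hqp
          rw [rd_smul, hc1, one_smul, hy]
          exact hx
        · rw [rd_smul, hc0 q hq hqm hqp, zero_smul]
          exact (Λ q).zero_mem
      obtain ⟨ξ, hξ⟩ := h1
      exact ⟨ξ, by rw [hξ, rd_smul, hc1, one_smul, hy]⟩
    · rintro ⟨ξ, rfl⟩
      exact (hO.im _).1 ⟨ξ, rfl⟩ p hp hpm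

end Pool.Agent.MP_a43263_nt.N2

end

end PkN2Ovf

section PkN2Ovl

/-! Unimodular overlattices exist. -/

set_option autoImplicit false

noncomputable section

namespace Pool.Agent.MP_a43263_nt.N2

open Polynomial Finset Filter Matrix JC Pool.Agent.MP_a43263_nt.UV K2

namespace OvlA

variable {g : ℕ}

/-- reduction as a homomorphism -/
def rh (g p : ℕ) : Vz g →+ (Fin (2 * g + 1) → ZMod p) where
  toFun := rd p
  map_zero' := funext fun i => by simp [rd]
  map_add' x y := funext fun i => by simp [rd]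

theorem idx {p : ℕ} (hp : p.Prime) (Λ : Sub g p) (h : Nat.card Λ = p ^ g) :
    (Λ.toAddSubgroup.comap (rh g p)).index = p ^ (g + 1) := by
  have : NeZero p := ⟨hp.ne_zero⟩
  have hs : Function.Surjective (rh g p) := fun y =>
    ⟨fun i => ((y i).val : ℤ), _root_.funext fun i => by simp [rh, rd]⟩
  rw [AddSubgroup.index_comap_of_surjective _ hs]
  have h1 := Λ.toAddSubgroup.index_mul_card
  have h2 : Nat.card Λ.toAddSubgroup = p ^ g := h
  rw [h2, Nat.card_fun, Nat.card_zmod, Nat.card_eq_fintype_card, Fintype.card_fin] at h1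
  refine Nat.eq_of_mul_eq_mul_right (pow_pos hp.pos g) ?_
  rw [h1, ← pow_add]
  congr 1
  omega

theorem sq_dvd {m : ℕ} (hm : Squarefree m) {z : ℤ}
    (h : ∀ p : ℕ, p.Prime → p ∣ m → (p : ℤ) ^ 2 ∣ z) : (m : ℤ) ^ 2 ∣ z := by
  rw [← Nat.prod_primeFactors_of_squarefree hm, Nat.cast_prod, ← prod_pow]
  refine Finset.prod_dvd_of_coprime (fun p hp q hq hne => ?_) fun p hp =>
    h p (Nat.prime_of_mem_primeFactors hp) (Nat.dvd_of_mem_primeFactors hp)
  exact (Nat.isCoprime_iff_coprime.2 ((Nat.coprime_primes (Nat.prime_of_mem_primeFactors hp)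
    (Nat.prime_of_mem_primeFactors hq)).2 hne)).pow

/-- a subgroup of finite index is the image of a matrix -/
theorem mat (L : AddSubgroup (Vz g)) (h : L.index ≠ 0) : ∃ R : Mat g ℤ,
    R.det.natAbs = L.index ∧ ∀ y : Vz g, (∃ ξ : Vz g, R *ᵥ ξ = y) ↔ y ∈ L := by
  have : L.FiniteIndex := ⟨h⟩
  have : Module.Finite ℤ L := inferInstanceAs (Module.Finite ℤ L.toIntSubmodule)
  have : Module.Free ℤ L := inferInstanceAs (Module.Free ℤ L.toIntSubmodule)
  have b : Module.Basis (Fin (2 * g + 1)) ℤ L := Module.finBasisOfFinrankEq ℤ L (by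
    rw [AddSubgroup.finrank_eq_of_finiteIndex, Module.finrank_fin_fun])
  have e : ∀ ξ : Vz g, (Matrix.of fun i j => (b j : Vz g) i) *ᵥ ξ = ∑ j, ξ j • (b j : Vz g) :=
    fun ξ => _root_.funext fun i => by simp [mulVec, dotProduct, mul_comm]
  refine ⟨Matrix.of fun i j => (b j : Vz g) i, ?_, fun y => ⟨?_, fun hy => ?_⟩⟩
  · rw [AddSubgroup.index_eq_natAbs_det (Pi.basisFun ℤ _) L b, Pi.basisFun_det_apply,
      ← det_transpose]
    rfl
  · rintro ⟨ξ, rfl⟩
    rw [e]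
    exact L.sum_mem fun j _ => L.zsmul_mem (b j).2 _
  · refine ⟨fun j => b.repr ⟨y, hy⟩ j, (e _).trans ?_⟩
    have e2 := congrArg L.subtype (b.sum_repr ⟨y, hy⟩)
    rw [map_sum] at e2
    exact e2

end OvlA

open OvlA in
theorem ovl_n : OVLStmt := by
  intro g m A Λ hm hA hL
  have m0 : m ≠ 0 := hm.ne_zero
  let F : m.primeFactors → AddSubgroup (Vz g) := fun p => (Λ p).toAddSubgroup.comap (rh g p)
  have hp : ∀ p : m.primeFactors, p.1.Prime := fun p => Nat.prime_of_mem_primeFactors p.2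
  have hF : ∀ p, (F p).index = p.1 ^ (g + 1) := fun p =>
    idx (hp p) _ (hL p (hp p) (Nat.dvd_of_mem_primeFactors p.2)).card
  have h0 : (⨅ p, F p).index ≠ 0 := AddSubgroup.index_iInf_ne_zero fun p => by
    rw [hF]
    exact pow_ne_zero _ (hp p).ne_zero
  have h1 : (⨅ p, F p).index ≤ m ^ (g + 1) := by
    refine (AddSubgroup.index_iInf_le F).trans (le_of_eq ?_)
    rw [prod_congr rfl fun p _ => hF p, prod_pow, prod_coe_sort m.primeFactors fun p => p,
      Nat.prod_primeFactors_of_squarefree hm]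
  obtain ⟨R, hR, hI⟩ := mat _ h0
  have im : ∀ y : Vz g, (∃ ξ : Vz g, R *ᵥ ξ = y) ↔ ∀ p : ℕ, p.Prime → p ∣ m → rd p y ∈ Λ p := by
    intro y
    rw [hI, AddSubgroup.mem_iInf]
    exact ⟨fun h p a b => h ⟨p, Nat.mem_primeFactors.2 ⟨a, b, m0⟩⟩,
      fun h p => h p (hp p) (Nat.dvd_of_mem_primeFactors p.2)⟩
  have dv : ∀ i j, (m : ℤ) ^ 2 ∣ (Rᵀ * A * R) i j := fun i j => sq_dvd hm fun p a b => by
    have k := (hL p a b).iso _ _ ((im _).1 ⟨Pi.single i 1, rfl⟩ p a b)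
      ((im _).1 ⟨Pi.single j 1, rfl⟩ p a b)
    have e : (Rᵀ * A * R) i j = (R *ᵥ Pi.single i 1) ⬝ᵥ A *ᵥ R *ᵥ Pi.single j 1 := by
      rw [Matrix.mul_assoc, mulVec_mulVec, mulVec_single_one, mulVec_single_one]
      rfl
    rwa [e]
  choose B hB using dv
  have eq : Rᵀ * A * R = ((m : ℤ) ^ 2) • Matrix.of B := by
    ext i j
    rw [hB]
    rfl
  refine ⟨R, Matrix.of B, hL, eq, ?_, im⟩
  have d := congrArg (fun M => (det M).natAbs) eq
  simp only [det_mul, det_transpose, det_smul, Int.natAbs_mul, Int.natAbs_pow, Int.natAbs_natCast,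
    Fintype.card_fin, hA, hR] at d
  rw [Int.isUnit_iff_natAbs_eq]
  have p0 : 0 < (m ^ 2) ^ (2 * g + 1) := by positivity
  have l1 : (m ^ 2) ^ (2 * g + 1) * (Matrix.of B).det.natAbs ≤ (m ^ 2) ^ (2 * g + 1) * 1 := by
    rw [← d]
    refine (Nat.mul_le_mul (Nat.mul_le_mul_right _ h1) h1).trans (le_of_eq ?_)
    ring
  have l2 : (Matrix.of B).det.natAbs ≠ 0 := fun z => by
    rw [z, mul_zero] at d
    exact mul_ne_zero (mul_ne_zero h0 (pow_ne_zero _ m0)) h0 d
  have := Nat.le_of_mul_le_mul_left l1 p0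
  omega

end Pool.Agent.MP_a43263_nt.N2

end

end PkN2Ovl

section PkN2Ramg

/-! THEOREM N2: the local image at a prime of the smooth part. -/

set_option autoImplicit false

noncomputable section

namespace Pool.Agent.MP_a43263_nt.N2

open Polynomial Finset Filter Matrix JC Pool.Agent.MP_a43263_nt.UV K2

namespace RamgA

theorem sr {p : ℕ} [Fact p.Prime] {f : ℤ[X]} {a u v : ℤ} (hr : Rt p f a) (uv : IsCoprime u v)
    (d : (p : ℤ) ∣ (el u v).eval a) : Sr p f u v := by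
  intro t h1 _
  have h2 := (ZMod.intCast_zmod_eq_zero_iff_dvd _ p).2 d
  simp only [el, zK, Polynomial.map_add, Polynomial.map_mul, Polynomial.map_sub, map_C, map_X,
    Polynomial.map_one, eval_add, eval_mul, eval_sub, eval_C, eval_X, eval_one] at h1 h2
  simp only [eq_intCast] at h1
  push_cast at h1 h2
  have v0 : (v : ZMod p) ≠ 0 := fun c => by
    have := uv.map (Int.castRingHom (ZMod p))
    rw [eq_intCast, eq_intCast, c, isCoprime_zero_right] at this
    rw [c, zero_pow two_ne_zero, zero_mul, zero_add] at h2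
    exact (this.pow 2).ne_zero h2
  obtain rfl : t = (a : ZMod p) := by
    refine mul_left_cancel₀ (pow_ne_zero 2 v0) ?_
    linear_combination h1 - h2
  rw [zK, derivative_map, eval_intCast_map, eq_intCast, Int.cast_id]
  exact fun c => hr.2 ((ZMod.intCast_zmod_eq_zero_iff_dvd _ p).1 c)

end RamgA

theorem ramg_n : WTStmt → QSTStmt → EV2Stmt → NGMStmt → LOCGStmt → BEGStmt → RAMGStmt := by
  intro wt qst ev2 ngm locg beg p _ g f F κ a u v G δ hp2 hf hr cp uv nx d1 d2 d3 hW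
  have hs := hf.sq ℚ_[p]
  obtain ⟨w1, w2, -, w4, -⟩ := wt g f F κ u v G hf cp ℚ_[p]
  have key : ∀ δ₀ s₀, Wt (zK f ℚ_[p]) (zK F ℚ_[p]) (zK κ ℚ_[p]) δ₀ →
      NG p f a (δ₀ * zK (be u v G) ℚ_[p]) s₀ 1 → s₀ = 0 := by
    intro δ₀ s₀ h1 h2
    obtain ⟨c1, c2⟩ := w1 _ (w2 _ _ h1 w4)
    have c3 := qst g f F κ u v G hf cp _ δ₀ h1
    generalize δ₀ * zK (be u v G) ℚ_[p] = δ₁ at h2 c1 c2 c3
    obtain ⟨σ, hsy⟩ := JC.T.symb.2 p
    have g1 := (gram.2 ℚ_[p] g _ hs).1 δ₁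
    have g2 := ((gram.1 ℚ_[p] _ hs.monic).2.2.2.1 δ₁).2 c1
    obtain ⟨e, e1, e2⟩ := diag ℚ_[p] (Ne.isUnit two_ne_zero) _ _ (Gm_symm δ₁)
      (g1 ▸ (isUnit_neg_one.pow g).mul g2)
    refine (locg p g f a δ₁ σ e s₀ hp2 hf hr hsy e1 c2 h2).1 ?_
    rw [(hinv ℚ_[p] σ hsy.1).2 g _ e e1 (fun i => (e2 i).ne_zero) c3
      (by rw [g1, ← mul_assoc, ← mul_pow]; simpa using c2)]
    refine prod_eq_one fun i _ => prod_eq_one fun j _ => ?_
    simpa using ((pad.1 p hp2).2 σ hsy).1 ((-1) ^ i.1) ((-1) ^ j.1) (isUnit_neg_one.pow _)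
      (isUnit_neg_one.pow _)
  have hT := beg p g f a u v G hp2 hf hr cp.nm uv d2 d3
  obtain ⟨-, -, -, ad, ev, sq⟩ := ngm p g f a hp2 hf hr
  rcases ev2 p g f F κ u v G δ hf cp uv nx d1 d2 (RamgA.sr hr uv d3) hW with h | h
  · obtain ⟨s, hN⟩ := (ev _).1 h
    have hM := ad _ _ _ _ _ _ hN hT
    rw [zero_add, add_zero] at hM
    obtain rfl := key _ _ hW hM
    exact ⟨0, hN⟩
  · obtain ⟨s, hN⟩ := (ev _).1 h
    have hM := ad _ _ _ _ _ _ hN hT
    rw [zero_add, add_zero] at hM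
    obtain rfl := key _ _ (w2 _ _ hW w4) hM
    rw [mul_assoc, ← pow_two] at hM
    exact ⟨1, sq _ _ _ _ hM⟩

end Pool.Agent.MP_a43263_nt.N2

end

end PkN2Ramg

section PkN2Rec

/-! THEOREM N2: reciprocity with the primes of the smooth part. -/

set_option autoImplicit false

noncomputable section

namespace Pool.Agent.MP_a43263_nt.N2

open Polynomial Finset Matrix JC Pool.Agent.MP_a43263_nt.UV

open UV.Rec in
theorem rec_n : NGMStmt → LOCGStmt → RECStmt := by
  intro ngm locg g f Q m₀ a₀ δ u y hf hq hm hrt hn hr h2 hev hng hnf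
  have hS := JC.T.symb
  have hG := UV.gram
  have hQ := UV.qs
  have hD := UV.diag
  have hH := UV.hinv
  have hU := UV.locu UV.gram UV.diag UV.hinv UV.pad
  have hL := UV.locq UV.gram UV.diag UV.hinv UV.pad UV.hens
  have hN := UV.nfm
  have hP := UV.pf
  have hc : IsCoprime δ (zK f ℚ) :=
    isCoprime_of_map (Rat.castHom ℝ) (by rw [zK_map]; exact hr.1)
  obtain ⟨e, he, hd⟩ := int_diag hD (Gm g (zK f ℚ) δ) (Gm_symm δ) (by
    rw [(hG.2 ℚ g _ (hf.sq ℚ)).1]
    exact (isUnit_one.neg.pow g).mul (((hG.1 ℚ _ (hf.mo ℚ)).2.2.2.1 δ).2 hc))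
  have hE : ∏ i, e i ≠ 0 := prod_ne_zero_iff.2 fun i _ => he i
  have q2 : ∀ q ∈ Q, q ≠ 2 := fun q h c => by
    have := (hq q h).2.1
    omega
  set T : Finset ℕ := Q ∪ (∏ i, e i).natAbs.primeFactors.erase 2 with hT
  have T2 : ∀ p ∈ T, p.Prime ∧ p ≠ 2 := fun p h => by
    rcases mem_union.1 h with h | h
    · exact ⟨(hq p h).1, q2 p h⟩
    · exact ⟨Nat.prime_of_mem_primeFactors (mem_of_mem_erase h), ne_of_mem_erase h⟩
  have n2 : 2 ∉ T := fun h => (T2 2 h).2 rfl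
  have A := hP _ e (insert 2 T) he (mem_insert_self _ _)
    (fun p h => (mem_insert.1 h).elim (fun c => c ▸ Nat.prime_two) fun c => (T2 p c).1)
    fun p i hp h => by
      by_cases c : p = 2
      · exact mem_insert.2 (Or.inl c)
      · exact mem_insert_of_mem (mem_union_right _ (mem_erase.2 ⟨c, Nat.mem_primeFactors.2
          ⟨hp, Int.natCast_dvd.1 (h.trans (dvd_prod_of_mem _ (mem_univ i))),
            Int.natAbs_ne_zero.2 hE⟩⟩))
  have B := hP _ (fun i : Fin (2 * g + 1) => (-1 : ℤ) ^ i.1) {2}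
    (fun i => pow_ne_zero _ (neg_ne_zero.2 one_ne_zero)) (mem_singleton_self _)
    (fun p h => mem_singleton.1 h ▸ Nat.prime_two) fun p i hp h =>
      absurd (isUnit_of_dvd_unit h (isUnit_one.neg.pow _)) (Nat.prime_iff_prime_int.1 hp).not_isUnit
  obtain ⟨s2, a2, b2⟩ := hS.2 2
  rw [prod_singleton, ← split hG hQ hH hf hn he hd a2 b2 h2,
    ← split hG hQ hH hf hn he hd hS.1 (fun x y _ _ => by simp only [Int.cast_lt_zero]) hr] at B
  rw [prod_insert n2, ← mul_assoc, B, one_mul] at A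
  have key : ∀ p ∈ T, Hs (RH.hs p) e = if p ∈ Q then sn (u p * y p) else 1 := fun p h => by
    obtain ⟨hp, hp2⟩ := T2 p h
    have := Fact.mk hp
    obtain ⟨s, a, b⟩ := hS.2 p
    have d := dg_loc hf hd ℚ_[p]
    have ev : Ev p f (fK δ ℚ_[p]) → Hs (RH.hs p) e = 1 := fun v =>
      (Hs_cast b he).symm.trans (hU p g f _ s _ hp2 hf ⟨a, b⟩ d v)
    split_ifs with c
    · have w := hnf p c
      rcases z2 (y p) with k | k <;> rw [k] at w ⊢
      · rw [mul_zero, ev (((hN p g f hf).2.2.1 _).2 ⟨_, w⟩)]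
        rfl
      · have l := hL p g f _ s _ (u p) (hq p c).2.1 hf (hq p c).2.2 ⟨a, b⟩ d
          (sq_loc hG hf hn _) w
        rw [mul_one, ← Hs_cast b he, sn]
        split_ifs with c'
        · exact l.2 c'
        · exact (Hs_pm a fun i => Int.cast_ne_zero.2 (he i)).resolve_left fun x => c' (l.1 x)
    · by_cases cm : p ∣ m₀
      · obtain ⟨t, w⟩ := hng p cm
        have r := hrt p hp cm
        rcases z2 t with k | k <;> rw [k] at w
        · exact ev (((ngm p g f a₀ hp2 hf r).2.2.2.2.1 _).2 ⟨_, w⟩)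
        · exact (Hs_cast b he).symm.trans
            ((locg p g f a₀ _ s _ 0 hp2 hf r ⟨a, b⟩ d (sq_loc hG hf hn _) w).2 rfl)
      · exact ev (hev p c cm)
  rw [prod_congr rfl key, prod_ite_mem, inter_eq_right.2 subset_union_left, ← sn_sum] at A
  exact sn_one _ A

end Pool.Agent.MP_a43263_nt.N2

end

end PkN2Rec

section PkN2Shp

/-! THEOREM N2, row SHP: the shape of the matrices of a local frame. -/

set_option autoImplicit false

noncomputable section

namespace Pool.Agent.MP_a43263_nt.N2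

open Polynomial Finset Filter Matrix JC Pool.Agent.MP_a43263_nt.UV K2

namespace ShpA

variable {g : ℕ} {f : ℤ[X]}

theorem detZ (hf : Zq g f) (δ : ℤ[X]) : (Gm g f δ).det = (-1) ^ g * Nm f δ := by
  have h := Gram.det (hf.sq ℚ) (zK δ ℚ)
  rw [Gm_map hf.monic, Gram.nm_map hf.monic] at h
  apply (Int.castRingHom ℚ).injective_int
  rw [RingHom.map_det, map_mul, map_pow, map_neg, map_one]
  exact h

theorem Gm_Cx (hf : Zq g f) (δ : ℤ[X]) : Gm g f δ * Cx g f = Gm g f (δ * X) := by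
  ext i j
  have e := po_ve hf.monic hf.deg (X ^ (j.1 + 1))
  have e1 : (Gm g f δ * Cx g f) i j =
      ta g f (δ * X ^ i.1 * po (ve (2 * g + 1) f (X ^ (j.1 + 1)))) := by
    simp only [mul_apply, po, mul_sum, ta_sum, Gm, Cx, of_apply, ve]
    refine sum_congr rfl fun k _ => ?_
    rw [show ∀ c : ℤ, δ * X ^ i.1 * (C c * X ^ k.1) = C c * (δ * X ^ (i.1 + k.1)) from
      fun c => by ring, ta_C_mul, mul_comm]
  rw [e1, e, Gm, of_apply]
  refine (ta_congr hf.monic ?_).symm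
  rw [show δ * X * X ^ (i.1 + j.1) - δ * X ^ i.1 * (X ^ (j.1 + 1) %ₘ f) =
    δ * X ^ i.1 * (X ^ (j.1 + 1) - X ^ (j.1 + 1) %ₘ f) by ring]
  exact (dvd_sub_mod _).mul_left _

theorem shift (hf : Zq g f) {R : ℤ[X]} {A T Γ : Mat g ℤ} (h1 : Γᵀ * A * Γ = Gm g f R)
    (h2 : T * Γ = Γ * Cx g f) (a : ℤ) :
    Γᵀ * (A * T - a • A) * Γ = Gm g f (R * (X - C a)) := by
  have e : Γᵀ * (A * T) * Γ = Gm g f (R * X) := by
    rw [← Gm_Cx hf, ← h1]
    simp only [Matrix.mul_assoc, h2]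
  rw [Matrix.mul_sub, Matrix.sub_mul, e, Matrix.mul_smul, Matrix.smul_mul, h1]
  ext i j
  simp only [Gm, Matrix.sub_apply, Matrix.smul_apply, of_apply, smul_eq_mul]
  rw [← ta_C_mul, ← ta_sub]
  congr 1
  ring

theorem map3 {R S : Type} [CommRing R] [CommRing S] (φ : R →+* S) (P A : Mat g R) :
    (Pᵀ * A * P).map φ = (P.map φ)ᵀ * A.map φ * P.map φ := by
  rw [Matrix.map_mul, Matrix.map_mul, transpose_map]

theorem det3 {R : Type} [CommRing R] (P A : Mat g R) : (Pᵀ * A * P).det = P.det ^ 2 * A.det := by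
  rw [det_mul, det_mul, det_transpose]
  ring

theorem comp3 {R : Type} [CommRing R] (P Q A : Mat g R) :
    (P * Q)ᵀ * A * (P * Q) = Qᵀ * (Pᵀ * A * P) * Q := by
  rw [transpose_mul]
  simp only [Matrix.mul_assoc]

theorem det_mK (A : Mat g ℤ) (R : Type) [CommRing R] : (mK A R).det = (A.det : R) :=
  ((Int.castRingHom R).map_det A).symm

theorem sq_div {F : Type} [Field F] {x y : F} (hy : IsSquare y) (y0 : y ≠ 0)
    (h : IsSquare (x * y)) : IsSquare x := by
  obtain ⟨s, rfl⟩ := hy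
  obtain ⟨z, hz⟩ := h
  have : s ≠ 0 := left_ne_zero_of_mul y0
  exact ⟨z / s, by rw [div_mul_div_comm, ← hz, mul_div_cancel_right₀ _ y0]⟩

variable {p : ℕ} [Fact p.Prime]

theorem ne_of {z : ℤ} (h : ¬(p : ℤ) ∣ z) : (z : ZMod p) ≠ 0 :=
  fun e => h ((ZMod.intCast_zmod_eq_zero_iff_dvd z p).1 e)

theorem nd_of {z : ℤ} (h : (z : ZMod p) ≠ 0) : ¬(p : ℤ) ∣ z :=
  fun e => h ((ZMod.intCast_zmod_eq_zero_iff_dvd z p).2 e)

theorem unit_iff (x : ℤ_[p]) : IsUnit x ↔ PadicInt.toZMod x ≠ 0 := by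
  rw [Ne, ← RingHom.mem_ker, PadicInt.ker_toZMod, IsLocalRing.mem_maximalIdeal, mem_nonunits_iff,
    not_not]

theorem appr (x : ℤ_[p]) : ∃ z : ℤ, PadicInt.toZModPow 2 x = z ∧ PadicInt.toZMod x = z := by
  obtain ⟨z, hz⟩ := ZMod.intCast_surjective (PadicInt.toZModPow 2 x)
  refine ⟨z, hz.symm, ?_⟩
  have h : x - z ∈ RingHom.ker (PadicInt.toZModPow 2 : ℤ_[p] →+* ZMod (p ^ 2)) := by
    rw [RingHom.mem_ker, map_sub, map_intCast, hz, sub_self]
  rw [PadicInt.ker_toZModPow, Ideal.mem_span_singleton] at h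
  obtain ⟨y, hy⟩ := h
  have := congrArg PadicInt.toZMod hy
  rwa [map_sub, map_intCast, map_mul, map_pow, map_natCast, ZMod.natCast_self, zero_pow two_ne_zero,
    zero_mul, sub_eq_zero] at this

theorem cop {r : ℤ[X]} {t : ℤ} (ht : ¬(p : ℤ) ∣ t)
    (h : IsCoprime (zK r (ZMod p)) (zK f (ZMod p))) :
    IsCoprime (zK (C (t ^ 2) * r) (ZMod p)) (zK f (ZMod p)) := by
  rw [zK, Polynomial.map_mul, map_C]
  refine (isCoprime_mul_unit_left_left (isUnit_C.2 (IsUnit.mk0 _ ?_)) _ _).2 h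
  rw [map_pow]
  exact pow_ne_zero _ (ne_of ht)

theorem sq_ev {r : ℤ[X]} {a : ℤ} (t : ℤ) (h : IsSquare (((r.eval a : ℤ)) : ZMod p)) :
    IsSquare ((zK (C (t ^ 2) * r) (ZMod p)).eval (a : ZMod p)) := by
  have e := eval_intCast_map (Int.castRingHom (ZMod p)) (C (t ^ 2) * r) a
  rw [Int.cast_id] at e
  rw [e, eval_mul, eval_C, map_mul, map_pow]
  exact (IsSquare.sq _).mul h

theorem nm_ne (hf : Zq g f) {r : ℤ[X]} (h : IsCoprime (zK r (ZMod p)) (zK f (ZMod p))) :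
    ((Nm f r : ℤ) : ZMod p) ≠ 0 := by
  have := ((gram.1 (ZMod p) _ (hf.mo _)).2.2.2.1 _).2 h
  rw [Gram.nm_map hf.monic] at this
  exact this.ne_zero

theorem dvd_pw {a : ℤ} (h : Rt p f a) :
    zK f (ZMod p) ∣ zK (pw p f a * (X - C a)) (ZMod p) := by
  have e := congrArg (Polynomial.map (Int.castRingHom (ZMod p))) (modByMonic_add_div f (X - C a))
  rw [modByMonic_X_sub_C_eq_C_eval, Polynomial.map_add, map_C,
    show Int.castRingHom (ZMod p) (f.eval a) = 0 from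
      (ZMod.intCast_zmod_eq_zero_iff_dvd _ p).2 h.1, C_0, zero_add, Polynomial.map_mul] at e
  refine ⟨(zK (f /ₘ (X - C a)) (ZMod p)) ^ 2, ?_⟩
  rw [zK, zK, ← e, pw, Polynomial.map_mul, Polynomial.map_add, Polynomial.map_pow,
    Polynomial.map_mul, map_C, map_natCast, ZMod.natCast_self, C_0, zero_mul, add_zero]
  ring

end ShpA

open ShpA in
theorem shp_n : NGMStmt → SHZStmt → SHPStmt := by
  intro _ shz p g f r a A T hp hf hr
  have : Fact p.Prime := ⟨hp⟩
  refine ⟨?_, fun h2 hrt hsq hA => ⟨?_, ?_⟩⟩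
  · rintro ⟨Γ, t, -, ht, h1, -⟩ hd
    have e := congrArg det h1
    rw [det3, detZ hf] at e
    have e' := congrArg (Int.cast : ℤ → ZMod p) e
    rw [Int.cast_mul, (ZMod.intCast_zmod_eq_zero_iff_dvd _ p).2 hd, mul_zero, Int.cast_mul] at e'
    refine mul_ne_zero ?_ (nm_ne hf (cop ht hr)) e'.symm
    simp
  · rintro ⟨Γ, t, hΓ, ht, h1, h3⟩
    obtain ⟨w, e, P, hP, hw, he, s1, -, s2, -⟩ := shz p g f a (zK (C (t ^ 2) * r) ℤ_[p]) h2 hf hrt
      (by rw [rq_zK]; exact cop ht hr)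
    rw [← Polynomial.map_mul, Gm_map hf.monic, mul_assoc (C (t ^ 2)), ← h1, map3, ← comp3] at s2
    have hu : IsUnit (mK Γ ℤ_[p] * P).det := by
      rw [det_mul, det_mK]
      exact ((unit_iff _).2 (by rw [map_intCast]; exact ne_of hΓ)).mul hP
    generalize mK Γ ℤ_[p] * P = G at s2 hu
    have hd := congrArg det s2
    rw [det3, det_mK, det_diagonal, Fin.prod_univ_succ] at hd
    simp only [Fin.cons_zero, Fin.cons_succ, prod_mul_distrib, prod_const, card_univ,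
      Fintype.card_fin] at hd
    have hv : IsUnit (w * ∏ i, e i) := hw.mul (IsUnit.prod_univ_iff.2 he)
    have p0 : (p : ℤ_[p]) ≠ 0 := Nat.cast_ne_zero.2 hp.ne_zero
    refine ⟨?_, fun i j => ?_, ?_, fun hn => ?_⟩
    · choose Γ₁ g1 g2 using fun i j => appr (G i j)
      choose e₀ e1 e2 using fun i => appr (e i)
      obtain ⟨w₀, w1, w2⟩ := appr w
      refine ⟨Matrix.of Γ₁, w₀, e₀, nd_of ?_, nd_of (w2 ▸ (unit_iff w).1 hw),
        fun i => nd_of (e2 i ▸ (unit_iff _).1 (he i)), ?_, fun i j => ?_⟩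
      · rw [← det_mK, show mK (Matrix.of Γ₁) (ZMod p) = G.map PadicInt.toZMod from
          Matrix.ext fun i j => (g2 i j).symm]
        exact PadicInt.toZMod.map_det G ▸ (unit_iff _).1 hu
      · obtain ⟨m, hm⟩ := Rat.isSquare_intCast_iff.1 hA
        have hm' := congrArg (Int.cast : ℤ → ℤ_[p]) hm
        rw [Int.cast_mul, Int.cast_mul, Int.cast_pow, Int.cast_neg, Int.cast_one] at hm'
        have k1 : (G.det * m) ^ 2 = ((p : ℤ_[p]) ^ g) ^ 2 * ((-1) ^ g * (∏ i, e i) * w) := by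
          linear_combination (-1) ^ g * hd - G.det ^ 2 * hm'
        obtain ⟨y, hy⟩ := (IsIntegrallyClosed.pow_dvd_pow_iff two_ne_zero).1 ⟨_, k1⟩
        rw [hy, mul_pow] at k1
        have k2 := congrArg PadicInt.toZMod
          (mul_left_cancel₀ (pow_ne_zero _ (pow_ne_zero _ p0)) k1)
        refine sq_div (s1.2 (by rw [rq_zK]; exact sq_ev t hsq)) ((unit_iff w).1 hw) ?_
        simp only [map_mul, map_pow, map_neg, map_one, map_prod, e2] at k2
        push_cast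
        rw [← k2]
        exact IsSquare.sq _
      · have k1 := congrArg (fun M : Mat g ℤ_[p] => M.map (PadicInt.toZModPow 2) i j) s2
        have k2 : G.map (PadicInt.toZModPow 2) = mK (Matrix.of Γ₁) (ZMod (p ^ 2)) :=
          Matrix.ext fun i j => g1 i j
        have k3 : (mK A ℤ_[p]).map (PadicInt.toZModPow 2) = mK A (ZMod (p ^ 2)) :=
          Matrix.ext fun i j => map_intCast (PadicInt.toZModPow 2) (A i j)
        simp only [map3, k2, k3] at k1
        rw [← map3] at k1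
        rw [← Nat.cast_pow, ← ZMod.intCast_zmod_eq_zero_iff_dvd, Matrix.sub_apply, Int.cast_sub,
          sub_eq_zero]
        refine k1.trans ?_
        rw [map_apply, diagonal_apply, diagonal_apply]
        split_ifs
        · refine Fin.cases ?_ (fun i => ?_) i
          · simpa using w1
          · simp [e1]
        · simp
    · have k1 := congrArg (fun M : Mat g ℤ => mK M (ZMod p)) (shift hf h1 h3 a)
      have k2 : IsUnit (mK Γ (ZMod p)) :=
        (isUnit_iff_isUnit_det _).2 (by rw [det_mK]; exact IsUnit.mk0 _ (ne_of hΓ))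
      have k3 : mK (Gm g f (C (t ^ 2) * (r * pw p f a) * (X - C a))) (ZMod p) = 0 := by
        rw [mK, ← Gm_map hf.monic]
        ext i j
        refine ta_dvd (hf.mo _) (Dvd.dvd.mul_right ?_ _)
        rw [← mul_assoc, mul_assoc _ _ (X - C a), Polynomial.map_mul]
        exact (dvd_pw hrt).mul_left _
      simp only [k3] at k1
      rw [mK, map3, k2.mul_left_eq_zero, ((isUnit_transpose _).2 k2).mul_right_eq_zero] at k1
      exact (ZMod.intCast_zmod_eq_zero_iff_dvd _ p).1 (congrFun (congrFun k1 i) j)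
    · rw [← PadicInt.pow_p_dvd_int_iff, ← (hu.pow 2).dvd_mul_left, hd]
      exact (dvd_mul_right _ _).mul_left _
    · rw [← PadicInt.pow_p_dvd_int_iff, ← (hu.pow 2).dvd_mul_left, hd, mul_left_comm, pow_succ,
        mul_dvd_mul_iff_left (pow_ne_zero _ p0)] at hn
      obtain ⟨y, hy⟩ := hn
      exact (unit_iff _).1 hv (by rw [hy, map_mul, map_natCast, ZMod.natCast_self, zero_mul])
  · rintro ⟨Γ, t, hΓ, ht, h1, h3⟩
    obtain ⟨w, e, P, hP, hw, he, s1, s3, -, s2⟩ := shz p g f a (zK (C (t ^ 2) * r) ℤ_[p]) h2 hf hrt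
      (by rw [rq_zK]; exact cop ht hr)
    have k0 : zK (C (t ^ 2) * r) (ZMod p) * (X - C (a : ZMod p)) =
        zK (C (t ^ 2) * r * (X - C a)) (ZMod p) := by
      rw [zK, zK, Polynomial.map_mul _ (p := C (t ^ 2) * r), Polynomial.map_sub, map_X, map_C]
      rfl
    rw [rq_zK, k0, Gm_map hf.monic, ← shift hf h1 h3 a, map3, ← comp3] at s2
    refine ⟨_, _, ?_, fun i => (he i).map _, ?_, s2⟩
    · rw [det_mul]
      exact (det_mK Γ (ZMod p) ▸ IsUnit.mk0 _ (ne_of hΓ)).mul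
        (PadicInt.toZMod.map_det P ▸ hP.map PadicInt.toZMod)
    · obtain ⟨m, hm⟩ := Rat.isSquare_intCast_iff.1 hA
      have k1 := congrArg det h1
      rw [det3, detZ hf] at k1
      have k2 : Nm f (C (t ^ 2) * r) = (Γ.det * m) ^ 2 := by
        have k3 : ((-1 : ℤ) ^ g) ^ 2 = 1 := by rw [← pow_mul, mul_comm, pow_mul]; simp
        linear_combination Γ.det ^ 2 * hm - (-1) ^ g * k1 - Nm f (C (t ^ 2) * r) * k3
      rw [Gram.nm_map hf.monic] at s3
      simp only [map_mul, map_pow, map_neg, map_one, map_prod, eq_intCast, map_intCast] at s3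
      refine sq_div (s1.2 (by rw [rq_zK]; exact sq_ev t hsq)) ((unit_iff w).1 hw)
        (sq_div (y := ((Nm f (C (t ^ 2) * r) : ℤ) : ZMod p)) ?_ (nm_ne hf (cop ht hr)) ?_)
      · rw [k2, Int.cast_pow]
        exact IsSquare.sq _
      · rw [mul_right_comm ((-1 : ZMod p) ^ g)]
        simpa using s3

end Pool.Agent.MP_a43263_nt.N2

end

end PkN2Shp

section PkN2Shz

/-! THEOREM N2: the shape of the local forms at a simple root. -/

set_option autoImplicit false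

noncomputable section

namespace Pool.Agent.MP_a43263_nt.N2

open Polynomial Finset Matrix JC Pool.Agent.MP_a43263_nt.UV K2 Locq

namespace ShzA

section ring
variable {R : Type} [CommRing R] {g : ℕ}

theorem Gn_cg {f ν ν' : R[X]} (hf : f.Monic) (n : ℕ) (c : R) (h : f ∣ ν - C c * ν') :
    Gn n g f ν = c • Gn n g f ν' := by
  ext i j
  simp only [Gn, of_apply, Matrix.smul_apply, smul_eq_mul]
  rw [← ta_C_mul]
  exact ta_congr hf (by rw [← mul_assoc, ← sub_mul]; exact h.mul_right _)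

/-- one basis splits all the forms -/
theorem blk [Nontrivial R] (α : R) {f h : R[X]} (hm : h.Monic) (dh : h.natDegree = 2 * g)
    (hf : f = (X - C α) * h) (P1 : Matrix (Fin (2 * g)) (Fin (2 * g)) R) :
    ∃ P : Mat g R, ∀ (δ : R[X]) (e : Fin (2 * g) → R),
      P1ᵀ * Gn (2 * g) g f (δ * (X - C α) ^ 2) * P1 = diagonal e →
      Pᵀ * Gm g f δ * P = diagonal (Fin.cons ((δ * h).eval α) e : Fin (2 * g + 1) → R) := by
  have fm : f.Monic := hf ▸ (monic_X_sub_C α).mul hm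
  have fd : f.natDegree = 2 * g + 1 := by
    rw [hf, (monic_X_sub_C α).natDegree_mul hm, natDegree_X_sub_C, dh, add_comm]
  obtain ⟨b, hb⟩ : ∃ b : Fin (2 * g + 1) → R[X],
      b = Fin.cons h fun i => (X - C α) * po fun k => P1 k i := ⟨_, rfl⟩
  refine ⟨Matrix.of fun k j => ve _ f (b j) k, fun δ e he => ?_⟩
  ext i j
  have hP : ((Matrix.of fun k j => ve _ f (b j) k : Mat g R)ᵀ * Gm g f δ *
      (Matrix.of fun k j => ve _ f (b j) k : Mat g R)) i j = ta g f (δ * b i * b j) := by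
    rw [conj_apply, Gm_form]
    change ta g f (δ * po (ve _ f (b i)) * po (ve _ f (b j))) = _
    rw [po_ve fm fd, po_ve fm fd]
    refine (ta_congr fm ?_).symm
    rw [show δ * b i * b j - δ * (b i %ₘ f) * (b j %ₘ f) =
      (b i - b i %ₘ f) * (δ * b j) + (b j - b j %ₘ f) * (δ * (b i %ₘ f)) by ring]
    exact dvd_add ((dvd_sub_mod _).mul_right _) ((dvd_sub_mod _).mul_right _)
  rw [hP, hb]
  refine Fin.cases ?_ (fun i => ?_) i <;> refine Fin.cases ?_ (fun j => ?_) j <;>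
    simp only [Fin.cons_zero, Fin.cons_succ]
  · rw [diagonal_apply_eq, Fin.cons_zero, ta_congr fm (Q := C ((δ * h).eval α) * h), ta_C_mul,
      ta_of_lt fm, ← dh, hm.coeff_natDegree, mul_one]
    · rw [degree_eq_natDegree fm.ne_zero, degree_eq_natDegree hm.ne_zero, fd, dh]
      exact_mod_cast Nat.lt_succ_self _
    · rw [← sub_mul, hf]
      exact mul_dvd_mul_right X_sub_C_dvd_sub_C_eval _
  · rw [diagonal_apply_ne _ (Fin.succ_ne_zero j).symm]
    exact ta_dvd fm ⟨δ * po fun k => P1 k j, by rw [hf]; ring⟩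
  · rw [diagonal_apply_ne _ (Fin.succ_ne_zero i)]
    exact ta_dvd fm ⟨δ * po fun k => P1 k i, by rw [hf]; ring⟩
  · have h1 := congrFun (congrFun he i) j
    rw [conj_apply, Gn_form] at h1
    rw [show δ * ((X - C α) * po fun k => P1 k i) * ((X - C α) * po fun k => P1 k j) =
      δ * (X - C α) ^ 2 * (po fun k => P1 k i) * po fun k => P1 k j by ring, h1]
    by_cases c : i = j
    · rw [c, diagonal_apply_eq, diagonal_apply_eq, Fin.cons_succ]
    · rw [diagonal_apply_ne _ c, diagonal_apply_ne _ fun d => c (Fin.succ_injective _ d)]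

end ring

/-- the block is nondegenerate -/
theorem det_ne' {F : Type} [Field F] {g : ℕ} (a : F) {h ν : F[X]} (hm : h.Monic)
    (hd : h.natDegree = 2 * g) (hr : IsCoprime ν h) :
    (Gn (2 * g) g ((X - C a) * h) (ν * (X - C a))).det ≠ 0 := by
  classical
  intro e
  obtain ⟨v, v0, hv⟩ := Matrix.exists_mulVec_eq_zero_iff.2 e
  have q0 : po v ≠ 0 := fun c => v0 (po_inj hm hd (c ▸ dvd_zero _))
  have q1 : (po v).natDegree < 2 * g := (natDegree_lt_iff_degree_lt q0).2 (po_degree v)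
  obtain ⟨k, hk⟩ : ∃ k, 2 * g = 1 + k + (po v).natDegree := ⟨2 * g - 1 - (po v).natDegree, by omega⟩
  obtain ⟨u, w, c3⟩ := hr
  have hf : ((X - C a) * h).Monic := (monic_X_sub_C a).mul hm
  have m1 : ((X - C a) * X ^ k : F[X]).Monic := (monic_X_sub_C a).mul (monic_X_pow k)
  have m2 : ((X - C a) * X ^ k * po v).natDegree = 2 * g := by
    rw [m1.natDegree_mul' q0, (monic_X_sub_C a).natDegree_mul (monic_X_pow k), natDegree_X_sub_C,
      natDegree_X_pow, ← hk]
  have h1 := Gn_form (g := g) (f := (X - C a) * h) (ν * (X - C a)) (ve (2 * g) h (u * X ^ k)) v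
  have m3 := coeff_natDegree (p := (X - C a) * X ^ k * po v)
  rw [m2, leadingCoeff_monic_mul m1] at m3
  rw [hv, dotProduct_zero, po_ve hm hd, ta_congr hf (Q := (X - C a) * X ^ k * po v), ta_of_lt hf,
    m3] at h1
  · exact q0 (leadingCoeff_eq_zero.1 h1.symm)
  · refine degree_lt_degree ?_
    rw [m2, (monic_X_sub_C a).natDegree_mul hm, natDegree_X_sub_C, hd]
    omega
  · obtain ⟨z, hz⟩ := dvd_sub_mod (f := h) (u * X ^ k)
    refine ⟨-(ν * po v * z) - w * X ^ k * po v, ?_⟩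
    linear_combination ((X - C a) * X ^ k * po v) * c3 - (ν * (X - C a) * po v) * hz

theorem nm {F : Type} [Field F] {g : ℕ} (a : F) {h : F[X]} (hm : h.Monic)
    (hd : h.natDegree = 2 * g) : Nm ((X - C a) * h) (h + (X - C a)) = h.eval a * h.eval a := by
  rw [(gram.1 F _ (monic_X_sub_C a)).2.2.2.2.1 h hm,
    (gram.1 F h hm).2.1 _ (X - C a) (by rw [add_sub_cancel_right])]
  unfold Nm
  rw [natDegree_X_sub_C, resultant_X_sub_C_left _ _ _ le_rfl, resultant_X_sub_C_right _ _ _ le_rfl,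
    hd, pow_mul]
  simp

variable {p : ℕ} [Fact p.Prime]

theorem detG {g : ℕ} {f : ℤ[X]} (hf : Zq g f) (r : ℤ_[p][X]) :
    (Gm g (zK f ℤ_[p]) r).det = (-1) ^ g * Nm (zK f ℤ_[p]) r := by
  have inj : Function.Injective (PadicInt.Coe.ringHom (p := p)) := Subtype.val_injective
  apply inj
  have h3 := (gram.2 _ g _ (hf.sq ℚ_[p])).1 (iq p r)
  rw [Gm_iq hf, ← RingHom.mapMatrix_apply, ← RingHom.map_det, ← iq_zK,
    (gram.1 _ _ (hf.mo _)).2.2.2.2.2] at h3
  rw [h3, map_mul, map_pow, map_neg, map_one]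

theorem rdv (α : ℤ_[p]) (q : ℤ_[p][X]) :
    PadicInt.toZMod (q.eval α) = (rq p q).eval (PadicInt.toZMod α) := by
  rw [← eval₂_at_apply, ← eval_map]

end ShzA

open ShzA

theorem shz_n : HENStmt → SHZStmt := by
  intro hen p _ g f a r hp hf hR hr
  obtain ⟨α, h, t, H⟩ := hen p g f a hf hR
  have hm := hf.mo ℤ_[p]
  have dh : h.natDegree = 2 * g := by
    have hdg := hf.dg ℤ_[p]
    rw [H.eq, (monic_X_sub_C α).natDegree_mul H.monic, natDegree_X_sub_C] at hdg
    omega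
  have e3 : zK f (ZMod p) = (X - C (a : ZMod p)) * rq p h := by
    rw [← rq_zK, H.eq]; simp [rq, H.red]
  have m1 : (rq p h).Monic := H.monic.map _
  have d1 : (rq p h).natDegree = 2 * g := by rw [H.monic.natDegree_map, dh]
  have c1 : IsCoprime (X - C (a : ZMod p)) (rq p h) :=
    (irreducible_X_sub_C _).coprime_iff_not_dvd.2 fun c => H.ne (dvd_iff_isRoot.1 c)
  have r0 : (rq p r).eval (a : ZMod p) ≠ 0 := fun c => by
    obtain ⟨y, z, hy⟩ := hr
    simpa [c, e3] using congrArg (eval (a : ZMod p)) hy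
  have un := H.un
  have hM : IsUnit (Gn (2 * g) g (zK f ℤ_[p]) (r * t * (X - C α) ^ 2)).det := by
    rw [unit_iff, RingHom.map_det, RingHom.mapMatrix_apply, ← Gn_map hm]
    have := det_ne' (a : ZMod p) m1 d1
      ((e3 ▸ hr).of_mul_right_right.mul_left (c1.pow_left (m := 2)))
    rw [← e3, ← rq_zK] at this
    rw [show (r * t * (X - C α) ^ 2 : ℤ_[p][X]).map PadicInt.toZMod =
      rq p r * (X - C (a : ZMod p)) ^ 2 * (X - C (a : ZMod p)) by
        rw [Polynomial.map_mul, Polynomial.map_mul, Polynomial.map_pow, Polynomial.map_sub, map_X,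
          map_C, H.red, show t.map PadicInt.toZMod = _ from un]
        ring]
    exact this
  obtain ⟨e, ⟨P1, -, hP1⟩, he⟩ := diag _ (two_unit hp) _ _ (Gn_symm _ _) hM
  obtain ⟨P, hP⟩ := blk α H.monic dh H.eq P1
  have k1 := hP _ e hP1
  have k2 := hP (r * (h + t)) e (by
    rw [Gn_cg hm _ 1 (ν' := r * t * (X - C α) ^ 2) ⟨r * (X - C α), by rw [H.eq, C_1]; ring⟩,
      one_smul, hP1])
  have k3 := hP (r * zK (pw p f a) ℤ_[p]) (fun i => p * e i) (by
    obtain ⟨z, hz⟩ := H.pi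
    rw [Gn_cg hm _ (p : ℤ_[p]) (ν' := r * t * (X - C α) ^ 2) ⟨r * (X - C α) * z, by
      rw [H.eq]; linear_combination (r * (X - C α) ^ 2) * hz⟩, Matrix.mul_smul, Matrix.smul_mul,
      hP1, ← diagonal_smul]
    rfl)
  have w1 : PadicInt.toZMod ((r * zK (pw p f a) ℤ_[p] * h).eval α) =
      (rq p r).eval (a : ZMod p) * ((rq p h).eval (a : ZMod p) ^ 2) ^ 2 := by
    rw [eval_mul, eval_mul, map_mul, map_mul, H.val, rdv, rdv, H.red]
    ring
  have t0 : PadicInt.toZMod (t.eval α) = 0 := by rw [rdv, H.red, un]; simp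
  have n1 : PadicInt.toZMod (Nm (zK f ℤ_[p]) (h + t)) =
      (rq p h).eval (a : ZMod p) * (rq p h).eval (a : ZMod p) := by
    rw [← (gram.1 _ _ hm).2.2.2.2.2, zK_map, e3, Polynomial.map_add,
      show t.map PadicInt.toZMod = _ from un]
    exact nm _ m1 d1
  have k4 := congrArg (fun M => PadicInt.toZMod (det M)) k2
  simp only [det_mul, det_transpose, det_diagonal, detG hf, (gram.1 _ _ hm).1, Fin.prod_univ_succ,
    Fin.cons_zero, Fin.cons_succ, eval_mul, eval_add, map_mul, map_add, n1, t0, rdv α r, rdv α h,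
    H.red] at k4
  have E0 : PadicInt.toZMod (∏ i, e i) ≠ 0 := unit_iff.1 (IsUnit.prod_univ_iff.2 he)
  have h0 := H.ne
  refine ⟨_, e, P, unit_iff.2 fun c => ?_, unit_iff.2 ?_, he, ?_, ?_, k3, ?_⟩
  · rw [c, zero_mul, zero_mul, add_zero] at k4
    exact mul_ne_zero (mul_ne_zero (mul_ne_zero r0 h0) h0) E0 k4.symm
  · rw [w1]
    exact mul_ne_zero r0 (pow_ne_zero _ (pow_ne_zero _ h0))
  · rw [w1]
    refine ⟨fun ⟨z, hz⟩ => ⟨z / (rq p h).eval (a : ZMod p) ^ 2, ?_⟩,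
      fun c => c.mul (IsSquare.sq _)⟩
    field_simp
    linear_combination hz
  · rw [map_mul, map_mul, map_mul, w1]
    refine ⟨PadicInt.toZMod ((-1 : ℤ_[p]) ^ g) * (rq p h).eval (a : ZMod p) ^ 2 *
      PadicInt.toZMod (Nm (zK f ℤ_[p]) r) * PadicInt.toZMod P.det, ?_⟩
    linear_combination (-(PadicInt.toZMod ((-1 : ℤ_[p]) ^ g) * (rq p h).eval (a : ZMod p) ^ 2 *
      PadicInt.toZMod (Nm (zK f ℤ_[p]) r))) * k4
  · rw [← un, ← Polynomial.map_mul, ← rq_zK, Gm_map hm, ← transpose_map, ← Matrix.map_mul,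
      ← Matrix.map_mul, k1, diagonal_map (map_zero _)]
    congr 1
    funext i
    refine Fin.cases ?_ (fun i => rfl) i
    rw [Fin.cons_zero, Fin.cons_zero, eval_mul, eval_mul, map_mul, map_mul, t0, mul_zero, zero_mul]

end Pool.Agent.MP_a43263_nt.N2

end

end PkN2Shz

section PkN2Stq

/-! The condition at a prime of `Q`. -/

set_option autoImplicit false

noncomputable section

namespace Pool.Agent.MP_a43263_nt.N2

open Polynomial Finset Matrix JC Pool.Agent.MP_a43263_nt.UV K2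

namespace StqA

theorem cx_mul {g : ℕ} {f : ℤ[X]} (hf : f.Monic) (R : Type) [CommRing R]
    (c : Fin (2 * g + 1) → R) (i : Fin (2 * g + 1)) :
    (mK (Cx g f) R *ᵥ c) i = ((X * po c) %ₘ zK f R).coeff i.1 := by
  have e : X * po c = ∑ j, c j • (X : R[X]) ^ (j.1 + 1) := by
    rw [po, mul_sum]
    refine sum_congr rfl fun j _ => ?_
    rw [smul_eq_C_mul, pow_succ]
    ring
  rw [e, ← modByMonicHom_apply, map_sum, finsetSum_coeff]
  simp only [mulVec, dotProduct, mK_apply, Cx, of_apply]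
  refine sum_congr rfl fun j _ => ?_
  rw [map_smul, modByMonicHom_apply, coeff_smul, smul_eq_mul, mul_comm]
  congr 1
  have := map_modByMonic (Int.castRingHom R) (p := X ^ (j.1 + 1)) hf
  rw [Polynomial.map_pow, map_X] at this
  rw [← this, coeff_map, eq_intCast]

end StqA

theorem stq_n : STQStmt := by
  intro q g f r A T hq hf ⟨h, e, hi, t, ht⟩ hco ⟨s, hrs⟩ ⟨Γ, u, _, hu, hG, hT⟩ hch
  have := Fact.mk hq
  have h1 : h.Monic := monic_X.of_mul_monic_left (e ▸ hf.mo (ZMod q))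
  have h2 : h.natDegree = 2 * g := by
    have := hf.dg (ZMod q)
    rw [e, natDegree_X_mul h1.ne_zero] at this
    omega
  have h3 : t ≠ 0 := fun c => by
    have := degree_eq_one_of_irreducible_of_root hi (x := 0) (by rw [IsRoot.def, ht, c, mul_zero])
    have := natDegree_eq_of_degree_eq_some (n := 1) this
    omega
  have h4 : (zK r (ZMod q)).eval 0 = s * s := by rw [eval_zero_map, eq_intCast, hrs]
  have h5 : s ≠ 0 := fun c => by
    obtain ⟨a, b, hab⟩ := hco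
    have := congrArg (eval 0) hab
    rw [eval_add, eval_mul, eval_mul, h4, c, e] at this
    simp at this
  have h6 : (u : ZMod q) ≠ 0 := fun c => hu ((ZMod.intCast_zmod_eq_zero_iff_dvd u q).1 c)
  obtain ⟨c, hc⟩ : ∃ c : Fin (2 * g + 1) → ZMod q, po c = h :=
    ⟨_, po_of_lt (by rw [degree_eq_natDegree h1.ne_zero, h2]; exact_mod_cast by omega)⟩
  refine ⟨mK T (ZMod q), (mK_mul A T).symm, by rw [charpoly_map, hch], mK Γ (ZMod q) *ᵥ c,
    u * (s * t), mul_ne_zero h6 (mul_ne_zero h5 h3), ?_, ?_⟩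
  · have a1 : mK (Cx g f) (ZMod q) *ᵥ c = 0 := funext fun i => by
      rw [StqA.cx_mul hf.monic, hc, ← e, (modByMonic_eq_zero_iff_dvd (hf.mo _)).2 dvd_rfl,
        coeff_zero, Pi.zero_apply]
    rw [mulVec_mulVec, ← mK_mul, hT, mK_mul, ← mulVec_mulVec, a1, mulVec_zero]
  · have a1 : (mK Γ (ZMod q) *ᵥ c) ⬝ᵥ mK A (ZMod q) *ᵥ (mK Γ (ZMod q) *ᵥ c) =
        c ⬝ᵥ mK (Γᵀ * A * Γ) (ZMod q) *ᵥ c := by
      rw [mK_mul, mK_mul, mK_transpose, ← mulVec_mulVec, ← mulVec_mulVec,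
        dotProduct_mulVec c, vecMul_transpose]
    have a2 : X ∣ zK r (ZMod q) * h - C ((s * t) ^ 2) := by
      rw [X_dvd_iff, coeff_zero_eq_eval_zero, eval_sub, eval_mul, eval_C, ht, h4]
      ring
    rw [a1, hG, mK, ← Gm_map hf.monic, Gm_form, hc,
      ta_congr (hf.mo _) (Q := C ((u * (s * t) : ZMod q) ^ 2) * h) ?_, ta_C_mul,
      ta_of_lt (hf.mo _) (degree_lt_degree (by rw [h2, hf.dg]; omega)),
      show h.coeff (2 * g) = 1 from h2 ▸ h1.coeff_natDegree, mul_one]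
    rw [e]
    refine (mul_dvd_mul_right (a2.mul_left (C ((u : ZMod q) ^ 2))) h).trans (dvd_of_eq ?_)
    rw [Polynomial.map_mul, map_C, map_pow (Int.castRingHom (ZMod q)), eq_intCast, mul_pow (u : ZMod q),
      C_mul]
    ring

end Pool.Agent.MP_a43263_nt.N2

end

end PkN2Stq
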